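import Pool.Agent.Lib_MP_75bf3e.Sq

/-!
# Piece AATWO: from balls to squares

The square `sq c l` (`l = 2^k`) is contained in the ball with centre `c + (l/2)(1 + I)` and radius
`r = 3 l/4` (as `l/√2 < 3l/4`), of area `π r^2 = (9π/16) l^2 ≤ 2 l^2`.  So
`mn w P ≤ l^{-2} ∫_B w ≤ 2 * (average of w over B)`, the same for `w⁻¹`, hence the product is `≤ 4 K`.
The `A_2` condition in the frozen statement has the exponents `-(1/(2-1))` and `2 - 1` (real powers); we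
state it here for plain inverses.
-/

set_option autoImplicit false

open MeasureTheory

namespace Pool.MP_75bf3e_an.BT

/-- the square lies in the ball of radius `3 l / 4` around its centre -/
private theorem AATWO_sub (c : ℂ) {l : ℝ} (hl : 0 < l) :
    sq c l ⊆ Metric.ball (⟨c.re + l / 2, c.im + l / 2⟩ : ℂ) (3 * l / 4) := by
  rintro z ⟨h1, h2, h3, h4⟩
  rw [Metric.mem_ball, Complex.dist_eq, Complex.norm_eq_sqrt_sq_add_sq]
  have e1 : (z - (⟨c.re + l / 2, c.im + l / 2⟩ : ℂ)).re = z.re - (c.re + l / 2) := by simp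
  have e2 : (z - (⟨c.re + l / 2, c.im + l / 2⟩ : ℂ)).im = z.im - (c.im + l / 2) := by simp
  rw [e1, e2, Real.sqrt_lt' (by positivity)]
  have h5 : (z.re - (c.re + l / 2)) ^ 2 ≤ (l / 2) ^ 2 := sq_le_sq' (by linarith) (by linarith)
  have h6 : (z.im - (c.im + l / 2)) ^ 2 ≤ (l / 2) ^ 2 := sq_le_sq' (by linarith) (by linarith)
  nlinarith [mul_pos hl hl]

/-- the volume of a ball -/
private theorem AATWO_vol (c : ℂ) {r : ℝ} (hr : 0 ≤ r) :
    (volume (Metric.ball c r)).toReal = Real.pi * r ^ 2 := by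
  rw [Complex.volume_ball, ENNReal.toReal_mul, ENNReal.toReal_pow, ENNReal.toReal_ofReal hr]
  simp [mul_comm]

private theorem AATWO_int (g : ℂ → ℝ) (hg : LocallyIntegrable g volume) (c : ℂ) (r : ℝ) :
    IntegrableOn g (Metric.ball c r) volume :=
  (hg.integrableOn_isCompact (isCompact_closedBall c r)).mono_set Metric.ball_subset_closedBall

/-- the mean over the square is at most twice the mean over the ball -/
private theorem AATWO_mn (g : ℂ → ℝ) (hg : LocallyIntegrable g volume) (h0 : ∀ z, 0 ≤ g z)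
    (P : ℂ × ℤ) (c : ℂ) (hc : c = ⟨P.1.re + (2 : ℝ) ^ P.2 / 2, P.1.im + (2 : ℝ) ^ P.2 / 2⟩) :
    0 ≤ mn g P ∧ mn g P ≤ 2 * ((volume (Metric.ball c (3 * (2 : ℝ) ^ P.2 / 4))).toReal⁻¹ *
      ∫ z in Metric.ball c (3 * (2 : ℝ) ^ P.2 / 4), g z) := by
  have hl : (0 : ℝ) < (2 : ℝ) ^ P.2 := by positivity
  have hsub : sqn P ⊆ Metric.ball c (3 * (2 : ℝ) ^ P.2 / 4) := by
    rw [hc]
    exact AATWO_sub P.1 hl
  have hI : ∫ z in sqn P, g z ≤ ∫ z in Metric.ball c (3 * (2 : ℝ) ^ P.2 / 4), g z :=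
    setIntegral_mono_set (AATWO_int g hg _ _) (Filter.Eventually.of_forall h0)
      (Filter.Eventually.of_forall hsub)
  have hI0 : 0 ≤ ∫ z in sqn P, g z := integral_nonneg h0
  have hB0 : 0 ≤ ∫ z in Metric.ball c (3 * (2 : ℝ) ^ P.2 / 4), g z := integral_nonneg h0
  rw [AATWO_vol _ (by positivity)]
  unfold mn
  refine ⟨mul_nonneg (by positivity) hI0, ?_⟩
  have hcoef : ((2 : ℝ) ^ P.2 * (2 : ℝ) ^ P.2)⁻¹ ≤
      2 * (Real.pi * (3 * (2 : ℝ) ^ P.2 / 4) ^ 2)⁻¹ := by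
    rw [← div_eq_mul_inv, inv_eq_one_div, div_le_div_iff₀ (by positivity) (by positivity)]
    have h1 := Real.pi_lt_d2
    have h2 := mul_pos hl hl
    nlinarith
  calc ((2 : ℝ) ^ P.2 * (2 : ℝ) ^ P.2)⁻¹ * ∫ z in sqn P, g z
      ≤ (2 * (Real.pi * (3 * (2 : ℝ) ^ P.2 / 4) ^ 2)⁻¹) *
        ∫ z in Metric.ball c (3 * (2 : ℝ) ^ P.2 / 4), g z :=
        mul_le_mul hcoef hI hI0 (by positivity)
    _ = _ := by rw [mul_assoc]

theorem a2_sq (w : ℂ → ℝ) (hw : ∀ z, 0 < w z) (h1 : LocallyIntegrable w volume)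
    (h2 : LocallyIntegrable (fun z => (w z)⁻¹) volume) (K : ℝ)
    (hK : ∀ c : ℂ, ∀ r : ℝ, 0 < r →
      ((volume (Metric.ball c r)).toReal⁻¹ * ∫ z in Metric.ball c r, w z) *
        ((volume (Metric.ball c r)).toReal⁻¹ * ∫ z in Metric.ball c r, (w z)⁻¹) ≤ K)
    (P : ℂ × ℤ) : mn w P * mn (fun z => (w z)⁻¹) P ≤ 4 * K := by
  obtain ⟨a0, a1⟩ := AATWO_mn w h1 (fun z => (hw z).le) P _ rfl
  obtain ⟨b0, b1⟩ := AATWO_mn (fun z => (w z)⁻¹) h2 (fun z => (inv_pos.2 (hw z)).le) P _ rfl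
  have h3 := hK ⟨P.1.re + (2 : ℝ) ^ P.2 / 2, P.1.im + (2 : ℝ) ^ P.2 / 2⟩ (3 * (2 : ℝ) ^ P.2 / 4)
    (by positivity)
  calc mn w P * mn (fun z => (w z)⁻¹) P ≤ _ := mul_le_mul a1 b1 b0 (a0.trans a1)
    _ ≤ 4 * K := by linarith

/-- the `A_2` constant is at least `1` -/
theorem one_le_a2 (w : ℂ → ℝ) (hw : ∀ z, 0 < w z) (h1 : LocallyIntegrable w volume)
    (h2 : LocallyIntegrable (fun z => (w z)⁻¹) volume) (K : ℝ)
    (hK : ∀ c : ℂ, ∀ r : ℝ, 0 < r →
      ((volume (Metric.ball c r)).toReal⁻¹ * ∫ z in Metric.ball c r, w z) *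
        ((volume (Metric.ball c r)).toReal⁻¹ * ∫ z in Metric.ball c r, (w z)⁻¹) ≤ K) : 1 ≤ K := by
  have h3 := hK 0 1 one_pos
  have hV : (0 : ℝ) < (volume (Metric.ball (0 : ℂ) 1)).toReal := by
    rw [AATWO_vol _ zero_le_one]
    positivity
  have i1 := AATWO_int w h1 0 1
  have i2 := AATWO_int _ h2 0 1
  have hb0 : 0 ≤ ∫ z in Metric.ball (0 : ℂ) 1, (w z)⁻¹ :=
    integral_nonneg fun z => (inv_pos.2 (hw z)).le
  have key : ∀ t : ℝ, 0 < t → 2 * (volume (Metric.ball (0 : ℂ) 1)).toReal ≤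
      t * (∫ z in Metric.ball (0 : ℂ) 1, w z) + t⁻¹ * ∫ z in Metric.ball (0 : ℂ) 1, (w z)⁻¹ := by
    intro t ht
    have e1 : ∫ z in Metric.ball (0 : ℂ) 1, (2 : ℝ) = 2 * (volume (Metric.ball (0 : ℂ) 1)).toReal := by
      rw [setIntegral_const, smul_eq_mul, mul_comm]
      rfl
    have e2 : ∫ z in Metric.ball (0 : ℂ) 1, (t * w z + t⁻¹ * (w z)⁻¹) =
        t * (∫ z in Metric.ball (0 : ℂ) 1, w z) + t⁻¹ * ∫ z in Metric.ball (0 : ℂ) 1, (w z)⁻¹ := by
      rw [integral_add (i1.const_mul t) (i2.const_mul t⁻¹), integral_const_mul, integral_const_mul]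
    rw [← e1, ← e2]
    refine integral_mono (integrableOn_const (by
      rw [Complex.volume_ball]; finiteness)) ((i1.const_mul t).add (i2.const_mul t⁻¹)) fun z => ?_
    have h4 : 0 < t * w z := mul_pos ht (hw z)
    have h5 : t⁻¹ * (w z)⁻¹ = (t * w z)⁻¹ := by rw [mul_inv]
    change (2 : ℝ) ≤ t * w z + t⁻¹ * (w z)⁻¹
    rw [h5]
    have h6 : t * w z * (t * w z)⁻¹ = 1 := mul_inv_cancel₀ h4.ne'
    nlinarith [sq_nonneg (t * w z - 1), inv_pos.2 h4]
  generalize (volume (Metric.ball (0 : ℂ) 1)).toReal = V at *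
  generalize (∫ z in Metric.ball (0 : ℂ) 1, w z) = a at *
  generalize (∫ z in Metric.ball (0 : ℂ) 1, (w z)⁻¹) = b at *
  have hb : 0 < b := by
    rcases hb0.lt_or_eq with h | h
    · exact h
    · exfalso
      have h4 := key (V / (|a| + 1)) (by positivity)
      rw [← h, mul_zero, add_zero] at h4
      have h5 : V / (|a| + 1) * a ≤ V := by
        rw [div_mul_eq_mul_div, div_le_iff₀ (by positivity)]
        nlinarith [le_abs_self a]
      linarith
  have h6 := key (b / V) (by positivity)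
  have h7 : (b / V)⁻¹ * b = V := by
    field_simp
  rw [h7] at h6
  have h8 : V⁻¹ * a * (V⁻¹ * b) = (b / V * a) / V := by
    field_simp
  rw [h8] at h3
  have h9 : 1 ≤ b / V * a / V := by
    rw [le_div_iff₀ hV]
    linarith
  linarith

end Pool.MP_75bf3e_an.BT
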