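import Pool.Agent.Lib_MP_75bf3e.Sq

/-!
# Definitions for the averaging step

* `tent l` : the probability that two points with difference `z` lie in a common square of side `l`;
* `tl A l = A/max (tent l, 1/2)`;
* `F1 A l u = ∫_{v ∈ [0,l)²} tl A l (u - v)`;
* `rr A l` : the remainder kernel;
* `II A f g = ∬ A(x-y) f(y) g(x)`;
* `WW G f g P` : the same over the square of `P` with the means removed;
* `Ker κ D A` : kernels at scale `D` with constant `κ`.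
-/

set_option autoImplicit false

open MeasureTheory

namespace Pool.MP_75bf3e_an.BT

noncomputable def tent (l : ℝ) (z : ℂ) : ℝ := max 0 (1 - |z.re| / l) * max 0 (1 - |z.im| / l)

noncomputable def tl (A : ℂ → ℂ) (l : ℝ) (z : ℂ) : ℂ := A z / ((max (tent l z) (1 / 2) : ℝ) : ℂ)

noncomputable def F1 (A : ℂ → ℂ) (l : ℝ) (u : ℂ) : ℂ := ∫ v in sq 0 l, tl A l (u - v)

open Classical in
noncomputable def rr (A : ℂ → ℂ) (l : ℝ) (z : ℂ) : ℂ :=
  ((l ^ 4 : ℝ) : ℂ)⁻¹ * ∫ u in sq 0 l,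
    ((if u - z ∈ sq 0 l then 1 else 0) + (if u + z ∈ sq 0 l then 1 else 0) : ℂ) * F1 A l u

noncomputable def II (A : ℂ → ℂ) (f g : ℂ → ℝ) : ℂ := ∫ x, ∫ y, A (x - y) * ((f y * g x : ℝ) : ℂ)

noncomputable def WW (G : ℂ → ℂ) (f g : ℂ → ℝ) (P : ℂ × ℤ) : ℂ :=
  ∫ x in sqn P, ∫ y in sqn P, G (x - y) * (((f y - mn f P) * (g x - mn g P) : ℝ) : ℂ)

/-- kernels at scale `D`: supported in the box of half width `D`, of size `κ D^{-2}`, Hoelder `1/2`,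
even and of mean zero -/
structure Ker (κ D : ℝ) (A : ℂ → ℂ) : Prop where
  supp : ∀ z : ℂ, (D ≤ |z.re| ∨ D ≤ |z.im|) → A z = 0
  bdd : ∀ z, ‖A z‖ ≤ κ / D ^ 2
  hol : ∀ z z', ‖A z - A z'‖ ≤ κ / D ^ 2 * √(‖z - z'‖ / D)
  even : ∀ z, A (-z) = A z
  mean : ∫ z, A z = 0

/-- the cell condition: cancellation of `G (x - ·)` against martingale differences of squares of side
`2^(k-a)` -/
def CellBd (G : ℂ → ℂ) (k : ℤ) (ω : ℕ → ℝ) : Prop :=
  ∀ (a : ℕ) (c' x : ℂ) (h : Fin 4 → ℝ), ∑ i, h i = 0 →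
    ‖∑ i, (h i : ℂ) * ∫ y in sqn (chC i (c', k - a)), G (x - y)‖
      ≤ ω a * (((2 : ℝ) ^ (k - (a : ℤ))) ^ 2 * ((∑ i, |h i|) / 4))

end Pool.MP_75bf3e_an.BT
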