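import Pool.Agent.Lib_MP_75bf3e.Star
import Pool.Agent.Lib_MP_75bf3e.ADefs

/-!
# Piece ACELL: conditional expectations and martingale differences on a square

`En N f P` is the conditional expectation of `f` on the cells of depth `N` of the square of `P`, extended by `0`;
`Dn a f P = En (a+1) f P - En a f P`.  Everything is by induction on the depth with
`En (N+1) f P = Σ_i En N f (chC i P)`, `Dn (a+1) f P = Σ_i Dn a f (chC i P)`, `Df (a+1) f P = av chC (Df a f) P`.

* `Dn 0 f P y = Σ_i 1(y ∈ sqn (chC i P)) (mn f (chC i P) - mn f P)` (`indicator_sqn`); the children are disjoint (their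
  indicators sum to an indicator), each of area `(2^k)^2/4`; so `∫_{sqn P} |Dn 0| = (2^k)^2 * delta chC (mn f) P`.
* `int_Dn`: for `a = 0` apply the hypothesis with `h_i = mn f (chC i P) - mn f P`, `Σ h_i = 0` by `av_mn`; for `a + 1`
  split the integral over the children (`setIntegral_sqn`; `Dn a f (chC j P)` vanishes outside its square) and use
  the induction hypothesis for the children `(c + ..., k - 1)`: `(k-1) - a = k - (a+1)`, and
  `Σ_i (2^(k-1))^2 Df a f (chC i P) = (2^k)^2 Df (a+1) f P`.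
* `abs_sub_En_le`: `y` lies in a cell `J ⊂ sqn P` of side `2^(k-N)` and `En N f P y = mn f J`, the mean of `f` over `J`
  (induction on `N`; `N = 0`: `|f y - mn f P| ≤ ε` because `sqn P` has diameter `≤ 2 * 2^k`).
-/

set_option autoImplicit false

open MeasureTheory

namespace Pool.MP_75bf3e_an.BT

open Classical in
noncomputable def En : ℕ → (ℂ → ℝ) → ℂ × ℤ → ℂ → ℝ
  | 0, f, P, y => if y ∈ sqn P then mn f P else 0
  | N + 1, f, P, y => ∑ i, En N f (chC i P) y

noncomputable def Dn (a : ℕ) (f : ℂ → ℝ) (P : ℂ × ℤ) (y : ℂ) : ℝ := En (a + 1) f P y - En a f P y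

private theorem one_of_four {p : Fin 4 → Prop} [∀ i, Decidable (p i)]
    (h : ∑ i, (if p i then (1 : ℝ) else 0) = 1) : ∃ j, p j ∧ ∀ i, i ≠ j → ¬ p i := by
  rw [Fin.sum_univ_four] at h
  by_cases h0 : p 0 <;> by_cases h1 : p 1 <;> by_cases h2 : p 2 <;> by_cases h3 : p 3 <;>
    simp only [h0, h1, h2, h3, if_true, if_false] at h <;> norm_num at h
  · refine ⟨0, h0, fun i hi => ?_⟩
    fin_cases i
    · exact absurd rfl hi
    · exact h1
    · exact h2
    · exact h3
  · refine ⟨1, h1, fun i hi => ?_⟩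
    fin_cases i
    · exact h0
    · exact absurd rfl hi
    · exact h2
    · exact h3
  · refine ⟨2, h2, fun i hi => ?_⟩
    fin_cases i
    · exact h0
    · exact h1
    · exact absurd rfl hi
    · exact h3
  · refine ⟨3, h3, fun i hi => ?_⟩
    fin_cases i
    · exact h0
    · exact h1
    · exact h2
    · exact absurd rfl hi

open Classical in
private theorem exists_child {P : ℂ × ℤ} {y : ℂ} (hy : y ∈ sqn P) :
    ∃ j, y ∈ sqn (chC j P) ∧ ∀ i, i ≠ j → y ∉ sqn (chC i P) := by
  apply one_of_four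
  have h := indicator_sqn P y
  rw [Set.indicator_of_mem hy] at h
  have e : ∑ i, (if y ∈ sqn (chC i P) then (1 : ℝ) else 0) =
      ∑ i, (sqn (chC i P)).indicator (fun _ => (1 : ℝ)) y := by
    apply Finset.sum_congr rfl
    intro i _
    rw [Set.indicator_apply]
  rw [e]
  exact h

private theorem child_unique {P : ℂ × ℤ} {y : ℂ} {j : Fin 4} (hy : y ∈ sqn (chC j P)) :
    ∀ i, i ≠ j → y ∉ sqn (chC i P) := by
  obtain ⟨j', h1, h2⟩ := exists_child (sqn_chC_subset j P hy)
  have : j = j' := by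
    by_contra hne
    exact h2 j hne hy
  rw [this]
  exact h2

private theorem side_child (k : ℤ) : (2 : ℝ) ^ (k - 1) = (2 : ℝ) ^ k / 2 := by
  rw [zpow_sub₀ two_ne_zero, zpow_one]

theorem measurable_En (N : ℕ) (f : ℂ → ℝ) (P : ℂ × ℤ) : Measurable (En N f P) := by
  induction N generalizing P with
  | zero => exact Measurable.ite (measurableSet_sq _ _) measurable_const measurable_const
  | succ N ih =>
    have : En (N + 1) f P = fun y => ∑ i, En N f (chC i P) y := rfl
    rw [this]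
    exact Finset.measurable_fun_sum _ fun i _ => ih _

theorem measurable_Dn (a : ℕ) (f : ℂ → ℝ) (P : ℂ × ℤ) : Measurable (Dn a f P) := by
  exact (measurable_En (a + 1) f P).sub (measurable_En a f P)

theorem En_eq_zero (N : ℕ) (f : ℂ → ℝ) (P : ℂ × ℤ) (y : ℂ) (hy : y ∉ sqn P) : En N f P y = 0 := by
  induction N generalizing P with
  | zero => exact if_neg hy
  | succ N ih =>
    show ∑ i, En N f (chC i P) y = 0
    exact Finset.sum_eq_zero fun i _ => ih _ fun h => hy (sqn_chC_subset i P h)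

private theorem En_zero_mem (f : ℂ → ℝ) {P : ℂ × ℤ} {y : ℂ} (hy : y ∈ sqn P) :
    En 0 f P y = mn f P := if_pos hy

private theorem En_succ_mem (N : ℕ) (f : ℂ → ℝ) {P : ℂ × ℤ} {y : ℂ} {j : Fin 4}
    (hy : y ∈ sqn (chC j P)) : En (N + 1) f P y = En N f (chC j P) y := by
  show ∑ i, En N f (chC i P) y = _
  exact Finset.sum_eq_single j (fun i _ hi => En_eq_zero N f _ y (child_unique hy i hi))
    (fun h => absurd (Finset.mem_univ j) h)

private theorem Dn_succ (a : ℕ) (f : ℂ → ℝ) (P : ℂ × ℤ) (y : ℂ) :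
    Dn (a + 1) f P y = ∑ i, Dn a f (chC i P) y := by
  unfold Dn
  rw [Finset.sum_sub_distrib]
  rfl

private theorem Dn_succ_mem (a : ℕ) (f : ℂ → ℝ) {P : ℂ × ℤ} {y : ℂ} {j : Fin 4}
    (hy : y ∈ sqn (chC j P)) : Dn (a + 1) f P y = Dn a f (chC j P) y := by
  unfold Dn
  rw [En_succ_mem (a + 1) f hy, En_succ_mem a f hy]

private theorem Dn_zero_mem (f : ℂ → ℝ) {P : ℂ × ℤ} {y : ℂ} {j : Fin 4}
    (hy : y ∈ sqn (chC j P)) : Dn 0 f P y = mn f (chC j P) - mn f P := by
  unfold Dn
  rw [En_succ_mem 0 f hy, En_zero_mem f hy, En_zero_mem f (sqn_chC_subset j P hy)]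

theorem cell_volume_ne_top (P : ℂ × ℤ) : volume (sqn P) ≠ ⊤ := by
  unfold sqn
  rw [volume_sq _ (by positivity)]
  exact ENNReal.ofReal_ne_top

theorem cell_volume_real (P : ℂ × ℤ) :
    (volume (sqn P)).toReal = (2 : ℝ) ^ P.2 * (2 : ℝ) ^ P.2 := volume_real_sq _ (by positivity)

theorem cell_integrable_En (N : ℕ) (f : ℂ → ℝ) (P : ℂ × ℤ) : Integrable (En N f P) volume := by
  induction N generalizing P with
  | zero =>
    have : En 0 f P = (sqn P).indicator (fun _ => mn f P) := by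
      funext y
      by_cases hy : y ∈ sqn P
      · rw [Set.indicator_of_mem hy, En_zero_mem f hy]
      · rw [Set.indicator_of_notMem hy, En_eq_zero 0 f P y hy]
    rw [this]
    exact (integrable_indicator_iff (measurableSet_sq _ _)).2
      (integrableOn_const (cell_volume_ne_top P))
  | succ N ih =>
    have : En (N + 1) f P = fun y => ∑ i, En N f (chC i P) y := rfl
    rw [this]
    exact integrable_finsetSum _ fun i _ => ih _

theorem cell_integrable_Dn (a : ℕ) (f : ℂ → ℝ) (P : ℂ × ℤ) : Integrable (Dn a f P) volume :=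
  (cell_integrable_En (a + 1) f P).sub (cell_integrable_En a f P)

theorem abs_mn_le (f : ℂ → ℝ) (hf : Continuous f) (B : ℝ) (hB : ∀ z, |f z| ≤ B) (P : ℂ × ℤ) :
    |mn f P| ≤ B := by
  unfold mn
  have hl : (0 : ℝ) < (2 : ℝ) ^ P.2 * (2 : ℝ) ^ P.2 := by positivity
  have h1 : ‖∫ z in sqn P, f z‖ ≤ B * (volume (sqn P)).toReal :=
    norm_setIntegral_le_of_norm_le_const (lt_top_iff_ne_top.2 (cell_volume_ne_top P))
      (fun z _ => hB z)
  rw [cell_volume_real, Real.norm_eq_abs] at h1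
  rw [abs_mul, abs_of_pos (inv_pos.2 hl), inv_mul_le_iff₀ hl, mul_comm]
  exact h1

theorem abs_En_le (N : ℕ) (f : ℂ → ℝ) (hf : Continuous f) (B : ℝ) (hB : ∀ z, |f z| ≤ B) (P : ℂ × ℤ)
    (y : ℂ) : |En N f P y| ≤ B := by
  have hB0 : 0 ≤ B := (abs_nonneg _).trans (hB 0)
  induction N generalizing P with
  | zero =>
    by_cases hy : y ∈ sqn P
    · rw [En_zero_mem f hy]
      exact abs_mn_le f hf B hB P
    · rw [En_eq_zero 0 f P y hy, abs_zero]
      exact hB0
  | succ N ih =>
    by_cases hy : y ∈ sqn P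
    · obtain ⟨j, hj, -⟩ := exists_child hy
      rw [En_succ_mem N f hj]
      exact ih _
    · rw [En_eq_zero _ f P y hy, abs_zero]
      exact hB0

theorem sum_Dn (N : ℕ) (f : ℂ → ℝ) (P : ℂ × ℤ) (y : ℂ) (hy : y ∈ sqn P) :
    ∑ a ∈ Finset.range N, Dn a f P y = En N f P y - mn f P := by
  unfold Dn
  rw [Finset.sum_range_sub (fun a => En a f P y), En_zero_mem f hy]

theorem integral_abs_Dn (a : ℕ) (f : ℂ → ℝ) (P : ℂ × ℤ) :
    ∫ y in sqn P, |Dn a f P y| = ((2 : ℝ) ^ P.2) ^ 2 * Df a f P := by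
  induction a generalizing P with
  | zero =>
    rw [setIntegral_sqn P _ (cell_integrable_Dn 0 f P).abs.integrableOn]
    have h1 : ∀ j, ∫ y in sqn (chC j P), |Dn 0 f P y| =
        ((2 : ℝ) ^ P.2) ^ 2 / 4 * |mn f (chC j P) - mn f P| := by
      intro j
      have h2 : ∫ y in sqn (chC j P), |Dn 0 f P y| =
          ∫ _ in sqn (chC j P), |mn f (chC j P) - mn f P| :=
        setIntegral_congr_fun (measurableSet_sq _ _) (fun y hy => by
          show |Dn 0 f P y| = _
          rw [Dn_zero_mem f hy])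
      rw [h2, setIntegral_const, smul_eq_mul]
      have h3 : (volume.real (sqn (chC j P))) = (2 : ℝ) ^ (P.2 - 1) * (2 : ℝ) ^ (P.2 - 1) :=
        cell_volume_real (chC j P)
      rw [h3, side_child]
      ring
    rw [Finset.sum_congr rfl (fun j _ => h1 j), ← Finset.mul_sum]
    show _ = ((2 : ℝ) ^ P.2) ^ 2 * ((∑ i, |mn f (chC i P) - mn f P|) / 4)
    ring
  | succ a ih =>
    rw [setIntegral_sqn P _ (cell_integrable_Dn (a + 1) f P).abs.integrableOn]
    have h1 : ∀ j, ∫ y in sqn (chC j P), |Dn (a + 1) f P y| =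
        ((2 : ℝ) ^ P.2) ^ 2 / 4 * Df a f (chC j P) := by
      intro j
      have h2 : ∫ y in sqn (chC j P), |Dn (a + 1) f P y| =
          ∫ y in sqn (chC j P), |Dn a f (chC j P) y| :=
        setIntegral_congr_fun (measurableSet_sq _ _) (fun y hy => by
          show |Dn (a + 1) f P y| = _
          rw [Dn_succ_mem a f hy])
      rw [h2, ih]
      show ((2 : ℝ) ^ (P.2 - 1)) ^ 2 * _ = _
      rw [side_child]
      ring
    rw [Finset.sum_congr rfl (fun j _ => h1 j), ← Finset.mul_sum]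
    show _ = ((2 : ℝ) ^ P.2) ^ 2 * ((∑ i, Df a f (chC i P)) / 4)
    ring

theorem int_Dn (a : ℕ) (f : ℂ → ℝ) (hf : Continuous f) (G : ℂ → ℂ) (hG : Continuous G) (ω : ℝ)
    (c : ℂ) (k : ℤ)
    (hc : ∀ (c' : ℂ) (h : Fin 4 → ℝ), ∑ i, h i = 0 →
      ‖∑ i, (h i : ℂ) * ∫ y in sqn (chC i (c', k - a)), G y‖
        ≤ ω * (((2 : ℝ) ^ (k - (a : ℤ))) ^ 2 * ((∑ i, |h i|) / 4))) :
    ‖∫ y in sqn (c, k), G y * ((Dn a f (c, k) y : ℝ) : ℂ)‖ ≤ ω * (((2 : ℝ) ^ k) ^ 2 * Df a f (c, k)) := by
  have hGD : ∀ (a : ℕ) (P : ℂ × ℤ),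
      IntegrableOn (fun y => G y * ((Dn a f P y : ℝ) : ℂ)) (sqn P) := by
    intro a P
    have hb : Bornology.IsBounded (sqn P) :=
      Metric.isBounded_closedBall.subset (sq_subset_closedBall P.1 (by positivity))
    obtain ⟨C, hC⟩ := (hb.isCompact_closure.image hG).isBounded.exists_norm_le
    refine Integrable.bdd_mul (c := C) ((cell_integrable_Dn a f P).ofReal.integrableOn)
      hG.aestronglyMeasurable ?_
    rw [ae_restrict_iff' (show MeasurableSet (sqn P) from measurableSet_sq _ _)]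
    exact Filter.Eventually.of_forall fun y hy =>
      hC _ (Set.mem_image_of_mem G (subset_closure hy))
  induction a generalizing c k with
  | zero =>
    rw [setIntegral_sqn (c, k) _ (hGD 0 (c, k))]
    have h1 : ∀ j, ∫ y in sqn (chC j (c, k)), G y * ((Dn 0 f (c, k) y : ℝ) : ℂ) =
        ((mn f (chC j (c, k)) - mn f (c, k) : ℝ) : ℂ) * ∫ y in sqn (chC j (c, k)), G y := by
      intro j
      have h2 : ∫ y in sqn (chC j (c, k)), G y * ((Dn 0 f (c, k) y : ℝ) : ℂ) =
          ∫ y in sqn (chC j (c, k)), ((mn f (chC j (c, k)) - mn f (c, k) : ℝ) : ℂ) * G y :=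
        setIntegral_congr_fun (measurableSet_sq _ _) (fun y hy => by
          show G y * ((Dn 0 f (c, k) y : ℝ) : ℂ) = _
          rw [Dn_zero_mem f hy, mul_comm])
      rw [h2, integral_const_mul]
    rw [Finset.sum_congr rfl (fun j _ => h1 j)]
    have h3 := hc c (fun j => mn f (chC j (c, k)) - mn f (c, k)) (by
      rw [Finset.sum_sub_distrib]
      have h4 := av_mn f hf.locallyIntegrable (c, k)
      unfold av at h4
      rw [Finset.sum_const, Finset.card_univ, Fintype.card_fin, nsmul_eq_mul]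
      push_cast
      linarith)
    rw [Nat.cast_zero, sub_zero] at h3
    exact h3
  | succ a ih =>
    rw [setIntegral_sqn (c, k) _ (hGD (a + 1) (c, k))]
    have h1 : ∀ j, ‖∫ y in sqn (chC j (c, k)), G y * ((Dn (a + 1) f (c, k) y : ℝ) : ℂ)‖ ≤
        ω * (((2 : ℝ) ^ k) ^ 2 / 4 * Df a f (chC j (c, k))) := by
      intro j
      have h2 : ∫ y in sqn (chC j (c, k)), G y * ((Dn (a + 1) f (c, k) y : ℝ) : ℂ) =
          ∫ y in sqn (chC j (c, k)), G y * ((Dn a f (chC j (c, k)) y : ℝ) : ℂ) :=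
        setIntegral_congr_fun (measurableSet_sq _ _) (fun y hy => by
          show G y * ((Dn (a + 1) f (c, k) y : ℝ) : ℂ) = _
          rw [Dn_succ_mem a f hy])
      rw [h2]
      have h3 := ih (c + shf j * (2 : ℂ) ^ (k - 1)) (k - 1) (by
        have e : k - 1 - (a : ℤ) = k - ((a + 1 : ℕ) : ℤ) := by push_cast; ring
        rw [e]
        exact hc)
      have e2 : ((2 : ℝ) ^ (k - 1)) ^ 2 = ((2 : ℝ) ^ k) ^ 2 / 4 := by
        rw [side_child]
        ring
      rw [e2] at h3
      exact h3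
    refine (norm_sum_le _ _).trans ((Finset.sum_le_sum fun j _ => h1 j).trans (le_of_eq ?_))
    rw [← Finset.mul_sum, ← Finset.mul_sum]
    show _ = ω * (((2 : ℝ) ^ k) ^ 2 * ((∑ i, Df a f (chC i (c, k))) / 4))
    ring

theorem abs_sub_En_le (N : ℕ) (f : ℂ → ℝ) (hf : Continuous f) (ε : ℝ) (c : ℂ) (k : ℤ)
    (hε : ∀ z z' : ℂ, ‖z - z'‖ ≤ 2 * (2 : ℝ) ^ (k - (N : ℤ)) → |f z - f z'| ≤ ε) (y : ℂ)
    (hy : y ∈ sqn (c, k)) : |f y - En N f (c, k) y| ≤ ε := by
  induction N generalizing c k with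
  | zero =>
    have e : En 0 f (c, k) y = mn f (c, k) := if_pos hy
    rw [e]
    have hl : (0 : ℝ) < (2 : ℝ) ^ k * (2 : ℝ) ^ k := by positivity
    have hint : IntegrableOn f (sqn (c, k)) := by
      have hb : Bornology.IsBounded (sqn (c, k)) :=
        Metric.isBounded_closedBall.subset (sq_subset_closedBall c (by positivity))
      exact (hf.continuousOn.integrableOn_compact hb.isCompact_closure).mono_set subset_closure
    have h1 : f y - mn f (c, k) =
        ((2 : ℝ) ^ k * (2 : ℝ) ^ k)⁻¹ * ∫ z in sqn (c, k), (f y - f z) := by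
      rw [integral_sub (show IntegrableOn (fun _ : ℂ => f y) (sqn (c, k)) volume from
        integrableOn_const (cell_volume_ne_top (c, k))) hint, setIntegral_const,
        smul_eq_mul, mul_sub]
      have h3 : (volume.real (sqn (c, k))) = (2 : ℝ) ^ k * (2 : ℝ) ^ k := cell_volume_real (c, k)
      rw [h3, ← mul_assoc, inv_mul_cancel₀ hl.ne', one_mul]
      rfl
    have h2 : ‖∫ z in sqn (c, k), (f y - f z)‖ ≤ ε * (volume (sqn (c, k))).toReal := by
      apply norm_setIntegral_le_of_norm_le_const (lt_top_iff_ne_top.2 (cell_volume_ne_top (c, k)))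
      intro z hz
      rw [Real.norm_eq_abs]
      apply hε
      have h4 := sq_subset_ball c (by positivity) z hz hy
      rw [Metric.mem_ball, dist_eq_norm] at h4
      rw [Nat.cast_zero, sub_zero]
      exact h4.le
    rw [cell_volume_real, Real.norm_eq_abs] at h2
    rw [h1, abs_mul, abs_of_pos (inv_pos.2 hl), inv_mul_le_iff₀ hl, mul_comm]
    exact h2
  | succ N ih =>
    obtain ⟨j, hj, -⟩ := exists_child hy
    rw [En_succ_mem N f hj]
    refine ih (c + shf j * (2 : ℂ) ^ (k - 1)) (k - 1) ?_ hj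
    have e : k - 1 - (N : ℤ) = k - ((N + 1 : ℕ) : ℤ) := by push_cast; ring
    rw [e]
    exact hε

end Pool.MP_75bf3e_an.BT
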