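import Pool.Agent.Lib_MP_75bf3e.Tree

/-!
# Piece DBUCK: Buckley's inequalities on the tree

Everything is a Bellman function induction on the depth `d` (unfold with `S_succ`).

`buckleyV`.  Scalar fact (children `y i`, mean `y`, `0 < y i ≤ 4 y` by `child_le`):
`1/y i - 1/y + (y i - y)/y^2 = (y i - y)^2/(y^2 * y i) ≥ (y i - y)^2/(4 y^3)`; averaging over `i`
(the linear term drops) gives `av (1/y) - 1/y ≥ U2 y /(4 y) ≥ x * U2 y/(4 K)` (because `x y ≤ K`).
Claim to prove by induction on `d`, for all `P`: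
`S d (x * U2 y) P ≤ 4 K (x P - 1 / y P)`  (the right side is `≥ 0` since `x y ≥ 1`, that is the case
`d = 0`; step: `x U2 y + av (4K(x - 1/y)) ≤ 4K (x P - 1/y P)`).  Then drop `1/y P > 0`.

`buckleyU`.  Let `psi P = - x P * log (x P * y P) - 3 K / y P`.  Scalar fact:
`psi P - av psi P ≥ (1/8) * x P * U2 x P`.  Proof (for every child `i`, write `x_i, y_i`, `r = y_i/y > 0`):
 (1) `x_i log x_i - x log x ≥ (1 + log x)(x_i - x) + (1/4) (x_i - x)^2 / x` for `0 < x_i ≤ 4 x`:
     with `t = x_i/x ∈ (0,4]` this is `t log t ≥ (t - 1) + (t-1)^2/4`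
     (e.g. from monotonicity of the derivative, or: it is an equality with equal derivatives at `t=1`;
     `g t = t log t - (t-1) - (t-1)^2/4`, `g' t = log t - (t-1)/2`, `g'` is `≥ 0` on `[1, t0]` and
     the function is increasing then decreasing on `[1,4]` with `g 4 = 4 log 4 - 3 - 9/4 > 0.29`;
     on `(0,1]`, `g' ≤ 0`);
 (2) `x log(1/r) ≤ x (1 - r) + x (1-r)^2/r` (from `log (1/r) ≤ 1/r - 1`);
 (3) `(x_i - x) log (1/r) ≤ (1/8) (x_i-x)^2/x + 2 x (log r)^2` (AM-GM), and
     `(log r)^2 ≤ (1-r)^2/r` (for all `r > 0`);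
 so `x_i log (y/y_i) ≤ x (1-r) + (1/8)(x_i-x)^2/x + 3 x (1-r)^2/r`, and `x (1-r)^2/r =
 x y * (y_i-y)^2/(y^2 y_i) ≤ K ((1/y_i - 1/y) + (y_i - y)/y^2)`.
 Averaging over `i` the linear terms drop:
 `av (x log (x y)) - x log (x y) + 3 K (av (1/y) - 1/y) ≥ (1/4 - 1/8) x U2 x`.
Claim by induction: `S d (x * U2 x) P ≤ 8 (psi P + x P log K + 3 K x P)` (right side `≥ 0`).
Finally `psi P ≤ 0` (as `x y ≥ 1`) and `log K ≤ K`.
-/

set_option autoImplicit false

namespace Pool.MP_75bf3e_an.BT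


/-! ### scalar lemmas -/

private theorem dbk_inv {y z : ℝ} (hy : 0 < y) (hz : 0 < z) :
    1 / z - 1 / y + (z - y) / y ^ 2 = (z - y) ^ 2 / (y ^ 2 * z) := by
  field_simp
  ring

private theorem dbk_inv_ge {y z : ℝ} (hy : 0 < y) (hz : 0 < z) (h : z ≤ 4 * y) :
    (z - y) ^ 2 / (4 * y ^ 3) ≤ 1 / z - 1 / y + (z - y) / y ^ 2 := by
  rw [dbk_inv hy hz]
  apply div_le_div_of_nonneg_left (sq_nonneg _) (by positivity)
  nlinarith [mul_le_mul_of_nonneg_left h (sq_nonneg y)]

private theorem dbk_tlog {t : ℝ} (h0 : 0 < t) (h4 : t ≤ 4) :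
    (t - 1) + (t - 1) ^ 2 / 4 ≤ t * Real.log t := by
  rcases le_total t 1 with h1 | h1
  · -- t ≤ 1
    have hs : Real.log t⁻¹ ≤ (t⁻¹ - t⁻¹⁻¹) / 2 := by
      have hpos : 0 < t⁻¹ := inv_pos.2 h0
      have h2 : 0 ≤ Real.log t⁻¹ := Real.log_nonneg ((one_le_inv₀ h0).2 h1)
      have h3 := Real.self_le_sinh_iff.2 h2
      rwa [Real.sinh_log hpos] at h3
    rw [inv_inv, Real.log_inv] at hs
    have h2 : t * Real.log t ≥ t * (-((t⁻¹ - t) / 2)) :=
      mul_le_mul_of_nonneg_left (by linarith) h0.le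
    have h3 : t * (-((t⁻¹ - t) / 2)) = (t ^ 2 - 1) / 2 := by
      field_simp
      ring
    rw [h3] at h2
    nlinarith [mul_nonneg (sub_nonneg.2 h1) (sub_nonneg.2 h1)]
  · rcases le_total t 2 with h2 | h2
    · have h3 := Real.le_log_one_add_of_nonneg (x := t - 1) (by linarith)
      rw [show 1 + (t - 1) = t by ring, show t - 1 + 2 = t + 1 by ring] at h3
      have h4' : t * (2 * (t - 1) / (t + 1)) ≤ t * Real.log t := mul_le_mul_of_nonneg_left h3 h0.le
      refine le_trans ?_ h4'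
      rw [mul_div_assoc', le_div_iff₀ (by linarith)]
      nlinarith [mul_nonneg (sub_nonneg.2 h1) (sub_nonneg.2 h2),
        mul_nonneg (mul_nonneg (sub_nonneg.2 h1) (sub_nonneg.2 h1)) (sub_nonneg.2 h2)]
    · have h3 := Real.le_log_one_add_of_nonneg (x := t / 2 - 1) (by linarith)
      rw [show 1 + (t / 2 - 1) = t / 2 by ring, show t / 2 - 1 + 2 = (t + 2) / 2 by ring] at h3
      have h5 : Real.log t = Real.log 2 + Real.log (t / 2) := by
        rw [← Real.log_mul (by norm_num) (by positivity)]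
        congr 1; ring
      have h6 := Real.log_two_gt_d9
      have h7 : 2 * (t / 2 - 1) / ((t + 2) / 2) = 2 * (t - 2) / (t + 2) := by
        field_simp
      rw [h7] at h3
      have h8 : t * (0.69 + 2 * (t - 2) / (t + 2)) ≤ t * Real.log t := by
        apply mul_le_mul_of_nonneg_left _ h0.le
        rw [h5]; linarith
      refine le_trans ?_ h8
      have h9 : 0.69 + 2 * (t - 2) / (t + 2) = (0.69 * (t + 2) + 2 * (t - 2)) / (t + 2) := by
        field_simp
      rw [h9, mul_div_assoc', le_div_iff₀ (by linarith)]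
      nlinarith [mul_nonneg (sub_nonneg.2 h2) (sub_nonneg.2 h4),
        mul_nonneg (mul_nonneg (sub_nonneg.2 h2) (sub_nonneg.2 h4)) (sub_nonneg.2 h2)]

private theorem dbk_logsq {r : ℝ} (hr : 0 < r) : (Real.log r) ^ 2 ≤ (1 - r) ^ 2 / r := by
  have h1 : (Real.log r / 2) ^ 2 ≤ (Real.sinh (Real.log r / 2)) ^ 2 := by
    rcases le_total 0 (Real.log r / 2) with h | h
    · have := Real.self_le_sinh_iff.2 h
      nlinarith
    · have := Real.sinh_le_self_iff.2 h
      nlinarith
  have h2 : Real.cosh (Real.log r) = 2 * (Real.sinh (Real.log r / 2)) ^ 2 + 1 := by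
    have h3 : Real.log r = 2 * (Real.log r / 2) := by ring
    rw [h3, Real.cosh_two_mul, Real.cosh_sq]
    rw [show 2 * (Real.log r / 2) / 2 = Real.log r / 2 by ring]
    ring
  rw [Real.cosh_log hr] at h2
  have h4 : (1 - r) ^ 2 / r = 4 * (Real.sinh (Real.log r / 2)) ^ 2 := by
    have h5 : 4 * (Real.sinh (Real.log r / 2)) ^ 2 = 2 * ((r + r⁻¹) / 2) - 2 := by linarith
    rw [h5]
    field_simp
    ring
  rw [h4]
  nlinarith

/-- the bound for one child -/
private theorem dbk_child {x xi y yi K : ℝ} (hx : 0 < x) (hxi : 0 < xi) (hxi4 : xi ≤ 4 * x)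
    (hy : 0 < y) (hyi : 0 < yi) (hK : x * y ≤ K) :
    (xi - x) * (1 + Real.log x + Real.log y) + (yi - y) * (x / y - 3 * K / y ^ 2) +
      (1 / 8) * ((xi - x) ^ 2 / x)
      ≤ xi * Real.log (xi * yi) - x * Real.log (x * y) + 3 * K * (1 / yi - 1 / y) := by
  -- first part
  have ht0 : 0 < xi / x := by positivity
  have ht4 : xi / x ≤ 4 := by rw [div_le_iff₀ hx]; exact hxi4
  have h1 := dbk_tlog ht0 ht4
  have h2 : x * (xi / x - 1 + (xi / x - 1) ^ 2 / 4) ≤ x * (xi / x * Real.log (xi / x)) :=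
    mul_le_mul_of_nonneg_left h1 hx.le
  rw [Real.log_div hxi.ne' hx.ne'] at h2
  have h3 : x * (xi / x - 1 + (xi / x - 1) ^ 2 / 4) = (xi - x) + (1 / 4) * ((xi - x) ^ 2 / x) := by
    field_simp
  have h4 : x * (xi / x * (Real.log xi - Real.log x)) = xi * (Real.log xi - Real.log x) := by
    field_simp
  rw [h3, h4] at h2
  -- second part
  have hr : 0 < yi / y := by positivity
  have h5 : x * Real.log (yi / y)⁻¹ ≤ x * ((yi / y)⁻¹ - 1) :=
    mul_le_mul_of_nonneg_left (Real.log_le_sub_one_of_pos (inv_pos.2 hr)) hx.le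
  rw [Real.log_inv] at h5
  have h6 := dbk_logsq hr
  have h7 : -(xi - x) * Real.log (yi / y) ≤
      (1 / 8) * ((xi - x) ^ 2 / x) + 2 * (x * (Real.log (yi / y)) ^ 2) := by
    have h8 : 0 ≤ ((xi - x) + 4 * x * Real.log (yi / y)) ^ 2 / (8 * x) := by positivity
    have h9 : ((xi - x) + 4 * x * Real.log (yi / y)) ^ 2 / (8 * x) =
        (1 / 8) * ((xi - x) ^ 2 / x) + (xi - x) * Real.log (yi / y) +
          2 * (x * (Real.log (yi / y)) ^ 2) := by
      field_simp
      ring
    rw [h9] at h8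
    linarith
  have h10 : x * (Real.log (yi / y)) ^ 2 ≤ x * ((1 - yi / y) ^ 2 / (yi / y)) :=
    mul_le_mul_of_nonneg_left h6 hx.le
  -- the quantity E
  have hE : x * ((1 - yi / y) ^ 2 / (yi / y)) ≤ K * (1 / yi - 1 / y + (yi - y) / y ^ 2) := by
    rw [dbk_inv hy hyi]
    have h11 : x * ((1 - yi / y) ^ 2 / (yi / y)) = x * y * ((yi - y) ^ 2 / (y ^ 2 * yi)) := by
      field_simp
      ring
    rw [h11]
    exact mul_le_mul_of_nonneg_right hK (by positivity)
  have h12 : x * ((yi / y)⁻¹ - 1) = -((yi - y) * (x / y)) + x * ((1 - yi / y) ^ 2 / (yi / y)) := by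
    field_simp
    ring
  rw [h12] at h5
  rw [Real.log_div hyi.ne' hy.ne'] at h5 h7 h10
  rw [Real.log_mul hxi.ne' hyi.ne', Real.log_mul hx.ne' hy.ne']
  have h13 : (yi - y) * (x / y - 3 * K / y ^ 2) =
      (yi - y) * (x / y) - 3 * K * ((yi - y) / y ^ 2) := by ring
  rw [h13]
  have h14 : K * (1 / yi - 1 / y + (yi - y) / y ^ 2) =
      K * (1 / yi - 1 / y) + K * ((yi - y) / y ^ 2) := by ring
  rw [h14] at hE
  nlinarith [h2, h5, h7, h10, hE]

variable {T : Type} {ch : Fin 4 → T → T} {K : ℝ} {x y : T → ℝ}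

private theorem dbk_stepV (h : Wt ch K x y) (P : T) :
    x P * U2 ch y P ≤ 4 * K * (av ch (fun Q => 1 / y Q) P - 1 / y P) := by
  have hx := h.xpos P
  have hy := h.ypos P
  have hs : ∑ i, y (ch i P) = 4 * y P := by
    have := h.ym P; unfold av at this; linarith
  have h1 : U2 ch y P / (4 * y P) ≤ av ch (fun Q => 1 / y Q) P - 1 / y P := by
    have h2 : ∀ i, (y (ch i P) - y P) ^ 2 / (4 * y P ^ 3) ≤
        1 / y (ch i P) - 1 / y P + (y (ch i P) - y P) / y P ^ 2 :=
      fun i => dbk_inv_ge hy (h.ypos _) (child_le h.ypos h.ym P i)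
    have h3 := Finset.sum_le_sum (fun i (_ : i ∈ Finset.univ) => h2 i)
    unfold U2 av
    simp only [Fin.sum_univ_four] at h3 hs ⊢
    have h4 : ((y (ch 0 P) - y P) ^ 2 + (y (ch 1 P) - y P) ^ 2 + (y (ch 2 P) - y P) ^ 2 +
        (y (ch 3 P) - y P) ^ 2) / 4 / y P ^ 2 / (4 * y P) =
        ((y (ch 0 P) - y P) ^ 2 / (4 * y P ^ 3) + (y (ch 1 P) - y P) ^ 2 / (4 * y P ^ 3) +
        (y (ch 2 P) - y P) ^ 2 / (4 * y P ^ 3) + (y (ch 3 P) - y P) ^ 2 / (4 * y P ^ 3)) / 4 := by
      field_simp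
    rw [h4]
    have h5 : (y (ch 0 P) - y P) / y P ^ 2 + (y (ch 1 P) - y P) / y P ^ 2 +
        (y (ch 2 P) - y P) / y P ^ 2 + (y (ch 3 P) - y P) / y P ^ 2 = 0 := by
      have h6 : (y (ch 0 P) - y P) / y P ^ 2 + (y (ch 1 P) - y P) / y P ^ 2 +
        (y (ch 2 P) - y P) / y P ^ 2 + (y (ch 3 P) - y P) / y P ^ 2 =
        (y (ch 0 P) + y (ch 1 P) + y (ch 2 P) + y (ch 3 P) - 4 * y P) / y P ^ 2 := by ring
      rw [h6, hs, sub_self, zero_div]
    linarith
  have hK := h.one_le P
  have h2 : x P * U2 ch y P ≤ 4 * K * (U2 ch y P / (4 * y P)) := by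
    have h3 : x P * U2 ch y P * y P ≤ K * U2 ch y P := by
      nlinarith [mul_le_mul_of_nonneg_right (h.hi P) (U2_nonneg (ch := ch) (x := y) P)]
    have h4 : 4 * K * (U2 ch y P / (4 * y P)) = K * U2 ch y P / y P := by
      field_simp
    rw [h4, le_div_iff₀ hy]
    exact h3
  refine h2.trans ?_
  exact mul_le_mul_of_nonneg_left h1 (by linarith)

private theorem dbk_av_x (h : Wt ch K x y) (P : T) : av ch x P = x P := h.xm P

theorem buckleyV (h : Wt ch K x y) (d : ℕ) (R : T) :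
    S ch d (fun P => x P * U2 ch y P) R ≤ 4 * K * x R := by
  have hK : ∀ P, 0 ≤ x P - 1 / y P := by
    intro P
    have := h.lo P
    have hy := h.ypos P
    rw [sub_nonneg, div_le_iff₀ hy]
    exact this
  have key : ∀ (d : ℕ) (P : T), S ch d (fun P => x P * U2 ch y P) P ≤ 4 * K * (x P - 1 / y P) := by
    intro d
    induction d with
    | zero =>
      intro P
      rw [S_zero]
      have := h.one_le P
      exact mul_nonneg (by linarith) (hK P)
    | succ d ih =>
      intro P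
      rw [S_succ]
      have h1 : av ch (S ch d (fun P => x P * U2 ch y P)) P ≤
          av ch (fun Q => 4 * K * (x Q - 1 / y Q)) P := av_mono ch P (fun i => ih _)
      rw [av_mul, av_sub] at h1
      have h2 := dbk_stepV h P
      have h3 : av ch (fun Q => x Q) P = x P := h.xm P
      rw [h3] at h1
      nlinarith [h1, h2]
  refine (key d R).trans ?_
  have h1 := h.one_le R
  have hy := h.ypos R
  apply mul_le_mul_of_nonneg_left _ (by linarith)
  have : 0 < 1 / y R := by positivity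
  linarith

private theorem dbk_stepU (h : Wt ch K x y) (P : T) :
    (1 / 8) * (x P * U2 ch x P) ≤
      (av ch (fun Q => x Q * Real.log (x Q * y Q)) P - x P * Real.log (x P * y P)) +
        3 * K * (av ch (fun Q => 1 / y Q) P - 1 / y P) := by
  have hx := h.xpos P
  have hy := h.ypos P
  have hsy : ∑ i, y (ch i P) = 4 * y P := by
    have := h.ym P; unfold av at this; linarith
  have hsx : ∑ i, x (ch i P) = 4 * x P := by
    have := h.xm P; unfold av at this; linarith
  have h2 := fun i => dbk_child hx (h.xpos (ch i P)) (child_le h.xpos h.xm P i) hy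
    (h.ypos (ch i P)) (h.hi P)
  have h3 := Finset.sum_le_sum (fun i (_ : i ∈ Finset.univ) => h2 i)
  unfold U2 av
  simp only [Fin.sum_univ_four] at h3 hsx hsy ⊢
  have h4 : 1 / 8 * (x P * (((x (ch 0 P) - x P) ^ 2 + (x (ch 1 P) - x P) ^ 2 +
      (x (ch 2 P) - x P) ^ 2 + (x (ch 3 P) - x P) ^ 2) / 4 / x P ^ 2)) =
      (1 / 8 * ((x (ch 0 P) - x P) ^ 2 / x P) + 1 / 8 * ((x (ch 1 P) - x P) ^ 2 / x P) +
      1 / 8 * ((x (ch 2 P) - x P) ^ 2 / x P) + 1 / 8 * ((x (ch 3 P) - x P) ^ 2 / x P)) / 4 := by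
    field_simp
  rw [h4]
  have h5 : (x (ch 0 P) - x P) * (1 + Real.log (x P) + Real.log (y P)) +
      (x (ch 1 P) - x P) * (1 + Real.log (x P) + Real.log (y P)) +
      (x (ch 2 P) - x P) * (1 + Real.log (x P) + Real.log (y P)) +
      (x (ch 3 P) - x P) * (1 + Real.log (x P) + Real.log (y P)) = 0 := by
    linear_combination (1 + Real.log (x P) + Real.log (y P)) * hsx
  have h6 : (y (ch 0 P) - y P) * (x P / y P - 3 * K / y P ^ 2) +
      (y (ch 1 P) - y P) * (x P / y P - 3 * K / y P ^ 2) +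
      (y (ch 2 P) - y P) * (x P / y P - 3 * K / y P ^ 2) +
      (y (ch 3 P) - y P) * (x P / y P - 3 * K / y P ^ 2) = 0 := by
    linear_combination (x P / y P - 3 * K / y P ^ 2) * hsy
  linarith

theorem buckleyU (h : Wt ch K x y) (d : ℕ) (R : T) :
    S ch d (fun P => x P * U2 ch x P) R ≤ 32 * K * x R := by
  have key : ∀ (d : ℕ) (P : T), S ch d (fun P => x P * U2 ch x P) P ≤
      8 * ((x P * Real.log K + 3 * K * x P) - x P * Real.log (x P * y P) - 3 * K * (1 / y P)) := by
    intro d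
    induction d with
    | zero =>
      intro P
      rw [S_zero]
      have hx := h.xpos P
      have hy := h.ypos P
      have hK := h.one_le P
      have h1 : Real.log (x P * y P) ≤ Real.log K := Real.log_le_log (by positivity) (h.hi P)
      have h2 : 1 / y P ≤ x P := by
        rw [div_le_iff₀ hy]; exact h.lo P
      have h3 := mul_le_mul_of_nonneg_left h1 hx.le
      have h4 := mul_le_mul_of_nonneg_left h2 (by linarith : (0:ℝ) ≤ 3 * K)
      linarith
    | succ d ih =>
      intro P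
      rw [S_succ]
      have h1 : av ch (S ch d (fun P => x P * U2 ch x P)) P ≤
          av ch (fun Q => 8 * ((x Q * Real.log K + 3 * K * x Q) - x Q * Real.log (x Q * y Q) -
            3 * K * (1 / y Q))) P := av_mono ch P (fun i => ih _)
      rw [av_mul, av_sub, av_sub] at h1
      have h2 := dbk_stepU h P
      have h3 : av ch (fun Q => x Q * Real.log K + 3 * K * x Q) P =
          x P * Real.log K + 3 * K * x P := by
        have h4 : av ch (fun Q => x Q * Real.log K + 3 * K * x Q) P =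
            av ch (fun Q => (Real.log K + 3 * K) * x Q) P :=
          av_congr ch P (fun i => by ring)
        rw [h4, av_mul]
        have h5 : av ch (fun Q => x Q) P = x P := h.xm P
        rw [h5]; ring
      rw [h3, av_mul] at h1
      linarith
  refine (key d R).trans ?_
  have hK := h.one_le R
  have hx := h.xpos R
  have hy := h.ypos R
  have h1 : 0 ≤ Real.log (x R * y R) := Real.log_nonneg (h.lo R)
  have h2 : Real.log K ≤ K := by
    have := Real.log_le_sub_one_of_pos (by linarith : 0 < K)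
    linarith
  have h3 := mul_le_mul_of_nonneg_left h2 hx.le
  have h4 := mul_nonneg hx.le h1
  have h5 : 0 ≤ 3 * K * (1 / y R) := by positivity
  nlinarith

end Pool.MP_75bf3e_an.BT
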