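import Pool.Agent.Lib_MP_75bf3e.Tree

/-!
# Piece DCARL: weighted Carleson embedding and the square function

`carleson`.  If `μ ≥ 0` and `S d μ P ≤ A * x P` for all `d, P`, then (`F^2 ≤ x Φ`)
`S d (μ * F^2/x^2) R ≤ 4 A Φ R`.  If `A = 0` then `μ = 0`.  For `A > 0` put `m d P = S d μ P/A ≤ x P`.
Claim by induction on `d`: `S d (μ F^2/x^2) P ≤ 4 A (Φ P - F P^2/(x P + m d P))`.
`d = 0`: `Φ - F^2/x ≥ 0`.  Step: `av (F^2/(x + m d)) ≥ (av F)^2/(av x + av (m d)) = F P^2/(x P + av (m d) P)`
(Cauchy-Schwarz, Titu's lemma / `div_add_div_same, sum_div_... inner_mul_le`), and with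
`m (d+1) P = μ P/A + av (m d) P ≤ x P`:
`F^2/(x + av m) - F^2/(x + m(d+1)) = F^2 (μ/A)/((x + av m)(x + m(d+1))) ≥ F^2 μ/(4 A x^2)`.

`square_sum`.  `E P = (Σ_i (φ_i - φ)^2 x_i)/4` with `φ = f/x`.  Since `av f = f`, `av x = x`:
`E P = av (f^2/x) P - f P^2/x P`.  Hence `S d E P = avg d (f^2/x) P - f P^2/x P` (induction), and
`f^2/x ≤ Φ`, so `S d E R ≤ Φ R` (`avg_mart`).

`square_avg`.  `G a P = avg a (fun J => (f J/x J - c)^2 * x J) P` with `c = f P/x P`.  By induction on `a`,
for every real `c`: `avg a (fun J => (f J/x J - c)^2 x J) P = (f P/x P - c)^2 x P + S a E P`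
(same computation: `av ((φ - c)^2 x) = (φ P - c)^2 x P + E P`).  For `c = f P/x P` this is `S a E P`.
So the statement is the identity below.

`S_S_le`: `S d (S a E) R ≤ a * S (d+a) E R` for `E ≥ 0`: `S a E = Σ_{i<a} avg i E` (induction) and `S_avg_le`.
-/

set_option autoImplicit false

namespace Pool.MP_75bf3e_an.BT

variable {T : Type} {ch : Fin 4 → T → T} {x : T → ℝ}

private theorem carleson_aux (hx : ∀ P, 0 < x P) (xm : ∀ P, av ch x P = x P) (μ F Φ : T → ℝ)
    (A : ℝ) (hA0 : 0 < A) (hμ : ∀ P, 0 ≤ μ P) (hA : ∀ d P, S ch d μ P ≤ A * x P)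
    (Fm : ∀ P, av ch F P = F P) (Φm : ∀ P, av ch Φ P = Φ P) (hF : ∀ P, F P ^ 2 ≤ x P * Φ P)
    (d : ℕ) : ∀ P, S ch d (fun P => μ P * (F P / x P) ^ 2) P ≤
      4 * A * (Φ P - F P ^ 2 / (x P + S ch d μ P / A)) := by
  induction d with
  | zero =>
    intro P
    rw [S_zero, S_zero, zero_div, add_zero]
    have h1 : F P ^ 2 / x P ≤ Φ P := by
      rw [div_le_iff₀ (hx P), mul_comm]
      exact hF P
    have := mul_nonneg (mul_nonneg (by norm_num : (0 : ℝ) ≤ 4) hA0.le) (sub_nonneg.2 h1)
    exact this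
  | succ d ih =>
    intro P
    have hm0 : ∀ Q, 0 ≤ S ch d μ Q / A := fun Q => div_nonneg (S_nonneg ch hμ d Q) hA0.le
    have hD : ∀ Q, 0 < x Q + S ch d μ Q / A := fun Q => add_pos_of_pos_of_nonneg (hx Q) (hm0 Q)
    have h1 : av ch (S ch d (fun P => μ P * (F P / x P) ^ 2)) P ≤
        4 * A * (Φ P - av ch (fun Q => F Q ^ 2 / (x Q + S ch d μ Q / A)) P) := by
      calc av ch (S ch d (fun P => μ P * (F P / x P) ^ 2)) P
          ≤ av ch (fun Q => 4 * A * (Φ Q - F Q ^ 2 / (x Q + S ch d μ Q / A))) P :=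
            av_mono ch P (fun i => ih _)
        _ = 4 * A * (Φ P - av ch (fun Q => F Q ^ 2 / (x Q + S ch d μ Q / A)) P) := by
            rw [av_mul, av_sub, Φm]
    -- Titu
    have h2 : F P ^ 2 / (x P + av ch (S ch d μ) P / A) ≤
        av ch (fun Q => F Q ^ 2 / (x Q + S ch d μ Q / A)) P := by
      have h3 := Finset.sq_sum_div_le_sum_sq_div Finset.univ (fun i => F (ch i P))
        (g := fun i => x (ch i P) + S ch d μ (ch i P) / A) (fun i _ => hD _)
      have e1 : ∑ i, F (ch i P) = 4 * F P := by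
        have := Fm P
        unfold av at this
        linarith
      have e2 : ∑ i, (x (ch i P) + S ch d μ (ch i P) / A) =
          4 * (x P + av ch (S ch d μ) P / A) := by
        rw [Finset.sum_add_distrib, ← Finset.sum_div]
        have h4 := xm P
        have h5 : av ch (S ch d μ) P = (∑ i, S ch d μ (ch i P)) / 4 := rfl
        rw [h5]
        unfold av at h4
        rw [← h4]
        ring
      rw [e1, e2] at h3
      have hpos : 0 < x P + av ch (S ch d μ) P / A :=
        add_pos_of_pos_of_nonneg (hx P) (div_nonneg (av_nonneg ch P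
          (fun i => S_nonneg ch hμ d _)) hA0.le)
      have e3 : (4 * F P) ^ 2 / (4 * (x P + av ch (S ch d μ) P / A)) =
          4 * (F P ^ 2 / (x P + av ch (S ch d μ) P / A)) := by
        rw [mul_pow, mul_div_mul_comm]
        ring
      rw [e3] at h3
      show F P ^ 2 / (x P + av ch (S ch d μ) P / A) ≤
        (∑ i, F (ch i P) ^ 2 / (x (ch i P) + S ch d μ (ch i P) / A)) / 4
      rw [le_div_iff₀ (by norm_num : (0 : ℝ) < 4)]
      linarith
    rw [S_succ, S_succ]
    set m := av ch (S ch d μ) P / A with hm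
    have hm1 : 0 ≤ m := div_nonneg (av_nonneg ch P (fun i => S_nonneg ch hμ d _)) hA0.le
    have e4 : (μ P + av ch (S ch d μ) P) / A = μ P / A + m := by rw [hm, add_div]
    rw [e4]
    have hmu : 0 ≤ μ P / A := div_nonneg (hμ P) hA0.le
    have hle : μ P / A + m ≤ x P := by
      rw [← e4, div_le_iff₀ hA0, mul_comm]
      exact hA (d + 1) P
    have hxP := hx P
    have key : μ P * (F P / x P) ^ 2 ≤
        4 * A * (F P ^ 2 / (x P + m) - F P ^ 2 / (x P + (μ P / A + m))) := by
      have hp1 : 0 < x P + m := by linarith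
      have hp2 : 0 < x P + (μ P / A + m) := by linarith
      have e5 : F P ^ 2 / (x P + m) - F P ^ 2 / (x P + (μ P / A + m)) =
          F P ^ 2 * (μ P / A) / ((x P + m) * (x P + (μ P / A + m))) := by
        rw [div_sub_div _ _ hp1.ne' hp2.ne']
        ring
      rw [e5]
      have h6 : (x P + m) * (x P + (μ P / A + m)) ≤ 4 * x P ^ 2 := by nlinarith
      have h7 : F P ^ 2 * (μ P / A) / (4 * x P ^ 2) ≤
          F P ^ 2 * (μ P / A) / ((x P + m) * (x P + (μ P / A + m))) :=
        div_le_div_of_nonneg_left (mul_nonneg (sq_nonneg _) hmu) (mul_pos hp1 hp2) h6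
      calc μ P * (F P / x P) ^ 2 = 4 * A * (F P ^ 2 * (μ P / A) / (4 * x P ^ 2)) := by
            field_simp
        _ ≤ _ := mul_le_mul_of_nonneg_left h7 (by positivity)
    have h8 := mul_le_mul_of_nonneg_left h2 (show (0 : ℝ) ≤ 4 * A by positivity)
    calc μ P * (F P / x P) ^ 2 + av ch (S ch d (fun P => μ P * (F P / x P) ^ 2)) P
        ≤ 4 * A * (F P ^ 2 / (x P + m) - F P ^ 2 / (x P + (μ P / A + m))) +
          4 * A * (Φ P - av ch (fun Q => F Q ^ 2 / (x Q + S ch d μ Q / A)) P) :=
          add_le_add key h1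
      _ ≤ 4 * A * (Φ P - F P ^ 2 / (x P + (μ P / A + m))) := by
          linarith

theorem carleson (hx : ∀ P, 0 < x P) (xm : ∀ P, av ch x P = x P) (μ F Φ : T → ℝ) (A : ℝ)
    (hμ : ∀ P, 0 ≤ μ P) (hA : ∀ d P, S ch d μ P ≤ A * x P) (Fm : ∀ P, av ch F P = F P)
    (Φm : ∀ P, av ch Φ P = Φ P) (hF : ∀ P, F P ^ 2 ≤ x P * Φ P) (d : ℕ) (R : T) :
    S ch d (fun P => μ P * (F P / x P) ^ 2) R ≤ 4 * A * Φ R := by
  have hA1 : 0 ≤ A := by
    have h1 := hA 1 R
    have h2 : S ch 1 μ R = μ R := by
      rw [S_succ]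
      have : av ch (S ch 0 μ) R = 0 := by
        unfold av
        simp
      rw [this, add_zero]
    rw [h2] at h1
    by_contra hneg
    push Not at hneg
    have := mul_neg_of_neg_of_pos hneg (hx R)
    linarith [hμ R]
  rcases hA1.eq_or_lt with h0 | h0
  · have hz : ∀ P, μ P = 0 := by
      intro P
      have h1 := hA 1 P
      have h2 : S ch 1 μ P = μ P := by
        rw [S_succ]
        have : av ch (S ch 0 μ) P = 0 := by
          unfold av
          simp
        rw [this, add_zero]
      rw [h2, ← h0, zero_mul] at h1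
      exact le_antisymm h1 (hμ P)
    have hs : ∀ d P, S ch d (fun P => μ P * (F P / x P) ^ 2) P = 0 := by
      intro d
      induction d with
      | zero => intro P; rfl
      | succ d ih =>
        intro P
        rw [S_succ, hz P, zero_mul, zero_add]
        unfold av
        simp [ih]
    rw [hs, ← h0]
    simp
  · have h1 := carleson_aux hx xm μ F Φ A h0 hμ hA Fm Φm hF d R
    refine h1.trans ?_
    apply mul_le_mul_of_nonneg_left _ (by positivity)
    have : 0 ≤ F R ^ 2 / (x R + S ch d μ R / A) :=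
      div_nonneg (sq_nonneg _) (add_nonneg (hx R).le (div_nonneg (S_nonneg ch hμ d R) h0.le))
    linarith

/-- the square of the norm of the weighted martingale difference of `f/x` at `P` -/
noncomputable def EE (ch : Fin 4 → T → T) (x f : T → ℝ) (P : T) : ℝ :=
  (∑ i, (f (ch i P) / x (ch i P) - f P / x P) ^ 2 * x (ch i P)) / 4

theorem EE_nonneg (hx : ∀ P, 0 < x P) (f : T → ℝ) (P : T) : 0 ≤ EE ch x f P := by
  unfold EE
  exact div_nonneg (Finset.sum_nonneg fun i _ => mul_nonneg (sq_nonneg _) (hx _).le) (by norm_num)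

private theorem EE_c (hx : ∀ P, 0 < x P) (xm : ∀ P, av ch x P = x P) (f : T → ℝ)
    (fm : ∀ P, av ch f P = f P) (c : ℝ) (P : T) :
    av ch (fun J => (f J / x J - c) ^ 2 * x J) P =
      (f P / x P - c) ^ 2 * x P + EE ch x f P := by
  unfold EE
  have h1 : ∑ i, x (ch i P) = 4 * x P := by
    have := xm P; unfold av at this; linarith
  have h2 : ∑ i, f (ch i P) = 4 * f P := by
    have := fm P; unfold av at this; linarith
  have h3 : ∀ (b : ℝ), ∑ i, (f (ch i P) / x (ch i P) - b) ^ 2 * x (ch i P) =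
      (∑ i, f (ch i P) ^ 2 / x (ch i P)) - 2 * b * (4 * f P) + b ^ 2 * (4 * x P) := by
    intro b
    rw [← h1, ← h2, Finset.mul_sum, Finset.mul_sum, ← Finset.sum_sub_distrib,
      ← Finset.sum_add_distrib]
    apply Finset.sum_congr rfl
    intro i _
    have := (hx (ch i P)).ne'
    field_simp
    ring
  show (∑ i, (f (ch i P) / x (ch i P) - c) ^ 2 * x (ch i P)) / 4 = _
  rw [h3, h3]
  have := (hx P).ne'
  field_simp
  ring

theorem square_sum (hx : ∀ P, 0 < x P) (xm : ∀ P, av ch x P = x P) (f Φ : T → ℝ)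
    (fm : ∀ P, av ch f P = f P) (Φm : ∀ P, av ch Φ P = Φ P) (hf : ∀ P, f P ^ 2 ≤ x P * Φ P)
    (d : ℕ) (R : T) : S ch d (EE ch x f) R ≤ Φ R := by
  have key : ∀ d P, S ch d (EE ch x f) P = avg ch d (fun J => f J ^ 2 / x J) P - f P ^ 2 / x P := by
    intro d
    induction d with
    | zero => intro P; simp
    | succ d ih =>
      intro P
      rw [S_succ, avg_succ]
      have h1 : av ch (S ch d (EE ch x f)) P = av ch (avg ch d (fun J => f J ^ 2 / x J)) P -
          av ch (fun J => f J ^ 2 / x J) P := by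
        rw [← av_sub]
        exact av_congr ch P (fun i => ih _)
      have h2 := EE_c hx xm f fm 0 P
      have h3 : av ch (fun J => (f J / x J - 0) ^ 2 * x J) P = av ch (fun J => f J ^ 2 / x J) P := by
        apply av_congr
        intro i
        have := (hx (ch i P)).ne'
        field_simp
        ring
      have h4 : (f P / x P - 0) ^ 2 * x P = f P ^ 2 / x P := by
        have := (hx P).ne'
        field_simp
        ring
      rw [h3, h4] at h2
      rw [h1]
      linarith
  rw [key]
  have h1 : avg ch d (fun J => f J ^ 2 / x J) R ≤ avg ch d Φ R := by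
    apply avg_mono
    intro Q
    rw [div_le_iff₀ (hx Q), mul_comm]
    exact hf Q
  rw [avg_mart ch Φm] at h1
  have : 0 ≤ f R ^ 2 / x R := div_nonneg (sq_nonneg _) (hx R).le
  linarith

theorem square_avg (hx : ∀ P, 0 < x P) (xm : ∀ P, av ch x P = x P) (f : T → ℝ)
    (fm : ∀ P, av ch f P = f P) (a : ℕ) (P : T) :
    avg ch a (fun J => (f J / x J - f P / x P) ^ 2 * x J) P = S ch a (EE ch x f) P := by
  have key : ∀ (c : ℝ) (a : ℕ) (P : T), avg ch a (fun J => (f J / x J - c) ^ 2 * x J) P =
      (f P / x P - c) ^ 2 * x P + S ch a (EE ch x f) P := by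
    intro c a
    induction a with
    | zero => intro P; simp
    | succ a ih =>
      intro P
      rw [avg_succ, av_congr ch (G := fun J => (f J / x J - c) ^ 2 * x J + S ch a (EE ch x f) J) P
        (fun i => ih _), av_add ch (fun J => (f J / x J - c) ^ 2 * x J) (S ch a (EE ch x f)),
        EE_c hx xm f fm, S_succ]
      ring
  rw [key, sub_self]
  ring

private theorem S_last (E : T → ℝ) (a : ℕ) : ∀ P, S ch (a + 1) E P = S ch a E P + avg ch a E P := by
  induction a with
  | zero => intro P; simp [av, S]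
  | succ a ih =>
    intro P
    rw [S_succ, av_congr ch (G := fun Q => S ch a E Q + avg ch a E Q) P (fun i => ih _), av_add,
      avg_succ, S_succ ch a]
    ring

theorem S_S_le (E : T → ℝ) (hE : ∀ P, 0 ≤ E P) (a d : ℕ) (R : T) :
    S ch d (S ch a E) R ≤ a * S ch (d + a) E R := by
  induction a with
  | zero =>
    have : ∀ d P, S ch d (S ch 0 E) P = 0 := by
      intro d
      induction d with
      | zero => intro P; rfl
      | succ d ih =>
        intro P
        rw [S_succ, S_zero]
        unfold av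
        simp [ih]
    rw [this]
    simp
  | succ a ih =>
    have h1 : S ch d (S ch (a + 1) E) R = S ch d (S ch a E) R + S ch d (avg ch a E) R := by
      rw [← S_add]
      congr 1
      funext Q
      exact S_last E a Q
    have h2 := S_avg_le ch hE a d R
    have h3 : S ch (d + a) E R ≤ S ch (d + (a + 1)) E R := by
      rw [← add_assoc]
      exact S_mono_depth ch hE (d + a) 1 R
    rw [h1]
    push_cast
    have h4 := mul_le_mul_of_nonneg_left h3 (Nat.cast_nonneg (α := ℝ) a)
    linarith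

end Pool.MP_75bf3e_an.BT
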