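import Pool.Agent.Lib_MP_75bf3e.Tree

/-!
# Definitions for the testing sum

`x, y` martingales, `ub`, `vb` (= `ub ch b y`) the look-ahead quadratic averages, `uu = √ub`,
`vv = √vb`.  All objects are defined by recursion on the depth.
-/

set_option autoImplicit false

namespace Pool.MP_75bf3e_an.BT

variable {T : Type} (ch : Fin 4 → T → T)

/-- `cc κ d P = Σ_{Q ⊂ P} |Q|/|P| * x_Q y_Q κ_Q` -/
noncomputable def cc (x y κ : T → ℝ) (d : ℕ) (P : T) : ℝ := S ch d (fun Q => x Q * y Q * κ Q) P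

/-- `TT κ d P = Σ_{Q ⊂ P} |Q|/|P| * x_Q κ_Q c(Q)` -/
noncomputable def TT (x y κ : T → ℝ) : ℕ → T → ℝ
  | 0, _ => 0
  | d + 1, P => x P * κ P * cc ch x y κ (d + 1) P + av ch (TT x y κ d) P

/-- the multiplicative sum `Σ_{P' ⊂ P} |P'|/|P| * G_{P'} * Π_{P' ⊊ P'' ⊆ P} (1 + X_{P''}/(2B))⁻¹` -/
noncomputable def inner1 (B : ℝ) (X G : T → ℝ) : ℕ → T → ℝ
  | 0, _ => 0
  | d + 1, P => G P + (1 + X P / (2 * B))⁻¹ * av ch (inner1 B X G d) P

/-- `outer1 d P = Σ_{Q ⊂ P} |Q|/|P| * F_Q * inner1(Q)` -/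
noncomputable def outer1 (B : ℝ) (X G F : T → ℝ) : ℕ → T → ℝ
  | 0, _ => 0
  | d + 1, P => F P * inner1 ch B X G (d + 1) P + av ch (outer1 B X G F d) P

/-- the window: `y` within a factor `2^M` of `y0` -/
def Win (y : T → ℝ) (M : ℕ) (y0 : ℝ) (P : T) : Prop := y0 ≤ 2 ^ M * y P ∧ y P ≤ 2 ^ M * y0

open Classical in
/-- the sum of `y X` over the descendants reached inside the window -/
noncomputable def AI (y X : T → ℝ) (M : ℕ) (y0 : ℝ) : ℕ → T → ℝ
  | 0, _ => 0
  | d + 1, P => if Win y M y0 P then y P * X P + av ch (AI y X M y0 d) P else 0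

open Classical in
/-- the same with the factors `Π (1 + X/(2B))` -/
noncomputable def inner2 (B : ℝ) (y X : T → ℝ) (M : ℕ) (y0 : ℝ) : ℕ → T → ℝ
  | 0, _ => 0
  | d + 1, P => if Win y M y0 P then
      y P * X P + (1 + X P / (2 * B)) * av ch (inner2 B y X M y0 d) P else 0

open Classical in
/-- the part of `cc` inside the window -/
noncomputable def cI (x y κ : T → ℝ) (M : ℕ) (y0 : ℝ) : ℕ → T → ℝ
  | 0, _ => 0
  | d + 1, P => if Win y M y0 P then x P * y P * κ P + av ch (cI x y κ M y0 d) P else 0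

open Classical in
/-- the part of `cc` after the exit of the window -/
noncomputable def cII (x y κ : T → ℝ) (M : ℕ) (y0 : ℝ) : ℕ → T → ℝ
  | 0, _ => 0
  | d + 1, P => if Win y M y0 P then av ch (cII x y κ M y0 d) P else cc ch x y κ (d + 1) P

end Pool.MP_75bf3e_an.BT
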