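import Pool.Agent.Lib_MP_75bf3e.Tree

/-!
# Piece DQUART: the function `(x y)^(1/4)`

Scalar fact: for `0 ≤ r, s ≤ 4`,
`√√(r s) ≤ (√r + √s)/2 ≤ 1 + (r-1)/4 + (s-1)/4 - ((r-1)^2 + (s-1)^2)/36`,
because `√r = 1 + (r-1)/2 - (√r - 1)^2/2` and `(√r - 1)^2 = (r-1)^2/(√r+1)^2 ≥ (r-1)^2/9`.
Apply it with `r = x_i/x`, `s = y_i/y` (`≤ 4` by `child_le`), multiply by `√√(x y)`, average over the
four children (the linear terms drop because `x, y` are martingales):
`av q P ≤ q P * (1 - (U2 x P + U2 y P)/36)`.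
`quarter`: induction on `d`.  `av_q_le` is the special case without the quadratic term.
`av_sqrt_sqrt_le`: the same with one function only (Jensen for `√√`).
-/

set_option autoImplicit false

namespace Pool.MP_75bf3e_an.BT

variable {T : Type} {ch : Fin 4 → T → T} {x y : T → ℝ}

private theorem dq_sqrt {r : ℝ} (h0 : 0 ≤ r) (h4 : r ≤ 4) :
    √r ≤ 1 + (r - 1) / 2 - (r - 1) ^ 2 / 18 := by
  have h1 : √r ^ 2 = r := Real.sq_sqrt h0
  have h2 : 0 ≤ √r := Real.sqrt_nonneg r
  have h3 : √r ≤ 2 := by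
    rw [Real.sqrt_le_iff]
    constructor
    · norm_num
    · linarith
  have h5 : (r - 1) ^ 2 = (√r - 1) ^ 2 * (√r + 1) ^ 2 := by
    rw [← mul_pow]
    congr 1
    linear_combination -h1
  have h6 : (√r + 1) ^ 2 ≤ 9 := by nlinarith
  have h7 : (√r - 1) ^ 2 * (√r + 1) ^ 2 ≤ (√r - 1) ^ 2 * 9 :=
    mul_le_mul_of_nonneg_left h6 (sq_nonneg _)
  rw [h5]
  nlinarith

private theorem dq_scalar {r s : ℝ} (hr : 0 ≤ r) (hr4 : r ≤ 4) (hs : 0 ≤ s) (hs4 : s ≤ 4) :
    √(√(r * s)) ≤ 1 + (r - 1) / 4 + (s - 1) / 4 - ((r - 1) ^ 2 + (s - 1) ^ 2) / 36 := by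
  have h1 := dq_sqrt hr hr4
  have h2 := dq_sqrt hs hs4
  have h3 : √(√(r * s)) ≤ (√r + √s) / 2 := by
    rw [Real.sqrt_mul hr, Real.sqrt_le_iff]
    constructor
    · positivity
    · nlinarith [sq_nonneg (√r - √s)]
  linarith

/-- `(x y)^(1/4)` -/
noncomputable def q (x y : T → ℝ) (P : T) : ℝ := √(√(x P * y P))

theorem av_q_le (hx : ∀ P, 0 < x P) (hy : ∀ P, 0 < y P) (xm : ∀ P, av ch x P = x P)
    (ym : ∀ P, av ch y P = y P) (P : T) :
    av ch (q x y) P ≤ q x y P * (1 - (U2 ch x P + U2 ch y P) / 36) := by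
  have hxP := hx P
  have hyP := hy P
  have hi : ∀ i, q x y (ch i P) ≤ q x y P * (1 + (x (ch i P) / x P - 1) / 4
      + (y (ch i P) / y P - 1) / 4
      - ((x (ch i P) / x P - 1) ^ 2 + (y (ch i P) / y P - 1) ^ 2) / 36) := by
    intro i
    have e : x (ch i P) * y (ch i P) = (x P * y P) * (x (ch i P) / x P * (y (ch i P) / y P)) := by
      field_simp
    have e2 : q x y (ch i P) = q x y P * √(√(x (ch i P) / x P * (y (ch i P) / y P))) := by
      unfold q
      rw [e, Real.sqrt_mul (mul_pos hxP hyP).le, Real.sqrt_mul (Real.sqrt_nonneg _)]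
    rw [e2]
    refine mul_le_mul_of_nonneg_left ?_ (Real.sqrt_nonneg _)
    apply dq_scalar
    · exact (div_pos (hx _) hxP).le
    · rw [div_le_iff₀ hxP]
      exact child_le hx xm P i
    · exact (div_pos (hy _) hyP).le
    · rw [div_le_iff₀ hyP]
      exact child_le hy ym P i
  have h0 := hi 0
  have h1 := hi 1
  have h2 := hi 2
  have h3 := hi 3
  have hsx : x (ch 0 P) / x P + x (ch 1 P) / x P + x (ch 2 P) / x P + x (ch 3 P) / x P = 4 := by
    have := xm P
    unfold av at this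
    rw [Fin.sum_univ_four] at this
    field_simp
    linarith
  have hsy : y (ch 0 P) / y P + y (ch 1 P) / y P + y (ch 2 P) / y P + y (ch 3 P) / y P = 4 := by
    have := ym P
    unfold av at this
    rw [Fin.sum_univ_four] at this
    field_simp
    linarith
  have hux : U2 ch x P = ((x (ch 0 P) / x P - 1) ^ 2 + (x (ch 1 P) / x P - 1) ^ 2
      + (x (ch 2 P) / x P - 1) ^ 2 + (x (ch 3 P) / x P - 1) ^ 2) / 4 := by
    unfold U2
    rw [Fin.sum_univ_four]
    field_simp
  have huy : U2 ch y P = ((y (ch 0 P) / y P - 1) ^ 2 + (y (ch 1 P) / y P - 1) ^ 2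
      + (y (ch 2 P) / y P - 1) ^ 2 + (y (ch 3 P) / y P - 1) ^ 2) / 4 := by
    unfold U2
    rw [Fin.sum_univ_four]
    field_simp
  unfold av
  rw [Fin.sum_univ_four, hux, huy]
  generalize q x y P = Q at *
  generalize x (ch 0 P) / x P = a0 at *
  generalize x (ch 1 P) / x P = a1 at *
  generalize x (ch 2 P) / x P = a2 at *
  generalize x (ch 3 P) / x P = a3 at *
  generalize y (ch 0 P) / y P = b0 at *
  generalize y (ch 1 P) / y P = b1 at *
  generalize y (ch 2 P) / y P = b2 at *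
  generalize y (ch 3 P) / y P = b3 at *
  have e1 : Q * (a0 + a1 + a2 + a3) = Q * 4 := by rw [hsx]
  have e2 : Q * (b0 + b1 + b2 + b3) = Q * 4 := by rw [hsy]
  nlinarith [h0, h1, h2, h3, e1, e2]

theorem quarter (hx : ∀ P, 0 < x P) (hy : ∀ P, 0 < y P) (xm : ∀ P, av ch x P = x P)
    (ym : ∀ P, av ch y P = y P) (d : ℕ) (R : T) :
    S ch d (fun P => q x y P * (U2 ch x P + U2 ch y P)) R ≤ 36 * q x y R := by
  induction d generalizing R with
  | zero =>
    rw [S_zero]
    exact mul_nonneg (by norm_num) (Real.sqrt_nonneg _)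
  | succ d ih =>
    rw [S_succ]
    have h1 := av_mono ch (F := S ch d (fun P => q x y P * (U2 ch x P + U2 ch y P)))
      (G := fun Q => 36 * q x y Q) R (fun i => ih _)
    rw [av_mul] at h1
    have h2 := av_q_le hx hy xm ym R
    nlinarith

theorem av_sqrt_sqrt_le (hx : ∀ P, 0 < x P) (xm : ∀ P, av ch x P = x P) (P : T) :
    av ch (fun Q => √(√(x Q))) P ≤ √(√(x P)) := by
  have h := av_q_le (ch := ch) (x := x) (y := fun _ => 1) hx (fun _ => one_pos) xm
    (fun P => av_const ch 1 P) P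
  have e : q x (fun _ => 1) = fun Q => √(√(x Q)) := by
    funext Q
    unfold q
    rw [mul_one]
  rw [e] at h
  refine h.trans ?_
  have h1 := U2_nonneg (ch := ch) (x := x) P
  have h2 := U2_nonneg (ch := ch) (x := fun _ => (1 : ℝ)) P
  exact mul_le_of_le_one_right (Real.sqrt_nonneg _) (by linarith)

end Pool.MP_75bf3e_an.BT
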