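import Pool.Agent.Lib_MP_75bf3e.DDefs
import Pool.Agent.Lib_MP_75bf3e.DQuarter

/-!
# Piece DEXIT: the part after the exit of the window is exponentially small

Claim by induction on `d` (for all `P`):
`cII d P ≤ A2 * (y P/(2^M * y0)) + A1 * √√(x P * (y0/2^M))`.
* `d = 0`: the right side is nonnegative.
* `P` in the window: average the induction hypothesis over the children; `y` is a martingale and
  `√√(x · c)` is a supermartingale (`av_sqrt_sqrt_le` of DQuarter, with `√√(x c) = √√x √√c`).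
* `P` not in the window: either `y P > 2^M y0`; then `cc ≤ A2 ≤ A2 * y P/(2^M y0)`; or
  `2^M * y P < y0`; then `cc ≤ A1 * √√(x P * y P) ≤ A1 √√(x P * y0/2^M)`.
-/

set_option autoImplicit false

namespace Pool.MP_75bf3e_an.BT

variable {T : Type} {ch : Fin 4 → T → T} {x y : T → ℝ}

theorem cII_le (hx : ∀ P, 0 < x P) (hy : ∀ P, 0 < y P) (xm : ∀ P, av ch x P = x P)
    (ym : ∀ P, av ch y P = y P) (κ : T → ℝ) (A1 A2 : ℝ) (hA1 : 0 ≤ A1) (hA2 : 0 ≤ A2)
    (h1 : ∀ d P, cc ch x y κ d P ≤ A1 * q x y P) (h2 : ∀ d P, cc ch x y κ d P ≤ A2)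
    (M : ℕ) (y0 : ℝ) (hy0 : 0 < y0) (d : ℕ) (P : T) :
    cII ch x y κ M y0 d P ≤ A2 * (y P / (2 ^ M * y0)) + A1 * √(√(x P * (y0 / 2 ^ M))) := by
  have hc : 0 < (2 : ℝ) ^ M * y0 := by positivity
  have hc2 : 0 ≤ y0 / (2 : ℝ) ^ M := by positivity
  induction d generalizing P with
  | zero =>
    have e : cII ch x y κ M y0 0 P = 0 := rfl
    rw [e]
    have h3 : 0 ≤ y P / (2 ^ M * y0) := (div_pos (hy P) hc).le
    have h4 : 0 ≤ √(√(x P * (y0 / 2 ^ M))) := Real.sqrt_nonneg _
    positivity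
  | succ d ih =>
    by_cases hW : Win y M y0 P
    · have e : cII ch x y κ M y0 (d + 1) P = av ch (cII ch x y κ M y0 d) P := by
        rw [cII, if_pos hW]
      rw [e]
      have hs : ∀ Q, √(√(x Q * (y0 / 2 ^ M))) = √(√(x Q)) * √(√(y0 / 2 ^ M)) := by
        intro Q
        rw [Real.sqrt_mul (hx Q).le, Real.sqrt_mul (Real.sqrt_nonneg _)]
      have h3 : av ch (cII ch x y κ M y0 d) P ≤
          av ch (fun Q => (A2 / (2 ^ M * y0)) * y Q + (A1 * √(√(y0 / 2 ^ M))) * √(√(x Q))) P := by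
        apply av_mono
        intro i
        refine (ih (ch i P)).trans (le_of_eq ?_)
        rw [hs]
        ring
      refine h3.trans ?_
      rw [av_add, av_mul, av_mul, ym P, hs P]
      have h4 := av_sqrt_sqrt_le (ch := ch) hx xm P
      have h5 : 0 ≤ A1 * √(√(y0 / 2 ^ M)) := mul_nonneg hA1 (Real.sqrt_nonneg _)
      have h6 := mul_le_mul_of_nonneg_left h4 h5
      have h7 : A2 / (2 ^ M * y0) * y P = A2 * (y P / (2 ^ M * y0)) := by ring
      rw [h7]
      have h8 : A1 * (√(√(x P)) * √(√(y0 / 2 ^ M))) = A1 * √(√(y0 / 2 ^ M)) * √(√(x P)) := by ring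
      rw [h8]
      linarith
    · have e : cII ch x y κ M y0 (d + 1) P = cc ch x y κ (d + 1) P := by
        rw [cII, if_neg hW]
      rw [e]
      have hn1 : 0 ≤ A2 * (y P / (2 ^ M * y0)) := mul_nonneg hA2 (div_pos (hy P) hc).le
      have hn2 : 0 ≤ A1 * √(√(x P * (y0 / 2 ^ M))) := mul_nonneg hA1 (Real.sqrt_nonneg _)
      by_cases h3 : y P ≤ 2 ^ M * y0
      · have h4 : ¬ y0 ≤ 2 ^ M * y P := fun h => hW ⟨h, h3⟩
        have h5 : y P ≤ y0 / 2 ^ M := by
          rw [le_div_iff₀ (by positivity), mul_comm]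
          exact (not_le.1 h4).le
        have h6 : q x y P ≤ √(√(x P * (y0 / 2 ^ M))) := by
          unfold q
          exact Real.sqrt_le_sqrt (Real.sqrt_le_sqrt (mul_le_mul_of_nonneg_left h5 (hx P).le))
        have h7 := mul_le_mul_of_nonneg_left h6 hA1
        have h8 := h1 (d + 1) P
        linarith
      · have h4 : 1 ≤ y P / (2 ^ M * y0) := by
          rw [le_div_iff₀ hc, one_mul]
          exact (not_le.1 h3).le
        have h5 := mul_le_mul_of_nonneg_left h4 hA2
        have h6 := h2 (d + 1) P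
        linarith

end Pool.MP_75bf3e_an.BT
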