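import Pool.Agent.Lib_MP_75bf3e.DCarl

/-!
# Piece DPOINT: Cauchy-Schwarz for `avg` and `S`, pointwise bounds for `avg a (delta f)`

`avg_cs`, `S_cs`: `u, v ≥ 0`; by AM-GM `√u √v ≤ (θ u + v/θ)/2` for every `θ > 0`, so by
`avg_mono, avg_add, avg_mul` (`S_mono, S_add, S_mul`) the left side is `≤ (θ A + B/θ)/2` for all `θ > 0`,
`A, B` the two averages (sums); optimise (if `A = 0` or `B = 0` let `θ → ∞` or `0`; one can also prove
them by induction with `Real.sqrt` and the elementary inequality `Σ √(a_i) √(b_i) ≤ √(Σ a_i) √(Σ b_i)`).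

`delta_le`.  With `φ = f/x`: `|f_i - f| ≤ |φ_i - φ| x_i + |φ| |x_i - x|` for the children; by Cauchy-Schwarz over
the four children `(Σ |φ_i - φ| x_i)/4 ≤ √E √x` (`av x = x`) and `(Σ |x_i - x|)/4 ≤ √((Σ (x_i-x)^2)/4) = x √U2`.

`avg_delta_le1`: in `delta_le J` write `|φ J| ≤ |φ P| + |φ J - φ P|` (`P` fixed) and average over `J` of depth `a`:
`avg (√x √E) ≤ √(avg x) √(avg E) = √(x P) √(avg a E P)`;
`|φ P| avg (√x √(x U2)) ≤ |φ P| √(x P) √(x P ub) = |φ P| x P √ub` (`ub_mul`);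
`avg (√((φ J - φ P)^2 x J) √(x U2)) ≤ √(avg a ((φ J - φ P)^2 x J)) √(3 x P)` (`U2_le_three`), and the first factor
is `√(S a E P)` by `square_avg`.
`avg_delta_le2`: the same without splitting `φ J`.
-/

set_option autoImplicit false

namespace Pool.MP_75bf3e_an.BT

variable {T : Type} {ch : Fin 4 → T → T} {x : T → ℝ}

/-- Cauchy-Schwarz for the average over the children -/
theorem dp_av_cs (u v : T → ℝ) (hu : ∀ P, 0 ≤ u P) (hv : ∀ P, 0 ≤ v P) (P : T) :
    av ch (fun Q => √(u Q) * √(v Q)) P ≤ √(av ch u P) * √(av ch v P) := by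
  unfold av
  have h := Real.sum_sqrt_mul_sqrt_le (Finset.univ : Finset (Fin 4))
    (f := fun i => u (ch i P)) (g := fun i => v (ch i P)) (fun i => hu _) (fun i => hv _)
  have h4 : √(4 : ℝ) * √(4 : ℝ) = 4 := Real.mul_self_sqrt (by norm_num)
  have hp : (0 : ℝ) < √4 := Real.sqrt_pos.mpr (by norm_num)
  rw [Real.sqrt_div' _ (by norm_num : (0 : ℝ) ≤ 4), Real.sqrt_div' _ (by norm_num : (0 : ℝ) ≤ 4),
    div_mul_div_comm, h4]
  gcongr

/-- Cauchy-Schwarz for two terms -/
theorem dp_two_cs {a b c e : ℝ} (ha : 0 ≤ a) (hb : 0 ≤ b) (hc : 0 ≤ c) (he : 0 ≤ e) :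
    √a * √b + √c * √e ≤ √(a + c) * √(b + e) := by
  rw [← Real.sqrt_mul (add_nonneg ha hc)]
  apply Real.le_sqrt_of_sq_le
  have h1 := Real.sq_sqrt ha
  have h2 := Real.sq_sqrt hb
  have h3 := Real.sq_sqrt hc
  have h4 := Real.sq_sqrt he
  have h5 : (√a * √b + √c * √e) ^ 2
      = √a ^ 2 * √b ^ 2 + √c ^ 2 * √e ^ 2 + 2 * (√a * √e) * (√c * √b) := by ring
  have h6 : 2 * (√a * √e) * (√c * √b) ≤ √a ^ 2 * √e ^ 2 + √c ^ 2 * √b ^ 2 := by
    nlinarith [sq_nonneg (√a * √e - √c * √b)]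
  rw [h5]
  rw [h1, h2, h3, h4] at *
  nlinarith

theorem avg_cs (u v : T → ℝ) (hu : ∀ P, 0 ≤ u P) (hv : ∀ P, 0 ≤ v P) (a : ℕ) (P : T) :
    avg ch a (fun Q => √(u Q) * √(v Q)) P ≤ √(avg ch a u P) * √(avg ch a v P) := by
  induction a generalizing P with
  | zero => exact le_rfl
  | succ a ih =>
    rw [avg_succ, avg_succ, avg_succ]
    exact (av_mono ch P (fun i => ih _)).trans
      (dp_av_cs (avg ch a u) (avg ch a v) (fun Q => avg_nonneg ch hu a Q)
        (fun Q => avg_nonneg ch hv a Q) P)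

theorem S_cs (u v : T → ℝ) (hu : ∀ P, 0 ≤ u P) (hv : ∀ P, 0 ≤ v P) (d : ℕ) (P : T) :
    S ch d (fun Q => √(u Q) * √(v Q)) P ≤ √(S ch d u P) * √(S ch d v P) := by
  induction d generalizing P with
  | zero => simp
  | succ d ih =>
    rw [S_succ, S_succ, S_succ]
    have h1 : av ch (S ch d (fun Q => √(u Q) * √(v Q))) P
        ≤ √(av ch (S ch d u) P) * √(av ch (S ch d v) P) :=
      (av_mono ch P (fun i => ih _)).trans
        (dp_av_cs (S ch d u) (S ch d v) (fun Q => S_nonneg ch hu d Q)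
          (fun Q => S_nonneg ch hv d Q) P)
    have h2 := dp_two_cs (hu P) (hv P) (av_nonneg ch P (fun i => S_nonneg ch hu d (ch i P)))
      (av_nonneg ch P (fun i => S_nonneg ch hv d (ch i P)))
    linarith

theorem delta_le (hx : ∀ P, 0 < x P) (xm : ∀ P, av ch x P = x P) (f : T → ℝ) (J : T) :
    delta ch f J ≤ √(x J) * √(EE ch x f J) + |f J / x J| * (x J * √(U2 ch x J)) := by
  have hxJ := hx J
  -- the first sum
  have h4 : √(4 : ℝ) * √(4 : ℝ) = 4 := Real.mul_self_sqrt (by norm_num)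
  have e1 : (∑ i, |f (ch i J) / x (ch i J) - f J / x J| * x (ch i J)) / 4
      ≤ √(x J) * √(EE ch x f J) := by
    have h := Real.sum_sqrt_mul_sqrt_le (Finset.univ : Finset (Fin 4))
      (f := fun i => x (ch i J))
      (g := fun i => (f (ch i J) / x (ch i J) - f J / x J) ^ 2 * x (ch i J))
      (fun i => (hx _).le) (fun i => mul_nonneg (sq_nonneg _) (hx _).le)
    have hs : ∑ i, x (ch i J) = x J * 4 := by
      have := xm J; unfold av at this; linarith
    have he : ∑ i, (f (ch i J) / x (ch i J) - f J / x J) ^ 2 * x (ch i J) = EE ch x f J * 4 := by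
      unfold EE; ring
    rw [hs, he] at h
    rw [Real.sqrt_mul hxJ.le, Real.sqrt_mul (EE_nonneg hx f J)] at h
    have hl : ∑ i, |f (ch i J) / x (ch i J) - f J / x J| * x (ch i J)
        = ∑ i, √(x (ch i J)) * √((f (ch i J) / x (ch i J) - f J / x J) ^ 2 * x (ch i J)) := by
      apply Finset.sum_congr rfl
      intro i _
      rw [Real.sqrt_mul (sq_nonneg _), Real.sqrt_sq_eq_abs]
      have := Real.mul_self_sqrt (hx (ch i J)).le
      linear_combination (-|f (ch i J) / x (ch i J) - f J / x J|) * this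
    rw [hl, div_le_iff₀ (by norm_num)]
    calc _ ≤ _ := h
      _ = √(x J) * √(EE ch x f J) * (√4 * √4) := by ring
      _ = _ := by rw [h4]
  have e2 : (∑ i, |x (ch i J) - x J|) / 4 ≤ x J * √(U2 ch x J) := by
    have h := Real.sum_sqrt_mul_sqrt_le (Finset.univ : Finset (Fin 4))
      (f := fun i => (x (ch i J) - x J) ^ 2) (g := fun _ => (1 : ℝ))
      (fun i => sq_nonneg _) (fun i => zero_le_one)
    have hs : ∑ i, (x (ch i J) - x J) ^ 2 = (x J) ^ 2 * (U2 ch x J * 4) := by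
      unfold U2; field_simp
    simp only [Real.sqrt_one, mul_one, Real.sqrt_sq_eq_abs] at h
    rw [hs, Real.sqrt_mul (sq_nonneg _), Real.sqrt_sq hxJ.le, Real.sqrt_mul (U2_nonneg J)] at h
    have h1 : ∑ i : Fin 4, (1 : ℝ) = 4 := by simp
    rw [h1] at h
    rw [div_le_iff₀ (by norm_num)]
    calc _ ≤ _ := h
      _ = x J * √(U2 ch x J) * (√4 * √4) := by ring
      _ = _ := by rw [h4]
  have e3 : ∑ i, |f (ch i J) - f J| ≤ ∑ i, |f (ch i J) / x (ch i J) - f J / x J| * x (ch i J)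
      + |f J / x J| * ∑ i, |x (ch i J) - x J| := by
    rw [Finset.mul_sum, ← Finset.sum_add_distrib]
    apply Finset.sum_le_sum
    intro i _
    have hi := hx (ch i J)
    have hh : f (ch i J) - f J = (f (ch i J) / x (ch i J) - f J / x J) * x (ch i J)
        + f J / x J * (x (ch i J) - x J) := by
      field_simp
      ring
    calc |f (ch i J) - f J| ≤ |(f (ch i J) / x (ch i J) - f J / x J) * x (ch i J)|
          + |f J / x J * (x (ch i J) - x J)| := by rw [hh]; exact abs_add_le _ _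
      _ = _ := by rw [abs_mul, abs_mul, abs_of_pos hi]
  unfold delta
  calc (∑ i, |f (ch i J) - f J|) / 4
      ≤ (∑ i, |f (ch i J) / x (ch i J) - f J / x J| * x (ch i J)
        + |f J / x J| * ∑ i, |x (ch i J) - x J|) / 4 := by gcongr
    _ = (∑ i, |f (ch i J) / x (ch i J) - f J / x J| * x (ch i J)) / 4
        + |f J / x J| * ((∑ i, |x (ch i J) - x J|) / 4) := by ring
    _ ≤ _ := add_le_add e1 (mul_le_mul_of_nonneg_left e2 (abs_nonneg _))

/-- `x √U2 = √x √(x U2)` -/
theorem dp_xU (hx : ∀ P, 0 < x P) (J : T) :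
    x J * √(U2 ch x J) = √(x J) * √(x J * U2 ch x J) := by
  rw [Real.sqrt_mul (hx J).le]
  have := Real.mul_self_sqrt (hx J).le
  linear_combination (-√(U2 ch x J)) * this

theorem dp_cxU (hx : ∀ P, 0 < x P) (c : ℝ) (J : T) :
    |c| * (x J * √(U2 ch x J)) = √(c ^ 2 * x J) * √(x J * U2 ch x J) := by
  rw [dp_xU hx, Real.sqrt_mul (sq_nonneg c), Real.sqrt_sq_eq_abs]
  ring

theorem avg_delta_le1 (hx : ∀ P, 0 < x P) (xm : ∀ P, av ch x P = x P) (f : T → ℝ)
    (fm : ∀ P, av ch f P = f P) (a : ℕ) (P : T) :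
    avg ch a (delta ch f) P
      ≤ √(x P) * (√(avg ch a (EE ch x f) P) + √3 * √(S ch a (EE ch x f) P))
        + |f P / x P| * (x P * √(ub ch a x P)) := by
  have hUx : ∀ J, 0 ≤ x J * U2 ch x J := fun J => mul_nonneg (hx J).le (U2_nonneg J)
  -- the three pieces
  have p1 : avg ch a (fun J => √(x J) * √(EE ch x f J)) P
      ≤ √(x P) * √(avg ch a (EE ch x f) P) := by
    have := avg_cs (ch := ch) x (EE ch x f) (fun J => (hx J).le) (fun J => EE_nonneg hx f J) a P
    rwa [avg_mart ch xm] at this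
  have p2 : avg ch a (fun J => √(x J) * √(x J * U2 ch x J)) P ≤ x P * √(ub ch a x P) := by
    have := avg_cs (ch := ch) x (fun J => x J * U2 ch x J) (fun J => (hx J).le) hUx a P
    rw [avg_mart ch xm, ← ub_mul hx, Real.sqrt_mul (hx P).le] at this
    have h2 := Real.mul_self_sqrt (hx P).le
    calc _ ≤ _ := this
      _ = (√(x P) * √(x P)) * √(ub ch a x P) := by ring
      _ = _ := by rw [h2]
  have p3 : avg ch a (fun J => √((f J / x J - f P / x P) ^ 2 * x J) * √(x J * U2 ch x J)) P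
      ≤ √(x P) * (√3 * √(S ch a (EE ch x f) P)) := by
    have := avg_cs (ch := ch) (fun J => (f J / x J - f P / x P) ^ 2 * x J)
      (fun J => x J * U2 ch x J) (fun J => mul_nonneg (sq_nonneg _) (hx J).le) hUx a P
    rw [square_avg hx xm f fm a P, ← ub_mul hx, Real.sqrt_mul (hx P).le] at this
    have h3 : √(ub ch a x P) ≤ √3 := Real.sqrt_le_sqrt (ub_le_three hx xm a P)
    calc _ ≤ _ := this
      _ ≤ √(S ch a (EE ch x f) P) * (√(x P) * √3) := by gcongr
      _ = _ := by ring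
  have key : ∀ J, delta ch f J ≤ (√(x J) * √(EE ch x f J)
      + |f P / x P| * (√(x J) * √(x J * U2 ch x J)))
      + √((f J / x J - f P / x P) ^ 2 * x J) * √(x J * U2 ch x J) := by
    intro J
    have h1 := delta_le hx xm f J
    have h2 : |f J / x J| ≤ |f P / x P| + |f J / x J - f P / x P| := by
      have := abs_add_le (f P / x P) (f J / x J - f P / x P)
      rwa [add_sub_cancel] at this
    have h3 : 0 ≤ x J * √(U2 ch x J) := mul_nonneg (hx J).le (Real.sqrt_nonneg _)
    have h4 := mul_le_mul_of_nonneg_right h2 h3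
    rw [add_mul, dp_cxU hx (f J / x J - f P / x P) J] at h4
    rw [← dp_xU hx J]
    linarith
  have h := avg_mono ch key a P
  rw [avg_add, avg_add, avg_mul] at h
  have h5 := mul_le_mul_of_nonneg_left p2 (abs_nonneg (f P / x P))
  have h6 : √(x P) * (√(avg ch a (EE ch x f) P) + √3 * √(S ch a (EE ch x f) P))
      = √(x P) * √(avg ch a (EE ch x f) P) + √(x P) * (√3 * √(S ch a (EE ch x f) P)) := by ring
  rw [h6]
  linarith

theorem avg_delta_le2 (hx : ∀ P, 0 < x P) (xm : ∀ P, av ch x P = x P) (f : T → ℝ)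
    (a : ℕ) (P : T) :
    avg ch a (delta ch f) P
      ≤ √(x P) * (√(avg ch a (EE ch x f) P)
        + √(avg ch a (fun J => x J * U2 ch x J * (f J / x J) ^ 2) P)) := by
  have p1 : avg ch a (fun J => √(x J) * √(EE ch x f J)) P
      ≤ √(x P) * √(avg ch a (EE ch x f) P) := by
    have := avg_cs (ch := ch) x (EE ch x f) (fun J => (hx J).le) (fun J => EE_nonneg hx f J) a P
    rwa [avg_mart ch xm] at this
  have p2 : avg ch a (fun J => √(x J) * √(x J * U2 ch x J * (f J / x J) ^ 2)) P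
      ≤ √(x P) * √(avg ch a (fun J => x J * U2 ch x J * (f J / x J) ^ 2) P) := by
    have := avg_cs (ch := ch) x (fun J => x J * U2 ch x J * (f J / x J) ^ 2)
      (fun J => (hx J).le)
      (fun J => mul_nonneg (mul_nonneg (hx J).le (U2_nonneg J)) (sq_nonneg _)) a P
    rwa [avg_mart ch xm] at this
  have key : ∀ J, delta ch f J ≤ √(x J) * √(EE ch x f J)
      + √(x J) * √(x J * U2 ch x J * (f J / x J) ^ 2) := by
    intro J
    have h1 := delta_le hx xm f J
    have h2 : |f J / x J| * (x J * √(U2 ch x J))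
        = √(x J) * √(x J * U2 ch x J * (f J / x J) ^ 2) := by
      rw [dp_xU hx, Real.sqrt_mul (mul_nonneg (hx J).le (U2_nonneg J)) ((f J / x J) ^ 2),
        Real.sqrt_sq_eq_abs]
      ring
    rw [h2] at h1
    exact h1
  have h := avg_mono ch key a P
  rw [avg_add] at h
  rw [mul_add]
  linarith

end Pool.MP_75bf3e_an.BT
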