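import Pool.Agent.Lib_MP_75bf3e.DDefs

/-!
# Piece DTEST: the two weight testing theorem for positive dyadic forms, on the tree

`x, y > 0`, `F, G ≥ 0`, `Φ, Ψ` martingales, `F^2 ≤ x Φ`, `G^2 ≤ y Ψ` (averages of `|f|`, `|g|`, `|f|^2 w`,
`|g|^2 /w`); `φ = F/x`, `ψ = G/y`.  `t > 0` and `2 * TT κ d P ≤ t^2 x P`, `2 * TT' κ d P ≤ t^2 y P`, where
`TT' = TT ch y x κ` is the sum with the roles of `x` and `y` exchanged.

Step 1.  `ZZ 0 P θ = θ^2 y P`, `ZZ (d+1) P θ = av_i ZZ d (ch i P) (θ + κ P * x P)` (define it by recursion,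
`θ` is an argument).  By induction: for `θ ≥ 0`,
`θ^2 y P ≤ ZZ d P θ ≤ θ^2 y P + 2 θ cc d P + 2 TT d P`
(step, with `a = κ P x P`: `av (θ+a)^2 y = (θ+a)^2 y P`, and `a^2 y P ≤ 2 a * (a y P)`,
`cc (d+1) P = a y P + av (cc d) P`, `TT (d+1) P = a * cc (d+1) P + av (TT d) P`).

Step 2.  Let `q1 P` be the indicator of `G P^2 * x P ≤ F P^2 * y P` (i.e. `ψ^2 y ≤ φ^2 x`).  For
`λ, θ ≥ 0` put `L d P λ θ = S d (q1 * κ F G) P + 2 λ θ G P`.  CLAIM, by induction on `d`, for all `P, λ, θ ≥ 0`: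
`L d P λ θ ≤ (λ^2/t) ZZ d P θ + t Ψ P + 8 t (Φ P - 2 λ F P + λ^2 x P)`.
* `d = 0`: `2 λ θ G ≤ (λ^2/t) θ^2 y + t G^2/y`; the last bracket is `≥ (F - λ x)^2/x ≥ 0`.
* Case A (`q1 P = 0` or `F P ≤ 2 λ x P`): `L (d+1) P λ θ ≤ av_i L d (ch i P) λ (θ + κ x)`
  (if `q1 P = 1` then `κ F G ≤ 2 λ κ x G`), use the induction hypothesis and that `Ψ, Φ, F, x` are martingales.
* Case B (`q1 P = 1` and `F P > 2 λ x P`): put `λ' = F P/x P`.  `L (d+1) P λ θ = L (d+1) P λ' 0 + 2 λ θ G P`.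
  By Case A (for `λ'`): `L (d+1) P λ' 0 ≤ (λ'^2/t) ZZ (d+1) P 0 + t Ψ P + 8 t (Φ - F^2/x)` and
  `ZZ (d+1) P 0 ≤ 2 TT ≤ t^2 x P`, so the first term is `≤ t F^2/x`.  And
  `2 λ θ G ≤ (λ^2/t) θ^2 y + t G^2/y ≤ (λ^2/t) ZZ (d+1) P θ + t F^2/x`.  Finally
  `Φ - 2 λ F + λ^2 x = (Φ - F^2/x) + (F - λ x)^2/x ≥ (Φ - F^2/x) + F^2/(4x)`, and `8 t * F^2/(4x) = 2 t F^2/x`.
With `λ = θ = 0`: `S d (q1 κ F G) R ≤ t Ψ R + 8 t Φ R`.

Step 3.  The complement of `q1` is contained in the set where `F^2 y ≤ G^2 x`: apply Step 2 with the roles of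
`(x, F, Φ)` and `(y, G, Ψ)` exchanged.  Sum: `S d (κ F G) R ≤ 9 t (Φ R + Ψ R)`.

`testing` (product form): replace `F, Φ` by `s F, s^2 Φ` and `G, Ψ` by `G/s, Ψ/s^2`, and optimise in `s > 0`
(if `Φ R = 0` or `Ψ R = 0` let `s → ∞` or `s → 0`).
-/

set_option autoImplicit false

namespace Pool.MP_75bf3e_an.BT

variable {T : Type} {ch : Fin 4 → T → T} {x y : T → ℝ}

/-- the sums `Z` of the paper -/
private noncomputable def ZZ (ch : Fin 4 → T → T) (x y κ : T → ℝ) : ℕ → T → ℝ → ℝ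
  | 0, P, θ => θ ^ 2 * y P
  | d + 1, P, θ => av ch (fun Q => ZZ ch x y κ d Q (θ + κ P * x P)) P

private theorem ZZ_lower (hx : ∀ P, 0 < x P) (hy : ∀ P, 0 < y P) (ym : ∀ P, av ch y P = y P)
    (κ : T → ℝ) (hκ : ∀ P, 0 ≤ κ P) (d : ℕ) : ∀ (P : T) (θ : ℝ), 0 ≤ θ →
      θ ^ 2 * y P ≤ ZZ ch x y κ d P θ := by
  induction d with
  | zero => intro P θ _; exact le_refl _
  | succ d ih =>
    intro P θ hθ
    have ha : 0 ≤ κ P * x P := mul_nonneg (hκ P) (hx P).le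
    calc θ ^ 2 * y P ≤ (θ + κ P * x P) ^ 2 * y P := by
          apply mul_le_mul_of_nonneg_right _ (hy P).le
          exact pow_le_pow_left₀ hθ (by linarith) 2
      _ = av ch (fun Q => (θ + κ P * x P) ^ 2 * y Q) P := by rw [av_mul, ym]
      _ ≤ av ch (fun Q => ZZ ch x y κ d Q (θ + κ P * x P)) P :=
          av_mono ch P (fun i => ih _ _ (add_nonneg hθ ha))
      _ = ZZ ch x y κ (d + 1) P θ := rfl

private theorem ZZ_upper (hx : ∀ P, 0 < x P) (hy : ∀ P, 0 < y P) (ym : ∀ P, av ch y P = y P)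
    (κ : T → ℝ) (hκ : ∀ P, 0 ≤ κ P) (d : ℕ) : ∀ (P : T) (θ : ℝ), 0 ≤ θ →
      ZZ ch x y κ d P θ ≤ θ ^ 2 * y P + 2 * θ * cc ch x y κ d P + 2 * TT ch x y κ d P := by
  induction d with
  | zero => intro P θ _; simp [ZZ, cc, TT]
  | succ d ih =>
    intro P θ hθ
    have ha : 0 ≤ κ P * x P := mul_nonneg (hκ P) (hx P).le
    have h1 : ZZ ch x y κ (d + 1) P θ ≤ (θ + κ P * x P) ^ 2 * y P +
        2 * (θ + κ P * x P) * av ch (cc ch x y κ d) P + 2 * av ch (TT ch x y κ d) P := by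
      calc ZZ ch x y κ (d + 1) P θ = av ch (fun Q => ZZ ch x y κ d Q (θ + κ P * x P)) P := rfl
        _ ≤ av ch (fun Q => ((θ + κ P * x P) ^ 2 * y Q + 2 * (θ + κ P * x P) * cc ch x y κ d Q) +
            2 * TT ch x y κ d Q) P := av_mono ch P (fun i => ih _ _ (add_nonneg hθ ha))
        _ = _ := by rw [av_add, av_add, av_mul, av_mul, av_mul, ym]
    have h2 : cc ch x y κ (d + 1) P = x P * y P * κ P + av ch (cc ch x y κ d) P := rfl
    have h3 : TT ch x y κ (d + 1) P = x P * κ P * cc ch x y κ (d + 1) P +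
        av ch (TT ch x y κ d) P := rfl
    have h4 : 0 ≤ (κ P * x P) ^ 2 * y P := mul_nonneg (sq_nonneg _) (hy P).le
    rw [h3, h2]
    nlinarith [h1, h4]

private theorem amgm {a b c : ℝ} (ha : 0 ≤ a) (hb : 0 ≤ b) (h : c ^ 2 ≤ a * b) :
    2 * c ≤ a + b := by
  have h1 : (2 * c) ^ 2 ≤ (a + b) ^ 2 := by nlinarith [sq_nonneg (a - b)]
  exact (le_abs_self _).trans ((sq_le_sq.1 h1).trans (abs_of_nonneg (add_nonneg ha hb)).le)

open Classical in
private theorem dtest_claim (hx : ∀ P, 0 < x P) (hy : ∀ P, 0 < y P) (xm : ∀ P, av ch x P = x P)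
    (ym : ∀ P, av ch y P = y P) (κ : T → ℝ) (hκ : ∀ P, 0 ≤ κ P)
    (F G Φ Ψ : T → ℝ) (hF : ∀ P, 0 ≤ F P) (hG : ∀ P, 0 ≤ G P)
    (Fm : ∀ P, av ch F P = F P) (Gm : ∀ P, av ch G P = G P) (Φm : ∀ P, av ch Φ P = Φ P)
    (Ψm : ∀ P, av ch Ψ P = Ψ P) (hFΦ : ∀ P, F P ^ 2 ≤ x P * Φ P) (hGΨ : ∀ P, G P ^ 2 ≤ y P * Ψ P)
    (t : ℝ) (ht : 0 < t) (h1 : ∀ d P, 2 * TT ch x y κ d P ≤ t ^ 2 * x P) (d : ℕ) :
    ∀ (P : T) (l θ : ℝ), 0 ≤ l → 0 ≤ θ →
      S ch d (fun P => if G P ^ 2 * x P ≤ F P ^ 2 * y P then κ P * F P * G P else 0) P +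
        2 * l * θ * G P ≤ l ^ 2 / t * ZZ ch x y κ d P θ + t * Ψ P +
          8 * t * (Φ P - 2 * l * F P + l ^ 2 * x P) := by
  have hΨ : ∀ P, 0 ≤ Ψ P := fun P => by
    by_contra hneg
    push Not at hneg
    nlinarith [hGΨ P, sq_nonneg (G P), hy P, mul_neg_of_pos_of_neg (hy P) hneg]
  have hΦ : ∀ P, 0 ≤ Φ P := fun P => by
    by_contra hneg
    push Not at hneg
    nlinarith [hFΦ P, sq_nonneg (F P), hx P, mul_neg_of_pos_of_neg (hx P) hneg]
  -- the first elementary inequality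
  have e1 : ∀ (P : T) (l θ : ℝ), 2 * l * θ * G P ≤ l ^ 2 / t * (θ ^ 2 * y P) + t * Ψ P := by
    intro P l θ
    have h2 := amgm (a := l ^ 2 / t * (θ ^ 2 * y P)) (b := t * Ψ P) (c := l * θ * G P)
      (mul_nonneg (div_nonneg (sq_nonneg _) ht.le) (mul_nonneg (sq_nonneg _) (hy P).le))
      (mul_nonneg ht.le (hΨ P)) (by
        have h3 := mul_le_mul_of_nonneg_left (hGΨ P) (sq_nonneg (l * θ))
        calc (l * θ * G P) ^ 2 = (l * θ) ^ 2 * G P ^ 2 := by ring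
          _ ≤ (l * θ) ^ 2 * (y P * Ψ P) := h3
          _ = l ^ 2 / t * (θ ^ 2 * y P) * (t * Ψ P) := by field_simp)
    linarith
  have e2 : ∀ (P : T) (l : ℝ), 0 ≤ Φ P - 2 * l * F P + l ^ 2 * x P := by
    intro P l
    have h2 := amgm (a := l ^ 2 * x P) (b := Φ P) (c := l * F P)
      (mul_nonneg (sq_nonneg _) (hx P).le) (hΦ P) (by
        have h3 := mul_le_mul_of_nonneg_left (hFΦ P) (sq_nonneg l)
        calc (l * F P) ^ 2 = l ^ 2 * F P ^ 2 := by ring
          _ ≤ l ^ 2 * (x P * Φ P) := h3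
          _ = l ^ 2 * x P * Φ P := by ring)
    linarith
  induction d with
  | zero =>
    intro P l θ hl hθ
    rw [S_zero]
    have h2 := e1 P l θ
    have h3 := mul_nonneg (by positivity : (0 : ℝ) ≤ 8 * t) (e2 P l)
    show 0 + 2 * l * θ * G P ≤ l ^ 2 / t * (θ ^ 2 * y P) + t * Ψ P + _
    linarith
  | succ d ih =>
    -- Case A
    have hA : ∀ (P : T) (l θ : ℝ), 0 ≤ l → 0 ≤ θ →
        (G P ^ 2 * x P ≤ F P ^ 2 * y P → F P ≤ 2 * l * x P) →
        S ch (d + 1) (fun P => if G P ^ 2 * x P ≤ F P ^ 2 * y P then κ P * F P * G P else 0) P +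
        2 * l * θ * G P ≤ l ^ 2 / t * ZZ ch x y κ (d + 1) P θ + t * Ψ P +
          8 * t * (Φ P - 2 * l * F P + l ^ 2 * x P) := by
      intro P l θ hl hθ hq
      set q : T → ℝ := fun P => if G P ^ 2 * x P ≤ F P ^ 2 * y P then κ P * F P * G P else 0
        with hqdef
      have ha : 0 ≤ κ P * x P := mul_nonneg (hκ P) (hx P).le
      have h2 : q P ≤ 2 * l * (κ P * x P) * G P := by
        by_cases hc : G P ^ 2 * x P ≤ F P ^ 2 * y P
        · have e : q P = κ P * F P * G P := if_pos hc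
          rw [e]
          have h3 := mul_le_mul_of_nonneg_left (hq hc) (mul_nonneg (hκ P) (hG P))
          nlinarith
        · have e : q P = 0 := if_neg hc
          rw [e]
          exact mul_nonneg (mul_nonneg (by positivity) ha) (hG P)
      have h3 : av ch (S ch d q) P + 2 * l * (θ + κ P * x P) * G P ≤
          l ^ 2 / t * ZZ ch x y κ (d + 1) P θ + t * Ψ P +
          8 * t * (Φ P - 2 * l * F P + l ^ 2 * x P) := by
        have e3 : av ch (S ch d q) P + 2 * l * (θ + κ P * x P) * G P =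
            av ch (fun Q => S ch d q Q + 2 * l * (θ + κ P * x P) * G Q) P := by
          rw [av_add, av_mul, Gm]
        have e4 : l ^ 2 / t * ZZ ch x y κ (d + 1) P θ + t * Ψ P +
          8 * t * (Φ P - 2 * l * F P + l ^ 2 * x P) =
            av ch (fun Q => (l ^ 2 / t * ZZ ch x y κ d Q (θ + κ P * x P) + t * Ψ Q) +
              8 * t * ((Φ Q - 2 * l * F Q) + l ^ 2 * x Q)) P := by
          rw [av_add, av_add, av_mul, av_mul, av_mul ch (8 * t), av_add, av_sub, av_mul, av_mul,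
            Ψm, Φm, Fm, xm]
          rfl
        rw [e3, e4]
        exact av_mono ch P (fun i => ih _ _ _ hl (add_nonneg hθ ha))
      rw [S_succ]
      linarith
    intro P l θ hl hθ
    by_cases hc : G P ^ 2 * x P ≤ F P ^ 2 * y P → F P ≤ 2 * l * x P
    · exact hA P l θ hl hθ hc
    · push Not at hc
      obtain ⟨hq, hlt⟩ := hc
      have hxP := hx P
      set w : ℝ := F P ^ 2 / x P with hw
      have hwx : w * x P = F P ^ 2 := by rw [hw]; field_simp
      have hw0 : 0 ≤ w := div_nonneg (sq_nonneg _) hxP.le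
      have hl' : 0 ≤ F P / x P := div_nonneg (hF P) hxP.le
      have h2 := hA P (F P / x P) 0 hl' le_rfl (fun _ => by
        have : F P / x P * x P = F P := by field_simp
        nlinarith [hF P])
      have e5 : Φ P - 2 * (F P / x P) * F P + (F P / x P) ^ 2 * x P = Φ P - w := by
        rw [hw]
        field_simp
        ring
      have e6 : (F P / x P) ^ 2 / t * ZZ ch x y κ (d + 1) P 0 ≤ t * w := by
        have h3 := ZZ_upper hx hy ym κ hκ (d + 1) P 0 le_rfl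
        have h4 := h1 (d + 1) P
        have h5 : ZZ ch x y κ (d + 1) P 0 ≤ t ^ 2 * x P := by
          have : (0 : ℝ) ^ 2 * y P + 2 * 0 * cc ch x y κ (d + 1) P + 2 * TT ch x y κ (d + 1) P =
              2 * TT ch x y κ (d + 1) P := by ring
          linarith
        calc (F P / x P) ^ 2 / t * ZZ ch x y κ (d + 1) P 0 ≤
            (F P / x P) ^ 2 / t * (t ^ 2 * x P) :=
              mul_le_mul_of_nonneg_left h5 (div_nonneg (sq_nonneg _) ht.le)
          _ = t * w := by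
            rw [hw]
            field_simp
      rw [e5] at h2
      have e7 : 2 * l * θ * G P ≤ l ^ 2 / t * ZZ ch x y κ (d + 1) P θ + t * w := by
        have h3 := ZZ_lower hx hy ym κ hκ (d + 1) P θ hθ
        have h4 : 2 * (l * θ * G P) ≤ l ^ 2 / t * (θ ^ 2 * y P) + t * w := by
          apply amgm (mul_nonneg (div_nonneg (sq_nonneg _) ht.le)
            (mul_nonneg (sq_nonneg _) (hy P).le)) (mul_nonneg ht.le hw0)
          have h5 : G P ^ 2 ≤ y P * w := by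
            have h6 : G P ^ 2 * x P ≤ (y P * w) * x P := by
              calc G P ^ 2 * x P ≤ F P ^ 2 * y P := hq
                _ = (y P * w) * x P := by rw [mul_assoc, hwx]; ring
            exact le_of_mul_le_mul_right h6 hxP
          calc (l * θ * G P) ^ 2 = (l * θ) ^ 2 * G P ^ 2 := by ring
            _ ≤ (l * θ) ^ 2 * (y P * w) := mul_le_mul_of_nonneg_left h5 (sq_nonneg _)
            _ = l ^ 2 / t * (θ ^ 2 * y P) * (t * w) := by field_simp
        have h7 : l ^ 2 / t * (θ ^ 2 * y P) ≤ l ^ 2 / t * ZZ ch x y κ (d + 1) P θ :=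
          mul_le_mul_of_nonneg_left h3 (div_nonneg (sq_nonneg _) ht.le)
        linarith
      -- the final comparison
      have e8 : w / 4 ≤ w - 2 * l * F P + l ^ 2 * x P := by
        have h3 : 0 ≤ (w - 2 * l * F P + l ^ 2 * x P - w / 4) * x P := by
          have : (w - 2 * l * F P + l ^ 2 * x P - w / 4) * x P =
              (F P - l * x P) ^ 2 - F P ^ 2 / 4 := by
            have : (w - 2 * l * F P + l ^ 2 * x P - w / 4) * x P =
              w * x P - 2 * l * F P * x P + l ^ 2 * x P ^ 2 - (w * x P) / 4 := by ring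
            rw [this, hwx]
            ring
          rw [this]
          have h4 : F P / 2 ≤ F P - l * x P := by linarith
          have h5 := hF P
          nlinarith [mul_self_le_mul_self (by linarith : (0 : ℝ) ≤ F P / 2) h4]
        have h6 := nonneg_of_mul_nonneg_left h3 hxP
        linarith
      have e9 := mul_le_mul_of_nonneg_left e8 (by positivity : (0 : ℝ) ≤ 8 * t)
      nlinarith [h2, e6, e7, e9]

theorem testing_sum (hx : ∀ P, 0 < x P) (hy : ∀ P, 0 < y P) (xm : ∀ P, av ch x P = x P)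
    (ym : ∀ P, av ch y P = y P) (κ : T → ℝ) (hκ : ∀ P, 0 ≤ κ P)
    (F G Φ Ψ : T → ℝ) (hF : ∀ P, 0 ≤ F P) (hG : ∀ P, 0 ≤ G P)
    (Fm : ∀ P, av ch F P = F P) (Gm : ∀ P, av ch G P = G P) (Φm : ∀ P, av ch Φ P = Φ P)
    (Ψm : ∀ P, av ch Ψ P = Ψ P) (hFΦ : ∀ P, F P ^ 2 ≤ x P * Φ P) (hGΨ : ∀ P, G P ^ 2 ≤ y P * Ψ P)
    (t : ℝ) (ht : 0 < t) (h1 : ∀ d P, 2 * TT ch x y κ d P ≤ t ^ 2 * x P)
    (h2 : ∀ d P, 2 * TT ch y x κ d P ≤ t ^ 2 * y P) (d : ℕ) (R : T) :
    S ch d (fun P => κ P * F P * G P) R ≤ 9 * t * (Φ R + Ψ R) := by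
  classical
  have a1 := dtest_claim hx hy xm ym κ hκ F G Φ Ψ hF hG Fm Gm Φm Ψm hFΦ hGΨ t ht h1 d R 0 0
    le_rfl le_rfl
  have a2 := dtest_claim hy hx ym xm κ hκ G F Ψ Φ hG hF Gm Fm Ψm Φm hGΨ hFΦ t ht h2 d R 0 0
    le_rfl le_rfl
  have a3 : S ch d (fun P => κ P * F P * G P) R ≤
      S ch d (fun P => (if G P ^ 2 * x P ≤ F P ^ 2 * y P then κ P * F P * G P else 0) +
        (if F P ^ 2 * y P ≤ G P ^ 2 * x P then κ P * G P * F P else 0)) R := by
    apply S_mono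
    intro P
    have h0 : 0 ≤ κ P * F P * G P := mul_nonneg (mul_nonneg (hκ P) (hF P)) (hG P)
    have h0' : 0 ≤ κ P * G P * F P := mul_nonneg (mul_nonneg (hκ P) (hG P)) (hF P)
    rcases le_total (G P ^ 2 * x P) (F P ^ 2 * y P) with h | h
    · rw [if_pos h]
      split_ifs
      · linarith
      · linarith
    · rw [if_pos h]
      have e : κ P * G P * F P = κ P * F P * G P := by ring
      rw [e]
      split_ifs
      · linarith
      · linarith
  rw [S_add] at a3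
  simp only [ne_eq, OfNat.ofNat_ne_zero, not_false_eq_true, zero_pow, zero_div, zero_mul, mul_zero,
    add_zero, zero_add, sub_zero] at a1 a2
  linarith

theorem testing (hx : ∀ P, 0 < x P) (hy : ∀ P, 0 < y P) (xm : ∀ P, av ch x P = x P)
    (ym : ∀ P, av ch y P = y P) (κ : T → ℝ) (hκ : ∀ P, 0 ≤ κ P)
    (F G Φ Ψ : T → ℝ) (hF : ∀ P, 0 ≤ F P) (hG : ∀ P, 0 ≤ G P)
    (Fm : ∀ P, av ch F P = F P) (Gm : ∀ P, av ch G P = G P) (Φm : ∀ P, av ch Φ P = Φ P)
    (Ψm : ∀ P, av ch Ψ P = Ψ P) (hFΦ : ∀ P, F P ^ 2 ≤ x P * Φ P) (hGΨ : ∀ P, G P ^ 2 ≤ y P * Ψ P)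
    (t : ℝ) (ht : 0 < t) (h1 : ∀ d P, 2 * TT ch x y κ d P ≤ t ^ 2 * x P)
    (h2 : ∀ d P, 2 * TT ch y x κ d P ≤ t ^ 2 * y P) (d : ℕ) (R : T) :
    S ch d (fun P => κ P * F P * G P) R ≤ 18 * t * √(Φ R * Ψ R) := by
  have hΨ : ∀ P, 0 ≤ Ψ P := fun P => by
    by_contra hneg
    push Not at hneg
    nlinarith [hGΨ P, sq_nonneg (G P), hy P, mul_neg_of_pos_of_neg (hy P) hneg]
  have hΦ : ∀ P, 0 ≤ Φ P := fun P => by
    by_contra hneg
    push Not at hneg
    nlinarith [hFΦ P, sq_nonneg (F P), hx P, mul_neg_of_pos_of_neg (hx P) hneg]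
  -- scaling
  have hs : ∀ s : ℝ, 0 < s → S ch d (fun P => κ P * F P * G P) R ≤
      9 * t * (s ^ 2 * Φ R + Ψ R / s ^ 2) := by
    intro s hs
    have h3 := testing_sum hx hy xm ym κ hκ (fun P => s * F P) (fun P => G P / s)
      (fun P => s ^ 2 * Φ P) (fun P => Ψ P / s ^ 2)
      (fun P => mul_nonneg hs.le (hF P)) (fun P => div_nonneg (hG P) hs.le)
      (fun P => by rw [av_mul, Fm])
      (fun P => by
        have : av ch (fun P => G P / s) P = av ch (fun P => s⁻¹ * G P) P :=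
          av_congr ch P (fun i => by rw [div_eq_inv_mul])
        rw [this, av_mul, Gm, div_eq_inv_mul])
      (fun P => by rw [av_mul, Φm])
      (fun P => by
        have : av ch (fun P => Ψ P / s ^ 2) P = av ch (fun P => (s ^ 2)⁻¹ * Ψ P) P :=
          av_congr ch P (fun i => by rw [div_eq_inv_mul])
        rw [this, av_mul, Ψm, div_eq_inv_mul])
      (fun P => by
        have := mul_le_mul_of_nonneg_left (hFΦ P) (sq_nonneg s)
        calc (s * F P) ^ 2 = s ^ 2 * F P ^ 2 := by ring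
          _ ≤ s ^ 2 * (x P * Φ P) := this
          _ = x P * (s ^ 2 * Φ P) := by ring)
      (fun P => by
        rw [div_pow, ← mul_div_assoc]
        exact div_le_div_of_nonneg_right (hGΨ P) (sq_nonneg s))
      t ht h1 h2 d R
    have e : (fun P => κ P * (s * F P) * (G P / s)) = fun P => κ P * F P * G P := by
      funext P
      field_simp
    rw [e] at h3
    exact h3
  have hn : ∀ n : ℕ, S ch d (fun P => κ P * F P * G P) R ≤
      18 * t * √((Φ R + 1 / ((n : ℝ) + 1)) * (Ψ R + 1 / ((n : ℝ) + 1))) := by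
    intro n
    have he : (0 : ℝ) < 1 / ((n : ℝ) + 1) := by positivity
    set e := 1 / ((n : ℝ) + 1)
    have hA : 0 < Φ R + e := add_pos_of_nonneg_of_pos (hΦ R) he
    have hB : 0 < Ψ R + e := add_pos_of_nonneg_of_pos (hΨ R) he
    have hsA : 0 < √(Φ R + e) := Real.sqrt_pos.2 hA
    have hsB : 0 < √(Ψ R + e) := Real.sqrt_pos.2 hB
    have h3 := hs (√(√(Ψ R + e) / √(Φ R + e))) (Real.sqrt_pos.2 (div_pos hsB hsA))
    rw [Real.sq_sqrt (div_pos hsB hsA).le] at h3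
    refine h3.trans ?_
    rw [Real.sqrt_mul hA.le]
    have h4 : √(Ψ R + e) / √(Φ R + e) * Φ R ≤ √(Ψ R + e) * √(Φ R + e) := by
      rw [div_mul_eq_mul_div, div_le_iff₀ hsA, mul_assoc, Real.mul_self_sqrt hA.le]
      exact mul_le_mul_of_nonneg_left (by linarith) hsB.le
    have h5 : Ψ R / (√(Ψ R + e) / √(Φ R + e)) ≤ √(Ψ R + e) * √(Φ R + e) := by
      rw [div_div_eq_mul_div, div_le_iff₀ hsB]
      have h6 : √(Ψ R + e) * √(Φ R + e) * √(Ψ R + e) = (Ψ R + e) * √(Φ R + e) := by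
        rw [mul_right_comm, Real.mul_self_sqrt hB.le]
      rw [h6]
      exact mul_le_mul_of_nonneg_right (by linarith) hsA.le
    have h7 : 0 ≤ 9 * t := by positivity
    have h8 := mul_le_mul_of_nonneg_left (add_le_add h4 h5) h7
    linarith
  refine ge_of_tendsto' (x := Filter.atTop) (f := fun n : ℕ =>
    18 * t * √((Φ R + 1 / ((n : ℝ) + 1)) * (Ψ R + 1 / ((n : ℝ) + 1)))) ?_ hn
  have h9 := tendsto_one_div_add_atTop_nhds_zero_nat (𝕜 := ℝ)
  have h10 := ((h9.const_add (Φ R)).mul (h9.const_add (Ψ R))).sqrt.const_mul (18 * t)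
  simpa using h10

end Pool.MP_75bf3e_an.BT
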