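import Pool.Agent.Lib_MP_75bf3e.DTT
import Pool.Agent.Lib_MP_75bf3e.DTest
import Pool.Agent.Lib_MP_75bf3e.DCarl
import Pool.Agent.Lib_MP_75bf3e.DPoint

/-!
# Piece DFORM: the discrete theorem

`φ = f/x`, `ψ = g/y`, `α = ub ch a x`, `β = ub ch b y`, `E = EE ch x f`, `E' = EE ch y g`.

(1), (2): `avg_delta_le1`, `avg_delta_le2` of DPoint (with `G P = S a E P`):
 `avg a (delta f) P ≤ √(x P) * (√(avg a E P) + √3 √(G P)) + |φ P| x P √(α P)`,   (1)
 `avg a (delta f) P ≤ √(x P) * (√(avg a E P) + √(avg a (φ^2 x U2 x) P))`.          (2)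
Cauchy-Schwarz for the sums: `S_cs`.

(A) bound `C K^{3/2}`: use (2) for `f` and `g` and `x y ≤ K`:
`S d (product) ≤ √K * √(S d (u_f)) √(S d (u_g))`, `u_f = 2 avg a E + 2 avg a (φ^2 x U2 x)`,
`S d u_f R ≤ 2 Φ R + 2 * 4 * 32 K Φ R` (`S_avg_le`, `square_sum`, `carleson` with `μ = x U2 x` and
`buckleyU`; note `|f| ≤ F` and `F^2 ≤ x Φ`).  For `g` the same with `(y, Ψ)` (`Wt.symm`).

(B) bound `C √M K` when `M ≤ K`: multiply (1) for `f` and (1) for `g`: with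
`a_f = √(x)(√(avg E) + √3 √G)` and `b_f = |φ| x √α`:
 * `a_f a_g`: `≤ √K * ...`, `S d (avg a E + 3 G) ≤ Φ + 3 a Φ` (`S_S_le`): total `C √K M √(ΦΨ)`;
 * `a_f b_g`: `≤ √K * √(S d (...)) √(S d (ψ^2 y β))`, and `S d (φ^2 x α) ≤ 4*32 K Φ` (`carleson` with
   `μ = x α = avg a (x U2 x)`, `S d μ ≤ 32 K x` by `S_avg_le` and `buckleyU`): total `C √K √M √K`;
 * `b_f b_g = |φ||ψ| x y κ ≤ κ F G` with `κ = √α√β`: `testing` with
   `t = √(8 * 10^9 * M) * K` (`TT_le` and `TT_le` for the exchanged weights: `κ` is symmetric).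
 Sum: `C (√K M + √M K) √(ΦΨ) ≤ C √M K √(ΦΨ)` as `M ≤ K`.

Since `min K M` is `K` or `M` the two bounds give the theorem.
-/

set_option autoImplicit false

namespace Pool.MP_75bf3e_an.BT

section form

variable {T : Type} {ch : Fin 4 → T → T} {K : ℝ} {x y : T → ℝ}

theorem df_sqrt2 (a b : ℝ) (ha : 0 ≤ a) (hb : 0 ≤ b) : √a + √b ≤ √(2 * a + 2 * b) := by
  apply Real.le_sqrt_of_sq_le
  nlinarith [sq_nonneg (√a - √b), Real.sq_sqrt ha, Real.sq_sqrt hb]

theorem df_sqrt6 (a b : ℝ) (ha : 0 ≤ a) (hb : 0 ≤ b) : √a + √3 * √b ≤ √(2 * a + 6 * b) := by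
  have h := df_sqrt2 a (3 * b) ha (by positivity)
  rw [Real.sqrt_mul (by norm_num)] at h
  have h2 : 2 * a + 2 * (3 * b) = 2 * a + 6 * b := by ring
  rwa [h2] at h

theorem df_prod (c : ℝ) (hc : 0 ≤ c) (p u v : T → ℝ) (hu : ∀ P, 0 ≤ u P) (hv : ∀ P, 0 ≤ v P)
    (hp : ∀ P, p P ≤ c * (√(u P) * √(v P))) (d : ℕ) (R : T) (A B : ℝ) (hA : S ch d u R ≤ A)
    (hB : S ch d v R ≤ B) : S ch d p R ≤ c * (√A * √B) := by
  calc S ch d p R ≤ S ch d (fun P => c * (√(u P) * √(v P))) R := S_mono ch hp d R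
    _ = c * S ch d (fun P => √(u P) * √(v P)) R := S_mul ch c _ d R
    _ ≤ c * (√(S ch d u R) * √(S ch d v R)) :=
        mul_le_mul_of_nonneg_left (S_cs u v hu hv d R) hc
    _ ≤ c * (√A * √B) := by
        apply mul_le_mul_of_nonneg_left _ hc
        exact mul_le_mul (Real.sqrt_le_sqrt hA) (Real.sqrt_le_sqrt hB) (Real.sqrt_nonneg _)
          (Real.sqrt_nonneg _)

theorem df_u (h : Wt ch K x y) (f Φ : T → ℝ) (fm : ∀ P, av ch f P = f P)
    (Φm : ∀ P, av ch Φ P = Φ P) (hf : ∀ P, f P ^ 2 ≤ x P * Φ P) (hΦ : ∀ P, 0 ≤ Φ P)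
    (a d : ℕ) (R : T) :
    S ch d (fun P => 2 * avg ch a (EE ch x f) P
      + 2 * avg ch a (fun J => x J * U2 ch x J * (f J / x J) ^ 2) P) R ≤ 258 * K * Φ R := by
  have e1 : S ch d (avg ch a (EE ch x f)) R ≤ Φ R :=
    (S_avg_le ch (fun P => EE_nonneg h.xpos f P) a d R).trans
      (square_sum h.xpos h.xm f Φ fm Φm hf (d + a) R)
  have e2 : S ch d (avg ch a (fun J => x J * U2 ch x J * (f J / x J) ^ 2)) R
      ≤ 4 * (32 * K) * Φ R :=
    (S_avg_le ch (fun P => mul_nonneg (mul_nonneg (h.xpos P).le (U2_nonneg P)) (sq_nonneg _)) a d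
      R).trans
      (carleson h.xpos h.xm (fun J => x J * U2 ch x J) f Φ (32 * K)
        (fun P => mul_nonneg (h.xpos P).le (U2_nonneg P)) (fun d P => buckleyU h d P) fm Φm hf
        (d + a) R)
  rw [S_add, S_mul, S_mul]
  have h1 := h.one_le R
  have h2 : Φ R ≤ K * Φ R := by nlinarith [hΦ R]
  nlinarith

theorem df_v (h : Wt ch K x y) (f Φ : T → ℝ) (fm : ∀ P, av ch f P = f P)
    (Φm : ∀ P, av ch Φ P = Φ P) (hf : ∀ P, f P ^ 2 ≤ x P * Φ P) (hΦ : ∀ P, 0 ≤ Φ P)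
    (a M d : ℕ) (ha : a < M) (R : T) :
    S ch d (fun P => 2 * avg ch a (EE ch x f) P + 6 * S ch a (EE ch x f) P) R
      ≤ 6 * M * Φ R := by
  have e1 : S ch d (avg ch a (EE ch x f)) R ≤ Φ R :=
    (S_avg_le ch (fun P => EE_nonneg h.xpos f P) a d R).trans
      (square_sum h.xpos h.xm f Φ fm Φm hf (d + a) R)
  have e2 : S ch d (S ch a (EE ch x f)) R ≤ a * Φ R :=
    (S_S_le (EE ch x f) (fun P => EE_nonneg h.xpos f P) a d R).trans
      (mul_le_mul_of_nonneg_left (square_sum h.xpos h.xm f Φ fm Φm hf (d + a) R)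
        (Nat.cast_nonneg a))
  rw [S_add, S_mul, S_mul]
  have h1 : (a : ℝ) + 1 ≤ M := by exact_mod_cast ha
  have h2 : ((a : ℝ) + 1) * Φ R ≤ M * Φ R := mul_le_mul_of_nonneg_right h1 (hΦ R)
  have h3 := hΦ R
  nlinarith

theorem df_w (h : Wt ch K x y) (f Φ : T → ℝ) (fm : ∀ P, av ch f P = f P)
    (Φm : ∀ P, av ch Φ P = Φ P) (hf : ∀ P, f P ^ 2 ≤ x P * Φ P) (a d : ℕ) (R : T) :
    S ch d (fun P => x P * ub ch a x P * (f P / x P) ^ 2) R ≤ 128 * K * Φ R := by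
  have hn : ∀ P, 0 ≤ x P * U2 ch x P := fun P => mul_nonneg (h.xpos P).le (U2_nonneg P)
  have e := carleson h.xpos h.xm (fun P => x P * ub ch a x P) f Φ (32 * K)
    (fun P => mul_nonneg (h.xpos P).le (ub_nonneg h.xpos a P)) (fun d P => by
      have e1 : (fun P => x P * ub ch a x P) = avg ch a (fun J => x J * U2 ch x J) :=
        funext fun P => ub_mul h.xpos a P
      rw [e1]
      exact (S_avg_le ch hn a d P).trans (buckleyU h (d + a) P)) fm Φm hf d R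
  refine e.trans (le_of_eq ?_)
  ring

theorem df_sqrtK (h : Wt ch K x y) (P : T) : √(x P) * √(y P) ≤ √K := by
  rw [← Real.sqrt_mul (h.xpos P).le]
  exact Real.sqrt_le_sqrt (h.hi P)

theorem df_delta_nonneg (f : T → ℝ) (P : T) : 0 ≤ delta ch f P := by
  unfold delta
  positivity

/-- bound (A) -/
theorem df_A (h : Wt ch K x y) (a b : ℕ) (f g Φ Ψ : T → ℝ) (fm : ∀ P, av ch f P = f P)
    (gm : ∀ P, av ch g P = g P) (Φm : ∀ P, av ch Φ P = Φ P) (Ψm : ∀ P, av ch Ψ P = Ψ P)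
    (hf : ∀ P, f P ^ 2 ≤ x P * Φ P) (hg : ∀ P, g P ^ 2 ≤ y P * Ψ P) (hΦ : ∀ P, 0 ≤ Φ P)
    (hΨ : ∀ P, 0 ≤ Ψ P) (d : ℕ) (R : T) :
    S ch d (fun P => avg ch a (delta ch f) P * avg ch b (delta ch g) P) R
      ≤ 258 * K * √K * √(Φ R * Ψ R) := by
  have hK : 0 ≤ K := zero_le_one.trans (h.one_le R)
  have n1 : ∀ P, 0 ≤ avg ch a (EE ch x f) P := avg_nonneg ch (fun P => EE_nonneg h.xpos f P) a
  have n2 : ∀ P, 0 ≤ avg ch a (fun J => x J * U2 ch x J * (f J / x J) ^ 2) P :=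
    avg_nonneg ch (fun P => mul_nonneg (mul_nonneg (h.xpos P).le (U2_nonneg P)) (sq_nonneg _)) a
  have n3 : ∀ P, 0 ≤ avg ch b (EE ch y g) P := avg_nonneg ch (fun P => EE_nonneg h.ypos g P) b
  have n4 : ∀ P, 0 ≤ avg ch b (fun J => y J * U2 ch y J * (g J / y J) ^ 2) P :=
    avg_nonneg ch (fun P => mul_nonneg (mul_nonneg (h.ypos P).le (U2_nonneg P)) (sq_nonneg _)) b
  have key := df_prod (ch := ch) (√K) (Real.sqrt_nonneg _)
    (fun P => avg ch a (delta ch f) P * avg ch b (delta ch g) P)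
    (fun P => 2 * avg ch a (EE ch x f) P
      + 2 * avg ch a (fun J => x J * U2 ch x J * (f J / x J) ^ 2) P)
    (fun P => 2 * avg ch b (EE ch y g) P
      + 2 * avg ch b (fun J => y J * U2 ch y J * (g J / y J) ^ 2) P)
    (fun P => by have := n1 P; have := n2 P; positivity)
    (fun P => by have := n3 P; have := n4 P; positivity)
    (fun P => ?_) d R (258 * K * Φ R) (258 * K * Ψ R)
    (df_u h f Φ fm Φm hf hΦ a d R) (df_u h.symm g Ψ gm Ψm hg hΨ b d R)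
  · refine key.trans (le_of_eq ?_)
    have e1 : √(258 * K * Φ R) * √(258 * K * Ψ R) = 258 * K * √(Φ R * Ψ R) := by
      rw [← Real.sqrt_mul (by have := hΦ R; positivity)]
      have e2 : 258 * K * Φ R * (258 * K * Ψ R) = (258 * K) ^ 2 * (Φ R * Ψ R) := by ring
      rw [e2, Real.sqrt_mul (by positivity), Real.sqrt_sq (by positivity)]
    rw [e1]
    ring
  · have p1 := avg_delta_le2 h.xpos h.xm f a P
    have p2 := avg_delta_le2 h.ypos h.ym g b P
    have q1 := df_sqrt2 _ _ (n1 P) (n2 P)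
    have q2 := df_sqrt2 _ _ (n3 P) (n4 P)
    have r1 : avg ch a (delta ch f) P ≤ √(x P) * √(2 * avg ch a (EE ch x f) P
      + 2 * avg ch a (fun J => x J * U2 ch x J * (f J / x J) ^ 2) P) :=
      p1.trans (mul_le_mul_of_nonneg_left q1 (Real.sqrt_nonneg _))
    have r2 : avg ch b (delta ch g) P ≤ √(y P) * √(2 * avg ch b (EE ch y g) P
      + 2 * avg ch b (fun J => y J * U2 ch y J * (g J / y J) ^ 2) P) :=
      p2.trans (mul_le_mul_of_nonneg_left q2 (Real.sqrt_nonneg _))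
    have r3 := mul_le_mul r1 r2 (avg_nonneg ch (fun P => df_delta_nonneg g P) b P)
      (mul_nonneg (Real.sqrt_nonneg _) (Real.sqrt_nonneg _))
    refine r3.trans ?_
    have r4 := mul_le_mul_of_nonneg_right (df_sqrtK h P) (mul_nonneg
      (Real.sqrt_nonneg (2 * avg ch a (EE ch x f) P
        + 2 * avg ch a (fun J => x J * U2 ch x J * (f J / x J) ^ 2) P))
      (Real.sqrt_nonneg (2 * avg ch b (EE ch y g) P
        + 2 * avg ch b (fun J => y J * U2 ch y J * (g J / y J) ^ 2) P)))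
    refine le_trans (le_of_eq ?_) r4
    ring

/-- the four products of the bound (B) -/
theorem df_four (A1 B1 A2 B2 p q : ℝ) (hq : 0 ≤ q) (hA1 : 0 ≤ A1) (hB1 : 0 ≤ B1)
    (hp' : p ≤ A1 + B1) (hq' : q ≤ A2 + B2) :
    p * q ≤ A1 * A2 + (A1 * B2 + (B1 * A2 + B1 * B2)) := by
  have h1 : p * q ≤ (A1 + B1) * q := mul_le_mul_of_nonneg_right hp' hq
  have h2 : (A1 + B1) * q ≤ (A1 + B1) * (A2 + B2) :=
    mul_le_mul_of_nonneg_left hq' (add_nonneg hA1 hB1)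
  linarith [h1.trans h2, add_mul A1 B1 (A2 + B2), mul_add A1 A2 B2, mul_add B1 A2 B2]

/-- `|φ| x √α` as a square root -/
theorem df_abs (X α v : ℝ) (hX : 0 ≤ X) (hα : 0 ≤ α) :
    |v| * (X * √α) = √X * √(X * α * v ^ 2) := by
  rw [Real.sqrt_mul (mul_nonneg hX hα), Real.sqrt_mul hX, Real.sqrt_sq_eq_abs]
  have := Real.mul_self_sqrt hX
  linear_combination (-|v| * √α) * this

/-- bound (B) -/
theorem df_B (h : Wt ch K x y) (a b M : ℕ) (ha : a < M) (hb : b < M) (hMK : (M : ℝ) ≤ K)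
    (f g F G Φ Ψ : T → ℝ) (fm : ∀ P, av ch f P = f P)
    (gm : ∀ P, av ch g P = g P) (Fm : ∀ P, av ch F P = F P) (Gm : ∀ P, av ch G P = G P)
    (Φm : ∀ P, av ch Φ P = Φ P) (Ψm : ∀ P, av ch Ψ P = Ψ P)
    (hfF : ∀ P, |f P| ≤ F P) (hgG : ∀ P, |g P| ≤ G P)
    (hF : ∀ P, F P ^ 2 ≤ x P * Φ P) (hG : ∀ P, G P ^ 2 ≤ y P * Ψ P)
    (hf : ∀ P, f P ^ 2 ≤ x P * Φ P) (hg : ∀ P, g P ^ 2 ≤ y P * Ψ P) (hΦ : ∀ P, 0 ≤ Φ P)
    (hΨ : ∀ P, 0 ≤ Ψ P) (d : ℕ) (R : T) :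
    S ch d (fun P => avg ch a (delta ch f) P * avg ch b (delta ch g) P) R
      ≤ 2000000 * K * √M * √(Φ R * Ψ R) := by
  have hK1 : 1 ≤ K := h.one_le R
  have hK : 0 < K := by linarith
  have hM1 : (1 : ℝ) ≤ M := by
    have : 1 ≤ M := by omega
    exact_mod_cast this
  have hM : (0 : ℝ) < M := by linarith
  -- the sums
  have nE : ∀ P, 0 ≤ EE ch x f P := fun P => EE_nonneg h.xpos f P
  have nE' : ∀ P, 0 ≤ EE ch y g P := fun P => EE_nonneg h.ypos g P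
  have n1 : ∀ P, 0 ≤ avg ch a (EE ch x f) P := avg_nonneg ch nE a
  have n2 : ∀ P, 0 ≤ S ch a (EE ch x f) P := S_nonneg ch nE a
  have n3 : ∀ P, 0 ≤ avg ch b (EE ch y g) P := avg_nonneg ch nE' b
  have n4 : ∀ P, 0 ≤ S ch b (EE ch y g) P := S_nonneg ch nE' b
  have nα : ∀ P, 0 ≤ ub ch a x P := ub_nonneg h.xpos a
  have nβ : ∀ P, 0 ≤ ub ch b y P := ub_nonneg h.ypos b
  let u : T → ℝ := fun P => 2 * avg ch a (EE ch x f) P + 6 * S ch a (EE ch x f) P
  let v : T → ℝ := fun P => 2 * avg ch b (EE ch y g) P + 6 * S ch b (EE ch y g) P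
  let w : T → ℝ := fun P => x P * ub ch a x P * (f P / x P) ^ 2
  let z : T → ℝ := fun P => y P * ub ch b y P * (g P / y P) ^ 2
  have hu : ∀ P, 0 ≤ u P := fun P => by
    have := n1 P; have := n2 P
    show 0 ≤ 2 * avg ch a (EE ch x f) P + 6 * S ch a (EE ch x f) P
    positivity
  have hv : ∀ P, 0 ≤ v P := fun P => by
    have := n3 P; have := n4 P
    show 0 ≤ 2 * avg ch b (EE ch y g) P + 6 * S ch b (EE ch y g) P
    positivity
  have hw : ∀ P, 0 ≤ w P := fun P =>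
    mul_nonneg (mul_nonneg (h.xpos P).le (nα P)) (sq_nonneg _)
  have hz : ∀ P, 0 ≤ z P := fun P =>
    mul_nonneg (mul_nonneg (h.ypos P).le (nβ P)) (sq_nonneg _)
  have su : S ch d u R ≤ 6 * M * Φ R := df_v h f Φ fm Φm hf hΦ a M d ha R
  have sv : S ch d v R ≤ 6 * M * Ψ R := df_v h.symm g Ψ gm Ψm hg hΨ b M d hb R
  have sw : S ch d w R ≤ 128 * K * Φ R := df_w h f Φ fm Φm hf a d R
  have sz : S ch d z R ≤ 128 * K * Ψ R := df_w h.symm g Ψ gm Ψm hg b d R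
  -- pointwise
  let A1 : T → ℝ := fun P => √(x P) * √(u P)
  let A2 : T → ℝ := fun P => √(y P) * √(v P)
  let B1 : T → ℝ := fun P => |f P / x P| * (x P * √(ub ch a x P))
  let B2 : T → ℝ := fun P => |g P / y P| * (y P * √(ub ch b y P))
  have hA1 : ∀ P, 0 ≤ A1 P := fun P => mul_nonneg (Real.sqrt_nonneg _) (Real.sqrt_nonneg _)
  have hB1 : ∀ P, 0 ≤ B1 P := fun P =>
    mul_nonneg (abs_nonneg _) (mul_nonneg (h.xpos P).le (Real.sqrt_nonneg _))
  have hp : ∀ P, avg ch a (delta ch f) P ≤ A1 P + B1 P := fun P =>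
    (avg_delta_le1 h.xpos h.xm f fm a P).trans (add_le_add
      (mul_le_mul_of_nonneg_left (df_sqrt6 _ _ (n1 P) (n2 P)) (Real.sqrt_nonneg _)) le_rfl)
  have hq : ∀ P, avg ch b (delta ch g) P ≤ A2 P + B2 P := fun P =>
    (avg_delta_le1 h.ypos h.ym g gm b P).trans (add_le_add
      (mul_le_mul_of_nonneg_left (df_sqrt6 _ _ (n3 P) (n4 P)) (Real.sqrt_nonneg _)) le_rfl)
  have hpq : ∀ P, avg ch a (delta ch f) P * avg ch b (delta ch g) P ≤
      A1 P * A2 P + (A1 P * B2 P + (B1 P * A2 P + B1 P * B2 P)) := fun P =>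
    df_four _ _ _ _ _ _ (avg_nonneg ch (fun P => df_delta_nonneg g P) b P) (hA1 P) (hB1 P)
      (hp P) (hq P)
  have hB1' : ∀ P, B1 P = √(x P) * √(w P) := fun P => df_abs _ _ _ (h.xpos P).le (nα P)
  have hB2' : ∀ P, B2 P = √(y P) * √(z P) := fun P => df_abs _ _ _ (h.ypos P).le (nβ P)
  have gen : ∀ (P : T) (s t : ℝ), 0 ≤ s → 0 ≤ t →
      √(x P) * s * (√(y P) * t) ≤ √K * (s * t) := fun P s t hs ht => by
    have := mul_le_mul_of_nonneg_right (df_sqrtK h P) (mul_nonneg hs ht)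
    refine le_trans (le_of_eq ?_) this
    ring
  -- the four sums
  have t1 : S ch d (fun P => A1 P * A2 P) R ≤ √K * (√(6 * M * Φ R) * √(6 * M * Ψ R)) :=
    df_prod (ch := ch) (√K) (Real.sqrt_nonneg _) _ u v hu hv
      (fun P => gen P _ _ (Real.sqrt_nonneg _) (Real.sqrt_nonneg _)) d R _ _ su sv
  have t2 : S ch d (fun P => A1 P * B2 P) R ≤ √K * (√(6 * M * Φ R) * √(128 * K * Ψ R)) :=
    df_prod (ch := ch) (√K) (Real.sqrt_nonneg _) _ u z hu hz
      (fun P => by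
        rw [hB2' P]
        exact gen P _ _ (Real.sqrt_nonneg _) (Real.sqrt_nonneg _)) d R _ _ su sz
  have t3 : S ch d (fun P => B1 P * A2 P) R ≤ √K * (√(128 * K * Φ R) * √(6 * M * Ψ R)) :=
    df_prod (ch := ch) (√K) (Real.sqrt_nonneg _) _ w v hw hv
      (fun P => by
        rw [hB1' P]
        exact gen P _ _ (Real.sqrt_nonneg _) (Real.sqrt_nonneg _)) d R _ _ sw sv
  let κ : T → ℝ := fun Q => √(ub ch a x Q) * √(ub ch b y Q)
  have hκ : ∀ P, 0 ≤ κ P := fun P => mul_nonneg (Real.sqrt_nonneg _) (Real.sqrt_nonneg _)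
  have hF0 : ∀ P, 0 ≤ F P := fun P => (abs_nonneg _).trans (hfF P)
  have hG0 : ∀ P, 0 ≤ G P := fun P => (abs_nonneg _).trans (hgG P)
  have t4 : S ch d (fun P => B1 P * B2 P) R ≤ 18 * (√(8 * 10 ^ 9 * M) * K) * √(Φ R * Ψ R) := by
    refine (S_mono ch (F := fun P => B1 P * B2 P) (G := fun P => κ P * F P * G P)
      (fun P => ?_) d R).trans ?_
    · have e1 : B1 P * B2 P = κ P * |f P| * |g P| := by
        show |f P / x P| * (x P * √(ub ch a x P)) * (|g P / y P| * (y P * √(ub ch b y P)))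
          = √(ub ch a x P) * √(ub ch b y P) * |f P| * |g P|
        rw [abs_div, abs_div, abs_of_pos (h.xpos P), abs_of_pos (h.ypos P)]
        have h1 := (h.xpos P).ne'
        have h2 := (h.ypos P).ne'
        field_simp
      show B1 P * B2 P ≤ κ P * F P * G P
      rw [e1]
      exact mul_le_mul (mul_le_mul_of_nonneg_left (hfF P) (hκ P)) (hgG P) (abs_nonneg _)
        (mul_nonneg (hκ P) (hF0 P))
    · have ht2 : (√(8 * 10 ^ 9 * M) * K) ^ 2 = 8 * 10 ^ 9 * M * K ^ 2 := by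
        rw [mul_pow, Real.sq_sqrt (by positivity)]
      refine testing h.xpos h.ypos h.xm h.ym κ hκ F G Φ Ψ hF0 hG0 Fm Gm Φm Ψm hF hG
        (√(8 * 10 ^ 9 * M) * K) (by positivity) ?_ ?_ d R
      · intro d P
        have := TT_le h a b M ha hb d P
        rw [ht2]
        linarith
      · intro d P
        have e := TT_le h.symm b a M hb ha d P
        have e2 : (fun Q => √(ub ch b y Q) * √(ub ch a x Q)) = κ :=
          funext fun Q => mul_comm _ _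
        rw [e2] at e
        rw [ht2]
        linarith
  -- constants
  have hΦR := hΦ R
  have hΨR := hΨ R
  have hsplit : ∀ c e : ℝ, 0 ≤ c → 0 ≤ e → √(c * Φ R) * √(e * Ψ R) = √(c * e) * √(Φ R * Ψ R) := by
    intro c e hc he
    rw [← Real.sqrt_mul (by positivity), ← Real.sqrt_mul (by positivity)]
    congr 1
    ring
  have hN : 0 ≤ √(Φ R * Ψ R) := Real.sqrt_nonneg _
  have sK := Real.mul_self_sqrt hK.le
  have sM := Real.mul_self_sqrt hM.le
  have hsK : 0 ≤ √K := Real.sqrt_nonneg _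
  have hsM : 0 ≤ √(M : ℝ) := Real.sqrt_nonneg _
  have hsMK : √(M : ℝ) ≤ √K := Real.sqrt_le_sqrt hMK
  have c1 : √K * (√(6 * M * Φ R) * √(6 * M * Ψ R)) ≤ 6 * K * √M * √(Φ R * Ψ R) := by
    rw [hsplit _ _ (by positivity) (by positivity), Real.sqrt_mul_self (by positivity)]
    have e1 : √K * (M : ℝ) ≤ K * √M := by
      calc √K * (M : ℝ) = √K * (√M * √M) := by rw [sM]
        _ ≤ √K * (√K * √M) := by
            apply mul_le_mul_of_nonneg_left _ hsK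
            exact mul_le_mul_of_nonneg_right hsMK hsM
        _ = K * √M := by rw [← mul_assoc, sK]
    calc √K * (6 * M * √(Φ R * Ψ R)) = 6 * (√K * M) * √(Φ R * Ψ R) := by ring
      _ ≤ 6 * (K * √M) * √(Φ R * Ψ R) := by gcongr
      _ = _ := by ring
  have c0 : √(768 * (M * K)) ≤ 28 * (√M * √K) := by
    rw [← Real.sqrt_mul hM.le]
    apply Real.sqrt_le_iff.2
    refine ⟨by positivity, ?_⟩
    rw [mul_pow, Real.sq_sqrt (by positivity)]
    have : 0 ≤ (M : ℝ) * K := by positivity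
    linarith
  have c2 : √K * (√(6 * M * Φ R) * √(128 * K * Ψ R)) ≤ 28 * K * √M * √(Φ R * Ψ R) := by
    rw [hsplit _ _ (by positivity) (by positivity)]
    have e1 : 6 * (M : ℝ) * (128 * K) = 768 * (M * K) := by ring
    rw [e1]
    calc √K * (√(768 * (M * K)) * √(Φ R * Ψ R)) ≤ √K * (28 * (√M * √K) * √(Φ R * Ψ R)) := by
          gcongr
      _ = 28 * (√K * √K) * √M * √(Φ R * Ψ R) := by ring
      _ = _ := by rw [sK]
  have c3 : √K * (√(128 * K * Φ R) * √(6 * M * Ψ R)) ≤ 28 * K * √M * √(Φ R * Ψ R) := by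
    rw [hsplit _ _ (by positivity) (by positivity)]
    have e1 : 128 * K * (6 * (M : ℝ)) = 768 * (M * K) := by ring
    rw [e1]
    calc √K * (√(768 * (M * K)) * √(Φ R * Ψ R)) ≤ √K * (28 * (√M * √K) * √(Φ R * Ψ R)) := by
          gcongr
      _ = 28 * (√K * √K) * √M * √(Φ R * Ψ R) := by ring
      _ = _ := by rw [sK]
  have c4 : 18 * (√(8 * 10 ^ 9 * M) * K) * √(Φ R * Ψ R)
      ≤ 1800000 * K * √M * √(Φ R * Ψ R) := by
    have e1 : √(8 * 10 ^ 9 * (M : ℝ)) ≤ 100000 * √M := by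
      rw [Real.sqrt_mul (by norm_num)]
      have e2 : √((8 : ℝ) * 10 ^ 9) ≤ 100000 := by
        rw [Real.sqrt_le_left (by norm_num)]
        norm_num
      exact mul_le_mul_of_nonneg_right e2 hsM
    calc 18 * (√(8 * 10 ^ 9 * M) * K) * √(Φ R * Ψ R)
        ≤ 18 * (100000 * √M * K) * √(Φ R * Ψ R) := by gcongr
      _ = _ := by ring
  have tot := S_mono ch hpq d R
  rw [S_add, S_add, S_add] at tot
  have hfin : 0 ≤ K * √M * √(Φ R * Ψ R) := by positivity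
  calc S ch d (fun P => avg ch a (delta ch f) P * avg ch b (delta ch g) P) R
      ≤ 6 * K * √M * √(Φ R * Ψ R) + (28 * K * √M * √(Φ R * Ψ R)
        + (28 * K * √M * √(Φ R * Ψ R) + 1800000 * K * √M * √(Φ R * Ψ R))) := by
        refine tot.trans ?_
        exact add_le_add (t1.trans c1) (add_le_add (t2.trans c2)
          (add_le_add (t3.trans c3) (t4.trans c4)))
    _ ≤ 2000000 * K * √M * √(Φ R * Ψ R) := by nlinarith [hfin]

end form

/-- The discrete theorem. -/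
theorem discrete : ∃ C : ℝ, 0 < C ∧ ∀ (T : Type) (ch : Fin 4 → T → T) (K : ℝ) (x y : T → ℝ),
    Wt ch K x y → ∀ (a b M : ℕ), a < M → b < M →
    ∀ (f g F G Φ Ψ : T → ℝ), (∀ P, av ch f P = f P) → (∀ P, av ch g P = g P) →
    (∀ P, av ch F P = F P) → (∀ P, av ch G P = G P) → (∀ P, av ch Φ P = Φ P) →
    (∀ P, av ch Ψ P = Ψ P) → (∀ P, |f P| ≤ F P) → (∀ P, |g P| ≤ G P) →
    (∀ P, F P ^ 2 ≤ x P * Φ P) → (∀ P, G P ^ 2 ≤ y P * Ψ P) → ∀ (d : ℕ) (R : T),
    S ch d (fun P => avg ch a (delta ch f) P * avg ch b (delta ch g) P) R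
      ≤ C * K * √(min K M) * √(Φ R * Ψ R) := by
  refine ⟨2000000, by norm_num, ?_⟩
  intro T ch K x y h a b M ha hb f g F G Φ Ψ fm gm Fm Gm Φm Ψm hfF hgG hF hG d R
  have hf : ∀ P, f P ^ 2 ≤ x P * Φ P := fun P => by
    refine le_trans ?_ (hF P)
    rw [← sq_abs (f P)]
    exact pow_le_pow_left₀ (abs_nonneg _) (hfF P) 2
  have hg : ∀ P, g P ^ 2 ≤ y P * Ψ P := fun P => by
    refine le_trans ?_ (hG P)
    rw [← sq_abs (g P)]
    exact pow_le_pow_left₀ (abs_nonneg _) (hgG P) 2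
  have hΦ : ∀ P, 0 ≤ Φ P := fun P =>
    nonneg_of_mul_nonneg_right ((sq_nonneg _).trans (hF P)) (h.xpos P)
  have hΨ : ∀ P, 0 ≤ Ψ P := fun P =>
    nonneg_of_mul_nonneg_right ((sq_nonneg _).trans (hG P)) (h.ypos P)
  have hK1 : 1 ≤ K := h.one_le R
  rcases le_total (M : ℝ) K with hMK | hMK
  · rw [min_eq_right hMK]
    exact df_B h a b M ha hb hMK f g F G Φ Ψ fm gm Fm Gm Φm Ψm hfF hgG hF hG hf hg hΦ hΨ d R
  · rw [min_eq_left hMK]
    refine (df_A h a b f g Φ Ψ fm gm Φm Ψm hf hg hΦ hΨ d R).trans ?_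
    have : 0 ≤ K * √K * √(Φ R * Ψ R) := by positivity
    nlinarith [this]

end Pool.MP_75bf3e_an.BT
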