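import Pool.Agent.Lib_MP_75bf3e.DDefs

/-!
# Piece DINNER: three short inductions

`inner2_le` (John-Nirenberg).  Induction on `d`.  In the window, with `A = AI (d+1) P ≤ B y P` and
`av (AI d) P = A - y X`: `inner2 (d+1) P ≤ y X + (1 + X/(2B)) * 2 (A - y X)
= 2 A - y X + (X/B)(A - y X) ≤ 2A - yX + (X/B) * B y = 2 A`.

`outer1_le`.  Claim by induction on `d`: for all `P` and all `s` with `0 ≤ s ≤ 2 B K`,
`outer1 d P + s * inner1 d P ≤ (3K + 2BK) * S d G P`.
Step: `outer1 (d+1) P + s inner1 (d+1) P = (F P + s) G P + (F P + s)(1 + X P/(2B))⁻¹ av (inner1 d) P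
+ av (outer1 d) P`; `s' = (F P + s)/(1 + X P/(2B)) ≤ (K X P + 2BK)/(1 + X P/(2B)) = 2BK`, so the
induction hypothesis for the children with `s'` applies (average it), and `F P + s ≤ 3K + 2BK`.

`cI_le` (Cauchy-Schwarz).  For all `θ > 0`, by induction on `d` (for all `θ` simultaneously).  In the
window: `x y κ ≤ (θ/2) y0 x α + (1/(2θ)) (K/y0) y β` by AM-GM (`x y ≤ K`, `κ^2 = α β`); for the
children use the hypothesis with `θ' = θ * (1 + β P/(2B))⁻¹`.  Outside the window `cI = 0` and the
right side is `≥ 0` (`inner1 ≥ 0` by induction, `inner2 = 0`).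

`cc_le_add`: `cc = cI + cII` by induction (only `≤` is needed).
-/

set_option autoImplicit false

namespace Pool.MP_75bf3e_an.BT

variable {T : Type} {ch : Fin 4 → T → T} {x y : T → ℝ}

theorem inner2_le (hy : ∀ P, 0 < y P) (B : ℝ) (hB : 0 < B) (X : T → ℝ) (hX : ∀ P, 0 ≤ X P)
    (M : ℕ) (y0 : ℝ) (hA : ∀ d P, AI ch y X M y0 d P ≤ B * y P) (d : ℕ) (P : T) :
    inner2 ch B y X M y0 d P ≤ 2 * AI ch y X M y0 d P := by
  classical
  induction d generalizing P with
  | zero => simp [inner2, AI]
  | succ d ih =>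
    have hA1 := hA (d + 1) P
    simp only [inner2, AI] at hA1 ⊢
    by_cases hw : Win y M y0 P
    · rw [if_pos hw] at hA1
      rw [if_pos hw, if_pos hw]
      have h1 : av ch (inner2 ch B y X M y0 d) P ≤ 2 * av ch (AI ch y X M y0 d) P := by
        rw [← av_mul]
        exact av_mono ch P (fun i => ih _)
      have hXP := hX P
      have hyP := hy P
      have h2 : 0 ≤ X P / (2 * B) := by positivity
      have h3 : (1 + X P / (2 * B)) * av ch (inner2 ch B y X M y0 d) P ≤
          (1 + X P / (2 * B)) * (2 * av ch (AI ch y X M y0 d) P) :=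
        mul_le_mul_of_nonneg_left h1 (by linarith)
      have h4 : av ch (AI ch y X M y0 d) P ≤ B * y P := by
        have := mul_nonneg hyP.le hXP
        linarith
      have h5 : X P / (2 * B) * (2 * av ch (AI ch y X M y0 d) P) ≤ y P * X P := by
        have h6 : X P / (2 * B) * (2 * av ch (AI ch y X M y0 d) P) ≤
            X P / (2 * B) * (2 * (B * y P)) :=
          mul_le_mul_of_nonneg_left (by linarith) h2
        refine h6.trans (le_of_eq ?_)
        field_simp
      linarith
    · rw [if_neg hw, if_neg hw, mul_zero]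

theorem inner1_nonneg (B : ℝ) (hB : 0 < B) (X G : T → ℝ) (hX : ∀ P, 0 ≤ X P) (hG : ∀ P, 0 ≤ G P)
    (d : ℕ) (P : T) : 0 ≤ inner1 ch B X G d P := by
  induction d generalizing P with
  | zero => exact le_refl _
  | succ d ih =>
    simp only [inner1]
    have h1 := hX P
    have h2 : 0 ≤ (1 + X P / (2 * B))⁻¹ := by positivity
    exact add_nonneg (hG P) (mul_nonneg h2 (av_nonneg ch P (fun i => ih _)))

theorem outer1_le (K B : ℝ) (hK : 0 ≤ K) (hB : 0 < B) (X G F : T → ℝ) (hX : ∀ P, 0 ≤ X P)
    (hX3 : ∀ P, X P ≤ 3) (hG : ∀ P, 0 ≤ G P) (hF : ∀ P, 0 ≤ F P) (hFX : ∀ P, F P ≤ K * X P)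
    (d : ℕ) (P : T) :
    outer1 ch B X G F d P ≤ (3 * K + 2 * B * K) * S ch d G P := by
  have key : ∀ (d : ℕ) (P : T) (s : ℝ), 0 ≤ s → s ≤ 2 * B * K →
      outer1 ch B X G F d P + s * inner1 ch B X G d P ≤ (3 * K + 2 * B * K) * S ch d G P := by
    intro d
    induction d with
    | zero =>
      intro P s _ _
      simp [outer1, inner1]
    | succ d ih =>
      intro P s hs hs2
      rw [S_succ]
      simp only [outer1, inner1]
      have hXP := hX P
      have hFP := hF P
      have h0 : (0 : ℝ) < 1 + X P / (2 * B) := by positivity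
      set s' : ℝ := (F P + s) * (1 + X P / (2 * B))⁻¹ with hs'
      have h1 : 0 ≤ s' := mul_nonneg (by linarith) (inv_nonneg.2 h0.le)
      have h2 : s' ≤ 2 * B * K := by
        rw [hs', ← div_eq_mul_inv, div_le_iff₀ h0]
        have h3 : 2 * B * K * (1 + X P / (2 * B)) = 2 * B * K + K * X P := by
          field_simp
        rw [h3]
        linarith [hFX P]
      have h3 : av ch (outer1 ch B X G F d) P + s' * av ch (inner1 ch B X G d) P ≤
          (3 * K + 2 * B * K) * av ch (S ch d G) P := by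
        rw [← av_mul, ← av_mul, ← av_add]
        exact av_mono ch P (fun i => ih _ s' h1 h2)
      have h4 : (F P + s) * G P ≤ (3 * K + 2 * B * K) * G P := by
        refine mul_le_mul_of_nonneg_right ?_ (hG P)
        have h5 := hFX P
        have h6 : K * X P ≤ K * 3 := mul_le_mul_of_nonneg_left (hX3 P) hK
        linarith
      have h5 : F P * (G P + (1 + X P / (2 * B))⁻¹ * av ch (inner1 ch B X G d) P) +
          av ch (outer1 ch B X G F d) P +
          s * (G P + (1 + X P / (2 * B))⁻¹ * av ch (inner1 ch B X G d) P) =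
          (F P + s) * G P + (av ch (outer1 ch B X G F d) P +
            s' * av ch (inner1 ch B X G d) P) := by
        rw [hs']
        ring
      rw [h5]
      linarith
  have h := key d P 0 le_rfl (by positivity)
  rw [zero_mul, add_zero] at h
  exact h

theorem cI_le (K B : ℝ) (hK : 0 ≤ K) (hB : 0 < B) (hx : ∀ P, 0 < x P) (hy : ∀ P, 0 < y P)
    (hxy : ∀ P, x P * y P ≤ K) (α β : T → ℝ) (hα : ∀ P, 0 ≤ α P) (hβ : ∀ P, 0 ≤ β P)
    (M : ℕ) (y0 : ℝ) (hy0 : 0 < y0) (θ : ℝ) (hθ : 0 < θ) (d : ℕ) (P : T) :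
    cI ch x y (fun Q => √(α Q) * √(β Q)) M y0 d P
      ≤ θ / 2 * y0 * inner1 ch B β (fun Q => x Q * α Q) d P
        + 1 / (2 * θ) * (K / y0) * inner2 ch B y β M y0 d P := by
  classical
  induction d generalizing P θ with
  | zero => simp [cI, inner1, inner2]
  | succ d ih =>
    have hβP := hβ P
    have h0 : (0 : ℝ) < 1 + β P / (2 * B) := by positivity
    simp only [cI, inner1, inner2]
    by_cases hw : Win y M y0 P
    · rw [if_pos hw, if_pos hw]
      set q : ℝ := (1 + β P / (2 * B))⁻¹ with hq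
      have hq0 : 0 < q := inv_pos.2 h0
      have hq1 : 1 + β P / (2 * B) = q⁻¹ := by rw [hq, inv_inv]
      rw [hq1]
      have h1 : av ch (cI ch x y (fun Q => √(α Q) * √(β Q)) M y0 d) P ≤
          θ * q / 2 * y0 * av ch (inner1 ch B β (fun Q => x Q * α Q) d) P +
          1 / (2 * (θ * q)) * (K / y0) * av ch (inner2 ch B y β M y0 d) P := by
        rw [← av_mul, ← av_mul, ← av_add]
        exact av_mono ch P (fun i => ih (θ * q) (mul_pos hθ hq0) _)
      have h2 : 1 / (2 * (θ * q)) = 1 / (2 * θ) * q⁻¹ := by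
        field_simp
      rw [h2] at h1
      have h3 : x P * y P * (√(α P) * √(β P)) ≤
          θ / 2 * y0 * (x P * α P) + 1 / (2 * θ) * (K / y0) * (y P * β P) := by
        obtain ⟨p, hp⟩ : ∃ p, p = √(α P) := ⟨_, rfl⟩
        obtain ⟨r, hr⟩ : ∃ r, r = √(β P) := ⟨_, rfl⟩
        have e1 : α P = p ^ 2 := by rw [hp, Real.sq_sqrt (hα P)]
        have e2 : β P = r ^ 2 := by rw [hr, Real.sq_sqrt hβP]
        rw [← hp, ← hr, e1, e2]
        have hx' := hx P
        have hy' := hy P
        have h4 : 1 / (2 * θ) * (x P * y P / y0) * (y P * r ^ 2) ≤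
            1 / (2 * θ) * (K / y0) * (y P * r ^ 2) := by
          refine mul_le_mul_of_nonneg_right ?_ (by positivity)
          refine mul_le_mul_of_nonneg_left ?_ (by positivity)
          exact div_le_div_of_nonneg_right (hxy P) hy0.le
        have h5 : θ / 2 * y0 * (x P * p ^ 2) + 1 / (2 * θ) * (x P * y P / y0) * (y P * r ^ 2) -
            x P * y P * (p * r) = x P / (2 * θ * y0) * (θ * y0 * p - y P * r) ^ 2 := by
          field_simp
          ring
        have h6 : 0 ≤ x P / (2 * θ * y0) * (θ * y0 * p - y P * r) ^ 2 := by positivity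
        linarith
      have h4 : θ / 2 * y0 * (x P * α P + q * av ch (inner1 ch B β (fun Q => x Q * α Q) d) P) +
          1 / (2 * θ) * (K / y0) * (y P * β P + q⁻¹ * av ch (inner2 ch B y β M y0 d) P) =
          (θ / 2 * y0 * (x P * α P) + 1 / (2 * θ) * (K / y0) * (y P * β P)) +
          (θ * q / 2 * y0 * av ch (inner1 ch B β (fun Q => x Q * α Q) d) P +
            1 / (2 * θ) * q⁻¹ * (K / y0) * av ch (inner2 ch B y β M y0 d) P) := by
        ring
      rw [h4]
      linarith
    · rw [if_neg hw, if_neg hw, mul_zero, add_zero]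
      have h1 : 0 ≤ av ch (inner1 ch B β (fun Q => x Q * α Q) d) P :=
        av_nonneg ch P (fun i => inner1_nonneg B hB β (fun Q => x Q * α Q) hβ
          (fun Q => mul_nonneg (hx Q).le (hα Q)) d _)
      have h2 := mul_nonneg (hx P).le (hα P)
      have h3 : 0 ≤ (1 + β P / (2 * B))⁻¹ := inv_nonneg.2 h0.le
      have h4 := mul_nonneg h3 h1
      have h5 : 0 ≤ θ / 2 * y0 := by positivity
      exact mul_nonneg h5 (by linarith)

theorem cc_le_add (κ : T → ℝ) (M : ℕ) (y0 : ℝ) (d : ℕ) (P : T) :
    cc ch x y κ d P ≤ cI ch x y κ M y0 d P + cII ch x y κ M y0 d P := by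
  classical
  induction d generalizing P with
  | zero => simp [cc, cI, cII]
  | succ d ih =>
    simp only [cI, cII]
    by_cases hw : Win y M y0 P
    · rw [if_pos hw, if_pos hw]
      have h1 : av ch (cc ch x y κ d) P ≤ av ch (cI ch x y κ M y0 d) P +
          av ch (cII ch x y κ M y0 d) P := by
        rw [← av_add]
        exact av_mono ch P (fun i => ih _)
      have h2 : cc ch x y κ (d + 1) P = x P * y P * κ P + av ch (cc ch x y κ d) P := rfl
      rw [h2]
      linarith
    · rw [if_neg hw, if_neg hw, zero_add]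

end Pool.MP_75bf3e_an.BT
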