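import Pool.Agent.Lib_MP_75bf3e.Tree

/-!
# Piece DMSTEP: the `M`-step inequality

`Zst a x0 y0 P` is the sum of `U2 x + U2 y` over the descendants of depth `≤ a` which can be reached
from `P` through cubes where `x` stays in `[x0/2, 2 x0]` and `y` in `[y0/2, 2 y0]`.

`ub_le_Zst`.  Let `pen P = (x P - x0)^2/x0 + x0 * (y P - y0)^2/y0^2`.  Claim, by induction on `a`, for
all `x0, y0 > 0` and all `P` with `x P ≤ 8 x0`:
`avg a (x * U2 x) P ≤ 384 * x0 * Zst a x0 y0 P + 96 * pen P`.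
* If `P` is not in the region: the left side is `≤ 3 x P ≤ 24 x0` (`ub_le_three`, `ub_mul`) and
  `pen P ≥ x0/4` (one of the four inequalities fails: `|x - x0| > x0/2` or `|y - y0| > y0/2`).
* If `P` is in the region, `a = 0`: left side `= x P U2 x P ≤ 2 x0 U2 x P ≤ 384 x0 Zst`.
* If `P` is in the region, `a+1`: the children satisfy `x ≤ 4 x P ≤ 8 x0`, so the induction hypothesis
  applies to them; average it.  `av pen P = pen P + (x P)^2 U2 x P/x0 + x0 (y P)^2 U2 y P/y0^2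
  ≤ pen P + 4 x0 (U2 x P + U2 y P)`; and `96 * 4 = 384`.
For `x0 = x P, y0 = y P` we have `pen P = 0`; divide by `x P`.
`ub_le_Zst'` is the same for `y` (swap the roles and use that `Zst` is symmetric under
`(x, x0) ↔ (y, y0)`: prove this by induction).

`rho_Zst_le`.  Show by induction on `a` that for every `P0, P` and for `c0 ≥ 0` such that
`c0 ≤ c * rho P'` for all `P'` in the region of `(x0,y0)`:
`c0 * Zst a x0 y0 P ≤ c * Σ_{i ≤ a} avg i (rho * (U2 x + U2 y)) P`; take `c0 = rho P`.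

`mstep`.  From the two previous items, `rho P * ub a x P ≤ 384 c Σ_{i≤a} avg i (...) P`, sum over `P`
with `S_mono`, `S_mul`, `S_add` (finite sum over `i`), and use `S_avg_le` and `S_mono_depth`:
`S d (avg i F) R ≤ S (d+i) F R ≤ S (d+a) F R` for `F = rho (U2 x + U2 y) ≥ 0`.
-/

set_option autoImplicit false

namespace Pool.MP_75bf3e_an.BT

variable {T : Type} {ch : Fin 4 → T → T} {x y : T → ℝ}

/-- the region where `x` and `y` are comparable to `x0` and `y0` -/
def Reg (x y : T → ℝ) (x0 y0 : ℝ) (P : T) : Prop :=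
  x0 / 2 ≤ x P ∧ x P ≤ 2 * x0 ∧ y0 / 2 ≤ y P ∧ y P ≤ 2 * y0

open Classical in
/-- the stopped sum -/
noncomputable def Zst (ch : Fin 4 → T → T) (x y : T → ℝ) : ℕ → ℝ → ℝ → T → ℝ
  | 0, x0, y0, P => if Reg x y x0 y0 P then U2 ch x P + U2 ch y P else 0
  | a + 1, x0, y0, P =>
      if Reg x y x0 y0 P then U2 ch x P + U2 ch y P + av ch (Zst ch x y a x0 y0) P else 0

/-- the average of a finite sum -/
theorem av_sum_dm (ch : Fin 4 → T → T) {ι : Type} (s : Finset ι) (G : ι → T → ℝ) (P : T) :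
    av ch (fun Q => ∑ i ∈ s, G i Q) P = ∑ i ∈ s, av ch (G i) P := by
  unfold av
  rw [Finset.sum_comm, Finset.sum_div]

theorem S_sum_dm (ch : Fin 4 → T → T) {ι : Type} (s : Finset ι) (G : ι → T → ℝ) (d : ℕ) (P : T) :
    S ch d (fun Q => ∑ i ∈ s, G i Q) P = ∑ i ∈ s, S ch d (G i) P := by
  induction d generalizing P with
  | zero => simp
  | succ d ih =>
    have h1 : av ch (S ch d (fun Q => ∑ i ∈ s, G i Q)) P
        = av ch (fun Q => ∑ i ∈ s, S ch d (G i) Q) P := av_congr ch P (fun i => ih _)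
    rw [S_succ, h1, av_sum_dm, ← Finset.sum_add_distrib]
    exact Finset.sum_congr rfl (fun i _ => (S_succ ch d (G i) P).symm)

/-- the penalty -/
noncomputable def pen (x y : T → ℝ) (x0 y0 : ℝ) (P : T) : ℝ :=
  (x P - x0) ^ 2 / x0 + x0 * (y P - y0) ^ 2 / y0 ^ 2

theorem pen_nonneg (x0 y0 : ℝ) (h0 : 0 < x0) (P : T) : 0 ≤ pen x y x0 y0 P := by
  unfold pen; positivity

theorem sum_sq_dm (x : T → ℝ) (xm : ∀ P, av ch x P = x P) (hx : ∀ P, 0 < x P) (x0 : ℝ) (P : T) :
    (∑ i, (x (ch i P) - x0) ^ 2) / 4 = (x P - x0) ^ 2 + x P ^ 2 * U2 ch x P := by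
  have hxP := (hx P).ne'
  have hs : ∑ i, x (ch i P) = 4 * x P := by
    have := xm P; unfold av at this; linarith
  have h1 : x P ^ 2 * U2 ch x P = (∑ i, (x (ch i P) - x P) ^ 2) / 4 := by
    unfold U2
    field_simp
  rw [h1]
  simp only [Fin.sum_univ_four] at hs ⊢
  linear_combination (1 / 2) * (x P - x0) * hs

theorem av_pen (hx : ∀ P, 0 < x P) (hy : ∀ P, 0 < y P) (xm : ∀ P, av ch x P = x P)
    (ym : ∀ P, av ch y P = y P) (x0 y0 : ℝ) (P : T) :
    av ch (pen x y x0 y0) P = pen x y x0 y0 P + x P ^ 2 * U2 ch x P / x0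
      + x0 * (y P ^ 2 * U2 ch y P) / y0 ^ 2 := by
  have h1 := sum_sq_dm (ch := ch) x xm hx x0 P
  have h2 := sum_sq_dm (ch := ch) y ym hy y0 P
  have h3 : av ch (pen x y x0 y0) P = (∑ i, (x (ch i P) - x0) ^ 2) / 4 / x0
      + x0 * ((∑ i, (y (ch i P) - y0) ^ 2) / 4) / y0 ^ 2 := by
    unfold av pen
    simp only [Fin.sum_univ_four]
    ring
  rw [h3, h1, h2]
  unfold pen
  ring

theorem core_dm (hx : ∀ P, 0 < x P) (hy : ∀ P, 0 < y P) (xm : ∀ P, av ch x P = x P)
    (ym : ∀ P, av ch y P = y P) (x0 y0 : ℝ) (hx0 : 0 < x0) (hy0 : 0 < y0) (a : ℕ) :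
    ∀ P, x P ≤ 8 * x0 → avg ch a (fun J => x J * U2 ch x J) P
      ≤ 384 * x0 * Zst ch x y a x0 y0 P + 96 * pen x y x0 y0 P := by
  have hout : ∀ (a : ℕ) (P : T), x P ≤ 8 * x0 → ¬ Reg x y x0 y0 P →
      avg ch a (fun J => x J * U2 ch x J) P ≤ 96 * pen x y x0 y0 P := by
    intro a P h8 hR
    have h1 : avg ch a (fun J => x J * U2 ch x J) P ≤ 24 * x0 := by
      rw [← ub_mul hx a P]
      have h2 := ub_le_three hx xm a P
      have h3 := ub_nonneg (ch := ch) hx a P
      nlinarith [hx P]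
    have h4 : x0 / 4 ≤ pen x y x0 y0 P := by
      unfold pen
      have e1 : 0 ≤ (x P - x0) ^ 2 / x0 := by positivity
      have e2 : 0 ≤ x0 * (y P - y0) ^ 2 / y0 ^ 2 := by positivity
      by_cases hxr : x0 / 2 ≤ x P ∧ x P ≤ 2 * x0
      · have hyr : (y P - y0) ^ 2 ≥ y0 ^ 2 / 4 := by
          by_cases h5 : y0 / 2 ≤ y P
          · have h6 : ¬ y P ≤ 2 * y0 := fun h6 => hR ⟨hxr.1, hxr.2, h5, h6⟩
            push Not at h6
            nlinarith
          · push Not at h5
            nlinarith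
        have h7 : x0 / 4 ≤ x0 * (y P - y0) ^ 2 / y0 ^ 2 := by
          rw [le_div_iff₀ (by positivity)]
          nlinarith
        linarith
      · have hxr' : (x P - x0) ^ 2 ≥ x0 ^ 2 / 4 := by
          by_cases h5 : x0 / 2 ≤ x P
          · have h6 : ¬ x P ≤ 2 * x0 := fun h6 => hxr ⟨h5, h6⟩
            push Not at h6
            nlinarith
          · push Not at h5
            nlinarith
        have h7 : x0 / 4 ≤ (x P - x0) ^ 2 / x0 := by
          rw [le_div_iff₀ hx0]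
          nlinarith
        linarith
    linarith
  induction a with
  | zero =>
    intro P h8
    by_cases hR : Reg x y x0 y0 P
    · have e : Zst ch x y 0 x0 y0 P = U2 ch x P + U2 ch y P := by
        rw [Zst, if_pos hR]
      rw [e, avg_zero]
      have h1 := U2_nonneg (ch := ch) (x := x) P
      have h2 := U2_nonneg (ch := ch) (x := y) P
      have h3 := pen_nonneg (x := x) (y := y) x0 y0 hx0 P
      have h4 : x P * U2 ch x P ≤ 2 * x0 * U2 ch x P := mul_le_mul_of_nonneg_right hR.2.1 h1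
      have h5 : 0 ≤ x0 * U2 ch x P := by positivity
      have h6 : 0 ≤ x0 * U2 ch y P := by positivity
      change x P * U2 ch x P ≤ _
      nlinarith
    · have e : Zst ch x y 0 x0 y0 P = 0 := by
        rw [Zst, if_neg hR]
      rw [e, mul_zero, zero_add]
      exact hout 0 P h8 hR
  | succ a ih =>
    intro P h8
    by_cases hR : Reg x y x0 y0 P
    · have e : Zst ch x y (a + 1) x0 y0 P
          = U2 ch x P + U2 ch y P + av ch (Zst ch x y a x0 y0) P := by
        rw [Zst, if_pos hR]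
      rw [e, avg_succ]
      have h1 := U2_nonneg (ch := ch) (x := x) P
      have h2 := U2_nonneg (ch := ch) (x := y) P
      have h9 : av ch (avg ch a (fun J => x J * U2 ch x J)) P
          ≤ av ch (fun Q => 384 * x0 * Zst ch x y a x0 y0 Q + 96 * pen x y x0 y0 Q) P := by
        apply av_mono
        intro i
        apply ih
        have := child_le hx xm P i
        have := hR.2.1
        linarith
      rw [av_add, av_mul, av_mul, av_pen hx hy xm ym] at h9
      have hxP := hx P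
      have hyP := hy P
      have h10 : x P ^ 2 * U2 ch x P / x0 ≤ 4 * x0 * U2 ch x P := by
        rw [div_le_iff₀ hx0]
        have : x P ^ 2 ≤ 4 * x0 * x0 := by nlinarith [hR.2.1]
        calc x P ^ 2 * U2 ch x P ≤ (4 * x0 * x0) * U2 ch x P :=
              mul_le_mul_of_nonneg_right this h1
          _ = 4 * x0 * U2 ch x P * x0 := by ring
      have h11 : x0 * (y P ^ 2 * U2 ch y P) / y0 ^ 2 ≤ 4 * x0 * U2 ch y P := by
        rw [div_le_iff₀ (by positivity)]
        have h12 : y P ^ 2 ≤ 4 * y0 ^ 2 := by nlinarith [hR.2.2.2]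
        calc x0 * (y P ^ 2 * U2 ch y P) ≤ x0 * ((4 * y0 ^ 2) * U2 ch y P) :=
              mul_le_mul_of_nonneg_left (mul_le_mul_of_nonneg_right h12 h2) hx0.le
          _ = 4 * x0 * U2 ch y P * y0 ^ 2 := by ring
      linarith
    · have e : Zst ch x y (a + 1) x0 y0 P = 0 := by
        rw [Zst, if_neg hR]
      rw [e, mul_zero, zero_add]
      exact hout (a + 1) P h8 hR

theorem ub_le_Zst (hx : ∀ P, 0 < x P) (hy : ∀ P, 0 < y P) (xm : ∀ P, av ch x P = x P)
    (ym : ∀ P, av ch y P = y P) (a : ℕ) (P : T) :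
    ub ch a x P ≤ 384 * Zst ch x y a (x P) (y P) P := by
  have hxP := hx P
  have h1 := core_dm hx hy xm ym (x P) (y P) (hx P) (hy P) a P (by linarith)
  have h2 : pen x y (x P) (y P) P = 0 := by
    unfold pen; simp
  rw [h2, mul_zero, add_zero] at h1
  unfold ub
  rw [div_le_iff₀ hxP]
  linarith

theorem Zst_symm_dm (a : ℕ) (x0 y0 : ℝ) : ∀ P, Zst ch x y a x0 y0 P = Zst ch y x a y0 x0 P := by
  have hreg : ∀ P, Reg x y x0 y0 P ↔ Reg y x y0 x0 P := by
    intro P
    unfold Reg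
    tauto
  induction a with
  | zero =>
    intro P
    rw [Zst, Zst]
    by_cases hR : Reg x y x0 y0 P
    · rw [if_pos hR, if_pos ((hreg P).1 hR), add_comm]
    · rw [if_neg hR, if_neg (fun h => hR ((hreg P).2 h))]
  | succ a ih =>
    intro P
    rw [Zst, Zst]
    by_cases hR : Reg x y x0 y0 P
    · rw [if_pos hR, if_pos ((hreg P).1 hR), av_congr ch P (fun i => ih _),
        add_comm (U2 ch x P)]
    · rw [if_neg hR, if_neg (fun h => hR ((hreg P).2 h))]

theorem ub_le_Zst' (hx : ∀ P, 0 < x P) (hy : ∀ P, 0 < y P) (xm : ∀ P, av ch x P = x P)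
    (ym : ∀ P, av ch y P = y P) (a : ℕ) (P : T) :
    ub ch a y P ≤ 384 * Zst ch x y a (x P) (y P) P := by
  rw [Zst_symm_dm]
  exact ub_le_Zst hy hx ym xm a P

theorem rho_Zst_core (c : ℝ) (hc : 0 ≤ c) (rho : T → ℝ) (hrho : ∀ P, 0 ≤ rho P)
    (x0 y0 c0 : ℝ) (h0 : ∀ P', Reg x y x0 y0 P' → c0 ≤ c * rho P') (a : ℕ) :
    ∀ P, c0 * Zst ch x y a x0 y0 P
      ≤ c * ∑ i ∈ Finset.range (a + 1), avg ch i (fun Q => rho Q * (U2 ch x Q + U2 ch y Q)) P := by
  have hF : ∀ Q, 0 ≤ rho Q * (U2 ch x Q + U2 ch y Q) := fun Q =>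
    mul_nonneg (hrho Q) (add_nonneg (U2_nonneg Q) (U2_nonneg Q))
  have hnn : ∀ (a : ℕ) (P : T), 0 ≤ c * ∑ i ∈ Finset.range (a + 1),
      avg ch i (fun Q => rho Q * (U2 ch x Q + U2 ch y Q)) P := by
    intro a P
    exact mul_nonneg hc (Finset.sum_nonneg (fun i _ => avg_nonneg ch hF i P))
  have hst : ∀ P, Reg x y x0 y0 P →
      c0 * (U2 ch x P + U2 ch y P) ≤ c * (rho P * (U2 ch x P + U2 ch y P)) := by
    intro P hR
    have h1 : 0 ≤ U2 ch x P + U2 ch y P := add_nonneg (U2_nonneg P) (U2_nonneg P)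
    have h2 := mul_le_mul_of_nonneg_right (h0 P hR) h1
    linarith
  induction a with
  | zero =>
    intro P
    by_cases hR : Reg x y x0 y0 P
    · rw [Zst, if_pos hR]
      simp only [zero_add, Finset.range_one, Finset.sum_singleton, avg_zero]
      exact hst P hR
    · rw [Zst, if_neg hR, mul_zero]
      exact hnn 0 P
  | succ a ih =>
    intro P
    by_cases hR : Reg x y x0 y0 P
    · rw [Zst, if_pos hR, Finset.sum_range_succ']
      have h1 : c0 * av ch (Zst ch x y a x0 y0) P ≤ c * ∑ i ∈ Finset.range (a + 1),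
          avg ch (i + 1) (fun Q => rho Q * (U2 ch x Q + U2 ch y Q)) P := by
        rw [← av_mul]
        have h2 : ∑ i ∈ Finset.range (a + 1),
            avg ch (i + 1) (fun Q => rho Q * (U2 ch x Q + U2 ch y Q)) P
            = av ch (fun Q' => ∑ i ∈ Finset.range (a + 1),
              avg ch i (fun Q => rho Q * (U2 ch x Q + U2 ch y Q)) Q') P := by
          rw [av_sum_dm]
          exact Finset.sum_congr rfl (fun i _ => avg_succ ch i _ P)
        rw [h2, ← av_mul]
        exact av_mono ch P (fun i => ih _)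
      have h3 := hst P hR
      rw [avg_zero]
      linarith
    · rw [Zst, if_neg hR, mul_zero]
      exact hnn (a + 1) P

theorem rho_Zst_le (c : ℝ) (hc : 0 ≤ c) (rho : T → ℝ) (hrho : ∀ P, 0 ≤ rho P)
    (hr : ∀ P P', Reg x y (x P) (y P) P' → rho P ≤ c * rho P') (a : ℕ) (P : T) :
    rho P * Zst ch x y a (x P) (y P) P
      ≤ c * ∑ i ∈ Finset.range (a + 1), avg ch i (fun Q => rho Q * (U2 ch x Q + U2 ch y Q)) P :=
  rho_Zst_core c hc rho hrho (x P) (y P) (rho P) (hr P) a P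

theorem mstep_core (c : ℝ) (hc : 0 ≤ c) (rho : T → ℝ) (hrho : ∀ P, 0 ≤ rho P)
    (hr : ∀ P P', Reg x y (x P) (y P) P' → rho P ≤ c * rho P')
    (A : T → ℝ) (hA : ∀ d R, S ch d (fun Q => rho Q * (U2 ch x Q + U2 ch y Q)) R ≤ A R)
    (a d : ℕ) (R : T) (W : T → ℝ) (hW : ∀ P, W P ≤ 384 * Zst ch x y a (x P) (y P) P) :
    S ch d (fun P => rho P * W P) R ≤ 384 * c * (a + 1) * A R := by
  have hF : ∀ Q, 0 ≤ rho Q * (U2 ch x Q + U2 ch y Q) := fun Q =>
    mul_nonneg (hrho Q) (add_nonneg (U2_nonneg Q) (U2_nonneg Q))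
  have h1 : S ch d (fun P => rho P * W P) R
      ≤ S ch d (fun P => (384 * c) * ∑ i ∈ Finset.range (a + 1),
        avg ch i (fun Q => rho Q * (U2 ch x Q + U2 ch y Q)) P) R := by
    apply S_mono
    intro P
    have h2 := mul_le_mul_of_nonneg_left (hW P) (hrho P)
    have h3 := rho_Zst_le (ch := ch) c hc rho hrho hr a P
    linarith
  rw [S_mul, S_sum_dm] at h1
  have h4 : ∑ i ∈ Finset.range (a + 1),
      S ch d (avg ch i (fun Q => rho Q * (U2 ch x Q + U2 ch y Q))) R
      ≤ ∑ _i ∈ Finset.range (a + 1), A R := by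
    apply Finset.sum_le_sum
    intro i _
    exact (S_avg_le ch hF i d R).trans (hA (d + i) R)
  rw [Finset.sum_const, Finset.card_range, nsmul_eq_mul] at h4
  have h5 : 0 ≤ 384 * c := by positivity
  have h6 := mul_le_mul_of_nonneg_left h4 h5
  push_cast at h6
  calc S ch d (fun P => rho P * W P) R ≤ _ := h1
    _ ≤ 384 * c * ((a + 1) * A R) := h6
    _ = 384 * c * (a + 1) * A R := by ring

/-- the `M`-step inequality with a weight `rho` which is almost constant where `x, y` are -/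
theorem mstep (hx : ∀ P, 0 < x P) (hy : ∀ P, 0 < y P) (xm : ∀ P, av ch x P = x P)
    (ym : ∀ P, av ch y P = y P) (c : ℝ) (hc : 0 ≤ c) (rho : T → ℝ) (hrho : ∀ P, 0 ≤ rho P)
    (hr : ∀ P P', Reg x y (x P) (y P) P' → rho P ≤ c * rho P')
    (A : T → ℝ) (hA : ∀ d R, S ch d (fun Q => rho Q * (U2 ch x Q + U2 ch y Q)) R ≤ A R)
    (a d : ℕ) (R : T) :
    S ch d (fun P => rho P * ub ch a x P) R ≤ 384 * c * (a + 1) * A R ∧
    S ch d (fun P => rho P * ub ch a y P) R ≤ 384 * c * (a + 1) * A R :=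
  ⟨mstep_core c hc rho hrho hr A hA a d R _ (fun P => ub_le_Zst hx hy xm ym a P),
    mstep_core c hc rho hrho hr A hA a d R _ (fun P => ub_le_Zst' hx hy xm ym a P)⟩

end Pool.MP_75bf3e_an.BT
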