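import Pool.Agent.Lib_MP_75bf3e.DDefs

/-!
# Piece DTIME: the look-ahead sum inside the window is at most `20 M y`

Scalar fact (children `y_i ≤ 4 y`, mean `y`): `av (y log y) ≥ y log y + (1/4) y U2 y`.
(`t log t ≥ (t-1) + (t-1)^2/4` for `0 < t ≤ 4`, `t = y_i/y`: put `g t = t log t - (t-1) - (t-1)^2/4`;
`g' t = log t - (t-1)/2` is `≤ 0` on `(0,1]`, `≥ 0` on `[1,2]`, and `g` is concave on `[2,4]` with
`g 2 > 0`, `g 4 > 0`.)

Let `e i P = avg i (y * U2 y) P`, so `y P * ub b y P = e b P` (`ub_mul`), `av (e i) = e (i+1)`,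
`e i P ≤ 3 y P` (`avg_mono`, `U2_le_three`, `avg_mart`).
Let `H d P = AI d P + Σ_{i < b} e i P`.
If `P` is in the window: `H (d+1) P = e b P + av (AI d) P + Σ_{i<b} e i P
   = e 0 P + av (AI d + Σ_{i<b} e i) P = e 0 P + av (H d) P`
(because `Σ_{i<b} av (e i) = Σ_{1≤i≤b} e i`).  If not: `H (d+1) P = Σ_{i<b} e i P ≤ 3 b y P`.

Claim by induction on `d`: for all `P` with `y P ≤ 4 * 2^M * y0`,
`H d P ≤ 3 b y P + 4 (y P * log (4 * 2^M * y0) - y P * log (y P))`.
In the window step use that the children satisfy `y_i ≤ 4 y P ≤ 4 * 2^M * y0` and the scalar fact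
(`e 0 P = y P * U2 y P`).
In the window we have `y P ≥ 2^(-M) y0`, so `log (4*2^M*y0) - log (y P) ≤ (2M+2) log 2 ≤ 4 M * 0.7`;
hence `AI d P ≤ H d P ≤ (3 b + 11.2 M) y P ≤ 20 M y P`.  Outside the window `AI = 0`.
-/

set_option autoImplicit false

namespace Pool.MP_75bf3e_an.BT

variable {T : Type} {ch : Fin 4 → T → T} {y : T → ℝ}

/-- `t log t ≥ (t-1) + (t-1)^2/4` for `t = s^2`, `0 < s ≤ 2` -/
private theorem scal_sq (s : ℝ) (hs : 0 < s) (hs2 : s ≤ 2) :
    (s ^ 2 - 1) + (s ^ 2 - 1) ^ 2 / 4 ≤ 2 * s ^ 2 * Real.log s := by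
  rcases le_total s 1 with h1 | h1
  · have hl : 1 - s⁻¹ ≤ Real.log s := Real.one_sub_inv_le_log_of_pos hs
    have h2 : 2 * s ^ 2 * (1 - s⁻¹) ≤ 2 * s ^ 2 * Real.log s :=
      mul_le_mul_of_nonneg_left hl (by positivity)
    have h3 : 2 * s ^ 2 * (1 - s⁻¹) = 2 * s ^ 2 - 2 * s := by
      field_simp
    have h4 : 0 ≤ (s - 1) ^ 2 * (1 - (s + 1) ^ 2 / 4) := by
      apply mul_nonneg (sq_nonneg _)
      nlinarith
    nlinarith [h2, h3, h4]
  · have hl : 2 * (s - 1) / ((s - 1) + 2) ≤ Real.log (1 + (s - 1)) :=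
      Real.le_log_one_add_of_nonneg (by linarith)
    have e1 : 1 + (s - 1) = s := by ring
    have e2 : (s - 1) + 2 = s + 1 := by ring
    rw [e1, e2] at hl
    have h2 : 2 * s ^ 2 * (2 * (s - 1) / (s + 1)) ≤ 2 * s ^ 2 * Real.log s :=
      mul_le_mul_of_nonneg_left hl (by positivity)
    refine le_trans ?_ h2
    have h3 : 2 * s ^ 2 * (2 * (s - 1) / (s + 1)) = (4 * s ^ 2 * (s - 1)) / (s + 1) := by
      ring
    rw [h3, le_div_iff₀ (by linarith)]
    have h5 : s ^ 3 + 3 * s ^ 2 - 9 * s - 3 ≤ 0 := by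
      nlinarith [mul_nonneg (sub_nonneg.2 h1) (sub_nonneg.2 hs2), mul_nonneg (mul_nonneg
        (sub_nonneg.2 h1) (sub_nonneg.2 hs2)) (by linarith : (0 : ℝ) ≤ s)]
    have h6 : 0 ≤ (s - 1) ^ 2 * (-(s ^ 3 + 3 * s ^ 2 - 9 * s - 3)) :=
      mul_nonneg (sq_nonneg _) (by linarith)
    nlinarith [h6]

private theorem scal (a b : ℝ) (ha : 0 < a) (hb : 0 < b) (h : a ≤ 4 * b) :
    a * Real.log b + (a - b) + (a - b) ^ 2 / (4 * b) ≤ a * Real.log a := by
  have ht : 0 < a / b := div_pos ha hb
  have hs : 0 < √(a / b) := Real.sqrt_pos.2 ht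
  have hs2 : √(a / b) ≤ 2 := by
    rw [Real.sqrt_le_left (by norm_num)]
    rw [div_le_iff₀ hb]; linarith
  have hsq : √(a / b) ^ 2 = a / b := Real.sq_sqrt ht.le
  have key := scal_sq _ hs hs2
  have hlog : 2 * Real.log √(a / b) = Real.log a - Real.log b := by
    rw [Real.log_sqrt ht.le, Real.log_div ha.ne' hb.ne']; ring
  rw [hsq] at key
  have key2 : b * ((a / b - 1) + (a / b - 1) ^ 2 / 4) ≤ b * (2 * (a / b) * Real.log √(a / b)) :=
    mul_le_mul_of_nonneg_left key hb.le
  have e1 : b * ((a / b - 1) + (a / b - 1) ^ 2 / 4) = (a - b) + (a - b) ^ 2 / (4 * b) := by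
    field_simp
  have e2 : b * (2 * (a / b) * Real.log √(a / b)) = a * (Real.log a - Real.log b) := by
    rw [← hlog]; field_simp
  rw [e1, e2] at key2
  linarith

/-- the entropy inequality for one step -/
private theorem entropy (hy : ∀ P, 0 < y P) (ym : ∀ P, av ch y P = y P) (P : T) :
    y P * Real.log (y P) + y P * U2 ch y P / 4 ≤ av ch (fun Q => y Q * Real.log (y Q)) P := by
  have h4 : ∑ i, y (ch i P) = 4 * y P := by
    have := ym P; unfold av at this; linarith
  have h1 : ∀ i, y (ch i P) * Real.log (y P) + (y (ch i P) - y P) +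
      (y (ch i P) - y P) ^ 2 / (4 * y P) ≤ y (ch i P) * Real.log (y (ch i P)) := fun i =>
    scal _ _ (hy _) (hy _) (child_le hy ym P i)
  have h2 := Finset.sum_le_sum (fun i (_ : i ∈ (Finset.univ : Finset (Fin 4))) => h1 i)
  rw [Finset.sum_add_distrib, Finset.sum_add_distrib, ← Finset.sum_mul, Finset.sum_sub_distrib,
    ← Finset.sum_div, h4] at h2
  have h3 : y P * U2 ch y P = (∑ i, (y (ch i P) - y P) ^ 2) / 4 / y P := by
    unfold U2
    have := (hy P).ne'
    field_simp
  unfold av
  rw [h3]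
  have h5 : ∑ _i : Fin 4, y P = 4 * y P := by simp
  rw [h5] at h2
  have h6 : (∑ i, (y (ch i P) - y P) ^ 2) / (4 * y P) =
      (∑ i, (y (ch i P) - y P) ^ 2) / 4 / y P := by
    rw [div_div]
  rw [h6] at h2
  linarith

theorem AI_le (hy : ∀ P, 0 < y P) (ym : ∀ P, av ch y P = y P) (b M : ℕ) (hb : b < M)
    (y0 : ℝ) (hy0 : 0 < y0) (d : ℕ) (P : T) :
    AI ch y (ub ch b y) M y0 d P ≤ 20 * M * y P := by
  classical
  set e : ℕ → T → ℝ := fun i Q => avg ch i (fun J => y J * U2 ch y J) Q with he
  have e_nonneg : ∀ i Q, 0 ≤ e i Q := fun i Q =>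
    avg_nonneg ch (fun J => mul_nonneg (hy J).le (U2_nonneg J)) i Q
  have e_le : ∀ i Q, e i Q ≤ 3 * y Q := by
    intro i Q
    calc e i Q ≤ avg ch i (fun J => 3 * y J) Q := by
          apply avg_mono
          intro J
          have := U2_le_three hy ym J
          nlinarith [hy J]
      _ = 3 * y Q := by rw [avg_mul, avg_mart ch ym]
  have e_succ : ∀ i Q, av ch (e i) Q = e (i + 1) Q := fun i Q => rfl
  have e_ub : ∀ Q, y Q * ub ch b y Q = e b Q := fun Q => ub_mul hy b Q
  set L : ℝ := 4 * 2 ^ M * y0 with hL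
  have hLpos : 0 < L := by positivity
  have sum_le : ∀ Q, ∑ i ∈ Finset.range b, e i Q ≤ 3 * b * y Q := by
    intro Q
    calc ∑ i ∈ Finset.range b, e i Q ≤ ∑ _i ∈ Finset.range b, 3 * y Q :=
          Finset.sum_le_sum (fun i _ => e_le i Q)
      _ = 3 * b * y Q := by rw [Finset.sum_const, Finset.card_range, nsmul_eq_mul]; ring
  have claim : ∀ (d : ℕ) (Q : T), y Q ≤ L →
      AI ch y (ub ch b y) M y0 d Q + ∑ i ∈ Finset.range b, e i Q ≤
        3 * b * y Q + 4 * (y Q * Real.log L - y Q * Real.log (y Q)) := by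
    intro d
    induction d with
    | zero =>
      intro Q hQ
      have h1 := sum_le Q
      have h2 : Real.log (y Q) ≤ Real.log L := Real.log_le_log (hy Q) hQ
      have h3 : 0 ≤ y Q * (Real.log L - Real.log (y Q)) :=
        mul_nonneg (hy Q).le (by linarith)
      have h4 : AI ch y (ub ch b y) M y0 0 Q = 0 := rfl
      rw [h4]
      linarith
    | succ d ih =>
      intro Q hQ
      by_cases hw : Win y M y0 Q
      · have h4 : AI ch y (ub ch b y) M y0 (d + 1) Q =
            y Q * ub ch b y Q + av ch (AI ch y (ub ch b y) M y0 d) Q := by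
          simp only [AI, if_pos hw]
        have hch : ∀ i, y (ch i Q) ≤ L := by
          intro i
          have h5 := child_le hy ym Q i
          have h6 := hw.2
          rw [hL]; linarith
        have h7 : av ch (fun R => AI ch y (ub ch b y) M y0 d R + ∑ i ∈ Finset.range b, e i R) Q ≤
            av ch (fun R => 3 * b * y R + 4 * (y R * Real.log L - y R * Real.log (y R))) Q :=
          av_mono ch Q (fun i => ih _ (hch i))
        have h8 : av ch (fun R => AI ch y (ub ch b y) M y0 d R + ∑ i ∈ Finset.range b, e i R) Q =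
            av ch (AI ch y (ub ch b y) M y0 d) Q + ∑ i ∈ Finset.range b, e (i + 1) Q := by
          rw [av_add]
          congr 1
          simp only [av]
          rw [Finset.sum_comm, Finset.sum_div]
          rfl
        have h9 : av ch (fun R => 3 * b * y R + 4 * (y R * Real.log L - y R * Real.log (y R))) Q =
            3 * b * y Q + 4 * (y Q * Real.log L - av ch (fun R => y R * Real.log (y R)) Q) := by
          rw [av_add, av_mul, av_mul, av_sub, ym]
          have : av ch (fun R => y R * Real.log L) Q = y Q * Real.log L := by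
            have h10 : (fun R => y R * Real.log L) = (fun R => Real.log L * y R) := by
              funext R; ring
            rw [h10, av_mul, ym]; ring
          rw [this]
        rw [h8, h9] at h7
        have h11 := entropy hy ym Q
        have h12 : e 0 Q = y Q * U2 ch y Q := rfl
        have h13 : ∑ i ∈ Finset.range b, e i Q + e b Q =
            ∑ i ∈ Finset.range b, e (i + 1) Q + e 0 Q := by
          rw [← Finset.sum_range_succ, Finset.sum_range_succ']
        rw [h4, e_ub]
        linarith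
      · have h4 : AI ch y (ub ch b y) M y0 (d + 1) Q = 0 := by
          simp only [AI, if_neg hw]
        have h1 := sum_le Q
        have h2 : Real.log (y Q) ≤ Real.log L := Real.log_le_log (hy Q) hQ
        have h3 : 0 ≤ y Q * (Real.log L - Real.log (y Q)) :=
          mul_nonneg (hy Q).le (by linarith)
        rw [h4]
        linarith
  have hM : (1 : ℝ) ≤ M := by
    have : 1 ≤ M := by omega
    exact_mod_cast this
  have hbM : (b : ℝ) ≤ M := by exact_mod_cast hb.le
  have hyP := hy P
  have hpos20 : 0 ≤ 20 * M * y P := by positivity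
  cases d with
  | zero => exact hpos20
  | succ d =>
    by_cases hw : Win y M y0 P
    · have hPL : y P ≤ L := by
        have := hw.2
        have h0 : 0 < (2 : ℝ) ^ M * y0 := by positivity
        rw [hL]; linarith
      have h1 := claim (d + 1) P hPL
      have h2 : 0 ≤ ∑ i ∈ Finset.range b, e i P := Finset.sum_nonneg (fun i _ => e_nonneg i P)
      have h3 : Real.log L ≤ Real.log (y P) + (2 * M + 2) * Real.log 2 := by
        have h4 : L ≤ y P * (2 : ℝ) ^ (2 * M + 2) := by
          have h5 := hw.1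
          calc L = 4 * 2 ^ M * y0 := rfl
            _ ≤ 4 * 2 ^ M * (2 ^ M * y P) := by gcongr
            _ = y P * (2 : ℝ) ^ (2 * M + 2) := by ring
        calc Real.log L ≤ Real.log (y P * (2 : ℝ) ^ (2 * M + 2)) := Real.log_le_log hLpos h4
          _ = Real.log (y P) + (2 * M + 2) * Real.log 2 := by
            rw [Real.log_mul hyP.ne' (by positivity), Real.log_pow]
            push_cast; ring
      have h6 : Real.log 2 < 0.7 := by
        have := Real.log_two_lt_d9
        linarith
      have h7 : (2 * (M : ℝ) + 2) * Real.log 2 ≤ 4 * M * 0.7 := by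
        have : (2 * (M : ℝ) + 2) ≤ 4 * M := by linarith
        have h8 : 0 ≤ Real.log 2 := Real.log_nonneg (by norm_num)
        nlinarith
      have h9 : y P * Real.log L - y P * Real.log (y P) ≤ y P * (4 * M * 0.7) := by
        have : Real.log L - Real.log (y P) ≤ 4 * M * 0.7 := by linarith
        have := mul_le_mul_of_nonneg_left this hyP.le
        linarith
      have h10 : 3 * b * y P ≤ 3 * M * y P := by gcongr
      have h11 : 0 ≤ M * y P := by positivity
      nlinarith
    · have h4 : AI ch y (ub ch b y) M y0 (d + 1) P = 0 := by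
        simp only [AI, if_neg hw]
      rw [h4]
      exact hpos20

end Pool.MP_75bf3e_an.BT
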