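import Pool.Agent.Lib_MP_75bf3e.DBuckley
import Pool.Agent.Lib_MP_75bf3e.DQuarter
import Pool.Agent.Lib_MP_75bf3e.DMStep
import Pool.Agent.Lib_MP_75bf3e.DTime
import Pool.Agent.Lib_MP_75bf3e.DInner
import Pool.Agent.Lib_MP_75bf3e.DExit

/-!
# Piece DTT: the testing sum is at most `C M K^2 x`

Put `α = ub ch a x`, `β = ub ch b y`, `κ = √α √β`, `a, b < M`, `B = 20 M`.

(i) `cc_bound`.  `mstep` with `rho = q x y`, `c = 2` (if `x P' ≥ x P/2`, `y P' ≥ y P/2` then
`q P ≤ 2 q P'`), `A R = 36 q R` (`quarter`): `S d (q α) R, S d (q β) R ≤ 27648 M q R`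
(`a + 1 ≤ M`).  And `x y κ = q^4 κ ≤ √K * √√K * q * (α + β)/2` (`q^4 = x y`, `q^3 ≤ √K √√K`).
So `cc d P ≤ 27648 M √K √√K q P`, and `q ≤ √√K` gives `cc d P ≤ 27648 M K`.

(ii) `S d (x α) R ≤ 32 K x R`: `x α = avg a (x U2 x)` (`ub_mul`), `S_avg_le`, `buckleyU`.
     `S d (x β) R ≤ 27648 M K x R`: `mstep` with `rho = x`, `c = 2`, `A R = 36 K x R`
     (`buckleyU + buckleyV`).

(iii) For every node `Q` and remaining depth `e`, by `cc_le_add` with `y0 = y Q`, `cI_le`, `inner2_le`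
and `AI_le` (so `inner2 e (y Q) Q ≤ 2 B y Q`), with `θ = √(β Q)/√(α Q)`:
`x Q κ Q * cI e (y Q) Q ≤ (1/2) (x Q y Q β Q) inner1 e Q + B K x Q α Q`
(if `α Q = 0` or `β Q = 0` the left side is `0`), and by `cII_le` (`A1 = 27648 M √K √√K`, `A2 = 27648 M K`)
`cII e (y Q) Q ≤ A2/2^M + A1 √√(x Q y Q/2^M) ≤ 2 * 27648 M K/√√(2^M)`.
Hence by induction on `d`:
`TT d P ≤ (1/2) outer1 d P + B K S d (x α) P + (2 * 27648 M K/√√(2^M)) * S d (x κ) P`,
where `outer1` has `X = β`, `G = x α`, `F = x y β ≤ K β`, so `outer1 ≤ (3K + 2BK) * 32 K x`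
(`β ≤ 3` by `ub_le_three`), and `S d (x κ) ≤ (S d (x α) + S d (x β))/2 ≤ 13840 M K x`.
Finally `M ≤ 3 √√(2^M)` (i.e. `M^4 ≤ 81 * 2^M`), total
`≤ (48 + 32 * 20 M + 32 * 20 M) K^2 x + 2 * 27648 * 13840 * 3 * M K^2 x ≤ 4 * 10^9 * M K^2 x P`.
-/

set_option autoImplicit false

namespace Pool.MP_75bf3e_an.BT

variable {T : Type} {ch : Fin 4 → T → T} {K : ℝ} {x y : T → ℝ}

private theorem dtt_fourth (r : ℝ) (hr : 0 ≤ r) : √(√r) ^ 4 = r := by
  have h1 : √(√r) ^ 2 = √r := Real.sq_sqrt (Real.sqrt_nonneg r)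
  have h2 : √r ^ 2 = r := Real.sq_sqrt hr
  calc √(√r) ^ 4 = (√(√r) ^ 2) ^ 2 := by ring
    _ = r := by rw [h1, h2]

private theorem dtt_pow (M : ℕ) : (M : ℝ) ^ 4 ≤ 81 * 2 ^ M := by
  have key : ∀ n : ℕ, n ^ 4 ≤ 81 * 2 ^ n := by
    intro n
    rcases lt_or_ge n 6 with h | h
    · interval_cases n <;> norm_num
    · induction n, h using Nat.le_induction with
      | base => norm_num
      | succ n hn ih =>
        have h1 : (n + 1) ^ 4 ≤ 2 * n ^ 4 := by
          obtain ⟨m, rfl⟩ : ∃ m, n = m + 6 := ⟨n - 6, by omega⟩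
          have : 2 * (m + 6) ^ 4 = (m + 6 + 1) ^ 4 + (m ^ 4 + 20 * m ^ 3 + 138 * m ^ 2 + 356 * m + 191) := by
            ring
          omega
        calc (n + 1) ^ 4 ≤ 2 * n ^ 4 := h1
          _ ≤ 2 * (81 * 2 ^ n) := by omega
          _ = 81 * 2 ^ (n + 1) := by ring
  exact_mod_cast key M

private theorem dtt_reg_q (hx : ∀ P, 0 < x P) (hy : ∀ P, 0 < y P) (P P' : T)
    (h : Reg x y (x P) (y P) P') : q x y P ≤ 2 * q x y P' := by
  obtain ⟨h1, _, h3, _⟩ := h
  have hxy : x P * y P ≤ 16 * (x P' * y P') := by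
    have a1 : x P ≤ 2 * x P' := by linarith
    have a2 : y P ≤ 2 * y P' := by linarith
    have a3 : x P * y P ≤ (2 * x P') * (2 * y P') :=
      mul_le_mul a1 a2 (hy P).le (by linarith [hx P'])
    nlinarith [mul_pos (hx P') (hy P')]
  have e : √(√(16 * (x P' * y P'))) = 2 * √(√(x P' * y P')) := by
    rw [show (16 : ℝ) * (x P' * y P') = 4 ^ 2 * (x P' * y P') by ring,
      Real.sqrt_mul (by norm_num), Real.sqrt_sq (by norm_num),
      show (4 : ℝ) * √(x P' * y P') = 2 ^ 2 * √(x P' * y P') by ring,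
      Real.sqrt_mul (by norm_num), Real.sqrt_sq (by norm_num)]
  unfold q
  rw [← e]
  exact Real.sqrt_le_sqrt (Real.sqrt_le_sqrt hxy)

/-- `S d (q α)` and `S d (q β)` -/
private theorem dtt_Sq (h : Wt ch K x y) (a M : ℕ) (ha : a < M) (d : ℕ) (R : T) :
    S ch d (fun Q => q x y Q * ub ch a x Q) R ≤ 27648 * M * q x y R ∧
    S ch d (fun Q => q x y Q * ub ch a y Q) R ≤ 27648 * M * q x y R := by
  have h1 := mstep h.xpos h.ypos h.xm h.ym 2 (by norm_num) (q x y)
    (fun P => Real.sqrt_nonneg _) (dtt_reg_q h.xpos h.ypos) (fun R => 36 * q x y R)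
    (fun d R => quarter h.xpos h.ypos h.xm h.ym d R) a d R
  have hq : 0 ≤ q x y R := Real.sqrt_nonneg _
  have haM : (a : ℝ) + 1 ≤ M := by exact_mod_cast ha
  have h2 : 384 * 2 * ((a : ℝ) + 1) * (36 * q x y R) ≤ 27648 * M * q x y R := by
    have := mul_le_mul_of_nonneg_right haM hq
    nlinarith
  exact ⟨h1.1.trans h2, h1.2.trans h2⟩

/-- `S d (x α)` -/
private theorem dtt_Sxa (h : Wt ch K x y) (a : ℕ) (d : ℕ) (R : T) :
    S ch d (fun Q => x Q * ub ch a x Q) R ≤ 32 * K * x R := by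
  have e : (fun Q => x Q * ub ch a x Q) = avg ch a (fun J => x J * U2 ch x J) := by
    funext Q
    exact ub_mul h.xpos a Q
  rw [e]
  exact (S_avg_le ch (fun Q => mul_nonneg (h.xpos Q).le (U2_nonneg Q)) a d R).trans
    (buckleyU h (d + a) R)

/-- `S d (x β)` -/
private theorem dtt_Sxb (h : Wt ch K x y) (b M : ℕ) (hb : b < M) (d : ℕ) (R : T) :
    S ch d (fun Q => x Q * ub ch b y Q) R ≤ 27648 * M * K * x R := by
  have hA : ∀ d R, S ch d (fun Q => x Q * (U2 ch x Q + U2 ch y Q)) R ≤ 36 * K * x R := by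
    intro d R
    have e : (fun Q => x Q * (U2 ch x Q + U2 ch y Q)) =
        fun Q => x Q * U2 ch x Q + x Q * U2 ch y Q := by
      funext Q
      ring
    rw [e, S_add]
    have h1 := buckleyU h d R
    have h2 := buckleyV h d R
    linarith
  have h1 := (mstep h.xpos h.ypos h.xm h.ym 2 (by norm_num) x (fun P => (h.xpos P).le)
    (fun P P' hr => by linarith [hr.1]) (fun R => 36 * K * x R) hA b d R).2
  have hK := h.one_le R
  have hx := h.xpos R
  have hbM : (b : ℝ) + 1 ≤ M := by exact_mod_cast hb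
  have h2 : 384 * 2 * ((b : ℝ) + 1) * (36 * K * x R) ≤ 27648 * M * K * x R := by
    have h3 : 0 ≤ K * x R := by positivity
    have := mul_le_mul_of_nonneg_right hbM h3
    nlinarith
  exact h1.trans h2

private theorem dtt_amgm (s t : ℝ) (hs : 0 ≤ s) (ht : 0 ≤ t) : √s * √t ≤ (s + t) / 2 := by
  have h1 := Real.sq_sqrt hs
  have h2 := Real.sq_sqrt ht
  nlinarith [sq_nonneg (√s - √t)]

/-- the crude bound for `cc` -/
private theorem dtt_cc (h : Wt ch K x y) (a b M : ℕ) (ha : a < M) (hb : b < M) (d : ℕ) (P : T) :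
    cc ch x y (fun Q => √(ub ch a x Q) * √(ub ch b y Q)) d P ≤
      27648 * M * √(√K) ^ 3 * q x y P := by
  have hk : 0 ≤ √(√K) := Real.sqrt_nonneg _
  have hpt : ∀ Q, x Q * y Q * (√(ub ch a x Q) * √(ub ch b y Q)) ≤
      (√(√K) ^ 3 / 2) * (q x y Q * ub ch a x Q + q x y Q * ub ch b y Q) := by
    intro Q
    have hq0 : 0 ≤ q x y Q := Real.sqrt_nonneg _
    have hqk : q x y Q ≤ √(√K) := Real.sqrt_le_sqrt (Real.sqrt_le_sqrt (h.hi Q))
    have hq4 : q x y Q ^ 4 = x Q * y Q := dtt_fourth _ (mul_pos (h.xpos Q) (h.ypos Q)).le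
    have hα := ub_nonneg (ch := ch) h.xpos a Q
    have hβ := ub_nonneg (ch := ch) h.ypos b Q
    have h1 := dtt_amgm _ _ hα hβ
    have h3 : q x y Q ^ 3 ≤ √(√K) ^ 3 := pow_le_pow_left₀ hq0 hqk 3
    have h4 : x Q * y Q ≤ √(√K) ^ 3 * q x y Q := by
      rw [← hq4]
      calc q x y Q ^ 4 = q x y Q ^ 3 * q x y Q := by ring
        _ ≤ √(√K) ^ 3 * q x y Q := mul_le_mul_of_nonneg_right h3 hq0
    have h5 : 0 ≤ √(√K) ^ 3 * q x y Q := by positivity
    calc x Q * y Q * (√(ub ch a x Q) * √(ub ch b y Q))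
        ≤ (√(√K) ^ 3 * q x y Q) * ((ub ch a x Q + ub ch b y Q) / 2) :=
          mul_le_mul h4 h1 (by positivity) h5
      _ = _ := by ring
  have h1 : cc ch x y (fun Q => √(ub ch a x Q) * √(ub ch b y Q)) d P ≤
      S ch d (fun Q => (√(√K) ^ 3 / 2) * (q x y Q * ub ch a x Q + q x y Q * ub ch b y Q)) P :=
    S_mono ch hpt d P
  rw [S_mul, S_add] at h1
  have h2 := (dtt_Sq h a M ha d P).1
  have h3 := (dtt_Sq h b M hb d P).2
  have h4 : 0 ≤ √(√K) ^ 3 / 2 := by positivity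
  have h5 := mul_le_mul_of_nonneg_left (add_le_add h2 h3) h4
  calc _ ≤ _ := h1
    _ ≤ _ := h5
    _ = _ := by ring

/-- the pointwise estimate -/
private theorem dtt_point (h : Wt ch K x y) (a b M : ℕ) (ha : a < M) (hb : b < M) (e : ℕ) (Q : T) :
    x Q * (√(ub ch a x Q) * √(ub ch b y Q)) *
        cc ch x y (fun Q => √(ub ch a x Q) * √(ub ch b y Q)) e Q ≤
      1 / 2 * (x Q * y Q * ub ch b y Q * inner1 ch (20 * M) (ub ch b y)
        (fun Q => x Q * ub ch a x Q) e Q) +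
      20 * M * K * (x Q * ub ch a x Q) +
      2 * 27648 * M * K / √(√(2 ^ M)) * (x Q * (√(ub ch a x Q) * √(ub ch b y Q))) := by
  have hK : 1 ≤ K := h.one_le Q
  have hM1 : 1 ≤ M := by omega
  have hM : (1 : ℝ) ≤ M := by exact_mod_cast hM1
  have hxQ := h.xpos Q
  have hyQ := h.ypos Q
  have hα0 := ub_nonneg (ch := ch) h.xpos a
  have hβ0 := ub_nonneg (ch := ch) h.ypos b
  have hα := hα0 Q
  have hβ := hβ0 Q
  have hB : (0 : ℝ) < 20 * M := by linarith
  obtain ⟨k, hk⟩ : ∃ k, k = √(√K) := ⟨_, rfl⟩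
  obtain ⟨m, hm⟩ : ∃ m : ℝ, m = √(√(2 ^ M)) := ⟨_, rfl⟩
  have hk4 : k ^ 4 = K := by rw [hk]; exact dtt_fourth K (by linarith)
  have hk0 : 0 ≤ k := by rw [hk]; exact Real.sqrt_nonneg _
  have hm4 : m ^ 4 = 2 ^ M := by rw [hm]; exact dtt_fourth _ (by positivity)
  have h2M : (1 : ℝ) ≤ 2 ^ M := one_le_pow₀ (by norm_num)
  have hm1 : 1 ≤ m := by
    rw [hm]
    rw [Real.one_le_sqrt, Real.one_le_sqrt]
    exact h2M
  have hi1 : 0 ≤ inner1 ch (20 * M) (ub ch b y) (fun Q => x Q * ub ch a x Q) e Q :=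
    inner1_nonneg (20 * M) hB (ub ch b y) _ hβ0 (fun Q => mul_nonneg (h.xpos Q).le (hα0 Q)) e Q
  -- the second part
  have hqk : ∀ P, q x y P ≤ k := by
    intro P
    rw [hk]
    exact Real.sqrt_le_sqrt (Real.sqrt_le_sqrt (h.hi P))
  have hA1 : 0 ≤ 27648 * M * k ^ 3 := by positivity
  have hA2 : 0 ≤ 27648 * M * K := by positivity
  have hc1 : ∀ d P, cc ch x y (fun Q => √(ub ch a x Q) * √(ub ch b y Q)) d P ≤
      27648 * M * k ^ 3 * q x y P := by
    intro d P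
    rw [hk]
    exact dtt_cc h a b M ha hb d P
  have hc2 : ∀ d P, cc ch x y (fun Q => √(ub ch a x Q) * √(ub ch b y Q)) d P ≤
      27648 * M * K := by
    intro d P
    have h1 := mul_le_mul_of_nonneg_left (hqk P) hA1
    have h2 := hc1 d P
    calc _ ≤ _ := h2
      _ ≤ _ := h1
      _ = 27648 * M * k ^ 4 := by ring
      _ = _ := by rw [hk4]
  have hII := cII_le h.xpos h.ypos h.xm h.ym _ _ _ hA1 hA2 hc1 hc2 M (y Q) hyQ e Q
  have hII2 : cII ch x y (fun Q => √(ub ch a x Q) * √(ub ch b y Q)) M (y Q) e Q ≤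
      2 * 27648 * M * K / m := by
    have e1 : y Q / (2 ^ M * y Q) = 1 / m ^ 4 := by
      rw [hm4]
      field_simp
    have e2 : √(√(x Q * (y Q / 2 ^ M))) = q x y Q / m := by
      unfold q
      rw [hm, ← mul_div_assoc, Real.sqrt_div (mul_pos hxQ hyQ).le, Real.sqrt_div (Real.sqrt_nonneg _)]
    rw [e1, e2] at hII
    have hm0 : 0 < m := by linarith
    have h1 : 1 / m ^ 4 ≤ 1 / m := by
      apply one_div_le_one_div_of_le hm0
      calc m = m ^ 1 := (pow_one m).symm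
        _ ≤ m ^ 4 := pow_le_pow_right₀ hm1 (by norm_num)
    have h2 : q x y Q / m ≤ k / m := div_le_div_of_nonneg_right (hqk Q) hm0.le
    have h3 := mul_le_mul_of_nonneg_left h1 hA2
    have h4 := mul_le_mul_of_nonneg_left h2 hA1
    calc _ ≤ _ := hII
      _ ≤ 27648 * M * K * (1 / m) + 27648 * M * k ^ 3 * (k / m) := add_le_add h3 h4
      _ = 27648 * M * K / m + 27648 * M * k ^ 4 / m := by ring
      _ = _ := by rw [hk4]; ring
  have hcc := cc_le_add (ch := ch) (x := x) (y := y)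
    (fun Q => √(ub ch a x Q) * √(ub ch b y Q)) M (y Q) e Q
  obtain ⟨κ, hκ⟩ : ∃ κ, κ = √(ub ch a x Q) * √(ub ch b y Q) := ⟨_, rfl⟩
  have hκ0 : 0 ≤ κ := by rw [hκ]; positivity
  rw [← hm]
  -- the first part
  have hI : x Q * κ * cI ch x y (fun Q => √(ub ch a x Q) * √(ub ch b y Q)) M (y Q) e Q ≤
      1 / 2 * (x Q * y Q * ub ch b y Q * inner1 ch (20 * M) (ub ch b y)
        (fun Q => x Q * ub ch a x Q) e Q) + 20 * M * K * (x Q * ub ch a x Q) := by
    have hr0 : 0 ≤ 1 / 2 * (x Q * y Q * ub ch b y Q * inner1 ch (20 * M) (ub ch b y)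
        (fun Q => x Q * ub ch a x Q) e Q) + 20 * M * K * (x Q * ub ch a x Q) := by positivity
    rcases hα.eq_or_lt with hz | hα1
    · have : κ = 0 := by rw [hκ, ← hz]; simp
      rw [this]
      simpa using hr0
    rcases hβ.eq_or_lt with hz | hβ1
    · have : κ = 0 := by rw [hκ, ← hz]; simp
      rw [this]
      simpa using hr0
    have hsα : 0 < √(ub ch a x Q) := Real.sqrt_pos.2 hα1
    have hsβ : 0 < √(ub ch b y Q) := Real.sqrt_pos.2 hβ1
    have hθ : 0 < √(ub ch b y Q) / √(ub ch a x Q) := div_pos hsβ hsα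
    have h1 := cI_le (ch := ch) K (20 * M) (by linarith) hB h.xpos h.ypos h.hi (ub ch a x)
      (ub ch b y) hα0 hβ0 M (y Q) hyQ _ hθ e Q
    have h2 : inner2 ch (20 * M) y (ub ch b y) M (y Q) e Q ≤ 2 * (20 * M * y Q) := by
      have h3 := inner2_le (ch := ch) h.ypos (20 * M) hB (ub ch b y) hβ0 M (y Q)
        (fun d P => AI_le h.ypos h.ym b M hb (y Q) hyQ d P) e Q
      have h4 := AI_le (ch := ch) h.ypos h.ym b M hb (y Q) hyQ e Q
      linarith
    obtain ⟨s, hs⟩ : ∃ s, s = √(ub ch a x Q) := ⟨_, rfl⟩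
    obtain ⟨t, ht⟩ : ∃ t, t = √(ub ch b y Q) := ⟨_, rfl⟩
    have hs2 : ub ch a x Q = s ^ 2 := by rw [hs, Real.sq_sqrt hα]
    have ht2 : ub ch b y Q = t ^ 2 := by rw [ht, Real.sq_sqrt hβ]
    rw [← hs] at hsα
    rw [← ht] at hsβ
    rw [← hs, ← ht] at h1 hκ hθ
    generalize inner1 ch (20 * M) (ub ch b y) (fun Q => x Q * ub ch a x Q) e Q = I1 at *
    generalize inner2 ch (20 * M) y (ub ch b y) M (y Q) e Q = I2 at *
    generalize cI ch x y (fun Q => √(ub ch a x Q) * √(ub ch b y Q)) M (y Q) e Q = C1 at *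
    have h3 : 0 ≤ 1 / (2 * (t / s)) * (K / y Q) := by positivity
    have h4 := mul_le_mul_of_nonneg_left h2 h3
    have h5 : C1 ≤ t / s / 2 * y Q * I1 + 1 / (2 * (t / s)) * (K / y Q) * (2 * (20 * M * y Q)) := by
      linarith
    have h6 : 0 ≤ x Q * κ := by positivity
    have h7 := mul_le_mul_of_nonneg_left h5 h6
    refine h7.trans (le_of_eq ?_)
    rw [hκ, hs2, ht2]
    field_simp
  have h8 : 0 ≤ x Q * κ := by positivity
  have h9 := mul_le_mul_of_nonneg_left hcc h8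
  have h10 := mul_le_mul_of_nonneg_left hII2 h8
  rw [← hκ]
  calc _ ≤ _ := h9
    _ = x Q * κ * cI ch x y (fun Q => √(ub ch a x Q) * √(ub ch b y Q)) M (y Q) e Q +
        x Q * κ * cII ch x y (fun Q => √(ub ch a x Q) * √(ub ch b y Q)) M (y Q) e Q := by ring
    _ ≤ _ := add_le_add hI h10
    _ = _ := by ring

/-- the sum of the pointwise estimates -/
private theorem dtt_sum (h : Wt ch K x y) (a b M : ℕ) (ha : a < M) (hb : b < M) (d : ℕ) (P : T) :
    TT ch x y (fun Q => √(ub ch a x Q) * √(ub ch b y Q)) d P ≤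
      1 / 2 * outer1 ch (20 * M) (ub ch b y) (fun Q => x Q * ub ch a x Q)
        (fun Q => x Q * y Q * ub ch b y Q) d P +
      20 * M * K * S ch d (fun Q => x Q * ub ch a x Q) P +
      2 * 27648 * M * K / √(√(2 ^ M)) *
        S ch d (fun Q => x Q * (√(ub ch a x Q) * √(ub ch b y Q))) P := by
  induction d generalizing P with
  | zero => simp [TT, outer1]
  | succ d ih =>
    have h1 := dtt_point h a b M ha hb (d + 1) P
    have h2 : av ch (TT ch x y (fun Q => √(ub ch a x Q) * √(ub ch b y Q)) d) P ≤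
        1 / 2 * av ch (outer1 ch (20 * M) (ub ch b y) (fun Q => x Q * ub ch a x Q)
          (fun Q => x Q * y Q * ub ch b y Q) d) P +
        20 * M * K * av ch (S ch d (fun Q => x Q * ub ch a x Q)) P +
        2 * 27648 * M * K / √(√(2 ^ M)) *
          av ch (S ch d (fun Q => x Q * (√(ub ch a x Q) * √(ub ch b y Q)))) P := by
      rw [← av_mul, ← av_mul, ← av_mul, ← av_add, ← av_add]
      exact av_mono ch P (fun i => ih _)
    rw [S_succ, S_succ]
    simp only [TT, outer1]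
    have e : x P * y P * ub ch b y P * inner1 ch (20 * M) (ub ch b y)
        (fun Q => x Q * ub ch a x Q) (d + 1) P =
        x P * y P * ub ch b y P * inner1 ch (20 * M) (ub ch b y)
        (fun Q => x Q * ub ch a x Q) (d + 1) P := rfl
    linarith

theorem TT_le (h : Wt ch K x y) (a b M : ℕ) (ha : a < M) (hb : b < M) (d : ℕ) (P : T) :
    TT ch x y (fun Q => √(ub ch a x Q) * √(ub ch b y Q)) d P ≤ 4 * 10 ^ 9 * M * K ^ 2 * x P := by
  have hK : 1 ≤ K := h.one_le P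
  have hM1 : 1 ≤ M := by omega
  have hM : (1 : ℝ) ≤ M := by exact_mod_cast hM1
  have hxP := h.xpos P
  have hα0 := ub_nonneg (ch := ch) h.xpos a
  have hβ0 := ub_nonneg (ch := ch) h.ypos b
  have hB : (0 : ℝ) < 20 * M := by linarith
  have h1 := dtt_sum h a b M ha hb d P
  have h2 := outer1_le (ch := ch) K (20 * M) (by linarith) hB (ub ch b y)
    (fun Q => x Q * ub ch a x Q) (fun Q => x Q * y Q * ub ch b y Q) hβ0
    (ub_le_three h.ypos h.ym b) (fun Q => mul_nonneg (h.xpos Q).le (hα0 Q))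
    (fun Q => mul_nonneg (mul_nonneg (h.xpos Q).le (h.ypos Q).le) (hβ0 Q))
    (fun Q => mul_le_mul_of_nonneg_right (h.hi Q) (hβ0 Q)) d P
  have h3 := dtt_Sxa h a d P
  have h4 : S ch d (fun Q => x Q * (√(ub ch a x Q) * √(ub ch b y Q))) P ≤
      13840 * M * K * x P := by
    have h5 : S ch d (fun Q => x Q * (√(ub ch a x Q) * √(ub ch b y Q))) P ≤
        S ch d (fun Q => 1 / 2 * (x Q * ub ch a x Q + x Q * ub ch b y Q)) P := by
      apply S_mono
      intro Q
      have h6 := mul_le_mul_of_nonneg_left (dtt_amgm _ _ (hα0 Q) (hβ0 Q)) (h.xpos Q).le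
      refine h6.trans (le_of_eq ?_)
      ring
    rw [S_mul, S_add] at h5
    have h7 := dtt_Sxb h b M hb d P
    have h8 : 0 ≤ K * x P := by positivity
    have h9 := mul_le_mul_of_nonneg_right hM h8
    nlinarith
  obtain ⟨m, hm⟩ : ∃ m : ℝ, m = √(√(2 ^ M)) := ⟨_, rfl⟩
  have hm4 : m ^ 4 = 2 ^ M := by rw [hm]; exact dtt_fourth _ (by positivity)
  have hm0 : 0 < m := by
    rw [hm]
    exact Real.sqrt_pos.2 (Real.sqrt_pos.2 (by positivity))
  have hMm : (M : ℝ) ≤ 3 * m := by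
    apply le_of_pow_le_pow_left₀ (n := 4) (by norm_num) (by positivity)
    have := dtt_pow M
    rw [mul_pow, hm4]
    linarith
  rw [← hm] at h1
  have h10 : 2 * 27648 * M * K / m * S ch d (fun Q => x Q * (√(ub ch a x Q) * √(ub ch b y Q))) P ≤
      2295889920 * M * K ^ 2 * x P := by
    have h11 : 0 ≤ 2 * 27648 * M * K / m := by positivity
    have h12 := mul_le_mul_of_nonneg_left h4 h11
    refine h12.trans ?_
    have h13 : 2 * 27648 * M * K / m * (13840 * M * K * x P) =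
        765296640 * M * K ^ 2 * x P * (M / m) := by
      field_simp
      ring
    rw [h13]
    have h14 : (M : ℝ) / m ≤ 3 := by
      rw [div_le_iff₀ hm0]
      exact hMm
    have h15 : 0 ≤ 765296640 * M * K ^ 2 * x P := by positivity
    have h16 := mul_le_mul_of_nonneg_left h14 h15
    linarith
  have h17 : (3 * K + 2 * (20 * M) * K) * S ch d (fun Q => x Q * ub ch a x Q) P ≤
      (3 * K + 2 * (20 * M) * K) * (32 * K * x P) :=
    mul_le_mul_of_nonneg_left h3 (by positivity)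
  have h18 : 20 * M * K * S ch d (fun Q => x Q * ub ch a x Q) P ≤
      20 * M * K * (32 * K * x P) := mul_le_mul_of_nonneg_left h3 (by positivity)
  have h19 : 0 ≤ K ^ 2 * x P := by positivity
  have h20 := mul_le_mul_of_nonneg_right hM h19
  have h21 : 0 ≤ M * (K ^ 2 * x P) := by positivity
  nlinarith [h1, h2, h10, h17, h18, h20, h21]

end Pool.MP_75bf3e_an.BT
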