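import Mathlib

/-!
# Piece ADUAL: duality

`w > 0`, `w` and `w⁻¹` locally integrable, `h : ℂ → ℂ` continuous with
`‖∫ h g‖ ≤ B √(∫ g^2 w⁻¹)` for all continuous compactly supported real `g`.  Then `∫ |h|^2 w ≤ 2 B^2`.

It is enough to show `∫_E (Re h)^2 w ≤ B^2` for every compact `E` (closed balls; monotone convergence) and the same
for `Im h`; note `|∫ (Re h) g| ≤ ‖∫ h g‖`.  Let `u = Re h`, `μ = w⁻¹ dz` (a locally finite measure
`volume.withDensity (ENNReal.ofReal (w z)⁻¹)`, hence regular on `ℂ`), `g₀ = u w 1_E`: `∫ g₀^2 dμ = ∫_E u^2 w < ∞` (`u` is bounded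
on `E`).  There are continuous compactly supported `g_j → g₀` in `L^2(μ)` (`MemLp.exists_hasCompactSupport_eLpNorm_sub_le`);
multiplying by a fixed continuous cutoff `0 ≤ η ≤ 1`, `η = 1` on `E`, supported in a compact `E'`, we may assume that
they are supported in `E'`.  Then `|∫ u (g_j - g₀)| ≤ (∫_{E'} u^2 w)^{1/2} ‖g_j - g₀‖_{L^2(μ)} → 0` (Cauchy-Schwarz,
`u = (u √w)(1/√w)`), so `∫_E u^2 w = ∫ u g₀ ≤ B √(∫ g₀^2 dμ) = B √(∫_E u^2 w)`, i.e. `∫_E u^2 w ≤ B^2`.
-/

set_option autoImplicit false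

open MeasureTheory

namespace Pool.MP_75bf3e_an.BT

private noncomputable def cut (N : ℕ) (z : ℂ) : ℝ := max 0 (min 1 ((N : ℝ) + 1 - ‖z‖))

private theorem cut_cont (N : ℕ) : Continuous (cut N) := by
  unfold cut
  fun_prop

private theorem cut_nonneg (N : ℕ) (z : ℂ) : 0 ≤ cut N z := le_max_left _ _

private theorem cut_le_one (N : ℕ) (z : ℂ) : cut N z ≤ 1 :=
  max_le (by norm_num) (min_le_left _ _)

private theorem cut_one (N : ℕ) (z : ℂ) (h : z ∈ Metric.closedBall (0 : ℂ) N) : cut N z = 1 := by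
  unfold cut
  rw [mem_closedBall_zero_iff] at h
  rw [min_eq_left (by linarith), max_eq_right (by norm_num)]

private theorem cut_zero (N : ℕ) (z : ℂ) (h : z ∉ Metric.closedBall (0 : ℂ) ((N : ℝ) + 1)) :
    cut N z = 0 := by
  unfold cut
  rw [mem_closedBall_zero_iff, not_le] at h
  exact max_eq_left ((min_le_right _ _).trans (by linarith))

private theorem young {s a b : ℝ} (hs : 0 < s) : |a| * |b| ≤ (s * a ^ 2 + s⁻¹ * b ^ 2) / 2 := by
  have h : 0 ≤ (s * |a| - |b|) ^ 2 := sq_nonneg _
  have h1 : s⁻¹ * b ^ 2 = b ^ 2 / s := by ring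
  rw [h1, ← sq_abs a, ← sq_abs b]
  have h2 : (s * |a| ^ 2 + |b| ^ 2 / s) / 2 - |a| * |b| = (s * |a| - |b|) ^ 2 / (2 * s) := by
    field_simp
    ring
  have h3 : 0 ≤ (s * |a| - |b|) ^ 2 / (2 * s) := by positivity
  linarith

private theorem core (w : ℂ → ℝ) (hw : ∀ z, 0 < w z) (h1 : LocallyIntegrable w volume)
    (h2 : LocallyIntegrable (fun z => (w z)⁻¹) volume) (u : ℂ → ℝ) (hu : Continuous u) (B : ℝ)
    (hB0 : 0 ≤ B)
    (hB : ∀ g : ℂ → ℝ, Continuous g → HasCompactSupport g →
      |∫ x, u x * g x| ≤ B * √(∫ z, g z ^ 2 * (w z)⁻¹)) (N : ℕ) :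
    ∫ z in Metric.closedBall (0 : ℂ) N, u z ^ 2 * w z ≤ B ^ 2 := by
  have hE : IsCompact (Metric.closedBall (0 : ℂ) (N : ℝ)) := isCompact_closedBall _ _
  have hE' : IsCompact (Metric.closedBall (0 : ℂ) ((N : ℝ) + 1)) := isCompact_closedBall _ _
  set E : Set ℂ := Metric.closedBall (0 : ℂ) (N : ℝ) with hEdef
  set E' : Set ℂ := Metric.closedBall (0 : ℂ) ((N : ℝ) + 1) with hE'def
  have iE : IntegrableOn (fun z => u z ^ 2 * w z) E volume :=
    (h1.integrableOn_isCompact hE).continuousOn_mul (by fun_prop) hE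
  have iE' : IntegrableOn (fun z => u z ^ 2 * w z) E' volume :=
    (h1.integrableOn_isCompact hE').continuousOn_mul (by fun_prop) hE'
  set A : ℝ := ∫ z in E, u z ^ 2 * w z with hAdef
  have hA0 : 0 ≤ A := integral_nonneg fun z => mul_nonneg (sq_nonneg _) (hw z).le
  set C : ℝ := ∫ z in E', u z ^ 2 * w z with hCdef
  have hC0 : 0 ≤ C := integral_nonneg fun z => mul_nonneg (sq_nonneg _) (hw z).le
  set g0 : ℂ → ℝ := E.indicator (fun z => u z * w z) with hg0
  have g0sq : ∀ z, g0 z ^ 2 * (w z)⁻¹ = E.indicator (fun z => u z ^ 2 * w z) z := by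
    intro z
    by_cases hz : z ∈ E
    · simp only [hg0, Set.indicator_of_mem hz]
      have := (hw z).ne'
      field_simp
    · simp only [hg0, Set.indicator_of_notMem hz]
      ring
  have ig0 : Integrable (fun z => g0 z ^ 2 * (w z)⁻¹) volume := by
    have : (fun z => g0 z ^ 2 * (w z)⁻¹) = E.indicator (fun z => u z ^ 2 * w z) := funext g0sq
    rw [this]
    exact (integrable_indicator_iff hE.measurableSet).2 iE
  have Ig0 : ∫ z, g0 z ^ 2 * (w z)⁻¹ = A := by
    rw [show (fun z => g0 z ^ 2 * (w z)⁻¹) = E.indicator (fun z => u z ^ 2 * w z) from funext g0sq,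
      integral_indicator hE.measurableSet]
  let ρ : ℂ → ENNReal := fun z => ENNReal.ofReal (w z)⁻¹
  have hρ : AEMeasurable ρ volume := h2.aestronglyMeasurable.aemeasurable.ennreal_ofReal
  have hρt : ∀ᵐ z ∂(volume : Measure ℂ), ρ z < ⊤ :=
    Filter.Eventually.of_forall fun _ => ENNReal.ofReal_lt_top
  have hρr : ∀ z, (ρ z).toReal = (w z)⁻¹ := fun z =>
    ENNReal.toReal_ofReal (inv_nonneg.2 (hw z).le)
  let μ : Measure ℂ := volume.withDensity ρ
  haveI : IsLocallyFiniteMeasure μ := by
    refine ⟨fun x => ⟨Metric.ball x 1, Metric.ball_mem_nhds x one_pos, ?_⟩⟩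
    show (volume.withDensity ρ) _ < _
    rw [withDensity_apply _ Metric.isOpen_ball.measurableSet]
    exact ((h2.integrableOn_isCompact (isCompact_closedBall x 1)).mono_set
      Metric.ball_subset_closedBall).lintegral_lt_top
  have toμ : ∀ f : ℂ → ℝ, Integrable f μ ↔ Integrable (fun z => (w z)⁻¹ * f z) volume := by
    intro f
    have h := integrable_withDensity_iff_integrable_smul₀' (g := f) hρ hρt
    simp only [hρr, smul_eq_mul] at h
    exact h
  have intμ : ∀ f : ℂ → ℝ, ∫ z, f z ∂μ = ∫ z, (w z)⁻¹ * f z := by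
    intro f
    have h := integral_withDensity_eq_integral_toReal_smul₀ hρ hρt f
    simp only [hρr, smul_eq_mul] at h
    exact h
  have hg0meas : AEStronglyMeasurable g0 volume :=
    (hu.aestronglyMeasurable.mul h1.aestronglyMeasurable).indicator hE.measurableSet
  have g0m : MemLp g0 2 μ := by
    refine (memLp_two_iff_integrable_sq (hg0meas.mono_ac (withDensity_absolutelyContinuous _ _))).2
      ((toμ _).2 ?_)
    refine ig0.congr (Filter.Eventually.of_forall fun z => ?_)
    show g0 z ^ 2 * (w z)⁻¹ = (w z)⁻¹ * g0 z ^ 2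
    ring
  have hp2 : ENNReal.ofReal 2 = 2 := by norm_num
  have main : ∀ δ : ℝ, 0 < δ → A ≤ B * √((1 + δ) * A + (δ ^ 2 + δ)) + (δ * C + δ) / 2 := by
    intro δ hδ
    obtain ⟨g, gs, gint, gc, gm⟩ := MemLp.exists_hasCompactSupport_integral_rpow_sub_le
      (μ := μ) (p := 2) (by norm_num) (f := g0) (by rw [hp2]; exact g0m) (ε := δ ^ 2) (by positivity)
    rw [hp2] at gm
    have fm : MemLp (fun z => g0 z - g z) 2 μ := g0m.sub gm
    have if2 : Integrable (fun z => (g0 z - g z) ^ 2 * (w z)⁻¹) volume := by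
      have := (toμ _).1 fm.integrable_sq
      refine this.congr (Filter.Eventually.of_forall fun z => ?_)
      show (w z)⁻¹ * (g0 z - g z) ^ 2 = (g0 z - g z) ^ 2 * (w z)⁻¹
      ring
    have If2 : ∫ z, (g0 z - g z) ^ 2 * (w z)⁻¹ ≤ δ ^ 2 := by
      have h3 : ∫ z, (g0 z - g z) ^ 2 * (w z)⁻¹ = ∫ z, ‖g0 z - g z‖ ^ (2 : ℝ) ∂μ := by
        rw [intμ]
        refine integral_congr_ae (Filter.Eventually.of_forall fun z => ?_)
        show (g0 z - g z) ^ 2 * (w z)⁻¹ = (w z)⁻¹ * ‖g0 z - g z‖ ^ (2 : ℝ)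
        rw [Real.rpow_two, Real.norm_eq_abs, sq_abs]
        ring
      rw [h3]
      exact gint
    set J : ℝ := ∫ z, (g0 z - g z) ^ 2 * (w z)⁻¹ with hJ
    have hηg0 : ∀ z, cut N z * g0 z = g0 z := by
      intro z
      by_cases hz : z ∈ E
      · rw [cut_one N z hz, one_mul]
      · simp only [hg0, Set.indicator_of_notMem hz, mul_zero]
    have hGc : Continuous (fun z => cut N z * g z) := (cut_cont N).mul gc
    have hGs : HasCompactSupport (fun z => cut N z * g z) := gs.mul_left
    have hBG := hB _ hGc hGs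
    have hG2 : ∫ z, (cut N z * g z) ^ 2 * (w z)⁻¹ ≤ (1 + δ) * A + (δ ^ 2 + δ) := by
      have hstep : ∫ z, (cut N z * g z) ^ 2 * (w z)⁻¹
          ≤ ∫ z, ((1 + δ) * (g0 z ^ 2 * (w z)⁻¹) + (1 + δ⁻¹) * ((g0 z - g z) ^ 2 * (w z)⁻¹)) := by
        refine integral_mono_of_nonneg (Filter.Eventually.of_forall fun z => ?_)
          ((ig0.const_mul _).add (if2.const_mul _)) (Filter.Eventually.of_forall fun z => ?_)
        · exact mul_nonneg (sq_nonneg _) (inv_nonneg.2 (hw z).le)
        · show (cut N z * g z) ^ 2 * (w z)⁻¹ ≤ (1 + δ) * (g0 z ^ 2 * (w z)⁻¹)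
            + (1 + δ⁻¹) * ((g0 z - g z) ^ 2 * (w z)⁻¹)
          have hwi : 0 ≤ (w z)⁻¹ := inv_nonneg.2 (hw z).le
          have e1 : cut N z * g z = g0 z - cut N z * (g0 z - g z) := by
            have := hηg0 z
            linarith [this, mul_sub (cut N z) (g0 z) (g z)]
          have hc0 := cut_nonneg N z
          have hc1 := cut_le_one N z
          have e2 : (cut N z * (g0 z - g z)) ^ 2 ≤ (g0 z - g z) ^ 2 := by
            rw [mul_pow]
            have : cut N z ^ 2 ≤ 1 := by nlinarith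
            nlinarith [sq_nonneg (g0 z - g z)]
          have e3 : (g0 z - cut N z * (g0 z - g z)) ^ 2
              ≤ (1 + δ) * g0 z ^ 2 + (1 + δ⁻¹) * (cut N z * (g0 z - g z)) ^ 2 := by
            set a := g0 z
            set b := cut N z * (a - g z)
            have h4 := young (a := a) (b := b) hδ
            have h5 : -(a * b) ≤ |a| * |b| := by
              rw [← abs_mul]
              exact neg_le_abs _
            nlinarith
          have hδi : 0 < δ⁻¹ := inv_pos.2 hδ
          have e4 : (cut N z * g z) ^ 2 ≤ (1 + δ) * g0 z ^ 2 + (1 + δ⁻¹) * (g0 z - g z) ^ 2 := by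
            rw [e1]
            refine e3.trans ?_
            have : (1 + δ⁻¹) * (cut N z * (g0 z - g z)) ^ 2 ≤ (1 + δ⁻¹) * (g0 z - g z) ^ 2 :=
              mul_le_mul_of_nonneg_left e2 (by positivity)
            linarith
          calc (cut N z * g z) ^ 2 * (w z)⁻¹
              ≤ ((1 + δ) * g0 z ^ 2 + (1 + δ⁻¹) * (g0 z - g z) ^ 2) * (w z)⁻¹ :=
                mul_le_mul_of_nonneg_right e4 hwi
            _ = _ := by ring
      refine hstep.trans ?_
      rw [integral_add (ig0.const_mul _) (if2.const_mul _), integral_const_mul, integral_const_mul,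
        Ig0, ← hJ]
      have h6 : (1 + δ⁻¹) * J ≤ (1 + δ⁻¹) * δ ^ 2 :=
        mul_le_mul_of_nonneg_left If2 (by positivity)
      have h7 : (1 + δ⁻¹) * δ ^ 2 = δ ^ 2 + δ := by
        field_simp
      linarith
    have iuG : Integrable (fun z => u z * (cut N z * g z)) volume :=
      (hu.mul hGc).integrable_of_hasCompactSupport hGs.mul_left
    have hdom : ∀ z, ‖u z * (cut N z * (g0 z - g z))‖
        ≤ (δ * E'.indicator (fun z => u z ^ 2 * w z) z + δ⁻¹ * ((g0 z - g z) ^ 2 * (w z)⁻¹)) / 2 := by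
      intro z
      by_cases hz : z ∈ E'
      · rw [Set.indicator_of_mem hz, Real.norm_eq_abs, abs_mul, abs_mul,
          abs_of_nonneg (cut_nonneg N z)]
        have h8 := young (a := u z) (b := g0 z - g z) (mul_pos hδ (hw z))
        have h9 : |u z| * (cut N z * |g0 z - g z|) ≤ |u z| * |g0 z - g z| := by
          have : cut N z * |g0 z - g z| ≤ 1 * |g0 z - g z| :=
            mul_le_mul_of_nonneg_right (cut_le_one N z) (abs_nonneg _)
          rw [one_mul] at this
          exact mul_le_mul_of_nonneg_left this (abs_nonneg _)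
        refine h9.trans (h8.trans (le_of_eq ?_))
        rw [mul_inv]
        ring
      · rw [cut_zero N z hz, Set.indicator_of_notMem hz, zero_mul, mul_zero, norm_zero]
        have : 0 ≤ δ⁻¹ * ((g0 z - g z) ^ 2 * (w z)⁻¹) :=
          mul_nonneg (inv_pos.2 hδ).le (mul_nonneg (sq_nonneg _) (inv_nonneg.2 (hw z).le))
        linarith
    have iD : Integrable (fun z => (δ * E'.indicator (fun z => u z ^ 2 * w z) z
        + δ⁻¹ * ((g0 z - g z) ^ 2 * (w z)⁻¹)) / 2) volume :=
      ((((integrable_indicator_iff hE'.measurableSet).2 iE').const_mul _).add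
        (if2.const_mul _)).div_const _
    have iuf : Integrable (fun z => u z * (cut N z * (g0 z - g z))) volume :=
      iD.mono' (hu.aestronglyMeasurable.mul ((cut_cont N).aestronglyMeasurable.mul
        (hg0meas.sub gc.aestronglyMeasurable))) (Filter.Eventually.of_forall hdom)
    have hsmall : |∫ z, u z * (cut N z * (g0 z - g z))| ≤ (δ * C + δ) / 2 := by
      refine (norm_integral_le_of_norm_le iD (Filter.Eventually.of_forall hdom)).trans ?_
      rw [integral_div, integral_add
        (((integrable_indicator_iff hE'.measurableSet).2 iE').const_mul _) (if2.const_mul _),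
        integral_const_mul, integral_const_mul, integral_indicator hE'.measurableSet, ← hJ, ← hCdef]
      have h10 : δ⁻¹ * J ≤ δ⁻¹ * δ ^ 2 := mul_le_mul_of_nonneg_left If2 (inv_pos.2 hδ).le
      have h11 : δ⁻¹ * δ ^ 2 = δ := by field_simp
      linarith
    have hAeq : A = (∫ z, u z * (cut N z * g z)) + ∫ z, u z * (cut N z * (g0 z - g z)) := by
      rw [← integral_add iuG iuf]
      rw [hAdef, ← integral_indicator hE.measurableSet]
      refine integral_congr_ae (Filter.Eventually.of_forall fun z => ?_)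
      show E.indicator (fun z => u z ^ 2 * w z) z
        = u z * (cut N z * g z) + u z * (cut N z * (g0 z - g z))
      have h12 : u z * (cut N z * g z) + u z * (cut N z * (g0 z - g z)) = u z * (cut N z * g0 z) := by
        ring
      rw [h12, hηg0 z]
      by_cases hz : z ∈ E
      · simp only [hg0, Set.indicator_of_mem hz]
        ring
      · simp only [hg0, Set.indicator_of_notMem hz, mul_zero]
    have h13 : ∫ z, u z * (cut N z * g z) ≤ B * √((1 + δ) * A + (δ ^ 2 + δ)) :=
      (le_abs_self _).trans (hBG.trans (mul_le_mul_of_nonneg_left (Real.sqrt_le_sqrt hG2) hB0))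
    have h14 := (le_abs_self _).trans hsmall
    linarith
  have hlim : Filter.Tendsto (fun δ : ℝ => B * √((1 + δ) * A + (δ ^ 2 + δ)) + (δ * C + δ) / 2)
      (nhdsWithin 0 (Set.Ioi 0)) (nhds (B * √A)) := by
    have hcont : Continuous (fun δ : ℝ => B * √((1 + δ) * A + (δ ^ 2 + δ)) + (δ * C + δ) / 2) := by
      fun_prop
    have h15 := (hcont.tendsto 0).mono_left (nhdsWithin_le_nhds (s := Set.Ioi (0 : ℝ)))
    simpa using h15
  have hle : A ≤ B * √A := by
    refine ge_of_tendsto hlim ?_
    filter_upwards [self_mem_nhdsWithin] with δ hδ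
    exact main δ hδ
  have hs := Real.sq_sqrt hA0
  have hs0 := Real.sqrt_nonneg A
  rcases eq_or_lt_of_le hs0 with h0 | hpos
  · rw [← hs, ← h0]
    nlinarith
  · have : √A ≤ B := by
      by_contra hcon
      push Not at hcon
      nlinarith
    rw [← hs]
    exact pow_le_pow_left₀ hs0 this 2

theorem dual (w : ℂ → ℝ) (hw : ∀ z, 0 < w z) (h1 : LocallyIntegrable w volume)
    (h2 : LocallyIntegrable (fun z => (w z)⁻¹) volume) (h : ℂ → ℂ) (hc : Continuous h) (B : ℝ)
    (hB0 : 0 ≤ B)
    (hB : ∀ g : ℂ → ℝ, Continuous g → HasCompactSupport g →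
      ‖∫ x, h x * ((g x : ℝ) : ℂ)‖ ≤ B * √(∫ z, g z ^ 2 * (w z)⁻¹)) :
    ∫⁻ z, ‖h z‖ₑ ^ (2 : ℝ) * ENNReal.ofReal (w z) ≤ ENNReal.ofReal (2 * B ^ 2) := by
  have hre : Continuous (fun z => (h z).re) := Complex.continuous_re.comp hc
  have him : Continuous (fun z => (h z).im) := Complex.continuous_im.comp hc
  have ihg : ∀ g : ℂ → ℝ, Continuous g → HasCompactSupport g →
      Integrable (fun x => h x * ((g x : ℝ) : ℂ)) volume := by
    intro g gc gs
    refine (hc.mul (Complex.continuous_ofReal.comp gc)).integrable_of_hasCompactSupport ?_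
    exact (gs.comp_left (g := fun t : ℝ => (t : ℂ)) Complex.ofReal_zero).mul_left
  have c1 := core w hw h1 h2 (fun z => (h z).re) hre B hB0 (by
    intro g gc gs
    have e : ∫ x, (h x).re * g x = (∫ x, h x * ((g x : ℝ) : ℂ)).re := by
      have := Complex.reCLM.integral_comp_comm (ihg g gc gs)
      simp only [Complex.reCLM_apply] at this
      rw [← this]
      refine integral_congr_ae (Filter.Eventually.of_forall fun x => ?_)
      simp
    rw [e]
    exact (Complex.abs_re_le_norm _).trans (hB g gc gs))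
  have c2 := core w hw h1 h2 (fun z => (h z).im) him B hB0 (by
    intro g gc gs
    have e : ∫ x, (h x).im * g x = (∫ x, h x * ((g x : ℝ) : ℂ)).im := by
      have := Complex.imCLM.integral_comp_comm (ihg g gc gs)
      simp only [Complex.imCLM_apply] at this
      rw [← this]
      refine integral_congr_ae (Filter.Eventually.of_forall fun x => ?_)
      simp
    rw [e]
    exact (Complex.abs_im_le_norm _).trans (hB g gc gs))
  have hU : (⋃ N : ℕ, Metric.closedBall (0 : ℂ) (N : ℝ)) = Set.univ := by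
    refine Set.eq_univ_of_forall fun z => Set.mem_iUnion.2 ?_
    obtain ⟨N, hN⟩ := exists_nat_ge ‖z‖
    exact ⟨N, mem_closedBall_zero_iff.2 hN⟩
  have hdir : Directed (· ⊆ ·) (fun N : ℕ => Metric.closedBall (0 : ℂ) (N : ℝ)) := by
    refine Monotone.directed_le fun a b hab => ?_
    exact Metric.closedBall_subset_closedBall (by exact_mod_cast hab)
  rw [← setLIntegral_univ, ← hU, setLIntegral_iUnion_of_directed _ hdir]
  refine iSup_le fun N => ?_
  have hE : IsCompact (Metric.closedBall (0 : ℂ) (N : ℝ)) := isCompact_closedBall _ _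
  have i1 : IntegrableOn (fun z => (h z).re ^ 2 * w z) (Metric.closedBall (0 : ℂ) (N : ℝ)) volume :=
    (h1.integrableOn_isCompact hE).continuousOn_mul (by fun_prop) hE
  have i2 : IntegrableOn (fun z => (h z).im ^ 2 * w z) (Metric.closedBall (0 : ℂ) (N : ℝ)) volume :=
    (h1.integrableOn_isCompact hE).continuousOn_mul (by fun_prop) hE
  have e1 : ∫⁻ z in Metric.closedBall (0 : ℂ) (N : ℝ), ‖h z‖ₑ ^ (2 : ℝ) * ENNReal.ofReal (w z)
      = ENNReal.ofReal (∫ z in Metric.closedBall (0 : ℂ) (N : ℝ),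
        ((h z).re ^ 2 * w z + (h z).im ^ 2 * w z)) := by
    have i3 : Integrable (fun z => (h z).re ^ 2 * w z + (h z).im ^ 2 * w z)
        (volume.restrict (Metric.closedBall (0 : ℂ) (N : ℝ))) := i1.add i2
    rw [ofReal_integral_eq_lintegral_ofReal i3]
    · refine lintegral_congr fun z => ?_
      rw [← ofReal_norm_eq_enorm, ENNReal.ofReal_rpow_of_nonneg (norm_nonneg _) (by norm_num),
        ← ENNReal.ofReal_mul (by positivity)]
      congr 1
      rw [Real.rpow_two, Complex.sq_norm, Complex.normSq_apply]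
      ring
    · refine Filter.Eventually.of_forall fun z => ?_
      have := (hw z).le
      show 0 ≤ (h z).re ^ 2 * w z + (h z).im ^ 2 * w z
      positivity
  rw [e1, integral_add i1 i2]
  apply ENNReal.ofReal_le_ofReal
  linarith [c1 N, c2 N]

end Pool.MP_75bf3e_an.BT
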