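import Pool.Agent.Lib_MP_75bf3e.ExDoob

/-!
# Piece EBUCK: Buckley's sharp bound for the dyadic maximal function (Lerner's proof)

`p > 1`, `q = p/(p-1)`, `s = w^{-1/(p-1)}`; `A_p` condition on all the squares `sq c 2^k`:
`(avg w) (avg s)^{p-1} ≤ K`.  Claim: `∫⁻ (Md volume t g)^q s ≤ (C_p K)^q ∫⁻ g^q s`.

Let `μ = w dz`, `ν = s dz` (`volume.withDensity`), `|Q| = volume Q`.  For a square `Q` of the grid,
`avg_Q g = |Q|⁻¹ ∫_Q g = |Q|⁻¹ ∫_Q (g/w) dμ`.  Let `G₁ = Md μ t (g/w)`; `G₁ ≥ μ(Q)⁻¹ ∫_Q g` on `Q`, hence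
`|Q| (μ(Q)⁻¹ ∫_Q g)^{1/(p-1)} ≤ ∫_Q G₁^{1/(p-1)} dz = ∫_Q G₁^{1/(p-1)} s⁻¹ dν`.  With
`[μ(Q) ν(Q)^{p-1}/|Q|^p] ≤ K`:
`avg_Q g = (μ(Q) ν(Q)^{p-1}/|Q|^p) * { (|Q|/ν(Q)) (μ(Q)⁻¹ ∫_Q g)^{1/(p-1)} }^{p-1}
  ≤ K { ν(Q)⁻¹ ∫_Q (G₁^{1/(p-1)} s⁻¹) dν }^{p-1}`.
So with `G₂ = G₁^{1/(p-1)} s⁻¹`: `Md volume t g ≤ K (Md ν t G₂)^{p-1}`.  Therefore (`q (p-1) = p`, `Md_strong` twice)
`∫⁻ (Md volume t g)^q dν ≤ K^q ∫⁻ (Md ν t G₂)^p dν ≤ K^q C ∫⁻ G₂^p dν`, and
`G₂^p s = G₁^{p/(p-1)} s^{1-p} = G₁^q w`, `∫⁻ G₁^q dμ ≤ C ∫⁻ (g/w)^q w = C ∫⁻ g^q w^{1-q} = C ∫⁻ g^q s`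
(`s^{1-p} = w`, `w^{1-q} = s` because `(1-q) = -1/(p-1)`).
The measures of squares are positive and finite (`w, s > 0` locally integrable).
The final form `Mt` is the sum of the four dyadic maximal functions times `16`; it dominates the average over
every square `sq c 2^k` at every point of the square (`exists_cover`: the average over `sq c 2^k` is at most
`16` times the average over the grid square of side `4 * 2^k`).
-/

set_option autoImplicit false

open MeasureTheory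

namespace Pool.MP_75bf3e_an.BT

/-- the sum of the four dyadic maximal functions, times 16 -/
noncomputable def Mt (g : ℂ → ENNReal) (x : ℂ) : ENNReal := 16 * ∑ t : Bool × Bool, Md volume t g x

theorem measurable_Mt (g : ℂ → ENNReal) : Measurable (Mt g) := by
  unfold Mt
  exact (Finset.measurable_fun_sum _ fun t _ => measurable_Md volume t g).const_mul 16

private theorem ebuck_vol (c : ℂ) (k : ℤ) :
    volume (sq c ((2 : ℝ) ^ k)) = ENNReal.ofReal ((2 : ℝ) ^ k * (2 : ℝ) ^ k) :=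
  volume_sq _ (two_zpow_pos k).le

theorem avg_le_Mt (g : ℂ → ENNReal) (c : ℂ) (k : ℤ) (x : ℂ) (hx : x ∈ sq c ((2 : ℝ) ^ k)) :
    (volume (sq c ((2 : ℝ) ^ k)))⁻¹ * ∫⁻ y in sq c ((2 : ℝ) ^ k), g y ≤ Mt g x := by
  obtain ⟨t, m, hsub⟩ := exists_cover c k
  have hk := two_zpow_pos k
  have h1 : (volume (sq c ((2 : ℝ) ^ k)))⁻¹ = 16 * (volume (gsq t (k + 2) m))⁻¹ := by
    have e2 : (2 : ℝ) ^ (k + 2) = (2 : ℝ) ^ k * 4 := by
      rw [zpow_add₀ (by norm_num)]; norm_num
    unfold gsq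
    rw [ebuck_vol, ebuck_vol, e2, ← ENNReal.ofReal_inv_of_pos (by positivity),
      ← ENNReal.ofReal_inv_of_pos (by positivity), show (16 : ENNReal) = ENNReal.ofReal 16 by simp,
      ← ENNReal.ofReal_mul (by norm_num)]
    congr 1
    field_simp
    norm_num
  rw [h1]
  calc 16 * (volume (gsq t (k + 2) m))⁻¹ * ∫⁻ y in sq c ((2 : ℝ) ^ k), g y
      ≤ 16 * (volume (gsq t (k + 2) m))⁻¹ * ∫⁻ y in gsq t (k + 2) m, g y := by
        gcongr
    _ = 16 * ((volume (gsq t (k + 2) m))⁻¹ * ∫⁻ y in gsq t (k + 2) m, g y) := by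
        rw [mul_assoc]
    _ ≤ 16 * Md volume t g x := by
        gcongr
        exact le_Md volume t g (k + 2) m x (hsub hx)
    _ ≤ Mt g x := by
        unfold Mt
        gcongr
        exact Finset.single_le_sum (f := fun t => Md volume t g x) (fun _ _ => bot_le)
          (Finset.mem_univ t)

theorem Mt_tsum_le (φ : ℕ → ℂ → ENNReal) (hφ : ∀ j, Measurable (φ j)) (x : ℂ) :
    Mt (fun y => ∑' j, φ j y) x ≤ ∑' j, Mt (φ j) x := by
  unfold Mt
  rw [ENNReal.tsum_mul_left, Summable.tsum_finsetSum (fun i _ => ENNReal.summable)]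
  gcongr with t _
  exact Md_tsum_le volume t φ hφ x

theorem Mt_mul (φ : ℂ → ENNReal) (hφ : Measurable φ) (c : ENNReal) (x : ℂ) :
    Mt (fun y => c * φ y) x = c * Mt φ x := by
  unfold Mt
  have h : ∀ t, Md volume t (fun y => c * φ y) x = c * Md volume t φ x :=
    fun t => Md_mul volume t φ hφ c x
  simp only [h]
  rw [← Finset.mul_sum]
  ring

private theorem ebuck_int (w : ℂ → ℝ) (hw : ∀ z, 0 < w z) (hl : LocallyIntegrable w volume)
    (P : ℂ × ℤ) : ∫⁻ z in sqn P, ENNReal.ofReal (w z) =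
      volume (sqn P) * ENNReal.ofReal (mn w P) := by
  have hk := two_zpow_pos P.2
  have h1 : IntegrableOn w (sqn P) volume :=
    (hl.integrableOn_isCompact (isCompact_closedBall P.1 (2 * (2 : ℝ) ^ P.2))).mono_set
      (sq_subset_closedBall P.1 hk.le)
  rw [← ofReal_integral_eq_lintegral_ofReal h1 (Filter.Eventually.of_forall fun z => (hw z).le)]
  unfold mn sqn
  rw [ebuck_vol, ← ENNReal.ofReal_mul (by positivity)]
  congr 1
  field_simp

private theorem ebuck_pos (w : ℂ → ℝ) (hw : ∀ z, 0 < w z) (hm : Measurable w) (P : ℂ × ℤ) :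
    ∫⁻ z in sqn P, ENNReal.ofReal (w z) ≠ 0 := by
  intro h
  rw [lintegral_eq_zero_iff hm.ennreal_ofReal] at h
  have h2 : ∀ᵐ z ∂(volume.restrict (sqn P)), False := by
    filter_upwards [h] with z hz
    exact absurd (ENNReal.ofReal_eq_zero.1 hz) (not_le.2 (hw z))
  rw [Filter.eventually_false_iff_eq_bot, ae_eq_bot, Measure.restrict_eq_zero] at h2
  unfold sqn at h2
  rw [ebuck_vol, ENNReal.ofReal_eq_zero] at h2
  have hk := two_zpow_pos P.2
  exact absurd h2 (not_le.2 (by positivity))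

/-- the pointwise bound on one square -/
private theorem ebuck_sq (p : ℝ) (hp : 1 < p) (w : ℂ → ℝ) (hw : ∀ z, 0 < w z) (hm : Measurable w)
    (hl : LocallyIntegrable w volume)
    (hs : LocallyIntegrable (fun z => w z ^ (-(1 / (p - 1)))) volume)
    (K : ℝ) (hK : ∀ P : ℂ × ℤ, mn w P * (mn (fun z => w z ^ (-(1 / (p - 1)))) P) ^ (p - 1) ≤ K)
    (g : ℂ → ENNReal) (hg : Measurable g) (t : Bool × Bool) (k : ℤ) (m : ℤ × ℤ) (x : ℂ)
    (hx : x ∈ gsq t k m) :
    (volume (gsq t k m))⁻¹ * ∫⁻ y in gsq t k m, g y ≤ ENNReal.ofReal K *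
      (Md (volume.withDensity fun z => ENNReal.ofReal (w z ^ (-(1 / (p - 1))))) t
        (fun z => Md (volume.withDensity fun z => ENNReal.ofReal (w z)) t
          (fun z => g z * (ENNReal.ofReal (w z))⁻¹) z ^ (1 / (p - 1)) *
            ENNReal.ofReal (w z) ^ (1 / (p - 1))) x) ^ (p - 1) := by
  have hp1 : 0 < p - 1 := by linarith
  set e : ℝ := 1 / (p - 1) with he
  have he0 : 0 < e := by positivity
  have hep : e * (p - 1) = 1 := by rw [he]; field_simp
  set W : ℂ → ENNReal := fun z => ENNReal.ofReal (w z) with hWdef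
  set S : ℂ → ENNReal := fun z => ENNReal.ofReal (w z ^ (-e)) with hSdef
  have hW0 : ∀ z, W z ≠ 0 := fun z => by
    rw [hWdef]; exact (ENNReal.ofReal_pos.2 (hw z)).ne'
  have hWt : ∀ z, W z ≠ ⊤ := fun z => ENNReal.ofReal_ne_top
  have hWm : Measurable W := hm.ennreal_ofReal
  have hSm : Measurable S := (hm.pow_const _).ennreal_ofReal
  have hSW : ∀ z, S z = (W z ^ e)⁻¹ := fun z => by
    rw [← ENNReal.rpow_neg, hWdef, hSdef]
    exact (ENNReal.ofReal_rpow_of_pos (hw z)).symm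
  set G₁ : ℂ → ENNReal := Md (volume.withDensity W) t (fun z => g z * (W z)⁻¹) with hG₁
  have hG₁m : Measurable G₁ := measurable_Md _ _ _
  set Q := gsq t k m with hQ
  have hQm : MeasurableSet Q := measurableSet_gsq t k m
  set P : ℂ × ℤ := (gcor t k m, k) with hP
  have hQP : Q = sqn P := rfl
  have hV0 : volume Q ≠ 0 := by
    rw [hQP]; unfold sqn
    rw [ebuck_vol]
    have := two_zpow_pos P.2
    exact (ENNReal.ofReal_pos.2 (by positivity)).ne'
  have hVt : volume Q ≠ ⊤ := by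
    rw [hQP]; unfold sqn
    rw [ebuck_vol]
    exact ENNReal.ofReal_ne_top
  have hwe : ∀ z, 0 < w z ^ (-e) := fun z => Real.rpow_pos_of_pos (hw z) _
  have hM1 : ∫⁻ z in Q, W z = volume Q * ENNReal.ofReal (mn w P) := ebuck_int w hw hl P
  have hN1 : ∫⁻ z in Q, S z = volume Q * ENNReal.ofReal (mn (fun z => w z ^ (-e)) P) :=
    ebuck_int _ hwe hs P
  have hM0 : ∫⁻ z in Q, W z ≠ 0 := ebuck_pos w hw hm P
  have hN0 : ∫⁻ z in Q, S z ≠ 0 := ebuck_pos _ hwe (hm.pow_const _) P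
  set A : ENNReal := ENNReal.ofReal (mn w P) with hA
  set B : ENNReal := ENNReal.ofReal (mn (fun z => w z ^ (-e)) P) with hB
  have hA0 : A ≠ 0 := fun h => hM0 (by rw [hM1, h, mul_zero])
  have hB0 : B ≠ 0 := fun h => hN0 (by rw [hN1, h, mul_zero])
  have hAt : A ≠ ⊤ := ENNReal.ofReal_ne_top
  have hBt : B ≠ ⊤ := ENNReal.ofReal_ne_top
  have hAr : 0 < mn w P := ENNReal.ofReal_pos.1 (pos_iff_ne_zero.2 hA0)
  have hBr : 0 < mn (fun z => w z ^ (-e)) P := ENNReal.ofReal_pos.1 (pos_iff_ne_zero.2 hB0)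
  have hKe : A * B ^ (p - 1) ≤ ENNReal.ofReal K := by
    rw [hA, hB, ENNReal.ofReal_rpow_of_pos hBr, ← ENNReal.ofReal_mul hAr.le]
    exact ENNReal.ofReal_le_ofReal (hK P)
  -- the average with respect to μ
  set a : ENNReal := (volume Q * A)⁻¹ * ∫⁻ y in Q, g y with ha
  have hgm : Measurable fun z => g z * (W z)⁻¹ := hg.mul hWm.inv
  have hG₂m : Measurable fun z => G₁ z ^ e * W z ^ e := (hG₁m.pow_const e).mul (hWm.pow_const e)
  have hgint : ∫⁻ y in Q, g y * (W y)⁻¹ ∂(volume.withDensity W) = ∫⁻ y in Q, g y := by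
    rw [setLIntegral_withDensity_eq_setLIntegral_mul _ hWm hgm hQm]
    refine lintegral_congr fun y => ?_
    simp only [Pi.mul_apply]
    rw [mul_comm (g y), ← mul_assoc, ENNReal.mul_inv_cancel (hW0 y) (hWt y), one_mul]
  have haG : ∀ y ∈ Q, a ≤ G₁ y := by
    intro y hy
    have h1 := le_Md (volume.withDensity W) t (fun z => g z * (W z)⁻¹) k m y hy
    rw [← hQ, hgint, withDensity_apply _ hQm, hM1] at h1
    exact h1
  have hae : a ^ e * volume Q ≤ ∫⁻ y in Q, G₁ y ^ e := by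
    calc a ^ e * volume Q = ∫⁻ y in Q, a ^ e := by rw [setLIntegral_const]
      _ ≤ ∫⁻ y in Q, G₁ y ^ e := by
        refine setLIntegral_mono' hQm fun y hy => ?_
        exact ENNReal.rpow_le_rpow (haG y hy) he0.le
  have hG2int : ∫⁻ y in Q, G₁ y ^ e * W y ^ e ∂(volume.withDensity S) = ∫⁻ y in Q, G₁ y ^ e := by
    rw [setLIntegral_withDensity_eq_setLIntegral_mul _ hSm hG₂m hQm]
    refine lintegral_congr fun y => ?_
    simp only [Pi.mul_apply]
    rw [hSW, mul_comm (G₁ y ^ e), ← mul_assoc, ENNReal.inv_mul_cancel, one_mul]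
    · exact (ENNReal.rpow_pos (pos_iff_ne_zero.2 (hW0 y)) (hWt y)).ne'
    · exact ENNReal.rpow_ne_top_of_nonneg he0.le (hWt y)
  have hD : a ^ e * B⁻¹ ≤ Md (volume.withDensity S) t (fun z => G₁ z ^ e * W z ^ e) x := by
    refine le_trans ?_ (le_Md (volume.withDensity S) t (fun z => G₁ z ^ e * W z ^ e) k m x hx)
    rw [← hQ, hG2int, withDensity_apply _ hQm, hN1, ENNReal.mul_inv (Or.inl hV0) (Or.inl hVt)]
    calc a ^ e * B⁻¹ = (volume Q)⁻¹ * B⁻¹ * (a ^ e * volume Q) := by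
          rw [show (volume Q)⁻¹ * B⁻¹ * (a ^ e * volume Q) =
            ((volume Q)⁻¹ * volume Q) * (a ^ e * B⁻¹) by ring, ENNReal.inv_mul_cancel hV0 hVt, one_mul]
      _ ≤ _ := by gcongr
  have hBp0 : B ^ (p - 1) ≠ 0 := (ENNReal.rpow_pos (pos_iff_ne_zero.2 hB0) hBt).ne'
  have hBpt : B ^ (p - 1) ≠ ⊤ := ENNReal.rpow_ne_top_of_nonneg hp1.le hBt
  have hD2 : a * (B ^ (p - 1))⁻¹ ≤
      (Md (volume.withDensity S) t (fun z => G₁ z ^ e * W z ^ e) x) ^ (p - 1) := by
    have h1 := ENNReal.rpow_le_rpow hD hp1.le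
    rw [ENNReal.mul_rpow_of_nonneg _ _ hp1.le, ← ENNReal.rpow_mul, hep, ENNReal.rpow_one,
      ENNReal.inv_rpow] at h1
    exact h1
  calc (volume Q)⁻¹ * ∫⁻ y in Q, g y = A * a := by
        rw [ha, ENNReal.mul_inv (Or.inl hV0) (Or.inl hVt)]
        rw [show A * ((volume Q)⁻¹ * A⁻¹ * ∫⁻ y in Q, g y) =
          (A * A⁻¹) * ((volume Q)⁻¹ * ∫⁻ y in Q, g y) by ring, ENNReal.mul_inv_cancel hA0 hAt, one_mul]
    _ = (A * B ^ (p - 1)) * (a * (B ^ (p - 1))⁻¹) := by
        rw [show (A * B ^ (p - 1)) * (a * (B ^ (p - 1))⁻¹) =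
          (A * a) * (B ^ (p - 1) * (B ^ (p - 1))⁻¹) by ring, ENNReal.mul_inv_cancel hBp0 hBpt, mul_one]
    _ ≤ _ := by gcongr

private theorem ebuck_one (p : ℝ) (hp : 1 < p) (w : ℂ → ℝ) (hw : ∀ z, 0 < w z) (hm : Measurable w)
    (hl : LocallyIntegrable w volume)
    (hs : LocallyIntegrable (fun z => w z ^ (-(1 / (p - 1)))) volume)
    (K : ℝ) (hK : ∀ P : ℂ × ℤ, mn w P * (mn (fun z => w z ^ (-(1 / (p - 1)))) P) ^ (p - 1) ≤ K)
    (g : ℂ → ENNReal) (hg : Measurable g) (t : Bool × Bool) :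
    ∫⁻ x, Md volume t g x ^ (p / (p - 1)) * ENNReal.ofReal (w x ^ (-(1 / (p - 1)))) ≤
      ENNReal.ofReal K ^ (p / (p - 1)) * (ENNReal.ofReal (2 ^ p * p / (p - 1)) *
        (ENNReal.ofReal (2 ^ (p / (p - 1)) * (p / (p - 1)) / (p / (p - 1) - 1)) *
          ∫⁻ x, g x ^ (p / (p - 1)) * ENNReal.ofReal (w x ^ (-(1 / (p - 1)))))) := by
  have hp1 : 0 < p - 1 := by linarith
  have hp0 : 0 < p := by linarith
  have hpt := fun k m x hx => ebuck_sq p hp w hw hm hl hs K hK g hg t k m x hx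
  have hq1 : 1 < p / (p - 1) := by rw [lt_div_iff₀ hp1]; linarith
  have hqe : p / (p - 1) = 1 / (p - 1) + 1 := by field_simp; ring
  have hqe2 : 1 / (p - 1) * p = p / (p - 1) := by ring
  have hqp : (p - 1) * (p / (p - 1)) = p := by field_simp
  set e : ℝ := 1 / (p - 1) with he
  set q : ℝ := p / (p - 1) with hq
  have hq0 : 0 < q := by linarith
  have he0 : 0 < e := by positivity
  set W : ℂ → ENNReal := fun z => ENNReal.ofReal (w z) with hWdef
  set S : ℂ → ENNReal := fun z => ENNReal.ofReal (w z ^ (-e)) with hSdef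
  have hW0 : ∀ z, W z ≠ 0 := fun z => by
    rw [hWdef]; exact (ENNReal.ofReal_pos.2 (hw z)).ne'
  have hWt : ∀ z, W z ≠ ⊤ := fun z => ENNReal.ofReal_ne_top
  have hWm : Measurable W := hm.ennreal_ofReal
  have hSm : Measurable S := (hm.pow_const _).ennreal_ofReal
  have hSW : ∀ z, S z = W z ^ (-e) := fun z => (ENNReal.ofReal_rpow_of_pos (hw z)).symm
  set G₁ : ℂ → ENNReal := Md (volume.withDensity W) t (fun z => g z * (W z)⁻¹) with hG₁
  have hG₁m : Measurable G₁ := measurable_Md _ _ _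
  set G₂ : ℂ → ENNReal := fun z => G₁ z ^ e * W z ^ e with hG₂
  have hG₂m : Measurable G₂ := (hG₁m.pow_const e).mul (hWm.pow_const e)
  have hle : ∀ x, Md volume t g x ≤ ENNReal.ofReal K * (Md (volume.withDensity S) t G₂ x) ^ (p - 1) := by
    intro x
    conv_lhs => unfold Md
    refine iSup₂_le fun k m => ?_
    by_cases hx : x ∈ gsq t k m
    · rw [Set.indicator_of_mem hx]
      exact hpt k m x hx
    · rw [Set.indicator_of_notMem hx]
      exact bot_le
  have hDm : Measurable (Md (volume.withDensity S) t G₂) := measurable_Md _ _ _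
  calc ∫⁻ x, Md volume t g x ^ q * S x
      ≤ ∫⁻ x, ENNReal.ofReal K ^ q * (S x * (Md (volume.withDensity S) t G₂ x) ^ p) := by
        refine lintegral_mono fun x => ?_
        have h1 := ENNReal.rpow_le_rpow (hle x) hq0.le
        rw [ENNReal.mul_rpow_of_nonneg _ _ hq0.le, ← ENNReal.rpow_mul, hqp] at h1
        calc Md volume t g x ^ q * S x
            ≤ (ENNReal.ofReal K ^ q * (Md (volume.withDensity S) t G₂ x) ^ p) * S x := by gcongr
          _ = _ := by ring
    _ = ENNReal.ofReal K ^ q * ∫⁻ x, (Md (volume.withDensity S) t G₂ x) ^ p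
          ∂(volume.withDensity S) := by
        have hSD : Measurable fun x => S x * (Md (volume.withDensity S) t G₂ x) ^ p :=
          hSm.mul (hDm.pow_const p)
        rw [lintegral_const_mul _ hSD,
          lintegral_withDensity_eq_lintegral_mul _ hSm (hDm.pow_const p)]
        rfl
    _ ≤ ENNReal.ofReal K ^ q * (ENNReal.ofReal (2 ^ p * p / (p - 1)) *
          ∫⁻ x, G₂ x ^ p ∂(volume.withDensity S)) := by
        gcongr
        exact Md_strong (volume.withDensity S) t G₂ hG₂m p hp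
    _ = ENNReal.ofReal K ^ q * (ENNReal.ofReal (2 ^ p * p / (p - 1)) *
          ∫⁻ x, G₁ x ^ q ∂(volume.withDensity W)) := by
        congr 2
        rw [lintegral_withDensity_eq_lintegral_mul _ hSm (hG₂m.pow_const p),
          lintegral_withDensity_eq_lintegral_mul _ hWm (hG₁m.pow_const q)]
        refine lintegral_congr fun x => ?_
        simp only [Pi.mul_apply]
        rw [hSW, hG₂]
        simp only
        rw [ENNReal.mul_rpow_of_nonneg _ _ hp0.le, ← ENNReal.rpow_mul, ← ENNReal.rpow_mul, hqe2]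
        rw [show W x ^ (-e) * (G₁ x ^ q * W x ^ q) = (W x ^ (-e) * W x ^ q) * G₁ x ^ q by ring,
          ← ENNReal.rpow_add _ _ (hW0 x) (hWt x), hqe, neg_add_cancel_left, ENNReal.rpow_one]
    _ ≤ ENNReal.ofReal K ^ q * (ENNReal.ofReal (2 ^ p * p / (p - 1)) *
          (ENNReal.ofReal (2 ^ q * q / (q - 1)) *
            ∫⁻ x, (g x * (W x)⁻¹) ^ q ∂(volume.withDensity W))) := by
        gcongr
        exact Md_strong (volume.withDensity W) t _ (hg.mul hWm.inv) q hq1
    _ = _ := by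
        congr 3
        have hgm : Measurable fun z => (g z * (W z)⁻¹) ^ q := (hg.mul hWm.inv).pow_const q
        rw [lintegral_withDensity_eq_lintegral_mul _ hWm hgm]
        refine lintegral_congr fun x => ?_
        simp only [Pi.mul_apply]
        change W x * (g x * (W x)⁻¹) ^ q = g x ^ q * S x
        rw [hSW, ENNReal.mul_rpow_of_nonneg _ _ hq0.le, ENNReal.inv_rpow, ← ENNReal.rpow_neg]
        rw [show W x * (g x ^ q * W x ^ (-q)) = g x ^ q * (W x ^ (-q) * W x) by ring]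
        congr 1
        nth_rewrite 2 [← ENNReal.rpow_one (W x)]
        rw [← ENNReal.rpow_add _ _ (hW0 x) (hWt x)]
        congr 1
        rw [hqe]
        ring

theorem buckM (p : ℝ) (hp : 1 < p) : ∃ C : ℝ, 0 < C ∧ ∀ (w : ℂ → ℝ), (∀ z, 0 < w z) → Measurable w →
    LocallyIntegrable w volume → LocallyIntegrable (fun z => w z ^ (-(1 / (p - 1)))) volume →
    ∀ K : ℝ, (∀ P : ℂ × ℤ, mn w P * (mn (fun z => w z ^ (-(1 / (p - 1)))) P) ^ (p - 1) ≤ K) →
    ∀ (g : ℂ → ENNReal), Measurable g →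
    ∫⁻ x, Mt g x ^ (p / (p - 1)) * ENNReal.ofReal (w x ^ (-(1 / (p - 1))))
      ≤ ENNReal.ofReal (C * K) ^ (p / (p - 1)) *
        ∫⁻ x, g x ^ (p / (p - 1)) * ENNReal.ofReal (w x ^ (-(1 / (p - 1)))) := by
  have hp1 : 0 < p - 1 := by linarith
  have hp0 : 0 < p := by linarith
  have hq1 : 1 < p / (p - 1) := by rw [lt_div_iff₀ hp1]; linarith
  set q : ℝ := p / (p - 1) with hq
  have hq0 : 0 < q := by linarith
  have hq10 : 0 < q - 1 := by linarith
  set D : ℝ := 64 ^ q * 4 * ((2 ^ p * p / (p - 1)) * (2 ^ q * q / (q - 1))) with hD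
  have hD0 : 0 < D := by positivity
  refine ⟨D ^ (1 / q), by positivity, ?_⟩
  intro w hw hm hl hs K hK g hg
  have h1 := fun t => ebuck_one p hp w hw hm hl hs K hK g hg t
  rw [← hq] at h1
  have hSm : Measurable (fun x => ENNReal.ofReal (w x ^ (-(1 / (p - 1))))) :=
    (hm.pow_const _).ennreal_ofReal
  set S : ℂ → ENNReal := fun x => ENNReal.ofReal (w x ^ (-(1 / (p - 1)))) with hS
  have hsum : ∀ x, Mt g x ^ q ≤ ENNReal.ofReal (64 ^ q) * ∑ t : Bool × Bool, Md volume t g x ^ q := by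
    intro x
    obtain ⟨t₀, -, ht₀⟩ := Finset.exists_max_image (Finset.univ : Finset (Bool × Bool))
      (fun t => Md volume t g x) ⟨(false, false), Finset.mem_univ _⟩
    have h2 : Mt g x ≤ 64 * Md volume t₀ g x := by
      unfold Mt
      calc 16 * ∑ t : Bool × Bool, Md volume t g x
          ≤ 16 * ∑ _t : Bool × Bool, Md volume t₀ g x := by
            gcongr with t ht
            exact ht₀ t ht
        _ = 64 * Md volume t₀ g x := by
            rw [Finset.sum_const, nsmul_eq_mul, ← mul_assoc]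
            congr 1
            simp
            norm_num
    calc Mt g x ^ q ≤ (64 * Md volume t₀ g x) ^ q := ENNReal.rpow_le_rpow h2 hq0.le
      _ = ENNReal.ofReal (64 ^ q) * Md volume t₀ g x ^ q := by
          rw [ENNReal.mul_rpow_of_nonneg _ _ hq0.le, ← ENNReal.ofReal_rpow_of_pos (by norm_num)]
          simp
      _ ≤ _ := by
          gcongr
          exact Finset.single_le_sum (f := fun t => Md volume t g x ^ q) (fun _ _ => bot_le)
            (Finset.mem_univ t₀)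
  have hMm : ∀ t, Measurable fun x => Md volume t g x ^ q * S x :=
    fun t => ((measurable_Md volume t g).pow_const q).mul hSm
  have hK0 : 0 < K := by
    refine lt_of_lt_of_le ?_ (hK (0, 0))
    have hwe : ∀ z, 0 < w z ^ (-(1 / (p - 1))) := fun z => Real.rpow_pos_of_pos (hw z) _
    have hA : 0 < mn w (0, 0) := by
      by_contra hcon
      apply ebuck_pos w hw hm (0, 0)
      rw [ebuck_int w hw hl, ENNReal.ofReal_of_nonpos (not_lt.1 hcon), mul_zero]
    have hB : 0 < mn (fun z => w z ^ (-(1 / (p - 1)))) (0, 0) := by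
      by_contra hcon
      apply ebuck_pos _ hwe (hm.pow_const _) (0, 0)
      rw [ebuck_int _ hwe hs, ENNReal.ofReal_of_nonpos (not_lt.1 hcon), mul_zero]
    exact mul_pos hA (Real.rpow_pos_of_pos hB _)
  calc ∫⁻ x, Mt g x ^ q * S x
      ≤ ∫⁻ x, ENNReal.ofReal (64 ^ q) * ∑ t : Bool × Bool, Md volume t g x ^ q * S x := by
        refine lintegral_mono fun x => ?_
        simp only
        rw [← Finset.sum_mul, ← mul_assoc]
        gcongr
        exact hsum x
    _ = ENNReal.ofReal (64 ^ q) * ∑ t : Bool × Bool, ∫⁻ x, Md volume t g x ^ q * S x := by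
        rw [lintegral_const_mul _ (Finset.measurable_fun_sum _ fun t _ => hMm t),
          lintegral_finsetSum _ fun t _ => hMm t]
    _ ≤ ENNReal.ofReal (64 ^ q) * ∑ _t : Bool × Bool, (ENNReal.ofReal K ^ q *
          (ENNReal.ofReal (2 ^ p * p / (p - 1)) * (ENNReal.ofReal (2 ^ q * q / (q - 1)) *
            ∫⁻ x, g x ^ q * S x))) := by
        gcongr with t _
        exact h1 t
    _ = _ := by
        rw [Finset.sum_const, nsmul_eq_mul]
        have h4 : ((Finset.univ : Finset (Bool × Bool)).card : ENNReal) = ENNReal.ofReal 4 := by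
          simp
        rw [h4]
        have h5 : ENNReal.ofReal (D ^ (1 / q) * K) ^ q = ENNReal.ofReal D * ENNReal.ofReal K ^ q := by
          rw [ENNReal.ofReal_mul (by positivity), ENNReal.mul_rpow_of_nonneg _ _ hq0.le]
          congr 1
          rw [ENNReal.ofReal_rpow_of_pos (by positivity), ← Real.rpow_mul hD0.le,
            one_div_mul_cancel hq0.ne', Real.rpow_one]
        rw [h5, hD, ENNReal.ofReal_mul (by positivity), ENNReal.ofReal_mul (by positivity),
          ENNReal.ofReal_mul (by positivity)]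
        ring

end Pool.MP_75bf3e_an.BT
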