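import Pool.Agent.Lib_MP_75bf3e.ExGrid

/-!
# Piece EDOOB: weighted dyadic maximal functions

`Md μ t φ x = sup over the squares Q of the grid t containing x of μ(Q)⁻¹ ∫⁻_Q φ dμ` (values in `[0,∞]`).

`Md_weak`: `λ μ{Md μ t φ > λ} ≤ ∫⁻ φ dμ`.  First for the supremum over the scales `k ≤ N` (then `N → ∞`, monotone
union).  For `k ≤ N` let `E_k` be the set of the `x` whose square of scale `k` has average `> λ` and whose squares of
scales `k+1, ..., N` have averages `≤ λ`.  The `E_k` are disjoint, their union over `k ≤ N` is `{x : sup_{k ≤ N} > λ}` if the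
averages exceed `λ` at only boundedly many larger scales - this is automatic because only the scales `≤ N` are
considered (for every `x` in the set there is a largest `k ≤ N`).  By nestedness (`gsq_mono`) `E_k` is a disjoint union of
squares `Q` of scale `k` with `λ μ(Q) ≤ ∫⁻_Q φ dμ` (if `μ Q = 0` trivially, if `μ Q = ∞` then the average is `0`).  Sum up.

`Md_strong`: for `1 < s`, `∫⁻ (Md μ t φ)^s dμ ≤ ofReal (2^s s/(s-1)) ∫⁻ φ^s dμ`.  For `0 < λ < ∞` split
`φ = φ 1_{φ > λ/2} + φ 1_{φ ≤ λ/2}`: `Md φ ≤ Md (φ 1_{φ>λ/2}) + λ/2`, so `μ{Md φ > λ} ≤ (2/λ) ∫⁻_{φ > λ/2} φ dμ`.  Layer cake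
(`lintegral_rpow_eq_lintegral_meas_lt_mul` or by hand as in `Lib_MP_6db0a9_an/HL.lean`) and Tonelli (`SFinite μ`):
`∫⁻ (Md φ)^s ≤ ∫⁻_0^∞ s λ^{s-1} (2/λ) ∫⁻_{φ>λ/2} φ dμ dλ = ∫⁻ φ (2s/(s-1)) (2φ)^{s-1} dμ`.
(If `Md φ = ∞` on a set of positive measure then by the weak type `∫⁻_{φ > λ/2} φ = ∞` for all `λ`... the layer cake
formula takes care of this when it is applied to `[0,∞]`-valued functions; otherwise treat the case `∫⁻ φ^s = ∞`
separately: if `∫⁻ φ^s < ∞` then `∫⁻_{φ > λ/2} φ ≤ (2/λ)^{s-1} ∫⁻ φ^s` tends to `0`, so `Md φ < ∞` a.e.)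
-/

set_option autoImplicit false

open MeasureTheory

namespace Pool.MP_75bf3e_an.BT

noncomputable def Md (μ : Measure ℂ) (t : Bool × Bool) (φ : ℂ → ENNReal) (x : ℂ) : ENNReal :=
  ⨆ (k : ℤ) (m : ℤ × ℤ), (gsq t k m).indicator
    (fun _ => (μ (gsq t k m))⁻¹ * ∫⁻ y in gsq t k m, φ y ∂μ) x

/-- layer cake for one number (as in `Lib_MP_6db0a9_an/HL.lean`) -/
private theorem edoob_layer (a : ENNReal) {s : ℝ} (hs : 0 < s) :
    ∫⁻ t in Set.Ioi (0 : ℝ), {t : ℝ | ENNReal.ofReal t < a}.indicator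
      (fun t => ENNReal.ofReal (t ^ (s - 1))) t = ENNReal.ofReal (1 / s) * a ^ s := by
  have hfin : ∀ b : ℝ, 0 ≤ b → ∫⁻ t in Set.Ioo (0 : ℝ) b, ENNReal.ofReal (t ^ (s - 1)) =
      ENNReal.ofReal (1 / s) * ENNReal.ofReal b ^ s := by
    intro b hb
    have hint : IntervalIntegrable (fun t : ℝ => t ^ (s - 1)) volume 0 b :=
      intervalIntegral.intervalIntegrable_rpow' (by linarith)
    rw [setLIntegral_congr Ioo_ae_eq_Ioc, ← ofReal_integral_eq_lintegral_ofReal]
    · rw [← intervalIntegral.integral_of_le hb, integral_rpow (Or.inl (by linarith))]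
      rw [ENNReal.ofReal_rpow_of_nonneg hb hs.le, ← ENNReal.ofReal_mul (by positivity)]
      congr 1
      rw [sub_add_cancel, Real.zero_rpow hs.ne']
      ring
    · exact (intervalIntegrable_iff_integrableOn_Ioc_of_le hb).1 hint
    · rw [Filter.EventuallyLE, ae_restrict_iff' measurableSet_Ioc]
      exact Filter.Eventually.of_forall fun t ht => Real.rpow_nonneg ht.1.le _
  rcases eq_or_ne a ⊤ with ha | ha
  · subst ha
    rw [ENNReal.top_rpow_of_pos hs, ENNReal.mul_top (by simpa using hs)]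
    rw [eq_top_iff]
    refine le_of_forall_lt_imp_le_of_dense ?_
    intro c hc
    obtain ⟨b, hb0, hb⟩ : ∃ b : ℝ, 0 ≤ b ∧ c ≤ ENNReal.ofReal (1 / s) * ENNReal.ofReal b ^ s := by
      refine ⟨(s * c.toReal) ^ (1 / s), by positivity, ?_⟩
      rw [ENNReal.ofReal_rpow_of_nonneg (by positivity) hs.le, ← Real.rpow_mul (by positivity),
        one_div_mul_cancel hs.ne', Real.rpow_one, ← ENNReal.ofReal_mul (by positivity)]
      rw [← mul_assoc, one_div_mul_cancel hs.ne', one_mul, ENNReal.ofReal_toReal hc.ne]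
    refine hb.trans ?_
    rw [← hfin b hb0]
    calc ∫⁻ t in Set.Ioo (0 : ℝ) b, ENNReal.ofReal (t ^ (s - 1))
        ≤ ∫⁻ t in Set.Ioi (0 : ℝ), ENNReal.ofReal (t ^ (s - 1)) :=
          lintegral_mono_set Set.Ioo_subset_Ioi_self
      _ = _ := by
          apply lintegral_congr
          intro t
          rw [Set.indicator_of_mem]
          simp
  · have h1 : ∫⁻ t in Set.Ioi (0 : ℝ), {t : ℝ | ENNReal.ofReal t < a}.indicator
        (fun t => ENNReal.ofReal (t ^ (s - 1))) t =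
        ∫⁻ t in Set.Ioo (0 : ℝ) a.toReal, ENNReal.ofReal (t ^ (s - 1)) := by
      rw [← lintegral_indicator measurableSet_Ioi, ← lintegral_indicator measurableSet_Ioo]
      apply lintegral_congr
      intro t
      simp only [Set.indicator, Set.mem_Ioi, Set.mem_ofPred_eq, Set.mem_Ioo]
      by_cases ht : 0 < t
      · have : ENNReal.ofReal t < a ↔ t < a.toReal := by
          rw [ENNReal.ofReal_lt_iff_lt_toReal ht.le ha]
        simp [ht, this]
      · simp [ht]
    rw [h1, hfin _ ENNReal.toReal_nonneg, ENNReal.ofReal_toReal ha]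

theorem measurable_Md (μ : Measure ℂ) (t : Bool × Bool) (φ : ℂ → ENNReal) :
    Measurable (Md μ t φ) := by
  unfold Md
  refine Measurable.iSup fun k => Measurable.iSup fun m => ?_
  exact measurable_const.indicator (measurableSet_gsq t k m)

theorem le_Md (μ : Measure ℂ) (t : Bool × Bool) (φ : ℂ → ENNReal) (k : ℤ) (m : ℤ × ℤ) (x : ℂ)
    (hx : x ∈ gsq t k m) : (μ (gsq t k m))⁻¹ * ∫⁻ y in gsq t k m, φ y ∂μ ≤ Md μ t φ x := by
  unfold Md
  refine le_trans ?_ (le_iSup₂ (f := fun (k : ℤ) (m : ℤ × ℤ) => (gsq t k m).indicator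
    (fun _ => (μ (gsq t k m))⁻¹ * ∫⁻ y in gsq t k m, φ y ∂μ) x) k m)
  simp only [Set.indicator_of_mem hx]
  exact le_rfl

private theorem edoob_lt (μ : Measure ℂ) (t : Bool × Bool) (φ : ℂ → ENNReal) (l : ENNReal) (x : ℂ) :
    l < Md μ t φ x ↔ ∃ k m, x ∈ gsq t k m ∧
      l < (μ (gsq t k m))⁻¹ * ∫⁻ y in gsq t k m, φ y ∂μ := by
  constructor
  · intro h
    unfold Md at h
    obtain ⟨k, h⟩ := lt_iSup_iff.1 h
    obtain ⟨m, h⟩ := lt_iSup_iff.1 h
    by_cases hx : x ∈ gsq t k m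
    · rw [Set.indicator_of_mem hx] at h
      exact ⟨k, m, hx, h⟩
    · rw [Set.indicator_of_notMem hx] at h
      exact absurd h not_lt_zero
  · rintro ⟨k, m, hx, h⟩
    exact h.trans_le (le_Md μ t φ k m x hx)

theorem Md_weak (μ : Measure ℂ) (t : Bool × Bool) (φ : ℂ → ENNReal) (hφ : Measurable φ)
    (l : ENNReal) : l * μ {x | l < Md μ t φ x} ≤ ∫⁻ y, φ y ∂μ := by
  set av : ℤ → ℤ × ℤ → ENNReal := fun k m => (μ (gsq t k m))⁻¹ * ∫⁻ y in gsq t k m, φ y ∂μ with hav
  let A : ℕ → Set ℂ := fun N => {x | ∃ k : ℤ, k ≤ N ∧ ∃ m, x ∈ gsq t k m ∧ l < av k m}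
  have hAu : {x | l < Md μ t φ x} = ⋃ N, A N := by
    ext x
    simp only [Set.mem_ofPred_eq, Set.mem_iUnion, A]
    rw [edoob_lt]
    constructor
    · rintro ⟨k, m, h1, h2⟩
      exact ⟨k.toNat, k, Int.self_le_toNat k, m, h1, h2⟩
    · rintro ⟨N, k, -, m, h1, h2⟩
      exact ⟨k, m, h1, h2⟩
  have hAm : Monotone A := by
    intro M N hMN x hx
    obtain ⟨k, hk, hx⟩ := hx
    exact ⟨k, hk.trans (by exact_mod_cast hMN), hx⟩
  rw [hAu, hAm.measure_iUnion, ENNReal.mul_iSup]
  refine iSup_le fun N => ?_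
  let S : Set (ℤ × (ℤ × ℤ)) := {p | p.1 ≤ N ∧ l < av p.1 p.2 ∧ ∀ k' m', p.1 < k' → k' ≤ N →
    (∃ y, y ∈ gsq t p.1 p.2 ∧ y ∈ gsq t k' m') → av k' m' ≤ l}
  have hSc : S.Countable := Set.to_countable S
  have hcov : A N ⊆ ⋃ p ∈ S, gsq t p.1 p.2 := by
    intro x hx
    obtain ⟨k, hk, m, hm, hl⟩ := hx
    obtain ⟨k0, ⟨hk0, m0, hx0, hl0⟩, hmax⟩ := Int.exists_greatest_of_bdd
      (P := fun k : ℤ => k ≤ N ∧ ∃ m, x ∈ gsq t k m ∧ l < av k m) ⟨N, fun z hz => hz.1⟩
      ⟨k, hk, m, hm, hl⟩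
    refine Set.mem_iUnion₂.2 ⟨(k0, m0), ⟨hk0, hl0, ?_⟩, hx0⟩
    rintro k' m' hkk hkN ⟨y, hy1, hy2⟩
    by_contra hlt
    push Not at hlt
    have h1 := gsq_mono t k0 k' hkk.le m0 m' y hy1 hy2
    have h2 := hmax k' ⟨hkN, m', h1 hx0, hlt⟩
    exact absurd hkk (not_lt.2 h2)
  have hdisj : S.PairwiseDisjoint (fun p => gsq t p.1 p.2) := by
    intro p hp q hq hpq
    rw [Function.onFun, Set.disjoint_left]
    intro z hz1 hz2
    rcases lt_trichotomy p.1 q.1 with h | h | h
    · exact absurd hq.2.1 (not_lt.2 (hp.2.2 q.1 q.2 h hq.1 ⟨z, hz1, hz2⟩))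
    · apply hpq
      have h3 : z ∈ gsq t p.1 q.2 := by rw [h]; exact hz2
      exact Prod.ext h (gsq_disj t p.1 p.2 q.2 z hz1 h3)
    · exact absurd hp.2.1 (not_lt.2 (hq.2.2 p.1 p.2 h hp.1 ⟨z, hz2, hz1⟩))
  have hone : ∀ p ∈ S, l * μ (gsq t p.1 p.2) ≤ ∫⁻ y in gsq t p.1 p.2, φ y ∂μ := by
    intro p hp
    have h1 : l ≤ av p.1 p.2 := hp.2.1.le
    calc l * μ (gsq t p.1 p.2) ≤ av p.1 p.2 * μ (gsq t p.1 p.2) := by gcongr
      _ = ((μ (gsq t p.1 p.2))⁻¹ * μ (gsq t p.1 p.2)) * ∫⁻ y in gsq t p.1 p.2, φ y ∂μ := by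
          rw [hav]; ring
      _ ≤ 1 * ∫⁻ y in gsq t p.1 p.2, φ y ∂μ := by
          gcongr
          exact ENNReal.inv_mul_le_one _
      _ = _ := one_mul _
  calc l * μ (A N) ≤ l * μ (⋃ p ∈ S, gsq t p.1 p.2) := by gcongr
    _ ≤ l * ∑' p : S, μ (gsq t (p : ℤ × (ℤ × ℤ)).1 (p : ℤ × (ℤ × ℤ)).2) := by
        gcongr
        exact measure_biUnion_le _ hSc _
    _ = ∑' p : S, l * μ (gsq t (p : ℤ × (ℤ × ℤ)).1 (p : ℤ × (ℤ × ℤ)).2) := by
        rw [ENNReal.tsum_mul_left]
    _ ≤ ∑' p : S, ∫⁻ y in gsq t (p : ℤ × (ℤ × ℤ)).1 (p : ℤ × (ℤ × ℤ)).2, φ y ∂μ :=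
        ENNReal.tsum_le_tsum fun p => hone p p.2
    _ = ∫⁻ y in ⋃ p ∈ S, gsq t p.1 p.2, φ y ∂μ := by
        rw [lintegral_biUnion hSc (fun p _ => measurableSet_gsq t p.1 p.2) hdisj]
    _ ≤ ∫⁻ y, φ y ∂μ := setLIntegral_le_lintegral _ _

private theorem edoob_weak' (μ : Measure ℂ) (t : Bool × Bool) (φ : ℂ → ENNReal) (hφ : Measurable φ)
    (c : ENNReal) : c * μ {x | 2 * c < Md μ t φ x} ≤ ∫⁻ y, {y | c < φ y}.indicator φ y ∂μ := by
  have hmeas : MeasurableSet {y | c < φ y} := measurableSet_lt measurable_const hφ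
  have hle : ∀ x, Md μ t φ x ≤ Md μ t ({y | c < φ y}.indicator φ) x + c := by
    intro x
    unfold Md
    refine iSup₂_le fun k m => ?_
    by_cases hx : x ∈ gsq t k m
    · rw [Set.indicator_of_mem hx]
      have h1 : ∫⁻ y in gsq t k m, φ y ∂μ ≤
          (∫⁻ y in gsq t k m, {y | c < φ y}.indicator φ y ∂μ) + c * μ (gsq t k m) := by
        calc ∫⁻ y in gsq t k m, φ y ∂μ
            ≤ ∫⁻ y in gsq t k m, ({y | c < φ y}.indicator φ y + c) ∂μ := by
              apply lintegral_mono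
              intro y
              by_cases hy : c < φ y
              · simp only [Set.indicator_of_mem (show y ∈ {y | c < φ y} from hy)]
                exact le_self_add
              · simp only [Set.indicator_of_notMem (show y ∉ {y | c < φ y} from hy), zero_add]
                exact not_lt.1 hy
          _ = _ := by
              rw [lintegral_add_right _ measurable_const]
              simp
      calc (μ (gsq t k m))⁻¹ * ∫⁻ y in gsq t k m, φ y ∂μ
          ≤ (μ (gsq t k m))⁻¹ * ((∫⁻ y in gsq t k m, {y | c < φ y}.indicator φ y ∂μ) +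
              c * μ (gsq t k m)) := by gcongr
        _ = (μ (gsq t k m))⁻¹ * (∫⁻ y in gsq t k m, {y | c < φ y}.indicator φ y ∂μ) +
              ((μ (gsq t k m))⁻¹ * μ (gsq t k m)) * c := by ring
        _ ≤ Md μ t ({y | c < φ y}.indicator φ) x + 1 * c := by
            gcongr
            · exact le_Md μ t _ k m x hx
            · exact ENNReal.inv_mul_le_one _
        _ = _ := by rw [one_mul]; rfl
    · rw [Set.indicator_of_notMem hx]
      exact bot_le
  refine le_trans ?_ (Md_weak μ t ({y | c < φ y}.indicator φ) (hφ.indicator hmeas) c)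
  gcongr 1
  apply measure_mono
  intro x hx
  simp only [Set.mem_ofPred_eq] at hx ⊢
  by_contra hlt
  push Not at hlt
  have := (hle x).trans (add_le_add_left hlt c)
  rw [← two_mul] at this
  exact absurd hx (not_lt.2 this)

theorem Md_strong (μ : Measure ℂ) [SFinite μ] (t : Bool × Bool) (φ : ℂ → ENNReal)
    (hφ : Measurable φ) (s : ℝ) (hs : 1 < s) :
    ∫⁻ x, Md μ t φ x ^ s ∂μ ≤ ENNReal.ofReal (2 ^ s * s / (s - 1)) * ∫⁻ x, φ x ^ s ∂μ := by
  have hs0 : 0 < s := by linarith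
  have hs1 : 0 < s - 1 := by linarith
  have hMm := measurable_Md μ t φ
  have hw : ∀ a : ℝ, 0 < a → ENNReal.ofReal (a ^ (s - 1)) * μ {x | ENNReal.ofReal a < Md μ t φ x} ≤
      ENNReal.ofReal (a ^ (s - 1 - 1)) * (2 * ∫⁻ y, {y | ENNReal.ofReal a < 2 * φ y}.indicator φ y ∂μ) := by
    intro a ha
    have h1 := edoob_weak' μ t φ hφ (ENNReal.ofReal (a / 2))
    have h2 : 2 * ENNReal.ofReal (a / 2) = ENNReal.ofReal a := by
      rw [show (2 : ENNReal) = ENNReal.ofReal 2 by simp, ← ENNReal.ofReal_mul (by norm_num)]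
      congr 1
      ring
    have h3 : {y | ENNReal.ofReal (a / 2) < φ y} = {y | ENNReal.ofReal a < 2 * φ y} := by
      ext y
      simp only [Set.mem_ofPred_eq]
      rw [← h2]
      exact (ENNReal.mul_lt_mul_iff_right (by norm_num) (by norm_num)).symm
    rw [h2, h3] at h1
    have h4 : ENNReal.ofReal (a ^ (s - 1)) = ENNReal.ofReal (a ^ (s - 1 - 1)) * (2 * ENNReal.ofReal (a / 2)) := by
      rw [h2, ← ENNReal.ofReal_mul (by positivity)]
      congr 1
      rw [← Real.rpow_add_one ha.ne']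
      congr 1
      ring
    rw [h4]
    calc ENNReal.ofReal (a ^ (s - 1 - 1)) * (2 * ENNReal.ofReal (a / 2)) * μ {x | ENNReal.ofReal a < Md μ t φ x}
        = ENNReal.ofReal (a ^ (s - 1 - 1)) * (2 * (ENNReal.ofReal (a / 2) *
            μ {x | ENNReal.ofReal a < Md μ t φ x})) := by ring
      _ ≤ _ := by gcongr
  -- the two joint measurability facts
  have hJ1 : Measurable (fun p : ℂ × ℝ => {q : ℂ × ℝ | ENNReal.ofReal q.2 < Md μ t φ q.1}.indicator
      (fun q => ENNReal.ofReal (q.2 ^ (s - 1))) p) := by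
    apply Measurable.indicator
    · exact ENNReal.measurable_ofReal.comp (measurable_snd.pow_const _)
    · exact measurableSet_lt (ENNReal.measurable_ofReal.comp measurable_snd) (hMm.comp measurable_fst)
  have hJ2 : Measurable (fun p : ℂ × ℝ => {q : ℂ × ℝ | ENNReal.ofReal q.2 < 2 * φ q.1}.indicator
      (fun q => φ q.1 * ENNReal.ofReal (q.2 ^ (s - 1 - 1))) p) := by
    apply Measurable.indicator
    · exact (hφ.comp measurable_fst).mul (ENNReal.measurable_ofReal.comp (measurable_snd.pow_const _))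
    · exact measurableSet_lt (ENNReal.measurable_ofReal.comp measurable_snd)
        ((hφ.comp measurable_fst).const_mul 2)
  have e1 : ENNReal.ofReal (1 / s) * ∫⁻ x, Md μ t φ x ^ s ∂μ =
      ∫⁻ a in Set.Ioi (0 : ℝ), ENNReal.ofReal (a ^ (s - 1)) * μ {x | ENNReal.ofReal a < Md μ t φ x} := by
    rw [← lintegral_const_mul _ (hMm.pow_const s)]
    calc ∫⁻ x, ENNReal.ofReal (1 / s) * Md μ t φ x ^ s ∂μ
        = ∫⁻ x, (∫⁻ a in Set.Ioi (0 : ℝ), {q : ℂ × ℝ | ENNReal.ofReal q.2 < Md μ t φ q.1}.indicator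
            (fun q => ENNReal.ofReal (q.2 ^ (s - 1))) (x, a)) ∂μ := by
          apply lintegral_congr
          intro x
          rw [← edoob_layer _ hs0]
          rfl
      _ = ∫⁻ a in Set.Ioi (0 : ℝ), (∫⁻ x, {q : ℂ × ℝ | ENNReal.ofReal q.2 < Md μ t φ q.1}.indicator
            (fun q => ENNReal.ofReal (q.2 ^ (s - 1))) (x, a) ∂μ) := by
          rw [lintegral_lintegral_swap]
          exact hJ1.aemeasurable
      _ = _ := by
          apply lintegral_congr
          intro a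
          have : ∀ x, {q : ℂ × ℝ | ENNReal.ofReal q.2 < Md μ t φ q.1}.indicator
            (fun q => ENNReal.ofReal (q.2 ^ (s - 1))) (x, a) =
            {x | ENNReal.ofReal a < Md μ t φ x}.indicator (fun _ => ENNReal.ofReal (a ^ (s - 1))) x :=
            fun x => rfl
          simp only [this]
          rw [lintegral_indicator_const (measurableSet_lt measurable_const hMm)]
  have e2 : ∫⁻ a in Set.Ioi (0 : ℝ), ENNReal.ofReal (a ^ (s - 1 - 1)) *
      (2 * ∫⁻ y, {y | ENNReal.ofReal a < 2 * φ y}.indicator φ y ∂μ) =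
      ENNReal.ofReal (2 ^ s / (s - 1)) * ∫⁻ x, φ x ^ s ∂μ := by
    calc ∫⁻ a in Set.Ioi (0 : ℝ), ENNReal.ofReal (a ^ (s - 1 - 1)) *
          (2 * ∫⁻ y, {y | ENNReal.ofReal a < 2 * φ y}.indicator φ y ∂μ)
        = ∫⁻ a in Set.Ioi (0 : ℝ), 2 * (∫⁻ y, {q : ℂ × ℝ | ENNReal.ofReal q.2 < 2 * φ q.1}.indicator
            (fun q => φ q.1 * ENNReal.ofReal (q.2 ^ (s - 1 - 1))) (y, a) ∂μ) := by
          apply lintegral_congr
          intro a
          have hm2 : Measurable (fun y => {y | ENNReal.ofReal a < 2 * φ y}.indicator φ y) :=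
            hφ.indicator (measurableSet_lt measurable_const (hφ.const_mul 2))
          have : ∀ y, {q : ℂ × ℝ | ENNReal.ofReal q.2 < 2 * φ q.1}.indicator
            (fun q => φ q.1 * ENNReal.ofReal (q.2 ^ (s - 1 - 1))) (y, a) =
            ENNReal.ofReal (a ^ (s - 1 - 1)) * {y | ENNReal.ofReal a < 2 * φ y}.indicator φ y := by
            intro y
            by_cases hy : ENNReal.ofReal a < 2 * φ y
            · rw [Set.indicator_of_mem (show (y, a) ∈ {q : ℂ × ℝ | ENNReal.ofReal q.2 < 2 * φ q.1} from hy),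
                Set.indicator_of_mem (show y ∈ {y | ENNReal.ofReal a < 2 * φ y} from hy), mul_comm]
            · rw [Set.indicator_of_notMem (show (y, a) ∉ {q : ℂ × ℝ | ENNReal.ofReal q.2 < 2 * φ q.1} from hy),
                Set.indicator_of_notMem (show y ∉ {y | ENNReal.ofReal a < 2 * φ y} from hy), mul_zero]
          simp only [this]
          rw [lintegral_const_mul _ hm2]
          ring
      _ = 2 * ∫⁻ a in Set.Ioi (0 : ℝ), (∫⁻ y, {q : ℂ × ℝ | ENNReal.ofReal q.2 < 2 * φ q.1}.indicator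
            (fun q => φ q.1 * ENNReal.ofReal (q.2 ^ (s - 1 - 1))) (y, a) ∂μ) := by
          rw [lintegral_const_mul]
          exact hJ2.lintegral_prod_left'
      _ = 2 * ∫⁻ y, (∫⁻ a in Set.Ioi (0 : ℝ), {q : ℂ × ℝ | ENNReal.ofReal q.2 < 2 * φ q.1}.indicator
            (fun q => φ q.1 * ENNReal.ofReal (q.2 ^ (s - 1 - 1))) (y, a)) ∂μ := by
          congr 1
          rw [lintegral_lintegral_swap]
          exact (hJ2.comp measurable_swap).aemeasurable
      _ = 2 * ∫⁻ y, ENNReal.ofReal (2 ^ (s - 1) / (s - 1)) * φ y ^ s ∂μ := by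
          congr 1
          apply lintegral_congr
          intro y
          have hm3 : Measurable (fun a : ℝ => {a : ℝ | ENNReal.ofReal a < 2 * φ y}.indicator
              (fun a => ENNReal.ofReal (a ^ (s - 1 - 1))) a) := by
            apply Measurable.indicator
            · exact ENNReal.measurable_ofReal.comp (measurable_id.pow_const _)
            · exact measurableSet_lt ENNReal.measurable_ofReal measurable_const
          have : ∀ a : ℝ, {q : ℂ × ℝ | ENNReal.ofReal q.2 < 2 * φ q.1}.indicator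
            (fun q => φ q.1 * ENNReal.ofReal (q.2 ^ (s - 1 - 1))) (y, a) =
            φ y * {a : ℝ | ENNReal.ofReal a < 2 * φ y}.indicator
              (fun a => ENNReal.ofReal (a ^ (s - 1 - 1))) a := by
            intro a
            by_cases hy : ENNReal.ofReal a < 2 * φ y
            · rw [Set.indicator_of_mem (show (y, a) ∈ {q : ℂ × ℝ | ENNReal.ofReal q.2 < 2 * φ q.1} from hy),
                Set.indicator_of_mem (show a ∈ {a : ℝ | ENNReal.ofReal a < 2 * φ y} from hy)]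
            · rw [Set.indicator_of_notMem (show (y, a) ∉ {q : ℂ × ℝ | ENNReal.ofReal q.2 < 2 * φ q.1} from hy),
                Set.indicator_of_notMem (show a ∉ {a : ℝ | ENNReal.ofReal a < 2 * φ y} from hy), mul_zero]
          simp only [this]
          rw [lintegral_const_mul _ hm3, edoob_layer _ hs1]
          rw [ENNReal.mul_rpow_of_nonneg _ _ hs1.le]
          have h5 : φ y * φ y ^ (s - 1) = φ y ^ s := by
            rcases eq_or_ne (φ y) 0 with h0 | h0
            · rw [h0, zero_mul, ENNReal.zero_rpow_of_pos hs0]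
            · rcases eq_or_ne (φ y) ⊤ with ht | ht
              · rw [ht, ENNReal.top_rpow_of_pos hs1, ENNReal.top_rpow_of_pos hs0, ENNReal.top_mul_top]
              · conv_lhs => rw [← ENNReal.rpow_one (φ y), ← ENNReal.rpow_mul, one_mul]
                rw [← ENNReal.rpow_add _ _ h0 ht]
                congr 1
                ring
          have h6 : (2 : ENNReal) ^ (s - 1) = ENNReal.ofReal (2 ^ (s - 1)) := by
            rw [show (2 : ENNReal) = ENNReal.ofReal 2 by simp, ENNReal.ofReal_rpow_of_nonneg (by norm_num) hs1.le]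
          calc φ y * (ENNReal.ofReal (1 / (s - 1)) * (2 ^ (s - 1) * φ y ^ (s - 1)))
              = (ENNReal.ofReal (1 / (s - 1)) * 2 ^ (s - 1)) * (φ y * φ y ^ (s - 1)) := by ring
            _ = _ := by
                rw [h5, h6, ← ENNReal.ofReal_mul (by positivity)]
                congr 2
                ring
      _ = _ := by
          rw [lintegral_const_mul _ (hφ.pow_const s), ← mul_assoc]
          congr 1
          rw [show (2 : ENNReal) = ENNReal.ofReal 2 by simp, ← ENNReal.ofReal_mul (by norm_num)]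
          congr 1
          have : (2 : ℝ) ^ s = 2 * 2 ^ (s - 1) := by
            rw [← Real.rpow_one_add' (by norm_num) (by linarith)]
            congr 1
            ring
          rw [this]
          ring
  have e3 : ENNReal.ofReal (1 / s) * ∫⁻ x, Md μ t φ x ^ s ∂μ ≤
      ENNReal.ofReal (2 ^ s / (s - 1)) * ∫⁻ x, φ x ^ s ∂μ := by
    rw [e1, ← e2]
    refine setLIntegral_mono' measurableSet_Ioi ?_
    intro a ha
    exact hw a ha
  calc ∫⁻ x, Md μ t φ x ^ s ∂μ = ENNReal.ofReal s * (ENNReal.ofReal (1 / s) * ∫⁻ x, Md μ t φ x ^ s ∂μ) := by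
        rw [← mul_assoc, ← ENNReal.ofReal_mul hs0.le, mul_one_div_cancel hs0.ne']
        simp
    _ ≤ ENNReal.ofReal s * (ENNReal.ofReal (2 ^ s / (s - 1)) * ∫⁻ x, φ x ^ s ∂μ) := by gcongr
    _ = _ := by
        rw [← mul_assoc, ← ENNReal.ofReal_mul hs0.le]
        congr 2
        ring

/-- countable subadditivity -/
theorem Md_tsum_le (μ : Measure ℂ) (t : Bool × Bool) (φ : ℕ → ℂ → ENNReal)
    (hφ : ∀ j, Measurable (φ j)) (x : ℂ) :
    Md μ t (fun y => ∑' j, φ j y) x ≤ ∑' j, Md μ t (φ j) x := by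
  conv_lhs => unfold Md
  refine iSup₂_le fun k m => ?_
  by_cases hx : x ∈ gsq t k m
  · rw [Set.indicator_of_mem hx, lintegral_tsum (fun j => (hφ j).aemeasurable),
      ← ENNReal.tsum_mul_left]
    exact ENNReal.tsum_le_tsum fun j => le_Md μ t (φ j) k m x hx
  · rw [Set.indicator_of_notMem hx]
    exact bot_le

theorem Md_mul (μ : Measure ℂ) (t : Bool × Bool) (φ : ℂ → ENNReal) (hφ : Measurable φ) (c : ENNReal)
    (x : ℂ) : Md μ t (fun y => c * φ y) x = c * Md μ t φ x := by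
  unfold Md
  simp only [ENNReal.mul_iSup]
  refine iSup_congr fun k => iSup_congr fun m => ?_
  by_cases hx : x ∈ gsq t k m
  · rw [Set.indicator_of_mem hx, Set.indicator_of_mem hx, lintegral_const_mul _ hφ]
    ring
  · rw [Set.indicator_of_notMem hx, Set.indicator_of_notMem hx, mul_zero]

end Pool.MP_75bf3e_an.BT
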