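import Pool.Agent.Lib_MP_75bf3e.Sq

/-!
# Piece EGRID: the four dyadic grids of the one third trick

`off false k = 0`, `off true k = (-1)^k 2^k/3`.  `gsq t k m` is the square of side `2^k` with corner
`(m.1 2^k + off t.1 k, m.2 2^k + off t.2 k)`.

* `exists_gsq`: floor function in each coordinate.
* `gsq_nested`: in one coordinate, with `e = (-1)^k = ±1`: `off true (k+1) = - e 2^(k+1)/3 = e 2^k/3 - e 2^k`, so the
  endpoints of the intervals of scale `k+1` are endpoints of intervals of scale `k` (for both values of `t`); hence an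
  interval of scale `k` lies in exactly one interval of scale `k+1`.  `gsq_mono` by induction.
* `gsq_disj`: two squares of the same grid and the same scale are equal or disjoint.
* `exists_cover`: an interval `[a, a+l)`, `l = 2^k`, cannot contain in its interior both an endpoint of the grid `false`
  of scale `k+2` (multiples of `4l`) and one of the grid `true` (`4 l m ± 4l/3`), because two such points have distance
  `≥ 4l/3 > l`.  So it lies in an interval of scale `k+2` of one of the two grids; do this in both coordinates.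
-/

set_option autoImplicit false

open MeasureTheory

namespace Pool.MP_75bf3e_an.BT

noncomputable def off (t : Bool) (k : ℤ) : ℝ := if t then (-1 : ℝ) ^ k * (2 : ℝ) ^ k / 3 else 0

noncomputable def gcor (t : Bool × Bool) (k : ℤ) (m : ℤ × ℤ) : ℂ :=
  ⟨m.1 * (2 : ℝ) ^ k + off t.1 k, m.2 * (2 : ℝ) ^ k + off t.2 k⟩

noncomputable def gsq (t : Bool × Bool) (k : ℤ) (m : ℤ × ℤ) : Set ℂ := sq (gcor t k m) ((2 : ℝ) ^ k)

theorem two_zpow_pos (k : ℤ) : (0 : ℝ) < (2 : ℝ) ^ k := zpow_pos (by norm_num) k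

theorem neg_one_zpow_cases (k : ℤ) : (-1 : ℝ) ^ k = 1 ∨ (-1 : ℝ) ^ k = -1 := by
  rcases Int.even_or_odd k with h | h
  · exact Or.inl h.neg_one_zpow
  · exact Or.inr h.neg_one_zpow

theorem one_exists (t : Bool) (k : ℤ) (x : ℝ) : ∃ m : ℤ, (m : ℝ) * (2 : ℝ) ^ k + off t k ≤ x ∧
    x < (m : ℝ) * (2 : ℝ) ^ k + off t k + (2 : ℝ) ^ k := by
  have hw := two_zpow_pos k
  refine ⟨⌊(x - off t k) / (2 : ℝ) ^ k⌋, ?_, ?_⟩
  · have h := Int.floor_le ((x - off t k) / (2 : ℝ) ^ k)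
    rw [le_div_iff₀ hw] at h
    linarith
  · have h := Int.lt_floor_add_one ((x - off t k) / (2 : ℝ) ^ k)
    rw [div_lt_iff₀ hw] at h
    linarith

theorem one_unique {w o x : ℝ} (hw : 0 < w) {m m' : ℤ} (h1 : (m : ℝ) * w + o ≤ x)
    (h2 : x < (m : ℝ) * w + o + w) (h1' : (m' : ℝ) * w + o ≤ x) (h2' : x < (m' : ℝ) * w + o + w) :
    m = m' := by
  have a1 : (m : ℝ) < (m' : ℝ) + 1 := by
    have : (m : ℝ) * w < ((m' : ℝ) + 1) * w := by linarith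
    exact lt_of_mul_lt_mul_right this hw.le
  have a2 : (m' : ℝ) < (m : ℝ) + 1 := by
    have : (m' : ℝ) * w < ((m : ℝ) + 1) * w := by linarith
    exact lt_of_mul_lt_mul_right this hw.le
  have b1 : m < m' + 1 := by exact_mod_cast a1
  have b2 : m' < m + 1 := by exact_mod_cast a2
  omega

theorem off_succ (t : Bool) (k : ℤ) : ∃ s : ℤ, off t (k + 1) = off t k - s * (2 : ℝ) ^ k := by
  cases t with
  | false => exact ⟨0, by simp [off]⟩
  | true =>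
    have e1 : (-1 : ℝ) ^ (k + 1) = -(-1 : ℝ) ^ k := by
      rw [zpow_add_one₀ (by norm_num)]; ring
    have e2 : (2 : ℝ) ^ (k + 1) = (2 : ℝ) ^ k * 2 := zpow_add_one₀ (by norm_num) k
    rcases neg_one_zpow_cases k with h | h
    · refine ⟨1, ?_⟩
      simp only [off, if_true, e1, e2, h]
      push_cast
      ring
    · refine ⟨-1, ?_⟩
      simp only [off, if_true, e1, e2, h]
      push_cast
      ring

theorem one_nested (t : Bool) (k : ℤ) (m : ℤ) : ∃ m' : ℤ, ∀ x : ℝ,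
    (m : ℝ) * (2 : ℝ) ^ k + off t k ≤ x → x < (m : ℝ) * (2 : ℝ) ^ k + off t k + (2 : ℝ) ^ k →
    (m' : ℝ) * (2 : ℝ) ^ (k + 1) + off t (k + 1) ≤ x ∧
    x < (m' : ℝ) * (2 : ℝ) ^ (k + 1) + off t (k + 1) + (2 : ℝ) ^ (k + 1) := by
  have hw := two_zpow_pos k
  have e2 : (2 : ℝ) ^ (k + 1) = (2 : ℝ) ^ k * 2 := zpow_add_one₀ (by norm_num) k
  obtain ⟨s, hs⟩ := off_succ t k
  refine ⟨(m + s) / 2, fun x h1 h2 => ?_⟩
  have c1 : 2 * ((m + s) / 2) ≤ m + s := by omega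
  have c2 : m + s ≤ 2 * ((m + s) / 2) + 1 := by omega
  generalize (m + s) / 2 = n at c1 c2 ⊢
  have d1 : 2 * (n : ℝ) ≤ (m : ℝ) + s := by exact_mod_cast c1
  have d2 : (m : ℝ) + s ≤ 2 * (n : ℝ) + 1 := by exact_mod_cast c2
  rw [hs, e2]
  generalize (2 : ℝ) ^ k = w at hw h1 h2 ⊢
  generalize off t k = o at h1 h2 ⊢
  constructor
  · nlinarith [mul_le_mul_of_nonneg_right d1 hw.le]
  · nlinarith [mul_le_mul_of_nonneg_right d2 hw.le]

theorem one_cover (k : ℤ) (a : ℝ) : ∃ (t : Bool) (m : ℤ),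
    (m : ℝ) * (2 : ℝ) ^ (k + 2) + off t (k + 2) ≤ a ∧
    a + (2 : ℝ) ^ k ≤ (m : ℝ) * (2 : ℝ) ^ (k + 2) + off t (k + 2) + (2 : ℝ) ^ (k + 2) := by
  have hw := two_zpow_pos k
  have e2 : (2 : ℝ) ^ (k + 2) = (2 : ℝ) ^ k * 4 := by
    rw [zpow_add₀ (by norm_num)]; norm_num
  obtain ⟨m, h1, h2⟩ := one_exists false (k + 2) a
  have o0 : off false (k + 2) = 0 := by simp [off]
  rw [o0, e2] at h1 h2
  by_cases hc : a + (2 : ℝ) ^ k ≤ (m : ℝ) * ((2 : ℝ) ^ k * 4) + 0 + (2 : ℝ) ^ k * 4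
  · refine ⟨false, m, ?_, ?_⟩
    · rw [o0, e2]; exact h1
    · rw [o0, e2]; exact hc
  · push Not at hc
    have ot : off true (k + 2) = (-1 : ℝ) ^ (k + 2) * ((2 : ℝ) ^ k * 4) / 3 := by
      simp only [off, if_true, e2]
    rcases neg_one_zpow_cases (k + 2) with h | h
    · refine ⟨true, m, ?_, ?_⟩
      · rw [ot, e2, h]; linarith
      · rw [ot, e2, h]; linarith
    · refine ⟨true, m + 1, ?_, ?_⟩
      · rw [ot, e2, h]; push_cast; linarith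
      · rw [ot, e2, h]; push_cast; linarith

theorem mem_gsq_iff (t : Bool × Bool) (k : ℤ) (m : ℤ × ℤ) (z : ℂ) : z ∈ gsq t k m ↔
    ((m.1 : ℝ) * (2 : ℝ) ^ k + off t.1 k ≤ z.re ∧
      z.re < (m.1 : ℝ) * (2 : ℝ) ^ k + off t.1 k + (2 : ℝ) ^ k) ∧
    ((m.2 : ℝ) * (2 : ℝ) ^ k + off t.2 k ≤ z.im ∧
      z.im < (m.2 : ℝ) * (2 : ℝ) ^ k + off t.2 k + (2 : ℝ) ^ k) := by
  simp only [gsq, sq, gcor, Set.mem_ofPred_eq, and_assoc]

theorem measurableSet_gsq (t : Bool × Bool) (k : ℤ) (m : ℤ × ℤ) : MeasurableSet (gsq t k m) :=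
  measurableSet_sq _ _

theorem exists_gsq (t : Bool × Bool) (k : ℤ) (x : ℂ) : ∃ m, x ∈ gsq t k m := by
  obtain ⟨m1, h1⟩ := one_exists t.1 k x.re
  obtain ⟨m2, h2⟩ := one_exists t.2 k x.im
  exact ⟨(m1, m2), (mem_gsq_iff t k (m1, m2) x).2 ⟨h1, h2⟩⟩

theorem gsq_disj (t : Bool × Bool) (k : ℤ) (m m' : ℤ × ℤ) (x : ℂ) (h : x ∈ gsq t k m)
    (h' : x ∈ gsq t k m') : m = m' := by
  rw [mem_gsq_iff] at h h'
  exact Prod.ext (one_unique (two_zpow_pos k) h.1.1 h.1.2 h'.1.1 h'.1.2)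
    (one_unique (two_zpow_pos k) h.2.1 h.2.2 h'.2.1 h'.2.2)

theorem gsq_nested (t : Bool × Bool) (k : ℤ) (m : ℤ × ℤ) : ∃ m', gsq t k m ⊆ gsq t (k + 1) m' := by
  obtain ⟨m1, h1⟩ := one_nested t.1 k m.1
  obtain ⟨m2, h2⟩ := one_nested t.2 k m.2
  refine ⟨(m1, m2), fun z hz => ?_⟩
  rw [mem_gsq_iff] at hz ⊢
  exact ⟨h1 _ hz.1.1 hz.1.2, h2 _ hz.2.1 hz.2.2⟩

theorem gsq_mono_nat (t : Bool × Bool) (k : ℤ) (m : ℤ × ℤ) (x : ℂ) (h : x ∈ gsq t k m) (n : ℕ) :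
    ∀ m', x ∈ gsq t (k + n) m' → gsq t k m ⊆ gsq t (k + n) m' := by
  induction n with
  | zero =>
    intro m' h'
    have e : k + ((0 : ℕ) : ℤ) = k := by simp
    rw [e] at h' ⊢
    rw [gsq_disj t k m m' x h h']
  | succ n ih =>
    intro m' h'
    obtain ⟨m1, hm1⟩ := exists_gsq t (k + n) x
    obtain ⟨m2, hm2⟩ := gsq_nested t (k + n) m1
    have e : k + ((n + 1 : ℕ) : ℤ) = k + n + 1 := by push_cast; ring
    rw [e] at h' ⊢
    have h3 : m2 = m' := gsq_disj t (k + n + 1) m2 m' x (hm2 hm1) h'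
    rw [← h3]
    exact (ih m1 hm1).trans hm2

theorem gsq_mono (t : Bool × Bool) (k k' : ℤ) (hk : k ≤ k') (m m' : ℤ × ℤ) (x : ℂ)
    (h : x ∈ gsq t k m) (h' : x ∈ gsq t k' m') : gsq t k m ⊆ gsq t k' m' := by
  obtain ⟨n, hn⟩ := Int.le.dest hk
  subst hn
  exact gsq_mono_nat t k m x h n m' h'

theorem exists_cover (c : ℂ) (k : ℤ) :
    ∃ (t : Bool × Bool) (m : ℤ × ℤ), sq c ((2 : ℝ) ^ k) ⊆ gsq t (k + 2) m := by
  obtain ⟨t1, m1, a1, b1⟩ := one_cover k c.re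
  obtain ⟨t2, m2, a2, b2⟩ := one_cover k c.im
  refine ⟨(t1, t2), (m1, m2), fun z hz => ?_⟩
  rw [mem_gsq_iff]
  simp only [sq, Set.mem_ofPred_eq] at hz
  obtain ⟨h1, h2, h3, h4⟩ := hz
  exact ⟨⟨a1.trans h1, h2.trans_le b1⟩, ⟨a2.trans h3, h4.trans_le b2⟩⟩

end Pool.MP_75bf3e_an.BT
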