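import Pool.Agent.Lib_MP_75bf3e.Four0

/-!
# Piece ESYM: symmetry and duality in `L^p`

`Tn_symm`: `∫ Tn n f * g = ∫ f * Tn n g` for test functions: by Fubini (`fh f`, `g` integrable) the left side is
`∫_ξ (ξ̄/ξ)^n fh f ξ * fh g (-ξ) dξ`; substitute `ξ → -ξ` and use `(conj(-ξ)/(-ξ)) = ξ̄/ξ`.

`dualP`: `p > 1`, `q = p/(p-1)`, `s = w^{-1/(p-1)}`.  If `h` is continuous and
`‖∫ h g‖ ≤ B (∫ |g|^q s)^{1/q}` for all smooth compactly supported real `g`, then `∫⁻ ‖h‖^p w ≤ (2B)^p`.
Same proof as `dual` (Dual.lean): for `u = Re h` or `Im h` and every closed ball `E` we show `∫_E |u|^p w ≤ B^p`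
(then `‖h‖^p ≤ (|Re h| + |Im h|)^p ≤ 2^{p-1}(|Re h|^p + |Im h|^p)`).  Let `g₀ = sign(u)|u|^{p-1} w 1_E`;
`∫ |g₀|^q s = ∫_E |u|^p w^q s = ∫_E |u|^p w < ∞` (`w^q w^{-1/(p-1)} = w`).  The measure `s dz` is locally finite, hence regular:
continuous compactly supported functions are dense in `L^q(s dz)` (`MemLp.exists_hasCompactSupport_eLpNorm_sub_le`), and every
continuous compactly supported function is a uniform limit of smooth functions supported in a fixed compact
neighbourhood of its support (convolution with a `ContDiffBump`); so there are smooth compactly supported `g_j → g₀` in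
`L^q(s dz)`, which (multiplying by a smooth cutoff) may be assumed to be supported in a fixed compact set `E'`.  Then
`|∫ u (g_j - g₀)| ≤ (∫_{E'} |u|^p w)^{1/p} (∫ |g_j - g₀|^q s)^{1/q} → 0` (Hoelder: `u = (u w^{1/p}) w^{-1/p}`,
`w^{-q/p} = w^{-1/(p-1)} = s`).  So `∫_E |u|^p w = ∫ u g₀ ≤ B (∫_E |u|^p w)^{1/q}`, i.e. `∫_E |u|^p w ≤ B^p`.
-/

set_option autoImplicit false

open MeasureTheory
open scoped Convolution

namespace Pool.MP_75bf3e_an.BT

private theorem esym_fub (n : ℤ) (f g : ℂ → ℂ) (hf : ContDiff ℝ ((⊤ : ℕ∞) : WithTop ℕ∞) f)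
    (hfs : HasCompactSupport f) (hg : ContDiff ℝ ((⊤ : ℕ∞) : WithTop ℕ∞) g)
    (hgs : HasCompactSupport g) :
    ∫ x, Tn n f x * g x = ∫ ξ : ℂ, (starRingEnd ℂ ξ / ξ) ^ n * (fh f ξ * fh g (-ξ)) := by
  have ig : Integrable g volume := hg.continuous.integrable_of_hasCompactSupport hgs
  have ifh := integrable_fh f hf hfs
  have hcE : Continuous fun z : ℂ × ℂ => Complex.exp (2 * (Real.pi : ℂ) * Complex.I *
      ((z.2.re * z.1.re + z.2.im * z.1.im : ℝ) : ℂ)) := by
    fun_prop
  have hint : Integrable (Function.uncurry fun (x ξ : ℂ) => Complex.exp (2 * (Real.pi : ℂ) * Complex.I *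
      ((ξ.re * x.re + ξ.im * x.im : ℝ) : ℂ)) * ((starRingEnd ℂ ξ / ξ) ^ n * fh f ξ) * g x)
      ((volume : Measure ℂ).prod (volume : Measure ℂ)) := by
    have hb : Integrable (fun z : ℂ × ℂ => g z.1 * fh f z.2)
        ((volume : Measure ℂ).prod (volume : Measure ℂ)) := ig.mul_prod ifh
    refine hb.mono ?_ ?_
    · have hm : Measurable fun z : ℂ × ℂ => (starRingEnd ℂ z.2 / z.2) ^ n :=
        (measurable_mult n).comp measurable_snd
      have h2 : AEStronglyMeasurable (fun z : ℂ × ℂ => fh f z.2)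
          ((volume : Measure ℂ).prod (volume : Measure ℂ)) :=
        ((continuous_fh f hf hfs).comp continuous_snd).aestronglyMeasurable
      have h3 : AEStronglyMeasurable (fun z : ℂ × ℂ => g z.1)
          ((volume : Measure ℂ).prod (volume : Measure ℂ)) :=
        (hg.continuous.comp continuous_fst).aestronglyMeasurable
      exact (hcE.aestronglyMeasurable.mul (hm.aestronglyMeasurable.mul h2)).mul h3
    · refine Filter.Eventually.of_forall fun z => ?_
      simp only [Function.uncurry]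
      rw [norm_mul, norm_mul (g z.1), mul_comm ‖g z.1‖]
      exact mul_le_mul_of_nonneg_right (norm_integrand_le n f z.1 z.2) (norm_nonneg _)
  have h1 : ∀ x, Tn n f x * g x = ∫ ξ : ℂ, Complex.exp (2 * (Real.pi : ℂ) * Complex.I *
      ((ξ.re * x.re + ξ.im * x.im : ℝ) : ℂ)) * ((starRingEnd ℂ ξ / ξ) ^ n * fh f ξ) * g x := by
    intro x
    rw [integral_mul_const, ← Tn_eq_fh]
  simp_rw [h1]
  rw [integral_integral_swap hint]
  refine integral_congr_ae (Filter.Eventually.of_forall fun ξ => ?_)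
  simp only
  have h2 : fh g (-ξ) = ∫ x : ℂ, Complex.exp (2 * (Real.pi : ℂ) * Complex.I *
      ((ξ.re * x.re + ξ.im * x.im : ℝ) : ℂ)) * g x := by
    unfold fh
    refine integral_congr_ae (Filter.Eventually.of_forall fun x => ?_)
    simp only [Complex.neg_re, Complex.neg_im]
    congr 2
    push_cast
    ring
  rw [h2, ← integral_const_mul, ← integral_const_mul]
  refine integral_congr_ae (Filter.Eventually.of_forall fun x => ?_)
  simp only
  ring

theorem Tn_symm (n : ℤ) (f g : ℂ → ℂ) (hf : ContDiff ℝ ((⊤ : ℕ∞) : WithTop ℕ∞) f)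
    (hfs : HasCompactSupport f) (hg : ContDiff ℝ ((⊤ : ℕ∞) : WithTop ℕ∞) g)
    (hgs : HasCompactSupport g) : ∫ x, Tn n f x * g x = ∫ x, f x * Tn n g x := by
  rw [esym_fub n f g hf hfs hg hgs]
  have h1 : ∫ x, f x * Tn n g x = ∫ x, Tn n g x * f x :=
    integral_congr_ae (Filter.Eventually.of_forall fun x => mul_comm _ _)
  rw [h1, esym_fub n g f hg hgs hf hfs, ← integral_neg_eq_self]
  refine integral_congr_ae (Filter.Eventually.of_forall fun ξ => ?_)
  simp only [map_neg, neg_div_neg_eq, neg_neg]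
  ring

/-- smoothing -/
private theorem esym_smooth (G : ℂ → ℝ) (hG : Continuous G) (hGs : HasCompactSupport G) (R : ℝ)
    (hR : ∀ z, z ∉ Metric.closedBall (0 : ℂ) R → G z = 0) (η : ℝ) (hη : 0 < η) :
    ∃ g : ℂ → ℝ, ContDiff ℝ ((⊤ : ℕ∞) : WithTop ℕ∞) g ∧ HasCompactSupport g ∧
      (∀ z, |G z - g z| ≤ η) ∧ ∀ z, z ∉ Metric.closedBall (0 : ℂ) (R + 1) → g z = 0 := by
  have huc : UniformContinuous G := hGs.uniformContinuous_of_continuous hG
  rw [Metric.uniformContinuous_iff] at huc
  obtain ⟨δ, hδ, hδ2⟩ := huc η hη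
  set r : ℝ := min δ 1 with hr
  have hr0 : 0 < r := lt_min hδ one_pos
  let φ : ContDiffBump (0 : ℂ) := ⟨r / 2, r, by positivity, by linarith⟩
  refine ⟨(φ.normed volume) ⋆[ContinuousLinearMap.lsmul ℝ ℝ, volume] G, ?_, ?_, ?_, ?_⟩
  · exact φ.hasCompactSupport_normed.contDiff_convolution_left _ φ.contDiff_normed
      hG.locallyIntegrable
  · exact φ.hasCompactSupport_normed.convolution _ hGs
  · intro z
    have h1 := φ.dist_normed_convolution_le (μ := (volume : Measure ℂ)) (g := G) (x₀ := z) (ε := η)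
      hG.aestronglyMeasurable (by
        intro x hx
        have hx' : dist x z < r := hx
        exact (hδ2 (hx'.trans_le (min_le_left _ _))).le)
    rw [Real.dist_eq, abs_sub_comm] at h1
    exact h1
  · intro z hz
    rw [mem_closedBall_zero_iff, not_le] at hz
    have hGz : G z = 0 := hR z (by rw [mem_closedBall_zero_iff, not_le]; linarith)
    have h1 := φ.dist_normed_convolution_le (μ := (volume : Measure ℂ)) (g := G) (x₀ := z) (ε := 0)
      hG.aestronglyMeasurable (by
        intro x hx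
        have hx' : dist x z < r := hx
        have hr1 : r ≤ 1 := min_le_right _ _
        have hGx : G x = 0 := by
          apply hR
          rw [mem_closedBall_zero_iff, not_le]
          have h2 : ‖z‖ ≤ ‖x‖ + dist x z := by
            rw [dist_eq_norm, norm_sub_rev]
            calc ‖z‖ = ‖x + (z - x)‖ := by congr 1; ring
              _ ≤ ‖x‖ + ‖z - x‖ := norm_add_le _ _
          linarith
        rw [hGx, hGz, dist_self])
    have h3 := dist_le_zero.1 h1
    rw [h3, hGz]

private noncomputable def ecut (N : ℕ) (z : ℂ) : ℝ := max 0 (min 1 ((N : ℝ) + 1 - ‖z‖))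

private theorem ecut_cont (N : ℕ) : Continuous (ecut N) := by
  unfold ecut
  fun_prop

private theorem ecut_nonneg (N : ℕ) (z : ℂ) : 0 ≤ ecut N z := le_max_left _ _

private theorem ecut_le_one (N : ℕ) (z : ℂ) : ecut N z ≤ 1 :=
  max_le (by norm_num) (min_le_left _ _)

private theorem ecut_one (N : ℕ) (z : ℂ) (h : z ∈ Metric.closedBall (0 : ℂ) N) : ecut N z = 1 := by
  unfold ecut
  rw [mem_closedBall_zero_iff] at h
  rw [min_eq_left (by linarith), max_eq_right (by norm_num)]

private theorem ecut_zero (N : ℕ) (z : ℂ) (h : z ∉ Metric.closedBall (0 : ℂ) ((N : ℝ) + 1)) :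
    ecut N z = 0 := by
  unfold ecut
  rw [mem_closedBall_zero_iff, not_le] at h
  exact max_eq_left ((min_le_right _ _).trans (by linarith))

private theorem esym_approx (q : ENNReal) (hq0 : q ≠ 0) (hq : q ≠ ⊤) (μ : Measure ℂ) [IsLocallyFiniteMeasure μ]
    (N : ℕ) (g0 : ℂ → ℝ) (hg0 : MemLp g0 q μ)
    (hs : ∀ z, z ∉ Metric.closedBall (0 : ℂ) (N : ℝ) → g0 z = 0) (hq1 : 1 ≤ q) (ε : ℝ) (hε : 0 < ε) :
    ∃ g : ℂ → ℝ, ContDiff ℝ ((⊤ : ℕ∞) : WithTop ℕ∞) g ∧ HasCompactSupport g ∧
      (∀ z, z ∉ Metric.closedBall (0 : ℂ) ((N : ℝ) + 2) → g z = 0) ∧ MemLp g q μ ∧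
      eLpNorm (g0 - g) q μ ≤ ENNReal.ofReal ε := by
  obtain ⟨g1, g1s, g1n, g1c, g1m⟩ := hg0.exists_hasCompactSupport_eLpNorm_sub_le hq
    (ε := ENNReal.ofReal (ε / 2)) (by simpa using (by positivity : (0 : ℝ) < ε / 2))
  have hGc : Continuous (fun z => ecut N z * g1 z) := (ecut_cont N).mul g1c
  have hGs : HasCompactSupport (fun z => ecut N z * g1 z) := g1s.mul_left
  have hm : μ (Metric.closedBall (0 : ℂ) ((N : ℝ) + 2)) < ⊤ :=
    (isCompact_closedBall (0 : ℂ) ((N : ℝ) + 2)).measure_lt_top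
  set m : ENNReal := μ (Metric.closedBall (0 : ℂ) ((N : ℝ) + 2)) ^ q.toReal⁻¹ with hmdef
  have hm' : m ≠ ⊤ := by
    rw [hmdef]
    exact (ENNReal.rpow_lt_top_of_nonneg (by positivity) hm.ne).ne
  have hmr0 : 0 ≤ m.toReal := ENNReal.toReal_nonneg
  obtain ⟨g, gd, gs, gη, gz⟩ := esym_smooth _ hGc hGs ((N : ℝ) + 1)
    (fun z hz => by rw [ecut_zero N z hz, zero_mul]) (ε / (2 * (m.toReal + 1))) (by positivity)
  have gz' : ∀ z, z ∉ Metric.closedBall (0 : ℂ) ((N : ℝ) + 2) → g z = 0 := by
    intro z hz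
    apply gz
    rw [show (N : ℝ) + 1 + 1 = (N : ℝ) + 2 by ring]
    exact hz
  have gm : MemLp g q μ := gd.continuous.memLp_of_hasCompactSupport gs
  have hGm : MemLp (fun z => ecut N z * g1 z) q μ := hGc.memLp_of_hasCompactSupport hGs
  refine ⟨g, gd, gs, gz', gm, ?_⟩
  have e1 : g0 - g = (g0 - fun z => ecut N z * g1 z) + ((fun z => ecut N z * g1 z) - g) := by
    funext z
    simp
  rw [e1]
  refine (eLpNorm_add_le (hg0.sub hGm).aestronglyMeasurable (hGm.sub gm).aestronglyMeasurable hq1).trans ?_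
  have h1 : eLpNorm (g0 - fun z => ecut N z * g1 z) q μ ≤ ENNReal.ofReal (ε / 2) := by
    refine le_trans (eLpNorm_mono (g := g0 - g1) fun z => ?_) g1n
    have h2 : g0 z = ecut N z * g0 z := by
      by_cases hz : z ∈ Metric.closedBall (0 : ℂ) (N : ℝ)
      · rw [ecut_one N z hz, one_mul]
      · rw [hs z hz, mul_zero]
    simp only [Pi.sub_apply, Real.norm_eq_abs]
    calc |g0 z - ecut N z * g1 z| = |ecut N z * (g0 z - g1 z)| := by
          congr 1
          rw [mul_sub, ← h2]
      _ = ecut N z * |g0 z - g1 z| := by rw [abs_mul, abs_of_nonneg (ecut_nonneg N z)]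
      _ ≤ 1 * |g0 z - g1 z| := mul_le_mul_of_nonneg_right (ecut_le_one N z) (abs_nonneg _)
      _ = |g0 z - g1 z| := one_mul _
  have h3 : eLpNorm ((fun z => ecut N z * g1 z) - g) q μ ≤ ENNReal.ofReal (ε / 2) := by
    have h4 : eLpNorm ((fun z => ecut N z * g1 z) - g) q μ
        = eLpNorm ((fun z => ecut N z * g1 z) - g) q (μ.restrict (Metric.closedBall (0 : ℂ) ((N : ℝ) + 2))) := by
      symm
      apply eLpNorm_restrict_eq_of_support_subset
      intro z hz
      by_contra hz2
      apply hz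
      have h5 : z ∉ Metric.closedBall (0 : ℂ) ((N : ℝ) + 1) := by
        intro h6
        exact hz2 (Metric.closedBall_subset_closedBall (by linarith) h6)
      simp only [Pi.sub_apply]
      rw [gz' z hz2, ecut_zero N z h5]
      ring
    rw [h4]
    refine (eLpNorm_le_of_ae_bound (C := ε / (2 * (m.toReal + 1)))
      (Filter.Eventually.of_forall fun z => ?_)).trans ?_
    · simp only [Pi.sub_apply, Real.norm_eq_abs]
      exact gη z
    · have h7 : m * ENNReal.ofReal (ε / (2 * (m.toReal + 1)))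
          = ENNReal.ofReal (m.toReal * (ε / (2 * (m.toReal + 1)))) := by
        rw [ENNReal.ofReal_mul hmr0, ENNReal.ofReal_toReal hm']
      rw [Measure.restrict_apply_univ, ← hmdef, h7]
      apply ENNReal.ofReal_le_ofReal
      rw [mul_div_assoc', div_le_div_iff₀ (by positivity) (by positivity)]
      nlinarith
  refine (add_le_add h1 h3).trans (le_of_eq ?_)
  rw [← ENNReal.ofReal_add (by positivity) (by positivity)]
  congr 1
  ring

private theorem esym_core (p : ℝ) (hp : 1 < p) (w : ℂ → ℝ) (hw : ∀ z, 0 < w z)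
    (h1 : LocallyIntegrable w volume)
    (h2 : LocallyIntegrable (fun z => w z ^ (-(1 / (p - 1)))) volume) (u : ℂ → ℝ) (hu : Continuous u)
    (B : ℝ) (hB0 : 0 ≤ B)
    (hB : ∀ g : ℂ → ℝ, ContDiff ℝ ((⊤ : ℕ∞) : WithTop ℕ∞) g → HasCompactSupport g →
      |∫ x, u x * g x| ≤ B * (∫ z, |g z| ^ (p / (p - 1)) * w z ^ (-(1 / (p - 1)))) ^ ((p - 1) / p))
    (N : ℕ) :
    ∫ z in Metric.closedBall (0 : ℂ) N, |u z| ^ p * w z ≤ B ^ p := by
  have hp0 : 0 < p := by linarith
  have hp1 : 0 < p - 1 := by linarith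
  set q : ℝ := p / (p - 1) with hqdef
  have hq1 : 1 < q := by rw [hqdef, lt_div_iff₀ hp1]; linarith
  have hq0 : 0 < q := by linarith
  have hpq : p.HolderConjugate q := by
    rw [Real.holderConjugate_iff]
    refine ⟨hp, ?_⟩
    rw [hqdef]
    field_simp
    ring
  have hqi : (p - 1) / p = q⁻¹ := by rw [hqdef, inv_div]
  set s : ℂ → ℝ := fun z => w z ^ (-(1 / (p - 1))) with hsdef
  have hs : ∀ z, 0 < s z := fun z => Real.rpow_pos_of_pos (hw z) _
  have hE : IsCompact (Metric.closedBall (0 : ℂ) (N : ℝ)) := isCompact_closedBall _ _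
  have hE' : IsCompact (Metric.closedBall (0 : ℂ) ((N : ℝ) + 2)) := isCompact_closedBall _ _
  set E : Set ℂ := Metric.closedBall (0 : ℂ) (N : ℝ) with hEdef
  set E' : Set ℂ := Metric.closedBall (0 : ℂ) ((N : ℝ) + 2) with hE'def
  have hup : Continuous fun z => |u z| ^ p := hu.abs.rpow_const (fun z => Or.inr hp0.le)
  have iE : IntegrableOn (fun z => |u z| ^ p * w z) E volume :=
    (h1.integrableOn_isCompact hE).continuousOn_mul hup.continuousOn hE
  have iE' : IntegrableOn (fun z => |u z| ^ p * w z) E' volume :=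
    (h1.integrableOn_isCompact hE').continuousOn_mul hup.continuousOn hE'
  set A : ℝ := ∫ z in E, |u z| ^ p * w z with hAdef
  have hA0 : 0 ≤ A := integral_nonneg fun z =>
    mul_nonneg (Real.rpow_nonneg (abs_nonneg _) _) (hw z).le
  set C : ℝ := ∫ z in E', |u z| ^ p * w z with hCdef
  have hC0 : 0 ≤ C := integral_nonneg fun z =>
    mul_nonneg (Real.rpow_nonneg (abs_nonneg _) _) (hw z).le
  let ρ : ℂ → ENNReal := fun z => ENNReal.ofReal (s z)
  have hsm : AEStronglyMeasurable s volume := h2.aestronglyMeasurable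
  have hρ : AEMeasurable ρ volume := hsm.aemeasurable.ennreal_ofReal
  have hρt : ∀ᵐ z ∂(volume : Measure ℂ), ρ z < ⊤ :=
    Filter.Eventually.of_forall fun _ => ENNReal.ofReal_lt_top
  have hρr : ∀ z, (ρ z).toReal = s z := fun z => ENNReal.toReal_ofReal (hs z).le
  let μ : Measure ℂ := volume.withDensity ρ
  have : IsLocallyFiniteMeasure μ := by
    refine ⟨fun x => ⟨Metric.ball x 1, Metric.ball_mem_nhds x one_pos, ?_⟩⟩
    show (volume.withDensity ρ) _ < _
    rw [withDensity_apply _ Metric.isOpen_ball.measurableSet]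
    exact ((h2.integrableOn_isCompact (isCompact_closedBall x 1)).mono_set
      Metric.ball_subset_closedBall).lintegral_lt_top
  have toμ : ∀ f : ℂ → ℝ, Integrable f μ ↔ Integrable (fun z => s z * f z) volume := by
    intro f
    have h := integrable_withDensity_iff_integrable_smul₀' (g := f) hρ hρt
    simp only [hρr, smul_eq_mul] at h
    exact h
  have intμ : ∀ f : ℂ → ℝ, ∫ z, f z ∂μ = ∫ z, s z * f z := by
    intro f
    have h := integral_withDensity_eq_integral_toReal_smul₀ hρ hρt f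
    simp only [hρr, smul_eq_mul] at h
    exact h
  have hqE0 : ENNReal.ofReal q ≠ 0 := by simpa using hq0
  have hqE : ENNReal.ofReal q ≠ ⊤ := ENNReal.ofReal_ne_top
  have hqE1 : 1 ≤ ENNReal.ofReal q := by
    rw [← ENNReal.ofReal_one]
    exact ENNReal.ofReal_le_ofReal hq1.le
  have hpE0 : ENNReal.ofReal p ≠ 0 := by simpa using hp0
  have hpE : ENNReal.ofReal p ≠ ⊤ := ENNReal.ofReal_ne_top
  -- the extremal function
  set g0 : ℂ → ℝ := E.indicator (fun z => u z * |u z| ^ (p - 2) * w z) with hg0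
  have ew : ∀ z, w z ^ q * s z = w z := by
    intro z
    show w z ^ q * w z ^ (-(1 / (p - 1))) = w z
    rw [← Real.rpow_add (hw z)]
    have : q + -(1 / (p - 1)) = 1 := by
      rw [hqdef]
      field_simp
      ring
    rw [this, Real.rpow_one]
  have eu : ∀ z, |u z * |u z| ^ (p - 2)| = |u z| ^ (p - 1) := by
    intro z
    rw [abs_mul, abs_of_nonneg (Real.rpow_nonneg (abs_nonneg (u z)) (p - 2))]
    rcases eq_or_ne (u z) 0 with h | h
    · rw [h, abs_zero, zero_mul, Real.zero_rpow hp1.ne']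
    · have h3 : 0 < |u z| := abs_pos.2 h
      calc |u z| * |u z| ^ (p - 2) = |u z| ^ (1 : ℝ) * |u z| ^ (p - 2) := by rw [Real.rpow_one]
        _ = |u z| ^ (p - 1) := by
          rw [← Real.rpow_add h3]
          congr 1
          ring
  have euu : ∀ z, u z * (u z * |u z| ^ (p - 2)) = |u z| ^ p := by
    intro z
    rcases eq_or_ne (u z) 0 with h | h
    · rw [h, zero_mul, abs_zero, Real.zero_rpow hp0.ne']
    · have h3 : 0 < |u z| := abs_pos.2 h
      calc u z * (u z * |u z| ^ (p - 2)) = (u z) ^ 2 * |u z| ^ (p - 2) := by ring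
        _ = |u z| ^ (2 : ℝ) * |u z| ^ (p - 2) := by rw [Real.rpow_two, sq_abs]
        _ = |u z| ^ p := by
          rw [← Real.rpow_add h3]
          congr 1
          ring
  have g0q : ∀ z, s z * ‖g0 z‖ ^ q = E.indicator (fun z => |u z| ^ p * w z) z := by
    intro z
    by_cases hz : z ∈ E
    · simp only [hg0, Set.indicator_of_mem hz]
      rw [Real.norm_eq_abs, abs_mul, eu, abs_of_pos (hw z),
        Real.mul_rpow (Real.rpow_nonneg (abs_nonneg _) _) (hw z).le, ← Real.rpow_mul (abs_nonneg _)]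
      have h3 : (p - 1) * q = p := by
        rw [hqdef]
        field_simp
      rw [h3]
      calc s z * (|u z| ^ p * w z ^ q) = |u z| ^ p * (w z ^ q * s z) := by ring
        _ = |u z| ^ p * w z := by rw [ew]
    · simp only [hg0, Set.indicator_of_notMem hz]
      rw [norm_zero, Real.zero_rpow hq0.ne', mul_zero]
  have hg0meas : AEStronglyMeasurable g0 volume := by
    refine AEStronglyMeasurable.indicator (AEStronglyMeasurable.mul ?_ h1.aestronglyMeasurable)
      hE.measurableSet
    have : Measurable fun z => u z * |u z| ^ (p - 2) :=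
      hu.measurable.mul (hu.abs.measurable.pow_const _)
    exact this.aestronglyMeasurable
  have g0int : Integrable (fun z => ‖g0 z‖ ^ q) μ := by
    rw [toμ]
    rw [show (fun z => s z * ‖g0 z‖ ^ q) = E.indicator (fun z => |u z| ^ p * w z) from funext g0q]
    exact (integrable_indicator_iff hE.measurableSet).2 iE
  have g0m : MemLp g0 (ENNReal.ofReal q) μ := by
    rw [← integrable_norm_rpow_iff (hg0meas.mono_ac (withDensity_absolutelyContinuous _ _)) hqE0 hqE,
      ENNReal.toReal_ofReal hq0.le]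
    exact g0int
  have g0norm : eLpNorm g0 (ENNReal.ofReal q) μ = ENNReal.ofReal (A ^ q⁻¹) := by
    rw [g0m.eLpNorm_eq_integral_rpow_norm hqE0 hqE, ENNReal.toReal_ofReal hq0.le, intμ,
      show (fun z => s z * ‖g0 z‖ ^ q) = E.indicator (fun z => |u z| ^ p * w z) from funext g0q,
      integral_indicator hE.measurableSet]
  -- the function u/s on E'
  set v : ℂ → ℝ := E'.indicator (fun z => u z * (s z)⁻¹) with hv
  have es : ∀ z, s z * (s z)⁻¹ ^ p = w z := by
    intro z
    have h3 : (s z)⁻¹ = w z ^ (1 / (p - 1)) := by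
      show (w z ^ (-(1 / (p - 1))))⁻¹ = _
      rw [Real.rpow_neg (hw z).le, inv_inv]
    rw [h3, ← Real.rpow_mul (hw z).le]
    show w z ^ (-(1 / (p - 1))) * w z ^ (1 / (p - 1) * p) = w z
    rw [← Real.rpow_add (hw z)]
    have : -(1 / (p - 1)) + 1 / (p - 1) * p = 1 := by
      field_simp
      ring
    rw [this, Real.rpow_one]
  have vp : ∀ z, s z * ‖v z‖ ^ p = E'.indicator (fun z => |u z| ^ p * w z) z := by
    intro z
    by_cases hz : z ∈ E'
    · simp only [hv, Set.indicator_of_mem hz]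
      rw [Real.norm_eq_abs, abs_mul, abs_of_pos (inv_pos.2 (hs z)),
        Real.mul_rpow (abs_nonneg _) (inv_pos.2 (hs z)).le]
      calc s z * (|u z| ^ p * (s z)⁻¹ ^ p) = |u z| ^ p * (s z * (s z)⁻¹ ^ p) := by ring
        _ = |u z| ^ p * w z := by rw [es]
    · simp only [hv, Set.indicator_of_notMem hz]
      rw [norm_zero, Real.zero_rpow hp0.ne', mul_zero]
  have hvmeas : AEStronglyMeasurable v volume :=
    AEStronglyMeasurable.indicator (hu.aestronglyMeasurable.mul
      hsm.aemeasurable.inv.aestronglyMeasurable) hE'.measurableSet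
  have vint : Integrable (fun z => ‖v z‖ ^ p) μ := by
    rw [toμ]
    rw [show (fun z => s z * ‖v z‖ ^ p) = E'.indicator (fun z => |u z| ^ p * w z) from funext vp]
    exact (integrable_indicator_iff hE'.measurableSet).2 iE'
  have vm : MemLp v (ENNReal.ofReal p) μ := by
    rw [← integrable_norm_rpow_iff (hvmeas.mono_ac (withDensity_absolutelyContinuous _ _)) hpE0 hpE,
      ENNReal.toReal_ofReal hp0.le]
    exact vint
  have vI : ∫ z, ‖v z‖ ^ p ∂μ = C := by
    rw [intμ, show (fun z => s z * ‖v z‖ ^ p) = E'.indicator (fun z => |u z| ^ p * w z) from funext vp,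
      integral_indicator hE'.measurableSet]
  have hint0 : ∫ z, u z * g0 z = A := by
    rw [hAdef, ← integral_indicator hE.measurableSet]
    refine integral_congr_ae (Filter.Eventually.of_forall fun z => ?_)
    show u z * g0 z = E.indicator (fun z => |u z| ^ p * w z) z
    by_cases hz : z ∈ E
    · simp only [hg0, Set.indicator_of_mem hz]
      rw [← euu z]
      ring
    · simp only [hg0, Set.indicator_of_notMem hz, mul_zero]
  have main : ∀ ε : ℝ, 0 < ε → A ≤ B * (A ^ q⁻¹ + ε) + C ^ (1 / p) * ε := by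
    intro ε hε
    obtain ⟨g, gd, gs, gz, gm, gε⟩ := esym_approx (ENNReal.ofReal q) hqE0 hqE μ N g0 g0m
      (fun z hz => Set.indicator_of_notMem hz _) hqE1 ε hε
    have fm : MemLp (g0 - g) (ENNReal.ofReal q) μ := g0m.sub gm
    have fI : (∫ z, ‖(g0 - g) z‖ ^ q ∂μ) ^ q⁻¹ ≤ ε := by
      rw [fm.eLpNorm_eq_integral_rpow_norm hqE0 hqE, ENNReal.toReal_ofReal hq0.le] at gε
      exact (ENNReal.ofReal_le_ofReal_iff hε.le).1 gε
    have gI : (∫ z, |g z| ^ q * s z) ^ q⁻¹ ≤ A ^ q⁻¹ + ε := by
      have h3 : eLpNorm g (ENNReal.ofReal q) μ ≤ ENNReal.ofReal (A ^ q⁻¹ + ε) := by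
        have h4 : g = g0 - (g0 - g) := by
          funext z
          simp
        rw [h4]
        refine (eLpNorm_sub_le g0m.aestronglyMeasurable fm.aestronglyMeasurable hqE1).trans ?_
        rw [g0norm, ENNReal.ofReal_add (Real.rpow_nonneg hA0 _) hε.le]
        exact add_le_add le_rfl gε
      rw [gm.eLpNorm_eq_integral_rpow_norm hqE0 hqE, ENNReal.toReal_ofReal hq0.le] at h3
      have h5 := (ENNReal.ofReal_le_ofReal_iff (add_nonneg (Real.rpow_nonneg hA0 _) hε.le)).1 h3
      rw [intμ] at h5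
      refine le_trans (le_of_eq ?_) h5
      congr 1
      refine integral_congr_ae (Filter.Eventually.of_forall fun z => ?_)
      show |g z| ^ q * s z = s z * ‖g z‖ ^ q
      rw [Real.norm_eq_abs]
      ring
    have iug : Integrable (fun z => u z * g z) volume :=
      (hu.mul gd.continuous).integrable_of_hasCompactSupport gs.mul_left
    have iug0 : Integrable (fun z => u z * g0 z) volume := by
      have h3 : (fun z => u z * g0 z) = E.indicator (fun z => |u z| ^ p * w z) := by
        funext z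
        by_cases hz : z ∈ E
        · simp only [hg0, Set.indicator_of_mem hz]
          rw [← euu z]
          ring
        · simp only [hg0, Set.indicator_of_notMem hz, mul_zero]
      rw [h3]
      exact (integrable_indicator_iff hE.measurableSet).2 iE
    have hsplit : A = (∫ z, u z * g z) + ∫ z, u z * (g0 - g) z := by
      rw [← integral_add iug (by
        have := iug0.sub iug
        refine this.congr (Filter.Eventually.of_forall fun z => ?_)
        simp only [Pi.sub_apply]
        ring), ← hint0]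
      refine integral_congr_ae (Filter.Eventually.of_forall fun z => ?_)
      simp only [Pi.sub_apply]
      ring
    have hfz : ∀ z, z ∉ E' → (g0 - g) z = 0 := by
      intro z hz
      have h3 : z ∉ E := fun h => hz (Metric.closedBall_subset_closedBall (by linarith) h)
      simp only [Pi.sub_apply, hg0, Set.indicator_of_notMem h3]
      rw [gz z hz, sub_zero]
    have hsmall : ∫ z, u z * (g0 - g) z ≤ C ^ (1 / p) * ε := by
      have h3 : ∫ z, u z * (g0 - g) z = ∫ z, v z * (g0 - g) z ∂μ := by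
        rw [intμ]
        refine integral_congr_ae (Filter.Eventually.of_forall fun z => ?_)
        show u z * (g0 - g) z = s z * (v z * (g0 - g) z)
        by_cases hz : z ∈ E'
        · simp only [hv, Set.indicator_of_mem hz]
          have := (hs z).ne'
          field_simp
        · rw [hfz z hz]
          ring
      rw [h3]
      have h4 : ∫ z, v z * (g0 - g) z ∂μ ≤ ∫ z, ‖v z‖ * ‖(g0 - g) z‖ ∂μ := by
        refine (le_abs_self _).trans ?_
        rw [← Real.norm_eq_abs]
        refine (norm_integral_le_integral_norm _).trans (le_of_eq ?_)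
        refine integral_congr_ae (Filter.Eventually.of_forall fun z => ?_)
        show ‖v z * (g0 - g) z‖ = ‖v z‖ * ‖(g0 - g) z‖
        rw [norm_mul]
      refine h4.trans ((integral_mul_norm_le_Lp_mul_Lq hpq vm fm).trans ?_)
      rw [vI]
      refine mul_le_mul_of_nonneg_left ?_ (Real.rpow_nonneg hC0 _)
      rw [one_div]
      exact fI
    have h6 := (le_abs_self _).trans (hB g gd gs)
    rw [hqi] at h6
    have h7 := h6.trans (mul_le_mul_of_nonneg_left gI hB0)
    linarith
  have hle : A ≤ B * A ^ q⁻¹ := by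
    refine le_of_forall_pos_le_add fun η hη => ?_
    have hBC : 0 < B + C ^ (1 / p) + 1 := by
      have := Real.rpow_nonneg hC0 (1 / p)
      linarith
    have h8 := main (η / (B + C ^ (1 / p) + 1)) (by positivity)
    have h9 : (B + C ^ (1 / p)) * (η / (B + C ^ (1 / p) + 1)) ≤ η := by
      rw [mul_div_assoc', div_le_iff₀ hBC]
      nlinarith
    nlinarith
  rcases eq_or_lt_of_le hA0 with h0 | hpos
  · rw [← h0]
    exact Real.rpow_nonneg hB0 _
  · have h10 : A ^ (1 / p) ≤ B := by
      have h11 : A = A ^ (1 / p) * A ^ q⁻¹ := by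
        rw [← Real.rpow_add hpos]
        have : 1 / p + q⁻¹ = 1 := by
          rw [hqdef]
          field_simp
          ring
        rw [this, Real.rpow_one]
      have h12 : 0 < A ^ q⁻¹ := Real.rpow_pos_of_pos hpos _
      rw [h11] at hle
      have h13 : A ^ (1 / p) * A ^ q⁻¹ ≤ B * A ^ q⁻¹ := by
        have h14 : (A ^ (1 / p) * A ^ q⁻¹) ^ q⁻¹ = A ^ q⁻¹ := by rw [← h11]
        rw [h14] at hle
        exact hle
      exact le_of_mul_le_mul_right h13 h12
    have h15 := Real.rpow_le_rpow (Real.rpow_nonneg hA0 _) h10 hp0.le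
    rw [← Real.rpow_mul hA0, one_div, inv_mul_cancel₀ hp0.ne', Real.rpow_one] at h15
    exact h15

theorem dualP (p : ℝ) (hp : 1 < p) (w : ℂ → ℝ) (hw : ∀ z, 0 < w z)
    (h1 : LocallyIntegrable w volume)
    (h2 : LocallyIntegrable (fun z => w z ^ (-(1 / (p - 1)))) volume) (h : ℂ → ℂ)
    (hc : Continuous h) (B : ℝ) (hB0 : 0 ≤ B)
    (hB : ∀ g : ℂ → ℝ, ContDiff ℝ ((⊤ : ℕ∞) : WithTop ℕ∞) g → HasCompactSupport g →
      ‖∫ x, h x * ((g x : ℝ) : ℂ)‖
        ≤ B * (∫ z, |g z| ^ (p / (p - 1)) * w z ^ (-(1 / (p - 1)))) ^ ((p - 1) / p)) :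
    ∫⁻ z, ‖h z‖ₑ ^ p * ENNReal.ofReal (w z) ≤ ENNReal.ofReal ((2 * B) ^ p) := by
  have hp0 : 0 < p := by linarith
  have hre : Continuous (fun z => (h z).re) := Complex.continuous_re.comp hc
  have him : Continuous (fun z => (h z).im) := Complex.continuous_im.comp hc
  have ihg : ∀ g : ℂ → ℝ, Continuous g → HasCompactSupport g →
      Integrable (fun x => h x * ((g x : ℝ) : ℂ)) volume := by
    intro g gc gs
    refine (hc.mul (Complex.continuous_ofReal.comp gc)).integrable_of_hasCompactSupport ?_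
    exact (gs.comp_left (g := fun t : ℝ => (t : ℂ)) Complex.ofReal_zero).mul_left
  have c1 := esym_core p hp w hw h1 h2 (fun z => (h z).re) hre B hB0 (by
    intro g gd gs
    have e : ∫ x, (h x).re * g x = (∫ x, h x * ((g x : ℝ) : ℂ)).re := by
      have := Complex.reCLM.integral_comp_comm (ihg g gd.continuous gs)
      simp only [Complex.reCLM_apply] at this
      rw [← this]
      refine integral_congr_ae (Filter.Eventually.of_forall fun x => ?_)
      simp
    rw [e]
    exact (Complex.abs_re_le_norm _).trans (hB g gd gs))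
  have c2 := esym_core p hp w hw h1 h2 (fun z => (h z).im) him B hB0 (by
    intro g gd gs
    have e : ∫ x, (h x).im * g x = (∫ x, h x * ((g x : ℝ) : ℂ)).im := by
      have := Complex.imCLM.integral_comp_comm (ihg g gd.continuous gs)
      simp only [Complex.imCLM_apply] at this
      rw [← this]
      refine integral_congr_ae (Filter.Eventually.of_forall fun x => ?_)
      simp
    rw [e]
    exact (Complex.abs_im_le_norm _).trans (hB g gd gs))
  have hU : (⋃ N : ℕ, Metric.closedBall (0 : ℂ) (N : ℝ)) = Set.univ := by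
    refine Set.eq_univ_of_forall fun z => Set.mem_iUnion.2 ?_
    obtain ⟨N, hN⟩ := exists_nat_ge ‖z‖
    exact ⟨N, mem_closedBall_zero_iff.2 hN⟩
  have hdir : Directed (· ⊆ ·) (fun N : ℕ => Metric.closedBall (0 : ℂ) (N : ℝ)) := by
    refine Monotone.directed_le fun a b hab => ?_
    exact Metric.closedBall_subset_closedBall (by exact_mod_cast hab)
  rw [← setLIntegral_univ, ← hU, setLIntegral_iUnion_of_directed _ hdir]
  refine iSup_le fun N => ?_
  have hE : IsCompact (Metric.closedBall (0 : ℂ) (N : ℝ)) := isCompact_closedBall _ _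
  have hcp : ∀ u : ℂ → ℝ, Continuous u → Continuous fun z => |u z| ^ p := fun u hu =>
    hu.abs.rpow_const (fun z => Or.inr hp0.le)
  have i1 : IntegrableOn (fun z => |(h z).re| ^ p * w z) (Metric.closedBall (0 : ℂ) (N : ℝ)) volume :=
    (h1.integrableOn_isCompact hE).continuousOn_mul (hcp _ hre).continuousOn hE
  have i2 : IntegrableOn (fun z => |(h z).im| ^ p * w z) (Metric.closedBall (0 : ℂ) (N : ℝ)) volume :=
    (h1.integrableOn_isCompact hE).continuousOn_mul (hcp _ him).continuousOn hE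
  have e1 : ∫⁻ z in Metric.closedBall (0 : ℂ) (N : ℝ), ‖h z‖ₑ ^ p * ENNReal.ofReal (w z)
      ≤ ENNReal.ofReal (∫ z in Metric.closedBall (0 : ℂ) (N : ℝ),
        2 ^ (p - 1) * (|(h z).re| ^ p * w z + |(h z).im| ^ p * w z)) := by
    have i3 : Integrable (fun z => 2 ^ (p - 1) * (|(h z).re| ^ p * w z + |(h z).im| ^ p * w z))
        (volume.restrict (Metric.closedBall (0 : ℂ) (N : ℝ))) := (i1.add i2).const_mul _
    rw [ofReal_integral_eq_lintegral_ofReal i3]
    · refine lintegral_mono fun z => ?_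
      show ‖h z‖ₑ ^ p * ENNReal.ofReal (w z) ≤
        ENNReal.ofReal (2 ^ (p - 1) * (|(h z).re| ^ p * w z + |(h z).im| ^ p * w z))
      rw [← ofReal_norm, ENNReal.ofReal_rpow_of_nonneg (norm_nonneg _) hp0.le,
        ← ENNReal.ofReal_mul (by positivity)]
      apply ENNReal.ofReal_le_ofReal
      have h3 : ‖h z‖ ^ p ≤ (|(h z).re| + |(h z).im|) ^ p :=
        Real.rpow_le_rpow (norm_nonneg _) (Complex.norm_le_abs_re_add_abs_im _) hp0.le
      have h4 : (|(h z).re| + |(h z).im|) ^ p ≤ 2 ^ (p - 1) * (|(h z).re| ^ p + |(h z).im| ^ p) := by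
        have h5 := NNReal.rpow_add_le_mul_rpow_add_rpow ⟨|(h z).re|, abs_nonneg _⟩
          ⟨|(h z).im|, abs_nonneg _⟩ hp.le
        have h6 := NNReal.coe_le_coe.2 h5
        push_cast at h6
        exact h6
      calc ‖h z‖ ^ p * w z ≤ (2 ^ (p - 1) * (|(h z).re| ^ p + |(h z).im| ^ p)) * w z :=
            mul_le_mul_of_nonneg_right (h3.trans h4) (hw z).le
        _ = 2 ^ (p - 1) * (|(h z).re| ^ p * w z + |(h z).im| ^ p * w z) := by ring
    · refine Filter.Eventually.of_forall fun z => ?_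
      have := (hw z).le
      show 0 ≤ 2 ^ (p - 1) * (|(h z).re| ^ p * w z + |(h z).im| ^ p * w z)
      positivity
  refine e1.trans ?_
  rw [integral_const_mul, integral_add i1 i2]
  apply ENNReal.ofReal_le_ofReal
  have h7 : (2 : ℝ) ^ (p - 1) * (B ^ p + B ^ p) = (2 * B) ^ p := by
    rw [Real.mul_rpow (by norm_num) hB0]
    have h8 : (2 : ℝ) ^ (p - 1) * 2 = 2 ^ p := by
      have h9 := Real.rpow_add (by norm_num : (0 : ℝ) < 2) (p - 1) 1
      rw [Real.rpow_one, sub_add_cancel] at h9
      exact h9.symm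
    rw [← h8]
    ring
  rw [← h7]
  apply mul_le_mul_of_nonneg_left _ (by positivity)
  exact add_le_add (c1 N) (c2 N)

end Pool.MP_75bf3e_an.BT
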