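import Pool.Agent.Lib_MP_75bf3e.ExRdF

/-!
# Piece EWEIGHT: the new weight

`exists_W` (`p > 2`, `q = p/(p-1) < 2`, `t = (p-2)/(p-1) = 2 - q ∈ (0,1)`, `1 - t = 1/(p-1)`), `g` continuous with compact
support, `g ≠ 0`.  Take `V` for `|g|`.  `∫⁻ |g|^q s < ∞`, so `V < ∞` a.e.; and `V > 0` everywhere: the average of `V ≥ |g|` over a
large square containing `x` is positive and `≤ 2A V x`.  Put `W z = V z^t * w z^{1-t}` (real numbers) where `V z < ∞` and
`W z = 1` elsewhere (a null set).  `W` is measurable and positive.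
* `A_2`: on a square `Q`: `avg_Q W ≤ (avg_Q V)^t (avg_Q w)^{1-t}` (Hoelder); for a.e. `x ∈ Q`, `V x ≥ (avg_Q V)/(2A)`, so
  `W⁻¹ = V^{-t} w^{-(1-t)} = V^{-t} s ≤ (2A)^t (avg_Q V)^{-t} s` and `avg_Q W⁻¹ ≤ (2A)^t (avg_Q V)^{-t} avg_Q s`.  Product
  `≤ (2A)^t (avg w)^{1-t} (avg s) = (2A)^t [(avg w)(avg s)^{p-1}]^{1/(p-1)} ≤ (2 C K)^t K^{1-t} ≤ C' K`.
  (`avg_Q V` is finite because `2A V x < ∞` a.e. and positive; this also gives local integrability of `W` and `W⁻¹`.)
* `g^2 W⁻¹ = g^2 V^{-t} s ≤ |g|^{2-t} s = |g|^q s` a.e. (`V ≥ |g|`, `2 - t = q`).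
* `∫ f^2 W = ∫ (f^2 w^{2/p}) (V^t w^{1-t-2/p}) ≤ (∫ |f|^p w)^{2/p} (∫ (V^t w^{1-t-2/p})^{p/(p-2)})^{1-2/p}` (Hoelder with `p/2` and
  `p/(p-2)`), and `(V^t w^{1-t-2/p})^{p/(p-2)} = V^q w^{-1/(p-1)} = V^q s` (`t p/(p-2) = q`,
  `(1/(p-1) - 2/p) p/(p-2) = -1/(p-1)`), with integral `≤ 2^q ∫ |g|^q s`.
-/

set_option autoImplicit false

open MeasureTheory

namespace Pool.MP_75bf3e_an.BT

private theorem holder_theta {α : Type*} [MeasurableSpace α] (μ : Measure α) (a b : α → ℝ)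
    (ha : Integrable a μ) (hb : Integrable b μ) (ha0 : ∀ x, 0 ≤ a x) (hb0 : ∀ x, 0 ≤ b x)
    (θ : ℝ) (h0 : 0 < θ) (h1 : θ < 1) :
    ∫ x, a x ^ θ * b x ^ (1 - θ) ∂μ ≤ (∫ x, a x ∂μ) ^ θ * (∫ x, b x ∂μ) ^ (1 - θ) := by
  have h1' : 0 < 1 - θ := by linarith
  have hA0 : 0 ≤ ∫ x, a x ∂μ := integral_nonneg ha0
  have hB0 : 0 ≤ ∫ x, b x ∂μ := integral_nonneg hb0
  rcases eq_or_lt_of_le hA0 with hA | hA
  · have h2 : a =ᵐ[μ] 0 := (integral_eq_zero_iff_of_nonneg ha0 ha).1 hA.symm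
    have h3 : ∫ x, a x ^ θ * b x ^ (1 - θ) ∂μ = 0 := by
      refine integral_eq_zero_of_ae ?_
      filter_upwards [h2] with x hx
      show a x ^ θ * b x ^ (1 - θ) = 0
      rw [hx]
      simp [Real.zero_rpow h0.ne']
    rw [h3]
    positivity
  rcases eq_or_lt_of_le hB0 with hB | hB
  · have h2 : b =ᵐ[μ] 0 := (integral_eq_zero_iff_of_nonneg hb0 hb).1 hB.symm
    have h3 : ∫ x, a x ^ θ * b x ^ (1 - θ) ∂μ = 0 := by
      refine integral_eq_zero_of_ae ?_
      filter_upwards [h2] with x hx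
      show a x ^ θ * b x ^ (1 - θ) = 0
      rw [hx]
      simp [Real.zero_rpow h1'.ne']
    rw [h3]
    positivity
  set A : ℝ := ∫ x, a x ∂μ with hAd
  set B : ℝ := ∫ x, b x ∂μ with hBd
  have hstep : ∫ x, a x ^ θ * b x ^ (1 - θ) ∂μ
      ≤ ∫ x, A ^ θ * B ^ (1 - θ) * (θ * (a x / A) + (1 - θ) * (b x / B)) ∂μ := by
    refine integral_mono_of_nonneg (Filter.Eventually.of_forall fun x => ?_)
      ((((ha.div_const A).const_mul θ).add ((hb.div_const B).const_mul (1 - θ))).const_mul _)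
      (Filter.Eventually.of_forall fun x => ?_)
    · exact mul_nonneg (Real.rpow_nonneg (ha0 x) _) (Real.rpow_nonneg (hb0 x) _)
    · show a x ^ θ * b x ^ (1 - θ) ≤ A ^ θ * B ^ (1 - θ) * (θ * (a x / A) + (1 - θ) * (b x / B))
      have h4 := Real.geom_mean_le_arith_mean2_weighted h0.le h1'.le (div_nonneg (ha0 x) hA.le)
        (div_nonneg (hb0 x) hB.le) (by ring)
      rw [Real.div_rpow (ha0 x) hA.le, Real.div_rpow (hb0 x) hB.le] at h4
      have h5 : 0 < A ^ θ := Real.rpow_pos_of_pos hA _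
      have h6 : 0 < B ^ (1 - θ) := Real.rpow_pos_of_pos hB _
      calc a x ^ θ * b x ^ (1 - θ)
          = A ^ θ * B ^ (1 - θ) * (a x ^ θ / A ^ θ * (b x ^ (1 - θ) / B ^ (1 - θ))) := by
            field_simp
        _ ≤ _ := mul_le_mul_of_nonneg_left h4 (by positivity)
  refine hstep.trans (le_of_eq ?_)
  rw [integral_const_mul, integral_add ((ha.div_const A).const_mul θ)
    ((hb.div_const B).const_mul (1 - θ)), integral_const_mul, integral_const_mul, integral_div,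
    integral_div, ← hAd, ← hBd, div_self hA.ne', div_self hB.ne']
  ring

private theorem cover (R : ℝ) : ∃ P : ℂ × ℤ, Metric.closedBall (0 : ℂ) R ⊆ sqn P := by
  obtain ⟨n, hn⟩ := pow_unbounded_of_one_lt (2 * R) (by norm_num : (1 : ℝ) < 2)
  refine ⟨(⟨-R, -R⟩, (n : ℤ)), ?_⟩
  intro z hz
  rw [mem_closedBall_zero_iff] at hz
  have h1 := (Complex.abs_re_le_norm z).trans hz
  have h2 := (Complex.abs_im_le_norm z).trans hz
  rw [abs_le] at h1 h2
  refine ⟨h1.1, ?_, h2.1, ?_⟩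
  · show z.re < -R + (2 : ℝ) ^ (n : ℤ)
    rw [zpow_natCast]
    linarith [h1.2]
  · show z.im < -R + (2 : ℝ) ^ (n : ℤ)
    rw [zpow_natCast]
    linarith [h2.2]

private theorem volume_sqn_pos (P : ℂ × ℤ) : 0 < volume (sqn P) := by
  unfold sqn
  rw [volume_sq _ (by positivity)]
  exact ENNReal.ofReal_pos.2 (by positivity)

private theorem measurableSet_sqn (P : ℂ × ℤ) : MeasurableSet (sqn P) := measurableSet_sq _ _

private theorem locInt_of_sqn {F : ℂ → ℝ} (h : ∀ P, IntegrableOn F (sqn P) volume) :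
    LocallyIntegrable F volume := by
  intro x
  obtain ⟨P, hP⟩ := cover (‖x‖ + 1)
  refine ⟨Metric.closedBall 0 (‖x‖ + 1), ?_, (h P).mono_set hP⟩
  refine Metric.closedBall_mem_nhds_of_mem ?_
  rw [mem_ball_zero_iff]
  linarith

private theorem sqn_of_locInt {F : ℂ → ℝ} (h : LocallyIntegrable F volume) (P : ℂ × ℤ) :
    IntegrableOn F (sqn P) volume :=
  (h.integrableOn_isCompact (isCompact_closedBall P.1 (2 * (2 : ℝ) ^ P.2))).mono_set
    (sq_subset_closedBall P.1 (by positivity))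

private theorem mn_pos {F : ℂ → ℝ} (hF : ∀ z, 0 < F z) (P : ℂ × ℤ)
    (h : IntegrableOn F (sqn P) volume) : 0 < mn F P := by
  unfold mn
  refine mul_pos (by positivity) ?_
  rw [setIntegral_pos_iff_support_of_nonneg_ae (Filter.Eventually.of_forall fun z => (hF z).le) h]
  have : Function.support F = Set.univ := Set.eq_univ_of_forall fun z => (hF z).ne'
  rw [this, Set.univ_inter]
  exact volume_sqn_pos P

private theorem mn_holder (a b : ℂ → ℝ) (P : ℂ × ℤ) (ha : IntegrableOn a (sqn P) volume)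
    (hb : IntegrableOn b (sqn P) volume) (ha0 : ∀ x, 0 ≤ a x) (hb0 : ∀ x, 0 ≤ b x)
    (θ : ℝ) (h0 : 0 < θ) (h1 : θ < 1) :
    mn (fun z => a z ^ θ * b z ^ (1 - θ)) P ≤ mn a P ^ θ * mn b P ^ (1 - θ) := by
  unfold mn
  set c : ℝ := ((2 : ℝ) ^ P.2 * (2 : ℝ) ^ P.2)⁻¹ with hc
  have hc0 : 0 < c := by positivity
  have h := holder_theta (volume.restrict (sqn P)) a b ha hb ha0 hb0 θ h0 h1
  have hA0 : 0 ≤ ∫ x in sqn P, a x := integral_nonneg ha0
  have hB0 : 0 ≤ ∫ x in sqn P, b x := integral_nonneg hb0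
  rw [Real.mul_rpow hc0.le hA0, Real.mul_rpow hc0.le hB0]
  have h3 : c ^ θ * c ^ (1 - θ) = c := by
    rw [← Real.rpow_add hc0]
    norm_num
  calc c * ∫ x in sqn P, a x ^ θ * b x ^ (1 - θ)
      ≤ c * ((∫ x in sqn P, a x) ^ θ * (∫ x in sqn P, b x) ^ (1 - θ)) :=
        mul_le_mul_of_nonneg_left h hc0.le
    _ = (c ^ θ * c ^ (1 - θ)) * ((∫ x in sqn P, a x) ^ θ * (∫ x in sqn P, b x) ^ (1 - θ)) := by
        rw [h3]
    _ = _ := by ring

private theorem mn_congr {F G : ℂ → ℝ} (P : ℂ × ℤ) (h : ∀ᵐ z ∂(volume : Measure ℂ), F z = G z) :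
    mn F P = mn G P := by
  unfold mn
  congr 1
  exact integral_congr_ae (ae_restrict_of_ae h)

theorem exists_W (p : ℝ) (hp : 2 < p) : ∃ C : ℝ, 0 < C ∧ ∀ (w : ℂ → ℝ), (∀ z, 0 < w z) →
    Measurable w → LocallyIntegrable w volume →
    LocallyIntegrable (fun z => w z ^ (-(1 / (p - 1)))) volume →
    ∀ K : ℝ, (∀ P : ℂ × ℤ, mn w P * (mn (fun z => w z ^ (-(1 / (p - 1)))) P) ^ (p - 1) ≤ K) →
    ∀ (g : ℂ → ℝ), Continuous g → HasCompactSupport g → (∃ z, g z ≠ 0) →
    ∃ W : ℂ → ℝ, (∀ z, 0 < W z) ∧ LocallyIntegrable W volume ∧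
      LocallyIntegrable (fun z => (W z)⁻¹) volume ∧
      (∀ P : ℂ × ℤ, mn W P * mn (fun z => (W z)⁻¹) P ≤ C * K) ∧
      (∫ z, g z ^ 2 * (W z)⁻¹ ≤ ∫ z, |g z| ^ (p / (p - 1)) * w z ^ (-(1 / (p - 1)))) ∧
      (∀ f : ℂ → ℝ, Continuous f → HasCompactSupport f →
        ∫ z, f z ^ 2 * W z ≤ C * (∫ z, |f z| ^ p * w z) ^ (2 / p) *
          (∫ z, |g z| ^ (p / (p - 1)) * w z ^ (-(1 / (p - 1)))) ^ (1 - 2 / p)) := by
  obtain ⟨C0, hC0, hV⟩ := exists_V p (by linarith)
  have hp1 : 0 < p - 1 := by linarith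
  have hp0 : 0 < p := by linarith
  set e : ℝ := 1 / (p - 1) with he
  have he0 : 0 < e := by positivity
  have he1 : e < 1 := by
    rw [he, div_lt_one hp1]
    linarith
  have hq : p / (p - 1) = 1 + e := by
    rw [he]
    field_simp
    ring
  have hpe : (p - 1) * e = 1 := by
    rw [he]
    field_simp
  rw [hq] at hV ⊢
  have hq0 : 0 < 1 + e := by linarith
  refine ⟨C0 ^ (1 - e) + ((2 : ℝ) ^ (1 + e)) ^ (1 - 2 / p), by positivity, ?_⟩
  intro w hw wm hwi hsi K hK g gc gs gne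
  set s : ℂ → ℝ := fun z => w z ^ (-e) with hs
  have hs0 : ∀ z, 0 < s z := fun z => Real.rpow_pos_of_pos (hw z) _
  have hsm : Measurable s := wm.pow_const _
  obtain ⟨V, Vm, hVg, hVs, hVA⟩ := hV w hw wm hwi hsi K hK (fun z => ENNReal.ofReal |g z|)
    (gc.abs.measurable.ennreal_ofReal)
  -- the integral of the test function
  have gqc : Continuous (fun z => |g z| ^ (1 + e)) := gc.abs.rpow_const (fun _ => Or.inr hq0.le)
  have gqs : HasCompactSupport (fun z => |g z| ^ (1 + e)) :=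
    gs.comp_left (g := fun t : ℝ => |t| ^ (1 + e)) (by simp [Real.zero_rpow hq0.ne'])
  have igs : Integrable (fun z => |g z| ^ (1 + e) * s z) volume :=
    hsi.integrable_smul_left_of_hasCompactSupport gqc gqs
  set Ig : ℝ := ∫ z, |g z| ^ (1 + e) * s z with hIg
  have hIg0 : 0 ≤ Ig := integral_nonneg fun z => mul_nonneg (Real.rpow_nonneg (abs_nonneg _) _)
    (hs0 z).le
  have hgI : ∫⁻ x, ENNReal.ofReal |g x| ^ (1 + e) * ENNReal.ofReal (s x) = ENNReal.ofReal Ig := by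
    rw [hIg, ofReal_integral_eq_lintegral_ofReal igs (Filter.Eventually.of_forall fun z =>
      mul_nonneg (Real.rpow_nonneg (abs_nonneg _) _) (hs0 z).le)]
    refine lintegral_congr fun x => ?_
    rw [ENNReal.ofReal_rpow_of_nonneg (abs_nonneg _) hq0.le,
      ← ENNReal.ofReal_mul (Real.rpow_nonneg (abs_nonneg _) _)]
  have hVs' : ∫⁻ x, V x ^ (1 + e) * ENNReal.ofReal (s x) ≤ 2 ^ (1 + e) * ENNReal.ofReal Ig := by
    rw [← hgI]
    exact hVs
  have h2top : (2 : ENNReal) ^ (1 + e) ≠ ⊤ := ENNReal.rpow_ne_top_of_nonneg hq0.le (by norm_num)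
  have hfin : ∫⁻ x, V x ^ (1 + e) * ENNReal.ofReal (s x) ≠ ⊤ :=
    ne_top_of_le_ne_top (ENNReal.mul_ne_top h2top ENNReal.ofReal_ne_top) hVs'
  have Φm : Measurable (fun x => V x ^ (1 + e) * ENNReal.ofReal (s x)) :=
    (Vm.pow_const _).mul hsm.ennreal_ofReal
  have hVtop : ∀ᵐ z ∂(volume : Measure ℂ), V z ≠ ⊤ := by
    filter_upwards [ae_lt_top Φm hfin] with z hz hcon
    rw [hcon, ENNReal.top_rpow_of_pos hq0, ENNReal.top_mul (ENNReal.ofReal_pos.2 (hs0 z)).ne'] at hz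
    exact lt_irrefl _ hz
  have hVpos : ∀ x, 0 < V x := by
    intro x
    by_contra hx0
    have hx0' : V x = 0 := le_antisymm (not_lt.1 hx0) zero_le
    obtain ⟨z0, hz0⟩ := gne
    obtain ⟨P, hP⟩ := cover (‖x‖ + ‖z0‖ + 1)
    have hxP : x ∈ sqn P := hP (mem_closedBall_zero_iff.2 (by linarith [norm_nonneg z0]))
    have h1 := hVA P.1 P.2 x hxP
    rw [hx0', mul_zero] at h1
    have h2 := le_antisymm h1 zero_le
    rcases mul_eq_zero.1 h2 with h3 | h3
    · rw [ENNReal.inv_eq_zero] at h3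
      rw [volume_sq _ (by positivity)] at h3
      exact ENNReal.ofReal_ne_top h3
    · rw [lintegral_eq_zero_iff Vm] at h3
      have h4 := (ae_restrict_iff' (measurableSet_sq _ _)).1 h3
      have h5 := ae_iff.1 h4
      have hUo : IsOpen ({z : ℂ | g z ≠ 0} ∩ Metric.ball 0 (‖z0‖ + 1)) :=
        (isOpen_ne_fun gc continuous_const).inter Metric.isOpen_ball
      have hUn : ({z : ℂ | g z ≠ 0} ∩ Metric.ball 0 (‖z0‖ + 1)).Nonempty :=
        ⟨z0, hz0, mem_ball_zero_iff.2 (by linarith)⟩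
      have hUp := hUo.measure_pos (volume : Measure ℂ) hUn
      refine absurd (le_antisymm ?_ zero_le) hUp.ne'
      rw [← h5]
      refine measure_mono ?_
      intro z hz hcon
      have hzP : z ∈ sq P.1 ((2 : ℝ) ^ P.2) := by
        refine hP (mem_closedBall_zero_iff.2 ?_)
        have := mem_ball_zero_iff.1 hz.2
        linarith [norm_nonneg x]
      have h6 : V z = 0 := hcon hzP
      have h7 := hVg z
      rw [h6] at h7
      have h8 : 0 < ENNReal.ofReal |g z| := ENNReal.ofReal_pos.2 (abs_pos.2 hz.1)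
      exact absurd h7 (not_le.2 h8)
  have hαfin : ∀ P, ∫⁻ z in sqn P, V z ≠ ⊤ := by
    intro P hcon
    have h1 : sqn P ⊆ {z | ¬ (V z ≠ ⊤)} := by
      intro x hx
      have h2 := hVA P.1 P.2 x hx
      show ¬ (V x ≠ ⊤)
      intro h3
      have h4 : (volume (sq P.1 ((2 : ℝ) ^ P.2)))⁻¹ * ∫⁻ y in sq P.1 ((2 : ℝ) ^ P.2), V y = ⊤ := by
        have h5 : ∫⁻ y in sq P.1 ((2 : ℝ) ^ P.2), V y = ⊤ := hcon
        rw [h5, ENNReal.mul_top]
        rw [ENNReal.inv_ne_zero, volume_sq _ (by positivity)]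
        exact ENNReal.ofReal_ne_top
      rw [h4] at h2
      exact (ENNReal.mul_ne_top ENNReal.ofReal_ne_top h3) (top_le_iff.1 h2)
    have h6 : volume {z | ¬ (V z ≠ ⊤)} = 0 := ae_iff.1 hVtop
    exact absurd (le_antisymm (h6 ▸ measure_mono h1) zero_le) (volume_sqn_pos P).ne'
  -- the real function v
  set v : ℂ → ℝ := fun z => if V z = ⊤ then 1 else (V z).toReal with hv
  have vm : Measurable v :=
    Measurable.ite (Vm (measurableSet_singleton ⊤)) measurable_const Vm.ennreal_toReal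
  have vtop : ∀ z, V z ≠ ⊤ → v z = (V z).toReal := fun z hz => by
    rw [hv]
    exact if_neg hz
  have v0 : ∀ z, 0 < v z := by
    intro z
    by_cases hz : V z = ⊤
    · rw [hv]
      show 0 < (if V z = ⊤ then (1 : ℝ) else (V z).toReal)
      rw [if_pos hz]
      norm_num
    · rw [vtop z hz]
      exact ENNReal.toReal_pos (hVpos z).ne' hz
  have vae : ∀ᵐ z ∂(volume : Measure ℂ), v z = (V z).toReal := hVtop.mono vtop
  have ivP : ∀ P, IntegrableOn v (sqn P) volume := by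
    intro P
    refine (integrable_toReal_of_lintegral_ne_top Vm.aemeasurable (hαfin P)).congr ?_
    exact (ae_restrict_of_ae vae).mono fun z hz => hz.symm
  have Ivp : ∀ P, ∫ z in sqn P, v z = (∫⁻ z in sqn P, V z).toReal := by
    intro P
    rw [← integral_toReal Vm.aemeasurable (ae_restrict_of_ae (hVtop.mono fun z hz => lt_top_iff_ne_top.2 hz))]
    exact integral_congr_ae (ae_restrict_of_ae vae)
  have hKpos : 0 < K := by
    have h1 := hK (0, 0)
    have h2 := mn_pos hw (0, 0) (sqn_of_locInt hwi _)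
    have h3 := mn_pos hs0 (0, 0) (sqn_of_locInt hsi _)
    exact lt_of_lt_of_le (mul_pos h2 (Real.rpow_pos_of_pos h3 _)) h1
  have hCK : 0 < C0 * K := mul_pos hC0 hKpos
  have hA1 : ∀ P, ∀ x ∈ sqn P, V x ≠ ⊤ → mn v P ≤ C0 * K * v x := by
    intro P x hx hxt
    have h1 := ENNReal.toReal_mono (ENNReal.mul_ne_top ENNReal.ofReal_ne_top hxt) (hVA P.1 P.2 x hx)
    rw [ENNReal.toReal_mul, ENNReal.toReal_inv, volume_real_sq _ (by positivity), ENNReal.toReal_mul,
      ENNReal.toReal_ofReal hCK.le, ← vtop x hxt] at h1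
    unfold mn
    rw [Ivp P]
    exact h1
  -- the weight
  set W : ℂ → ℝ := fun z => v z ^ (1 - e) * w z ^ (1 - (1 - e)) with hW
  have hee : 1 - (1 - e) = e := by ring
  have W0 : ∀ z, 0 < W z := fun z =>
    mul_pos (Real.rpow_pos_of_pos (v0 z) _) (Real.rpow_pos_of_pos (hw z) _)
  have Wm : Measurable W := (vm.pow_const _).mul (wm.pow_const _)
  have Winv : ∀ z, (W z)⁻¹ = v z ^ (-(1 - e)) * s z := by
    intro z
    show (v z ^ (1 - e) * w z ^ (1 - (1 - e)))⁻¹ = v z ^ (-(1 - e)) * w z ^ (-e)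
    rw [hee, mul_inv, Real.rpow_neg (v0 z).le, Real.rpow_neg (hw z).le]
  have iW : ∀ P, IntegrableOn W (sqn P) volume := by
    intro P
    refine Integrable.mono' ((ivP P).add (sqn_of_locInt hwi P)) Wm.aestronglyMeasurable
      (Filter.Eventually.of_forall fun z => ?_)
    rw [Real.norm_eq_abs, abs_of_pos (W0 z)]
    show v z ^ (1 - e) * w z ^ (1 - (1 - e)) ≤ v z + w z
    rw [hee]
    refine (Real.geom_mean_le_arith_mean2_weighted (by linarith) he0.le (v0 z).le (hw z).le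
      (by ring)).trans ?_
    have h1 := v0 z
    have h2 := hw z
    nlinarith
  have mvpos : ∀ P, 0 < mn v P := fun P => mn_pos v0 P (ivP P)
  have hWinvP : ∀ P, ∀ᵐ z ∂(volume.restrict (sqn P)),
      (W z)⁻¹ ≤ (mn v P / (C0 * K)) ^ (-(1 - e)) * s z := by
    intro P
    rw [ae_restrict_iff' (measurableSet_sqn P)]
    filter_upwards [hVtop] with z hz hzP
    rw [Winv z]
    refine mul_le_mul_of_nonneg_right ?_ (hs0 z).le
    refine Real.rpow_le_rpow_of_nonpos (div_pos (mvpos P) hCK) ?_ (by linarith)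
    rw [div_le_iff₀ hCK]
    linarith [hA1 P z hzP hz]
  have Wim : Measurable (fun z => (W z)⁻¹) := Wm.inv
  have iWi : ∀ P, IntegrableOn (fun z => (W z)⁻¹) (sqn P) volume := by
    intro P
    refine Integrable.mono' ((sqn_of_locInt hsi P).const_mul ((mn v P / (C0 * K)) ^ (-(1 - e))))
      Wim.aestronglyMeasurable ?_
    filter_upwards [hWinvP P] with z hz
    rw [Real.norm_eq_abs, abs_of_pos (inv_pos.2 (W0 z))]
    exact hz
  refine ⟨W, W0, locInt_of_sqn iW, locInt_of_sqn iWi, ?_, ?_, ?_⟩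
  · intro P
    have hβ := mn_pos hw P (sqn_of_locInt hwi P)
    have hσ := mn_pos hs0 P (sqn_of_locInt hsi P)
    have hα := mvpos P
    have h1 : mn W P ≤ mn v P ^ (1 - e) * mn w P ^ e := by
      have := mn_holder v w P (ivP P) (sqn_of_locInt hwi P) (fun z => (v0 z).le)
        (fun z => (hw z).le) (1 - e) (by linarith) (by linarith)
      rw [hee] at this
      rw [hW, hee]
      exact this
    have h2 : mn (fun z => (W z)⁻¹) P ≤ (mn v P / (C0 * K)) ^ (-(1 - e)) * mn s P := by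
      unfold mn
      have h3 : ∫ z in sqn P, (W z)⁻¹ ≤ (mn v P / (C0 * K)) ^ (-(1 - e)) * ∫ z in sqn P, s z := by
        rw [← integral_const_mul]
        exact integral_mono_ae (iWi P)
          ((sqn_of_locInt hsi P).const_mul ((mn v P / (C0 * K)) ^ (-(1 - e)))) (hWinvP P)
      have h4 : 0 ≤ ((2 : ℝ) ^ P.2 * (2 : ℝ) ^ P.2)⁻¹ := by positivity
      have h5 := mul_le_mul_of_nonneg_left h3 h4
      unfold mn at h5
      linarith
    have h6 : 0 ≤ mn (fun z => (W z)⁻¹) P :=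
      (mn_pos (fun z => inv_pos.2 (W0 z)) P (iWi P)).le
    have h7 : mn W P * mn (fun z => (W z)⁻¹) P
        ≤ (mn v P ^ (1 - e) * mn w P ^ e) * ((mn v P / (C0 * K)) ^ (-(1 - e)) * mn s P) :=
      mul_le_mul h1 h2 h6 (by positivity)
    have h8 : (mn v P / (C0 * K)) ^ (-(1 - e)) = mn v P ^ (-(1 - e)) * (C0 * K) ^ (1 - e) := by
      rw [Real.div_rpow hα.le hCK.le, Real.rpow_neg hCK.le, div_inv_eq_mul]
    have h9 : mn v P ^ (1 - e) * mn v P ^ (-(1 - e)) = 1 := by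
      rw [← Real.rpow_add hα]
      norm_num
    have h10 : (mn v P ^ (1 - e) * mn w P ^ e) * ((mn v P / (C0 * K)) ^ (-(1 - e)) * mn s P)
        = (C0 * K) ^ (1 - e) * (mn w P ^ e * mn s P) := by
      rw [h8]
      calc _ = (mn v P ^ (1 - e) * mn v P ^ (-(1 - e))) * ((C0 * K) ^ (1 - e) * (mn w P ^ e * mn s P)) := by
            ring
        _ = _ := by rw [h9, one_mul]
    have h11 : mn w P ^ e * mn s P ≤ K ^ e := by
      have h12 : mn w P ^ e * mn s P = (mn w P * mn s P ^ (p - 1)) ^ e := by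
        rw [Real.mul_rpow hβ.le (Real.rpow_nonneg hσ.le _), ← Real.rpow_mul hσ.le, hpe,
          Real.rpow_one]
      rw [h12]
      exact Real.rpow_le_rpow (by positivity) (hK P) he0.le
    have h13 : (C0 * K) ^ (1 - e) * K ^ e = C0 ^ (1 - e) * K := by
      rw [Real.mul_rpow hC0.le hKpos.le, mul_assoc, ← Real.rpow_add hKpos]
      norm_num
    calc mn W P * mn (fun z => (W z)⁻¹) P ≤ (C0 * K) ^ (1 - e) * (mn w P ^ e * mn s P) := by
          rw [← h10]
          exact h7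
      _ ≤ (C0 * K) ^ (1 - e) * K ^ e := mul_le_mul_of_nonneg_left h11 (by positivity)
      _ = C0 ^ (1 - e) * K := h13
      _ ≤ (C0 ^ (1 - e) + ((2 : ℝ) ^ (1 + e)) ^ (1 - 2 / p)) * K := by
          refine mul_le_mul_of_nonneg_right ?_ hKpos.le
          have : 0 ≤ ((2 : ℝ) ^ (1 + e)) ^ (1 - 2 / p) := by positivity
          linarith
  · refine integral_mono_of_nonneg (Filter.Eventually.of_forall fun z => ?_) igs ?_
    · exact mul_nonneg (sq_nonneg _) (inv_nonneg.2 (W0 z).le)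
    · filter_upwards [hVtop] with z hz
      rw [Winv z]
      by_cases hg : g z = 0
      · rw [hg, abs_zero, Real.zero_rpow hq0.ne']
        simp
      · have hgp : 0 < |g z| := abs_pos.2 hg
        have hgv : |g z| ≤ v z := by
          rw [vtop z hz]
          have := ENNReal.toReal_mono hz (hVg z)
          rwa [ENNReal.toReal_ofReal (abs_nonneg _)] at this
        have h1 : v z ^ (-(1 - e)) ≤ |g z| ^ (-(1 - e)) :=
          Real.rpow_le_rpow_of_nonpos hgp hgv (by linarith)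
        have h2 : g z ^ 2 * |g z| ^ (-(1 - e)) = |g z| ^ (1 + e) := by
          rw [← sq_abs, ← Real.rpow_two, ← Real.rpow_add hgp]
          congr 1
          ring
        calc g z ^ 2 * (v z ^ (-(1 - e)) * s z) = g z ^ 2 * v z ^ (-(1 - e)) * s z := by ring
          _ ≤ g z ^ 2 * |g z| ^ (-(1 - e)) * s z :=
              mul_le_mul_of_nonneg_right (mul_le_mul_of_nonneg_left h1 (sq_nonneg _)) (hs0 z).le
          _ = |g z| ^ (1 + e) * s z := by rw [h2]
  · intro f fc fs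
    have hθ0 : 0 < 2 / p := by positivity
    have hθ1 : 2 / p < 1 := by
      rw [div_lt_one hp0]
      exact hp
    have fpc : Continuous (fun z => |f z| ^ p) := fc.abs.rpow_const (fun _ => Or.inr hp0.le)
    have fps : HasCompactSupport (fun z => |f z| ^ p) :=
      fs.comp_left (g := fun t : ℝ => |t| ^ p) (by simp [Real.zero_rpow hp0.ne'])
    have ifw : Integrable (fun z => |f z| ^ p * w z) volume :=
      hwi.integrable_smul_left_of_hasCompactSupport fpc fps
    have hΦr : ∀ᵐ z ∂(volume : Measure ℂ),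
        (V z ^ (1 + e) * ENNReal.ofReal (s z)).toReal = v z ^ (1 + e) * s z := by
      filter_upwards [vae] with z hz
      rw [ENNReal.toReal_mul, ENNReal.toReal_ofReal (hs0 z).le, ← ENNReal.toReal_rpow, hz]
    have ivs : Integrable (fun z => v z ^ (1 + e) * s z) volume :=
      (integrable_toReal_of_lintegral_ne_top Φm.aemeasurable hfin).congr hΦr
    have Ivs : ∫ z, v z ^ (1 + e) * s z ≤ (2 : ℝ) ^ (1 + e) * Ig := by
      rw [← integral_congr_ae hΦr, integral_toReal Φm.aemeasurable (ae_lt_top Φm hfin)]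
      have h1 := ENNReal.toReal_mono (ENNReal.mul_ne_top h2top ENNReal.ofReal_ne_top) hVs'
      rw [ENNReal.toReal_mul, ENNReal.toReal_ofReal hIg0, ← ENNReal.toReal_rpow] at h1
      simpa using h1
    have hpt : ∀ z, f z ^ 2 * W z
        = (|f z| ^ p * w z) ^ (2 / p) * (v z ^ (1 + e) * s z) ^ (1 - 2 / p) := by
      intro z
      show f z ^ 2 * (v z ^ (1 - e) * w z ^ (1 - (1 - e)))
        = (|f z| ^ p * w z) ^ (2 / p) * (v z ^ (1 + e) * w z ^ (-e)) ^ (1 - 2 / p)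
      rw [Real.mul_rpow (Real.rpow_nonneg (abs_nonneg _) _) (hw z).le,
        Real.mul_rpow (Real.rpow_nonneg (v0 z).le _) (Real.rpow_nonneg (hw z).le _),
        ← Real.rpow_mul (abs_nonneg _), ← Real.rpow_mul (v0 z).le, ← Real.rpow_mul (hw z).le]
      have e1 : p * (2 / p) = 2 := by field_simp
      have e2 : (1 + e) * (1 - 2 / p) = 1 - e := by
        rw [he]
        field_simp
        ring
      have e3 : 2 / p + -e * (1 - 2 / p) = e := by
        rw [he]
        field_simp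
        ring
      rw [e1, e2, Real.rpow_two, sq_abs, hee]
      have e4 : w z ^ e = w z ^ (2 / p) * w z ^ (-e * (1 - 2 / p)) := by
        rw [← Real.rpow_add (hw z), e3]
      rw [e4]
      ring
    have hH := holder_theta volume (fun z => |f z| ^ p * w z) (fun z => v z ^ (1 + e) * s z) ifw ivs
      (fun z => mul_nonneg (Real.rpow_nonneg (abs_nonneg _) _) (hw z).le)
      (fun z => mul_nonneg (Real.rpow_nonneg (v0 z).le _) (hs0 z).le) (2 / p) hθ0 hθ1
    rw [integral_congr_ae (Filter.Eventually.of_forall hpt)]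
    refine hH.trans ?_
    set F : ℝ := ∫ z, |f z| ^ p * w z with hF
    have hF0 : 0 ≤ F := integral_nonneg fun z =>
      mul_nonneg (Real.rpow_nonneg (abs_nonneg _) _) (hw z).le
    have hv0 : 0 ≤ ∫ z, v z ^ (1 + e) * s z := integral_nonneg fun z =>
      mul_nonneg (Real.rpow_nonneg (v0 z).le _) (hs0 z).le
    have h3 : (∫ z, v z ^ (1 + e) * s z) ^ (1 - 2 / p)
        ≤ ((2 : ℝ) ^ (1 + e)) ^ (1 - 2 / p) * Ig ^ (1 - 2 / p) := by
      rw [← Real.mul_rpow (by positivity) hIg0]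
      exact Real.rpow_le_rpow hv0 Ivs (by linarith)
    have h4 : 0 ≤ F ^ (2 / p) := Real.rpow_nonneg hF0 _
    have h5 : 0 ≤ Ig ^ (1 - 2 / p) := Real.rpow_nonneg hIg0 _
    have h6 : 0 ≤ C0 ^ (1 - e) := by positivity
    calc F ^ (2 / p) * (∫ z, v z ^ (1 + e) * s z) ^ (1 - 2 / p)
        ≤ F ^ (2 / p) * (((2 : ℝ) ^ (1 + e)) ^ (1 - 2 / p) * Ig ^ (1 - 2 / p)) :=
          mul_le_mul_of_nonneg_left h3 h4
      _ = ((2 : ℝ) ^ (1 + e)) ^ (1 - 2 / p) * (F ^ (2 / p) * Ig ^ (1 - 2 / p)) := by ring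
      _ ≤ (C0 ^ (1 - e) + ((2 : ℝ) ^ (1 + e)) ^ (1 - 2 / p)) * (F ^ (2 / p) * Ig ^ (1 - 2 / p)) := by
          refine mul_le_mul_of_nonneg_right ?_ (mul_nonneg h4 h5)
          linarith
      _ = _ := by ring

end Pool.MP_75bf3e_an.BT
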