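import Pool.Agent.Lib_MP_75bf3e.Main2
import Pool.Agent.Lib_MP_75bf3e.ExW
import Pool.Agent.Lib_MP_75bf3e.ExSym

/-!
# Piece EBILIN: the bilinear estimate for all exponents

`ap_sq`: from balls to squares for the `A_p` condition, as in `a2_sq` (A2Sq.lean): every mean over a square is at most twice the
mean over the surrounding ball, so the product is at most `2 * 2^{p-1} K = 2^p K`.
`one_le_ap`: by Hoelder the `A_p` product over a ball is `≥ 1`.

`bilinP` (`p > 2`).  We may assume `g ≠ 0` and replace `w` by a measurable positive function equal to it almost everywhere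
(`AEStronglyMeasurable`; nothing changes).  Take `W` from `exists_W`; `bilin` for the weight `W` with the constant
`max 1 (C K)` (`K ≥ 1`, so this is `≤ (C+1) K`, and `√(min ((C+1)K) (1+log n)) ≤ √(C+1) √(min K (1+log n))`):
`‖∫ Tn n f g‖ ≤ C' n K √(min K (1 + log n)) √((∫ f^2 W)(∫ g^2 W⁻¹))`, and
`(∫ f^2 W)(∫ g^2 W⁻¹) ≤ C (∫|f|^p w)^{2/p} (∫ |g|^q s)^{1 - 2/p + 1}`; the square root is
`√C (∫|f|^p w)^{1/p} (∫|g|^q s)^{(p-1)/p}`.

`bilinP'` (`1 < p < 2`, `g` smooth): `∫ Tn n f g = ∫ f Tn n g` (`Tn_symm`), apply `bilinP` to the exponent `q = p/(p-1) > 2`,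
the weight `s = w^{-1/(p-1)}`, whose dual weight is `s^{-1/(q-1)} = s^{-(p-1)} = w`, and whose `A_q` constant on squares is
`(avg s)(avg w)^{q-1} = [(avg w)(avg s)^{p-1}]^{1/(p-1)} ≤ K^{1/(p-1)}` (`q - 1 = 1/(p-1)`).
-/

set_option autoImplicit false

open MeasureTheory

namespace Pool.MP_75bf3e_an.BT

/-- the square lies in the ball of radius `3 l / 4` around its centre -/
private theorem EBILIN_sub (c : ℂ) {l : ℝ} (hl : 0 < l) :
    sq c l ⊆ Metric.ball (⟨c.re + l / 2, c.im + l / 2⟩ : ℂ) (3 * l / 4) := by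
  rintro z ⟨h1, h2, h3, h4⟩
  rw [Metric.mem_ball, Complex.dist_eq, Complex.norm_eq_sqrt_sq_add_sq]
  have e1 : (z - (⟨c.re + l / 2, c.im + l / 2⟩ : ℂ)).re = z.re - (c.re + l / 2) := by simp
  have e2 : (z - (⟨c.re + l / 2, c.im + l / 2⟩ : ℂ)).im = z.im - (c.im + l / 2) := by simp
  rw [e1, e2, Real.sqrt_lt' (by positivity)]
  have h5 : (z.re - (c.re + l / 2)) ^ 2 ≤ (l / 2) ^ 2 := sq_le_sq' (by linarith) (by linarith)
  have h6 : (z.im - (c.im + l / 2)) ^ 2 ≤ (l / 2) ^ 2 := sq_le_sq' (by linarith) (by linarith)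
  nlinarith [mul_pos hl hl]

/-- the volume of a ball -/
private theorem EBILIN_vol (c : ℂ) {r : ℝ} (hr : 0 ≤ r) :
    (volume (Metric.ball c r)).toReal = Real.pi * r ^ 2 := by
  rw [Complex.volume_ball, ENNReal.toReal_mul, ENNReal.toReal_pow, ENNReal.toReal_ofReal hr]
  simp [mul_comm]

private theorem EBILIN_int (g : ℂ → ℝ) (hg : LocallyIntegrable g volume) (c : ℂ) (r : ℝ) :
    IntegrableOn g (Metric.ball c r) volume :=
  (hg.integrableOn_isCompact (isCompact_closedBall c r)).mono_set Metric.ball_subset_closedBall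

/-- the mean over the square is at most twice the mean over the ball -/
private theorem EBILIN_mn (g : ℂ → ℝ) (hg : LocallyIntegrable g volume) (h0 : ∀ z, 0 ≤ g z)
    (P : ℂ × ℤ) (c : ℂ) (hc : c = ⟨P.1.re + (2 : ℝ) ^ P.2 / 2, P.1.im + (2 : ℝ) ^ P.2 / 2⟩) :
    0 ≤ mn g P ∧ mn g P ≤ 2 * ((volume (Metric.ball c (3 * (2 : ℝ) ^ P.2 / 4))).toReal⁻¹ *
      ∫ z in Metric.ball c (3 * (2 : ℝ) ^ P.2 / 4), g z) := by
  have hl : (0 : ℝ) < (2 : ℝ) ^ P.2 := by positivity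
  have hsub : sqn P ⊆ Metric.ball c (3 * (2 : ℝ) ^ P.2 / 4) := by
    rw [hc]
    exact EBILIN_sub P.1 hl
  have hI : ∫ z in sqn P, g z ≤ ∫ z in Metric.ball c (3 * (2 : ℝ) ^ P.2 / 4), g z :=
    setIntegral_mono_set (EBILIN_int g hg _ _) (Filter.Eventually.of_forall h0)
      (Filter.Eventually.of_forall hsub)
  have hI0 : 0 ≤ ∫ z in sqn P, g z := integral_nonneg h0
  have hB0 : 0 ≤ ∫ z in Metric.ball c (3 * (2 : ℝ) ^ P.2 / 4), g z := integral_nonneg h0
  rw [EBILIN_vol _ (by positivity)]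
  unfold mn
  refine ⟨mul_nonneg (by positivity) hI0, ?_⟩
  have hcoef : ((2 : ℝ) ^ P.2 * (2 : ℝ) ^ P.2)⁻¹ ≤
      2 * (Real.pi * (3 * (2 : ℝ) ^ P.2 / 4) ^ 2)⁻¹ := by
    rw [← div_eq_mul_inv, inv_eq_one_div, div_le_div_iff₀ (by positivity) (by positivity)]
    have h1 := Real.pi_lt_d2
    have h2 := mul_pos hl hl
    nlinarith
  calc ((2 : ℝ) ^ P.2 * (2 : ℝ) ^ P.2)⁻¹ * ∫ z in sqn P, g z
      ≤ (2 * (Real.pi * (3 * (2 : ℝ) ^ P.2 / 4) ^ 2)⁻¹) *
        ∫ z in Metric.ball c (3 * (2 : ℝ) ^ P.2 / 4), g z :=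
        mul_le_mul hcoef hI hI0 (by positivity)
    _ = _ := by rw [mul_assoc]

private theorem EBILIN_mn_nonneg (g : ℂ → ℝ) (h0 : ∀ z, 0 ≤ g z) (P : ℂ × ℤ) : 0 ≤ mn g P := by
  unfold mn
  exact mul_nonneg (by positivity) (integral_nonneg h0)

private theorem EBILIN_alg (p K X Y m s : ℝ) (hp : 1 < p) (a0 : 0 ≤ m) (a1 : m ≤ 2 * X)
    (b0 : 0 ≤ s) (b1 : s ≤ 2 * Y) (hY : 0 ≤ Y) (h3 : X * Y ^ (p - 1) ≤ K) :
    m * s ^ (p - 1) ≤ 2 ^ p * K := by
  have b2 := Real.rpow_le_rpow b0 b1 (by linarith : (0 : ℝ) ≤ p - 1)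
  rw [Real.mul_rpow (by norm_num) hY] at b2
  have e2 : (2 : ℝ) ^ p = 2 * 2 ^ (p - 1) := by
    have h : p = 1 + (p - 1) := by ring
    conv_lhs => rw [h, Real.rpow_add (by norm_num), Real.rpow_one]
  calc m * s ^ (p - 1) ≤ (2 * X) * (2 ^ (p - 1) * Y ^ (p - 1)) :=
        mul_le_mul a1 b2 (Real.rpow_nonneg b0 _) (a0.trans a1)
    _ = 2 * 2 ^ (p - 1) * (X * Y ^ (p - 1)) := by ring
    _ ≤ 2 ^ p * K := by
        rw [e2]
        exact mul_le_mul_of_nonneg_left h3 (by positivity)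

theorem ap_sq (p : ℝ) (hp : 1 < p) (w : ℂ → ℝ) (hw : ∀ z, 0 < w z)
    (h1 : LocallyIntegrable w volume)
    (h2 : LocallyIntegrable (fun z => w z ^ (-(1 / (p - 1)))) volume) (K : ℝ)
    (hK : ∀ c : ℂ, ∀ r : ℝ, 0 < r →
      ((volume (Metric.ball c r)).toReal⁻¹ * ∫ z in Metric.ball c r, w z) *
        ((volume (Metric.ball c r)).toReal⁻¹ *
          ∫ z in Metric.ball c r, w z ^ (-(1 / (p - 1)))) ^ (p - 1) ≤ K) (P : ℂ × ℤ) :
    mn w P * (mn (fun z => w z ^ (-(1 / (p - 1)))) P) ^ (p - 1) ≤ 2 ^ p * K := by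
  obtain ⟨a0, a1⟩ := EBILIN_mn w h1 (fun z => (hw z).le) P _ rfl
  obtain ⟨b0, b1⟩ := EBILIN_mn (fun z => w z ^ (-(1 / (p - 1)))) h2
    (fun z => (Real.rpow_pos_of_pos (hw z) _).le) P _ rfl
  have h3 := hK ⟨P.1.re + (2 : ℝ) ^ P.2 / 2, P.1.im + (2 : ℝ) ^ P.2 / 2⟩ (3 * (2 : ℝ) ^ P.2 / 4)
    (by positivity)
  exact EBILIN_alg p K _ _ _ _ hp a0 a1 b0 b1
    (mul_nonneg (by positivity) (integral_nonneg fun z => (Real.rpow_pos_of_pos (hw z) _).le)) h3

theorem one_le_ap (p : ℝ) (hp : 1 < p) (w : ℂ → ℝ) (hw : ∀ z, 0 < w z)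
    (h1 : LocallyIntegrable w volume)
    (h2 : LocallyIntegrable (fun z => w z ^ (-(1 / (p - 1)))) volume) (K : ℝ)
    (hK : ∀ c : ℂ, ∀ r : ℝ, 0 < r →
      ((volume (Metric.ball c r)).toReal⁻¹ * ∫ z in Metric.ball c r, w z) *
        ((volume (Metric.ball c r)).toReal⁻¹ *
          ∫ z in Metric.ball c r, w z ^ (-(1 / (p - 1)))) ^ (p - 1) ≤ K) : 1 ≤ K := by
  have hp1 : 0 < p - 1 := by linarith
  have hp0 : 0 < p := by linarith
  have h3 := hK 0 1 one_pos
  have hV : (0 : ℝ) < (volume (Metric.ball (0 : ℂ) 1)).toReal := by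
    rw [EBILIN_vol _ zero_le_one]
    positivity
  have i1 := EBILIN_int w h1 0 1
  have i2 := EBILIN_int _ h2 0 1
  have hpos : ∀ F : ℂ → ℝ, (∀ z, 0 < F z) → IntegrableOn F (Metric.ball (0 : ℂ) 1) volume →
      0 < ∫ z in Metric.ball (0 : ℂ) 1, F z := by
    intro F hF hi
    rw [setIntegral_pos_iff_support_of_nonneg_ae (Filter.Eventually.of_forall fun z => (hF z).le) hi]
    have e : Function.support F = Set.univ := by
      ext z
      simp [(hF z).ne']
    rw [e, Set.univ_inter]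
    exact Metric.measure_ball_pos _ _ one_pos
  have ha := hpos w hw i1
  have hb := hpos _ (fun z => Real.rpow_pos_of_pos (hw z) (-(1 / (p - 1)))) i2
  -- Young
  have young : ∀ u : ℝ, 0 < u → (1 : ℝ) ≤ (1 / p) * u + ((p - 1) / p) * u ^ (-(1 / (p - 1))) := by
    intro u hu
    have hc : p.HolderConjugate (p / (p - 1)) := Real.HolderConjugate.conjExponent hp
    have h := Real.young_inequality_of_nonneg (a := u ^ (1 / p)) (b := u ^ (-(1 / p)))
      (Real.rpow_nonneg hu.le _) (Real.rpow_nonneg hu.le _) hc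
    rw [← Real.rpow_add hu, ← Real.rpow_mul hu.le, ← Real.rpow_mul hu.le] at h
    have e1 : 1 / p + -(1 / p) = 0 := by ring
    have e2 : 1 / p * p = 1 := by field_simp
    have e3 : -(1 / p) * (p / (p - 1)) = -(1 / (p - 1)) := by field_simp
    rw [e1, e2, e3, Real.rpow_zero, Real.rpow_one] at h
    calc (1 : ℝ) ≤ _ := h
      _ = _ := by field_simp
  have key : ∀ t : ℝ, 0 < t → (volume (Metric.ball (0 : ℂ) 1)).toReal ≤
      (1 / p) * t * (∫ z in Metric.ball (0 : ℂ) 1, w z) +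
        ((p - 1) / p) * t ^ (-(1 / (p - 1))) *
          ∫ z in Metric.ball (0 : ℂ) 1, w z ^ (-(1 / (p - 1))) := by
    intro t ht
    have e1 : ∫ z in Metric.ball (0 : ℂ) 1, (1 : ℝ) = (volume (Metric.ball (0 : ℂ) 1)).toReal := by
      rw [setIntegral_const, smul_eq_mul, mul_one]
      rfl
    have e2 : ∫ z in Metric.ball (0 : ℂ) 1, ((1 / p) * t * w z +
        ((p - 1) / p) * t ^ (-(1 / (p - 1))) * w z ^ (-(1 / (p - 1)))) =
        (1 / p) * t * (∫ z in Metric.ball (0 : ℂ) 1, w z) +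
        ((p - 1) / p) * t ^ (-(1 / (p - 1))) *
          ∫ z in Metric.ball (0 : ℂ) 1, w z ^ (-(1 / (p - 1))) := by
      rw [integral_add (i1.const_mul _) (i2.const_mul _), integral_const_mul, integral_const_mul]
    rw [← e1, ← e2]
    refine integral_mono (integrableOn_const (by
      rw [Complex.volume_ball]; finiteness)) ((i1.const_mul _).add (i2.const_mul _)) fun z => ?_
    have h4 := young (t * w z) (mul_pos ht (hw z))
    rw [Real.mul_rpow ht.le (hw z).le] at h4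
    change (1 : ℝ) ≤ (1 / p) * t * w z + ((p - 1) / p) * t ^ (-(1 / (p - 1))) * w z ^ (-(1 / (p - 1)))
    calc (1 : ℝ) ≤ _ := h4
      _ = _ := by ring
  generalize (volume (Metric.ball (0 : ℂ) 1)).toReal = V at *
  generalize (∫ z in Metric.ball (0 : ℂ) 1, w z) = a at *
  generalize (∫ z in Metric.ball (0 : ℂ) 1, w z ^ (-(1 / (p - 1)))) = b at *
  -- choose t
  have h6 := key ((b / a) ^ ((p - 1) / p)) (by positivity)
  rw [← Real.rpow_mul (by positivity)] at h6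
  have e4 : (p - 1) / p * -(1 / (p - 1)) = -(1 / p) := by field_simp
  rw [e4] at h6
  have e5 : (b / a) ^ ((p - 1) / p) * a = a ^ (1 / p) * b ^ ((p - 1) / p) := by
    rw [Real.div_rpow hb.le ha.le]
    have : a ^ (1 / p) * a ^ ((p - 1) / p) = a := by
      rw [← Real.rpow_add ha]
      have : 1 / p + (p - 1) / p = 1 := by field_simp; ring
      rw [this, Real.rpow_one]
    have h7 : a ^ ((p - 1) / p) ≠ 0 := (Real.rpow_pos_of_pos ha _).ne'
    rw [div_mul_eq_mul_div, div_eq_iff h7]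
    linear_combination (-(b ^ ((p - 1) / p))) * this
  have e6 : (b / a) ^ (-(1 / p)) * b = a ^ (1 / p) * b ^ ((p - 1) / p) := by
    rw [Real.rpow_neg (by positivity), Real.div_rpow hb.le ha.le]
    have : b ^ (1 / p) * b ^ ((p - 1) / p) = b := by
      rw [← Real.rpow_add hb]
      have : 1 / p + (p - 1) / p = 1 := by field_simp; ring
      rw [this, Real.rpow_one]
    have h7 : b ^ (1 / p) ≠ 0 := (Real.rpow_pos_of_pos hb _).ne'
    have h8 : a ^ (1 / p) ≠ 0 := (Real.rpow_pos_of_pos ha _).ne'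
    rw [inv_div, div_mul_eq_mul_div, div_eq_iff h7]
    linear_combination (-(a ^ (1 / p))) * this
  have h9 : V ≤ a ^ (1 / p) * b ^ ((p - 1) / p) := by
    calc V ≤ _ := h6
      _ = 1 / p * ((b / a) ^ ((p - 1) / p) * a) + (p - 1) / p * ((b / a) ^ (-(1 / p)) * b) := by ring
      _ = a ^ (1 / p) * b ^ ((p - 1) / p) := by
          rw [e5, e6]
          field_simp
          ring
  have h10 : V ^ p ≤ a * b ^ (p - 1) := by
    calc V ^ p ≤ (a ^ (1 / p) * b ^ ((p - 1) / p)) ^ p := Real.rpow_le_rpow hV.le h9 hp0.le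
      _ = a * b ^ (p - 1) := by
          rw [Real.mul_rpow (by positivity) (by positivity), ← Real.rpow_mul ha.le,
            ← Real.rpow_mul hb.le]
          have e7 : 1 / p * p = 1 := by field_simp
          have e8 : (p - 1) / p * p = p - 1 := by field_simp
          rw [e7, e8, Real.rpow_one]
  have e9 : V⁻¹ * a * (V⁻¹ * b) ^ (p - 1) = (V ^ p)⁻¹ * (a * b ^ (p - 1)) := by
    rw [Real.mul_rpow (by positivity) hb.le, Real.inv_rpow hV.le]
    have : V ^ p = V * V ^ (p - 1) := by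
      have h : p = 1 + (p - 1) := by ring
      conv_lhs => rw [h, Real.rpow_add hV, Real.rpow_one]
    rw [this, mul_inv]
    ring
  rw [e9] at h3
  have h11 : 1 ≤ (V ^ p)⁻¹ * (a * b ^ (p - 1)) := by
    rw [inv_mul_eq_div, le_div_iff₀ (by positivity), one_mul]
    exact h10
  exact h11.trans h3

private theorem EBILIN_meas (w : ℂ → ℝ) (hw : ∀ z, 0 < w z) (h : AEStronglyMeasurable w volume) :
    ∃ w' : ℂ → ℝ, (∀ z, 0 < w' z) ∧ Measurable w' ∧ w' =ᵐ[volume] w := by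
  classical
  let v := h.mk w
  have hv : Measurable v := h.stronglyMeasurable_mk.measurable
  have hs : MeasurableSet {z | 0 < v z} := measurableSet_lt measurable_const hv
  refine ⟨fun z => if 0 < v z then v z else 1, fun z => ?_, hv.ite hs measurable_const, ?_⟩
  · by_cases h1 : 0 < v z
    · simp [h1]
    · simp [h1]
  · filter_upwards [h.ae_eq_mk] with z hz
    have h2 : 0 < v z := by
      show 0 < h.mk w z
      rw [← hz]
      exact hw z
    rw [if_pos h2]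
    exact hz.symm

private theorem EBILIN_li {u v : ℂ → ℝ} (hu : LocallyIntegrable u volume) (h : v =ᵐ[volume] u) :
    LocallyIntegrable v volume := by
  intro x
  obtain ⟨s, hs, hi⟩ := hu x
  exact ⟨s, hs, hi.congr (ae_restrict_of_ae h.symm)⟩

private theorem EBILIN_mn_congr {u v : ℂ → ℝ} (h : v =ᵐ[volume] u) (P : ℂ × ℤ) :
    mn v P = mn u P := by
  unfold mn
  rw [integral_congr_ae (ae_restrict_of_ae h)]

theorem bilinP (p : ℝ) (hp : 2 < p) : ∃ C : ℝ, 0 < C ∧ ∀ (w : ℂ → ℝ), (∀ z, 0 < w z) →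
    LocallyIntegrable w volume →
    LocallyIntegrable (fun z => w z ^ (-(1 / (p - 1)))) volume → ∀ K : ℝ, 1 ≤ K →
    (∀ P : ℂ × ℤ, mn w P * (mn (fun z => w z ^ (-(1 / (p - 1)))) P) ^ (p - 1) ≤ K) →
    ∀ (f g : ℂ → ℝ), ContDiff ℝ ((⊤ : ℕ∞) : WithTop ℕ∞) f → HasCompactSupport f → Continuous g →
    HasCompactSupport g → ∀ (n : ℕ), 1 ≤ n →
    ‖∫ x : ℂ, Tn n (fun y => ((f y : ℝ) : ℂ)) x * ((g x : ℝ) : ℂ)‖
      ≤ C * n * K * √(min K (1 + Real.log n)) * (∫ z, |f z| ^ p * w z) ^ (1 / p) *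
        (∫ z, |g z| ^ (p / (p - 1)) * w z ^ (-(1 / (p - 1)))) ^ ((p - 1) / p) := by
  obtain ⟨C1, hC1, H1⟩ := bilin
  obtain ⟨C2, hC2, H2⟩ := exists_W p hp
  refine ⟨C1 * (C2 + 1) * √(C2 + 1) * √C2, by positivity, ?_⟩
  intro w0 hw0 h10 h20 K hK1 hK0 f g hf hfs hg hgs n hn
  -- measurable version
  obtain ⟨w, hw, hwm, hae⟩ := EBILIN_meas w0 hw0 h10.aestronglyMeasurable
  have hae2 : (fun z => w z ^ (-(1 / (p - 1)))) =ᵐ[volume] fun z => w0 z ^ (-(1 / (p - 1))) :=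
    hae.mono fun z hz => by simp only [hz]
  have h1 : LocallyIntegrable w volume := EBILIN_li h10 hae
  have h2 : LocallyIntegrable (fun z => w z ^ (-(1 / (p - 1)))) volume := EBILIN_li h20 hae2
  have hK : ∀ P : ℂ × ℤ, mn w P * (mn (fun z => w z ^ (-(1 / (p - 1)))) P) ^ (p - 1) ≤ K := by
    intro P
    rw [EBILIN_mn_congr hae P, EBILIN_mn_congr hae2 P]
    exact hK0 P
  have eF : ∫ z, |f z| ^ p * w0 z = ∫ z, |f z| ^ p * w z :=
    integral_congr_ae (hae.mono fun z hz => by simp only [hz])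
  have eG : ∫ z, |g z| ^ (p / (p - 1)) * w0 z ^ (-(1 / (p - 1))) =
      ∫ z, |g z| ^ (p / (p - 1)) * w z ^ (-(1 / (p - 1))) :=
    integral_congr_ae (hae.mono fun z hz => by simp only [hz])
  rw [eF, eG]
  have hF0 : 0 ≤ ∫ z, |f z| ^ p * w z :=
    integral_nonneg fun z => mul_nonneg (Real.rpow_nonneg (abs_nonneg _) _) (hw z).le
  have hG0 : 0 ≤ ∫ z, |g z| ^ (p / (p - 1)) * w z ^ (-(1 / (p - 1))) :=
    integral_nonneg fun z => mul_nonneg (Real.rpow_nonneg (abs_nonneg _) _)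
      (Real.rpow_nonneg (hw z).le _)
  have hn0 : (0 : ℝ) ≤ n := Nat.cast_nonneg n
  have hlog : 0 ≤ Real.log n := Real.log_nonneg (by exact_mod_cast hn)
  by_cases hgz : ∃ z, g z ≠ 0
  · obtain ⟨W, W0, W1, W2, WA, Wg, Wf⟩ := H2 w hw hwm h1 h2 K hK g hg hgs hgz
    have b1 := H1 W W0 W1 W2 (max 1 (C2 * K)) (fun P => (WA P).trans (le_max_right _ _))
      (le_max_left _ _) f g hf hfs hg hgs n hn
    refine b1.trans ?_
    have hf2 := Wf f hf.continuous hfs
    have hK0' : 0 < K := by linarith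
    have m1 : max 1 (C2 * K) ≤ (C2 + 1) * K := by
      apply max_le
      · nlinarith
      · nlinarith
    have m2 : √(min (max 1 (C2 * K)) (1 + Real.log n)) ≤ √(C2 + 1) * √(min K (1 + Real.log n)) := by
      rw [← Real.sqrt_mul (by positivity)]
      apply Real.sqrt_le_sqrt
      rw [mul_min_of_nonneg _ _ (by positivity : (0 : ℝ) ≤ C2 + 1)]
      apply min_le_min m1
      nlinarith
    have hi1 : 0 ≤ ∫ z, f z ^ 2 * W z :=
      integral_nonneg fun z => mul_nonneg (sq_nonneg _) (W0 z).le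
    have hi2 : 0 ≤ ∫ z, g z ^ 2 * (W z)⁻¹ :=
      integral_nonneg fun z => mul_nonneg (sq_nonneg _) (inv_pos.2 (W0 z)).le
    generalize (∫ z, |f z| ^ p * w z) = F at *
    generalize (∫ z, |g z| ^ (p / (p - 1)) * w z ^ (-(1 / (p - 1)))) = G at *
    generalize (∫ z, f z ^ 2 * W z) = A at *
    generalize (∫ z, g z ^ 2 * (W z)⁻¹) = B at *
    have m3 : √(A * B) ≤ √C2 * (F ^ (1 / p) * G ^ ((p - 1) / p)) := by
      have e1 : A * B ≤ C2 * F ^ (2 / p) * G ^ (1 - 2 / p) * G :=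
        mul_le_mul hf2 Wg hi2 (by positivity)
      have hp0 : 0 < p := by linarith
      have e2 : G ^ (1 - 2 / p) * G = G ^ (2 * ((p - 1) / p)) := by
        have h : 1 - 2 / p + 1 ≠ 0 := by
          have : 2 / p < 1 := by rw [div_lt_one hp0]; exact hp
          linarith
        rw [← Real.rpow_add_one' hG0 h]
        congr 1
        field_simp
        ring
      have e3 : F ^ (2 / p) = (F ^ (1 / p)) ^ (2 : ℕ) := by
        rw [← Real.rpow_natCast, ← Real.rpow_mul hF0]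
        congr 1
        push_cast
        ring
      have e4 : G ^ (2 * ((p - 1) / p)) = (G ^ ((p - 1) / p)) ^ (2 : ℕ) := by
        rw [← Real.rpow_natCast, ← Real.rpow_mul hG0]
        congr 1
        push_cast
        ring
      have e5 : C2 * F ^ (2 / p) * G ^ (1 - 2 / p) * G =
          C2 * (F ^ (1 / p) * G ^ ((p - 1) / p)) ^ (2 : ℕ) := by
        rw [mul_assoc (C2 * F ^ (2 / p)), e2, e3, e4]
        ring
      rw [e5] at e1
      calc √(A * B) ≤ √(C2 * (F ^ (1 / p) * G ^ ((p - 1) / p)) ^ (2 : ℕ)) := Real.sqrt_le_sqrt e1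
        _ = √C2 * (F ^ (1 / p) * G ^ ((p - 1) / p)) := by
            rw [Real.sqrt_mul hC2.le, Real.sqrt_sq (by positivity)]
    calc C1 * n * max 1 (C2 * K) * √(min (max 1 (C2 * K)) (1 + Real.log n)) * √(A * B)
        ≤ C1 * n * ((C2 + 1) * K) * (√(C2 + 1) * √(min K (1 + Real.log n))) *
          (√C2 * (F ^ (1 / p) * G ^ ((p - 1) / p))) := by
          have hx : 0 ≤ C1 * (n : ℝ) := by positivity
          have hy : 0 ≤ C1 * (n : ℝ) * ((C2 + 1) * K) := by positivity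
          refine mul_le_mul (mul_le_mul (mul_le_mul_of_nonneg_left m1 hx) m2 (Real.sqrt_nonneg _) hy)
            m3 (Real.sqrt_nonneg _) ?_
          positivity
      _ = _ := by ring
  · push Not at hgz
    have e0 : (fun x : ℂ => Tn n (fun y => ((f y : ℝ) : ℂ)) x * ((g x : ℝ) : ℂ)) = fun _ => 0 := by
      funext x
      rw [hgz x]
      simp
    rw [e0, integral_zero, norm_zero]
    have : 0 < K := by linarith
    positivity

theorem bilinP' (p : ℝ) (hp : 1 < p) (hp2 : p < 2) : ∃ C : ℝ, 0 < C ∧ ∀ (w : ℂ → ℝ), (∀ z, 0 < w z) →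
    LocallyIntegrable w volume →
    LocallyIntegrable (fun z => w z ^ (-(1 / (p - 1)))) volume → ∀ K : ℝ, 1 ≤ K →
    (∀ P : ℂ × ℤ, mn w P * (mn (fun z => w z ^ (-(1 / (p - 1)))) P) ^ (p - 1) ≤ K) →
    ∀ (f g : ℂ → ℝ), ContDiff ℝ ((⊤ : ℕ∞) : WithTop ℕ∞) f → HasCompactSupport f →
    ContDiff ℝ ((⊤ : ℕ∞) : WithTop ℕ∞) g → HasCompactSupport g → ∀ (n : ℕ), 1 ≤ n →
    ‖∫ x : ℂ, Tn n (fun y => ((f y : ℝ) : ℂ)) x * ((g x : ℝ) : ℂ)‖
      ≤ C * n * K ^ (1 / (p - 1)) * √(min (K ^ (1 / (p - 1))) (1 + Real.log n)) *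
        (∫ z, |f z| ^ p * w z) ^ (1 / p) *
        (∫ z, |g z| ^ (p / (p - 1)) * w z ^ (-(1 / (p - 1)))) ^ ((p - 1) / p) := by
  have hp1 : 0 < p - 1 := by linarith
  have hp0 : 0 < p := by linarith
  have hq : 2 < p / (p - 1) := by
    rw [lt_div_iff₀ hp1]
    linarith
  have q1 : p / (p - 1) - 1 = 1 / (p - 1) := by field_simp; ring
  have q2 : 1 / (p / (p - 1) - 1) = p - 1 := by rw [q1]; field_simp
  have q3 : p / (p - 1) / (p / (p - 1) - 1) = p := by rw [q1]; field_simp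
  have q4 : 1 / (p / (p - 1)) = (p - 1) / p := by field_simp
  have q5 : (p / (p - 1) - 1) / (p / (p - 1)) = 1 / p := by rw [q1]; field_simp
  obtain ⟨C, hC, H⟩ := bilinP (p / (p - 1)) hq
  refine ⟨C, hC, ?_⟩
  intro w hw h1 h2 K hK1 hK f g hf hfs hg hgs n hn
  have hs : ∀ z, 0 < w z ^ (-(1 / (p - 1))) := fun z => Real.rpow_pos_of_pos (hw z) _
  have e1 : ∀ z, (w z ^ (-(1 / (p - 1)))) ^ (-(1 / (p / (p - 1) - 1))) = w z := by
    intro z
    rw [q2, ← Real.rpow_mul (hw z).le]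
    have : -(1 / (p - 1)) * -(p - 1) = 1 := by field_simp
    rw [this, Real.rpow_one]
  have e2 : (fun z => (w z ^ (-(1 / (p - 1)))) ^ (-(1 / (p / (p - 1) - 1)))) = w := funext e1
  have b1 := H (fun z => w z ^ (-(1 / (p - 1)))) hs h2 (by rw [e2]; exact h1) (K ^ (1 / (p - 1)))
    (Real.one_le_rpow hK1 (by positivity)) (fun P => by
      rw [e2, q1]
      have n1 := EBILIN_mn_nonneg w (fun z => (hw z).le) P
      have n2 := EBILIN_mn_nonneg _ (fun z => (hs z).le) P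
      have h3 := Real.rpow_le_rpow (mul_nonneg n1 (Real.rpow_nonneg n2 _)) (hK P)
        (by positivity : (0 : ℝ) ≤ 1 / (p - 1))
      rw [Real.mul_rpow n1 (Real.rpow_nonneg n2 _), ← Real.rpow_mul n2] at h3
      have e3 : (p - 1) * (1 / (p - 1)) = 1 := by field_simp
      rw [e3, Real.rpow_one, mul_comm] at h3
      exact h3) g f hg hgs hf.continuous hfs n hn
  simp only [e1, q3, q4, q5] at b1
  have hF : ContDiff ℝ ((⊤ : ℕ∞) : WithTop ℕ∞) (fun y => ((f y : ℝ) : ℂ)) :=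
    Complex.ofRealCLM.contDiff.comp hf
  have hG : ContDiff ℝ ((⊤ : ℕ∞) : WithTop ℕ∞) (fun y => ((g y : ℝ) : ℂ)) :=
    Complex.ofRealCLM.contDiff.comp hg
  have hFs : HasCompactSupport (fun y => ((f y : ℝ) : ℂ)) :=
    hfs.comp_left (g := fun r : ℝ => (r : ℂ)) Complex.ofReal_zero
  have hGs : HasCompactSupport (fun y => ((g y : ℝ) : ℂ)) :=
    hgs.comp_left (g := fun r : ℝ => (r : ℂ)) Complex.ofReal_zero
  rw [Tn_symm n _ _ hF hFs hG hGs]
  have e4 : (fun x : ℂ => ((f x : ℝ) : ℂ) * Tn n (fun y => ((g y : ℝ) : ℂ)) x) =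
      fun x : ℂ => Tn n (fun y => ((g y : ℝ) : ℂ)) x * ((f x : ℝ) : ℂ) :=
    funext fun x => mul_comm _ _
  rw [e4]
  calc _ ≤ _ := b1
    _ = _ := by ring

end Pool.MP_75bf3e_an.BT
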