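import Pool.Agent.Lib_MP_75bf3e.ExBuck

/-!
# Piece ERDF: the Rubio de Francia algorithm

`exists_V`.  Let `A = C K` with `C` from `buckM` (`K > 0` because the `A_p` product is positive),
`V = Σ_{j ≥ 0} (2A)^{-j} Mt^j g` (`Mt^j` the iterates; all measurable by `measurable_Mt`).
* `g ≤ V` (term `j = 0`);
* `‖V‖_{L^q(s)} ≤ Σ (2A)^{-j} A^j ‖g‖ = 2 ‖g‖`: Minkowski for a countable sum
  (`ENNReal.lintegral_Lp_add_le` for finite sums and monotone convergence, or Hoelder with the weights `2^{-j}`: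
  `(Σ 2^{-j} a_j)^q ≤ 2^{q-1} Σ 2^{-j} a_j^q` with `a_j = A^{-j} Mt^j g`, which even gives
  `∫⁻ V^q s ≤ 2^{q-1} Σ 2^{-j} ∫⁻ a_j^q s ≤ 2^q ∫⁻ g^q s`: this is the form stated);
* `Mt V ≤ Σ (2A)^{-j} Mt^{j+1} g ≤ 2 A V` (`Mt_tsum_le`, `Mt_mul`); with `avg_le_Mt` this is the `A_1` inequality.
-/

set_option autoImplicit false

open MeasureTheory

namespace Pool.MP_75bf3e_an.BT

/-- the mean of a positive locally integrable function is positive -/
private theorem erdf_mn_pos (F : ℂ → ℝ) (hF : ∀ z, 0 < F z) (hL : LocallyIntegrable F volume)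
    (P : ℂ × ℤ) : 0 < mn F P := by
  have hl : (0 : ℝ) < (2 : ℝ) ^ P.2 := by positivity
  have hint : IntegrableOn F (sqn P) volume := by
    have h1 : IntegrableOn F (Metric.closedBall P.1 (2 * (2 : ℝ) ^ P.2)) volume :=
      hL.integrableOn_isCompact (isCompact_closedBall _ _)
    exact h1.mono_set (sq_subset_closedBall P.1 hl.le)
  have hpos : 0 < ∫ z in sqn P, F z := by
    rw [setIntegral_pos_iff_support_of_nonneg_ae (Filter.Eventually.of_forall fun z => (hF z).le) hint]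
    have hs : Function.support F = Set.univ := by
      ext z
      simp [(hF z).ne']
    rw [hs, Set.univ_inter]
    have : volume (sqn P) = ENNReal.ofReal ((2 : ℝ) ^ P.2 * (2 : ℝ) ^ P.2) := volume_sq P.1 hl.le
    rw [this, ENNReal.ofReal_pos]
    positivity
  unfold mn
  positivity

/-- Jensen for the weights `2^{-(j+1)}` -/
private theorem erdf_jensen_fin (q : ℝ) (hq : 1 ≤ q) (n : ℕ) : ∀ a : ℕ → ENNReal,
    (∑ j ∈ Finset.range n, (2⁻¹ : ENNReal) ^ (j + 1) * a j) ^ q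
      ≤ ∑ j ∈ Finset.range n, (2⁻¹ : ENNReal) ^ (j + 1) * a j ^ q := by
  induction n with
  | zero =>
    intro a
    simp [ENNReal.zero_rpow_of_pos (lt_of_lt_of_le one_pos hq)]
  | succ n ih =>
    intro a
    rw [Finset.sum_range_succ', Finset.sum_range_succ']
    have h1 : ∀ b : ℕ → ENNReal, ∑ j ∈ Finset.range n, (2⁻¹ : ENNReal) ^ (j + 1 + 1) * b (j + 1)
        = 2⁻¹ * ∑ j ∈ Finset.range n, (2⁻¹ : ENNReal) ^ (j + 1) * b (j + 1) := by
      intro b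
      rw [Finset.mul_sum]
      refine Finset.sum_congr rfl fun j _ => ?_
      rw [pow_succ (2⁻¹ : ENNReal) (j + 1)]
      ring
    rw [h1 a, h1 (fun j => a j ^ q), zero_add, pow_one]
    have h2 := ENNReal.rpow_arith_mean_le_arith_mean2_rpow 2⁻¹ 2⁻¹
      (∑ j ∈ Finset.range n, (2⁻¹ : ENNReal) ^ (j + 1) * a (j + 1)) (a 0)
      ENNReal.inv_two_add_inv_two hq
    refine h2.trans ?_
    gcongr
    exact ih (fun j => a (j + 1))

private theorem erdf_jensen (q : ℝ) (hq : 1 ≤ q) (a : ℕ → ENNReal) :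
    (∑' j, (2⁻¹ : ENNReal) ^ (j + 1) * a j) ^ q ≤ ∑' j, (2⁻¹ : ENNReal) ^ (j + 1) * a j ^ q := by
  have hq0 : 0 < q := lt_of_lt_of_le one_pos hq
  rw [← ENNReal.le_rpow_inv_iff hq0, ENNReal.tsum_eq_iSup_nat]
  refine iSup_le fun n => ?_
  rw [ENNReal.le_rpow_inv_iff hq0]
  exact (erdf_jensen_fin q hq n a).trans (ENNReal.sum_le_tsum _)

private theorem erdf_geom : ∑' j : ℕ, (2⁻¹ : ENNReal) ^ (j + 1) = 1 := by
  simp_rw [pow_succ]
  rw [ENNReal.tsum_mul_right, ENNReal.tsum_geometric, ENNReal.one_sub_inv_two, inv_inv]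
  exact ENNReal.mul_inv_cancel two_ne_zero ENNReal.ofNat_ne_top

theorem exists_V (p : ℝ) (hp : 1 < p) : ∃ C : ℝ, 0 < C ∧ ∀ (w : ℂ → ℝ), (∀ z, 0 < w z) →
    Measurable w → LocallyIntegrable w volume →
    LocallyIntegrable (fun z => w z ^ (-(1 / (p - 1)))) volume →
    ∀ K : ℝ, (∀ P : ℂ × ℤ, mn w P * (mn (fun z => w z ^ (-(1 / (p - 1)))) P) ^ (p - 1) ≤ K) →
    ∀ (g : ℂ → ENNReal), Measurable g → ∃ V : ℂ → ENNReal, Measurable V ∧ (∀ z, g z ≤ V z) ∧
      (∫⁻ x, V x ^ (p / (p - 1)) * ENNReal.ofReal (w x ^ (-(1 / (p - 1))))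
        ≤ 2 ^ (p / (p - 1)) * ∫⁻ x, g x ^ (p / (p - 1)) * ENNReal.ofReal (w x ^ (-(1 / (p - 1))))) ∧
      (∀ (c : ℂ) (k : ℤ), ∀ x ∈ sq c ((2 : ℝ) ^ k),
        (volume (sq c ((2 : ℝ) ^ k)))⁻¹ * ∫⁻ y in sq c ((2 : ℝ) ^ k), V y
          ≤ ENNReal.ofReal (C * K) * V x) := by
  obtain ⟨C, hC, hB⟩ := buckM p hp
  refine ⟨2 * C, by positivity, ?_⟩
  intro w hw hwm hwL hsL K hK g hg
  have hq : 1 ≤ p / (p - 1) := by
    rw [le_div_iff₀ (by linarith)]
    linarith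
  have hq0 : 0 < p / (p - 1) := lt_of_lt_of_le one_pos hq
  set q := p / (p - 1) with hqdef
  have hKpos : 0 < K := by
    have h1 := erdf_mn_pos w hw hwL (0, 0)
    have h2 := erdf_mn_pos (fun z => w z ^ (-(1 / (p - 1)))) (fun z => Real.rpow_pos_of_pos (hw z) _)
      hsL (0, 0)
    exact lt_of_lt_of_le (mul_pos h1 (Real.rpow_pos_of_pos h2 _)) (hK (0, 0))
  have hCK : 0 < C * K := mul_pos hC hKpos
  set A : ENNReal := ENNReal.ofReal (C * K) with hA
  have hA0 : A ≠ 0 := by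
    rw [hA, Ne, ENNReal.ofReal_eq_zero, not_le]
    exact hCK
  have hAt : A ≠ ⊤ := ENNReal.ofReal_ne_top
  set s : ℂ → ENNReal := fun x => ENNReal.ofReal (w x ^ (-(1 / (p - 1)))) with hs
  have hsm : Measurable s := (hwm.pow_const _).ennreal_ofReal
  have hB' : ∀ h : ℂ → ENNReal, Measurable h →
      ∫⁻ x, Mt h x ^ q * s x ≤ A ^ q * ∫⁻ x, h x ^ q * s x :=
    fun h hh => hB w hw hwm hwL hsL K hK h hh
  -- iterates
  have hitm : ∀ j : ℕ, Measurable (Mt^[j] g) := by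
    intro j
    cases j with
    | zero => exact hg
    | succ j =>
      rw [Function.iterate_succ']
      exact measurable_Mt _
  have hit : ∀ j : ℕ, ∫⁻ x, (Mt^[j] g) x ^ q * s x ≤ (A ^ j) ^ q * ∫⁻ x, g x ^ q * s x := by
    intro j
    induction j with
    | zero => simp
    | succ j ih =>
      rw [Function.iterate_succ']
      refine (hB' _ (hitm j)).trans ?_
      refine (mul_le_mul_right ih _).trans ?_
      rw [← mul_assoc, ← ENNReal.mul_rpow_of_nonneg _ _ hq0.le, pow_succ']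
  have h2A0 : (2 * A) ≠ 0 := mul_ne_zero two_ne_zero hA0
  have h2At : (2 * A) ≠ ⊤ := ENNReal.mul_ne_top ENNReal.ofNat_ne_top hAt
  set b : ENNReal := (2 * A)⁻¹ with hb
  have hbm : 2 * A * b = 1 := ENNReal.mul_inv_cancel h2A0 h2At
  set φ : ℕ → ℂ → ENNReal := fun j x => b ^ j * (Mt^[j] g) x with hφ
  have hφm : ∀ j, Measurable (φ j) := fun j => (hitm j).const_mul _
  refine ⟨fun x => ∑' j, φ j x, Measurable.tsum hφm, ?_, ?_, ?_⟩
  · intro z
    have h1 : φ 0 z = g z := by simp [hφ]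
    calc g z = φ 0 z := h1.symm
      _ ≤ ∑' j, φ j z := ENNReal.le_tsum 0
  · -- the norm
    have hA1 : A⁻¹ * A = 1 := ENNReal.inv_mul_cancel hA0 hAt
    have hpt : ∀ x, (∑' j, φ j x) ^ q * s x
        ≤ ∑' j, (2 ^ q * (2⁻¹ : ENNReal) ^ (j + 1) * ((A⁻¹) ^ j) ^ q) * ((Mt^[j] g) x ^ q * s x) := by
      intro x
      have h1 : (∑' j, φ j x) = 2 * ∑' j, (2⁻¹ : ENNReal) ^ (j + 1) * ((A⁻¹) ^ j * (Mt^[j] g) x) := by
        rw [← ENNReal.tsum_mul_left]
        refine tsum_congr fun j => ?_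
        have h2 : b = 2⁻¹ * A⁻¹ := by
          rw [hb, ENNReal.mul_inv (Or.inl two_ne_zero) (Or.inl ENNReal.ofNat_ne_top)]
        have h3 : (2 : ENNReal) * (2⁻¹) ^ (j + 1) = (2⁻¹) ^ j := by
          rw [pow_succ, mul_comm, mul_assoc, ENNReal.inv_mul_cancel two_ne_zero ENNReal.ofNat_ne_top,
            mul_one]
        simp only [hφ]
        rw [h2, mul_pow, ← h3]
        ring
      rw [h1, ENNReal.mul_rpow_of_nonneg _ _ hq0.le]
      have h4 := erdf_jensen q hq (fun j => (A⁻¹) ^ j * (Mt^[j] g) x)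
      calc 2 ^ q * (∑' j, (2⁻¹ : ENNReal) ^ (j + 1) * ((A⁻¹) ^ j * (Mt^[j] g) x)) ^ q * s x
          ≤ 2 ^ q * (∑' j, (2⁻¹ : ENNReal) ^ (j + 1) * ((A⁻¹) ^ j * (Mt^[j] g) x) ^ q) * s x := by
            gcongr
        _ = ∑' j, (2 ^ q * (2⁻¹ : ENNReal) ^ (j + 1) * ((A⁻¹) ^ j) ^ q) * ((Mt^[j] g) x ^ q * s x) := by
            rw [← ENNReal.tsum_mul_left, ← ENNReal.tsum_mul_right]
            refine tsum_congr fun j => ?_
            rw [ENNReal.mul_rpow_of_nonneg _ _ hq0.le]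
            ring
    calc ∫⁻ x, (∑' j, φ j x) ^ q * s x
        ≤ ∫⁻ x, ∑' j, (2 ^ q * (2⁻¹ : ENNReal) ^ (j + 1) * ((A⁻¹) ^ j) ^ q) *
            ((Mt^[j] g) x ^ q * s x) := lintegral_mono hpt
      _ = ∑' j, (2 ^ q * (2⁻¹ : ENNReal) ^ (j + 1) * ((A⁻¹) ^ j) ^ q) *
            ∫⁻ x, ((Mt^[j] g) x ^ q * s x) := by
          rw [lintegral_tsum]
          · refine tsum_congr fun j => ?_
            exact lintegral_const_mul _ (((hitm j).pow_const _).mul hsm)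
          · intro j
            exact ((((hitm j).pow_const _).mul hsm).const_mul _).aemeasurable
      _ ≤ ∑' j, (2 ^ q * (2⁻¹ : ENNReal) ^ (j + 1) * ((A⁻¹) ^ j) ^ q) *
            ((A ^ j) ^ q * ∫⁻ x, g x ^ q * s x) :=
          ENNReal.tsum_le_tsum fun j => mul_le_mul_right (hit j) _
      _ = ∑' j, (2⁻¹ : ENNReal) ^ (j + 1) * (2 ^ q * ∫⁻ x, g x ^ q * s x) := by
          refine tsum_congr fun j => ?_
          have h5 : ((A⁻¹) ^ j) ^ q * (A ^ j) ^ q = 1 := by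
            rw [← ENNReal.mul_rpow_of_nonneg _ _ hq0.le, ← mul_pow, hA1, one_pow, ENNReal.one_rpow]
          calc (2 ^ q * (2⁻¹ : ENNReal) ^ (j + 1) * ((A⁻¹) ^ j) ^ q) *
                ((A ^ j) ^ q * ∫⁻ x, g x ^ q * s x)
              = (((A⁻¹) ^ j) ^ q * (A ^ j) ^ q) * ((2⁻¹ : ENNReal) ^ (j + 1) *
                (2 ^ q * ∫⁻ x, g x ^ q * s x)) := by ring
            _ = (2⁻¹ : ENNReal) ^ (j + 1) * (2 ^ q * ∫⁻ x, g x ^ q * s x) := by rw [h5, one_mul]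
      _ = 2 ^ q * ∫⁻ x, g x ^ q * s x := by
          rw [ENNReal.tsum_mul_right, erdf_geom, one_mul]
  · -- the `A_1` inequality
    intro c k x hx
    have h1 : Mt (fun y => ∑' j, φ j y) x ≤ ∑' j, Mt (φ j) x := Mt_tsum_le φ hφm x
    have h2 : ∀ j, Mt (φ j) x = 2 * A * φ (j + 1) x := by
      intro j
      have h3 : Mt (φ j) x = b ^ j * Mt (Mt^[j] g) x := Mt_mul (Mt^[j] g) (hitm j) (b ^ j) x
      rw [h3]
      simp only [hφ]
      rw [Function.iterate_succ', Function.comp_apply]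
      calc b ^ j * Mt (Mt^[j] g) x = (2 * A * b) * (b ^ j * Mt (Mt^[j] g) x) := by rw [hbm, one_mul]
        _ = 2 * A * (b ^ (j + 1) * Mt (Mt^[j] g) x) := by rw [pow_succ]; ring
    have h4 : ENNReal.ofReal (2 * C * K) = 2 * A := by
      rw [hA, mul_assoc, ENNReal.ofReal_mul (by norm_num)]
      norm_num
    calc (volume (sq c ((2 : ℝ) ^ k)))⁻¹ * ∫⁻ y in sq c ((2 : ℝ) ^ k), ∑' j, φ j y
        ≤ Mt (fun y => ∑' j, φ j y) x := avg_le_Mt _ c k x hx
      _ ≤ ∑' j, Mt (φ j) x := h1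
      _ = ∑' j, 2 * A * φ (j + 1) x := tsum_congr h2
      _ = 2 * A * ∑' j, φ (j + 1) x := ENNReal.tsum_mul_left
      _ ≤ 2 * A * ∑' j, φ j x :=
          mul_le_mul_right
            (ENNReal.tsum_comp_le_tsum_of_injective (add_left_injective 1) (fun j => φ j x)) _
      _ = ENNReal.ofReal (2 * C * K) * ∑' j, φ j x := by rw [h4]

end Pool.MP_75bf3e_an.BT
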