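import Pool.Agent.Lib_MP_75bf3e.NKer

/-!
# Piece AFOUR0: `T^n f` is well defined, continuous and bounded

`fh f ξ = ∫ exp(-2πi <x,ξ>) f x` (this is the Fourier transform of `f` on the real inner product space `ℂ`,
`<x,ξ> = x.re ξ.re + x.im ξ.im`).  For `f` smooth with compact support `f` is a Schwartz function, so its Fourier
transform is Schwartz, in particular continuous, bounded and integrable (one can use
`HasCompactSupport.toSchwartzMap` (or the construction with `ContDiff`), `SchwartzMap.fourierTransformCLM` and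
`SchwartzMap.integrable`; check that the formula is `Real.fourierIntegral`/`𝓕`).
`|(ξ̄/ξ)^n| ≤ 1`, so `Tn n f` is continuous (dominated convergence) and bounded by `∫ |fh f|`.
`Tn_add`, `Tn_smul` by linearity of the integrals.
`Tn_neg`: `conj (Tn n f z) = ∫ exp(-2πi <ξ,z>) (ξ/ξ̄)^n conj(fh f ξ)`, `conj (fh f ξ) = fh (conj f) (-ξ)`; substitute `ξ → -ξ`.
-/

set_option autoImplicit false

open MeasureTheory

namespace Pool.MP_75bf3e_an.BT

noncomputable def fh (f : ℂ → ℂ) (ξ : ℂ) : ℂ :=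
  ∫ x : ℂ, Complex.exp (-(2 * (Real.pi : ℂ) * Complex.I *
    ((x.re * ξ.re + x.im * ξ.im : ℝ) : ℂ))) * f x

/-- `T^n f`, exactly as in the frozen statement -/
noncomputable def Tn (n : ℤ) (f : ℂ → ℂ) (z : ℂ) : ℂ :=
  ∫ ξ : ℂ, Complex.exp (2 * (Real.pi : ℂ) * Complex.I * ((ξ.re * z.re + ξ.im * z.im : ℝ) : ℂ)) *
    ((starRingEnd ℂ ξ / ξ) ^ n *
      ∫ x : ℂ, Complex.exp (-(2 * (Real.pi : ℂ) * Complex.I *
        ((x.re * ξ.re + x.im * ξ.im : ℝ) : ℂ))) * f x)

open FourierTransform in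
theorem fh_eq_fourier (f : ℂ → ℂ) : fh f = 𝓕 f := by
  funext ξ
  rw [Real.fourier_eq']
  unfold fh
  refine integral_congr_ae (Filter.Eventually.of_forall fun x => ?_)
  simp only [smul_eq_mul]
  congr 2
  rw [Complex.inner]
  have h : (ξ * (starRingEnd ℂ) x).re = x.re * ξ.re + x.im * ξ.im := by
    simp [Complex.mul_re]
    ring
  rw [h]
  push_cast
  ring

open FourierTransform in
theorem integrable_fh (f : ℂ → ℂ) (hf : ContDiff ℝ ((⊤ : ℕ∞) : WithTop ℕ∞) f)
    (hfs : HasCompactSupport f) : Integrable (fh f) volume := by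
  rw [fh_eq_fourier]
  exact (𝓕 (hfs.toSchwartzMap hf)).integrable

open FourierTransform in
theorem continuous_fh (f : ℂ → ℂ) (hf : ContDiff ℝ ((⊤ : ℕ∞) : WithTop ℕ∞) f)
    (hfs : HasCompactSupport f) : Continuous (fh f) := by
  rw [fh_eq_fourier]
  exact (𝓕 (hfs.toSchwartzMap hf)).continuous

theorem Tn_eq_fh (n : ℤ) (f : ℂ → ℂ) (z : ℂ) : Tn n f z =
    ∫ ξ : ℂ, Complex.exp (2 * (Real.pi : ℂ) * Complex.I *
      ((ξ.re * z.re + ξ.im * z.im : ℝ) : ℂ)) * ((starRingEnd ℂ ξ / ξ) ^ n * fh f ξ) := rfl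

theorem norm_mult_le (n : ℤ) (ξ : ℂ) : ‖(starRingEnd ℂ ξ / ξ) ^ n‖ ≤ 1 := by
  rw [norm_zpow, norm_div, RCLike.norm_conj]
  by_cases h : ξ = 0
  · subst h
    by_cases hn : n = 0
    · subst hn; simp
    · simp [zero_zpow n hn]
  · rw [div_self (norm_ne_zero_iff.2 h), one_zpow]

theorem norm_exp_phase (r : ℝ) : ‖Complex.exp (2 * (Real.pi : ℂ) * Complex.I * (r : ℂ))‖ = 1 := by
  have : (2 * (Real.pi : ℂ) * Complex.I * (r : ℂ)) = ((2 * Real.pi * r : ℝ) : ℂ) * Complex.I := by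
    push_cast; ring
  rw [this, Complex.norm_exp_ofReal_mul_I]

theorem measurable_mult (n : ℤ) : Measurable fun ξ : ℂ => (starRingEnd ℂ ξ / ξ) ^ n := by
  have h : Measurable fun ξ : ℂ => starRingEnd ℂ ξ / ξ :=
    (Complex.continuous_conj.measurable).div measurable_id
  exact h.pow_const n

theorem aesm_integrand (n : ℤ) (f : ℂ → ℂ) (hf : ContDiff ℝ ((⊤ : ℕ∞) : WithTop ℕ∞) f)
    (hfs : HasCompactSupport f) (z : ℂ) :
    AEStronglyMeasurable (fun ξ : ℂ => Complex.exp (2 * (Real.pi : ℂ) * Complex.I *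
      ((ξ.re * z.re + ξ.im * z.im : ℝ) : ℂ)) * ((starRingEnd ℂ ξ / ξ) ^ n * fh f ξ)) volume := by
  have h1 : Continuous fun ξ : ℂ => Complex.exp (2 * (Real.pi : ℂ) * Complex.I *
      ((ξ.re * z.re + ξ.im * z.im : ℝ) : ℂ)) := by
    refine Complex.continuous_exp.comp (continuous_const.mul (Complex.continuous_ofReal.comp ?_))
    exact (Complex.continuous_re.mul continuous_const).add (Complex.continuous_im.mul continuous_const)
  exact h1.aestronglyMeasurable.mul ((measurable_mult n).aestronglyMeasurable.mul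
    (integrable_fh f hf hfs).aestronglyMeasurable)

theorem norm_integrand_le (n : ℤ) (f : ℂ → ℂ) (z ξ : ℂ) :
    ‖Complex.exp (2 * (Real.pi : ℂ) * Complex.I *
      ((ξ.re * z.re + ξ.im * z.im : ℝ) : ℂ)) * ((starRingEnd ℂ ξ / ξ) ^ n * fh f ξ)‖
      ≤ ‖fh f ξ‖ := by
  rw [norm_mul, norm_mul, norm_exp_phase, one_mul]
  calc ‖(starRingEnd ℂ ξ / ξ) ^ n‖ * ‖fh f ξ‖ ≤ 1 * ‖fh f ξ‖ :=
        mul_le_mul_of_nonneg_right (norm_mult_le n ξ) (norm_nonneg _)
    _ = ‖fh f ξ‖ := one_mul _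

theorem integrable_integrand (n : ℤ) (f : ℂ → ℂ) (hf : ContDiff ℝ ((⊤ : ℕ∞) : WithTop ℕ∞) f)
    (hfs : HasCompactSupport f) (z : ℂ) :
    Integrable (fun ξ : ℂ => Complex.exp (2 * (Real.pi : ℂ) * Complex.I *
      ((ξ.re * z.re + ξ.im * z.im : ℝ) : ℂ)) * ((starRingEnd ℂ ξ / ξ) ^ n * fh f ξ)) volume :=
  (integrable_fh f hf hfs).mono (aesm_integrand n f hf hfs z)
    (Filter.Eventually.of_forall fun ξ => norm_integrand_le n f z ξ)

theorem continuous_Tn (n : ℤ) (f : ℂ → ℂ) (hf : ContDiff ℝ ((⊤ : ℕ∞) : WithTop ℕ∞) f)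
    (hfs : HasCompactSupport f) : Continuous (Tn n f) := by
  have h : Tn n f = fun z => ∫ ξ : ℂ, Complex.exp (2 * (Real.pi : ℂ) * Complex.I *
      ((ξ.re * z.re + ξ.im * z.im : ℝ) : ℂ)) * ((starRingEnd ℂ ξ / ξ) ^ n * fh f ξ) := rfl
  rw [h]
  refine continuous_of_dominated (bound := fun ξ => ‖fh f ξ‖)
    (fun z => aesm_integrand n f hf hfs z) ?_ (integrable_fh f hf hfs).norm ?_
  · exact fun z => Filter.Eventually.of_forall fun ξ => norm_integrand_le n f z ξ
  · refine Filter.Eventually.of_forall fun ξ => ?_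
    refine Continuous.mul ?_ continuous_const
    refine Complex.continuous_exp.comp (continuous_const.mul (Complex.continuous_ofReal.comp ?_))
    exact (continuous_const.mul Complex.continuous_re).add (continuous_const.mul Complex.continuous_im)

theorem bounded_Tn (n : ℤ) (f : ℂ → ℂ) (hf : ContDiff ℝ ((⊤ : ℕ∞) : WithTop ℕ∞) f)
    (hfs : HasCompactSupport f) : ∃ B : ℝ, ∀ z, ‖Tn n f z‖ ≤ B := by
  refine ⟨∫ ξ : ℂ, ‖fh f ξ‖, fun z => ?_⟩
  rw [Tn_eq_fh]
  exact norm_integral_le_of_norm_le (integrable_fh f hf hfs).norm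
    (Filter.Eventually.of_forall fun ξ => norm_integrand_le n f z ξ)

theorem fh_add (f g : ℂ → ℂ) (hf : ContDiff ℝ ((⊤ : ℕ∞) : WithTop ℕ∞) f)
    (hfs : HasCompactSupport f) (hg : ContDiff ℝ ((⊤ : ℕ∞) : WithTop ℕ∞) g)
    (hgs : HasCompactSupport g) (ξ : ℂ) : fh (fun x => f x + g x) ξ = fh f ξ + fh g ξ := by
  have hc : Continuous fun x : ℂ => Complex.exp (-(2 * (Real.pi : ℂ) * Complex.I *
      ((x.re * ξ.re + x.im * ξ.im : ℝ) : ℂ))) := by
    refine Complex.continuous_exp.comp (Continuous.neg (continuous_const.mul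
      (Complex.continuous_ofReal.comp ?_)))
    exact (Complex.continuous_re.mul continuous_const).add (Complex.continuous_im.mul continuous_const)
  unfold fh
  rw [← integral_add]
  · refine integral_congr_ae (Filter.Eventually.of_forall fun x => ?_)
    simp only [mul_add]
  · exact (hc.mul hf.continuous).integrable_of_hasCompactSupport hfs.mul_left
  · exact (hc.mul hg.continuous).integrable_of_hasCompactSupport hgs.mul_left

theorem Tn_add (n : ℤ) (f g : ℂ → ℂ) (hf : ContDiff ℝ ((⊤ : ℕ∞) : WithTop ℕ∞) f)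
    (hfs : HasCompactSupport f) (hg : ContDiff ℝ ((⊤ : ℕ∞) : WithTop ℕ∞) g)
    (hgs : HasCompactSupport g) (z : ℂ) : Tn n (fun x => f x + g x) z = Tn n f z + Tn n g z := by
  rw [Tn_eq_fh, Tn_eq_fh, Tn_eq_fh, ← integral_add (integrable_integrand n f hf hfs z)
    (integrable_integrand n g hg hgs z)]
  refine integral_congr_ae (Filter.Eventually.of_forall fun ξ => ?_)
  simp only
  rw [fh_add f g hf hfs hg hgs]
  ring

theorem fh_smul (c : ℂ) (f : ℂ → ℂ) (ξ : ℂ) : fh (fun x => c * f x) ξ = c * fh f ξ := by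
  unfold fh
  rw [← integral_const_mul]
  refine integral_congr_ae (Filter.Eventually.of_forall fun x => ?_)
  simp only
  ring

theorem Tn_smul (n : ℤ) (c : ℂ) (f : ℂ → ℂ) (z : ℂ) : Tn n (fun x => c * f x) z = c * Tn n f z := by
  rw [Tn_eq_fh, Tn_eq_fh, ← integral_const_mul]
  refine integral_congr_ae (Filter.Eventually.of_forall fun ξ => ?_)
  simp only
  rw [fh_smul]
  ring

theorem fh_conj (f : ℂ → ℂ) (ξ : ℂ) :
    fh (fun x => starRingEnd ℂ (f x)) (-ξ) = starRingEnd ℂ (fh f ξ) := by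
  unfold fh
  rw [← integral_conj]
  refine integral_congr_ae (Filter.Eventually.of_forall fun x => ?_)
  simp only [map_mul, ← Complex.exp_conj, map_neg, Complex.conj_ofReal, Complex.conj_I,
    Complex.neg_re, Complex.neg_im]
  congr 2
  have h2 : (starRingEnd ℂ) (2 : ℂ) = 2 := by
    have := Complex.conj_ofReal 2
    simpa using this
  rw [h2]
  push_cast
  ring

theorem Tn_neg (n : ℤ) (f : ℂ → ℂ) (z : ℂ) :
    Tn (-n) (fun x => starRingEnd ℂ (f x)) z = starRingEnd ℂ (Tn n f z) := by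
  rw [Tn_eq_fh, Tn_eq_fh, ← integral_conj, ← integral_neg_eq_self]
  refine integral_congr_ae (Filter.Eventually.of_forall fun ξ => ?_)
  simp only [map_mul, ← Complex.exp_conj, map_neg, Complex.conj_ofReal, Complex.conj_I,
    Complex.neg_re, Complex.neg_im, map_zpow₀, map_div₀, Complex.conj_conj]
  rw [fh_conj, neg_div_neg_eq, zpow_neg, ← inv_zpow, inv_div]
  have h2 : (starRingEnd ℂ) (2 : ℂ) = 2 := by
    have := Complex.conj_ofReal 2
    simpa using this
  rw [h2]
  congr 2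
  push_cast
  ring

end Pool.MP_75bf3e_an.BT
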