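import Pool.Agent.Lib_MP_75bf3e.Four0

/-!
# Piece AFOUR1: the Fourier transform of `conj(ξ)^k exp(-π t |ξ|^2)`, and two Gamma integrals

`four_gauss`.  Let `J k = ∫ exp(2πi<ξ,z>) conj(ξ)^k exp(-π t |ξ|^2)`.  `J 0 = t⁻¹ exp(-π|z|^2/t)` is the Fourier transform of a
gaussian (`GaussianFourier.integral_cexp_neg_mul_sq_norm_add` on the inner product space `ℂ` over `ℝ` of dimension 2, or a
product of two one dimensional ones).  Recursion `J (k+1) = (i z̄/t) J k`: with `∂ = (∂_1 - i ∂_2)/2` (derivatives in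
the directions `1` and `I`), `∂ exp(-π t|ξ|^2) = - π t ξ̄ exp(-π t |ξ|^2)`, `∂ (ξ̄^k) = 0`, `∂ exp(2πi<ξ,z>) = π i z̄ exp(...)`
(`2<ξ,z> = ξ z̄ + ξ̄ z`); integrate by parts (`integral_mul_fderiv_eq_neg_fderiv_mul_of_integrable`).
(Another way: `∫ exp(2πi<ξ,z> + λ ξ̄ - π t|ξ|^2) = t⁻¹ exp(-π|z|^2/t + iλ z̄/t)` for `λ ∈ ℂ` and compare the coefficients.)

`gamma1`: for `a > 0`, `n ≥ 1`: `∫_0^∞ t^{n-1} e^{-a t} dt = (n-1)!/a^n` (`Real.integral_rpow_mul_exp_neg_mul_Ioi` or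
`integral_pow_mul_exp...`).  With `a = π|ξ|^2`, `ξ ≠ 0`, and `ξ̄^{2n}/|ξ|^{2n} = (ξ̄/ξ)^n` this is `sub1`.
`gamma2`: for `a > 0`: `∫_0^∞ t^{-(n+2)} e^{-a/t} dt = n!/a^{n+1}`: substitute `t = 1/s`
(`integral_comp_rpow_Ioi` / `integral_comp_inv_Ioi`...), with the integrability.
-/

set_option autoImplicit false

open MeasureTheory

namespace Pool.MP_75bf3e_an.BT

/-! ### integrability of gaussians with polynomial weights -/

theorem aux_pow_le (k : ℕ) (e : ℝ) (he : 0 < e) (x : ℝ) :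
    x ^ k ≤ (1 + k.factorial / e ^ k) * Real.exp (e * x ^ 2) := by
  have h1 : (e * x ^ 2) ^ k / k.factorial ≤ Real.exp (e * x ^ 2) :=
    Real.pow_div_factorial_le_exp (e * x ^ 2) (by positivity) k
  have hk : (0 : ℝ) < k.factorial := by exact_mod_cast k.factorial_pos
  have h2 : x ^ (2 * k) ≤ k.factorial / e ^ k * Real.exp (e * x ^ 2) := by
    rw [div_le_iff₀ hk] at h1
    rw [div_mul_eq_mul_div, le_div_iff₀ (by positivity)]
    calc x ^ (2 * k) * e ^ k = (e * x ^ 2) ^ k := by rw [mul_pow, ← pow_mul]; ring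
      _ ≤ _ := by linarith
  have h3 : x ^ k ≤ 1 + x ^ (2 * k) := by
    have : x ^ (2 * k) = (x ^ k) ^ 2 := by rw [← pow_mul]; ring_nf
    rw [this]
    nlinarith [sq_nonneg (x ^ k - 1), sq_nonneg (x ^ k)]
  have h4 : (1 : ℝ) ≤ Real.exp (e * x ^ 2) := Real.one_le_exp (by positivity)
  calc x ^ k ≤ 1 + x ^ (2 * k) := h3
    _ ≤ Real.exp (e * x ^ 2) + k.factorial / e ^ k * Real.exp (e * x ^ 2) := add_le_add h4 h2
    _ = _ := by ring

theorem aux_integrable_real (t : ℝ) (ht : 0 < t) :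
    Integrable (fun ξ : ℂ => Real.exp (-(Real.pi * t * ‖ξ‖ ^ 2))) volume := by
  have h := GaussianFourier.integrable_cexp_neg_mul_sq_norm_add (V := ℂ)
    (b := ((Real.pi * t : ℝ) : ℂ)) (by simpa using by positivity) 0 0
  have h2 := h.norm
  refine h2.congr (Filter.Eventually.of_forall fun ξ => ?_)
  simp only [inner_zero_left, Complex.ofReal_zero, mul_zero, add_zero]
  rw [Complex.norm_exp]
  congr 1
  have : (-((Real.pi * t : ℝ) : ℂ) * (‖ξ‖ : ℂ) ^ 2) = ((-(Real.pi * t * ‖ξ‖ ^ 2) : ℝ) : ℂ) := by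
    push_cast; ring
  rw [this, Complex.ofReal_re]

theorem aux_integrable_of_le (k : ℕ) (t : ℝ) (ht : 0 < t) (C : ℝ) (g : ℂ → ℂ)
    (hg : Continuous g)
    (hle : ∀ ξ, ‖g ξ‖ ≤ C * ‖ξ‖ ^ k * Real.exp (-(Real.pi * t * ‖ξ‖ ^ 2))) :
    Integrable g volume := by
  have hpi := Real.pi_pos
  have h0 := (aux_integrable_real (t / 2) (by positivity)).const_mul
    (|C| * (1 + k.factorial / (Real.pi * t / 2) ^ k))
  refine Integrable.mono' h0 hg.aestronglyMeasurable (Filter.Eventually.of_forall fun ξ => ?_)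
  refine (hle ξ).trans ?_
  have h1 := aux_pow_le k (Real.pi * t / 2) (by positivity) ‖ξ‖
  have h2 : Real.exp (-(Real.pi * t * ‖ξ‖ ^ 2)) =
      Real.exp (-(Real.pi * t / 2 * ‖ξ‖ ^ 2)) * Real.exp (-(Real.pi * (t / 2) * ‖ξ‖ ^ 2)) := by
    rw [← Real.exp_add]; congr 1; ring
  have h3 : Real.exp (Real.pi * t / 2 * ‖ξ‖ ^ 2) * Real.exp (-(Real.pi * t / 2 * ‖ξ‖ ^ 2)) = 1 := by
    rw [← Real.exp_add]; simp
  calc C * ‖ξ‖ ^ k * Real.exp (-(Real.pi * t * ‖ξ‖ ^ 2))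
      ≤ |C| * ‖ξ‖ ^ k * Real.exp (-(Real.pi * t * ‖ξ‖ ^ 2)) := by
        gcongr; exact le_abs_self C
    _ ≤ |C| * ((1 + k.factorial / (Real.pi * t / 2) ^ k) * Real.exp (Real.pi * t / 2 * ‖ξ‖ ^ 2)) *
        Real.exp (-(Real.pi * t * ‖ξ‖ ^ 2)) := by gcongr
    _ = |C| * (1 + k.factorial / (Real.pi * t / 2) ^ k) *
        (Real.exp (Real.pi * t / 2 * ‖ξ‖ ^ 2) * Real.exp (-(Real.pi * t / 2 * ‖ξ‖ ^ 2))) *
          Real.exp (-(Real.pi * (t / 2) * ‖ξ‖ ^ 2)) := by rw [h2]; ring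
    _ = |C| * (1 + k.factorial / (Real.pi * t / 2) ^ k) *
          Real.exp (-(Real.pi * (t / 2) * ‖ξ‖ ^ 2)) := by rw [h3]; ring

theorem integrable_gauss (k : ℕ) (t : ℝ) (ht : 0 < t) :
    Integrable (fun ξ : ℂ => (starRingEnd ℂ ξ) ^ k *
      ((Real.exp (-(Real.pi * t * ‖ξ‖ ^ 2)) : ℝ) : ℂ)) volume := by
  refine aux_integrable_of_le k t ht 1 _ ?_ ?_
  · refine Continuous.mul ?_ ?_
    · exact (Complex.continuous_conj).pow k
    · exact Complex.continuous_ofReal.comp (by fun_prop)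
  · intro ξ
    rw [norm_mul, norm_pow, Complex.norm_real, Real.norm_eq_abs, Real.abs_exp, RCLike.norm_conj,
      one_mul]

/-! ### the Fourier transform -/

/-- the character -/
noncomputable def auxE (z ξ : ℂ) : ℂ :=
  Complex.exp (2 * (Real.pi : ℂ) * Complex.I * ((ξ.re * z.re + ξ.im * z.im : ℝ) : ℂ))

/-- the gaussian -/
noncomputable def auxG (t : ℝ) (ξ : ℂ) : ℂ := ((Real.exp (-(Real.pi * t * ‖ξ‖ ^ 2)) : ℝ) : ℂ)

theorem norm_auxE (z ξ : ℂ) : ‖auxE z ξ‖ = 1 := by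
  unfold auxE
  have : 2 * (Real.pi : ℂ) * Complex.I * ((ξ.re * z.re + ξ.im * z.im : ℝ) : ℂ) =
      ((2 * Real.pi * (ξ.re * z.re + ξ.im * z.im) : ℝ) : ℂ) * Complex.I := by
    push_cast; ring
  rw [this, Complex.norm_exp_ofReal_mul_I]

theorem continuous_auxE (z : ℂ) : Continuous (auxE z) := by
  unfold auxE
  fun_prop

theorem continuous_auxG (t : ℝ) : Continuous (auxG t) := by
  unfold auxG
  exact Complex.continuous_ofReal.comp (by fun_prop)

theorem norm_auxG (t : ℝ) (ξ : ℂ) : ‖auxG t ξ‖ = Real.exp (-(Real.pi * t * ‖ξ‖ ^ 2)) := by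
  unfold auxG
  rw [Complex.norm_real, Real.norm_eq_abs, Real.abs_exp]

theorem aux_int_mul (k : ℕ) (t : ℝ) (ht : 0 < t) (z : ℂ) (C : ℝ) (p : ℂ → ℂ) (hp : Continuous p)
    (hle : ∀ ξ, ‖p ξ‖ ≤ C * ‖ξ‖ ^ k) :
    Integrable (fun ξ => auxE z ξ * (p ξ * auxG t ξ)) volume := by
  refine aux_integrable_of_le k t ht C _ ?_ ?_
  · exact (continuous_auxE z).mul (hp.mul (continuous_auxG t))
  · intro ξ
    rw [norm_mul, norm_auxE, one_mul, norm_mul, norm_auxG]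
    gcongr
    exact hle ξ

/-- integral of a line derivative of an integrable function -/
theorem aux_int_zero (F F' : ℂ → ℂ) (v : ℂ) (hF : Integrable F volume) (hF' : Integrable F' volume)
    (hd : ∀ x, HasLineDerivAt ℝ F (F' x) x v) : ∫ x, F' x = 0 := by
  have h := integral_bilinear_hasLineDerivAt_right_eq_neg_left_of_integrable (μ := (volume : Measure ℂ))
    (f := F) (f' := F') (g := fun _ : ℂ => (1 : ℂ)) (g' := fun _ : ℂ => (0 : ℂ)) (v := v)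
    (B := ContinuousLinearMap.mul ℝ ℂ) (by simpa using hF') (by simp) (by simpa using hF)
    (fun x _ => hd x) (fun x _ => by
      unfold HasLineDerivAt
      exact hasDerivAt_const _ _)
  simp only [ContinuousLinearMap.mul_apply', mul_zero, integral_zero, mul_one] at h
  have : (0 : ℂ) = -∫ x, F' x := h
  rw [eq_comm, neg_eq_zero] at this
  exact this

theorem aux_deriv (k : ℕ) (t : ℝ) (z ξ v : ℂ) :
    HasLineDerivAt ℝ (fun ξ => auxE z ξ * ((starRingEnd ℂ ξ) ^ k * auxG t ξ))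
      (auxE z ξ * ((2 * (Real.pi : ℂ) * Complex.I * ((v.re * z.re + v.im * z.im : ℝ) : ℂ) *
          (starRingEnd ℂ ξ) ^ k + k * (starRingEnd ℂ ξ) ^ (k - 1) * starRingEnd ℂ v -
          ((2 * Real.pi * t * (ξ.re * v.re + ξ.im * v.im) : ℝ) : ℂ) * (starRingEnd ℂ ξ) ^ k) *
          auxG t ξ)) ξ v := by
  unfold HasLineDerivAt
  -- exponential
  have h1 : HasDerivAt (fun s : ℝ => auxE z (ξ + s • v))
      (auxE z ξ * (2 * (Real.pi : ℂ) * Complex.I * ((v.re * z.re + v.im * z.im : ℝ) : ℂ))) 0 := by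
    unfold auxE
    have h0 : HasDerivAt (fun s : ℝ => 2 * (Real.pi : ℂ) * Complex.I *
        (((ξ + s • v).re * z.re + (ξ + s • v).im * z.im : ℝ) : ℂ))
        (2 * (Real.pi : ℂ) * Complex.I * ((v.re * z.re + v.im * z.im : ℝ) : ℂ)) 0 := by
      refine HasDerivAt.const_mul _ ?_
      refine HasDerivAt.ofReal_comp ?_
      have e : (fun s : ℝ => (ξ + s • v).re * z.re + (ξ + s • v).im * z.im) =
          fun s : ℝ => s * (v.re * z.re + v.im * z.im) + (ξ.re * z.re + ξ.im * z.im) := by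
        funext s
        simp
        ring
      rw [e]
      simpa using ((hasDerivAt_id (0 : ℝ)).mul_const (v.re * z.re + v.im * z.im)).add_const
        (ξ.re * z.re + ξ.im * z.im)
    have h := h0.cexp
    simpa using h
  -- power
  have h2 : HasDerivAt (fun s : ℝ => (starRingEnd ℂ (ξ + s • v)) ^ k)
      (k * (starRingEnd ℂ ξ) ^ (k - 1) * starRingEnd ℂ v) 0 := by
    have h0 : HasDerivAt (fun s : ℝ => starRingEnd ℂ (ξ + s • v)) (starRingEnd ℂ v) 0 := by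
      have e : (fun s : ℝ => starRingEnd ℂ (ξ + s • v)) =
          fun s : ℝ => (s : ℂ) * starRingEnd ℂ v + starRingEnd ℂ ξ := by
        funext s
        simp
        ring
      rw [e]
      have h := ((Complex.ofRealCLM.hasDerivAt (x := (0 : ℝ))).mul_const (starRingEnd ℂ v)).add_const
        (starRingEnd ℂ ξ)
      simpa using h
    have h := h0.fun_pow k
    simpa using h
  -- gaussian
  have h3 : HasDerivAt (fun s : ℝ => auxG t (ξ + s • v))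
      (-(((2 * Real.pi * t * (ξ.re * v.re + ξ.im * v.im) : ℝ) : ℂ)) * auxG t ξ) 0 := by
    unfold auxG
    have h0 : HasDerivAt (fun s : ℝ => Real.exp (-(Real.pi * t * ‖ξ + s • v‖ ^ 2)))
        (Real.exp (-(Real.pi * t * ‖ξ‖ ^ 2)) * (-(2 * Real.pi * t * (ξ.re * v.re + ξ.im * v.im)))) 0 := by
      have e : (fun s : ℝ => -(Real.pi * t * ‖ξ + s • v‖ ^ 2)) =
          fun s : ℝ => s ^ 2 * (-(Real.pi * t * (v.re ^ 2 + v.im ^ 2))) +
            (s * (-(2 * Real.pi * t * (ξ.re * v.re + ξ.im * v.im))) +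
            (-(Real.pi * t * (ξ.re ^ 2 + ξ.im ^ 2)))) := by
        funext s
        rw [← Complex.normSq_eq_norm_sq, Complex.normSq_apply]
        simp
        ring
      have h : HasDerivAt (fun s : ℝ => -(Real.pi * t * ‖ξ + s • v‖ ^ 2))
          (-(2 * Real.pi * t * (ξ.re * v.re + ξ.im * v.im))) 0 := by
        rw [e]
        have ha := ((hasDerivAt_pow 2 (0 : ℝ)).mul_const (-(Real.pi * t * (v.re ^ 2 + v.im ^ 2)))).fun_add
          (((hasDerivAt_id (0 : ℝ)).mul_const (-(2 * Real.pi * t * (ξ.re * v.re + ξ.im * v.im)))).add_const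
            (-(Real.pi * t * (ξ.re ^ 2 + ξ.im ^ 2))))
        simpa using ha
      have h' := h.exp
      simpa using h'
    have h := h0.ofReal_comp
    have e2 : ((Real.exp (-(Real.pi * t * ‖ξ‖ ^ 2)) *
        (-(2 * Real.pi * t * (ξ.re * v.re + ξ.im * v.im))) : ℝ) : ℂ) =
        -(((2 * Real.pi * t * (ξ.re * v.re + ξ.im * v.im) : ℝ) : ℂ)) *
          ((Real.exp (-(Real.pi * t * ‖ξ‖ ^ 2)) : ℝ) : ℂ) := by
      push_cast; ring
    rw [e2] at h
    exact h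
  have h := h1.fun_mul (h2.fun_mul h3)
  simp only [zero_smul, add_zero] at h
  refine h.congr_deriv ?_
  ring

theorem aux_J_zero (t : ℝ) (ht : 0 < t) (z : ℂ) :
    ∫ ξ : ℂ, auxE z ξ * ((starRingEnd ℂ ξ) ^ 0 * auxG t ξ) =
      ((t⁻¹ * Real.exp (-(Real.pi * ‖z‖ ^ 2 / t)) : ℝ) : ℂ) := by
  have hpi := Real.pi_pos
  have h := GaussianFourier.integral_cexp_neg_mul_sq_norm_add (V := ℂ)
    (b := ((Real.pi * t : ℝ) : ℂ)) (by simpa using by positivity) (2 * (Real.pi : ℂ) * Complex.I) z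
  have e1 : ∀ ξ : ℂ, Complex.exp (-((Real.pi * t : ℝ) : ℂ) * (‖ξ‖ : ℂ) ^ 2 +
      2 * (Real.pi : ℂ) * Complex.I * ((inner ℝ z ξ : ℝ) : ℂ)) =
      auxE z ξ * ((starRingEnd ℂ ξ) ^ 0 * auxG t ξ) := by
    intro ξ
    unfold auxE auxG
    rw [Complex.exp_add, pow_zero, one_mul, mul_comm, Complex.ofReal_exp]
    congr 1
    · congr 2
      have : (inner ℝ z ξ : ℝ) = ξ.re * z.re + ξ.im * z.im := by
        simp [Complex.inner]
      rw [this]
    · congr 1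
      push_cast; ring
  simp_rw [e1] at h
  rw [h]
  have e2 : (Module.finrank ℝ ℂ / 2 : ℂ) = 1 := by
    rw [Complex.finrank_real_complex]; norm_num
  rw [e2, Complex.cpow_one]
  have e3 : (2 * (Real.pi : ℂ) * Complex.I) ^ 2 * (‖z‖ : ℂ) ^ 2 / (4 * ((Real.pi * t : ℝ) : ℂ)) =
      ((-(Real.pi * ‖z‖ ^ 2 / t) : ℝ) : ℂ) := by
    have hp : (Real.pi : ℂ) ≠ 0 := by exact_mod_cast hpi.ne'
    have htc : (t : ℂ) ≠ 0 := by exact_mod_cast ht.ne'
    push_cast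
    field_simp
    rw [Complex.I_sq]
    ring
  rw [e3, ← Complex.ofReal_exp]
  have hp : (Real.pi : ℂ) ≠ 0 := by exact_mod_cast hpi.ne'
  have htc : (t : ℂ) ≠ 0 := by exact_mod_cast ht.ne'
  push_cast
  field_simp

theorem aux_J_succ (k : ℕ) (t : ℝ) (ht : 0 < t) (z : ℂ) :
    ∫ ξ : ℂ, auxE z ξ * ((starRingEnd ℂ ξ) ^ (k + 1) * auxG t ξ) =
      (Complex.I * starRingEnd ℂ z / (t : ℂ)) *
        ∫ ξ : ℂ, auxE z ξ * ((starRingEnd ℂ ξ) ^ k * auxG t ξ) := by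
  have hpi := Real.pi_pos
  have htc : (t : ℂ) ≠ 0 := by exact_mod_cast ht.ne'
  have hpc : (Real.pi : ℂ) ≠ 0 := by exact_mod_cast hpi.ne'
  have cc : Continuous (fun ξ : ℂ => starRingEnd ℂ ξ) := Complex.continuous_conj
  have hk : Integrable (fun ξ : ℂ => auxE z ξ * ((starRingEnd ℂ ξ) ^ k * auxG t ξ)) volume :=
    aux_int_mul k t ht z 1 _ (cc.pow k) (fun ξ => by rw [norm_pow, RCLike.norm_conj, one_mul])
  have hk1 : Integrable (fun ξ : ℂ => auxE z ξ * ((starRingEnd ℂ ξ) ^ (k + 1) * auxG t ξ)) volume :=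
    aux_int_mul (k + 1) t ht z 1 _ (cc.pow (k + 1))
      (fun ξ => by rw [norm_pow, RCLike.norm_conj, one_mul])
  have hkm : Integrable (fun ξ : ℂ => auxE z ξ * ((starRingEnd ℂ ξ) ^ (k - 1) * auxG t ξ)) volume :=
    aux_int_mul (k - 1) t ht z 1 _ (cc.pow (k - 1))
      (fun ξ => by rw [norm_pow, RCLike.norm_conj, one_mul])
  have hv : ∀ v : ℂ, Integrable (fun ξ : ℂ => auxE z ξ *
      ((((ξ.re * v.re + ξ.im * v.im : ℝ) : ℂ) * (starRingEnd ℂ ξ) ^ k) * auxG t ξ)) volume := by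
    intro v
    refine aux_int_mul (k + 1) t ht z (2 * ‖v‖) _ ?_ ?_
    · refine Continuous.mul ?_ (cc.pow k)
      exact Complex.continuous_ofReal.comp (by fun_prop)
    · intro ξ
      rw [norm_mul, norm_pow, RCLike.norm_conj, Complex.norm_real, Real.norm_eq_abs, pow_succ]
      have h1 := Complex.abs_re_le_norm ξ
      have h2 := Complex.abs_im_le_norm ξ
      have h3 := Complex.abs_re_le_norm v
      have h4 := Complex.abs_im_le_norm v
      have h5 : |ξ.re * v.re + ξ.im * v.im| ≤ 2 * ‖v‖ * ‖ξ‖ := by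
        refine (abs_add_le _ _).trans ?_
        rw [abs_mul, abs_mul]
        have a1 : |ξ.re| * |v.re| ≤ ‖ξ‖ * ‖v‖ := by gcongr
        have a2 : |ξ.im| * |v.im| ≤ ‖ξ‖ * ‖v‖ := by gcongr
        nlinarith
      calc |ξ.re * v.re + ξ.im * v.im| * ‖ξ‖ ^ k ≤ 2 * ‖v‖ * ‖ξ‖ * ‖ξ‖ ^ k := by gcongr
        _ = _ := by ring
  -- the derivative integrand
  have key : ∀ v : ℂ,
      (2 * (Real.pi : ℂ) * Complex.I * ((v.re * z.re + v.im * z.im : ℝ) : ℂ)) *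
        (∫ ξ : ℂ, auxE z ξ * ((starRingEnd ℂ ξ) ^ k * auxG t ξ)) +
      (k * starRingEnd ℂ v) * (∫ ξ : ℂ, auxE z ξ * ((starRingEnd ℂ ξ) ^ (k - 1) * auxG t ξ)) -
      (2 * (Real.pi : ℂ) * t) * (∫ ξ : ℂ, auxE z ξ *
        ((((ξ.re * v.re + ξ.im * v.im : ℝ) : ℂ) * (starRingEnd ℂ ξ) ^ k) * auxG t ξ)) = 0 := by
    intro v
    have i1 : Integrable (fun ξ : ℂ =>
        (2 * (Real.pi : ℂ) * Complex.I * ((v.re * z.re + v.im * z.im : ℝ) : ℂ)) *
          (auxE z ξ * ((starRingEnd ℂ ξ) ^ k * auxG t ξ)) +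
        (k * starRingEnd ℂ v) * (auxE z ξ * ((starRingEnd ℂ ξ) ^ (k - 1) * auxG t ξ))) volume :=
      (hk.const_mul _).add (hkm.const_mul _)
    have i2 : Integrable (fun ξ : ℂ => (2 * (Real.pi : ℂ) * t) * (auxE z ξ *
        ((((ξ.re * v.re + ξ.im * v.im : ℝ) : ℂ) * (starRingEnd ℂ ξ) ^ k) * auxG t ξ))) volume :=
      (hv v).const_mul _
    rw [← integral_const_mul, ← integral_const_mul, ← integral_const_mul,
      ← integral_add (hk.const_mul _) (hkm.const_mul _),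
      ← integral_sub i1 i2]
    refine aux_int_zero (fun ξ => auxE z ξ * ((starRingEnd ℂ ξ) ^ k * auxG t ξ)) _ v hk
      (i1.sub i2) ?_
    intro ξ
    have h := aux_deriv k t z ξ v
    unfold HasLineDerivAt at h ⊢
    refine h.congr_deriv ?_
    push_cast
    ring
  have k1 := key 1
  have k2 := key Complex.I
  have e1 : ∫ ξ : ℂ, auxE z ξ * ((starRingEnd ℂ ξ) ^ (k + 1) * auxG t ξ) =
      (∫ ξ : ℂ, auxE z ξ *
        ((((ξ.re * (1 : ℂ).re + ξ.im * (1 : ℂ).im : ℝ) : ℂ) * (starRingEnd ℂ ξ) ^ k) * auxG t ξ)) -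
      Complex.I * (∫ ξ : ℂ, auxE z ξ *
        ((((ξ.re * Complex.I.re + ξ.im * Complex.I.im : ℝ) : ℂ) * (starRingEnd ℂ ξ) ^ k) *
          auxG t ξ)) := by
    rw [← integral_const_mul, ← integral_sub (hv 1) ((hv Complex.I).const_mul _)]
    refine integral_congr_ae (Filter.Eventually.of_forall fun ξ => ?_)
    simp only
    have e : starRingEnd ℂ ξ = (ξ.re : ℂ) - Complex.I * (ξ.im : ℂ) := by
      apply Complex.ext <;> simp
    rw [pow_succ]
    simp only [Complex.one_re, Complex.one_im, Complex.I_re, Complex.I_im, mul_one, mul_zero,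
      add_zero, zero_add]
    rw [show (starRingEnd ℂ ξ) ^ k * starRingEnd ℂ ξ =
      (starRingEnd ℂ ξ) ^ k * ((ξ.re : ℂ) - Complex.I * (ξ.im : ℂ)) by rw [← e]]
    ring
  rw [e1]
  set A := ∫ ξ : ℂ, auxE z ξ *
        ((((ξ.re * (1 : ℂ).re + ξ.im * (1 : ℂ).im : ℝ) : ℂ) * (starRingEnd ℂ ξ) ^ k) * auxG t ξ)
  set B := ∫ ξ : ℂ, auxE z ξ *
        ((((ξ.re * Complex.I.re + ξ.im * Complex.I.im : ℝ) : ℂ) * (starRingEnd ℂ ξ) ^ k) *
          auxG t ξ)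
  set J := ∫ ξ : ℂ, auxE z ξ * ((starRingEnd ℂ ξ) ^ k * auxG t ξ)
  set J' := ∫ ξ : ℂ, auxE z ξ * ((starRingEnd ℂ ξ) ^ (k - 1) * auxG t ξ)
  have ez : starRingEnd ℂ z = (z.re : ℂ) - Complex.I * (z.im : ℂ) := by
    apply Complex.ext <;> simp
  simp only [Complex.one_re, Complex.one_im, Complex.I_re, Complex.I_im, one_mul, zero_mul,
    add_zero, zero_add, map_one, Complex.conj_I] at k1 k2
  rw [ez]
  field_simp
  have k3 : (2 * (Real.pi : ℂ)) * ((t : ℂ) * (A - Complex.I * B) -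
      Complex.I * ((z.re : ℂ) - Complex.I * (z.im : ℂ)) * J) = 0 := by
    have hI : Complex.I * Complex.I = -1 := Complex.I_mul_I
    linear_combination (-1 : ℂ) * k1 + Complex.I * k2 + (k * J') * hI
  have h2p : (2 * (Real.pi : ℂ)) ≠ 0 := by simp [hpc]
  have k4 := (mul_eq_zero.mp k3).resolve_left h2p
  linear_combination k4

theorem four_gauss (k : ℕ) (t : ℝ) (ht : 0 < t) (z : ℂ) :
    ∫ ξ : ℂ, Complex.exp (2 * (Real.pi : ℂ) * Complex.I * ((ξ.re * z.re + ξ.im * z.im : ℝ) : ℂ)) *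
        ((starRingEnd ℂ ξ) ^ k * ((Real.exp (-(Real.pi * t * ‖ξ‖ ^ 2)) : ℝ) : ℂ))
      = (Complex.I * starRingEnd ℂ z / (t : ℂ)) ^ k *
          ((t⁻¹ * Real.exp (-(Real.pi * ‖z‖ ^ 2 / t)) : ℝ) : ℂ) := by
  have h : ∫ ξ : ℂ, auxE z ξ * ((starRingEnd ℂ ξ) ^ k * auxG t ξ) =
      (Complex.I * starRingEnd ℂ z / (t : ℂ)) ^ k *
          ((t⁻¹ * Real.exp (-(Real.pi * ‖z‖ ^ 2 / t)) : ℝ) : ℂ) := by
    induction k with
    | zero => rw [aux_J_zero t ht z, pow_zero, one_mul]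
    | succ k ih => rw [aux_J_succ k t ht z, ih, pow_succ]; ring
  exact h

/-! ### Gamma integrals -/

theorem gamma1 (n : ℕ) (hn : 1 ≤ n) (a : ℝ) (ha : 0 < a) :
    IntegrableOn (fun t : ℝ => t ^ (n - 1) * Real.exp (-(a * t))) (Set.Ioi 0) ∧
    ∫ t in Set.Ioi (0 : ℝ), t ^ (n - 1) * Real.exp (-(a * t)) = (n - 1).factorial / a ^ n := by
  obtain ⟨m, rfl⟩ : ∃ m, n = m + 1 := ⟨n - 1, by omega⟩
  simp only [Nat.add_sub_cancel]
  constructor
  · have h := integrableOn_rpow_mul_exp_neg_mul_rpow (p := 1) (s := (m : ℝ)) (b := a)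
      (by have : (0 : ℝ) ≤ m := Nat.cast_nonneg m
          linarith) one_pos ha
    refine h.congr_fun (fun x _ => ?_) measurableSet_Ioi
    simp only [Real.rpow_one, Real.rpow_natCast, neg_mul]
  · have h := Real.integral_rpow_mul_exp_neg_mul_Ioi (a := (m : ℝ) + 1) (r := a) (by positivity) ha
    have e : ∀ x : ℝ, x ^ ((m : ℝ) + 1 - 1) * Real.exp (-(a * x)) = x ^ m * Real.exp (-(a * x)) := by
      intro x
      rw [add_sub_cancel_right, Real.rpow_natCast]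
    simp_rw [e] at h
    rw [h, Real.Gamma_nat_eq_factorial]
    have e2 : (1 / a) ^ ((m : ℝ) + 1) = (1 / a) ^ (m + 1) := by
      rw [← Real.rpow_natCast]; push_cast; rfl
    rw [e2, one_div, inv_pow]
    field_simp

theorem sub1 (n : ℕ) (hn : 1 ≤ n) (ξ : ℂ) (hξ : ξ ≠ 0) :
    (starRingEnd ℂ ξ / ξ) ^ n = ∫ t in Set.Ioi (0 : ℝ),
      ((Real.pi ^ n / (n - 1).factorial * t ^ (n - 1) : ℝ) : ℂ) *
        ((starRingEnd ℂ ξ) ^ (2 * n) * ((Real.exp (-(Real.pi * t * ‖ξ‖ ^ 2)) : ℝ) : ℂ)) := by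
  have hpi := Real.pi_pos
  have hn0 : 0 < ‖ξ‖ := norm_pos_iff.mpr hξ
  have h := (gamma1 n hn (Real.pi * ‖ξ‖ ^ 2) (by positivity)).2
  have e : ∀ t : ℝ, ((Real.pi ^ n / (n - 1).factorial * t ^ (n - 1) : ℝ) : ℂ) *
        ((starRingEnd ℂ ξ) ^ (2 * n) * ((Real.exp (-(Real.pi * t * ‖ξ‖ ^ 2)) : ℝ) : ℂ)) =
      (((Real.pi ^ n / (n - 1).factorial : ℝ) : ℂ) * (starRingEnd ℂ ξ) ^ (2 * n)) *
        ((t ^ (n - 1) * Real.exp (-(Real.pi * ‖ξ‖ ^ 2 * t)) : ℝ) : ℂ) := by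
    intro t
    have : -(Real.pi * t * ‖ξ‖ ^ 2) = -(Real.pi * ‖ξ‖ ^ 2 * t) := by ring
    rw [this]
    push_cast
    ring
  simp_rw [e]
  rw [integral_const_mul, integral_complex_ofReal, h]
  have hf : (((n - 1).factorial : ℕ) : ℂ) ≠ 0 := by exact_mod_cast (n - 1).factorial_ne_zero
  have hpc : (Real.pi : ℂ) ≠ 0 := by exact_mod_cast hpi.ne'
  have hnc : (‖ξ‖ : ℂ) ≠ 0 := by exact_mod_cast hn0.ne'
  have hmul : starRingEnd ℂ ξ * ξ = (‖ξ‖ : ℂ) ^ 2 := Complex.conj_mul' ξ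
  push_cast
  rw [mul_pow (Real.pi : ℂ), ← hmul, mul_pow (starRingEnd ℂ ξ)]
  have hc : starRingEnd ℂ ξ ≠ 0 := by simpa using hξ
  rw [two_mul, pow_add, div_pow]
  field_simp

theorem gamma2 (n : ℕ) (a : ℝ) (ha : 0 < a) :
    IntegrableOn (fun t : ℝ => (t ^ (n + 2))⁻¹ * Real.exp (-(a / t))) (Set.Ioi 0) ∧
    ∫ t in Set.Ioi (0 : ℝ), (t ^ (n + 2))⁻¹ * Real.exp (-(a / t)) = n.factorial / a ^ (n + 1) := by
  have h := gamma1 (n + 1) (by omega) a ha
  simp only [Nat.add_sub_cancel] at h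
  have e : ∀ x ∈ Set.Ioi (0 : ℝ), (|(-1 : ℝ)| * x ^ ((-1 : ℝ) - 1)) •
      ((x ^ (-1 : ℝ)) ^ n * Real.exp (-(a * x ^ (-1 : ℝ)))) =
      (x ^ (n + 2))⁻¹ * Real.exp (-(a / x)) := by
    intro x hx
    have hx0 : (0 : ℝ) < x := hx
    rw [Real.rpow_neg_one, abs_neg, abs_one, one_mul]
    have h2 : x ^ ((-1 : ℝ) - 1) = (x ^ 2)⁻¹ := by
      rw [show ((-1 : ℝ) - 1) = -((2 : ℕ) : ℝ) by norm_num, Real.rpow_neg hx0.le, Real.rpow_natCast]
    rw [h2, smul_eq_mul, inv_pow, pow_add, mul_inv, div_eq_mul_inv]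
    ring
  constructor
  · have h3 := (integrableOn_Ioi_comp_rpow_iff (fun x : ℝ => x ^ n * Real.exp (-(a * x)))
      (p := -1) (by norm_num)).mpr h.1
    exact h3.congr_fun e measurableSet_Ioi
  · have h3 := integral_comp_rpow_Ioi (fun x : ℝ => x ^ n * Real.exp (-(a * x)))
      (p := -1) (by norm_num)
    rw [setIntegral_congr_fun measurableSet_Ioi e] at h3
    rw [h3, h.2]

end Pool.MP_75bf3e_an.BT
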