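import Pool.Agent.Lib_MP_75bf3e.Four1

/-!
# Piece AFOUR2: `T^n f` as an absolutely convergent kernel integral

`n ≥ 1`, `f` smooth with compact support, `c = π^n/(n-1)!`.
(a) By `sub1` (for `ξ ≠ 0`) and Fubini,
`Tn n f z = ∫_{t>0} c t^{n-1} ∫_ξ exp(2πi<ξ,z>) ξ̄^{2n} e^{-πt|ξ|^2} fh f ξ dξ dt`: the integrand in `(t,ξ)` has modulus
`c t^{n-1} |ξ|^{2n} e^{-πt|ξ|^2} |fh f ξ|`, whose `t`-integral is `|fh f ξ|` (`gamma1`), integrable (`integrable_fh`).
(b) For fixed `t > 0`, Fubini (`integrable_gauss`, `f` integrable) and `four_gauss` with `k = 2n` (`i^{2n} = (-1)^n`):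
`∫_ξ exp(2πi<ξ,z>) ξ̄^{2n} e^{-πt|ξ|^2} fh f ξ dξ = ∫_x f x ∫_ξ exp(2πi<ξ,z-x>) ξ̄^{2n} e^{-πt|ξ|^2}
 = ∫_ζ f(z - ζ) (-1)^n ζ̄^{2n} t^{-2n-1} e^{-π|ζ|^2/t} dζ` (`x = z - ζ`).
(c) `∫_{|ζ| ≤ 1} ζ̄^{2n} e^{-π|ζ|^2/t} = 0` by the rotation `ζ ↦ ω ζ`, `ω = om n` (`ω̄^{2n} = -1`), so `f(z-ζ)` may be
replaced by `f(z-ζ) - 1_{|ζ|≤1} f z` (`fdiff` below).
(d) Fubini again: `∫_{t>0} c t^{n-1} (-1)^n ζ̄^{2n} t^{-2n-1} e^{-π|ζ|^2/t} dt = (-1)^n c ζ̄^{2n} n!/(π|ζ|^2)^{n+1} = Kn n ζ`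
(`gamma2` with `a = π|ζ|^2`, `t^{n-1} t^{-2n-1} = t^{-(n+2)}`; `n!/(n-1)! = n`; `ζ̄^{2n}/|ζ|^{2n} = (ζ̄/ζ)^n`), absolute values
give `n/(π|ζ|^2)`, and `∫ |fdiff|/|ζ|^2 dζ < ∞`: `|f(z-ζ) - f z| ≤ L|ζ|` for `|ζ| ≤ 1` (`|ζ|^{-1}` is locally integrable in
the plane) and `f(z - ζ)` has compact support for `|ζ| > 1`.
`fdiff_bound`: the bound of `∫ |Kn| |fdiff|` is uniform in `z`: `≤ (n/π)(L ∫_{|ζ|≤1} 1/|ζ| + ∫|f|)`.
-/

set_option autoImplicit false

open MeasureTheory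

namespace Pool.MP_75bf3e_an.BT

open Classical in
noncomputable def fdiff (f : ℂ → ℂ) (z ζ : ℂ) : ℂ := f (z - ζ) - (if ‖ζ‖ ≤ 1 then f z else 0)

/-- the singularity -/
private noncomputable def sg (ζ : ℂ) : ℝ := (fun r : ℝ => if r ≤ 1 then r⁻¹ else 0) ‖ζ‖

private theorem integrable_sg : Integrable sg volume := by
  have h := (integrable_fun_norm_addHaar (E := ℂ) (μ := volume)
    (f := fun r : ℝ => if r ≤ 1 then r⁻¹ else 0)).2 ?_
  · exact h
  · have h1 : IntegrableOn (fun y : ℝ => if y ≤ 1 then (1 : ℝ) else 0) (Set.Ioi 0) := by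
      have h2 : (fun y : ℝ => if y ≤ 1 then (1 : ℝ) else 0) =
          (Set.Iic (1 : ℝ)).indicator (fun _ => (1 : ℝ)) := by
        funext y
        by_cases hy : y ≤ 1
        · rw [if_pos hy, Set.indicator_of_mem (Set.mem_Iic.2 hy)]
        · rw [if_neg hy, Set.indicator_of_notMem (fun h => hy (Set.mem_Iic.1 h))]
      rw [h2, IntegrableOn, integrable_indicator_iff measurableSet_Iic, IntegrableOn,
        Measure.restrict_restrict measurableSet_Iic]
      have h3 : Set.Iic (1 : ℝ) ∩ Set.Ioi 0 = Set.Ioc 0 1 := by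
        ext y
        simp only [Set.mem_inter_iff, Set.mem_Iic, Set.mem_Ioi, Set.mem_Ioc]
        tauto
      rw [h3]
      exact integrableOn_const (by simp)
    refine h1.congr_fun ?_ measurableSet_Ioi
    intro y hy
    have hy' : (0 : ℝ) < y := hy
    simp only [Complex.finrank_real_complex, smul_eq_mul]
    by_cases h2 : y ≤ 1
    · rw [if_pos h2, if_pos h2]
      norm_num
      rw [mul_inv_cancel₀ hy'.ne']
    · rw [if_neg h2, if_neg h2, mul_zero]

private theorem norm_Kn_eq (n : ℕ) {ζ : ℂ} (hζ : ζ ≠ 0) :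
    ‖Kn n ζ‖ = (n / Real.pi) * (‖ζ‖ ^ 2)⁻¹ := by
  have h0 : ‖ζ‖ ≠ 0 := norm_ne_zero_iff.2 hζ
  unfold Kn
  rw [norm_div, norm_mul, norm_mul, norm_pow, norm_pow, norm_div, norm_div, norm_neg, norm_one,
    one_pow, one_mul, Complex.norm_natCast, Complex.norm_real, Complex.norm_real, RCLike.norm_conj,
    div_self h0, one_pow, mul_one, Real.norm_eq_abs, Real.norm_eq_abs, abs_of_pos Real.pi_pos,
    abs_of_nonneg (by positivity), div_eq_mul_inv]

private theorem Kn_zero (n : ℕ) : Kn n 0 = 0 := by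
  unfold Kn
  simp

private theorem measurable_Kn (n : ℕ) : Measurable (Kn n) := by
  unfold Kn
  have h1 : Measurable (fun z : ℂ => starRingEnd ℂ z) := Complex.continuous_conj.measurable
  have h2 : Measurable (fun z : ℂ => (((‖z‖ ^ 2 : ℝ)) : ℂ)) :=
    Complex.measurable_ofReal.comp (measurable_norm.pow_const 2)
  exact ((measurable_const.mul measurable_const).mul ((h1.div measurable_id).pow_const n)).div h2

private theorem measurable_fdiff (f : ℂ → ℂ) (hf : Continuous f) (z : ℂ) :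
    Measurable (fdiff f z) := by
  unfold fdiff
  refine (hf.comp (continuous_const.sub continuous_id)).measurable.sub ?_
  exact Measurable.ite (measurableSet_le measurable_norm measurable_const) measurable_const
    measurable_const

private theorem dom (n : ℕ) (f : ℂ → ℂ) (L : NNReal) (hL : LipschitzWith L f) (z ζ : ℂ) :
    ‖Kn n ζ * fdiff f z ζ‖ ≤ (n / Real.pi) * (L * sg ζ + ‖f (z - ζ)‖) := by
  have hpi := Real.pi_pos
  have hn : (0 : ℝ) ≤ n / Real.pi := by positivity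
  by_cases hζ : ζ = 0
  · subst hζ
    rw [Kn_zero, zero_mul, norm_zero]
    have : 0 ≤ sg 0 := by
      unfold sg
      simp
    positivity
  have h0 : 0 < ‖ζ‖ := norm_pos_iff.2 hζ
  rw [norm_mul, norm_Kn_eq n hζ, mul_assoc]
  refine mul_le_mul_of_nonneg_left ?_ hn
  unfold fdiff sg
  by_cases h1 : ‖ζ‖ ≤ 1
  · simp only [if_pos h1]
    have h2 : ‖f (z - ζ) - f z‖ ≤ L * ‖ζ‖ := by
      have := hL.dist_le_mul (z - ζ) z
      rw [dist_eq_norm, dist_eq_norm] at this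
      have e : z - ζ - z = -ζ := by ring
      rw [e, norm_neg] at this
      exact this
    have h3 : (‖ζ‖ ^ 2)⁻¹ * ‖f (z - ζ) - f z‖ ≤ (‖ζ‖ ^ 2)⁻¹ * (L * ‖ζ‖) :=
      mul_le_mul_of_nonneg_left h2 (by positivity)
    have h4 : (‖ζ‖ ^ 2)⁻¹ * (L * ‖ζ‖) = L * ‖ζ‖⁻¹ := by
      field_simp
    rw [h4] at h3
    have h5 := norm_nonneg (f (z - ζ))
    linarith
  · simp only [if_neg h1, mul_zero, zero_add, sub_zero]
    push Not at h1
    have h2 : (‖ζ‖ ^ 2)⁻¹ ≤ 1 := inv_le_one_of_one_le₀ (by nlinarith)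
    calc (‖ζ‖ ^ 2)⁻¹ * ‖f (z - ζ)‖ ≤ 1 * ‖f (z - ζ)‖ :=
          mul_le_mul_of_nonneg_right h2 (norm_nonneg _)
      _ = ‖f (z - ζ)‖ := one_mul _

private theorem lip (f : ℂ → ℂ) (hf : ContDiff ℝ ((⊤ : ℕ∞) : WithTop ℕ∞) f)
    (hfs : HasCompactSupport f) : ∃ L, LipschitzWith L f :=
  ContDiff.lipschitzWith_of_hasCompactSupport hfs hf (by simp)

private theorem integrable_dom (f : ℂ → ℂ) (hf : Continuous f)
    (hfs : HasCompactSupport f) (n : ℕ) (L : NNReal) (z : ℂ) :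
    Integrable (fun ζ => ((n : ℝ) / Real.pi) * (L * sg ζ + ‖f (z - ζ)‖)) volume := by
  have h1 : Integrable f volume := hf.integrable_of_hasCompactSupport hfs
  have h2 : Integrable (fun ζ => f (z - ζ)) volume := h1.comp_sub_left z
  exact ((integrable_sg.const_mul _).add h2.norm).const_mul _

theorem integrable_Kn_fdiff (n : ℕ) (hn : 1 ≤ n) (f : ℂ → ℂ)
    (hf : ContDiff ℝ ((⊤ : ℕ∞) : WithTop ℕ∞) f) (hfs : HasCompactSupport f) (z : ℂ) :
    Integrable (fun ζ => Kn n ζ * fdiff f z ζ) volume := by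
  obtain ⟨L, hL⟩ := lip f hf hfs
  refine (integrable_dom f hf.continuous hfs n L z).mono'
    ((measurable_Kn n).mul (measurable_fdiff f hf.continuous z)).aestronglyMeasurable ?_
  exact Filter.Eventually.of_forall fun ζ => dom n f L hL z ζ

theorem fdiff_bound (n : ℕ) (hn : 1 ≤ n) (f : ℂ → ℂ)
    (hf : ContDiff ℝ ((⊤ : ℕ∞) : WithTop ℕ∞) f) (hfs : HasCompactSupport f) :
    ∃ B : ℝ, ∀ z : ℂ, ∫ ζ, ‖Kn n ζ * fdiff f z ζ‖ ≤ B := by
  obtain ⟨L, hL⟩ := lip f hf hfs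
  refine ⟨((n : ℝ) / Real.pi) * (L * (∫ ζ, sg ζ) + ∫ ζ, ‖f ζ‖), fun z => ?_⟩
  have h1 : Integrable f volume := hf.continuous.integrable_of_hasCompactSupport hfs
  have h2 : Integrable (fun ζ => f (z - ζ)) volume := h1.comp_sub_left z
  have h3 : ∫ ζ, ((n : ℝ) / Real.pi) * (L * sg ζ + ‖f (z - ζ)‖) =
      ((n : ℝ) / Real.pi) * (L * (∫ ζ, sg ζ) + ∫ ζ, ‖f ζ‖) := by
    rw [integral_const_mul, integral_add (integrable_sg.const_mul _) h2.norm, integral_const_mul,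
      integral_sub_left_eq_self (fun ζ => ‖f ζ‖) volume z]
  rw [← h3]
  exact integral_mono_of_nonneg (Filter.Eventually.of_forall fun _ => norm_nonneg _)
    (integrable_dom f hf.continuous hfs n L z)
    (Filter.Eventually.of_forall fun ζ => dom n f L hL z ζ)

/-- the character -/
private noncomputable def Ez (z ξ : ℂ) : ℂ :=
  Complex.exp (2 * (Real.pi : ℂ) * Complex.I * ((ξ.re * z.re + ξ.im * z.im : ℝ) : ℂ))

private theorem norm_Ez (z ξ : ℂ) : ‖Ez z ξ‖ = 1 := by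
  unfold Ez
  have : 2 * (Real.pi : ℂ) * Complex.I * ((ξ.re * z.re + ξ.im * z.im : ℝ) : ℂ) =
      ((2 * Real.pi * (ξ.re * z.re + ξ.im * z.im) : ℝ) : ℂ) * Complex.I := by
    push_cast
    ring
  rw [this]
  exact Complex.norm_exp_ofReal_mul_I _

private theorem continuous_Ez (z : ℂ) : Continuous (Ez z) := by
  unfold Ez
  have h1 : Continuous (fun ξ : ℂ => ((ξ.re * z.re + ξ.im * z.im : ℝ) : ℂ)) :=
    Complex.continuous_ofReal.comp ((Complex.continuous_re.mul continuous_const).add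
      (Complex.continuous_im.mul continuous_const))
  exact Complex.continuous_exp.comp (continuous_const.mul h1)

/-- the gaussian -/
private noncomputable def gg (k : ℕ) (t : ℝ) (ξ : ℂ) : ℂ :=
  (starRingEnd ℂ ξ) ^ k * ((Real.exp (-(Real.pi * t * ‖ξ‖ ^ 2)) : ℝ) : ℂ)

/-- the constant -/
private noncomputable def cR (n : ℕ) : ℝ := Real.pi ^ n / (n - 1).factorial

private theorem cR_pos (n : ℕ) : 0 < cR n := by
  unfold cR
  have := Real.pi_pos
  positivity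

private theorem ae_ne_zero : ∀ᵐ ξ : ℂ ∂volume, ξ ≠ 0 := by
  rw [ae_iff]
  simp

private theorem int_t (n : ℕ) (hn : 1 ≤ n) {ξ : ℂ} (hξ : ξ ≠ 0) :
    IntegrableOn (fun t : ℝ => ((cR n * t ^ (n - 1) : ℝ) : ℂ) * gg (2 * n) t ξ) (Set.Ioi 0) ∧
    ∫ t in Set.Ioi (0 : ℝ), ‖((cR n * t ^ (n - 1) : ℝ) : ℂ) * gg (2 * n) t ξ‖ = 1 := by
  have h0 : 0 < ‖ξ‖ := norm_pos_iff.2 hξ
  have hpi := Real.pi_pos
  have ha : 0 < Real.pi * ‖ξ‖ ^ 2 := by positivity
  obtain ⟨h1, h2⟩ := gamma1 n hn (Real.pi * ‖ξ‖ ^ 2) ha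
  have e1 : ∀ t : ℝ, ((cR n * t ^ (n - 1) : ℝ) : ℂ) * gg (2 * n) t ξ =
      ((cR n : ℝ) : ℂ) * (starRingEnd ℂ ξ) ^ (2 * n) *
        ((t ^ (n - 1) * Real.exp (-(Real.pi * ‖ξ‖ ^ 2 * t)) : ℝ) : ℂ) := by
    intro t
    unfold gg
    have : Real.pi * t * ‖ξ‖ ^ 2 = Real.pi * ‖ξ‖ ^ 2 * t := by ring
    rw [this]
    push_cast
    ring
  constructor
  · refine IntegrableOn.congr_fun (f := fun t : ℝ => ((cR n : ℝ) : ℂ) * (starRingEnd ℂ ξ) ^ (2 * n) *
        ((t ^ (n - 1) * Real.exp (-(Real.pi * ‖ξ‖ ^ 2 * t)) : ℝ) : ℂ)) ?_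
        (fun t _ => (e1 t).symm) measurableSet_Ioi
    exact Integrable.const_mul (Integrable.ofReal h1) _
  · have e2 : ∫ t in Set.Ioi (0 : ℝ), ‖((cR n * t ^ (n - 1) : ℝ) : ℂ) * gg (2 * n) t ξ‖ =
        ∫ t in Set.Ioi (0 : ℝ), (cR n * ‖ξ‖ ^ (2 * n)) *
          (t ^ (n - 1) * Real.exp (-(Real.pi * ‖ξ‖ ^ 2 * t))) := by
      refine setIntegral_congr_fun measurableSet_Ioi fun t ht => ?_
      have ht' : (0 : ℝ) < t := ht
      change ‖((cR n * t ^ (n - 1) : ℝ) : ℂ) * gg (2 * n) t ξ‖ = _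
      rw [e1, norm_mul, norm_mul, norm_pow, RCLike.norm_conj, Complex.norm_real, Complex.norm_real,
        Real.norm_of_nonneg (cR_pos n).le, Real.norm_of_nonneg (by positivity)]
    rw [e2, integral_const_mul, h2]
    unfold cR
    have h3 : ((n - 1).factorial : ℝ) ≠ 0 := by positivity
    rw [mul_pow, ← pow_mul]
    field_simp

/-- step (a) -/
private theorem stepA (n : ℕ) (hn : 1 ≤ n) (f : ℂ → ℂ)
    (hf : ContDiff ℝ ((⊤ : ℕ∞) : WithTop ℕ∞) f) (hfs : HasCompactSupport f) (z : ℂ) :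
    Tn n f z = ∫ t in Set.Ioi (0 : ℝ), ((cR n * t ^ (n - 1) : ℝ) : ℂ) *
      ∫ ξ : ℂ, Ez z ξ * (gg (2 * n) t ξ * fh f ξ) := by
  have hfh := integrable_fh f hf hfs
  have hfc := continuous_fh f hf hfs
  set A : ℂ → ℝ → ℂ := fun ξ t => Ez z ξ * (((cR n * t ^ (n - 1) : ℝ) : ℂ) * gg (2 * n) t ξ *
    fh f ξ) with hA
  have hcont : Continuous (Function.uncurry A) := by
    have h1 : Continuous (fun p : ℂ × ℝ => Ez z p.1) := (continuous_Ez z).comp continuous_fst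
    have h2 : Continuous (fun p : ℂ × ℝ => ((cR n * p.2 ^ (n - 1) : ℝ) : ℂ)) :=
      Complex.continuous_ofReal.comp (continuous_const.mul (continuous_snd.pow _))
    have h3 : Continuous (fun p : ℂ × ℝ => gg (2 * n) p.2 p.1) := by
      unfold gg
      refine ((Complex.continuous_conj.comp continuous_fst).pow _).mul
        (Complex.continuous_ofReal.comp (Real.continuous_exp.comp ?_))
      exact ((continuous_const.mul continuous_snd).mul
        ((continuous_norm.comp continuous_fst).pow 2)).neg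
    have h4 : Continuous (fun p : ℂ × ℝ => fh f p.1) := hfc.comp continuous_fst
    exact h1.mul ((h2.mul h3).mul h4)
  have hint : Integrable (Function.uncurry A) (volume.prod (volume.restrict (Set.Ioi (0 : ℝ)))) := by
    rw [integrable_prod_iff hcont.aestronglyMeasurable]
    constructor
    · filter_upwards [ae_ne_zero] with ξ hξ
      have h1 := (int_t n hn hξ).1
      exact Integrable.const_mul (Integrable.mul_const h1 (fh f ξ)) (Ez z ξ)
    · refine hfh.norm.congr ?_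
      filter_upwards [ae_ne_zero] with ξ hξ
      have h1 := (int_t n hn hξ).2
      have h2 : ∀ t : ℝ, ‖Function.uncurry A (ξ, t)‖ =
          ‖((cR n * t ^ (n - 1) : ℝ) : ℂ) * gg (2 * n) t ξ‖ * ‖fh f ξ‖ := by
        intro t
        change ‖Ez z ξ * (((cR n * t ^ (n - 1) : ℝ) : ℂ) * gg (2 * n) t ξ * fh f ξ)‖ = _
        rw [norm_mul, norm_Ez, one_mul, norm_mul]
      simp_rw [h2]
      rw [integral_mul_const, h1, one_mul]
  have h1 : Tn n f z = ∫ ξ : ℂ, ∫ t in Set.Ioi (0 : ℝ), A ξ t := by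
    have h2 : Tn n f z = ∫ ξ : ℂ, Ez z ξ * ((starRingEnd ℂ ξ / ξ) ^ n * fh f ξ) := by
      unfold Tn
      simp only [zpow_natCast]
      rfl
    rw [h2]
    refine integral_congr_ae ?_
    filter_upwards [ae_ne_zero] with ξ hξ
    rw [sub1 n hn ξ hξ]
    have h3 : ∀ t : ℝ, A ξ t = Ez z ξ * ((((cR n * t ^ (n - 1) : ℝ) : ℂ) * gg (2 * n) t ξ) *
        fh f ξ) := fun t => rfl
    simp_rw [h3]
    rw [integral_const_mul, integral_mul_const]
    rfl
  rw [h1, integral_integral_swap hint]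
  refine integral_congr_ae (Filter.Eventually.of_forall fun t => ?_)
  change ∫ ξ, A ξ t = ((cR n * t ^ (n - 1) : ℝ) : ℂ) * ∫ ξ : ℂ, Ez z ξ * (gg (2 * n) t ξ * fh f ξ)
  rw [← integral_const_mul]
  refine integral_congr_ae (Filter.Eventually.of_forall fun ξ => ?_)
  change Ez z ξ * (((cR n * t ^ (n - 1) : ℝ) : ℂ) * gg (2 * n) t ξ * fh f ξ) =
    ((cR n * t ^ (n - 1) : ℝ) : ℂ) * (Ez z ξ * (gg (2 * n) t ξ * fh f ξ))
  ring

/-- the transformed gaussian -/
private noncomputable def MM (n : ℕ) (t : ℝ) (ζ : ℂ) : ℂ :=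
  (Complex.I * starRingEnd ℂ ζ / (t : ℂ)) ^ (2 * n) *
    ((t⁻¹ * Real.exp (-(Real.pi * ‖ζ‖ ^ 2 / t)) : ℝ) : ℂ)

private theorem stepB (n : ℕ) (t : ℝ) (ht : 0 < t) (f : ℂ → ℂ)
    (hf : Continuous f) (hfs : HasCompactSupport f) (z : ℂ) :
    ∫ ξ : ℂ, Ez z ξ * (gg (2 * n) t ξ * fh f ξ) = ∫ ζ, f (z - ζ) * MM n t ζ := by
  set B : ℂ → ℂ → ℂ := fun ξ x => Ez z ξ * (gg (2 * n) t ξ *
    (Complex.exp (-(2 * (Real.pi : ℂ) * Complex.I *
      ((x.re * ξ.re + x.im * ξ.im : ℝ) : ℂ))) * f x)) with hB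
  have hgc : Continuous (gg (2 * n) t) := by
    unfold gg
    refine (Complex.continuous_conj.pow _).mul
      (Complex.continuous_ofReal.comp (Real.continuous_exp.comp ?_))
    exact (continuous_const.mul (continuous_norm.pow 2)).neg
  have hcont : Continuous (Function.uncurry B) := by
    have h1 : Continuous (fun p : ℂ × ℂ => Ez z p.1) := (continuous_Ez z).comp continuous_fst
    have h2 : Continuous (fun p : ℂ × ℂ => gg (2 * n) t p.1) := hgc.comp continuous_fst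
    have h3 : Continuous (fun p : ℂ × ℂ => Complex.exp (-(2 * (Real.pi : ℂ) * Complex.I *
      ((p.2.re * p.1.re + p.2.im * p.1.im : ℝ) : ℂ)))) := by
      refine Complex.continuous_exp.comp (continuous_const.mul
        (Complex.continuous_ofReal.comp ?_)).neg
      exact ((Complex.continuous_re.comp continuous_snd).mul
        (Complex.continuous_re.comp continuous_fst)).add
        ((Complex.continuous_im.comp continuous_snd).mul (Complex.continuous_im.comp continuous_fst))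
    have h4 : Continuous (fun p : ℂ × ℂ => f p.2) := hf.comp continuous_snd
    exact h1.mul (h2.mul (h3.mul h4))
  have hfi : Integrable f volume := hf.integrable_of_hasCompactSupport hfs
  have hint : Integrable (Function.uncurry B) (volume.prod volume) := by
    have h1 : Integrable (fun p : ℂ × ℂ => gg (2 * n) t p.1 * f p.2) (volume.prod volume) :=
      Integrable.mul_prod (integrable_gauss (2 * n) t ht) hfi
    refine h1.norm.mono' hcont.aestronglyMeasurable (Filter.Eventually.of_forall fun p => ?_)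
    change ‖Ez z p.1 * (gg (2 * n) t p.1 * (Complex.exp (-(2 * (Real.pi : ℂ) * Complex.I *
      ((p.2.re * p.1.re + p.2.im * p.1.im : ℝ) : ℂ))) * f p.2))‖ ≤ ‖gg (2 * n) t p.1 * f p.2‖
    have h2 : ‖Complex.exp (-(2 * (Real.pi : ℂ) * Complex.I *
      ((p.2.re * p.1.re + p.2.im * p.1.im : ℝ) : ℂ)))‖ = 1 := by
      have : -(2 * (Real.pi : ℂ) * Complex.I * ((p.2.re * p.1.re + p.2.im * p.1.im : ℝ) : ℂ)) =
          ((-(2 * Real.pi * (p.2.re * p.1.re + p.2.im * p.1.im)) : ℝ) : ℂ) * Complex.I := by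
        push_cast
        ring
      rw [this]
      exact Complex.norm_exp_ofReal_mul_I _
    rw [norm_mul, norm_Ez, one_mul, norm_mul, norm_mul, h2, one_mul, norm_mul]
  have h1 : ∫ ξ : ℂ, Ez z ξ * (gg (2 * n) t ξ * fh f ξ) = ∫ ξ : ℂ, ∫ x : ℂ, B ξ x := by
    refine integral_congr_ae (Filter.Eventually.of_forall fun ξ => ?_)
    change Ez z ξ * (gg (2 * n) t ξ * fh f ξ) = ∫ x : ℂ, Ez z ξ * (gg (2 * n) t ξ *
      (Complex.exp (-(2 * (Real.pi : ℂ) * Complex.I *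
        ((x.re * ξ.re + x.im * ξ.im : ℝ) : ℂ))) * f x))
    rw [integral_const_mul, integral_const_mul]
    rfl
  rw [h1, integral_integral_swap hint]
  have h2 : ∀ x : ℂ, ∫ ξ : ℂ, B ξ x = f x * MM n t (z - x) := by
    intro x
    have h3 : ∀ ξ : ℂ, B ξ x = f x * (Ez (z - x) ξ * gg (2 * n) t ξ) := by
      intro ξ
      have h4 : Ez z ξ * Complex.exp (-(2 * (Real.pi : ℂ) * Complex.I *
          ((x.re * ξ.re + x.im * ξ.im : ℝ) : ℂ))) = Ez (z - x) ξ := by
        unfold Ez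
        rw [← Complex.exp_add]
        congr 1
        rw [Complex.sub_re, Complex.sub_im]
        push_cast
        ring
      rw [← h4]
      change Ez z ξ * (gg (2 * n) t ξ * (Complex.exp (-(2 * (Real.pi : ℂ) * Complex.I *
          ((x.re * ξ.re + x.im * ξ.im : ℝ) : ℂ))) * f x)) = _
      ring
    simp_rw [h3]
    rw [integral_const_mul]
    congr 1
    exact four_gauss (2 * n) t ht (z - x)
  simp_rw [h2]
  have h3 := integral_sub_left_eq_self (fun x => f x * MM n t (z - x)) volume z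
  rw [← h3]
  refine integral_congr_ae (Filter.Eventually.of_forall fun ζ => ?_)
  change f (z - ζ) * MM n t (z - (z - ζ)) = f (z - ζ) * MM n t ζ
  rw [sub_sub_cancel]

private theorem integrable_MM (n : ℕ) (t : ℝ) (ht : 0 < t) : Integrable (MM n t) volume := by
  have h1 := integrable_gauss (2 * n) t⁻¹ (inv_pos.2 ht)
  have h2 := h1.const_mul ((Complex.I / (t : ℂ)) ^ (2 * n) * ((t⁻¹ : ℝ) : ℂ))
  refine h2.congr (Filter.Eventually.of_forall fun ζ => ?_)
  unfold MM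
  have h3 : Real.pi * t⁻¹ * ‖ζ‖ ^ 2 = Real.pi * ‖ζ‖ ^ 2 / t := by
    rw [div_eq_mul_inv]
    ring
  simp only [h3]
  have h4 : Complex.I * starRingEnd ℂ ζ / (t : ℂ) = Complex.I / (t : ℂ) * starRingEnd ℂ ζ := by
    ring
  rw [h4, mul_pow]
  push_cast
  ring

private theorem om_norm' (n : ℕ) : ‖om n‖ = 1 := by
  unfold om
  rw [mul_comm]
  exact Complex.norm_exp_ofReal_mul_I _

private theorem om_pow' (n : ℕ) (hn : 1 ≤ n) : (starRingEnd ℂ (om n)) ^ (2 * n) = -1 := by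
  have hn' : (n : ℂ) ≠ 0 := by exact_mod_cast (by omega : n ≠ 0)
  have h1 : starRingEnd ℂ (om n) = Complex.exp (-(Complex.I * ((Real.pi / (2 * n) : ℝ) : ℂ))) := by
    unfold om
    rw [← Complex.exp_conj, map_mul, Complex.conj_I, Complex.conj_ofReal, neg_mul]
  rw [h1, ← Complex.exp_nat_mul]
  have h2 : ((2 * n : ℕ) : ℂ) * (-(Complex.I * ((Real.pi / (2 * n) : ℝ) : ℂ))) =
      -(Real.pi * Complex.I) := by
    push_cast
    field_simp
  rw [h2, Complex.exp_neg, Complex.exp_pi_mul_I]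
  norm_num

private theorem MM_rot (n : ℕ) (hn : 1 ≤ n) (t : ℝ) (ζ : ℂ) :
    MM n t (om n * ζ) = - MM n t ζ := by
  unfold MM
  rw [norm_mul, om_norm', one_mul, map_mul]
  have h1 : Complex.I * (starRingEnd ℂ (om n) * starRingEnd ℂ ζ) / (t : ℂ) =
      starRingEnd ℂ (om n) * (Complex.I * starRingEnd ℂ ζ / (t : ℂ)) := by ring
  rw [h1, mul_pow, om_pow' n hn]
  ring

open Classical in
private theorem stepC0 (n : ℕ) (hn : 1 ≤ n) (t : ℝ) (w : ℂ) :
    ∫ ζ, (if ‖ζ‖ ≤ 1 then w else 0) * MM n t ζ = 0 := by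
  let c : Circle := ⟨om n, by simp [Submonoid.unitSphere, om_norm']⟩
  have h := (rotation c).measurePreserving.integral_comp
    (rotation c).toHomeomorph.measurableEmbedding
    (fun ζ => (if ‖ζ‖ ≤ 1 then w else 0) * MM n t ζ)
  have h2 : ∀ ζ : ℂ, (if ‖(rotation c) ζ‖ ≤ 1 then w else 0) * MM n t (rotation c ζ) =
      - ((if ‖ζ‖ ≤ 1 then w else 0) * MM n t ζ) := fun ζ => by
    rw [LinearIsometryEquiv.norm_map, rotation_apply]
    change (if ‖ζ‖ ≤ 1 then w else 0) * MM n t (om n * ζ) = _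
    rw [MM_rot n hn]
    ring
  simp_rw [h2] at h
  rw [integral_neg] at h
  exact self_eq_neg.mp h.symm

private theorem stepC (n : ℕ) (hn : 1 ≤ n) (t : ℝ) (ht : 0 < t) (f : ℂ → ℂ)
    (hf : Continuous f) (hfs : HasCompactSupport f) (z : ℂ) :
    ∫ ζ, f (z - ζ) * MM n t ζ = ∫ ζ, fdiff f z ζ * MM n t ζ := by
  classical
  obtain ⟨C, hC⟩ := hf.bounded_above_of_compact_support hfs
  have hM := integrable_MM n t ht
  have h1 : Integrable (fun ζ => f (z - ζ) * MM n t ζ) volume := by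
    refine (hM.norm.const_mul C).mono' ((hf.comp (continuous_const.sub
      continuous_id)).aestronglyMeasurable.mul hM.aestronglyMeasurable)
      (Filter.Eventually.of_forall fun ζ => ?_)
    rw [norm_mul]
    exact mul_le_mul_of_nonneg_right (hC _) (norm_nonneg _)
  have h2 : Integrable (fun ζ : ℂ => (if ‖ζ‖ ≤ 1 then f z else 0) * MM n t ζ) volume := by
    refine (hM.norm.const_mul ‖f z‖).mono' ((Measurable.ite (measurableSet_le measurable_norm
      measurable_const) measurable_const measurable_const).aestronglyMeasurable.mul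
      hM.aestronglyMeasurable) (Filter.Eventually.of_forall fun ζ => ?_)
    rw [norm_mul]
    refine mul_le_mul_of_nonneg_right ?_ (norm_nonneg _)
    split_ifs
    · exact le_rfl
    · rw [norm_zero]
      exact norm_nonneg _
  have h3 := stepC0 n hn t (f z)
  have h4 : ∫ ζ, fdiff f z ζ * MM n t ζ =
      ∫ ζ, (f (z - ζ) * MM n t ζ - (if ‖ζ‖ ≤ 1 then f z else 0) * MM n t ζ) := by
    refine integral_congr_ae (Filter.Eventually.of_forall fun ζ => ?_)
    change fdiff f z ζ * MM n t ζ = _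
    unfold fdiff
    ring
  rw [h4, integral_sub h1 h2, h3, sub_zero]

private theorem MM_eq (n : ℕ) (hn : 1 ≤ n) {t : ℝ} (ht : 0 < t) (ζ : ℂ) :
    ((cR n * t ^ (n - 1) : ℝ) : ℂ) * MM n t ζ =
      (((cR n : ℝ) : ℂ) * (-1) ^ n * (starRingEnd ℂ ζ) ^ (2 * n)) *
        (((t ^ (n + 2))⁻¹ * Real.exp (-(Real.pi * ‖ζ‖ ^ 2 / t)) : ℝ) : ℂ) := by
  obtain ⟨m, rfl⟩ : ∃ m, n = m + 1 := ⟨n - 1, by omega⟩
  have ht' : (t : ℂ) ≠ 0 := by exact_mod_cast ht.ne'
  unfold MM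
  generalize Real.exp (-(Real.pi * ‖ζ‖ ^ 2 / t)) = e
  rw [Nat.add_sub_cancel, div_pow, mul_pow, pow_mul Complex.I 2, Complex.I_sq]
  push_cast
  field_simp
  ring

private theorem Kn_eq' (n : ℕ) (hn : 1 ≤ n) {ζ : ℂ} (hζ : ζ ≠ 0) :
    (((cR n : ℝ) : ℂ) * (-1) ^ n * (starRingEnd ℂ ζ) ^ (2 * n)) *
      ((n.factorial / (Real.pi * ‖ζ‖ ^ 2) ^ (n + 1) : ℝ) : ℂ) = Kn n ζ := by
  have hpi : (Real.pi : ℂ) ≠ 0 := by exact_mod_cast Real.pi_ne_zero
  have hc : starRingEnd ℂ ζ ≠ 0 := by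
    rw [Ne, map_eq_zero]
    exact hζ
  have h1 : ((‖ζ‖ : ℝ) : ℂ) ^ 2 = ζ * starRingEnd ℂ ζ := by
    rw [Complex.mul_conj, Complex.normSq_eq_norm_sq]
    push_cast
    rfl
  obtain ⟨m, rfl⟩ : ∃ m, n = m + 1 := ⟨n - 1, by omega⟩
  have h2 : ((m.factorial : ℕ) : ℂ) ≠ 0 := by exact_mod_cast m.factorial_ne_zero
  unfold cR Kn
  rw [Nat.add_sub_cancel, Nat.factorial_succ]
  push_cast
  rw [h1, div_pow]
  field_simp
  ring

private theorem int_t2 (n : ℕ) (hn : 1 ≤ n) {ζ : ℂ} (hζ : ζ ≠ 0) :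
    IntegrableOn (fun t : ℝ => ((cR n * t ^ (n - 1) : ℝ) : ℂ) * MM n t ζ) (Set.Ioi 0) ∧
    ∫ t in Set.Ioi (0 : ℝ), ((cR n * t ^ (n - 1) : ℝ) : ℂ) * MM n t ζ = Kn n ζ ∧
    ∫ t in Set.Ioi (0 : ℝ), ‖((cR n * t ^ (n - 1) : ℝ) : ℂ) * MM n t ζ‖ = ‖Kn n ζ‖ := by
  have h0 : 0 < ‖ζ‖ := norm_pos_iff.2 hζ
  have hpi := Real.pi_pos
  have ha : 0 < Real.pi * ‖ζ‖ ^ 2 := by positivity
  obtain ⟨h1, h2⟩ := gamma2 n (Real.pi * ‖ζ‖ ^ 2) ha
  refine ⟨?_, ?_, ?_⟩
  · refine IntegrableOn.congr_fun (f := fun t : ℝ =>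
      (((cR n : ℝ) : ℂ) * (-1) ^ n * (starRingEnd ℂ ζ) ^ (2 * n)) *
        (((t ^ (n + 2))⁻¹ * Real.exp (-(Real.pi * ‖ζ‖ ^ 2 / t)) : ℝ) : ℂ)) ?_
        (fun t ht => (MM_eq n hn ht ζ).symm) measurableSet_Ioi
    exact Integrable.const_mul (Integrable.ofReal h1) _
  · rw [← Kn_eq' n hn hζ, ← h2, ← integral_complex_ofReal, ← integral_const_mul]
    exact setIntegral_congr_fun measurableSet_Ioi fun t ht => MM_eq n hn ht ζ
  · rw [← Kn_eq' n hn hζ, norm_mul, Complex.norm_real, Real.norm_of_nonneg (by positivity), ← h2,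
      ← integral_const_mul]
    refine setIntegral_congr_fun measurableSet_Ioi fun t ht => ?_
    have ht' : (0 : ℝ) < t := ht
    change ‖((cR n * t ^ (n - 1) : ℝ) : ℂ) * MM n t ζ‖ = _
    rw [MM_eq n hn ht ζ, norm_mul, Complex.norm_real, Real.norm_of_nonneg (by positivity)]

private theorem measurable_MM (n : ℕ) : Measurable (fun p : ℂ × ℝ => MM n p.2 p.1) := by
  unfold MM
  have h1 : Measurable (fun p : ℂ × ℝ => starRingEnd ℂ p.1) :=
    Complex.continuous_conj.measurable.comp measurable_fst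
  have h2 : Measurable (fun p : ℂ × ℝ => ((p.2 : ℝ) : ℂ)) :=
    Complex.measurable_ofReal.comp measurable_snd
  have h3 : Measurable (fun p : ℂ × ℝ => ‖p.1‖) := measurable_norm.comp measurable_fst
  refine (((measurable_const.mul h1).div h2).pow_const _).mul (Complex.measurable_ofReal.comp ?_)
  refine (measurable_snd.inv).mul (Real.measurable_exp.comp ?_)
  exact ((measurable_const.mul (h3.pow_const 2)).div measurable_snd).neg

theorem Tn_eq (n : ℕ) (hn : 1 ≤ n) (f : ℂ → ℂ)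
    (hf : ContDiff ℝ ((⊤ : ℕ∞) : WithTop ℕ∞) f) (hfs : HasCompactSupport f) (z : ℂ) :
    Tn n f z = ∫ ζ, Kn n ζ * fdiff f z ζ := by
  rw [stepA n hn f hf hfs z]
  set D : ℂ → ℝ → ℂ := fun ζ t => fdiff f z ζ * (((cR n * t ^ (n - 1) : ℝ) : ℂ) * MM n t ζ)
    with hD
  have hmeas : Measurable (Function.uncurry D) := by
    have h1 : Measurable (fun p : ℂ × ℝ => fdiff f z p.1) :=
      (measurable_fdiff f hf.continuous z).comp measurable_fst
    have h2 : Measurable (fun p : ℂ × ℝ => ((cR n * p.2 ^ (n - 1) : ℝ) : ℂ)) :=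
      Complex.measurable_ofReal.comp (measurable_const.mul (measurable_snd.pow_const _))
    exact h1.mul (h2.mul (measurable_MM n))
  have hint : Integrable (Function.uncurry D) (volume.prod (volume.restrict (Set.Ioi (0 : ℝ)))) := by
    rw [integrable_prod_iff hmeas.aestronglyMeasurable]
    constructor
    · filter_upwards [ae_ne_zero] with ζ hζ
      exact Integrable.const_mul (int_t2 n hn hζ).1 (fdiff f z ζ)
    · refine (integrable_Kn_fdiff n hn f hf hfs z).norm.congr ?_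
      filter_upwards [ae_ne_zero] with ζ hζ
      have h2 : ∀ t : ℝ, ‖Function.uncurry D (ζ, t)‖ =
          ‖fdiff f z ζ‖ * ‖((cR n * t ^ (n - 1) : ℝ) : ℂ) * MM n t ζ‖ := by
        intro t
        change ‖fdiff f z ζ * (((cR n * t ^ (n - 1) : ℝ) : ℂ) * MM n t ζ)‖ = _
        rw [norm_mul]
      simp_rw [h2]
      rw [integral_const_mul, (int_t2 n hn hζ).2.2, norm_mul, mul_comm]
  have h1 : ∫ t in Set.Ioi (0 : ℝ), ((cR n * t ^ (n - 1) : ℝ) : ℂ) *
      ∫ ξ : ℂ, Ez z ξ * (gg (2 * n) t ξ * fh f ξ) = ∫ t in Set.Ioi (0 : ℝ), ∫ ζ, D ζ t := by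
    refine setIntegral_congr_fun measurableSet_Ioi fun t ht => ?_
    rw [stepB n t ht f hf.continuous hfs z, stepC n hn t ht f hf.continuous hfs z,
      ← integral_const_mul]
    refine integral_congr_ae (Filter.Eventually.of_forall fun ζ => ?_)
    change ((cR n * t ^ (n - 1) : ℝ) : ℂ) * (fdiff f z ζ * MM n t ζ) =
      fdiff f z ζ * (((cR n * t ^ (n - 1) : ℝ) : ℂ) * MM n t ζ)
    ring
  rw [h1, ← integral_integral_swap hint]
  refine integral_congr_ae ?_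
  filter_upwards [ae_ne_zero] with ζ hζ
  change ∫ t in Set.Ioi (0 : ℝ), fdiff f z ζ * (((cR n * t ^ (n - 1) : ℝ) : ℂ) * MM n t ζ) = _
  rw [integral_const_mul, (int_t2 n hn hζ).2.1, mul_comm]

end Pool.MP_75bf3e_an.BT
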