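import Pool.Agent.Lib_MP_75bf3e.ExMain

/-!
# Weighted norms of the powers of the Beurling transform: half of the logarithm

For every `p > 1` there is `C` such that for every `n ≠ 0`, every `A_p` weight `w` with constant `K`
and every test function `f`, with `Q = K ^ max 1 (1/(p-1))`,
`‖T^n f‖_{L^p(w)} ≤ C |n| Q (min Q (1 + log |n|))^{1/2} ‖f‖_{L^p(w)}`.
The conventions (Fourier multiplier, `A_p` constant over balls, norms) are those of the frozen statement.
-/

set_option autoImplicit false

namespace Pool.Agent.Results.MP_75bf3e_an.HalfLog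

theorem result :
    ∀ p : ℝ, 1 < p → ∃ C : ℝ, 0 < C ∧ ∀ n : ℤ, n ≠ 0 →
      ∀ w : ℂ → ℝ, (∀ z, 0 < w z) →
        MeasureTheory.LocallyIntegrable w MeasureTheory.volume →
        MeasureTheory.LocallyIntegrable (fun z => w z ^ (-(1 / (p - 1)))) MeasureTheory.volume →
        ∀ K : ℝ,
          (∀ c : ℂ, ∀ r : ℝ, 0 < r →
            ((MeasureTheory.volume (Metric.ball c r)).toReal⁻¹ *
                ∫ z in Metric.ball c r, w z) *
              ((MeasureTheory.volume (Metric.ball c r)).toReal⁻¹ *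
                ∫ z in Metric.ball c r, w z ^ (-(1 / (p - 1)))) ^ (p - 1) ≤ K) →
          ∀ f : ℂ → ℂ, ContDiff ℝ ((⊤ : ℕ∞) : WithTop ℕ∞) f → HasCompactSupport f →
            (∫⁻ z : ℂ,
                ‖∫ ξ : ℂ,
                    Complex.exp (2 * (Real.pi : ℂ) * Complex.I *
                        ((ξ.re * z.re + ξ.im * z.im : ℝ) : ℂ)) *
                      ((starRingEnd ℂ ξ / ξ) ^ n *
                        ∫ x : ℂ,
                          Complex.exp (-(2 * (Real.pi : ℂ) * Complex.I *
                              ((x.re * ξ.re + x.im * ξ.im : ℝ) : ℂ))) * f x)‖ₑ ^ p *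
                  ENNReal.ofReal (w z))
              ≤ ENNReal.ofReal ((C * |(n : ℝ)| * K ^ (max 1 (1 / (p - 1))) *
                    √(min (K ^ (max 1 (1 / (p - 1)))) (1 + Real.log |(n : ℝ)|))) ^ p) *
                  ∫⁻ z : ℂ, ‖f z‖ₑ ^ p * ENNReal.ofReal (w z) := by
  intro p hp
  obtain ⟨C, hC, h⟩ := Pool.MP_75bf3e_an.BT.mainP p hp
  exact ⟨C, hC, fun n hn w hw h1 h2 K hK f hf hfs => h n hn w hw h1 h2 K hK f hf hfs⟩

end Pool.Agent.Results.MP_75bf3e_an.HalfLog
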