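import Pool.Agent.Lib_MP_75bf3e.NKer

/-!
# Piece ANKB: Lipschitz estimates of the kernel of `(ξ̄/ξ)^n` at one scale

`Kn n z = (-1)^n (n/π) (z̄/z)^n/|z|^2`, `th r = min 1 (2 - r)` cut at `0` (`= 1` for `r ≤ 1`, `= 0` for `r ≥ 2`, Lipschitz),
`An n k z = Kn n z * (th (8|z|/l) - th (16|z|/l))` with `l = 2^k`: supported in `l/16 ≤ |z| ≤ l/4`.

ANKA (this file): basic facts.
* `An_supp`, `An_even` (`(-z)‾/(-z) = z̄/z`), `norm_An_le`: `(n/π) (16/l)^2 = (256/π) n/l^2`.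
* `An_rot`: with `ω = exp(iπ/(2n))`: `(ωz)‾/(ωz) = ω^{-2} z̄/z`, `ω^{-2n} = e^{-iπ} = -1`, so `An n k (ω z) = - An n k z`.
* `An_mean`: the rotation `z ↦ ω z` preserves the Lebesgue measure (a linear isometry, or
  `Complex` `rotation` as a `LinearIsometryEquiv`), so `∫ An = ∫ An (ω z) = - ∫ An`.
* `An_lip`: `‖An z - An z'‖ ≤ C n^2 l^{-3} ‖z - z'‖`.  Write `An z = (z̄/z)^n Λ(z)`, `Λ z = ± (n/π) φ(|z|)`,
  `φ(r) = (th (8r/l) - th (16r/l))/r^2`.  `φ` is bounded by `256/l^2`, vanishes for `r ≤ l/16`, and is Lipschitz with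
  constant `C/l^3` (`th` is 1-Lipschitz and `1/r^2` is Lipschitz with constant `2 (16/l)^3` on `[l/16, ∞)`).  If both
  `|z|, |z'| ≥ l/16`: `|(z̄/z)^n - (z̄'/z')^n| ≤ n |z̄/z - z̄'/z'| ≤ 2 n |z - z'|/|z|` (unit complex numbers);
  if `|z'| < l/16` then `An z' = 0` and `Λ z' = 0`, `‖An z‖ = |Λ z - Λ z'|`.
* `An_sum`: telescoping.
* `tl_lip`: `‖tl z - tl z'‖ ≤ C n^2 l^{-3}‖z-z'‖` because `1/max(tent,1/2) ≤ 2` is Lipschitz with constant
  `4 * 2/l` (`tent` is Lipschitz with constant `2/l`) and `‖An‖ ≤ C n/l^2`.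
* `tl_rot`: `‖tl (ω z) + tl z‖ = ‖An z‖ |1/max(tent z,1/2) - 1/max(tent(ωz),1/2)| ≤ (C n/l^2) * 4 * (2/l) |ω - 1| |z|
  ≤ C/l^2` as `|ω - 1| ≤ π/(2n)` and `|z| ≤ l/4` on the support.
-/

set_option autoImplicit false

open MeasureTheory

namespace Pool.MP_75bf3e_an.BT

theorem nkl_th_nonneg (r : ℝ) : 0 ≤ th r := le_max_left _ _

theorem nkl_th_le_one (r : ℝ) : th r ≤ 1 := max_le zero_le_one (min_le_left _ _)

theorem nkl_th_one {r : ℝ} (h : r ≤ 1) : th r = 1 := by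
  unfold th
  rw [min_eq_left (by linarith), max_eq_right zero_le_one]

theorem nkl_th_lip (r s : ℝ) : |th r - th s| ≤ |r - s| := by
  unfold th
  refine (abs_max_sub_max_le_max _ _ _ _).trans ?_
  rw [sub_self, abs_zero]
  refine max_le (abs_nonneg _) ?_
  refine (abs_min_sub_min_le_max _ _ _ _).trans ?_
  rw [sub_self, abs_zero]
  refine max_le (abs_nonneg _) ?_
  rw [show (2 : ℝ) - r - (2 - s) = -(r - s) by ring, abs_neg]

/-- the numerator -/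
noncomputable def nklN (l r : ℝ) : ℝ := th (8 * r / l) - th (16 * r / l)

theorem nkl_N_zero {l r : ℝ} (hl : 0 < l) (hr : r ≤ l / 16) : nklN l r = 0 := by
  unfold nklN
  rw [nkl_th_one, nkl_th_one, sub_self]
  · rw [div_le_one hl]; linarith
  · rw [div_le_one hl]; linarith

theorem nkl_N_le {l r : ℝ} : |nklN l r| ≤ 1 := by
  unfold nklN
  rw [abs_le]
  have h1 := nkl_th_nonneg (8 * r / l)
  have h2 := nkl_th_nonneg (16 * r / l)
  have h3 := nkl_th_le_one (8 * r / l)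
  have h4 := nkl_th_le_one (16 * r / l)
  constructor <;> linarith

theorem nkl_N_lip {l : ℝ} (hl : 0 < l) (r s : ℝ) : |nklN l r - nklN l s| ≤ 24 / l * |r - s| := by
  unfold nklN
  have h1 := nkl_th_lip (8 * r / l) (8 * s / l)
  have h2 := nkl_th_lip (16 * r / l) (16 * s / l)
  have e1 : |8 * r / l - 8 * s / l| = 8 / l * |r - s| := by
    rw [show 8 * r / l - 8 * s / l = 8 / l * (r - s) by ring, abs_mul,
      abs_of_pos (by positivity : (0 : ℝ) < 8 / l)]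
  have e2 : |16 * r / l - 16 * s / l| = 16 / l * |r - s| := by
    rw [show 16 * r / l - 16 * s / l = 16 / l * (r - s) by ring, abs_mul,
      abs_of_pos (by positivity : (0 : ℝ) < 16 / l)]
  rw [e1] at h1
  rw [e2] at h2
  have h3 : th (8 * r / l) - th (16 * r / l) - (th (8 * s / l) - th (16 * s / l)) =
      (th (8 * r / l) - th (8 * s / l)) - (th (16 * r / l) - th (16 * s / l)) := by ring
  rw [h3]
  refine (abs_sub _ _).trans ?_
  calc |th (8 * r / l) - th (8 * s / l)| + |th (16 * r / l) - th (16 * s / l)|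
      ≤ 8 / l * |r - s| + 16 / l * |r - s| := add_le_add h1 h2
    _ = 24 / l * |r - s| := by ring

/-- the radial part -/
noncomputable def nklP (l r : ℝ) : ℝ := nklN l r / r ^ 2

theorem nkl_P_zero {l r : ℝ} (hl : 0 < l) (hr : r ≤ l / 16) : nklP l r = 0 := by
  unfold nklP
  rw [nkl_N_zero hl hr, zero_div]

theorem nkl_P_le {l r : ℝ} (hl : 0 < l) : |nklP l r| ≤ 256 / l ^ 2 := by
  rcases le_or_gt r (l / 16) with h | h
  · rw [nkl_P_zero hl h, abs_zero]; positivity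
  · unfold nklP
    have hr : 0 < r := lt_trans (by positivity) h
    rw [abs_div, abs_of_pos (by positivity : (0 : ℝ) < r ^ 2), div_le_div_iff₀ (by positivity) (by positivity)]
    have h1 := nkl_N_le (l := l) (r := r)
    have h2 : l ^ 2 ≤ 256 * r ^ 2 := by nlinarith
    calc |nklN l r| * l ^ 2 ≤ 1 * l ^ 2 := mul_le_mul_of_nonneg_right h1 (by positivity)
      _ ≤ 256 * r ^ 2 := by rw [one_mul]; exact h2

theorem nkl_P_lip1 {l r s : ℝ} (hl : 0 < l) (hr : l / 16 ≤ r) (hs : l / 16 ≤ s) :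
    |nklP l r - nklP l s| ≤ 14336 / l ^ 3 * |r - s| := by
  have hr0 : 0 < r := lt_of_lt_of_le (by positivity) hr
  have hs0 : 0 < s := lt_of_lt_of_le (by positivity) hs
  have e : nklP l r - nklP l s = (nklN l r - nklN l s) * (1 / r) ^ 2
      + nklN l s * ((s - r) * ((1 / r) ^ 2 * (1 / s) + (1 / r) * (1 / s) ^ 2)) := by
    unfold nklP
    field_simp
    ring
  have a1 : 1 / r ≤ 16 / l := by rw [div_le_div_iff₀ hr0 hl]; linarith
  have a2 : 1 / s ≤ 16 / l := by rw [div_le_div_iff₀ hs0 hl]; linarith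
  have b1 : 0 < 1 / r := by positivity
  have b2 : 0 < 1 / s := by positivity
  have c1 : (1 / r) ^ 2 ≤ (16 / l) ^ 2 := pow_le_pow_left₀ b1.le a1 2
  have c2 : (1 / s) ^ 2 ≤ (16 / l) ^ 2 := pow_le_pow_left₀ b2.le a2 2
  have d : (1 / r) ^ 2 * (1 / s) + (1 / r) * (1 / s) ^ 2 ≤ 2 * (16 / l) ^ 3 := by
    have d1 : (1 / r) ^ 2 * (1 / s) ≤ (16 / l) ^ 2 * (16 / l) := mul_le_mul c1 a2 b2.le (by positivity)
    have d2 : (1 / r) * (1 / s) ^ 2 ≤ (16 / l) * (16 / l) ^ 2 := mul_le_mul a1 c2 (by positivity) (by positivity)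
    calc (1 / r) ^ 2 * (1 / s) + (1 / r) * (1 / s) ^ 2 ≤ (16 / l) ^ 2 * (16 / l) + (16 / l) * (16 / l) ^ 2 :=
          add_le_add d1 d2
      _ = 2 * (16 / l) ^ 3 := by ring
  have d0 : 0 ≤ (1 / r) ^ 2 * (1 / s) + (1 / r) * (1 / s) ^ 2 := by positivity
  rw [e]
  refine (abs_add_le _ _).trans ?_
  rw [abs_mul, abs_mul, abs_mul, abs_of_nonneg d0, abs_of_nonneg (by positivity : (0 : ℝ) ≤ (1 / r) ^ 2)]
  have t1 : |nklN l r - nklN l s| * (1 / r) ^ 2 ≤ (24 / l * |r - s|) * (16 / l) ^ 2 :=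
    mul_le_mul (nkl_N_lip hl r s) c1 (by positivity) (by positivity)
  have t2 : |nklN l s| * (|s - r| * ((1 / r) ^ 2 * (1 / s) + (1 / r) * (1 / s) ^ 2)) ≤
      1 * (|s - r| * (2 * (16 / l) ^ 3)) :=
    mul_le_mul nkl_N_le (mul_le_mul_of_nonneg_left d (abs_nonneg _)) (by positivity) zero_le_one
  rw [abs_sub_comm s r] at t2 ⊢
  calc _ ≤ (24 / l * |r - s|) * (16 / l) ^ 2 + 1 * (|r - s| * (2 * (16 / l) ^ 3)) := add_le_add t1 t2
    _ = 14336 / l ^ 3 * |r - s| := by field_simp; ring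

theorem nkl_P_lip {l : ℝ} (hl : 0 < l) (r s : ℝ) :
    |nklP l r - nklP l s| ≤ 14336 / l ^ 3 * |r - s| := by
  have hL : 0 ≤ 14336 / l ^ 3 := by positivity
  rcases le_or_gt (l / 16) r with hr | hr
  · rcases le_or_gt (l / 16) s with hs | hs
    · exact nkl_P_lip1 hl hr hs
    · have h := nkl_P_lip1 hl hr (le_refl (l / 16))
      rw [nkl_P_zero hl le_rfl] at h
      rw [nkl_P_zero hl hs.le]
      refine h.trans (mul_le_mul_of_nonneg_left ?_ hL)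
      rw [abs_of_nonneg (by linarith), abs_of_nonneg (by linarith)]
      linarith
  · rcases le_or_gt (l / 16) s with hs | hs
    · have h := nkl_P_lip1 hl (le_refl (l / 16)) hs
      rw [nkl_P_zero hl le_rfl] at h
      rw [nkl_P_zero hl hr.le]
      refine h.trans (mul_le_mul_of_nonneg_left ?_ hL)
      rw [abs_of_nonpos (by linarith), abs_of_nonpos (by linarith)]
      linarith
    · rw [nkl_P_zero hl hr.le, nkl_P_zero hl hs.le, sub_zero, abs_zero]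
      positivity

theorem nkl_An_eq (n : ℕ) (k : ℤ) (z : ℂ) :
    An n k z = ((-1) ^ n * ((n : ℂ) / (Real.pi : ℂ))) *
      ((starRingEnd ℂ z / z) ^ n * ((nklP ((2 : ℝ) ^ k) ‖z‖ : ℝ) : ℂ)) := by
  unfold An Kn nklP nklN
  push_cast
  ring

theorem nkl_c_norm (n : ℕ) : ‖((-1) ^ n * ((n : ℂ) / (Real.pi : ℂ)))‖ ≤ n := by
  rw [norm_mul, norm_pow, norm_neg, norm_one, one_pow, one_mul, norm_div, Complex.norm_natCast,
    Complex.norm_real, Real.norm_of_nonneg Real.pi_pos.le]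
  rw [div_le_iff₀ Real.pi_pos]
  have h1 : (1 : ℝ) ≤ Real.pi := by linarith [Real.pi_gt_three]
  have h2 : (0 : ℝ) ≤ n := Nat.cast_nonneg n
  nlinarith

theorem nkl_E_norm (z : ℂ) : ‖starRingEnd ℂ z / z‖ ≤ 1 := by
  rw [norm_div, RCLike.norm_conj]
  exact div_self_le_one _

theorem nkl_E_lip {z z' : ℂ} (hz : z ≠ 0) (hz' : z' ≠ 0) :
    ‖starRingEnd ℂ z / z - starRingEnd ℂ z' / z'‖ ≤ 2 * ‖z - z'‖ / ‖z‖ := by
  have e : starRingEnd ℂ z / z - starRingEnd ℂ z' / z' =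
      starRingEnd ℂ (z - z') / z - (starRingEnd ℂ z' / z') * ((z - z') / z) := by
    rw [map_sub]
    field_simp
    ring
  rw [e]
  refine (norm_sub_le _ _).trans ?_
  have h1 : ‖starRingEnd ℂ (z - z') / z‖ = ‖z - z'‖ / ‖z‖ := by rw [norm_div, RCLike.norm_conj]
  have h2 : ‖(starRingEnd ℂ z' / z') * ((z - z') / z)‖ ≤ ‖z - z'‖ / ‖z‖ := by
    rw [norm_mul, norm_div (z - z')]
    calc _ ≤ 1 * (‖z - z'‖ / ‖z‖) := mul_le_mul_of_nonneg_right (nkl_E_norm z') (by positivity)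
      _ = ‖z - z'‖ / ‖z‖ := one_mul _
  rw [h1]
  calc _ ≤ ‖z - z'‖ / ‖z‖ + ‖z - z'‖ / ‖z‖ := add_le_add_right h2 _
    _ = 2 * ‖z - z'‖ / ‖z‖ := by ring

theorem nkl_pow_sub (a b : ℂ) (ha : ‖a‖ ≤ 1) (hb : ‖b‖ ≤ 1) (n : ℕ) :
    ‖a ^ n - b ^ n‖ ≤ n * ‖a - b‖ := by
  induction n with
  | zero => simp
  | succ n ih =>
    have e : a ^ (n + 1) - b ^ (n + 1) = a * (a ^ n - b ^ n) + (a - b) * b ^ n := by ring
    rw [e]
    refine (norm_add_le _ _).trans ?_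
    rw [norm_mul, norm_mul, norm_pow]
    have h1 : ‖a‖ * ‖a ^ n - b ^ n‖ ≤ 1 * (n * ‖a - b‖) :=
      mul_le_mul ha ih (norm_nonneg _) zero_le_one
    have h2 : ‖a - b‖ * ‖b‖ ^ n ≤ ‖a - b‖ * 1 :=
      mul_le_mul_of_nonneg_left (pow_le_one₀ (norm_nonneg _) hb) (norm_nonneg _)
    push_cast
    linarith

theorem nkl_An_lip (n : ℕ) (hn : 1 ≤ n) (k : ℤ) (z z' : ℂ) :
    ‖An n k z - An n k z'‖ ≤ 22528 * n ^ 2 / ((2 : ℝ) ^ k) ^ 3 * ‖z - z'‖ := by
  have hl : (0 : ℝ) < (2 : ℝ) ^ k := by positivity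
  rw [nkl_An_eq, nkl_An_eq]
  generalize (2 : ℝ) ^ k = l at *
  rw [← mul_sub, norm_mul]
  have hn1 : (1 : ℝ) ≤ n := by exact_mod_cast hn
  have hc := nkl_c_norm n
  have hd : |‖z‖ - ‖z'‖| ≤ ‖z - z'‖ := abs_norm_sub_norm_le z z'
  have hnn : (0 : ℝ) ≤ ‖z - z'‖ := norm_nonneg _
  -- the main claim
  have key : ‖(starRingEnd ℂ z / z) ^ n * ((nklP l ‖z‖ : ℝ) : ℂ) -
      (starRingEnd ℂ z' / z') ^ n * ((nklP l ‖z'‖ : ℝ) : ℂ)‖ ≤ 22528 * n / l ^ 3 * ‖z - z'‖ := by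
    have hP : |nklP l ‖z‖ - nklP l ‖z'‖| ≤ 14336 / l ^ 3 * ‖z - z'‖ :=
      (nkl_P_lip hl _ _).trans (mul_le_mul_of_nonneg_left hd (by positivity))
    have hEn : ∀ w : ℂ, ‖(starRingEnd ℂ w / w) ^ n‖ ≤ 1 := by
      intro w
      rw [norm_pow]
      exact pow_le_one₀ (norm_nonneg _) (nkl_E_norm w)
    have hbig : 14336 / l ^ 3 * ‖z - z'‖ ≤ 22528 * n / l ^ 3 * ‖z - z'‖ := by
      apply mul_le_mul_of_nonneg_right _ hnn
      apply div_le_div_of_nonneg_right _ (by positivity)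
      nlinarith
    rcases le_or_gt ‖z‖ (l / 16) with h1 | h1
    · rw [nkl_P_zero hl h1, Complex.ofReal_zero, mul_zero, zero_sub, norm_neg, norm_mul, Complex.norm_real]
      rw [nkl_P_zero hl h1, zero_sub, abs_neg] at hP
      calc _ ≤ 1 * |nklP l ‖z'‖| := mul_le_mul_of_nonneg_right (hEn z') (abs_nonneg _)
        _ ≤ 14336 / l ^ 3 * ‖z - z'‖ := by rw [one_mul]; exact hP
        _ ≤ _ := hbig
    rcases le_or_gt ‖z'‖ (l / 16) with h2 | h2
    · rw [nkl_P_zero hl h2, Complex.ofReal_zero, mul_zero, sub_zero, norm_mul, Complex.norm_real]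
      rw [nkl_P_zero hl h2, sub_zero] at hP
      calc _ ≤ 1 * |nklP l ‖z‖| := mul_le_mul_of_nonneg_right (hEn z) (abs_nonneg _)
        _ ≤ 14336 / l ^ 3 * ‖z - z'‖ := by rw [one_mul]; exact hP
        _ ≤ _ := hbig
    have hz0 : 0 < ‖z‖ := lt_trans (by positivity) h1
    have hz0' : 0 < ‖z'‖ := lt_trans (by positivity) h2
    have e : (starRingEnd ℂ z / z) ^ n * ((nklP l ‖z‖ : ℝ) : ℂ) -
      (starRingEnd ℂ z' / z') ^ n * ((nklP l ‖z'‖ : ℝ) : ℂ) =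
      ((starRingEnd ℂ z / z) ^ n - (starRingEnd ℂ z' / z') ^ n) * ((nklP l ‖z‖ : ℝ) : ℂ) +
      (starRingEnd ℂ z' / z') ^ n * ((nklP l ‖z‖ - nklP l ‖z'‖ : ℝ) : ℂ) := by
      push_cast
      ring
    rw [e]
    refine (norm_add_le _ _).trans ?_
    rw [norm_mul, norm_mul, Complex.norm_real, Complex.norm_real, Real.norm_eq_abs, Real.norm_eq_abs]
    have t1 : ‖(starRingEnd ℂ z / z) ^ n - (starRingEnd ℂ z' / z') ^ n‖ ≤ n * (32 / l * ‖z - z'‖) := by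
      refine (nkl_pow_sub _ _ (nkl_E_norm z) (nkl_E_norm z') n).trans ?_
      apply mul_le_mul_of_nonneg_left _ (Nat.cast_nonneg n)
      refine (nkl_E_lip (norm_pos_iff.1 hz0) (norm_pos_iff.1 hz0')).trans ?_
      rw [div_le_iff₀ hz0]
      have : 32 / l * ‖z - z'‖ * ‖z‖ = (32 / l * ‖z‖) * ‖z - z'‖ := by ring
      rw [this]
      apply mul_le_mul_of_nonneg_right _ hnn
      rw [div_mul_eq_mul_div, le_div_iff₀ hl]
      linarith
    have t2 : ‖(starRingEnd ℂ z / z) ^ n - (starRingEnd ℂ z' / z') ^ n‖ * |nklP l ‖z‖| ≤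
        n * (32 / l * ‖z - z'‖) * (256 / l ^ 2) :=
      mul_le_mul t1 (nkl_P_le hl) (abs_nonneg _) (by positivity)
    have t3 : ‖(starRingEnd ℂ z' / z') ^ n‖ * |nklP l ‖z‖ - nklP l ‖z'‖| ≤
        1 * (14336 / l ^ 3 * ‖z - z'‖) :=
      mul_le_mul (hEn z') hP (abs_nonneg _) zero_le_one
    calc _ ≤ n * (32 / l * ‖z - z'‖) * (256 / l ^ 2) + 1 * (14336 / l ^ 3 * ‖z - z'‖) :=
          add_le_add t2 t3
      _ ≤ n * (32 / l * ‖z - z'‖) * (256 / l ^ 2) + n * (14336 / l ^ 3 * ‖z - z'‖) := by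
          apply add_le_add_right
          exact mul_le_mul_of_nonneg_right hn1 (by positivity)
      _ = 22528 * n / l ^ 3 * ‖z - z'‖ := by field_simp; ring
  calc _ ≤ (n : ℝ) * (22528 * n / l ^ 3 * ‖z - z'‖) :=
        mul_le_mul hc key (norm_nonneg _) (Nat.cast_nonneg n)
    _ = 22528 * n ^ 2 / l ^ 3 * ‖z - z'‖ := by ring

theorem An_lip : ∃ C : ℝ, 0 < C ∧ ∀ (n : ℕ), 1 ≤ n → ∀ (k : ℤ) (z z' : ℂ),
    ‖An n k z - An n k z'‖ ≤ C * n ^ 2 / ((2 : ℝ) ^ k) ^ 3 * ‖z - z'‖ :=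
  ⟨22528, by norm_num, nkl_An_lip⟩

theorem continuous_An (n : ℕ) (hn : 1 ≤ n) (k : ℤ) : Continuous (An n k) := by
  have h : LipschitzWith (Real.toNNReal (22528 * n ^ 2 / ((2 : ℝ) ^ k) ^ 3)) (An n k) := by
    apply LipschitzWith.of_dist_le_mul
    intro z z'
    rw [dist_eq_norm, dist_eq_norm, Real.coe_toNNReal _ (by positivity)]
    exact nkl_An_lip n hn k z z'
  exact h.continuous

theorem nkl_pos_lip {l : ℝ} (hl : 0 < l) (a b : ℝ) :
    |max 0 (1 - |a| / l) - max 0 (1 - |b| / l)| ≤ |a - b| / l := by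
  have h : |max 0 (1 - |a| / l) - max 0 (1 - |b| / l)| ≤ |(1 - |a| / l) - (1 - |b| / l)| := by
    refine (abs_max_sub_max_le_max _ _ _ _).trans ?_
    rw [sub_self, abs_zero]
    exact max_le (abs_nonneg _) le_rfl
  refine h.trans ?_
  rw [show (1 - |a| / l) - (1 - |b| / l) = (|b| - |a|) / l by ring, abs_div, abs_of_pos hl]
  apply div_le_div_of_nonneg_right _ hl.le
  rw [abs_sub_comm a b]
  exact abs_abs_sub_abs_le_abs_sub b a

theorem nkl_tent_lip {l : ℝ} (hl : 0 < l) (z z' : ℂ) :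
    |tent l z - tent l z'| ≤ 2 / l * ‖z - z'‖ := by
  unfold tent
  have h1 := nkl_pos_lip hl z.re z'.re
  have h2 := nkl_pos_lip hl z.im z'.im
  have a1 : |z.re - z'.re| ≤ ‖z - z'‖ := by rw [← Complex.sub_re]; exact Complex.abs_re_le_norm _
  have a2 : |z.im - z'.im| ≤ ‖z - z'‖ := by rw [← Complex.sub_im]; exact Complex.abs_im_le_norm _
  have b0 : ∀ a : ℝ, 0 ≤ max 0 (1 - |a| / l) := fun a => le_max_left _ _
  have b1 : ∀ a : ℝ, max 0 (1 - |a| / l) ≤ 1 := by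
    intro a
    apply max_le zero_le_one
    have : 0 ≤ |a| / l := by positivity
    linarith
  have h1' : |max 0 (1 - |z.re| / l) - max 0 (1 - |z'.re| / l)| ≤ ‖z - z'‖ / l :=
    h1.trans (div_le_div_of_nonneg_right a1 hl.le)
  have h2' : |max 0 (1 - |z.im| / l) - max 0 (1 - |z'.im| / l)| ≤ ‖z - z'‖ / l :=
    h2.trans (div_le_div_of_nonneg_right a2 hl.le)
  have e : max 0 (1 - |z.re| / l) * max 0 (1 - |z.im| / l) -
      max 0 (1 - |z'.re| / l) * max 0 (1 - |z'.im| / l) =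
      (max 0 (1 - |z.re| / l) - max 0 (1 - |z'.re| / l)) * max 0 (1 - |z.im| / l) +
      max 0 (1 - |z'.re| / l) * (max 0 (1 - |z.im| / l) - max 0 (1 - |z'.im| / l)) := by ring
  rw [e]
  refine (abs_add_le _ _).trans ?_
  rw [abs_mul, abs_mul, abs_of_nonneg (b0 z.im), abs_of_nonneg (b0 z'.re)]
  have t1 := mul_le_mul h1' (b1 z.im) (b0 z.im) (by positivity)
  have t2 := mul_le_mul (b1 z'.re) h2' (abs_nonneg _) zero_le_one
  calc _ ≤ ‖z - z'‖ / l * 1 + 1 * (‖z - z'‖ / l) := add_le_add t1 t2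
    _ = 2 / l * ‖z - z'‖ := by ring

/-- the denominator -/
noncomputable def nklM (l : ℝ) (z : ℂ) : ℝ := max (tent l z) (1 / 2)

theorem nkl_M_ge (l : ℝ) (z : ℂ) : 1 / 2 ≤ nklM l z := le_max_right _ _

theorem nkl_M_pos (l : ℝ) (z : ℂ) : 0 < nklM l z := lt_of_lt_of_le (by norm_num) (nkl_M_ge l z)

theorem nkl_M_lip {l : ℝ} (hl : 0 < l) (z z' : ℂ) : |nklM l z - nklM l z'| ≤ 2 / l * ‖z - z'‖ := by
  unfold nklM
  refine (abs_max_sub_max_le_max _ _ _ _).trans ?_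
  rw [sub_self, abs_zero]
  exact max_le (nkl_tent_lip hl z z') (by positivity)

theorem nkl_inv_lip {l : ℝ} (hl : 0 < l) (z z' : ℂ) :
    |(nklM l z)⁻¹ - (nklM l z')⁻¹| ≤ 8 / l * ‖z - z'‖ := by
  have h1 := nkl_M_ge l z
  have h2 := nkl_M_ge l z'
  have p1 := nkl_M_pos l z
  have p2 := nkl_M_pos l z'
  have e : (nklM l z)⁻¹ - (nklM l z')⁻¹ = (nklM l z' - nklM l z) * ((nklM l z)⁻¹ * (nklM l z')⁻¹) := by
    field_simp
  have i1 : (nklM l z)⁻¹ ≤ 2 := by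
    rw [inv_le_comm₀ p1 (by norm_num)]; linarith
  have i2 : (nklM l z')⁻¹ ≤ 2 := by
    rw [inv_le_comm₀ p2 (by norm_num)]; linarith
  have i3 : (nklM l z)⁻¹ * (nklM l z')⁻¹ ≤ 4 := by
    calc _ ≤ (2 : ℝ) * 2 := mul_le_mul i1 i2 (by positivity) (by norm_num)
      _ = 4 := by norm_num
  rw [e, abs_mul, abs_of_pos (by positivity : 0 < (nklM l z)⁻¹ * (nklM l z')⁻¹), abs_sub_comm]
  calc _ ≤ (2 / l * ‖z - z'‖) * 4 := mul_le_mul (nkl_M_lip hl z z') i3 (by positivity) (by positivity)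
    _ = 8 / l * ‖z - z'‖ := by ring

theorem nkl_tl_eq (A : ℂ → ℂ) (l : ℝ) (z : ℂ) : tl A l z = A z * (((nklM l z)⁻¹ : ℝ) : ℂ) := by
  unfold tl nklM
  rw [div_eq_mul_inv, Complex.ofReal_inv]

theorem tl_lip : ∃ C : ℝ, 0 < C ∧ ∀ (n : ℕ), 1 ≤ n → ∀ (k : ℤ) (z z' : ℂ),
    ‖tl (An n k) ((2 : ℝ) ^ k) z - tl (An n k) ((2 : ℝ) ^ k) z'‖
      ≤ C * n ^ 2 / ((2 : ℝ) ^ k) ^ 3 * ‖z - z'‖ := by
  refine ⟨45856, by norm_num, ?_⟩
  intro n hn k z z'
  have hn1 : (1 : ℝ) ≤ n := by exact_mod_cast hn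
  have hl : (0 : ℝ) < (2 : ℝ) ^ k := by positivity
  have hA := nkl_An_lip n hn k z z'
  have hB := norm_An_le n k z'
  rw [nkl_tl_eq, nkl_tl_eq]
  generalize (2 : ℝ) ^ k = l at *
  have hI := nkl_inv_lip hl z z'
  have p1 := nkl_M_pos l z
  have h1 := nkl_M_ge l z
  have i1 : (nklM l z)⁻¹ ≤ 2 := by
    rw [inv_le_comm₀ p1 (by norm_num)]; linarith
  have e : An n k z * (((nklM l z)⁻¹ : ℝ) : ℂ) - An n k z' * (((nklM l z')⁻¹ : ℝ) : ℂ) =
      (An n k z - An n k z') * (((nklM l z)⁻¹ : ℝ) : ℂ) +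
      An n k z' * (((nklM l z)⁻¹ - (nklM l z')⁻¹ : ℝ) : ℂ) := by
    push_cast
    ring
  rw [e]
  refine (norm_add_le _ _).trans ?_
  rw [norm_mul, norm_mul, Complex.norm_real, Complex.norm_real, Real.norm_eq_abs, Real.norm_eq_abs,
    abs_of_pos (inv_pos.2 p1)]
  have t1 := mul_le_mul hA i1 (inv_pos.2 p1).le (by positivity)
  have t2 := mul_le_mul hB hI (abs_nonneg _) (by positivity)
  calc _ ≤ 22528 * n ^ 2 / l ^ 3 * ‖z - z'‖ * 2 + 100 * n / l ^ 2 * (8 / l * ‖z - z'‖) :=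
        add_le_add t1 t2
    _ = (45056 * n ^ 2 + 800 * n) / l ^ 3 * ‖z - z'‖ := by field_simp; ring
    _ ≤ 45856 * n ^ 2 / l ^ 3 * ‖z - z'‖ := by
        apply mul_le_mul_of_nonneg_right _ (norm_nonneg _)
        apply div_le_div_of_nonneg_right _ (by positivity)
        nlinarith

theorem tl_rot : ∃ C : ℝ, 0 < C ∧ ∀ (n : ℕ), 1 ≤ n → ∀ (k : ℤ) (z : ℂ),
    ‖tl (An n k) ((2 : ℝ) ^ k) (om n * z) + tl (An n k) ((2 : ℝ) ^ k) z‖ ≤ C / ((2 : ℝ) ^ k) ^ 2 := by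
  refine ⟨400, by norm_num, ?_⟩
  intro n hn k z
  have hn1 : (1 : ℝ) ≤ n := by exact_mod_cast hn
  have hl : (0 : ℝ) < (2 : ℝ) ^ k := by positivity
  have hR := An_rot n hn k z
  have hB := norm_An_le n k z
  have hS := An_supp' n k z
  rw [nkl_tl_eq, nkl_tl_eq, hR]
  generalize (2 : ℝ) ^ k = l at *
  rcases le_or_gt (l / 4) ‖z‖ with h | h
  · rw [hS h]
    simp only [neg_zero, zero_mul, add_zero, norm_zero]
    positivity
  have e : -An n k z * (((nklM l (om n * z))⁻¹ : ℝ) : ℂ) + An n k z * (((nklM l z)⁻¹ : ℝ) : ℂ) =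
      An n k z * (((nklM l z)⁻¹ - (nklM l (om n * z))⁻¹ : ℝ) : ℂ) := by
    push_cast
    ring
  rw [e, norm_mul, Complex.norm_real, Real.norm_eq_abs]
  have hI := nkl_inv_lip hl z (om n * z)
  have ho : ‖z - om n * z‖ ≤ Real.pi / (2 * n) * ‖z‖ := by
    rw [show z - om n * z = -((om n - 1) * z) by ring, norm_neg, norm_mul]
    apply mul_le_mul_of_nonneg_right _ (norm_nonneg _)
    have := Real.norm_exp_I_mul_ofReal_sub_one_le (x := Real.pi / (2 * n))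
    rw [Real.norm_of_nonneg (by positivity)] at this
    exact this
  have h3 : 8 / l * ‖z - om n * z‖ ≤ 8 / l * (Real.pi / (2 * n) * (l / 4)) := by
    apply mul_le_mul_of_nonneg_left _ (by positivity)
    exact ho.trans (mul_le_mul_of_nonneg_left h.le (by positivity))
  have t := mul_le_mul hB (hI.trans h3) (abs_nonneg _) (by positivity)
  refine t.trans ?_
  have e2 : 100 * (n : ℝ) / l ^ 2 * (8 / l * (Real.pi / (2 * n) * (l / 4))) = 100 * Real.pi / l ^ 2 := by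
    field_simp
    ring
  rw [e2]
  apply div_le_div_of_nonneg_right _ (by positivity)
  linarith [Real.pi_le_four]

end Pool.MP_75bf3e_an.BT
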