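import Pool.Agent.Lib_MP_75bf3e.Step

/-!
# Piece AREM: the remainder kernel

`Q0 = sq 0 l`.

`ker_rr_of`.  `rr A l z = l^{-4} ∫_{u∈Q0} [1(u - z ∈ Q0) + 1(u + z ∈ Q0)] F1(u) du`.
* support: if `l ≤ |z.re|` or `l ≤ |z.im|` both indicators vanish on `Q0`;
* size: `≤ l^{-4} * 2 β₂ l^2 ≤ κ'/l^2`;
* difference: also `‖rr z - rr z'‖ ≤ l^{-4} β₁ (|S| + |S'|)`, where `S` (`S'`) is the set of `u ∈ Q0` with exactly one of
  `u - z, u - z'` (`u + z, u + z'`) in `Q0`; its measure is at most the measure of the symmetric difference of the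
  translates `Q0 + z` and `Q0 + z'`, which is `≤ 2 l (|(z-z').re| + |(z-z').im|) ≤ 3 l ‖z - z'‖`
  (a clean way: `|1_{Q0}(u-z) - 1_{Q0}(u-z')| ≤` sum over the two coordinates of the difference of the indicators
  of intervals, times the indicator that the other coordinate lies in a translate of `[0,l)`; or use
  `|A △ B| ≤ 2 (|A| - |A ∩ B|)` and `tent_eq`: `|Q0+z ∩ Q0+z'| = l^2 tent l (z - z')` and
  `tent l d ≥ 1 - (|d.re| + |d.im|)/l`).
  So `‖rr z - rr z'‖ ≤ 6 β₁ l^{-3} ‖z - z'‖`, and trivially `≤ 4 β₂ l^{-2}`.  Geometric mean: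
  `≤ √(24 β₁ β₂) l^{-2} √(‖z - z'‖/l) ≤ κ' l^{-2} √(‖z-z'‖/l)`.
* even: exchange the two indicators;
* mean: Fubini, `∫_z rr = l^{-4} ∫_{Q0} 2 l^2 F1 = 2 l^{-2} ∫_{Q0} F1 = 2 l^{-2} * l^2 ∫ tl * tent = 2 ∫ A = 0`
  (`∫_{u∈Q0} F1(u) = ∫_z tl(z) |{u ∈ Q0 : u - z ∈ Q0}| dz`).

`ker_rr`.  `A ∈ Ker κ D`, `l = 2^16 D`.  `‖tl‖ ≤ 2 κ/D^2`, support in the box of area `4 D^2`.
* `‖F1 u‖ ≤ 8 κ`, so `β₁ = 8 κ`;
* if `D ≤ u.re, u.im ≤ l - D` then `F1 u = ∫ tl = ∫ A (1/max(tent,1/2) - 1)` (`∫ A = 0`) and on the box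
  `|1/tent - 1| ≤ 2(1 - tent) ≤ 4 D/l`, so `‖F1 u‖ ≤ 16 κ * 2^{-16}`; the remaining part of `Q0` has area `≤ 4 D l`.
  `∫_{Q0} ‖F1‖ ≤ l^2 (16 κ 2^{-16}) + 4 D l * 8 κ = 48 κ 2^{-16} l^2`, so `β₂ = 48 * 2^{-16} κ`.
* `2 β₂ ≤ κ/2` and `24 β₁ β₂ = 9216 * 2^{-16} κ^2 ≤ κ^2/4`.
(`Ker` functions are continuous: `Ker.continuous`.)
-/

set_option autoImplicit false

open MeasureTheory

namespace Pool.MP_75bf3e_an.BT

theorem Ker.continuous {κ D : ℝ} {A : ℂ → ℂ} (h : Ker κ D A) (hD : 0 < D) : Continuous A := by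
  have _ := hD
  rw [continuous_iff_continuousAt]
  intro z
  rw [ContinuousAt, tendsto_iff_norm_sub_tendsto_zero]
  have hlim : Filter.Tendsto (fun w : ℂ => κ / D ^ 2 * √(‖w - z‖ / D)) (nhds z) (nhds 0) := by
    have hc : Continuous (fun w : ℂ => κ / D ^ 2 * √(‖w - z‖ / D)) := by fun_prop
    have := hc.tendsto z
    simpa using this
  exact squeeze_zero (fun w => norm_nonneg _) (fun w => h.hol w z) hlim

namespace Rem

/-- the indicator of the base square -/
noncomputable def J (l : ℝ) (w : ℂ) : ℝ := (sq 0 l).indicator (fun _ => (1 : ℝ)) w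

lemma J_zero_or_one (l : ℝ) (w : ℂ) : J l w = 0 ∨ J l w = 1 := by
  unfold J
  by_cases h : w ∈ sq 0 l
  · right; simp [h]
  · left; simp [h]

lemma J_nonneg (l : ℝ) (w : ℂ) : 0 ≤ J l w := by
  rcases J_zero_or_one l w with h | h <;> rw [h]; norm_num

lemma J_le_one (l : ℝ) (w : ℂ) : J l w ≤ 1 := by
  rcases J_zero_or_one l w with h | h <;> rw [h]; norm_num

lemma J_of_mem {l : ℝ} {w : ℂ} (h : w ∈ sq 0 l) : J l w = 1 := by simp [J, h]

lemma J_of_not_mem {l : ℝ} {w : ℂ} (h : w ∉ sq 0 l) : J l w = 0 := by simp [J, h]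

lemma measurable_J (l : ℝ) : Measurable (J l) := measurable_const.indicator (measurableSet_sq 0 l)

lemma mem_sq_iff (c x : ℂ) (l : ℝ) : x ∈ sq c l ↔ x - c ∈ sq 0 l := by
  simp only [sq, Set.mem_ofPred_eq, Complex.sub_re, Complex.sub_im, Complex.zero_re, Complex.zero_im]
  constructor <;> rintro ⟨a, b, c, d⟩ <;> refine ⟨?_, ?_, ?_, ?_⟩ <;> linarith

lemma tent_neg (l : ℝ) (z : ℂ) : tent l (-z) = tent l z := by simp [tent]

lemma tent_zero {l : ℝ} : tent l 0 = 1 := by simp [tent]

open Classical in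
lemma int_JJ {l : ℝ} (hl : 0 < l) (x y : ℂ) :
    ∫ u, J l (u - x) * J l (u - y) = l ^ 2 * tent l (x - y) := by
  have h := tent_eq hl (-x) (-y)
  rw [show -x - -y = -(x - y) by ring, tent_neg] at h
  rw [← h, ← integral_neg_eq_self]
  congr 1
  ext u
  have key : ∀ w : ℂ, (if -w ∈ sq u l then (1 : ℝ) else 0) = J l (-u - w) := by
    intro w
    have : -w ∈ sq u l ↔ -u - w ∈ sq 0 l := by
      rw [mem_sq_iff]; rw [show -w - u = -u - w by ring]
    by_cases hw : -u - w ∈ sq 0 l
    · rw [if_pos (this.2 hw), J_of_mem hw]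
    · rw [if_neg (fun h' => hw (this.1 h')), J_of_not_mem hw]
  rw [key, key]

lemma integrable_J {l : ℝ} (hl : 0 < l) : Integrable (J l) := by
  unfold J
  rw [integrable_indicator_iff (measurableSet_sq 0 l)]
  refine integrableOn_const ?_
  rw [volume_sq 0 hl.le]
  exact ENNReal.ofReal_ne_top

lemma integrable_Jsub {l : ℝ} (hl : 0 < l) (x : ℂ) : Integrable (fun u => J l (u - x)) :=
  (integrable_J hl).comp_sub_right x

lemma integrable_JJ {l : ℝ} (hl : 0 < l) (x y : ℂ) :
    Integrable (fun u => J l (u - x) * J l (u - y)) := by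
  refine (integrable_Jsub hl x).mono' ?_ ?_
  · exact (((measurable_J l).comp (measurable_id.sub_const x)).mul
      ((measurable_J l).comp (measurable_id.sub_const y))).aestronglyMeasurable
  · filter_upwards with u
    rw [Real.norm_eq_abs, abs_of_nonneg (mul_nonneg (J_nonneg _ _) (J_nonneg _ _))]
    exact mul_le_of_le_one_right (J_nonneg _ _) (J_le_one _ _)

lemma one_sub_tent_le {l : ℝ} (hl : 0 < l) (z : ℂ) : 1 - tent l z ≤ (|z.re| + |z.im|) / l := by
  unfold tent
  have ha : 0 ≤ |z.re| / l := div_nonneg (abs_nonneg _) hl.le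
  have hb : 0 ≤ |z.im| / l := div_nonneg (abs_nonneg _) hl.le
  rw [add_div]
  generalize |z.re| / l = a at *
  generalize |z.im| / l = b at *
  have h1 : 1 - a ≤ max 0 (1 - a) := le_max_right _ _
  have h2 : 1 - b ≤ max 0 (1 - b) := le_max_right _ _
  have h1' : 0 ≤ max 0 (1 - a) := le_max_left _ _
  have h2' : 0 ≤ max 0 (1 - b) := le_max_left _ _
  rcases le_total a 1 with h3 | h3
  · rcases le_total b 1 with h4 | h4
    · have : (1 - a) * (1 - b) ≤ max 0 (1 - a) * max 0 (1 - b) :=
        mul_le_mul h1 h2 (by linarith) h1'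
      nlinarith [mul_nonneg ha hb]
    · nlinarith [mul_nonneg h1' h2']
  · nlinarith [mul_nonneg h1' h2']

lemma int_absdiff {l : ℝ} (hl : 0 < l) (x y : ℂ) :
    ∫ u, |J l (u - x) - J l (u - y)| ≤ 3 * l * ‖x - y‖ := by
  have h1 : ∀ u, |J l (u - x) - J l (u - y)|
      = J l (u - x) * J l (u - x) + J l (u - y) * J l (u - y)
        - 2 * (J l (u - x) * J l (u - y)) := by
    intro u
    rcases J_zero_or_one l (u - x) with h | h <;> rcases J_zero_or_one l (u - y) with h' | h' <;>
      rw [h, h'] <;> norm_num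
  simp_rw [h1]
  have h0 : ∫ u, (J l (u - x) * J l (u - x) + J l (u - y) * J l (u - y)
      - 2 * (J l (u - x) * J l (u - y)))
      = (∫ u, J l (u - x) * J l (u - x)) + (∫ u, J l (u - y) * J l (u - y))
        - 2 * ∫ u, J l (u - x) * J l (u - y) := by
    have hadd : Integrable (fun u => J l (u - x) * J l (u - x) + J l (u - y) * J l (u - y)) :=
      (integrable_JJ hl x x).add (integrable_JJ hl y y)
    rw [integral_sub hadd ((integrable_JJ hl x y).const_mul 2),
      integral_add (integrable_JJ hl x x) (integrable_JJ hl y y), integral_const_mul]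
  rw [h0, int_JJ hl, int_JJ hl, int_JJ hl, sub_self, sub_self, tent_zero]
  have h2 := one_sub_tent_le hl (x - y)
  have h3 : |(x - y).re| + |(x - y).im| ≤ 3 / 2 * ‖x - y‖ := by
    have e1 : |(x - y).re| ^ 2 + |(x - y).im| ^ 2 = ‖x - y‖ ^ 2 := by
      rw [Complex.sq_norm, Complex.normSq_apply, sq_abs, sq_abs]; ring
    have e2 := sq_nonneg (|(x - y).re| - |(x - y).im|)
    have e3 : (|(x - y).re| + |(x - y).im|) ^ 2 ≤ (3 / 2 * ‖x - y‖) ^ 2 := by
      nlinarith [sq_nonneg ‖x - y‖]
    exact le_of_sq_le_sq e3 (by positivity)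
  have h4 : 1 - tent l (x - y) ≤ 3 / 2 * ‖x - y‖ / l :=
    h2.trans (by gcongr)
  have h5 : l ^ 2 * (1 - tent l (x - y)) ≤ l ^ 2 * (3 / 2 * ‖x - y‖ / l) := by gcongr
  have h6 : l ^ 2 * (3 / 2 * ‖x - y‖ / l) = 3 / 2 * l * ‖x - y‖ := by
    field_simp
  nlinarith


lemma hasCompactSupport_of {A : ℂ → ℂ} {D : ℝ}
    (hsupp : ∀ z : ℂ, (D ≤ |z.re| ∨ D ≤ |z.im|) → A z = 0) : HasCompactSupport A := by
  refine HasCompactSupport.intro (isCompact_closedBall (0 : ℂ) (2 * D)) ?_
  intro z hz
  apply hsupp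
  rw [Metric.mem_closedBall, dist_zero_right, not_le] at hz
  have := Complex.norm_le_abs_re_add_abs_im z
  by_contra hcon
  push Not at hcon
  linarith [hcon.1, hcon.2]

lemma tl_supp {A : ℂ → ℂ} {D l : ℝ} (hsupp : ∀ z : ℂ, (D ≤ |z.re| ∨ D ≤ |z.im|) → A z = 0) :
    ∀ z : ℂ, (D ≤ |z.re| ∨ D ≤ |z.im|) → tl A l z = 0 := by
  intro z hz
  rw [tl, hsupp z hz, zero_div]

lemma tl_mul_tent {A : ℂ → ℂ} {D l : ℝ} (hD : 0 < D) (hl : 4 * D ≤ l)
    (hsupp : ∀ z : ℂ, (D ≤ |z.re| ∨ D ≤ |z.im|) → A z = 0) (z : ℂ) :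
    tl A l z * ((tent l z : ℝ) : ℂ) = A z := by
  by_cases hz : D ≤ |z.re| ∨ D ≤ |z.im|
  · rw [tl_supp hsupp z hz, hsupp z hz, zero_mul]
  · push Not at hz
    have h := half_le_tent hD hl z hz.1.le hz.2.le
    rw [tl, max_eq_left h]
    have hne : ((tent l z : ℝ) : ℂ) ≠ 0 := by
      have : tent l z ≠ 0 := by linarith
      exact_mod_cast this
    rw [div_mul_cancel₀ _ hne]

lemma F1_eq (A : ℂ → ℂ) (l : ℝ) (u : ℂ) :
    F1 A l u = ∫ w, ((J l (u - w) : ℝ) : ℂ) * tl A l w := by
  rw [F1, ← integral_indicator (measurableSet_sq 0 l),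
    ← integral_sub_left_eq_self _ volume u]
  congr 1
  ext w
  by_cases h : u - w ∈ sq 0 l
  · rw [Set.indicator_of_mem h, J_of_mem h]; simp
  · rw [Set.indicator_of_notMem h, J_of_not_mem h]; simp

lemma volume_sq_ne_top {l : ℝ} (hl : 0 < l) : volume (sq 0 l) ≠ ⊤ := by
  rw [volume_sq 0 hl.le]; exact ENNReal.ofReal_ne_top

lemma continuous_F1 {A : ℂ → ℂ} (hA : Continuous A) {D l : ℝ} (hl : 0 < l)
    (hsupp : ∀ z : ℂ, (D ≤ |z.re| ∨ D ≤ |z.im|) → A z = 0) : Continuous (F1 A l) := by
  obtain ⟨C, hC⟩ := hA.bounded_above_of_compact_support (hasCompactSupport_of hsupp)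
  have htl := continuous_tl A hA hl
  unfold F1
  refine continuous_of_dominated (bound := fun _ => 2 * C) ?_ ?_ ?_ ?_
  · intro u
    exact (htl.comp (continuous_const.sub continuous_id)).aestronglyMeasurable
  · intro u
    filter_upwards with v
    exact (norm_tl_le A l _).trans (by linarith [hC (u - v)])
  · exact integrableOn_const (volume_sq_ne_top hl)
  · filter_upwards with v
    exact htl.comp (continuous_id.sub continuous_const)

lemma integrableOn_F1 {A : ℂ → ℂ} (hA : Continuous A) {D l : ℝ} (hl : 0 < l)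
    (hsupp : ∀ z : ℂ, (D ≤ |z.re| ∨ D ≤ |z.im|) → A z = 0) : IntegrableOn (F1 A l) (sq 0 l) :=
  ((continuous_F1 hA hl hsupp).continuousOn.integrableOn_compact
    (isCompact_closedBall (0 : ℂ) (2 * l))).mono_set (sq_subset_closedBall 0 hl.le)

lemma rr_eq (A : ℂ → ℂ) (l : ℝ) (z : ℂ) :
    rr A l z = ((l ^ 4 : ℝ) : ℂ)⁻¹ *
      ∫ u in sq 0 l, ((J l (u - z) + J l (u + z) : ℝ) : ℂ) * F1 A l u := by
  unfold rr
  congr 1
  congr 1
  ext u
  congr 1
  by_cases h1 : u - z ∈ sq 0 l <;> by_cases h2 : u + z ∈ sq 0 l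
  · rw [if_pos h1, if_pos h2, J_of_mem h1, J_of_mem h2]; norm_num
  · rw [if_pos h1, if_neg h2, J_of_mem h1, J_of_not_mem h2]; norm_num
  · rw [if_neg h1, if_pos h2, J_of_not_mem h1, J_of_mem h2]; norm_num
  · rw [if_neg h1, if_neg h2, J_of_not_mem h1, J_of_not_mem h2]; norm_num

/-- the integral of `F1` over the square vanishes -/
lemma setIntegral_F1 {A : ℂ → ℂ} (hA : Continuous A) {D l : ℝ} (hD : 0 < D) (hl : 4 * D ≤ l)
    (hsupp : ∀ z : ℂ, (D ≤ |z.re| ∨ D ≤ |z.im|) → A z = 0)
    (hmean : ∫ z, A z = 0) : ∫ u in sq 0 l, F1 A l u = 0 := by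
  have hl0 : 0 < l := by linarith
  have htl := continuous_tl A hA hl0
  have htlc : HasCompactSupport (tl A l) := hasCompactSupport_of (tl_supp hsupp)
  have htli : Integrable (tl A l) := htl.integrable_of_hasCompactSupport htlc
  have hswap : ∫ u, ∫ w, (((J l (u - 0) * J l (u - w) : ℝ)) : ℂ) * tl A l w
      = ∫ w, ∫ u, (((J l (u - 0) * J l (u - w) : ℝ)) : ℂ) * tl A l w := by
    refine integral_integral_swap ?_
    have h1 : Integrable (fun p : ℂ × ℂ => ((J l p.1 : ℝ) : ℂ) * tl A l p.2)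
        (volume.prod volume) := (integrable_J hl0).ofReal.mul_prod htli
    refine h1.mono ?_ ?_
    · refine Measurable.aestronglyMeasurable ?_
      unfold Function.uncurry
      refine Measurable.mul (Complex.measurable_ofReal.comp (Measurable.mul ?_ ?_)) ?_
      · exact (measurable_J l).comp (measurable_fst.sub_const 0)
      · exact (measurable_J l).comp (measurable_fst.sub measurable_snd)
      · exact htl.measurable.comp measurable_snd
    · filter_upwards with p
      unfold Function.uncurry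
      simp only [sub_zero]
      rw [norm_mul, norm_mul, Complex.norm_real, Complex.norm_real, Real.norm_eq_abs,
        Real.norm_eq_abs, abs_of_nonneg (mul_nonneg (J_nonneg _ _) (J_nonneg _ _)),
        abs_of_nonneg (J_nonneg _ _)]
      gcongr
      exact mul_le_of_le_one_right (J_nonneg _ _) (J_le_one _ _)
  have hL : ∫ u in sq 0 l, F1 A l u
      = ∫ u, ∫ w, (((J l (u - 0) * J l (u - w) : ℝ)) : ℂ) * tl A l w := by
    rw [← integral_indicator (measurableSet_sq 0 l)]
    congr 1
    ext u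
    by_cases h : u ∈ sq 0 l
    · rw [Set.indicator_of_mem h, F1_eq, sub_zero, J_of_mem h]
      simp
    · rw [Set.indicator_of_notMem h, sub_zero, J_of_not_mem h]
      simp
  rw [hL, hswap]
  have hR : ∀ w, ∫ u, (((J l (u - 0) * J l (u - w) : ℝ)) : ℂ) * tl A l w
      = ((l ^ 2 : ℝ) : ℂ) * A w := by
    intro w
    rw [integral_mul_const, integral_complex_ofReal, int_JJ hl0, zero_sub, tent_neg,
      ← tl_mul_tent hD hl hsupp w]
    push_cast
    ring
  simp_rw [hR]
  rw [integral_const_mul, hmean, mul_zero]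

end Rem

open Rem in
theorem ker_rr_of (A : ℂ → ℂ) (hA : Continuous A) (D : ℝ) (hD : 0 < D)
    (hsupp : ∀ z : ℂ, (D ≤ |z.re| ∨ D ≤ |z.im|) → A z = 0) (heven : ∀ z, A (-z) = A z)
    (hmean : ∫ z, A z = 0) (l : ℝ) (hl : 4 * D ≤ l) (β₁ β₂ κ' : ℝ) (hβ₁ : 0 ≤ β₁) (hβ₂ : 0 ≤ β₂)
    (h1 : ∀ u ∈ sq 0 l, ‖F1 A l u‖ ≤ β₁) (h2 : ∫ u in sq 0 l, ‖F1 A l u‖ ≤ β₂ * l ^ 2)
    (hκ : 0 ≤ κ') (h3 : 2 * β₂ ≤ κ') (h4 : 24 * β₁ * β₂ ≤ κ' ^ 2) : Ker κ' l (rr A l) := by
  have _ := heven
  have hl0 : 0 < l := by linarith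
  have hF := integrableOn_F1 hA hl0 hsupp
  have hFc := continuous_F1 hA hl0 hsupp
  have hc : ‖((l ^ 4 : ℝ) : ℂ)⁻¹‖ = (l ^ 4)⁻¹ := by
    rw [norm_inv, Complex.norm_real, Real.norm_eq_abs, abs_of_pos (by positivity)]
  -- integrability of the integrand
  have hInt : ∀ z, IntegrableOn (fun u => ((J l (u - z) + J l (u + z) : ℝ) : ℂ) * F1 A l u)
      (sq 0 l) := by
    intro z
    refine (hF.norm.const_mul 2).mono' ?_ ?_
    · refine Measurable.aestronglyMeasurable ?_
      refine Measurable.mul (Complex.measurable_ofReal.comp (Measurable.add ?_ ?_)) hFc.measurable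
      · exact (measurable_J l).comp (measurable_id.sub_const z)
      · exact (measurable_J l).comp (measurable_id.add_const z)
    · filter_upwards with u
      rw [norm_mul, Complex.norm_real, Real.norm_eq_abs,
        abs_of_nonneg (add_nonneg (J_nonneg _ _) (J_nonneg _ _))]
      gcongr
      linarith [J_le_one l (u - z), J_le_one l (u + z)]
  constructor
  · -- support
    intro z hz
    rw [rr_eq]
    have : ∫ u in sq 0 l, ((J l (u - z) + J l (u + z) : ℝ) : ℂ) * F1 A l u = 0 := by
      refine setIntegral_eq_zero_of_forall_eq_zero ?_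
      intro u hu
      have hu' := hu
      simp only [sq, Set.mem_ofPred_eq, Complex.zero_re, Complex.zero_im, zero_add] at hu'
      obtain ⟨a, b, c, d⟩ := hu'
      have e1 : u - z ∉ sq 0 l := by
        simp only [sq, Set.mem_ofPred_eq, Complex.zero_re, Complex.zero_im, zero_add,
          Complex.sub_re, Complex.sub_im]
        rintro ⟨a', b', c', d'⟩
        rcases hz with hz | hz
        · rcases le_abs.1 hz with h | h <;> linarith
        · rcases le_abs.1 hz with h | h <;> linarith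
      have e2 : u + z ∉ sq 0 l := by
        simp only [sq, Set.mem_ofPred_eq, Complex.zero_re, Complex.zero_im, zero_add,
          Complex.add_re, Complex.add_im]
        rintro ⟨a', b', c', d'⟩
        rcases hz with hz | hz
        · rcases le_abs.1 hz with h | h <;> linarith
        · rcases le_abs.1 hz with h | h <;> linarith
      rw [J_of_not_mem e1, J_of_not_mem e2]
      simp
    rw [this, mul_zero]
  · -- size
    intro z
    rw [rr_eq, norm_mul, hc]
    have hb : ‖∫ u in sq 0 l, ((J l (u - z) + J l (u + z) : ℝ) : ℂ) * F1 A l u‖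
        ≤ 2 * (β₂ * l ^ 2) := by
      calc ‖∫ u in sq 0 l, ((J l (u - z) + J l (u + z) : ℝ) : ℂ) * F1 A l u‖
          ≤ ∫ u in sq 0 l, ‖((J l (u - z) + J l (u + z) : ℝ) : ℂ) * F1 A l u‖ :=
            norm_integral_le_integral_norm _
        _ ≤ ∫ u in sq 0 l, 2 * ‖F1 A l u‖ := by
            refine integral_mono (hInt z).norm (hF.norm.const_mul 2) ?_
            intro u
            show ‖((J l (u - z) + J l (u + z) : ℝ) : ℂ) * F1 A l u‖ ≤ 2 * ‖F1 A l u‖
            rw [norm_mul, Complex.norm_real, Real.norm_eq_abs,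
              abs_of_nonneg (add_nonneg (J_nonneg _ _) (J_nonneg _ _))]
            gcongr
            linarith [J_le_one l (u - z), J_le_one l (u + z)]
        _ = 2 * ∫ u in sq 0 l, ‖F1 A l u‖ := integral_const_mul _ _
        _ ≤ 2 * (β₂ * l ^ 2) := by gcongr
    calc (l ^ 4)⁻¹ * ‖∫ u in sq 0 l, ((J l (u - z) + J l (u + z) : ℝ) : ℂ) * F1 A l u‖
        ≤ (l ^ 4)⁻¹ * (2 * (β₂ * l ^ 2)) := by gcongr
      _ = 2 * β₂ / l ^ 2 := by field_simp
      _ ≤ κ' / l ^ 2 := by gcongr
  · -- Hoelder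
    intro z z'
    have hdiff : rr A l z - rr A l z' = ((l ^ 4 : ℝ) : ℂ)⁻¹ *
        ∫ u in sq 0 l, (((J l (u - z) - J l (u - z')) + (J l (u + z) - J l (u + z')) : ℝ) : ℂ)
          * F1 A l u := by
      rw [rr_eq, rr_eq, ← mul_sub, ← integral_sub (hInt z) (hInt z')]
      congr 2
      ext u
      push_cast
      ring
    have hInt' : IntegrableOn (fun u => (((J l (u - z) - J l (u - z'))
        + (J l (u + z) - J l (u + z')) : ℝ) : ℂ) * F1 A l u) (sq 0 l) := by
      refine ((hInt z).sub (hInt z')).congr ?_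
      filter_upwards with u
      simp only [Pi.sub_apply]
      push_cast
      ring
    have habs : ∀ u, |(J l (u - z) - J l (u - z')) + (J l (u + z) - J l (u + z'))| ≤ 2 := by
      intro u
      rw [abs_le]
      constructor <;>
        linarith [J_le_one l (u - z), J_le_one l (u + z), J_le_one l (u - z'), J_le_one l (u + z'),
          J_nonneg l (u - z), J_nonneg l (u + z), J_nonneg l (u - z'), J_nonneg l (u + z')]
    have hb1 : ‖∫ u in sq 0 l, (((J l (u - z) - J l (u - z'))
        + (J l (u + z) - J l (u + z')) : ℝ) : ℂ) * F1 A l u‖ ≤ 2 * (β₂ * l ^ 2) := by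
      calc _ ≤ ∫ u in sq 0 l, ‖(((J l (u - z) - J l (u - z'))
              + (J l (u + z) - J l (u + z')) : ℝ) : ℂ) * F1 A l u‖ :=
            norm_integral_le_integral_norm _
        _ ≤ ∫ u in sq 0 l, 2 * ‖F1 A l u‖ := by
            refine integral_mono hInt'.norm (hF.norm.const_mul 2) ?_
            intro u
            simp only
            rw [norm_mul, Complex.norm_real, Real.norm_eq_abs]
            gcongr
            exact habs u
        _ = 2 * ∫ u in sq 0 l, ‖F1 A l u‖ := integral_const_mul _ _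
        _ ≤ 2 * (β₂ * l ^ 2) := by gcongr
    have hb2 : ‖∫ u in sq 0 l, (((J l (u - z) - J l (u - z'))
        + (J l (u + z) - J l (u + z')) : ℝ) : ℂ) * F1 A l u‖
        ≤ β₁ * (6 * l * ‖z - z'‖) := by
      have hJ1 : Integrable (fun u => |J l (u - z) - J l (u - z')|) :=
        ((integrable_Jsub hl0 z).sub (integrable_Jsub hl0 z')).abs
      have hJ2 : Integrable (fun u => |J l (u - -z) - J l (u - -z')|) :=
        ((integrable_Jsub hl0 (-z)).sub (integrable_Jsub hl0 (-z'))).abs
      have hJ : Integrable (fun u => β₁ * (|J l (u - z) - J l (u - z')|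
          + |J l (u - -z) - J l (u - -z')|)) := (hJ1.add hJ2).const_mul β₁
      calc _ ≤ ∫ u in sq 0 l, ‖(((J l (u - z) - J l (u - z'))
              + (J l (u + z) - J l (u + z')) : ℝ) : ℂ) * F1 A l u‖ :=
            norm_integral_le_integral_norm _
        _ ≤ ∫ u in sq 0 l, β₁ * (|J l (u - z) - J l (u - z')|
              + |J l (u - -z) - J l (u - -z')|) := by
            refine setIntegral_mono_on hInt'.norm hJ.integrableOn (measurableSet_sq 0 l) ?_
            intro u hu
            simp only [sub_neg_eq_add]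
            rw [norm_mul, Complex.norm_real, Real.norm_eq_abs, mul_comm β₁]
            gcongr
            · exact abs_add_le _ _
            · exact h1 u hu
        _ ≤ ∫ u, β₁ * (|J l (u - z) - J l (u - z')| + |J l (u - -z) - J l (u - -z')|) := by
            refine setIntegral_le_integral hJ ?_
            filter_upwards with u
            positivity
        _ = β₁ * ((∫ u, |J l (u - z) - J l (u - z')|) + ∫ u, |J l (u - -z) - J l (u - -z')|) := by
            rw [integral_const_mul, integral_add hJ1 hJ2]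
        _ ≤ β₁ * (3 * l * ‖z - z'‖ + 3 * l * ‖-z - -z'‖) := by
            gcongr
            · exact int_absdiff hl0 z z'
            · exact int_absdiff hl0 (-z) (-z')
        _ = β₁ * (6 * l * ‖z - z'‖) := by
            rw [show -z - -z' = -(z - z') by ring, norm_neg]; ring
    rw [hdiff, norm_mul, hc]
    set N := ‖∫ u in sq 0 l, (((J l (u - z) - J l (u - z'))
        + (J l (u + z) - J l (u + z')) : ℝ) : ℂ) * F1 A l u‖ with hN
    have hN0 : 0 ≤ N := norm_nonneg _
    have hr0 : 0 ≤ ‖z - z'‖ := norm_nonneg _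
    have hN2 : N ^ 2 ≤ (κ' * l ^ 2 * √(‖z - z'‖ / l)) ^ 2 := by
      have e1 : N ^ 2 ≤ (2 * (β₂ * l ^ 2)) * (β₁ * (6 * l * ‖z - z'‖)) := by
        rw [pow_two]
        exact mul_le_mul hb1 hb2 hN0 (by positivity)
      rw [mul_pow, Real.sq_sqrt (by positivity)]
      refine e1.trans ?_
      have e2 : (κ' * l ^ 2) ^ 2 * (‖z - z'‖ / l) = κ' ^ 2 * (l ^ 3 * ‖z - z'‖) := by
        field_simp
      rw [e2]
      have e3 : 0 ≤ l ^ 3 * ‖z - z'‖ := by positivity
      have e4 : 0 ≤ β₁ * β₂ := mul_nonneg hβ₁ hβ₂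
      have e5 : 2 * (β₂ * l ^ 2) * (β₁ * (6 * l * ‖z - z'‖))
          = (12 * (β₁ * β₂)) * (l ^ 3 * ‖z - z'‖) := by ring
      rw [e5]
      exact mul_le_mul_of_nonneg_right (by linarith) e3
    have hN3 : N ≤ κ' * l ^ 2 * √(‖z - z'‖ / l) := le_of_sq_le_sq hN2 (by positivity)
    calc (l ^ 4)⁻¹ * N ≤ (l ^ 4)⁻¹ * (κ' * l ^ 2 * √(‖z - z'‖ / l)) := by gcongr
      _ = κ' / l ^ 2 * √(‖z - z'‖ / l) := by field_simp
  · -- even
    intro z
    rw [rr_eq, rr_eq]
    congr 2
    ext u
    rw [sub_neg_eq_add, ← sub_eq_add_neg, add_comm (J l (u + z))]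
  · -- mean
    have hQ0 := setIntegral_F1 hA hD hl hsupp hmean
    simp_rw [rr_eq]
    rw [integral_const_mul]
    have hswap : ∫ z, ∫ u in sq 0 l, ((J l (u - z) + J l (u + z) : ℝ) : ℂ) * F1 A l u
        = ∫ u in sq 0 l, ∫ z, ((J l (u - z) + J l (u + z) : ℝ) : ℂ) * F1 A l u := by
      refine integral_integral_swap ?_
      have hball : Integrable (fun z : ℂ => (Metric.closedBall (0 : ℂ) (4 * l)).indicator
          (fun _ => (2 : ℂ)) z) := by
        rw [integrable_indicator_iff measurableSet_closedBall]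
        exact integrableOn_const measure_closedBall_lt_top.ne
      have hdom : Integrable (fun p : ℂ × ℂ => (Metric.closedBall (0 : ℂ) (4 * l)).indicator
          (fun _ => (2 : ℂ)) p.1 * F1 A l p.2) (volume.prod (volume.restrict (sq 0 l))) :=
        hball.mul_prod hF
      refine hdom.mono ?_ ?_
      · refine Measurable.aestronglyMeasurable ?_
        unfold Function.uncurry
        refine Measurable.mul (Complex.measurable_ofReal.comp (Measurable.add ?_ ?_)) ?_
        · exact (measurable_J l).comp (measurable_snd.sub measurable_fst)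
        · exact (measurable_J l).comp (measurable_snd.add measurable_fst)
        · exact hFc.measurable.comp measurable_snd
      · have hae : ∀ᵐ p : ℂ × ℂ ∂(volume.prod (volume.restrict (sq 0 l))), p.2 ∈ sq 0 l := by
          have := ae_restrict_mem (μ := (volume : Measure ℂ)) (measurableSet_sq 0 l)
          exact Measure.quasiMeasurePreserving_snd.ae this
        filter_upwards [hae] with p hp
        unfold Function.uncurry
        rw [norm_mul, norm_mul]
        gcongr
        rw [Complex.norm_real, Real.norm_eq_abs,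
          abs_of_nonneg (add_nonneg (J_nonneg _ _) (J_nonneg _ _))]
        by_cases hz : p.1 ∈ Metric.closedBall (0 : ℂ) (4 * l)
        · rw [Set.indicator_of_mem hz]
          have : ‖(2 : ℂ)‖ = 2 := by norm_num
          rw [this]
          linarith [J_le_one l (p.2 - p.1), J_le_one l (p.2 + p.1)]
        · rw [Set.indicator_of_notMem hz]
          have hp' := sq_subset_closedBall 0 hl0.le hp
          rw [Metric.mem_closedBall, dist_zero_right] at hp'
          rw [Metric.mem_closedBall, dist_zero_right, not_le] at hz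
          have e1 : p.2 - p.1 ∉ sq 0 l := by
            intro h
            have := sq_subset_closedBall 0 hl0.le h
            rw [Metric.mem_closedBall, dist_zero_right] at this
            have h2 : ‖p.1‖ ≤ ‖p.2‖ + ‖p.2 - p.1‖ := by
              have := norm_sub_le p.2 (p.2 - p.1)
              rwa [sub_sub_cancel] at this
            linarith
          have e2 : p.2 + p.1 ∉ sq 0 l := by
            intro h
            have := sq_subset_closedBall 0 hl0.le h
            rw [Metric.mem_closedBall, dist_zero_right] at this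
            have h2 : ‖p.1‖ ≤ ‖p.2 + p.1‖ + ‖p.2‖ := by
              have := norm_sub_le (p.2 + p.1) p.2
              rwa [add_sub_cancel_left] at this
            linarith
          rw [J_of_not_mem e1, J_of_not_mem e2]
          simp
    rw [hswap]
    have hin : ∀ u, ∫ z, ((J l (u - z) + J l (u + z) : ℝ) : ℂ) * F1 A l u
        = (((∫ w, J l w) + ∫ w, J l w : ℝ) : ℂ) * F1 A l u := by
      intro u
      rw [integral_mul_const, integral_complex_ofReal]
      congr 2
      have i1 : Integrable (fun z => J l (u - z)) := (integrable_J hl0).comp_sub_left u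
      have i2 : Integrable (fun z => J l (u + z)) := (integrable_J hl0).comp_add_left u
      rw [integral_add i1 i2, integral_sub_left_eq_self (J l) volume u,
        integral_add_left_eq_self (J l) u]
    simp_rw [hin]
    rw [integral_const_mul, hQ0, mul_zero, mul_zero]

namespace Rem

lemma tl_bound {κ D l : ℝ} {A : ℂ → ℂ} (h : Ker κ D A) (w : ℂ) :
    ‖tl A l w‖ ≤ 2 * (κ / D ^ 2) :=
  (norm_tl_le A l w).trans (by linarith [h.bdd w])

lemma mem_box_of {D : ℝ} {w : ℂ} (h : ¬ (D ≤ |w.re| ∨ D ≤ |w.im|)) :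
    w ∈ sq (-(D : ℂ) - D * Complex.I) (2 * D) := by
  push Not at h
  obtain ⟨h1, h2⟩ := h
  rw [abs_lt] at h1 h2
  simp only [sq, Set.mem_ofPred_eq]
  have e1 : (-(D : ℂ) - D * Complex.I).re = -D := by simp
  have e2 : (-(D : ℂ) - D * Complex.I).im = -D := by simp
  rw [e1, e2]
  refine ⟨?_, ?_, ?_, ?_⟩ <;> linarith

/-- the integral of a bounded function supported in the box of half width `D` -/
lemma norm_integral_box_le {D : ℝ} (hD : 0 < D) (G : ℂ → ℂ)
    (hG : ∀ z : ℂ, (D ≤ |z.re| ∨ D ≤ |z.im|) → G z = 0) (M : ℝ)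
    (hM : ∀ z, ‖G z‖ ≤ M) (s : Set ℂ) : ‖∫ z in s, G z‖ ≤ M * (4 * D ^ 2) := by
  have hM0 : 0 ≤ M := (norm_nonneg _).trans (hM 0)
  set B := sq (-(D : ℂ) - D * Complex.I) (2 * D) with hB
  have hBm : MeasurableSet B := measurableSet_sq _ _
  have hBv : volume B = ENNReal.ofReal (2 * D * (2 * D)) := volume_sq _ (by linarith)
  have hGi : Integrable (B.indicator (fun _ => M)) := by
    rw [integrable_indicator_iff hBm]
    refine integrableOn_const ?_
    rw [hBv]; exact ENNReal.ofReal_ne_top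
  calc ‖∫ z in s, G z‖ ≤ ∫ z in s, B.indicator (fun _ => M) z := by
        refine norm_integral_le_of_norm_le hGi.integrableOn ?_
        filter_upwards with z
        by_cases hz : D ≤ |z.re| ∨ D ≤ |z.im|
        · rw [hG z hz, norm_zero]
          exact Set.indicator_nonneg (fun _ _ => hM0) z
        · rw [Set.indicator_of_mem (mem_box_of hz)]
          exact hM z
    _ ≤ ∫ z, B.indicator (fun _ => M) z := by
        refine setIntegral_le_integral hGi ?_
        filter_upwards with z
        exact Set.indicator_nonneg (fun _ _ => hM0) z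
    _ = M * (4 * D ^ 2) := by
        rw [integral_indicator hBm, setIntegral_const, Measure.real, hBv,
          ENNReal.toReal_ofReal (by positivity), smul_eq_mul]
        ring

lemma supp_sub {D : ℝ} {G : ℂ → ℂ} (hG : ∀ z : ℂ, (D ≤ |z.re| ∨ D ≤ |z.im|) → G z = 0) (u : ℂ) :
    ∀ v : ℂ, (D ≤ |(u - v).re| ∨ D ≤ |(u - v).im|) → G (u - v) = 0 := fun _ h => hG _ h

lemma F1_eq' (A : ℂ → ℂ) (l : ℝ) (u : ℂ) :
    F1 A l u = ∫ w in {w : ℂ | u - w ∈ sq 0 l}, tl A l w := by
  have hm : MeasurableSet {w : ℂ | u - w ∈ sq 0 l} :=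
    (measurable_const.sub measurable_id) (measurableSet_sq 0 l)
  rw [F1_eq, ← integral_indicator hm]
  congr 1
  ext w
  by_cases h : u - w ∈ sq 0 l
  · rw [Set.indicator_of_mem (show w ∈ {w : ℂ | u - w ∈ sq 0 l} from h), J_of_mem h]; simp
  · rw [Set.indicator_of_notMem (show w ∉ {w : ℂ | u - w ∈ sq 0 l} from h), J_of_not_mem h]; simp

lemma F1_le {κ D l : ℝ} {A : ℂ → ℂ} (hD : 0 < D) (h : Ker κ D A) (u : ℂ) :
    ‖F1 A l u‖ ≤ 8 * κ := by
  rw [F1_eq']
  refine (norm_integral_box_le hD (tl A l) (tl_supp h.supp) (2 * (κ / D ^ 2))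
    (tl_bound h) _).trans (le_of_eq ?_)
  field_simp
  ring

/-- `F1` is small far from the boundary -/
lemma F1_inner {κ D l : ℝ} {A : ℂ → ℂ} (hκ : 0 ≤ κ) (hD : 0 < D) (hl : 4 * D ≤ l) (h : Ker κ D A)
    (u : ℂ) (h1 : D ≤ u.re) (h2 : u.re ≤ l - D) (h3 : D ≤ u.im) (h4 : u.im ≤ l - D) :
    ‖F1 A l u‖ ≤ 16 * κ * (D / l) := by
  have hl0 : 0 < l := by linarith
  have hA := h.continuous hD
  have htl := continuous_tl A hA hl0
  have htli : Integrable (tl A l) :=
    htl.integrable_of_hasCompactSupport (hasCompactSupport_of (tl_supp h.supp))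
  have hAi : Integrable A := hA.integrable_of_hasCompactSupport (hasCompactSupport_of h.supp)
  have e1 : F1 A l u = ∫ w, tl A l w := by
    rw [F1_eq]
    congr 1
    ext w
    by_cases hw : D ≤ |w.re| ∨ D ≤ |w.im|
    · rw [tl_supp h.supp w hw, mul_zero]
    · push Not at hw
      rw [abs_lt, abs_lt] at hw
      obtain ⟨⟨a, b⟩, c, d⟩ := hw
      have : u - w ∈ sq 0 l := by
        simp only [sq, Set.mem_ofPred_eq, Complex.zero_re, Complex.zero_im, zero_add,
          Complex.sub_re, Complex.sub_im]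
        refine ⟨?_, ?_, ?_, ?_⟩ <;> linarith
      rw [J_of_mem this]
      simp
  have e2 : F1 A l u = ∫ w in Set.univ, (tl A l w - A w) := by
    rw [setIntegral_univ, integral_sub htli hAi, h.mean, sub_zero, e1]
  rw [e2]
  refine (norm_integral_box_le hD (fun w => tl A l w - A w) ?_ (4 * κ / D ^ 2 * (D / l)) ?_
    _).trans (le_of_eq ?_)
  · intro z hz
    rw [tl_supp h.supp z hz, h.supp z hz, sub_zero]
  · intro z
    by_cases hz : D ≤ |z.re| ∨ D ≤ |z.im|
    · rw [tl_supp h.supp z hz, h.supp z hz, sub_zero, norm_zero]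
      positivity
    · push Not at hz
      have ht := half_le_tent hD hl z hz.1.le hz.2.le
      have ht0 : 0 < tent l z := by linarith
      have ht1 := one_sub_tent_le hl0 z
      have ht2 : (|z.re| + |z.im|) / l ≤ 2 * D / l := by
        gcongr
        linarith [hz.1, hz.2]
      have ht3 : tent l z ≤ 1 := by
        unfold tent
        have a1 : max 0 (1 - |z.re| / l) ≤ 1 :=
          max_le zero_le_one (by linarith [div_nonneg (abs_nonneg z.re) hl0.le])
        have a2 : max 0 (1 - |z.im| / l) ≤ 1 :=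
          max_le zero_le_one (by linarith [div_nonneg (abs_nonneg z.im) hl0.le])
        exact mul_le_one₀ a1 (le_max_left _ _) a2
      have e3 : tl A l z - A z = A z * (((1 - tent l z) / tent l z : ℝ) : ℂ) := by
        rw [tl, max_eq_left ht]
        have hne : ((tent l z : ℝ) : ℂ) ≠ 0 := by exact_mod_cast ht0.ne'
        push_cast
        field_simp
      rw [e3, norm_mul, Complex.norm_real, Real.norm_eq_abs,
        abs_of_nonneg (div_nonneg (by linarith) ht0.le)]
      have e4 : (1 - tent l z) / tent l z ≤ 4 * (D / l) := by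
        rw [div_le_iff₀ ht0]
        have : 1 - tent l z ≤ 2 * (D / l) := by
          have := ht1.trans ht2
          rw [mul_div_assoc] at this
          exact this
        have hp : 0 ≤ D / l := by positivity
        nlinarith
      calc ‖A z‖ * ((1 - tent l z) / tent l z) ≤ (κ / D ^ 2) * (4 * (D / l)) :=
            mul_le_mul (h.bdd z) e4 (div_nonneg (by linarith) ht0.le) (by positivity)
        _ = 4 * κ / D ^ 2 * (D / l) := by ring
  · field_simp
    ring

end Rem

open Rem in
theorem ker_rr {κ D : ℝ} {A : ℂ → ℂ} (hκ : 0 ≤ κ) (hD : 0 < D) (h : Ker κ D A) :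
    Ker (κ / 2) (2 ^ 16 * D) (rr A (2 ^ 16 * D)) := by
  set l : ℝ := 2 ^ 16 * D with hl
  have hl4 : 4 * D ≤ l := by rw [hl]; linarith
  have hl0 : 0 < l := by positivity
  have hDl : D / l = (2 ^ 16)⁻¹ := by rw [hl]; field_simp
  have hA := h.continuous hD
  refine ker_rr_of A hA D hD h.supp h.even h.mean l hl4 (8 * κ) (48 * (2 ^ 16)⁻¹ * κ) (κ / 2)
    (by positivity) (by positivity) (fun u _ => F1_le hD h u) ?_ (by positivity)
    (by linarith) ?_
  · -- the mean of `F1`
    set c : ℂ := (D : ℂ) + D * Complex.I with hc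
    have hcre : c.re = D := by simp [hc]
    have hcim : c.im = D := by simp [hc]
    set B := sq c (l - 2 * D) with hB
    have hBm : MeasurableSet B := measurableSet_sq _ _
    have hBv : volume B = ENNReal.ofReal ((l - 2 * D) * (l - 2 * D)) :=
      volume_sq _ (by linarith)
    have hQv : volume (sq 0 l) = ENNReal.ofReal (l * l) := volume_sq _ hl0.le
    have hBQ : B ⊆ sq 0 l := by
      intro z hz
      simp only [hB, sq, Set.mem_ofPred_eq, hcre, hcim] at hz
      simp only [sq, Set.mem_ofPred_eq, Complex.zero_re, Complex.zero_im, zero_add]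
      obtain ⟨a, b, c, d⟩ := hz
      refine ⟨?_, ?_, ?_, ?_⟩ <;> linarith
    have hQm := measurableSet_sq 0 l
    have hFi : IntegrableOn (fun u => ‖F1 A l u‖) (sq 0 l) :=
      (integrableOn_F1 hA hl0 h.supp).norm
    have hci : ∀ M : ℝ, IntegrableOn (fun _ : ℂ => M) (sq 0 l) := fun M =>
      integrableOn_const (volume_sq_ne_top hl0)
    rw [← Set.diff_union_of_subset hBQ, setIntegral_union Set.disjoint_sdiff_left hBm
      (hFi.mono_set Set.diff_subset) (hFi.mono_set hBQ)]
    have hd : ∫ u in sq 0 l \ B, ‖F1 A l u‖ ≤ 8 * κ * (4 * D * l) := by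
      calc ∫ u in sq 0 l \ B, ‖F1 A l u‖ ≤ ∫ u in sq 0 l \ B, 8 * κ := by
            refine setIntegral_mono (hFi.mono_set Set.diff_subset)
              ((hci _).mono_set Set.diff_subset) ?_
            intro u
            exact F1_le hD h u
        _ = (l * l - (l - 2 * D) * (l - 2 * D)) * (8 * κ) := by
            rw [setIntegral_const, smul_eq_mul, measureReal_diff hBQ hBm (volume_sq_ne_top hl0), Measure.real,
              Measure.real, hBv, hQv, ENNReal.toReal_ofReal (by positivity),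
              ENNReal.toReal_ofReal (mul_self_nonneg _)]
        _ ≤ 8 * κ * (4 * D * l) := by
            have : l * l - (l - 2 * D) * (l - 2 * D) ≤ 4 * D * l := by nlinarith [sq_nonneg D]
            have h8 : 0 ≤ 8 * κ := by positivity
            rw [mul_comm]
            exact mul_le_mul_of_nonneg_left this h8
    have hi : ∫ u in B, ‖F1 A l u‖ ≤ 16 * κ * (D / l) * l ^ 2 := by
      calc ∫ u in B, ‖F1 A l u‖ ≤ ∫ u in B, 16 * κ * (D / l) := by
            refine setIntegral_mono_on (hFi.mono_set hBQ) ((hci _).mono_set hBQ) hBm ?_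
            intro u hu
            simp only [hB, sq, Set.mem_ofPred_eq, hcre, hcim] at hu
            obtain ⟨a, b, c, d⟩ := hu
            exact F1_inner hκ hD hl4 h u a (by linarith) c (by linarith)
        _ = ((l - 2 * D) * (l - 2 * D)) * (16 * κ * (D / l)) := by
            rw [setIntegral_const, smul_eq_mul, Measure.real, hBv,
              ENNReal.toReal_ofReal (mul_self_nonneg _)]
        _ ≤ 16 * κ * (D / l) * l ^ 2 := by
            have : (l - 2 * D) * (l - 2 * D) ≤ l ^ 2 := by nlinarith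
            rw [mul_comm]
            exact mul_le_mul_of_nonneg_left this (by positivity)
    have hDl' : D * l = (2 ^ 16)⁻¹ * l ^ 2 := by
      rw [← hDl]; field_simp
    calc _ ≤ 8 * κ * (4 * D * l) + 16 * κ * (D / l) * l ^ 2 := add_le_add hd hi
      _ = 32 * κ * (D * l) + 16 * κ * (D / l) * l ^ 2 := by ring
      _ = 48 * (2 ^ 16)⁻¹ * κ * l ^ 2 := by rw [hDl', hDl]; ring
  · nlinarith [sq_nonneg κ]

end Pool.MP_75bf3e_an.BT
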