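import Pool.Agent.Lib_MP_75bf3e.NKer
import Pool.Agent.Lib_MP_75bf3e.NKLip
import Pool.Agent.Lib_MP_75bf3e.Rem

/-!
# Piece ANCELL: cancellation of the kernel against squares

`G = tl (An n k) l`, `l = 2^k`; `‖G‖ ≤ 200 n/l^2`, supported in `|z| ≤ l/4`.

`int_sq_le`: for every square `S = sq c s`, `0 < s ≤ l`, and every `x`:
`‖∫_{y∈S} G(x - y)‖ ≤ C s/l`.  Let `S' = x - S = {x - y}` (again a square of side `s`, up to the boundary) and
`I = ∫_{S'} G`.  By `tl_rot`, `‖∫_{z∈S'} G(ωz) + I‖ ≤ C s^2/l^2`, and by invariance of the measure under the rotation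
`∫_{z∈S'} G(ωz) = ∫_{z ∈ ωS'} G`.  The difference of `∫_{ωS'} G` and `∫_{S'} G` is at most `sup ‖G‖` times the measure of
`(S' △ ωS') ∩ {|z| ≤ l/4}`.  If `z ∈ S' \ ωS'`, `|z| ≤ l/4`, then `z' = ω⁻¹z ∉ S'` and `|z - z'| ≤ δ := (l/4) π/(2n)`, so `z`
lies in the set of points of the square `S'` within distance `δ` of the complement, of measure
`≤ s^2 - (s - 2δ)₊^2 ≤ 4 s δ`.  If `z ∈ ωS' \ S'`, then `u = ω⁻¹ z ∈ S'` and `ωu ∉ S'`: the same bound.
So `2 ‖I‖ ≤ C s^2/l^2 + (200 n/l^2) * 8 s δ ≤ C s/l`.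

`F1_le`: `F1 (An n k) l u = ∫_{v ∈ sq 0 l} G(u - v)`: the case `s = l`.

`cell_An`: `Σ h_i = 0`, `J = (c', k-a)` of side `s = l 2^{-a}`.
 (1) `≤ Σ |h_i| max_i ‖∫_{J_i} G‖ ≤ Σ|h_i| * C (s/2)/l`; and `s/l = 2^a s^2/l^2`;
 (2) subtract the constant `G(x - y_J)`, `y_J` a point of `J` (`Σ h_i ∫_{J_i} 1 = 0`): by `tl_lip`
     `≤ Σ |h_i| (s/2)^2 * C n^2 l^{-3} * 2 s`, and `n^2 l^{-3} s = (n/l^2) (n/2^a)`.
 Both are `≤ C (n/l^2) min(n/2^a, 2^a/n) s^2 Σ|h_i|`.

`cell_Ker`: for `A ∈ Ker κ D`, `l = 2^k = 2^16 D`: subtract a constant and use that `tl A l` satisfies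
`‖tl z - tl z'‖ ≤ 6 κ D^{-2} √(‖z-z'‖/D)` (`‖tl z - tl z'‖ ≤ 2 ‖A z - A z'‖ + 4 ‖A z'‖ |tent z - tent z'|`, and
`|max(tent z,1/2) - max(tent z',1/2)| ≤ min(1/2, 2‖z-z'‖/l) ≤ √(‖z-z'‖/l)`... any absolute constant will do),
so `ω a = C κ l^{-2} √(1/2^a)`.
-/

set_option autoImplicit false

open MeasureTheory

namespace Pool.MP_75bf3e_an.BT

private theorem intOn_sq (G : ℂ → ℂ) (hG : Continuous G) (c x : ℂ) {l : ℝ} (hl : 0 ≤ l) :
    IntegrableOn (fun y => G (x - y)) (sq c l) := by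
  have h1 : Continuous (fun y => G (x - y)) := hG.comp (continuous_const.sub continuous_id)
  exact (h1.continuousOn.integrableOn_compact (isCompact_closedBall c (2 * l))).mono_set
    (sq_subset_closedBall c hl)

private theorem sq_real (c : ℂ) {l : ℝ} (hl : 0 ≤ l) : volume.real (sq c l) = l * l :=
  volume_real_sq c hl

private theorem sq_fin (c : ℂ) {l : ℝ} (hl : 0 ≤ l) : volume (sq c l) < ⊤ := by
  rw [volume_sq c hl]
  exact ENNReal.ofReal_lt_top

/-- cancellation from the modulus of continuity -/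
private theorem cell_lip (G : ℂ → ℂ) (hG : Continuous G) (k : ℤ) (a : ℕ) (c' x : ℂ) (h : Fin 4 → ℝ)
    (hh : ∑ i, h i = 0) (B : ℝ) (hB : ∀ y ∈ sqn (c', k - a), ‖G (x - y) - G (x - c')‖ ≤ B) :
    ‖∑ i, (h i : ℂ) * ∫ y in sqn (chC i (c', k - a)), G (x - y)‖
      ≤ B * (((2 : ℝ) ^ (k - (a : ℤ))) ^ 2 * ((∑ i, |h i|) / 4)) := by
  set s : ℝ := (2 : ℝ) ^ (k - (a : ℤ)) with hs
  have hs0 : 0 < s := by positivity
  have hside : ∀ i, sqn (chC i (c', k - a)) = sq (chC i (c', k - a)).1 (s / 2) := by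
    intro i
    unfold sqn
    congr 1
    show (2 : ℝ) ^ (k - (a : ℤ) - 1) = s / 2
    rw [zpow_sub_one₀ (by norm_num : (2 : ℝ) ≠ 0), hs]
    ring
  have e : ∀ i, (h i : ℂ) * ∫ y in sqn (chC i (c', k - a)), G (x - y) =
      (h i : ℂ) * (∫ y in sqn (chC i (c', k - a)), (G (x - y) - G (x - c'))) +
        (h i : ℂ) * (((s / 2 * (s / 2) : ℝ) : ℂ) * G (x - c')) := by
    intro i
    rw [← mul_add]
    congr 1
    rw [hside i, integral_sub (intOn_sq G hG _ x (by positivity))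
      (integrableOn_const (sq_fin _ (by positivity)).ne), setIntegral_const, sq_real _ (by positivity)]
    rw [Complex.real_smul]
    ring
  rw [Finset.sum_congr rfl (fun i _ => e i), Finset.sum_add_distrib, ← Finset.sum_mul]
  have h0 : ∑ i, (h i : ℂ) = 0 := by
    rw [← Complex.ofReal_sum, hh, Complex.ofReal_zero]
  rw [h0, zero_mul, add_zero]
  calc ‖∑ i, (h i : ℂ) * ∫ y in sqn (chC i (c', k - a)), (G (x - y) - G (x - c'))‖
      ≤ ∑ i, ‖(h i : ℂ) * ∫ y in sqn (chC i (c', k - a)), (G (x - y) - G (x - c'))‖ := norm_sum_le _ _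
    _ ≤ ∑ i, |h i| * (B * (s / 2 * (s / 2))) := by
        refine Finset.sum_le_sum fun i _ => ?_
        rw [norm_mul, Complex.norm_real, Real.norm_eq_abs]
        refine mul_le_mul_of_nonneg_left ?_ (abs_nonneg _)
        have h1 := norm_setIntegral_le_of_norm_le_const (μ := volume) (s := sqn (chC i (c', k - a)))
          (f := fun y => G (x - y) - G (x - c')) (C := B)
          (by rw [hside i]; exact sq_fin _ (by positivity))
          (fun y hy => hB y (sqn_chC_subset i _ hy))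
        refine h1.trans (le_of_eq ?_)
        rw [hside i, sq_real _ (by positivity)]
    _ = B * (s ^ 2 * ((∑ i, |h i|) / 4)) := by
        rw [← Finset.sum_mul]
        ring

private theorem vol_rect (p q p' q' : ℝ) :
    volume {z : ℂ | (p ≤ z.re ∧ z.re ≤ q) ∧ (p' ≤ z.im ∧ z.im ≤ q')} =
      ENNReal.ofReal (q - p) * ENNReal.ofReal (q' - p') := by
  have h1 : {z : ℂ | (p ≤ z.re ∧ z.re ≤ q) ∧ (p' ≤ z.im ∧ z.im ≤ q')} =
      Complex.measurableEquivRealProd ⁻¹' (Set.Icc p q ×ˢ Set.Icc p' q') := by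
    ext z
    simp only [Set.mem_ofPred_eq, Set.mem_preimage, Complex.measurableEquivRealProd_apply, Set.mem_prod,
      Set.mem_Icc]
  rw [h1, Complex.volume_preserving_equiv_real_prod.measure_preimage
    (measurableSet_Icc.prod measurableSet_Icc).nullMeasurableSet, Measure.volume_eq_prod,
    Measure.prod_prod, Real.volume_Icc, Real.volume_Icc]

/-- the part of the box near its boundary -/
private def stp (a b s δ : ℝ) : Set ℂ :=
  {z | ((a ≤ z.re ∧ z.re ≤ a + s) ∧ (b ≤ z.im ∧ z.im ≤ b + s)) ∧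
    (z.re ≤ a + δ ∨ a + s - δ ≤ z.re ∨ z.im ≤ b + δ ∨ b + s - δ ≤ z.im)}

private theorem vol_stp (a b s δ : ℝ) (hs : 0 ≤ s) (hδ : 0 ≤ δ) :
    volume (stp a b s δ) ≤ ENNReal.ofReal (4 * (s * δ)) := by
  have h1 : stp a b s δ ⊆
      (({z : ℂ | (a ≤ z.re ∧ z.re ≤ a + δ) ∧ (b ≤ z.im ∧ z.im ≤ b + s)} ∪
        {z : ℂ | (a + s - δ ≤ z.re ∧ z.re ≤ a + s) ∧ (b ≤ z.im ∧ z.im ≤ b + s)}) ∪
      ({z : ℂ | (a ≤ z.re ∧ z.re ≤ a + s) ∧ (b ≤ z.im ∧ z.im ≤ b + δ)} ∪
        {z : ℂ | (a ≤ z.re ∧ z.re ≤ a + s) ∧ (b + s - δ ≤ z.im ∧ z.im ≤ b + s)})) := by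
    rintro z ⟨⟨h1, h2⟩, h3⟩
    rcases h3 with h3 | h3 | h3 | h3
    · exact Or.inl (Or.inl ⟨⟨h1.1, h3⟩, h2⟩)
    · exact Or.inl (Or.inr ⟨⟨h3, h1.2⟩, h2⟩)
    · exact Or.inr (Or.inl ⟨h1, h2.1, h3⟩)
    · exact Or.inr (Or.inr ⟨h1, h3, h2.2⟩)
  refine (measure_mono h1).trans ((measure_union_le _ _).trans ?_)
  refine (add_le_add (measure_union_le _ _) (measure_union_le _ _)).trans ?_
  rw [vol_rect, vol_rect, vol_rect, vol_rect]
  rw [← ENNReal.ofReal_mul (by linarith), ← ENNReal.ofReal_mul (by linarith),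
    ← ENNReal.ofReal_mul (by linarith), ← ENNReal.ofReal_mul (by linarith),
    ← ENNReal.ofReal_add (by nlinarith) (by nlinarith), ← ENNReal.ofReal_add (by nlinarith) (by nlinarith),
    ← ENNReal.ofReal_add (by nlinarith) (by nlinarith)]
  apply ENNReal.ofReal_le_ofReal
  nlinarith

private theorem meas_stp (a b s δ : ℝ) : MeasurableSet (stp a b s δ) := by
  have m1 : ∀ t : ℝ, MeasurableSet {z : ℂ | t ≤ z.re} := fun t =>
    measurableSet_le measurable_const Complex.measurable_re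
  have m2 : ∀ t : ℝ, MeasurableSet {z : ℂ | z.re ≤ t} := fun t =>
    measurableSet_le Complex.measurable_re measurable_const
  have m3 : ∀ t : ℝ, MeasurableSet {z : ℂ | t ≤ z.im} := fun t =>
    measurableSet_le measurable_const Complex.measurable_im
  have m4 : ∀ t : ℝ, MeasurableSet {z : ℂ | z.im ≤ t} := fun t =>
    measurableSet_le Complex.measurable_im measurable_const
  exact (((m1 a).inter (m2 _)).inter ((m3 b).inter (m4 _))).inter
    ((m2 _).union ((m1 _).union ((m4 _).union (m3 _))))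

private theorem om_norm' (n : ℕ) : ‖om n‖ = 1 := by
  unfold om
  rw [mul_comm]
  exact Complex.norm_exp_ofReal_mul_I _

private theorem om_sub (n : ℕ) (hn : 1 ≤ n) : ‖om n - 1‖ ≤ Real.pi / (2 * n) := by
  unfold om
  have h1 := Real.norm_exp_I_mul_ofReal_sub_one_le (x := Real.pi / (2 * n))
  refine h1.trans (le_of_eq ?_)
  rw [Real.norm_eq_abs, abs_of_nonneg (by positivity)]

private noncomputable def omc (n : ℕ) : Circle := ⟨om n, by simp [Submonoid.unitSphere, om_norm']⟩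

private theorem rot_int (n : ℕ) (f : ℂ → ℂ) : ∫ z, f (om n * z) = ∫ z, f z := by
  have h := (rotation (omc n)).measurePreserving.integral_comp
    (rotation (omc n)).toHomeomorph.measurableEmbedding f
  simpa only [rotation_apply, omc] using h

private theorem rot_meas (n : ℕ) (S : Set ℂ) (hS : MeasurableSet S) :
    volume {z : ℂ | om n * z ∈ S} = volume S := by
  have h := (rotation (omc n)).measurePreserving.measure_preimage hS.nullMeasurableSet
  simpa only [rotation_apply, omc, Set.preimage] using h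

/-- the reflected square -/
private def rbox (a b s : ℝ) : Set ℂ := {z | (a < z.re ∧ z.re ≤ a + s) ∧ (b < z.im ∧ z.im ≤ b + s)}

private theorem meas_rbox (a b s : ℝ) : MeasurableSet (rbox a b s) := by
  have m1 : ∀ t : ℝ, MeasurableSet {z : ℂ | t < z.re} := fun t =>
    measurableSet_lt measurable_const Complex.measurable_re
  have m2 : ∀ t : ℝ, MeasurableSet {z : ℂ | z.re ≤ t} := fun t =>
    measurableSet_le Complex.measurable_re measurable_const
  have m3 : ∀ t : ℝ, MeasurableSet {z : ℂ | t < z.im} := fun t =>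
    measurableSet_lt measurable_const Complex.measurable_im
  have m4 : ∀ t : ℝ, MeasurableSet {z : ℂ | z.im ≤ t} := fun t =>
    measurableSet_le Complex.measurable_im measurable_const
  exact ((m1 a).inter (m2 _)).inter ((m3 b).inter (m4 _))

private theorem vol_rbox (a b s : ℝ) (hs : 0 ≤ s) : volume (rbox a b s) ≤ ENNReal.ofReal (s * s) := by
  have h1 : rbox a b s ⊆ {z : ℂ | (a ≤ z.re ∧ z.re ≤ a + s) ∧ (b ≤ z.im ∧ z.im ≤ b + s)} := by
    rintro z ⟨h1, h2⟩
    exact ⟨⟨h1.1.le, h1.2⟩, h2.1.le, h2.2⟩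
  refine (measure_mono h1).trans ?_
  rw [vol_rect, ← ENNReal.ofReal_mul (by linarith)]
  apply ENNReal.ofReal_le_ofReal
  nlinarith

/-- a point of the box with a point outside at distance `≤ δ` lies in the strip -/
private theorem mem_stp_of {a b s δ : ℝ} {z w : ℂ} (hz : z ∈ rbox a b s) (hw : w ∉ rbox a b s)
    (hzw : ‖z - w‖ ≤ δ) : z ∈ stp a b s δ := by
  obtain ⟨h1, h2⟩ := hz
  have h3 : |z.re - w.re| ≤ δ := by
    have := (Complex.abs_re_le_norm (z - w)).trans hzw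
    simpa using this
  have h4 : |z.im - w.im| ≤ δ := by
    have := (Complex.abs_im_le_norm (z - w)).trans hzw
    simpa using this
  rw [abs_le] at h3 h4
  refine ⟨⟨⟨h1.1.le, h1.2⟩, h2.1.le, h2.2⟩, ?_⟩
  by_contra hcon
  push Not at hcon
  apply hw
  refine ⟨⟨?_, ?_⟩, ?_, ?_⟩
  · linarith [hcon.1]
  · linarith [hcon.2.1]
  · linarith [hcon.2.2.1]
  · linarith [hcon.2.2.2]

private theorem int_box (G : ℂ → ℂ) (hG : Continuous G) (n : ℕ) (a b s δ M ε : ℝ) (hs : 0 ≤ s)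
    (hδ : 0 ≤ δ) (hM : 0 ≤ M) (hGM : ∀ z, ‖G z‖ ≤ M) (hrot : ∀ z, ‖G (om n * z) + G z‖ ≤ ε)
    (hmv : ∀ z, G (om n * z) ≠ 0 → ‖om n * z - z‖ ≤ δ) (hε : 0 ≤ ε) :
    2 * ‖∫ z in rbox a b s, G z‖ ≤ ε * (s * s) + M * (8 * (s * δ)) := by
  classical
  have hfin : volume (rbox a b s) < ⊤ := (vol_rbox a b s hs).trans_lt ENNReal.ofReal_lt_top
  have hreal : volume.real (rbox a b s) ≤ s * s := by
    have := ENNReal.toReal_mono ENNReal.ofReal_ne_top (vol_rbox a b s hs)
    rwa [ENNReal.toReal_ofReal (mul_nonneg hs hs)] at this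
  have hG2 : Continuous (fun z => G (om n * z)) := hG.comp (continuous_const.mul continuous_id)
  have hI1 : IntegrableOn G (rbox a b s) :=
    Measure.integrableOn_of_bounded hfin.ne hG.aestronglyMeasurable (Filter.Eventually.of_forall hGM)
  have hI2 : IntegrableOn (fun z => G (om n * z)) (rbox a b s) :=
    Measure.integrableOn_of_bounded hfin.ne hG2.aestronglyMeasurable
      (Filter.Eventually.of_forall (fun z => hGM _))
  have hmeas2 : MeasurableSet {z : ℂ | om n * z ∈ rbox a b s} :=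
    (meas_rbox a b s).preimage (measurable_const.mul measurable_id)
  -- the first sum
  have hsum : ‖(∫ z in rbox a b s, G (om n * z)) + ∫ z in rbox a b s, G z‖ ≤ ε * (s * s) := by
    rw [← integral_add hI2 hI1]
    refine (norm_setIntegral_le_of_norm_le_const hfin (fun z _ => hrot z)).trans ?_
    exact mul_le_mul_of_nonneg_left hreal hε
  -- the second
  have e1 : ∫ z in rbox a b s, G z = ∫ z, (rbox a b s).indicator G (om n * z) := by
    rw [rot_int n (fun z => (rbox a b s).indicator G z), integral_indicator (meas_rbox a b s)]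
  have e2 : ∫ z in rbox a b s, G (om n * z) = ∫ z, (rbox a b s).indicator (fun z => G (om n * z)) z := by
    rw [integral_indicator (meas_rbox a b s)]
  set E : Set ℂ := stp a b s δ ∪ {z : ℂ | om n * z ∈ stp a b s δ} with hE
  have hmeasE : MeasurableSet {z : ℂ | om n * z ∈ stp a b s δ} :=
    (meas_stp a b s δ).preimage (measurable_const.mul measurable_id)
  have hvolE : volume E ≤ ENNReal.ofReal (8 * (s * δ)) := by
    refine (measure_union_le _ _).trans ?_
    rw [rot_meas n _ (meas_stp a b s δ)]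
    refine (add_le_add (vol_stp a b s δ hs hδ) (vol_stp a b s δ hs hδ)).trans ?_
    rw [← ENNReal.ofReal_add (by positivity) (by positivity)]
    apply ENNReal.ofReal_le_ofReal
    linarith
  have hfinE : volume E < ⊤ := hvolE.trans_lt ENNReal.ofReal_lt_top
  have hrealE : volume.real E ≤ 8 * (s * δ) := by
    have := ENNReal.toReal_mono ENNReal.ofReal_ne_top hvolE
    rwa [ENNReal.toReal_ofReal (by positivity)] at this
  have hi1 : Integrable (fun z => (rbox a b s).indicator G (om n * z)) := by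
    have h1 : (fun z => (rbox a b s).indicator G (om n * z)) =
        {z : ℂ | om n * z ∈ rbox a b s}.indicator (fun z => G (om n * z)) := by
      funext z
      by_cases hz : om n * z ∈ rbox a b s
      · rw [Set.indicator_of_mem hz, Set.indicator_of_mem (show z ∈ {z : ℂ | om n * z ∈ rbox a b s} from hz)]
      · rw [Set.indicator_of_notMem hz,
          Set.indicator_of_notMem (show z ∉ {z : ℂ | om n * z ∈ rbox a b s} from hz)]
    rw [h1, integrable_indicator_iff hmeas2]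
    refine Measure.integrableOn_of_bounded (M := M) ?_ hG2.aestronglyMeasurable
      (Filter.Eventually.of_forall (fun z => hGM _))
    rw [rot_meas n _ (meas_rbox a b s)]
    exact hfin.ne
  have hi2 : Integrable (fun z => (rbox a b s).indicator (fun z => G (om n * z)) z) := by
    rw [integrable_indicator_iff (meas_rbox a b s)]
    exact hI2
  have hdiff : ‖(∫ z in rbox a b s, G z) - ∫ z in rbox a b s, G (om n * z)‖ ≤ M * (8 * (s * δ)) := by
    rw [e1, e2, ← integral_sub hi1 hi2]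
    have hz0 : ∀ z ∉ E, (rbox a b s).indicator G (om n * z) -
        (rbox a b s).indicator (fun z => G (om n * z)) z = 0 := by
      intro z hzE
      by_cases hG0 : G (om n * z) = 0
      · by_cases h1 : om n * z ∈ rbox a b s <;> by_cases h2 : z ∈ rbox a b s <;>
          simp [h1, h2, hG0]
      · have hd := hmv z hG0
        by_cases h1 : om n * z ∈ rbox a b s
        · by_cases h2 : z ∈ rbox a b s
          · simp [h1, h2]
          · exact absurd (Or.inr (mem_stp_of h1 h2 hd)) hzE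
        · by_cases h2 : z ∈ rbox a b s
          · rw [norm_sub_rev] at hd
            exact absurd (Or.inl (mem_stp_of h2 h1 hd)) hzE
          · simp [h1, h2]
    rw [← setIntegral_eq_integral_of_forall_compl_eq_zero hz0]
    refine (norm_setIntegral_le_of_norm_le_const (C := M) hfinE (fun z _ => ?_)).trans
      (mul_le_mul_of_nonneg_left hrealE hM)
    by_cases h1 : om n * z ∈ rbox a b s <;> by_cases h2 : z ∈ rbox a b s <;>
      simp [h1, h2, hM, hGM]
  have key : 2 * ‖∫ z in rbox a b s, G z‖ =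
      ‖((∫ z in rbox a b s, G (om n * z)) + ∫ z in rbox a b s, G z) +
        ((∫ z in rbox a b s, G z) - ∫ z in rbox a b s, G (om n * z))‖ := by
    have h1 : ((∫ z in rbox a b s, G (om n * z)) + ∫ z in rbox a b s, G z) +
        ((∫ z in rbox a b s, G z) - ∫ z in rbox a b s, G (om n * z)) =
        2 * ∫ z in rbox a b s, G z := by ring
    rw [h1, norm_mul]
    norm_num
  rw [key]
  exact (norm_add_le _ _).trans (add_le_add hsum hdiff)

/-- the reflection -/
private theorem int_refl (G : ℂ → ℂ) (c x : ℂ) (s : ℝ) :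
    ∫ y in sq c s, G (x - y) = ∫ z in rbox (x.re - c.re - s) (x.im - c.im - s) s, G z := by
  rw [← integral_indicator (measurableSet_sq c s), ← integral_indicator (meas_rbox _ _ _)]
  rw [← integral_sub_left_eq_self
    (fun z => (rbox (x.re - c.re - s) (x.im - c.im - s) s).indicator G z) volume x]
  congr 1
  funext y
  have h1 : y ∈ sq c s ↔ x - y ∈ rbox (x.re - c.re - s) (x.im - c.im - s) s := by
    unfold sq rbox
    simp only [Set.mem_ofPred_eq, Complex.sub_re, Complex.sub_im]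
    constructor
    · rintro ⟨h1, h2, h3, h4⟩
      refine ⟨⟨?_, ?_⟩, ?_, ?_⟩ <;> linarith
    · rintro ⟨⟨h1, h2⟩, h3, h4⟩
      refine ⟨?_, ?_, ?_, ?_⟩ <;> linarith
  by_cases h : y ∈ sq c s
  · rw [Set.indicator_of_mem h, Set.indicator_of_mem (h1.1 h)]
  · rw [Set.indicator_of_notMem h, Set.indicator_of_notMem (fun h' => h (h1.2 h'))]

theorem int_sq_le : ∃ C : ℝ, 0 < C ∧ ∀ (n : ℕ), 1 ≤ n → ∀ (k : ℤ) (c x : ℂ) (s : ℝ), 0 < s →
    s ≤ (2 : ℝ) ^ k →
    ‖∫ y in sq c s, tl (An n k) ((2 : ℝ) ^ k) (x - y)‖ ≤ C * s / (2 : ℝ) ^ k := by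
  obtain ⟨C, hC, hrot⟩ := tl_rot
  refine ⟨C + 200 * Real.pi, by positivity, ?_⟩
  intro n hn k c x s hs hsl
  set l : ℝ := (2 : ℝ) ^ k with hl
  have hl0 : 0 < l := by positivity
  have hn' : (0 : ℝ) < n := by exact_mod_cast hn
  rw [int_refl]
  have hcont : Continuous (tl (An n k) l) := continuous_tl _ (continuous_An n hn k) hl0
  have hb := int_box (tl (An n k) l) hcont n (x.re - c.re - s) (x.im - c.im - s) s
    (Real.pi / (2 * n) * (l / 4)) (200 * n / l ^ 2) (C / l ^ 2) hs.le (by positivity) (by positivity)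
    (fun z => by
      have h1 := norm_tl_le (An n k) l z
      have h2 := norm_An_le n k z
      rw [← hl] at h2
      calc ‖tl (An n k) l z‖ ≤ 2 * ‖An n k z‖ := h1
        _ ≤ 2 * (100 * n / l ^ 2) := by linarith
        _ = 200 * n / l ^ 2 := by ring)
    (fun z => hrot n hn k z)
    (fun z hz => by
      have h1 : ‖z‖ ≤ l / 4 := by
        by_contra hcon
        push Not at hcon
        apply hz
        unfold tl
        rw [An_supp' n k (om n * z) (by rw [norm_mul, om_norm', one_mul, ← hl]; exact hcon.le), zero_div]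
      have h2 : om n * z - z = (om n - 1) * z := by ring
      rw [h2, norm_mul]
      exact mul_le_mul (om_sub n hn) h1 (norm_nonneg _) (by positivity))
    (by positivity)
  have e1 : C / l ^ 2 * (s * s) ≤ C * s / l := by
    rw [div_mul_eq_mul_div, div_le_div_iff₀ (by positivity) hl0]
    have h1 : s * l ≤ l * l := mul_le_mul_of_nonneg_right hsl hl0.le
    have h2 : 0 ≤ C * s := by positivity
    nlinarith [mul_le_mul_of_nonneg_left h1 h2]
  have e2 : 200 * n / l ^ 2 * (8 * (s * (Real.pi / (2 * n) * (l / 4)))) = 200 * Real.pi * s / l := by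
    field_simp
    ring
  rw [e2] at hb
  have e3 : (C + 200 * Real.pi) * s / l = C * s / l + 200 * Real.pi * s / l := by ring
  rw [e3]
  have e4 : 0 ≤ C * s / l := by positivity
  have e5 : 0 ≤ 200 * Real.pi * s / l := by positivity
  linarith

theorem F1_le : ∃ C : ℝ, 0 < C ∧ ∀ (n : ℕ), 1 ≤ n → ∀ (k : ℤ) (u : ℂ),
    ‖F1 (An n k) ((2 : ℝ) ^ k) u‖ ≤ C := by
  obtain ⟨C, hC, h⟩ := int_sq_le
  refine ⟨C, hC, fun n hn k u => ?_⟩
  have h1 := h n hn k 0 u ((2 : ℝ) ^ k) (by positivity) le_rfl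
  have h2 : C * (2 : ℝ) ^ k / (2 : ℝ) ^ k = C := by
    have : (0 : ℝ) < (2 : ℝ) ^ k := by positivity
    field_simp
  rw [h2] at h1
  exact h1

/-- the remainder of the kernel at one scale is a good kernel with an absolute constant -/
theorem ker_An : ∃ κ : ℝ, 0 < κ ∧ ∀ (n : ℕ), 1 ≤ n → ∀ (k : ℤ),
    Ker κ ((2 : ℝ) ^ k) (rr (An n k) ((2 : ℝ) ^ k)) := by
  obtain ⟨C, hC, h⟩ := F1_le
  refine ⟨5 * C, by positivity, fun n hn k => ?_⟩
  have hl0 : (0 : ℝ) < (2 : ℝ) ^ k := by positivity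
  refine ker_rr_of (An n k) (continuous_An n hn k) ((2 : ℝ) ^ k / 4) (by positivity)
    (An_supp n k) (An_even n k) (An_mean n hn k) ((2 : ℝ) ^ k) (by linarith) C C (5 * C) hC.le hC.le
    (fun u _ => h n hn k u) ?_ (by positivity) (by linarith) (by nlinarith)
  have h1 := norm_setIntegral_le_of_norm_le_const (μ := volume) (s := sq 0 ((2 : ℝ) ^ k))
    (f := fun u => ‖F1 (An n k) ((2 : ℝ) ^ k) u‖) (C := C) (sq_fin _ hl0.le)
    (fun u _ => by rw [norm_norm]; exact h n hn k u)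
  rw [sq_real _ hl0.le] at h1
  calc ∫ u in sq 0 ((2 : ℝ) ^ k), ‖F1 (An n k) ((2 : ℝ) ^ k) u‖
      ≤ ‖∫ u in sq 0 ((2 : ℝ) ^ k), ‖F1 (An n k) ((2 : ℝ) ^ k) u‖‖ := Real.le_norm_self _
    _ ≤ C * ((2 : ℝ) ^ k * (2 : ℝ) ^ k) := h1
    _ = C * ((2 : ℝ) ^ k) ^ 2 := by ring

private theorem sqn_dist {c' y : ℂ} {k : ℤ} (hy : y ∈ sqn (c', k)) : ‖y - c'‖ ≤ 2 * (2 : ℝ) ^ k := by
  have h1 := sq_subset_closedBall c' (l := (2 : ℝ) ^ k) (by positivity) hy
  rwa [mem_closedBall_iff_norm] at h1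

theorem cell_An : ∃ C : ℝ, 0 < C ∧ ∀ (n : ℕ), 1 ≤ n → ∀ (k : ℤ),
    CellBd (tl (An n k) ((2 : ℝ) ^ k)) k
      (fun a => C * n / ((2 : ℝ) ^ k) ^ 2 * min ((n : ℝ) / 2 ^ a) (2 ^ a / n)) := by
  obtain ⟨C1, hC1, h1⟩ := int_sq_le
  obtain ⟨C2, hC2, h2⟩ := tl_lip
  refine ⟨2 * C1 + 2 * C2, by positivity, ?_⟩
  intro n hn k a c' x h hh
  have hn' : (0 : ℝ) < n := by exact_mod_cast hn
  set l : ℝ := (2 : ℝ) ^ k with hl
  have hl0 : 0 < l := by positivity
  have ha0 : (0 : ℝ) < 2 ^ a := by positivity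
  have hs : (2 : ℝ) ^ (k - (a : ℤ)) = l / 2 ^ a := by
    rw [zpow_sub₀ (by norm_num : (2 : ℝ) ≠ 0), zpow_natCast]
  have hsum0 : 0 ≤ ∑ i, |h i| := Finset.sum_nonneg fun i _ => abs_nonneg _
  have hcont : Continuous (tl (An n k) l) := continuous_tl _ (continuous_An n hn k) hl0
  -- the first bound
  have b1 : ‖∑ i, (h i : ℂ) * ∫ y in sqn (chC i (c', k - a)), tl (An n k) l (x - y)‖ ≤
      (2 * C1 + 2 * C2) * n / l ^ 2 * (2 ^ a / n) * ((l / 2 ^ a) ^ 2 * ((∑ i, |h i|) / 4)) := by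
    calc ‖∑ i, (h i : ℂ) * ∫ y in sqn (chC i (c', k - a)), tl (An n k) l (x - y)‖
        ≤ ∑ i, ‖(h i : ℂ) * ∫ y in sqn (chC i (c', k - a)), tl (An n k) l (x - y)‖ := norm_sum_le _ _
      _ ≤ ∑ i, |h i| * (C1 * (l / 2 ^ a / 2) / l) := by
          refine Finset.sum_le_sum fun i _ => ?_
          rw [norm_mul, Complex.norm_real, Real.norm_eq_abs]
          refine mul_le_mul_of_nonneg_left ?_ (abs_nonneg _)
          have hside : sqn (chC i (c', k - a)) = sq (chC i (c', k - a)).1 (l / 2 ^ a / 2) := by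
            unfold sqn
            congr 1
            show (2 : ℝ) ^ (k - (a : ℤ) - 1) = l / 2 ^ a / 2
            rw [zpow_sub_one₀ (by norm_num : (2 : ℝ) ≠ 0), hs]
            ring
          rw [hside]
          refine h1 n hn k _ x _ (by positivity) ?_
          rw [← hl]
          have h3 : (1 : ℝ) ≤ 2 ^ a := one_le_pow₀ (by norm_num)
          have h4 : l / 2 ^ a ≤ l := div_le_self hl0.le h3
          linarith
      _ = (2 * C1) * n / l ^ 2 * (2 ^ a / n) * ((l / 2 ^ a) ^ 2 * ((∑ i, |h i|) / 4)) := by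
          rw [← Finset.sum_mul]
          field_simp
          ring
      _ ≤ (2 * C1 + 2 * C2) * n / l ^ 2 * (2 ^ a / n) * ((l / 2 ^ a) ^ 2 * ((∑ i, |h i|) / 4)) := by
          gcongr
          linarith
  have b2 : ‖∑ i, (h i : ℂ) * ∫ y in sqn (chC i (c', k - a)), tl (An n k) l (x - y)‖ ≤
      (2 * C1 + 2 * C2) * n / l ^ 2 * (n / 2 ^ a) * ((l / 2 ^ a) ^ 2 * ((∑ i, |h i|) / 4)) := by
    have h3 := cell_lip (tl (An n k) l) hcont k a c' x h hh (C2 * n ^ 2 / l ^ 3 * (2 * (l / 2 ^ a)))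
      (fun y hy => by
        refine (h2 n hn k (x - y) (x - c')).trans ?_
        rw [← hl]
        refine mul_le_mul_of_nonneg_left ?_ (by positivity)
        have h4 : x - y - (x - c') = -(y - c') := by ring
        rw [h4, norm_neg]
        have h5 := sqn_dist hy
        rwa [hs] at h5)
    rw [hs] at h3
    refine h3.trans ?_
    have h6 : C2 * n ^ 2 / l ^ 3 * (2 * (l / 2 ^ a)) * ((l / 2 ^ a) ^ 2 * ((∑ i, |h i|) / 4)) =
        (2 * C2) * n / l ^ 2 * (n / 2 ^ a) * ((l / 2 ^ a) ^ 2 * ((∑ i, |h i|) / 4)) := by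
      field_simp
    rw [h6]
    gcongr
    linarith
  rw [hs]
  show _ ≤ (2 * C1 + 2 * C2) * n / l ^ 2 * min ((n : ℝ) / 2 ^ a) (2 ^ a / n) * _
  rcases le_total ((n : ℝ) / 2 ^ a) (2 ^ a / n) with hmin | hmin
  · rw [min_eq_left hmin]
    exact b2
  · rw [min_eq_right hmin]
    exact b1

private theorem tent_one_lip (l : ℝ) (hl : 0 < l) (u v : ℝ) :
    |max 0 (1 - |u| / l) - max 0 (1 - |v| / l)| ≤ |u - v| / l := by
  have h1 : |max 0 (1 - |u| / l) - max 0 (1 - |v| / l)| ≤ |(1 - |u| / l) - (1 - |v| / l)| := by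
    have := abs_max_sub_max_le_max 0 (1 - |u| / l) 0 (1 - |v| / l)
    simpa using this
  refine h1.trans ?_
  have h2 : (1 - |u| / l) - (1 - |v| / l) = -((|u| - |v|) / l) := by ring
  rw [h2, abs_neg, abs_div, abs_of_pos hl]
  exact div_le_div_of_nonneg_right (abs_abs_sub_abs_le _ _) hl.le

private theorem tent_fac (l : ℝ) (hl : 0 < l) (u : ℝ) : 0 ≤ max 0 (1 - |u| / l) ∧ max 0 (1 - |u| / l) ≤ 1 := by
  refine ⟨le_max_left _ _, max_le zero_le_one ?_⟩
  have : 0 ≤ |u| / l := by positivity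
  linarith

private theorem tent_lip (l : ℝ) (hl : 0 < l) (z z' : ℂ) : |tent l z - tent l z'| ≤ 2 * (‖z - z'‖ / l) := by
  unfold tent
  have h1 := tent_one_lip l hl z.re z'.re
  have h2 := tent_one_lip l hl z.im z'.im
  obtain ⟨a0, a1⟩ := tent_fac l hl z.re
  obtain ⟨b0, b1⟩ := tent_fac l hl z'.re
  obtain ⟨c0, c1⟩ := tent_fac l hl z.im
  obtain ⟨d0, d1⟩ := tent_fac l hl z'.im
  have h3 : |z.re - z'.re| / l ≤ ‖z - z'‖ / l := by
    apply div_le_div_of_nonneg_right _ hl.le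
    have := Complex.abs_re_le_norm (z - z')
    simpa using this
  have h4 : |z.im - z'.im| / l ≤ ‖z - z'‖ / l := by
    apply div_le_div_of_nonneg_right _ hl.le
    have := Complex.abs_im_le_norm (z - z')
    simpa using this
  generalize max 0 (1 - |z.re| / l) = A at *
  generalize max 0 (1 - |z'.re| / l) = B at *
  generalize max 0 (1 - |z.im| / l) = C at *
  generalize max 0 (1 - |z'.im| / l) = D at *
  have e : A * C - B * D = (A - B) * C + B * (C - D) := by ring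
  rw [e]
  refine (abs_add_le _ _).trans ?_
  rw [abs_mul, abs_mul, abs_of_nonneg c0, abs_of_nonneg b0]
  have h5 : |A - B| * C ≤ ‖z - z'‖ / l := by
    calc |A - B| * C ≤ |A - B| * 1 := mul_le_mul_of_nonneg_left c1 (abs_nonneg _)
      _ ≤ ‖z - z'‖ / l := by linarith
  have h6 : B * |C - D| ≤ ‖z - z'‖ / l := by
    calc B * |C - D| ≤ 1 * |C - D| := mul_le_mul_of_nonneg_right b1 (abs_nonneg _)
      _ ≤ ‖z - z'‖ / l := by linarith
  linarith

private theorem mm_facts (l : ℝ) (hl : 0 < l) (z : ℂ) :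
    1 / 2 ≤ max (tent l z) (1 / 2) ∧ max (tent l z) (1 / 2) ≤ 1 := by
  refine ⟨le_max_right _ _, max_le ?_ (by norm_num)⟩
  unfold tent
  obtain ⟨a0, a1⟩ := tent_fac l hl z.re
  obtain ⟨c0, c1⟩ := tent_fac l hl z.im
  exact mul_le_one₀ a1 c0 c1

private theorem mm_diff (l : ℝ) (hl : 0 < l) (z z' : ℂ) :
    |max (tent l z) (1 / 2) - max (tent l z') (1 / 2)| ≤ √(‖z - z'‖ / l) := by
  have h1 : |max (tent l z) (1 / 2) - max (tent l z') (1 / 2)| ≤ 2 * (‖z - z'‖ / l) := by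
    refine le_trans ?_ (tent_lip l hl z z')
    have := abs_max_sub_max_le_max (tent l z) (1 / 2) (tent l z') (1 / 2)
    simpa using this
  have h2 : |max (tent l z) (1 / 2) - max (tent l z') (1 / 2)| ≤ 1 / 2 := by
    obtain ⟨a0, a1⟩ := mm_facts l hl z
    obtain ⟨b0, b1⟩ := mm_facts l hl z'
    rw [abs_le]
    constructor <;> linarith
  set t := ‖z - z'‖ / l with ht
  have ht0 : 0 ≤ t := by positivity
  rcases le_total t (1 / 4) with h | h
  · refine h1.trans ?_
    apply Real.le_sqrt_of_sq_le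
    nlinarith
  · refine h2.trans ?_
    apply Real.le_sqrt_of_sq_le
    linarith

private theorem tl_hol (A : ℂ → ℂ) (κ D l : ℝ) (hD : 0 < D) (hl : D ≤ l) (hκ : 0 ≤ κ) (h : Ker κ D A)
    (z z' : ℂ) : ‖tl A l z - tl A l z'‖ ≤ 6 * (κ / D ^ 2 * √(‖z - z'‖ / D)) := by
  have hl0 : 0 < l := hD.trans_le hl
  obtain ⟨a0, a1⟩ := mm_facts l hl0 z
  obtain ⟨b0, b1⟩ := mm_facts l hl0 z'
  have h3 := mm_diff l hl0 z z'
  unfold tl
  set m := max (tent l z) (1 / 2) with hm
  set m' := max (tent l z') (1 / 2) with hm'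
  have hm0 : (m : ℂ) ≠ 0 := by exact_mod_cast (by linarith : m ≠ 0)
  have hm0' : (m' : ℂ) ≠ 0 := by exact_mod_cast (by linarith : m' ≠ 0)
  have e : A z / (m : ℂ) - A z' / (m' : ℂ) = (A z - A z') / (m : ℂ) + A z' * (((m' - m) / (m * m') : ℝ) : ℂ) := by
    push_cast
    field_simp
    ring
  rw [e]
  refine (norm_add_le _ _).trans ?_
  rw [norm_div, norm_mul, Complex.norm_real, Complex.norm_real, Real.norm_eq_abs, Real.norm_eq_abs]
  have hmpos : 0 < m := by linarith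
  have hmpos' : 0 < m' := by linarith
  have h4 : ‖A z - A z'‖ / |m| ≤ 2 * (κ / D ^ 2 * √(‖z - z'‖ / D)) := by
    rw [abs_of_pos hmpos, div_le_iff₀ hmpos]
    have h5 := h.hol z z'
    have h6 : 0 ≤ κ / D ^ 2 * √(‖z - z'‖ / D) := by positivity
    nlinarith
  have h7 : |(m' - m) / (m * m')| ≤ 4 * √(‖z - z'‖ / D) := by
    rw [abs_div, abs_of_pos (mul_pos hmpos hmpos'), div_le_iff₀ (mul_pos hmpos hmpos'), abs_sub_comm]
    have h8 : √(‖z - z'‖ / l) ≤ √(‖z - z'‖ / D) := by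
      apply Real.sqrt_le_sqrt
      exact div_le_div_of_nonneg_left (norm_nonneg _) hD hl
    have h9 : 0 ≤ √(‖z - z'‖ / D) := Real.sqrt_nonneg _
    have h10 : 1 / 4 ≤ m * m' := by nlinarith
    nlinarith
  have h11 : ‖A z'‖ * |(m' - m) / (m * m')| ≤ κ / D ^ 2 * (4 * √(‖z - z'‖ / D)) :=
    mul_le_mul (h.bdd z') h7 (abs_nonneg _) (by positivity)
  linarith

theorem cell_Ker : ∃ C : ℝ, 0 < C ∧ ∀ (κ D : ℝ) (A : ℂ → ℂ) (k : ℤ), 0 ≤ κ → 0 < D →
    (2 : ℝ) ^ k = 2 ^ 16 * D → Ker κ D A →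
    CellBd (tl A ((2 : ℝ) ^ k)) k (fun a => C * κ / ((2 : ℝ) ^ k) ^ 2 * √(1 / 2 ^ a)) := by
  refine ⟨6 * 2 ^ 32 * √(2 ^ 17), by positivity, ?_⟩
  intro κ D A k hκ hD hkD hK a c' x h hh
  set l : ℝ := (2 : ℝ) ^ k with hl
  have hl0 : 0 < l := by positivity
  have ha0 : (0 : ℝ) < 2 ^ a := by positivity
  have hs : (2 : ℝ) ^ (k - (a : ℤ)) = l / 2 ^ a := by
    rw [zpow_sub₀ (by norm_num : (2 : ℝ) ≠ 0), zpow_natCast]
  have hDl : D ≤ l := by
    rw [hkD]
    linarith
  have hcont : Continuous (tl A l) := continuous_tl _ (hK.continuous hD) hl0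
  have h3 := cell_lip (tl A l) hcont k a c' x h hh (6 * (κ / D ^ 2 * √(2 * (l / 2 ^ a) / D)))
    (fun y hy => by
      refine (tl_hol A κ D l hD hDl hκ hK (x - y) (x - c')).trans ?_
      refine mul_le_mul_of_nonneg_left ?_ (by norm_num)
      refine mul_le_mul_of_nonneg_left ?_ (by positivity)
      apply Real.sqrt_le_sqrt
      apply div_le_div_of_nonneg_right _ hD.le
      have h4 : x - y - (x - c') = -(y - c') := by ring
      rw [h4, norm_neg]
      have h5 := sqn_dist hy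
      rwa [hs] at h5)
  refine h3.trans (le_of_eq ?_)
  congr 1
  have h6 : 2 * (l / 2 ^ a) / D = 2 ^ 17 * (1 / 2 ^ a) := by
    rw [hkD]
    field_simp
  rw [h6, Real.sqrt_mul (by positivity)]
  have h7 : κ / D ^ 2 = 2 ^ 32 * κ / l ^ 2 := by
    rw [hkD]
    field_simp
  rw [h7]
  ring

end Pool.MP_75bf3e_an.BT
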