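import Pool.Agent.Lib_MP_75bf3e.Wle
import Pool.Agent.Lib_MP_75bf3e.NCell

/-!
# Piece AKSUM: sums of good kernels (geometric series)

Fix `w, K, f, g` and write `Nf = √((∫ f^2 w) * ∫ g^2 w⁻¹)`, `C₀` the constant of `star`, `C₁` of `cell_Ker`.

(0) A general estimate `sum_WW_le`: let `G_i` (`i < m`) be continuous, bounded, even kernels satisfying `CellBd G_i (k₁+i) ω_i` with
`ω_i a = μ a/((2^(k₁+i))^2)`, `μ a ≥ 0`.  For every `δ > 0` and `N` large (`int_WW_le` for each `i` with `δ/m`),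
`‖Σ_i l_i^{-2} ∫_c WW G_i f g (c,k₁+i)‖ ≤ Σ_{a,b<N} min(μ a)(μ b) Σ_{i<m} ∫_c Df a f (c,k₁+i) Df b g (c,k₁+i) + δ`
and `Σ_{i<m} ∫_c ... (c, k₁+i) = Σ_{i<m} ∫_c ...(c, k₁+(m-1) - i)` (reflect the finite sum), which `star` (with `M = max a b + 1`)
bounds by `C₀ K √(min K (max a b + 1)) Nf`.  So if `Σ_{a,b<N} min(μ a)(μ b) √(min K (max a b + 1)) ≤ Θ` for all `N`, the
left side is `≤ C₀ K Θ Nf` (let `δ → 0`).

(1) `kerSum`.  Claim by induction on `p`: for all `κ ≥ 0`, all `k₁` and all families `A` as in the statement,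
`‖Σ II (A i) f g‖ ≤ C₂ κ K Nf (1 + 1/2 + ... + 2^{-p+1}) + κ 2^{-p} * m * (2^{k₁})^{-2} * ‖f‖₁ ‖g‖₁` for a suitable absolute `C₂`.
`p = 0`: `‖II A f g‖ ≤ sup‖A‖ ‖f‖₁‖g‖₁` and `‖A i‖ ≤ κ/(2^{k₁+i})^2`.  Step: by `step` (with `D = 2^{k₁+i}`, `k = k₁+i+16`)
`II (A i) f g = l^{-2} ∫_c WW (tl (A i) l) f g (c,k) + II (rr (A i) l) f g`, `l = 2^{k₁+i+16} = 2^16 * 2^{k₁+i}`; the second terms
form a family in `Ker (κ/2)` at the scales `2^{k₁+16+i}` (`ker_rr`), apply the induction hypothesis with `κ/2`, `k₁ + 16`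
(and `(2^{k₁+16})^{-2} ≤ (2^{k₁})^{-2}`); the first terms are bounded by (0) with `μ a = C₁ κ √(1/2^a)` (`cell_Ker`):
`Σ_{a,b} min(√(1/2^a), √(1/2^b)) √(max a b + 1) ≤` an absolute constant (`≤ Σ_a Σ_b 2^{-a/4} 2^{-b/4} √(a+1) √(b+1)`).
Let `p → ∞`.
-/

set_option autoImplicit false

open MeasureTheory

namespace Pool.MP_75bf3e_an.BT

private theorem mn_nonneg_aux (w : ℂ → ℝ) (hw : ∀ z, 0 ≤ w z) (P : ℂ × ℤ) : 0 ≤ mn w P := by
  unfold mn
  exact mul_nonneg (by positivity) (integral_nonneg (fun z => hw z))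

theorem sum_WW_le : ∃ C₀ : ℝ, 0 < C₀ ∧ ∀ (w : ℂ → ℝ), (∀ z, 0 < w z) → LocallyIntegrable w volume →
    LocallyIntegrable (fun z => (w z)⁻¹) volume → ∀ K : ℝ,
    (∀ P : ℂ × ℤ, mn w P * mn (fun z => (w z)⁻¹) P ≤ K) →
    ∀ (f g : ℂ → ℝ), Continuous f → HasCompactSupport f → Continuous g → HasCompactSupport g →
    ∀ (k₁ : ℤ) (m : ℕ) (G : ℕ → ℂ → ℂ) (μ : ℕ → ℝ) (Θ : ℝ), (∀ a, 0 ≤ μ a) →
    (∀ i < m, Continuous (G i)) → (∀ i < m, ∃ Γ : ℝ, ∀ z, ‖G i z‖ ≤ Γ) →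
    (∀ i < m, ∀ z, G i (-z) = G i z) →
    (∀ i < m, CellBd (G i) (k₁ + i) (fun a => μ a / ((2 : ℝ) ^ (k₁ + (i : ℤ))) ^ 2)) →
    (∀ N : ℕ, ∑ a ∈ Finset.range N, ∑ b ∈ Finset.range N,
        min (μ a) (μ b) * √(min K ((max a b : ℕ) + 1)) ≤ Θ) →
    ‖∑ i ∈ Finset.range m, (((2 : ℝ) ^ (k₁ + (i : ℤ)) * (2 : ℝ) ^ (k₁ + (i : ℤ)) : ℝ) : ℂ)⁻¹ *
        (∫ c : ℂ, WW (G i) f g (c, k₁ + i))‖
      ≤ C₀ * K * Θ * √((∫ z, f z ^ 2 * w z) * ∫ z, g z ^ 2 * (w z)⁻¹) := by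
  obtain ⟨C, hC, hstar⟩ := star
  refine ⟨C, hC, ?_⟩
  intro w hw hwi hwi' K hK f g hf hfs hg hgs k₁ m G μ Θ hμ hGc hGb hGe hcell hΘ
  have hK0 : 0 ≤ K :=
    le_trans (mul_nonneg (mn_nonneg_aux w (fun z => (hw z).le) (0, 0))
      (mn_nonneg_aux _ (fun z => (inv_pos.2 (hw z)).le) (0, 0))) (hK (0, 0))
  set Nf : ℝ := √((∫ z, f z ^ 2 * w z) * ∫ z, g z ^ 2 * (w z)⁻¹) with hNf
  have hNf0 : 0 ≤ Nf := Real.sqrt_nonneg _
  refine le_of_forall_pos_le_add fun δ hδ => ?_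
  set δ' : ℝ := δ / (m + 1) with hδ'
  have hm1 : (0 : ℝ) < m + 1 := by positivity
  have hδ'0 : 0 < δ' := div_pos hδ hm1
  have hex : ∀ i < m, ∃ N₀ : ℕ, ∀ N : ℕ, N₀ ≤ N →
      ‖(((2 : ℝ) ^ (k₁ + (i : ℤ)) * (2 : ℝ) ^ (k₁ + (i : ℤ)) : ℝ) : ℂ)⁻¹ *
          (∫ c : ℂ, WW (G i) f g (c, k₁ + i))‖
        ≤ (∑ a ∈ Finset.range N, ∑ b ∈ Finset.range N,
            min (μ a) (μ b) * ∫ c : ℂ, Df a f (c, k₁ + i) * Df b g (c, k₁ + i)) + δ' := by
    intro i hi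
    obtain ⟨Γ, hΓ⟩ := hGb i hi
    obtain ⟨N₀, hN₀⟩ := int_WW_le (G i) (hGc i hi) Γ hΓ (hGe i hi) (k₁ + i) _
      (fun a => div_nonneg (hμ a) (by positivity)) (hcell i hi) f g hf hfs hg hgs δ' hδ'0
    refine ⟨N₀, fun N hN => ?_⟩
    refine (hN₀ N hN).trans (le_of_eq ?_)
    congr 1
    refine Finset.sum_congr rfl fun a _ => Finset.sum_congr rfl fun b _ => ?_
    have hL : (0 : ℝ) < ((2 : ℝ) ^ (k₁ + (i : ℤ))) ^ 2 := by positivity
    rw [min_div_div_right hL.le, div_mul_cancel₀ _ hL.ne']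
  choose! N₀ hN₀ using hex
  set N : ℕ := (Finset.range m).sup N₀ with hN
  have hi : ∀ i ∈ Finset.range m,
      ‖(((2 : ℝ) ^ (k₁ + (i : ℤ)) * (2 : ℝ) ^ (k₁ + (i : ℤ)) : ℝ) : ℂ)⁻¹ *
          (∫ c : ℂ, WW (G i) f g (c, k₁ + i))‖
        ≤ (∑ a ∈ Finset.range N, ∑ b ∈ Finset.range N,
            min (μ a) (μ b) * ∫ c : ℂ, Df a f (c, k₁ + i) * Df b g (c, k₁ + i)) + δ' := by
    intro i hi
    exact hN₀ i (Finset.mem_range.1 hi) N (Finset.le_sup hi)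
  have hrefl : ∀ a b : ℕ,
      ∑ i ∈ Finset.range m, ∫ c : ℂ, Df a f (c, k₁ + i) * Df b g (c, k₁ + i)
        ≤ C * K * √(min K ((max a b : ℕ) + 1)) * Nf := by
    intro a b
    have h := hstar w hw hwi hwi' K hK a b (max a b + 1) (Nat.lt_succ_of_le (le_max_left _ _))
      (Nat.lt_succ_of_le (le_max_right _ _)) f g hf hfs hg hgs m (k₁ + ((m : ℤ) - 1))
    rw [Nat.cast_succ] at h
    refine le_trans (le_of_eq ?_) h
    rw [← Finset.sum_range_reflect]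
    refine Finset.sum_congr rfl fun i hi => ?_
    have hlt := Finset.mem_range.1 hi
    have : k₁ + ((m - 1 - i : ℕ) : ℤ) = k₁ + ((m : ℤ) - 1) - i := by omega
    rw [this]
  calc ‖∑ i ∈ Finset.range m, (((2 : ℝ) ^ (k₁ + (i : ℤ)) * (2 : ℝ) ^ (k₁ + (i : ℤ)) : ℝ) : ℂ)⁻¹ *
        (∫ c : ℂ, WW (G i) f g (c, k₁ + i))‖
      ≤ ∑ i ∈ Finset.range m, ‖(((2 : ℝ) ^ (k₁ + (i : ℤ)) * (2 : ℝ) ^ (k₁ + (i : ℤ)) : ℝ) : ℂ)⁻¹ *
        (∫ c : ℂ, WW (G i) f g (c, k₁ + i))‖ := norm_sum_le _ _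
    _ ≤ ∑ i ∈ Finset.range m, ((∑ a ∈ Finset.range N, ∑ b ∈ Finset.range N,
            min (μ a) (μ b) * ∫ c : ℂ, Df a f (c, k₁ + i) * Df b g (c, k₁ + i)) + δ') :=
        Finset.sum_le_sum hi
    _ = (∑ a ∈ Finset.range N, ∑ b ∈ Finset.range N,
            min (μ a) (μ b) * ∑ i ∈ Finset.range m,
              ∫ c : ℂ, Df a f (c, k₁ + i) * Df b g (c, k₁ + i)) + m * δ' := by
        rw [Finset.sum_add_distrib, Finset.sum_const, Finset.card_range, nsmul_eq_mul]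
        congr 1
        rw [Finset.sum_comm]
        refine Finset.sum_congr rfl fun a _ => ?_
        rw [Finset.sum_comm]
        refine Finset.sum_congr rfl fun b _ => ?_
        rw [Finset.mul_sum]
    _ ≤ (∑ a ∈ Finset.range N, ∑ b ∈ Finset.range N,
            min (μ a) (μ b) * (C * K * √(min K ((max a b : ℕ) + 1)) * Nf)) + δ := by
        refine add_le_add ?_ ?_
        · refine Finset.sum_le_sum fun a _ => Finset.sum_le_sum fun b _ => ?_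
          exact mul_le_mul_of_nonneg_left (hrefl a b) (le_min (hμ a) (hμ b))
        · have h1 : ((m : ℝ) + 1) * δ' = δ := by
            rw [hδ']
            field_simp
          have h2 : (m : ℝ) * δ' ≤ ((m : ℝ) + 1) * δ' :=
            mul_le_mul_of_nonneg_right (by linarith) hδ'0.le
          linarith
    _ = C * K * (∑ a ∈ Finset.range N, ∑ b ∈ Finset.range N,
            min (μ a) (μ b) * √(min K ((max a b : ℕ) + 1))) * Nf + δ := by
        congr 1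
        rw [Finset.mul_sum, Finset.sum_mul]
        refine Finset.sum_congr rfl fun a _ => ?_
        rw [Finset.mul_sum, Finset.sum_mul]
        refine Finset.sum_congr rfl fun b _ => ?_
        ring
    _ ≤ C * K * Θ * Nf + δ := by
        have := hΘ N
        have hCK : 0 ≤ C * K := mul_nonneg hC.le hK0
        exact add_le_add (mul_le_mul_of_nonneg_right (mul_le_mul_of_nonneg_left this hCK) hNf0)
          le_rfl

private theorem II_le (A : ℂ → ℂ) (f g : ℂ → ℝ) (hf : Continuous f) (hfs : HasCompactSupport f)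
    (hg : Continuous g) (hgs : HasCompactSupport g) (Γ : ℝ) (hΓ : ∀ z, ‖A z‖ ≤ Γ) :
    ‖II A f g‖ ≤ Γ * ((∫ z, |f z|) * ∫ z, |g z|) := by
  have hfi : Integrable (fun z => |f z|) volume := (hf.integrable_of_hasCompactSupport hfs).abs
  have hgi : Integrable (fun z => |g z|) volume := (hg.integrable_of_hasCompactSupport hgs).abs
  unfold II
  have h1 : ∀ x : ℂ, ‖∫ y, A (x - y) * ((f y * g x : ℝ) : ℂ)‖ ≤ (Γ * ∫ z, |f z|) * |g x| := by
    intro x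
    have h2 : ∀ y : ℂ, ‖A (x - y) * ((f y * g x : ℝ) : ℂ)‖ ≤ Γ * |g x| * |f y| := by
      intro y
      rw [norm_mul, Complex.norm_real, Real.norm_eq_abs, abs_mul]
      have := mul_le_mul_of_nonneg_right (hΓ (x - y))
        (mul_nonneg (abs_nonneg (f y)) (abs_nonneg (g x)))
      refine this.trans (le_of_eq ?_)
      ring
    have h3 := norm_integral_le_of_norm_le (hfi.const_mul (Γ * |g x|)) (Filter.Eventually.of_forall h2)
    refine h3.trans (le_of_eq ?_)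
    rw [integral_const_mul]
    ring
  have h4 := norm_integral_le_of_norm_le (hgi.const_mul (Γ * ∫ z, |f z|))
    (Filter.Eventually.of_forall h1)
  refine h4.trans (le_of_eq ?_)
  rw [integral_const_mul]
  ring

private theorem tl_even (A : ℂ → ℂ) (l : ℝ) (hA : ∀ z, A (-z) = A z) (z : ℂ) :
    tl A l (-z) = tl A l z := by
  unfold tl tent
  rw [hA z, Complex.neg_re, Complex.neg_im, abs_neg, abs_neg]

private theorem exists_sum_bound : ∃ S : ℝ, 0 < S ∧ ∀ (K : ℝ) (N : ℕ),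
    ∑ a ∈ Finset.range N, ∑ b ∈ Finset.range N,
      min (√(1 / 2 ^ a : ℝ)) (√(1 / 2 ^ b : ℝ)) * √(min K ((max a b : ℕ) + 1)) ≤ S := by
  set r : ℝ := √(√(1 / 2)) with hr
  have hr0 : 0 ≤ r := Real.sqrt_nonneg _
  have hr2 : r ^ 2 = √(1 / 2) := Real.sq_sqrt (Real.sqrt_nonneg _)
  have hr4 : r ^ 4 = 1 / 2 := by
    have : r ^ 4 = (r ^ 2) ^ 2 := by ring
    rw [this, hr2, Real.sq_sqrt (by norm_num)]
  have hr1 : r < 1 := by
    by_contra hcon
    have h1 : 1 ≤ r := not_lt.1 hcon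
    have h2 : 1 ≤ r ^ 4 := one_le_pow₀ h1
    rw [hr4] at h2
    norm_num at h2
  have hsq : ∀ a : ℕ, √(1 / 2 ^ a : ℝ) = r ^ a * r ^ a := by
    intro a
    rw [Real.sqrt_eq_iff_mul_self_eq (by positivity) (by positivity)]
    have : r ^ a * r ^ a * (r ^ a * r ^ a) = (r ^ 4) ^ a := by
      rw [← pow_mul]
      ring
    rw [this, hr4]
    simp
  have hmin : ∀ a b : ℕ, min (√(1 / 2 ^ a : ℝ)) (√(1 / 2 ^ b : ℝ)) ≤ r ^ a * r ^ b := by
    intro a b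
    rw [hsq a, hsq b]
    have ha : 0 ≤ r ^ a := by positivity
    have hb : 0 ≤ r ^ b := by positivity
    rcases le_total (r ^ a) (r ^ b) with h | h
    · exact (min_le_left _ _).trans (mul_le_mul_of_nonneg_left h ha)
    · exact (min_le_right _ _).trans (mul_le_mul_of_nonneg_right h hb)
  have hmax : ∀ (K : ℝ) (a b : ℕ), √(min K ((max a b : ℕ) + 1)) ≤ ((a : ℝ) + 1) * ((b : ℝ) + 1) := by
    intro K a b
    have h1 : ((max a b : ℕ) : ℝ) + 1 ≤ ((a : ℝ) + 1) * ((b : ℝ) + 1) := by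
      have ha : (0 : ℝ) ≤ a := Nat.cast_nonneg a
      have hb : (0 : ℝ) ≤ b := Nat.cast_nonneg b
      have : ((max a b : ℕ) : ℝ) ≤ (a : ℝ) + b := by
        have h' : max a b ≤ a + b := max_le (Nat.le_add_right _ _) (Nat.le_add_left _ _)
        exact_mod_cast h'
      nlinarith [mul_nonneg ha hb]
    have h2 : (1 : ℝ) ≤ ((a : ℝ) + 1) * ((b : ℝ) + 1) := by
      have : (0 : ℝ) ≤ ((max a b : ℕ) : ℝ) := Nat.cast_nonneg _
      linarith
    rw [Real.sqrt_le_left (by linarith)]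
    refine (min_le_right _ _).trans (h1.trans ?_)
    nlinarith
  have hsum : Summable (fun a : ℕ => r ^ a * ((a : ℝ) + 1)) := by
    have h1 : Summable (fun a : ℕ => (a : ℝ) ^ 1 * r ^ a) :=
      summable_pow_mul_geometric_of_norm_lt_one 1 (by
        rw [Real.norm_eq_abs, abs_of_nonneg hr0]
        exact hr1)
    have h2 : Summable (fun a : ℕ => r ^ a) := summable_geometric_of_lt_one hr0 hr1
    refine (h1.add h2).congr fun a => ?_
    ring
  set T : ℝ := ∑' a : ℕ, r ^ a * ((a : ℝ) + 1) with hT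
  have hT0 : 0 ≤ T := tsum_nonneg fun a => by positivity
  have hTN : ∀ N : ℕ, ∑ a ∈ Finset.range N, r ^ a * ((a : ℝ) + 1) ≤ T := fun N =>
    hsum.sum_le_tsum _ fun a _ => by positivity
  refine ⟨T * T + 1, by positivity, fun K N => ?_⟩
  calc ∑ a ∈ Finset.range N, ∑ b ∈ Finset.range N,
        min (√(1 / 2 ^ a : ℝ)) (√(1 / 2 ^ b : ℝ)) * √(min K ((max a b : ℕ) + 1))
      ≤ ∑ a ∈ Finset.range N, ∑ b ∈ Finset.range N,
        (r ^ a * ((a : ℝ) + 1)) * (r ^ b * ((b : ℝ) + 1)) := by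
        refine Finset.sum_le_sum fun a _ => Finset.sum_le_sum fun b _ => ?_
        have := mul_le_mul (hmin a b) (hmax K a b) (Real.sqrt_nonneg _) (by positivity)
        refine this.trans (le_of_eq ?_)
        ring
    _ = (∑ a ∈ Finset.range N, r ^ a * ((a : ℝ) + 1)) *
          ∑ b ∈ Finset.range N, r ^ b * ((b : ℝ) + 1) := by
        rw [Finset.sum_mul_sum]
    _ ≤ T * T := mul_le_mul (hTN N) (hTN N) (Finset.sum_nonneg fun a _ => by positivity) hT0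
    _ ≤ T * T + 1 := by linarith

theorem kerSum : ∃ C : ℝ, 0 < C ∧ ∀ (w : ℂ → ℝ), (∀ z, 0 < w z) → LocallyIntegrable w volume →
    LocallyIntegrable (fun z => (w z)⁻¹) volume → ∀ K : ℝ,
    (∀ P : ℂ × ℤ, mn w P * mn (fun z => (w z)⁻¹) P ≤ K) →
    ∀ (f g : ℂ → ℝ), Continuous f → HasCompactSupport f → Continuous g → HasCompactSupport g →
    ∀ (κ : ℝ), 0 ≤ κ → ∀ (k₁ : ℤ) (m : ℕ) (A : ℕ → ℂ → ℂ),
    (∀ i < m, Ker κ ((2 : ℝ) ^ (k₁ + (i : ℤ))) (A i)) →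
    ‖∑ i ∈ Finset.range m, II (A i) f g‖
      ≤ C * κ * K * √((∫ z, f z ^ 2 * w z) * ∫ z, g z ^ 2 * (w z)⁻¹) := by
  obtain ⟨C₀, hC₀, hW⟩ := sum_WW_le
  obtain ⟨C₁, hC₁, hcell⟩ := cell_Ker
  obtain ⟨S, hS, hSb⟩ := exists_sum_bound
  refine ⟨2 * (C₀ * C₁ * S), by positivity, ?_⟩
  intro w hw hwi hwi' K hK f g hf hfs hg hgs
  set Nf : ℝ := √((∫ z, f z ^ 2 * w z) * ∫ z, g z ^ 2 * (w z)⁻¹) with hNf
  set E : ℝ := (∫ z, |f z|) * ∫ z, |g z| with hE
  have hK0 : 0 ≤ K :=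
    le_trans (mul_nonneg (mn_nonneg_aux w (fun z => (hw z).le) (0, 0))
      (mn_nonneg_aux _ (fun z => (inv_pos.2 (hw z)).le) (0, 0))) (hK (0, 0))
  have hNf0 : 0 ≤ Nf := Real.sqrt_nonneg _
  have hE0 : 0 ≤ E := mul_nonneg (integral_nonneg fun z => abs_nonneg _)
    (integral_nonneg fun z => abs_nonneg _)
  have key : ∀ p : ℕ, ∀ (κ : ℝ), 0 ≤ κ → ∀ (k₁ : ℤ) (m : ℕ) (A : ℕ → ℂ → ℂ),
      (∀ i < m, Ker κ ((2 : ℝ) ^ (k₁ + (i : ℤ))) (A i)) →
      ‖∑ i ∈ Finset.range m, II (A i) f g‖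
        ≤ 2 * (C₀ * C₁ * S) * κ * K * Nf + (m * κ * (((2 : ℝ) ^ k₁) ^ 2)⁻¹ * E) * (1 / 2) ^ p := by
    intro p
    induction p with
    | zero =>
      intro κ hκ k₁ m A hA
      have hmain : 0 ≤ 2 * (C₀ * C₁ * S) * κ * K * Nf := by positivity
      have hi : ∀ i ∈ Finset.range m, ‖II (A i) f g‖ ≤ κ * (((2 : ℝ) ^ k₁) ^ 2)⁻¹ * E := by
        intro i hi
        have hk := hA i (Finset.mem_range.1 hi)
        refine II_le (A i) f g hf hfs hg hgs _ (fun z => (hk.bdd z).trans ?_)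
        rw [div_eq_mul_inv]
        refine mul_le_mul_of_nonneg_left ?_ hκ
        refine inv_anti₀ (by positivity) (pow_le_pow_left₀ (by positivity) ?_ 2)
        exact zpow_le_zpow_right₀ (by norm_num) (by omega)
      have h1 := (norm_sum_le (Finset.range m) (fun i => II (A i) f g)).trans
        (Finset.sum_le_sum hi)
      rw [Finset.sum_const, Finset.card_range, nsmul_eq_mul] at h1
      rw [pow_zero, mul_one]
      refine h1.trans ?_
      have h2 : (m : ℝ) * (κ * (((2 : ℝ) ^ k₁) ^ 2)⁻¹ * E) =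
          m * κ * (((2 : ℝ) ^ k₁) ^ 2)⁻¹ * E := by ring
      rw [h2]
      linarith
    | succ p ih =>
      intro κ hκ k₁ m A hA
      have hpos : ∀ k : ℤ, (0 : ℝ) < (2 : ℝ) ^ k := fun k => by positivity
      have hscale : ∀ i : ℕ, (2 : ℝ) ^ (k₁ + 16 + (i : ℤ)) = 2 ^ 16 * (2 : ℝ) ^ (k₁ + (i : ℤ)) := by
        intro i
        have : k₁ + 16 + (i : ℤ) = 16 + (k₁ + (i : ℤ)) := by ring
        rw [this, zpow_add₀ (by norm_num)]
        norm_num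
      have hstep : ∀ i ∈ Finset.range m, II (A i) f g =
          (((2 : ℝ) ^ (k₁ + 16 + (i : ℤ)) * (2 : ℝ) ^ (k₁ + 16 + (i : ℤ)) : ℝ) : ℂ)⁻¹ *
            (∫ c : ℂ, WW (tl (A i) ((2 : ℝ) ^ (k₁ + 16 + (i : ℤ)))) f g (c, k₁ + 16 + i))
            + II (rr (A i) ((2 : ℝ) ^ (k₁ + 16 + (i : ℤ)))) f g := by
        intro i hi
        have hk := hA i (Finset.mem_range.1 hi)
        refine step (A i) (hk.continuous (hpos _)) _ (hpos _) hk.supp hk.even hk.mean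
          (k₁ + 16 + i) ?_ f g hf hfs hg hgs
        rw [hscale i]
        refine mul_le_mul_of_nonneg_right (by norm_num) (hpos _).le
      rw [Finset.sum_congr rfl hstep, Finset.sum_add_distrib]
      have h1 := hW w hw hwi hwi' K hK f g hf hfs hg hgs (k₁ + 16) m
        (fun i => tl (A i) ((2 : ℝ) ^ (k₁ + 16 + (i : ℤ))))
        (fun a => C₁ * κ * √(1 / 2 ^ a)) (C₁ * κ * S)
        (fun a => by positivity)
        (fun i hi => continuous_tl (A i) ((hA i hi).continuous (hpos _)) (hpos _))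
        (fun i hi => ⟨2 * (κ / ((2 : ℝ) ^ (k₁ + (i : ℤ))) ^ 2), fun z =>
          (norm_tl_le (A i) _ z).trans
            (mul_le_mul_of_nonneg_left ((hA i hi).bdd z) (by norm_num))⟩)
        (fun i hi z => tl_even (A i) _ (hA i hi).even z)
        (fun i hi => by
          have h := hcell κ _ (A i) (k₁ + 16 + i) hκ (hpos _) (hscale i) (hA i hi)
          have hfun : (fun a : ℕ => C₁ * κ * √(1 / 2 ^ a) / ((2 : ℝ) ^ (k₁ + 16 + (i : ℤ))) ^ 2) =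
              fun a : ℕ => C₁ * κ / ((2 : ℝ) ^ (k₁ + 16 + (i : ℤ))) ^ 2 * √(1 / 2 ^ a) := by
            funext a
            rw [mul_div_right_comm]
          rw [hfun]
          exact h)
        (fun N => by
          have hC1κ : 0 ≤ C₁ * κ := mul_nonneg hC₁.le hκ
          have h := mul_le_mul_of_nonneg_left (hSb K N) hC1κ
          refine le_trans (le_of_eq ?_) h
          rw [Finset.mul_sum]
          refine Finset.sum_congr rfl fun a _ => ?_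
          rw [Finset.mul_sum]
          refine Finset.sum_congr rfl fun b _ => ?_
          rw [← mul_min_of_nonneg _ _ hC1κ, mul_assoc])
      have h2 := ih (κ / 2) (by positivity) (k₁ + 16) m
        (fun i => rr (A i) ((2 : ℝ) ^ (k₁ + 16 + (i : ℤ))))
        (fun i hi => by
          have h := ker_rr hκ (hpos _) (hA i hi)
          rw [← hscale i] at h
          exact h)
      refine (norm_add_le _ _).trans ((add_le_add h1 h2).trans ?_)
      have h3 : (((2 : ℝ) ^ (k₁ + 16)) ^ 2)⁻¹ ≤ (((2 : ℝ) ^ k₁) ^ 2)⁻¹ := by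
        refine inv_anti₀ (by positivity) (pow_le_pow_left₀ (by positivity) ?_ 2)
        exact zpow_le_zpow_right₀ (by norm_num) (by omega)
      have h4 : (m * (κ / 2) * (((2 : ℝ) ^ (k₁ + 16)) ^ 2)⁻¹ * E) * (1 / 2) ^ p ≤
          (m * (κ / 2) * (((2 : ℝ) ^ k₁) ^ 2)⁻¹ * E) * (1 / 2) ^ p := by
        gcongr
      have h5 : (m * (κ / 2) * (((2 : ℝ) ^ k₁) ^ 2)⁻¹ * E) * (1 / 2) ^ p =
          (m * κ * (((2 : ℝ) ^ k₁) ^ 2)⁻¹ * E) * (1 / 2) ^ (p + 1) := by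
        rw [pow_succ]
        ring
      rw [← h5]
      have h6 : C₀ * K * (C₁ * κ * S) * Nf + 2 * (C₀ * C₁ * S) * (κ / 2) * K * Nf =
          2 * (C₀ * C₁ * S) * κ * K * Nf := by ring
      linarith
  intro κ hκ k₁ m A hA
  have hlim : Filter.Tendsto (fun p : ℕ => 2 * (C₀ * C₁ * S) * κ * K * Nf +
      (m * κ * (((2 : ℝ) ^ k₁) ^ 2)⁻¹ * E) * (1 / 2) ^ p) Filter.atTop
      (nhds (2 * (C₀ * C₁ * S) * κ * K * Nf + (m * κ * (((2 : ℝ) ^ k₁) ^ 2)⁻¹ * E) * 0)) :=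
    ((tendsto_pow_atTop_nhds_zero_of_lt_one (by norm_num) (by norm_num)).const_mul _).const_add _
  rw [mul_zero, add_zero] at hlim
  exact ge_of_tendsto' hlim fun p => key p κ hκ k₁ m A hA

end Pool.MP_75bf3e_an.BT
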