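import Pool.Agent.Lib_MP_75bf3e.Four2

/-!
# Piece ATRUNC: the truncated kernel integrals converge

Let `χ_N ζ = th (16|ζ|/2^N) - th (16|ζ|/2^{-N})`; by `An_sum` (`k₁ = -N`, `m = 2N`)
`Σ_{i<2N} An n (-N+i) ζ = Kn n ζ * χ_N ζ`, `|χ_N| ≤ 1`, `χ_N ζ → 1` for `ζ ≠ 0`.
`Σ II (An n (-N+i)) f g = ∫_x g x ∫_y (Kn χ_N)(x - y) f y dy dx` (finite sums of integrals; each `An` is continuous with
compact support, `f, g` continuous with compact support) and the inner integral is (`ζ = x - y`)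
`∫_ζ Kn χ_N f(x - ζ) = ∫_ζ Kn ζ χ_N ζ (fdiff f x ζ)` because `∫_{|ζ|≤1} Kn χ_N = 0` (rotation by `om n`: `Kn n (ωζ) = -Kn n ζ`,
`χ_N` is radial, `Kn χ_N` is bounded).  Dominated convergence in `ζ` (`integrable_Kn_fdiff`) gives the limit `Tn n f x`
(`Tn_eq`), the inner integrals are bounded by `B` (`fdiff_bound`); dominated convergence in `x` with the majorant `B |g x|`.
-/

set_option autoImplicit false

open MeasureTheory Filter

namespace Pool.MP_75bf3e_an.BT

private theorem th_zero' {r : ℝ} (h : 2 ≤ r) : th r = 0 := by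
  unfold th
  rw [max_eq_left]
  exact (min_le_right _ _).trans (by linarith)

private theorem th_one' {r : ℝ} (h : r ≤ 1) : th r = 1 := by
  unfold th
  rw [min_eq_left (by linarith), max_eq_right (by norm_num)]

private theorem th_nonneg' (r : ℝ) : 0 ≤ th r := le_max_left _ _

private theorem th_le_one' (r : ℝ) : th r ≤ 1 := by
  unfold th
  exact max_le (by norm_num) (min_le_left _ _)

theorem measurable_th : Measurable th := by
  unfold th
  fun_prop

theorem measurable_Kn (n : ℕ) : Measurable (Kn n) := by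
  unfold Kn
  have h1 : Measurable (fun z : ℂ => starRingEnd ℂ z) := Complex.continuous_conj.measurable
  have h2 : Measurable (fun z : ℂ => (((‖z‖ ^ 2 : ℝ)) : ℂ)) :=
    Complex.measurable_ofReal.comp (measurable_norm.pow_const 2)
  exact (((h1.div measurable_id).pow_const n).const_mul _).div h2

theorem measurable_An (n : ℕ) (k : ℤ) : Measurable (An n k) := by
  unfold An
  refine (measurable_Kn n).mul (Complex.measurable_ofReal.comp ?_)
  exact (measurable_th.comp ((measurable_norm.const_mul 8).div_const _)).sub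
    (measurable_th.comp ((measurable_norm.const_mul 16).div_const _))

theorem integrable_An (n : ℕ) (k : ℤ) : Integrable (An n k) volume := by
  have hsub : Function.support (An n k) ⊆ Metric.closedBall (0 : ℂ) ((2 : ℝ) ^ k / 4) := by
    intro z hz
    rw [Metric.mem_closedBall, dist_zero_right]
    by_contra hlt
    push Not at hlt
    exact hz (An_supp' n k z hlt.le)
  rw [← integrableOn_iff_integrable_of_support_subset hsub]
  refine Measure.integrableOn_of_bounded (M := 100 * n / ((2 : ℝ) ^ k) ^ 2) ?_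
    (measurable_An n k).aestronglyMeasurable
    (Filter.Eventually.of_forall fun z => norm_An_le n k z)
  exact (isCompact_closedBall _ _).measure_lt_top.ne

/-- the convolution of `An` with a continuous function with compact support -/
noncomputable def JJ (n : ℕ) (k : ℤ) (f : ℂ → ℝ) (x : ℂ) : ℂ :=
  ∫ ζ, An n k ζ * ((f (x - ζ) : ℝ) : ℂ)

theorem bdd_of {f : ℂ → ℝ} (hf : Continuous f) (hfs : HasCompactSupport f) :
    ∃ C : ℝ, ∀ z, |f z| ≤ C := by
  obtain ⟨C, hC⟩ := hf.bounded_above_of_compact_support hfs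
  exact ⟨C, fun z => by simpa [Real.norm_eq_abs] using hC z⟩

theorem integrable_An_mul (n : ℕ) (k : ℤ) (f : ℂ → ℝ) (hf : Continuous f) (hfs : HasCompactSupport f)
    (x : ℂ) : Integrable (fun ζ => An n k ζ * ((f (x - ζ) : ℝ) : ℂ)) volume := by
  obtain ⟨C, hC⟩ := bdd_of hf hfs
  refine (integrable_An n k).mul_bdd (c := C) ?_ (Filter.Eventually.of_forall fun ζ => ?_)
  · exact (Complex.continuous_ofReal.comp
      (hf.comp (continuous_const.sub continuous_id))).aestronglyMeasurable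
  · rw [Complex.norm_real, Real.norm_eq_abs]
    exact hC _

theorem continuous_JJ (n : ℕ) (k : ℤ) (f : ℂ → ℝ) (hf : Continuous f) (hfs : HasCompactSupport f) :
    Continuous (JJ n k f) := by
  obtain ⟨C, hC⟩ := bdd_of hf hfs
  unfold JJ
  refine continuous_of_dominated (bound := fun ζ => ‖An n k ζ‖ * C) ?_ ?_ ?_ ?_
  · intro x
    exact (integrable_An_mul n k f hf hfs x).aestronglyMeasurable
  · intro x
    refine Filter.Eventually.of_forall fun ζ => ?_
    rw [norm_mul, Complex.norm_real, Real.norm_eq_abs]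
    exact mul_le_mul_of_nonneg_left (hC _) (norm_nonneg _)
  · exact (integrable_An n k).norm.mul_const C
  · refine Filter.Eventually.of_forall fun ζ => ?_
    exact continuous_const.mul (Complex.continuous_ofReal.comp
      (hf.comp (continuous_id.sub continuous_const)))

theorem II_An (n : ℕ) (k : ℤ) (f g : ℂ → ℝ) :
    II (An n k) f g = ∫ x, JJ n k f x * ((g x : ℝ) : ℂ) := by
  unfold II
  refine integral_congr_ae (Filter.Eventually.of_forall fun x => ?_)
  show ∫ y, An n k (x - y) * ((f y * g x : ℝ) : ℂ) = JJ n k f x * ((g x : ℝ) : ℂ)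
  have h1 := integral_sub_left_eq_self
    (fun ζ => An n k ζ * ((f (x - ζ) * g x : ℝ) : ℂ)) (volume : Measure ℂ) x
  have h2 : (fun y => An n k (x - y) * ((f (x - (x - y)) * g x : ℝ) : ℂ)) =
      fun y => An n k (x - y) * ((f y * g x : ℝ) : ℂ) := by
    funext y
    rw [sub_sub_cancel]
  rw [h2] at h1
  rw [h1]
  unfold JJ
  rw [← integral_mul_const]
  refine integral_congr_ae (Filter.Eventually.of_forall fun ζ => ?_)
  show An n k ζ * ((f (x - ζ) * g x : ℝ) : ℂ) = An n k ζ * ((f (x - ζ) : ℝ) : ℂ) * ((g x : ℝ) : ℂ)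
  rw [Complex.ofReal_mul, mul_assoc]

private theorem om_norm' (n : ℕ) : ‖om n‖ = 1 := by
  unfold om
  rw [mul_comm]
  exact Complex.norm_exp_ofReal_mul_I _

open Classical in
/-- the integral of `An` over the unit disc vanishes -/
theorem An_disc (n : ℕ) (hn : 1 ≤ n) (k : ℤ) (c : ℂ) :
    ∫ ζ, An n k ζ * (if ‖ζ‖ ≤ 1 then c else 0) = 0 := by
  let e : Circle := ⟨om n, by simp [Submonoid.unitSphere, om_norm']⟩
  have h := (rotation e).measurePreserving.integral_comp
    (rotation e).toHomeomorph.measurableEmbedding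
    (fun ζ => An n k ζ * (if ‖ζ‖ ≤ 1 then c else 0))
  have h2 : ∀ z, An n k (rotation e z) * (if ‖rotation e z‖ ≤ 1 then c else 0) =
      -(An n k z * (if ‖z‖ ≤ 1 then c else 0)) := fun z => by
    rw [LinearIsometryEquiv.norm_map, rotation_apply]
    have : An n k ((e : ℂ) * z) = -An n k z := An_rot n hn k z
    rw [this, neg_mul]
  simp only [h2] at h
  rw [integral_neg] at h
  exact self_eq_neg.mp h.symm

open Classical in
theorem JJ_eq (n : ℕ) (hn : 1 ≤ n) (k : ℤ) (f : ℂ → ℝ) (hf : Continuous f)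
    (hfs : HasCompactSupport f) (x : ℂ) :
    Integrable (fun ζ => An n k ζ * fdiff (fun y => ((f y : ℝ) : ℂ)) x ζ) volume ∧
    JJ n k f x = ∫ ζ, An n k ζ * fdiff (fun y => ((f y : ℝ) : ℂ)) x ζ := by
  have h1 := integrable_An_mul n k f hf hfs x
  have h2 : Integrable (fun ζ => An n k ζ * (if ‖ζ‖ ≤ 1 then ((f x : ℝ) : ℂ) else 0)) volume := by
    refine (integrable_An n k).mul_bdd (c := |f x|) ?_ (Filter.Eventually.of_forall fun ζ => ?_)
    · refine (Measurable.ite ?_ measurable_const measurable_const).aestronglyMeasurable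
      exact measurableSet_le measurable_norm measurable_const
    · split_ifs
      · rw [Complex.norm_real, Real.norm_eq_abs]
      · rw [norm_zero]; exact abs_nonneg _
  have e : (fun ζ => An n k ζ * fdiff (fun y => ((f y : ℝ) : ℂ)) x ζ) =
      fun ζ => An n k ζ * ((f (x - ζ) : ℝ) : ℂ) -
        An n k ζ * (if ‖ζ‖ ≤ 1 then ((f x : ℝ) : ℂ) else 0) := by
    funext ζ
    unfold fdiff
    rw [mul_sub]
  rw [e]
  refine ⟨h1.sub h2, ?_⟩
  rw [integral_sub h1 h2, An_disc n hn, sub_zero]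
  rfl

/-- the cut-off -/
noncomputable def chi (N : ℕ) (ζ : ℂ) : ℝ :=
  th (16 * ‖ζ‖ / (2 : ℝ) ^ (-(N : ℤ) + ((2 * N : ℕ) : ℤ))) - th (16 * ‖ζ‖ / (2 : ℝ) ^ (-(N : ℤ)))

theorem abs_chi_le (N : ℕ) (ζ : ℂ) : |chi N ζ| ≤ 1 := by
  unfold chi
  rw [abs_le]
  constructor
  · linarith [th_nonneg' (16 * ‖ζ‖ / (2 : ℝ) ^ (-(N : ℤ) + ((2 * N : ℕ) : ℤ))),
      th_le_one' (16 * ‖ζ‖ / (2 : ℝ) ^ (-(N : ℤ)))]
  · linarith [th_nonneg' (16 * ‖ζ‖ / (2 : ℝ) ^ (-(N : ℤ))),
      th_le_one' (16 * ‖ζ‖ / (2 : ℝ) ^ (-(N : ℤ) + ((2 * N : ℕ) : ℤ)))]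

theorem chi_eventually (ζ : ℂ) (hζ : ζ ≠ 0) : ∀ᶠ N : ℕ in atTop, chi N ζ = 1 := by
  have hpos : 0 < ‖ζ‖ := norm_pos_iff.2 hζ
  have ht : Tendsto (fun N : ℕ => (2 : ℝ) ^ N) atTop atTop :=
    tendsto_pow_atTop_atTop_of_one_lt (by norm_num)
  filter_upwards [ht.eventually_ge_atTop (16 * ‖ζ‖), ht.eventually_ge_atTop (2 / (16 * ‖ζ‖))]
    with N h1 h2
  have e1 : (2 : ℝ) ^ (-(N : ℤ) + ((2 * N : ℕ) : ℤ)) = (2 : ℝ) ^ N := by
    have : (-(N : ℤ) + ((2 * N : ℕ) : ℤ)) = (N : ℤ) := by push_cast; ring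
    rw [this, zpow_natCast]
  have e2 : (2 : ℝ) ^ (-(N : ℤ)) = ((2 : ℝ) ^ N)⁻¹ := by rw [zpow_neg, zpow_natCast]
  unfold chi
  rw [e1, e2]
  have hp : (0 : ℝ) < (2 : ℝ) ^ N := by positivity
  rw [th_one' (r := 16 * ‖ζ‖ / (2 : ℝ) ^ N) (by rw [div_le_one hp]; exact h1),
    th_zero' (r := 16 * ‖ζ‖ / ((2 : ℝ) ^ N)⁻¹) ?_, sub_zero]
  rw [div_inv_eq_mul]
  rw [div_le_iff₀ (by positivity)] at h2
  linarith

theorem Kn_zero (n : ℕ) : Kn n 0 = 0 := by
  unfold Kn
  simp

theorem trunc (n : ℕ) (hn : 1 ≤ n) (f g : ℂ → ℝ) (hf : ContDiff ℝ ((⊤ : ℕ∞) : WithTop ℕ∞) f)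
    (hfs : HasCompactSupport f) (hg : Continuous g) (hgs : HasCompactSupport g) :
    Tendsto (fun N : ℕ => ∑ i ∈ Finset.range (2 * N), II (An n (-(N : ℤ) + i)) f g) atTop
      (nhds (∫ x : ℂ, Tn n (fun y => ((f y : ℝ) : ℂ)) x * ((g x : ℝ) : ℂ))) := by
  have hfc : Continuous f := hf.continuous
  have hF : ContDiff ℝ ((⊤ : ℕ∞) : WithTop ℕ∞) (fun y => ((f y : ℝ) : ℂ)) :=
    Complex.ofRealCLM.contDiff.comp hf
  have hFs : HasCompactSupport (fun y => ((f y : ℝ) : ℂ)) :=
    hfs.comp_left (g := fun t : ℝ => (t : ℂ)) Complex.ofReal_zero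
  obtain ⟨B, hB⟩ := fdiff_bound n hn _ hF hFs
  have hint := integrable_Kn_fdiff n hn _ hF hFs
  have hgC : Continuous (fun x => ((g x : ℝ) : ℂ)) := Complex.continuous_ofReal.comp hg
  have hgsC : HasCompactSupport (fun x => ((g x : ℝ) : ℂ)) :=
    hgs.comp_left (g := fun t : ℝ => (t : ℂ)) Complex.ofReal_zero
  -- the sums
  have hL : ∀ (N : ℕ) (x : ℂ), ∑ i ∈ Finset.range (2 * N), JJ n (-(N : ℤ) + i) f x =
      ∫ ζ, Kn n ζ * fdiff (fun y => ((f y : ℝ) : ℂ)) x ζ * ((chi N ζ : ℝ) : ℂ) := by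
    intro N x
    have h1 : ∀ i ∈ Finset.range (2 * N), JJ n (-(N : ℤ) + i) f x =
        ∫ ζ, An n (-(N : ℤ) + i) ζ * fdiff (fun y => ((f y : ℝ) : ℂ)) x ζ :=
      fun i _ => (JJ_eq n hn _ f hfc hfs x).2
    rw [Finset.sum_congr rfl h1, ← integral_finsetSum _ (fun i _ => (JJ_eq n hn _ f hfc hfs x).1)]
    refine integral_congr_ae (Filter.Eventually.of_forall fun ζ => ?_)
    show ∑ i ∈ Finset.range (2 * N), An n (-(N : ℤ) + i) ζ * fdiff (fun y => ((f y : ℝ) : ℂ)) x ζ = _
    rw [← Finset.sum_mul, An_sum]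
    unfold chi
    ring
  have hsum : ∀ N : ℕ, ∑ i ∈ Finset.range (2 * N), II (An n (-(N : ℤ) + i)) f g =
      ∫ x, (∑ i ∈ Finset.range (2 * N), JJ n (-(N : ℤ) + i) f x) * ((g x : ℝ) : ℂ) := by
    intro N
    have h1 : ∀ i ∈ Finset.range (2 * N), II (An n (-(N : ℤ) + i)) f g =
        ∫ x, JJ n (-(N : ℤ) + i) f x * ((g x : ℝ) : ℂ) := fun i _ => II_An n _ f g
    rw [Finset.sum_congr rfl h1, ← integral_finsetSum]
    · refine integral_congr_ae (Filter.Eventually.of_forall fun x => ?_)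
      show ∑ i ∈ Finset.range (2 * N), JJ n (-(N : ℤ) + i) f x * ((g x : ℝ) : ℂ) =
        (∑ i ∈ Finset.range (2 * N), JJ n (-(N : ℤ) + i) f x) * ((g x : ℝ) : ℂ)
      rw [Finset.sum_mul]
    · intro i _
      exact ((continuous_JJ n _ f hfc hfs).mul hgC).integrable_of_hasCompactSupport hgsC.mul_left
  simp only [hsum]
  refine tendsto_integral_of_dominated_convergence (fun x => B * |g x|) ?_ ?_ ?_ ?_
  · intro N
    refine (Continuous.mul ?_ hgC).aestronglyMeasurable
    exact continuous_finsetSum _ fun i _ => continuous_JJ n _ f hfc hfs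
  · exact (hg.integrable_of_hasCompactSupport hgs).norm.const_mul B
  · intro N
    refine Filter.Eventually.of_forall fun x => ?_
    rw [norm_mul, Complex.norm_real, Real.norm_eq_abs]
    refine mul_le_mul_of_nonneg_right ?_ (abs_nonneg _)
    rw [hL]
    refine (norm_integral_le_integral_norm _).trans (le_trans ?_ (hB x))
    refine integral_mono_of_nonneg (Filter.Eventually.of_forall fun ζ => norm_nonneg _)
      (hint x).norm (Filter.Eventually.of_forall fun ζ => ?_)
    show ‖Kn n ζ * fdiff (fun y => ((f y : ℝ) : ℂ)) x ζ * ((chi N ζ : ℝ) : ℂ)‖ ≤ _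
    rw [norm_mul, Complex.norm_real, Real.norm_eq_abs]
    exact mul_le_of_le_one_right (norm_nonneg _) (abs_chi_le N ζ)
  · refine Filter.Eventually.of_forall fun x => ?_
    refine Tendsto.mul_const _ ?_
    simp only [hL]
    rw [Tn_eq n hn _ hF hFs]
    refine tendsto_integral_of_dominated_convergence
      (fun ζ => ‖Kn n ζ * fdiff (fun y => ((f y : ℝ) : ℂ)) x ζ‖) ?_ (hint x).norm ?_ ?_
    · intro N
      refine (hint x).aestronglyMeasurable.mul ?_
      refine (Complex.measurable_ofReal.comp ?_).aestronglyMeasurable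
      unfold chi
      exact (measurable_th.comp ((measurable_norm.const_mul 16).div_const _)).sub
        (measurable_th.comp ((measurable_norm.const_mul 16).div_const _))
    · intro N
      refine Filter.Eventually.of_forall fun ζ => ?_
      rw [norm_mul, Complex.norm_real, Real.norm_eq_abs]
      exact mul_le_of_le_one_right (norm_nonneg _) (abs_chi_le N ζ)
    · refine Filter.Eventually.of_forall fun ζ => ?_
      by_cases hζ : ζ = 0
      · subst hζ
        simp only [Kn_zero, zero_mul]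
        exact tendsto_const_nhds
      · refine tendsto_const_nhds.congr' ?_
        filter_upwards [chi_eventually ζ hζ] with N hN
        rw [hN, Complex.ofReal_one, mul_one]

end Pool.MP_75bf3e_an.BT
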