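import Pool.Agent.Lib_MP_75bf3e.NSum
import Pool.Agent.Lib_MP_75bf3e.Trunc
import Pool.Agent.Lib_MP_75bf3e.Dual
import Pool.Agent.Lib_MP_75bf3e.A2Sq

/-!
# Piece AMAIN: the theorem for `p = 2`

1. `n ≥ 1`, `f` real smooth with compact support, `g` real continuous with compact support: `nSum` (uniformly in the
   number of scales) and `trunc` give
   `‖∫ Tn n f * g‖ ≤ C n K' √(min K' (1 + log n)) √((∫ f^2 w) (∫ g^2 w⁻¹))`, `K' = 4 K` (`a2_sq`, `one_le_a2`).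
2. `dual` with `h = Tn n f` (`continuous_Tn`), `B = C n K' √(min K' (1+log n)) √(∫ f^2 w)`:
   `∫⁻ ‖Tn n f‖^2 w ≤ 2 B^2`, and `ofReal (∫ f^2 w) = ∫⁻ ‖f‖ₑ^2 ofReal w`.
3. Complex `f = f₁ + i f₂` (real and imaginary parts are smooth with compact support): `Tn_add`, `Tn_smul`,
   `‖a + b‖^2 ≤ 2‖a‖^2 + 2‖b‖^2`, `|f_j| ≤ |f|`.
4. `n < 0`: `Tn_neg` with `-n` and `conj f`.
5. `√(min (4K) (1+log n)) ≤ 2 √(min K (1 + log n))`.
(If `∫⁻ ‖f‖ₑ^2 w` were infinite there would be nothing to prove; it is finite since `f` is bounded with compact support.)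
-/

set_option autoImplicit false

open MeasureTheory

namespace Pool.MP_75bf3e_an.BT

theorem bilin : ∃ C : ℝ, 0 < C ∧ ∀ (w : ℂ → ℝ), (∀ z, 0 < w z) → LocallyIntegrable w volume →
    LocallyIntegrable (fun z => (w z)⁻¹) volume → ∀ K : ℝ,
    (∀ P : ℂ × ℤ, mn w P * mn (fun z => (w z)⁻¹) P ≤ K) → 1 ≤ K →
    ∀ (f g : ℂ → ℝ), ContDiff ℝ ((⊤ : ℕ∞) : WithTop ℕ∞) f → HasCompactSupport f → Continuous g →
    HasCompactSupport g → ∀ (n : ℕ), 1 ≤ n →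
    ‖∫ x : ℂ, Tn n (fun y => ((f y : ℝ) : ℂ)) x * ((g x : ℝ) : ℂ)‖
      ≤ C * n * K * √(min K (1 + Real.log n)) * √((∫ z, f z ^ 2 * w z) * ∫ z, g z ^ 2 * (w z)⁻¹) := by
  obtain ⟨C, hC, h⟩ := nSum
  refine ⟨C, hC, fun w hw h1 h2 K hK hK1 f g hf hfs hg hgs n hn => ?_⟩
  refine le_of_tendsto (trunc n hn f g hf hfs hg hgs).norm (Filter.Eventually.of_forall fun N => ?_)
  exact h w hw h1 h2 K hK hK1 f g hf.continuous hfs hg hgs n hn (-(N : ℤ)) (2 * N)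

private theorem amain_min (K x : ℝ) (hK : 1 ≤ K) (hx : 0 ≤ x) :
    √(min (4 * K) (1 + x)) ≤ 2 * √(min K (1 + x)) := by
  have h : min (4 * K) (1 + x) ≤ 2 ^ 2 * min K (1 + x) := by
    rcases le_total K (1 + x) with h | h
    · rw [min_eq_left h]
      exact (min_le_left _ _).trans (by linarith)
    · rw [min_eq_right h]
      exact (min_le_right _ _).trans (by nlinarith)
  refine (Real.sqrt_le_sqrt h).trans_eq ?_
  rw [Real.sqrt_mul (by norm_num), Real.sqrt_sq (by norm_num)]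

private theorem amain_int (w : ℂ → ℝ) (hw : ∀ z, 0 < w z) (h1 : LocallyIntegrable w volume)
    (f : ℂ → ℝ) (hf : Continuous f) (hfs : HasCompactSupport f) :
    ENNReal.ofReal (∫ z, f z ^ 2 * w z) = ∫⁻ z, ENNReal.ofReal (f z ^ 2) * ENNReal.ofReal (w z) := by
  have hi : Integrable (fun z => f z ^ 2 * w z) volume := by
    have hs : HasCompactSupport (fun z => f z ^ 2) :=
      hfs.comp_left (g := fun t : ℝ => t ^ 2) (by norm_num)
    have := h1.integrable_smul_left_of_hasCompactSupport (g := fun z => f z ^ 2) (hf.pow 2) hs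
    simpa [smul_eq_mul] using this
  rw [ofReal_integral_eq_lintegral_ofReal hi
    (Filter.Eventually.of_forall fun z => mul_nonneg (sq_nonneg _) (hw z).le)]
  refine lintegral_congr fun z => ?_
  rw [ENNReal.ofReal_mul (sq_nonneg _)]

/-- the real case -/
private theorem amain_real : ∃ C : ℝ, 0 < C ∧ ∀ w : ℂ → ℝ, (∀ z, 0 < w z) →
    LocallyIntegrable w volume → LocallyIntegrable (fun z => (w z)⁻¹) volume → ∀ K : ℝ,
    (∀ c : ℂ, ∀ r : ℝ, 0 < r →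
      ((volume (Metric.ball c r)).toReal⁻¹ * ∫ z in Metric.ball c r, w z) *
        ((volume (Metric.ball c r)).toReal⁻¹ * ∫ z in Metric.ball c r, (w z)⁻¹) ≤ K) →
    ∀ f : ℂ → ℝ, ContDiff ℝ ((⊤ : ℕ∞) : WithTop ℕ∞) f → HasCompactSupport f → ∀ n : ℕ, 1 ≤ n →
    ∫⁻ z : ℂ, ‖Tn n (fun y => ((f y : ℝ) : ℂ)) z‖ₑ ^ (2 : ℝ) * ENNReal.ofReal (w z)
      ≤ ENNReal.ofReal (2 * (C * n * K * √(min K (1 + Real.log n))) ^ 2) *
          ∫⁻ z, ENNReal.ofReal (f z ^ 2) * ENNReal.ofReal (w z) := by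
  obtain ⟨C, hC, hb⟩ := bilin
  refine ⟨8 * C, by positivity, fun w hw h1 h2 K hK f hf hfs n hn => ?_⟩
  have hK1 : 1 ≤ K := one_le_a2 w hw h1 h2 K hK
  have hK4 := a2_sq w hw h1 h2 K hK
  have hlog : 0 ≤ Real.log n := Real.log_natCast_nonneg n
  have hn0 : (0 : ℝ) < n := by exact_mod_cast hn
  have hI : 0 ≤ ∫ z, f z ^ 2 * w z := integral_nonneg fun z => mul_nonneg (sq_nonneg _) (hw z).le
  set D : ℝ := 8 * C * n * K * √(min K (1 + Real.log n)) with hD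
  have hD0 : 0 ≤ D := by positivity
  have hF : ContDiff ℝ ((⊤ : ℕ∞) : WithTop ℕ∞) (fun y => ((f y : ℝ) : ℂ)) :=
    Complex.ofRealCLM.contDiff.comp hf
  have hFs : HasCompactSupport (fun y => ((f y : ℝ) : ℂ)) :=
    hfs.comp_left (g := fun t : ℝ => (t : ℂ)) Complex.ofReal_zero
  have key := dual w hw h1 h2 (Tn n (fun y => ((f y : ℝ) : ℂ))) (continuous_Tn n _ hF hFs)
    (D * √(∫ z, f z ^ 2 * w z)) (mul_nonneg hD0 (Real.sqrt_nonneg _)) (fun g hg hgs => ?_)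
  · refine key.trans ?_
    rw [← amain_int w hw h1 f hf.continuous hfs, ← ENNReal.ofReal_mul (by positivity)]
    refine ENNReal.ofReal_le_ofReal (le_of_eq ?_)
    rw [mul_pow, Real.sq_sqrt hI]
    ring
  · refine (hb w hw h1 h2 (4 * K) hK4 (by linarith) f g hf hfs hg hgs n hn).trans ?_
    rw [Real.sqrt_mul hI, ← mul_assoc]
    refine mul_le_mul_of_nonneg_right (mul_le_mul_of_nonneg_right ?_ (Real.sqrt_nonneg _))
      (Real.sqrt_nonneg _)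
    calc C * n * (4 * K) * √(min (4 * K) (1 + Real.log n))
        ≤ C * n * (4 * K) * (2 * √(min K (1 + Real.log n))) :=
          mul_le_mul_of_nonneg_left (amain_min K _ hK1 hlog) (by positivity)
      _ = D := by rw [hD]; ring

private theorem amain_sq (a b : ℂ) : ‖a + b‖ₑ ^ (2 : ℝ) ≤
    2 * (‖a‖ₑ ^ (2 : ℝ) + ‖b‖ₑ ^ (2 : ℝ)) := by
  have h : ‖a + b‖ ^ 2 ≤ 2 * (‖a‖ ^ 2 + ‖b‖ ^ 2) := by
    have h1 := norm_add_le a b
    have h2 := norm_nonneg (a + b)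
    nlinarith [sq_nonneg (‖a‖ - ‖b‖)]
  have e : ∀ x : ℂ, ‖x‖ₑ ^ (2 : ℝ) = ENNReal.ofReal (‖x‖ ^ 2) := by
    intro x
    rw [← ofReal_norm_eq_enorm, ← Real.rpow_natCast, ENNReal.ofReal_rpow_of_nonneg (norm_nonneg _)
      (by norm_num)]
    norm_num
  rw [e, e, e, ← ENNReal.ofReal_add (sq_nonneg _) (sq_nonneg _)]
  have h2 : (2 : ENNReal) = ENNReal.ofReal 2 := by norm_num
  rw [h2, ← ENNReal.ofReal_mul (by norm_num)]
  exact ENNReal.ofReal_le_ofReal h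

/-- complex functions, positive powers -/
private theorem amain_cplx : ∃ C : ℝ, 0 < C ∧ ∀ w : ℂ → ℝ, (∀ z, 0 < w z) →
    LocallyIntegrable w volume → LocallyIntegrable (fun z => (w z)⁻¹) volume → ∀ K : ℝ,
    (∀ c : ℂ, ∀ r : ℝ, 0 < r →
      ((volume (Metric.ball c r)).toReal⁻¹ * ∫ z in Metric.ball c r, w z) *
        ((volume (Metric.ball c r)).toReal⁻¹ * ∫ z in Metric.ball c r, (w z)⁻¹) ≤ K) →
    ∀ f : ℂ → ℂ, ContDiff ℝ ((⊤ : ℕ∞) : WithTop ℕ∞) f → HasCompactSupport f → ∀ n : ℕ, 1 ≤ n →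
    ∫⁻ z : ℂ, ‖Tn n f z‖ₑ ^ (2 : ℝ) * ENNReal.ofReal (w z)
      ≤ ENNReal.ofReal ((C * n * K * √(min K (1 + Real.log n))) ^ 2) *
          ∫⁻ z : ℂ, ‖f z‖ₑ ^ (2 : ℝ) * ENNReal.ofReal (w z) := by
  obtain ⟨C, hC, hb⟩ := amain_real
  refine ⟨2 * C, by positivity, fun w hw h1 h2 K hK f hf hfs n hn => ?_⟩
  have hf1 : ContDiff ℝ ((⊤ : ℕ∞) : WithTop ℕ∞) (fun z => (f z).re) := Complex.reCLM.contDiff.comp hf
  have hf2 : ContDiff ℝ ((⊤ : ℕ∞) : WithTop ℕ∞) (fun z => (f z).im) := Complex.imCLM.contDiff.comp hf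
  have hs1 : HasCompactSupport (fun z => (f z).re) := hfs.comp_left (g := Complex.re) Complex.zero_re
  have hs2 : HasCompactSupport (fun z => (f z).im) := hfs.comp_left (g := Complex.im) Complex.zero_im
  have hg1 : ContDiff ℝ ((⊤ : ℕ∞) : WithTop ℕ∞) (fun z => (((f z).re : ℝ) : ℂ)) :=
    Complex.ofRealCLM.contDiff.comp hf1
  have hg2 : ContDiff ℝ ((⊤ : ℕ∞) : WithTop ℕ∞) (fun z => (((f z).im : ℝ) : ℂ)) :=
    Complex.ofRealCLM.contDiff.comp hf2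
  have hgs1 : HasCompactSupport (fun z => (((f z).re : ℝ) : ℂ)) :=
    hs1.comp_left (g := fun t : ℝ => (t : ℂ)) Complex.ofReal_zero
  have hgs2 : HasCompactSupport (fun z => (((f z).im : ℝ) : ℂ)) :=
    hs2.comp_left (g := fun t : ℝ => (t : ℂ)) Complex.ofReal_zero
  have hg3 : ContDiff ℝ ((⊤ : ℕ∞) : WithTop ℕ∞) (fun z => Complex.I * (((f z).im : ℝ) : ℂ)) :=
    contDiff_const.mul hg2
  have hgs3 : HasCompactSupport (fun z => Complex.I * (((f z).im : ℝ) : ℂ)) :=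
    hgs2.comp_left (g := fun t : ℂ => Complex.I * t) (mul_zero _)
  have hfe : f = fun z => (((f z).re : ℝ) : ℂ) + Complex.I * (((f z).im : ℝ) : ℂ) := by
    funext z
    rw [mul_comm]
    exact (Complex.re_add_im (f z)).symm
  have hT : ∀ z, Tn n f z = Tn n (fun z => (((f z).re : ℝ) : ℂ)) z +
      Complex.I * Tn n (fun z => (((f z).im : ℝ) : ℂ)) z := by
    intro z
    conv_lhs => rw [hfe]
    rw [Tn_add n _ _ hg1 hgs1 hg3 hgs3, Tn_smul]
  have b1 := hb w hw h1 h2 K hK _ hf1 hs1 n hn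
  have b2 := hb w hw h1 h2 K hK _ hf2 hs2 n hn
  have hm1 : Measurable fun z => ‖Tn n (fun z => (((f z).re : ℝ) : ℂ)) z‖ₑ ^ (2 : ℝ) :=
    ((continuous_Tn n _ hg1 hgs1).measurable.enorm).pow_const _
  have hm2 : Measurable fun z => ENNReal.ofReal ((f z).re ^ 2) :=
    ((hf1.continuous.measurable).pow_const 2).ennreal_ofReal
  have hwm : AEMeasurable (fun z => ENNReal.ofReal (w z)) volume :=
    h1.aestronglyMeasurable.aemeasurable.ennreal_ofReal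
  have hq1 : AEMeasurable (fun z => ‖Tn n (fun z => (((f z).re : ℝ) : ℂ)) z‖ₑ ^ (2 : ℝ) *
      ENNReal.ofReal (w z)) volume := hm1.aemeasurable.mul hwm
  have hq2 : AEMeasurable (fun z => ENNReal.ofReal ((f z).re ^ 2) * ENNReal.ofReal (w z)) volume :=
    hm2.aemeasurable.mul hwm
  set E : ENNReal := ENNReal.ofReal (2 * (C * n * K * √(min K (1 + Real.log n))) ^ 2) with hE
  calc ∫⁻ z : ℂ, ‖Tn n f z‖ₑ ^ (2 : ℝ) * ENNReal.ofReal (w z)
      ≤ ∫⁻ z : ℂ, 2 * (‖Tn n (fun z => (((f z).re : ℝ) : ℂ)) z‖ₑ ^ (2 : ℝ) * ENNReal.ofReal (w z) +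
          ‖Tn n (fun z => (((f z).im : ℝ) : ℂ)) z‖ₑ ^ (2 : ℝ) * ENNReal.ofReal (w z)) := by
        refine lintegral_mono fun z => ?_
        rw [hT z]
        have := amain_sq (Tn n (fun z => (((f z).re : ℝ) : ℂ)) z)
          (Complex.I * Tn n (fun z => (((f z).im : ℝ) : ℂ)) z)
        rw [enorm_mul] at this
        have hI : ‖Complex.I‖ₑ = 1 := by
          rw [← ofReal_norm_eq_enorm, Complex.norm_I, ENNReal.ofReal_one]
        rw [hI, one_mul] at this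
        calc _ ≤ 2 * (‖Tn n (fun z => (((f z).re : ℝ) : ℂ)) z‖ₑ ^ (2 : ℝ) +
              ‖Tn n (fun z => (((f z).im : ℝ) : ℂ)) z‖ₑ ^ (2 : ℝ)) * ENNReal.ofReal (w z) := by
                gcongr
          _ = _ := by ring
    _ = 2 * ((∫⁻ z : ℂ, ‖Tn n (fun z => (((f z).re : ℝ) : ℂ)) z‖ₑ ^ (2 : ℝ) * ENNReal.ofReal (w z)) +
          ∫⁻ z : ℂ, ‖Tn n (fun z => (((f z).im : ℝ) : ℂ)) z‖ₑ ^ (2 : ℝ) * ENNReal.ofReal (w z)) := by
        rw [lintegral_const_mul' _ _ (by norm_num), lintegral_add_left' hq1]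
    _ ≤ 2 * (E * (∫⁻ z, ENNReal.ofReal ((f z).re ^ 2) * ENNReal.ofReal (w z)) +
          E * ∫⁻ z, ENNReal.ofReal ((f z).im ^ 2) * ENNReal.ofReal (w z)) := by
        gcongr
    _ = 2 * E * ∫⁻ z : ℂ, ‖f z‖ₑ ^ (2 : ℝ) * ENNReal.ofReal (w z) := by
        rw [← mul_add, ← lintegral_add_left' hq2, mul_assoc]
        congr 2
        refine lintegral_congr fun z => ?_
        rw [← add_mul, ← ENNReal.ofReal_add (sq_nonneg _) (sq_nonneg _)]
        congr 1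
        rw [← ofReal_norm_eq_enorm, ENNReal.ofReal_rpow_of_nonneg (norm_nonneg _) (by norm_num)]
        congr 1
        have h3 : ‖f z‖ ^ (2 : ℝ) = ‖f z‖ ^ 2 := by norm_num
        rw [h3, ← Complex.normSq_eq_norm_sq, Complex.normSq_apply]
        ring
    _ = _ := by
        congr 1
        have h2 : (2 : ENNReal) = ENNReal.ofReal 2 := by norm_num
        rw [hE, h2, ← ENNReal.ofReal_mul (by norm_num)]
        congr 1
        ring

theorem mainTwo : ∃ C : ℝ, 0 < C ∧ ∀ n : ℤ, n ≠ 0 → ∀ w : ℂ → ℝ, (∀ z, 0 < w z) →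
    LocallyIntegrable w volume → LocallyIntegrable (fun z => (w z)⁻¹) volume → ∀ K : ℝ,
    (∀ c : ℂ, ∀ r : ℝ, 0 < r →
      ((volume (Metric.ball c r)).toReal⁻¹ * ∫ z in Metric.ball c r, w z) *
        ((volume (Metric.ball c r)).toReal⁻¹ * ∫ z in Metric.ball c r, (w z)⁻¹) ≤ K) →
    ∀ f : ℂ → ℂ, ContDiff ℝ ((⊤ : ℕ∞) : WithTop ℕ∞) f → HasCompactSupport f →
    ∫⁻ z : ℂ, ‖Tn n f z‖ₑ ^ (2 : ℝ) * ENNReal.ofReal (w z)
      ≤ ENNReal.ofReal ((C * |(n : ℝ)| * K * √(min K (1 + Real.log |(n : ℝ)|))) ^ 2) *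
          ∫⁻ z : ℂ, ‖f z‖ₑ ^ (2 : ℝ) * ENNReal.ofReal (w z) := by
  obtain ⟨C, hC, hb⟩ := amain_cplx
  refine ⟨C, hC, fun n hn w hw h1 h2 K hK f hf hfs => ?_⟩
  rcases lt_or_gt_of_ne hn with h | h
  · obtain ⟨m, hm⟩ : ∃ m : ℕ, n = -(m : ℤ) := ⟨n.natAbs, by omega⟩
    subst hm
    have hm1 : 1 ≤ m := by omega
    have hc : ContDiff ℝ ((⊤ : ℕ∞) : WithTop ℕ∞) (fun x => starRingEnd ℂ (f x)) :=
      Complex.conjCLE.contDiff.comp hf
    have hcs : HasCompactSupport (fun x => starRingEnd ℂ (f x)) :=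
      hfs.comp_left (g := fun t : ℂ => starRingEnd ℂ t) (map_zero _)
    have hbb := hb w hw h1 h2 K hK _ hc hcs m hm1
    have e1 : |((-(m : ℤ) : ℤ) : ℝ)| = m := by
      push_cast
      rw [abs_neg, abs_of_nonneg (Nat.cast_nonneg _)]
    rw [e1]
    have e2 : ∀ z, ‖Tn (-(m : ℤ)) f z‖ₑ = ‖Tn m (fun x => starRingEnd ℂ (f x)) z‖ₑ := by
      intro z
      have h3 := Tn_neg (m : ℤ) (fun x => starRingEnd ℂ (f x)) z
      simp only [Complex.conj_conj] at h3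
      have h4 : Tn (-(m : ℤ)) f z = starRingEnd ℂ (Tn m (fun x => starRingEnd ℂ (f x)) z) := h3
      rw [h4, ← ofReal_norm_eq_enorm, ← ofReal_norm_eq_enorm, RCLike.norm_conj]
    have e3 : ∀ z, ‖f z‖ₑ = ‖starRingEnd ℂ (f z)‖ₑ := by
      intro z
      rw [← ofReal_norm_eq_enorm, ← ofReal_norm_eq_enorm, RCLike.norm_conj]
    simp only [e2, e3]
    exact hbb
  · obtain ⟨m, hm⟩ : ∃ m : ℕ, n = (m : ℤ) := ⟨n.natAbs, by omega⟩
    subst hm
    have hm1 : 1 ≤ m := by omega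
    have hbb := hb w hw h1 h2 K hK _ hf hfs m hm1
    have e1 : |((m : ℤ) : ℝ)| = m := by
      push_cast
      rw [abs_of_nonneg (Nat.cast_nonneg _)]
    rw [e1]
    exact hbb

end Pool.MP_75bf3e_an.BT
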