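import Pool.Agent.Lib_MP_75bf3e.Step

/-! # Definitions: the kernel of the multiplier at one scale -/

set_option autoImplicit false

open MeasureTheory

namespace Pool.MP_75bf3e_an.BT

noncomputable def Kn (n : ℕ) (z : ℂ) : ℂ :=
  (-1) ^ n * ((n : ℂ) / (Real.pi : ℂ)) * (starRingEnd ℂ z / z) ^ n / (((‖z‖ ^ 2 : ℝ)) : ℂ)

noncomputable def th (r : ℝ) : ℝ := max 0 (min 1 (2 - r))

noncomputable def An (n : ℕ) (k : ℤ) (z : ℂ) : ℂ :=
  Kn n z * ((th (8 * ‖z‖ / (2 : ℝ) ^ k) - th (16 * ‖z‖ / (2 : ℝ) ^ k) : ℝ) : ℂ)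

/-- the rotation number -/
noncomputable def om (n : ℕ) : ℂ := Complex.exp (Complex.I * ((Real.pi / (2 * n) : ℝ) : ℂ))

end Pool.MP_75bf3e_an.BT
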