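import Pool.Agent.Lib_MP_75bf3e.NKDefs

/-!
# Piece ANKA: the kernel of `(ξ̄/ξ)^n` at one scale

`Kn n z = (-1)^n (n/π) (z̄/z)^n/|z|^2`, `th r = min 1 (2 - r)` cut at `0` (`= 1` for `r ≤ 1`, `= 0` for `r ≥ 2`, Lipschitz),
`An n k z = Kn n z * (th (8|z|/l) - th (16|z|/l))` with `l = 2^k`: supported in `l/16 ≤ |z| ≤ l/4`.

ANKA (this file): basic facts.
* `An_supp`, `An_even` (`(-z)‾/(-z) = z̄/z`), `norm_An_le`: `(n/π) (16/l)^2 = (256/π) n/l^2`.
* `An_rot`: with `ω = exp(iπ/(2n))`: `(ωz)‾/(ωz) = ω^{-2} z̄/z`, `ω^{-2n} = e^{-iπ} = -1`, so `An n k (ω z) = - An n k z`.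
* `An_mean`: the rotation `z ↦ ω z` preserves the Lebesgue measure (a linear isometry, or
  `Complex` `rotation` as a `LinearIsometryEquiv`), so `∫ An = ∫ An (ω z) = - ∫ An`.
* `An_lip`: `‖An z - An z'‖ ≤ C n^2 l^{-3} ‖z - z'‖`.  Write `An z = (z̄/z)^n Λ(z)`, `Λ z = ± (n/π) φ(|z|)`,
  `φ(r) = (th (8r/l) - th (16r/l))/r^2`.  `φ` is bounded by `256/l^2`, vanishes for `r ≤ l/16`, and is Lipschitz with
  constant `C/l^3` (`th` is 1-Lipschitz and `1/r^2` is Lipschitz with constant `2 (16/l)^3` on `[l/16, ∞)`).  If both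
  `|z|, |z'| ≥ l/16`: `|(z̄/z)^n - (z̄'/z')^n| ≤ n |z̄/z - z̄'/z'| ≤ 2 n |z - z'|/|z|` (unit complex numbers);
  if `|z'| < l/16` then `An z' = 0` and `Λ z' = 0`, `‖An z‖ = |Λ z - Λ z'|`.
* `An_sum`: telescoping.
* `tl_lip`: `‖tl z - tl z'‖ ≤ C n^2 l^{-3}‖z-z'‖` because `1/max(tent,1/2) ≤ 2` is Lipschitz with constant
  `4 * 2/l` (`tent` is Lipschitz with constant `2/l`) and `‖An‖ ≤ C n/l^2`.
* `tl_rot`: `‖tl (ω z) + tl z‖ = ‖An z‖ |1/max(tent z,1/2) - 1/max(tent(ωz),1/2)| ≤ (C n/l^2) * 4 * (2/l) |ω - 1| |z|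
  ≤ C/l^2` as `|ω - 1| ≤ π/(2n)` and `|z| ≤ l/4` on the support.
-/

set_option autoImplicit false

open MeasureTheory

namespace Pool.MP_75bf3e_an.BT

private theorem th_zero {r : ℝ} (h : 2 ≤ r) : th r = 0 := by
  unfold th
  rw [max_eq_left]
  exact (min_le_right _ _).trans (by linarith)

private theorem th_one {r : ℝ} (h : r ≤ 1) : th r = 1 := by
  unfold th
  rw [min_eq_left (by linarith), max_eq_right (by norm_num)]

private theorem th_nonneg (r : ℝ) : 0 ≤ th r := le_max_left _ _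

private theorem th_le_one (r : ℝ) : th r ≤ 1 := by
  unfold th
  exact max_le (by norm_num) (min_le_left _ _)

theorem An_supp' (n : ℕ) (k : ℤ) (z : ℂ) (h : (2 : ℝ) ^ k / 4 ≤ ‖z‖) : An n k z = 0 := by
  have hl : (0 : ℝ) < (2 : ℝ) ^ k := by positivity
  unfold An
  rw [th_zero (r := 8 * ‖z‖ / (2 : ℝ) ^ k) (by rw [le_div_iff₀ hl]; linarith),
    th_zero (r := 16 * ‖z‖ / (2 : ℝ) ^ k) (by rw [le_div_iff₀ hl]; linarith)]
  simp

theorem An_supp (n : ℕ) (k : ℤ) (z : ℂ)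
    (h : (2 : ℝ) ^ k / 4 ≤ |z.re| ∨ (2 : ℝ) ^ k / 4 ≤ |z.im|) : An n k z = 0 := by
  apply An_supp'
  rcases h with h | h
  · exact h.trans (Complex.abs_re_le_norm z)
  · exact h.trans (Complex.abs_im_le_norm z)

theorem An_even (n : ℕ) (k : ℤ) (z : ℂ) : An n k (-z) = An n k z := by
  unfold An Kn
  rw [norm_neg, map_neg, neg_div_neg_eq]

theorem norm_An_le (n : ℕ) (k : ℤ) (z : ℂ) : ‖An n k z‖ ≤ 100 * n / ((2 : ℝ) ^ k) ^ 2 := by
  have hl : (0 : ℝ) < (2 : ℝ) ^ k := by positivity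
  set l : ℝ := (2 : ℝ) ^ k with hldef
  by_cases hz : ‖z‖ ≤ l / 16
  · have h0 : An n k z = 0 := by
      unfold An
      rw [← hldef, th_one (r := 8 * ‖z‖ / l) (by rw [div_le_iff₀ hl]; linarith [norm_nonneg z]),
        th_one (r := 16 * ‖z‖ / l) (by rw [div_le_iff₀ hl]; linarith)]
      simp
    rw [h0, norm_zero]
    positivity
  · push Not at hz
    have hr : 0 < ‖z‖ := lt_of_le_of_lt (by positivity) hz
    unfold An Kn
    rw [← hldef]
    have h1 : ‖(starRingEnd ℂ z / z) ^ n‖ ≤ 1 := by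
      rw [norm_pow, norm_div, RCLike.norm_conj, div_self hr.ne', one_pow]
    have h2 : |th (8 * ‖z‖ / l) - th (16 * ‖z‖ / l)| ≤ 1 := by
      rw [abs_le]
      constructor
      · linarith [th_nonneg (8 * ‖z‖ / l), th_le_one (16 * ‖z‖ / l)]
      · linarith [th_nonneg (16 * ‖z‖ / l), th_le_one (8 * ‖z‖ / l)]
    rw [norm_mul, norm_div, norm_mul, norm_mul, norm_pow, norm_neg, norm_one, one_pow, one_mul,
      norm_div, Complex.norm_natCast, Complex.norm_real, Complex.norm_real, Complex.norm_real,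
      Real.norm_eq_abs, Real.norm_eq_abs, Real.norm_eq_abs, abs_of_pos Real.pi_pos,
      abs_of_nonneg (by positivity : (0 : ℝ) ≤ ‖z‖ ^ 2)]
    have hpi : (3 : ℝ) < Real.pi := Real.pi_gt_three
    have h3 : (n : ℝ) / Real.pi * ‖(starRingEnd ℂ z / z) ^ n‖ / ‖z‖ ^ 2 ≤ 100 * n / l ^ 2 := by
      have h4 : (n : ℝ) / Real.pi * ‖(starRingEnd ℂ z / z) ^ n‖ ≤ n / 3 := by
        calc (n : ℝ) / Real.pi * ‖(starRingEnd ℂ z / z) ^ n‖ ≤ n / Real.pi * 1 := by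
              apply mul_le_mul_of_nonneg_left h1 (by positivity)
          _ ≤ n / 3 := by
              rw [mul_one]
              apply div_le_div_of_nonneg_left (by positivity) (by norm_num) hpi.le
      have h5 : (l / 16) ^ 2 ≤ ‖z‖ ^ 2 := by
        apply pow_le_pow_left₀ (by positivity) hz.le
      rw [div_le_div_iff₀ (by positivity) (by positivity)]
      have h6 : (n : ℝ) / Real.pi * ‖(starRingEnd ℂ z / z) ^ n‖ * l ^ 2 ≤ n / 3 * l ^ 2 :=
        mul_le_mul_of_nonneg_right h4 (by positivity)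
      have h7 : (n : ℝ) * (l / 16) ^ 2 ≤ n * ‖z‖ ^ 2 :=
        mul_le_mul_of_nonneg_left h5 (by positivity)
      have h8 : (0 : ℝ) ≤ n * ‖z‖ ^ 2 := by positivity
      nlinarith [h6, h7, h8]
    calc (n : ℝ) / Real.pi * ‖(starRingEnd ℂ z / z) ^ n‖ / ‖z‖ ^ 2 * |th (8 * ‖z‖ / l) - th (16 * ‖z‖ / l)|
        ≤ (n : ℝ) / Real.pi * ‖(starRingEnd ℂ z / z) ^ n‖ / ‖z‖ ^ 2 * 1 := by
          apply mul_le_mul_of_nonneg_left h2 (by positivity)
      _ ≤ 100 * n / l ^ 2 := by rw [mul_one]; exact h3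

private theorem om_norm (n : ℕ) : ‖om n‖ = 1 := by
  unfold om
  rw [mul_comm]
  exact Complex.norm_exp_ofReal_mul_I _

private theorem om_pow (n : ℕ) (hn : 1 ≤ n) : (starRingEnd ℂ (om n) / om n) ^ n = -1 := by
  have hn' : (n : ℂ) ≠ 0 := by exact_mod_cast (by omega : n ≠ 0)
  have h1 : starRingEnd ℂ (om n) = Complex.exp (-(Complex.I * ((Real.pi / (2 * n) : ℝ) : ℂ))) := by
    unfold om
    rw [← Complex.exp_conj, map_mul, Complex.conj_I, Complex.conj_ofReal, neg_mul]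
  rw [h1]
  unfold om
  rw [← Complex.exp_sub, ← Complex.exp_nat_mul]
  have h2 : (n : ℂ) * (-(Complex.I * ((Real.pi / (2 * n) : ℝ) : ℂ)) - Complex.I * ((Real.pi / (2 * n) : ℝ) : ℂ))
      = -(Real.pi * Complex.I) := by
    push_cast
    field_simp
    ring
  rw [h2, Complex.exp_neg, Complex.exp_pi_mul_I]
  norm_num

theorem An_rot (n : ℕ) (hn : 1 ≤ n) (k : ℤ) (z : ℂ) : An n k (om n * z) = - An n k z := by
  unfold An Kn
  rw [norm_mul, om_norm, one_mul, map_mul, mul_div_mul_comm, mul_pow, om_pow n hn]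
  ring

theorem An_mean (n : ℕ) (hn : 1 ≤ n) (k : ℤ) : ∫ z, An n k z = 0 := by
  let c : Circle := ⟨om n, by simp [Submonoid.unitSphere, om_norm]⟩
  have h := (rotation c).measurePreserving.integral_comp
    (rotation c).toHomeomorph.measurableEmbedding (An n k)
  have h2 : ∀ z, An n k (rotation c z) = - An n k z := fun z => by
    rw [rotation_apply]
    exact An_rot n hn k z
  simp_rw [h2] at h
  rw [integral_neg] at h
  have h3 := self_eq_neg.mp h.symm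
  exact h3

theorem An_sum (n : ℕ) (k₁ : ℤ) (m : ℕ) (z : ℂ) :
    ∑ i ∈ Finset.range m, An n (k₁ + i) z
      = Kn n z * ((th (16 * ‖z‖ / (2 : ℝ) ^ (k₁ + m)) - th (16 * ‖z‖ / (2 : ℝ) ^ k₁) : ℝ) : ℂ) := by
  have h1 : ∀ i ∈ Finset.range m, An n (k₁ + i) z
      = Kn n z * (((th (16 * ‖z‖ / (2 : ℝ) ^ (k₁ + ((i + 1 : ℕ) : ℤ))) : ℝ) : ℂ) -
          ((th (16 * ‖z‖ / (2 : ℝ) ^ (k₁ + ((i : ℕ) : ℤ))) : ℝ) : ℂ)) := by
    intro i _
    unfold An
    have h2 : 16 * ‖z‖ / (2 : ℝ) ^ (k₁ + ((i + 1 : ℕ) : ℤ)) = 8 * ‖z‖ / (2 : ℝ) ^ (k₁ + (i : ℤ)) := by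
      push_cast
      rw [← add_assoc, zpow_add_one₀ (by norm_num : (2 : ℝ) ≠ 0)]
      have : (0 : ℝ) < (2 : ℝ) ^ (k₁ + (i : ℤ)) := by positivity
      field_simp
      ring
    rw [h2]
    push_cast
    ring
  rw [Finset.sum_congr rfl h1, ← Finset.mul_sum,
    Finset.sum_range_sub (fun i : ℕ => ((th (16 * ‖z‖ / (2 : ℝ) ^ (k₁ + (i : ℤ))) : ℝ) : ℂ)) m]
  push_cast
  simp

end Pool.MP_75bf3e_an.BT
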