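import Pool.Agent.Lib_MP_75bf3e.KerSum

/-!
# Piece ANSUM: the sum over the scales for the kernel of the power `n`

By `step` with `A = An n (k₁+i)`, `D = 2^(k₁+i)/4`, `k = k₁+i` (`An_supp, An_even, An_mean, continuous_An`),
`II (An n k) f g = l^{-2} ∫_c WW (tl (An n k) l) f g (c,k) + II (rr (An n k) l) f g`.
* The remainders are in `Ker κ` at scale `2^k`, with an absolute `κ` (`ker_An`): `kerSum` bounds their sum by
  `C κ K Nf ≤ C n K √(min K (1 + log n)) Nf` (`1 ≤ K`, `1 ≤ n`).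
* The first terms: `sum_WW_le` with `μ a = C n min(n/2^a, 2^a/n)` (`cell_An`).  One has to bound
  `Σ_{a,b<N} min(μ a)(μ b) √(min K (max a b + 1)) ≤ C' n √(min K (1 + log n))`.
  With `m a = min(n/2^a, 2^a/n)`, `min (m a) (m b) ≤ √(m a) √(m b)`,
  `min K (max a b + 1) ≤ (min K (1 + log n)) * (2 + |a - log₂ n|) (2 + |b - log₂ n|)` up to a constant
  (`max a b + 1 ≤ (1 + log₂ n)(1 + |a - log₂ n|)(1 + |b - log₂ n|)` and `K ≤ K * ...`), and
  `m a ≤ 2 * 2^{-|a - A|}` with `A = Nat.log 2 n`, so the sum is at most a constant times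
  `n √(min K (1+log n)) (Σ_a 2^{-|a-A|/2} √(2 + |a-A|))^2`.
  (`Nat.log 2 n ≤ log n/log 2 ≤ 2 log n`; `2^A ≤ n < 2^(A+1)`.)
-/

set_option autoImplicit false

open MeasureTheory

namespace Pool.MP_75bf3e_an.BT

/-- distance in `ℕ` by truncated subtraction -/
private theorem ansum_geo (A : ℕ) : ∀ N : ℕ,
    ∑ a ∈ Finset.range N, ((5 : ℝ) / 6) ^ ((a - A) + (A - a)) ≤ 11 - 5 * ((5 : ℝ) / 6) ^ A := by
  induction A with
  | zero =>
    intro N
    have h1 : ∀ N : ℕ, ∑ a ∈ Finset.range N, ((5 : ℝ) / 6) ^ ((a - 0) + (0 - a)) = 6 - 6 * ((5 : ℝ) / 6) ^ N := by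
      intro N
      induction N with
      | zero => simp
      | succ N ih =>
        rw [Finset.sum_range_succ, ih, pow_succ]
        simp only [Nat.sub_zero, Nat.zero_sub, add_zero]
        ring
    rw [h1]
    have h2 : (0 : ℝ) ≤ ((5 : ℝ) / 6) ^ N := by positivity
    rw [pow_zero]
    linarith
  | succ A ih =>
    intro N
    rcases N with _ | N
    · rw [Finset.range_zero, Finset.sum_empty]
      have h2 : ((5 : ℝ) / 6) ^ (A + 1) ≤ 1 := pow_le_one₀ (by norm_num) (by norm_num)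
      linarith
    · rw [Finset.sum_range_succ']
      have h1 : ∀ a ∈ Finset.range N, ((5 : ℝ) / 6) ^ ((a + 1 - (A + 1)) + (A + 1 - (a + 1)))
          = ((5 : ℝ) / 6) ^ ((a - A) + (A - a)) := by
        intro a _
        congr 1
        omega
      rw [Finset.sum_congr rfl h1]
      have h2 := ih N
      have h3 : (0 - (A + 1)) + (A + 1 - 0) = A + 1 := by omega
      rw [h3]
      have h4 : ((5 : ℝ) / 6) ^ (A + 1) = ((5 : ℝ) / 6) ^ A * (5 / 6) := pow_succ _ _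
      rw [h4]
      have h5 : (0 : ℝ) ≤ ((5 : ℝ) / 6) ^ A := by positivity
      linarith

private theorem ansum_t (t : ℕ) : (1 + (t : ℝ)) * (1 / 2) ^ t ≤ 4 * ((5 : ℝ) / 6) ^ t * ((5 : ℝ) / 6) ^ t := by
  have h1 : 1 + (t : ℝ) * (1 / 3) ≤ (1 + 1 / 3) ^ t := one_add_mul_le_pow (by norm_num) t
  have h2 : (1 + (t : ℝ)) ≤ 3 * (4 / 3 : ℝ) ^ t := by
    have h3 : (1 + 1 / 3 : ℝ) = 4 / 3 := by norm_num
    rw [h3] at h1
    linarith
  have h4 : (0 : ℝ) ≤ (1 / 2) ^ t := by positivity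
  calc (1 + (t : ℝ)) * (1 / 2) ^ t ≤ 3 * (4 / 3 : ℝ) ^ t * (1 / 2) ^ t := mul_le_mul_of_nonneg_right h2 h4
    _ = 3 * (2 / 3 : ℝ) ^ t := by
        rw [mul_assoc, ← mul_pow]
        norm_num
    _ ≤ 4 * (25 / 36 : ℝ) ^ t := by
        have h5 : (2 / 3 : ℝ) ^ t ≤ (25 / 36 : ℝ) ^ t := pow_le_pow_left₀ (by norm_num) (by norm_num) t
        have h6 : (0 : ℝ) ≤ (25 / 36 : ℝ) ^ t := by positivity
        linarith
    _ = 4 * ((5 : ℝ) / 6) ^ t * ((5 : ℝ) / 6) ^ t := by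
        rw [mul_assoc, ← mul_pow]
        norm_num

private theorem ansum_m (n : ℕ) (hn : 1 ≤ n) (a : ℕ) :
    min ((n : ℝ) / 2 ^ a) (2 ^ a / (n : ℝ)) ≤ 2 * (1 / 2 : ℝ) ^ ((a - Nat.log 2 n) + (Nat.log 2 n - a)) := by
  have h1 : 2 ^ Nat.log 2 n ≤ n := Nat.pow_log_le_self 2 (by omega)
  have h2 : n < 2 ^ (Nat.log 2 n + 1) := Nat.lt_pow_succ_log_self (by norm_num) n
  generalize Nat.log 2 n = A at *
  have h1r : (2 : ℝ) ^ A ≤ n := by exact_mod_cast h1
  have h2r : (n : ℝ) ≤ 2 ^ (A + 1) := by exact_mod_cast h2.le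
  have hn0 : (0 : ℝ) < n := by exact_mod_cast hn
  rcases le_total A a with h | h
  · refine (min_le_left _ _).trans ?_
    obtain ⟨d, rfl⟩ := Nat.exists_eq_add_of_le h
    have h3 : (A + d - A) + (A - (A + d)) = d := by omega
    rw [h3, div_le_iff₀ (by positivity)]
    calc (n : ℝ) ≤ 2 ^ (A + 1) := h2r
      _ = 2 * (1 / 2 : ℝ) ^ d * 2 ^ (A + d) := by
          rw [pow_add, pow_add, one_div, inv_pow]
          field_simp
  · refine (min_le_right _ _).trans ?_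
    obtain ⟨d, rfl⟩ := Nat.exists_eq_add_of_le h
    have h3 : (a - (a + d)) + (a + d - a) = d := by omega
    rw [h3, div_le_iff₀ hn0]
    calc (2 : ℝ) ^ a = (1 / 2 : ℝ) ^ d * 2 ^ (a + d) := by
          rw [pow_add, one_div, inv_pow]
          field_simp
      _ ≤ (1 / 2 : ℝ) ^ d * n := mul_le_mul_of_nonneg_left h1r (by positivity)
      _ ≤ 2 * (1 / 2 : ℝ) ^ d * n := by
          have h4 : 0 ≤ (1 / 2 : ℝ) ^ d * n := by positivity
          linarith

private theorem ansum_log (n : ℕ) (hn : 1 ≤ n) : 1 + (Nat.log 2 n : ℝ) ≤ 2 * (1 + Real.log n) := by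
  have h1 : 2 ^ Nat.log 2 n ≤ n := Nat.pow_log_le_self 2 (by omega)
  have h1r : (2 : ℝ) ^ (Nat.log 2 n) ≤ n := by exact_mod_cast h1
  have h2 := Real.log_le_log (by positivity) h1r
  rw [Real.log_pow] at h2
  have h3 := Real.log_two_gt_d9
  have h4 : (0 : ℝ) ≤ (Nat.log 2 n : ℝ) := Nat.cast_nonneg _
  nlinarith

private theorem ansum_min {K x F : ℝ} (hK : 0 ≤ K) (hF : 1 ≤ F) :
    min K (F * x) ≤ F * min K x := by
  rcases le_total K x with h | h
  · rw [min_eq_left h]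
    refine (min_le_left _ _).trans ?_
    nlinarith
  · rw [min_eq_right h]
    exact min_le_right _ _

private theorem ansum_sqrt {x y z w : ℝ} (hx : 0 ≤ x) (hz : 0 ≤ z) (h : x * x * y ≤ z * z * w) :
    x * √y ≤ z * √w := by
  have h1 : √(x * x * y) ≤ √(z * z * w) := Real.sqrt_le_sqrt h
  rwa [Real.sqrt_mul (mul_self_nonneg x), Real.sqrt_mul (mul_self_nonneg z), Real.sqrt_mul_self hx,
    Real.sqrt_mul_self hz] at h1

private theorem ansum_theta (K : ℝ) (hK : 1 ≤ K) (n : ℕ) (hn : 1 ≤ n) (N : ℕ) :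
    ∑ a ∈ Finset.range N, ∑ b ∈ Finset.range N,
        min (min ((n : ℝ) / 2 ^ a) (2 ^ a / (n : ℝ))) (min ((n : ℝ) / 2 ^ b) (2 ^ b / (n : ℝ)))
          * √(min K ((max a b : ℕ) + 1)) ≤ 1452 * √(min K (1 + Real.log n)) := by
  set A := Nat.log 2 n with hA
  have hn0 : (0 : ℝ) < n := by exact_mod_cast hn
  have hlog : 0 ≤ Real.log n := Real.log_natCast_nonneg n
  have hterm : ∀ a b : ℕ,
      min (min ((n : ℝ) / 2 ^ a) (2 ^ a / (n : ℝ))) (min ((n : ℝ) / 2 ^ b) (2 ^ b / (n : ℝ)))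
          * √(min K ((max a b : ℕ) + 1))
        ≤ 12 * (((5 : ℝ) / 6) ^ ((a - A) + (A - a)) * ((5 : ℝ) / 6) ^ ((b - A) + (A - b)))
          * √(min K (1 + Real.log n)) := by
    intro a b
    have hma := ansum_m n hn a
    have hmb := ansum_m n hn b
    rw [← hA] at hma hmb
    have hma0 : 0 ≤ min ((n : ℝ) / 2 ^ a) (2 ^ a / (n : ℝ)) := le_min (by positivity) (by positivity)
    have hmb0 : 0 ≤ min ((n : ℝ) / 2 ^ b) (2 ^ b / (n : ℝ)) := le_min (by positivity) (by positivity)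
    generalize min ((n : ℝ) / 2 ^ a) (2 ^ a / (n : ℝ)) = ma at *
    generalize min ((n : ℝ) / 2 ^ b) (2 ^ b / (n : ℝ)) = mb at *
    have hta := ansum_t ((a - A) + (A - a))
    have htb := ansum_t ((b - A) + (A - b))
    have hda : a ≤ A + ((a - A) + (A - a)) := by omega
    have hdb : b ≤ A + ((b - A) + (A - b)) := by omega
    generalize (a - A) + (A - a) = da at *
    generalize (b - A) + (A - b) = db at *
    apply ansum_sqrt (le_min hma0 hmb0) (by positivity)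
    have h1 : min ma mb * min ma mb ≤ ma * mb :=
      mul_le_mul (min_le_left _ _) (min_le_right _ _) (le_min hma0 hmb0) hma0
    have h2 : ma * mb ≤ (2 * (1 / 2 : ℝ) ^ da) * (2 * (1 / 2 : ℝ) ^ db) :=
      mul_le_mul hma hmb hmb0 (by positivity)
    have hdar : (a : ℝ) ≤ A + da := by exact_mod_cast hda
    have hdbr : (b : ℝ) ≤ A + db := by exact_mod_cast hdb
    have hA0 : (0 : ℝ) ≤ (A : ℝ) := Nat.cast_nonneg _
    have hda0 : (0 : ℝ) ≤ (da : ℝ) := Nat.cast_nonneg _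
    have hdb0 : (0 : ℝ) ≤ (db : ℝ) := Nat.cast_nonneg _
    have h3 : (((max a b : ℕ) : ℝ) + 1) ≤ ((1 + (da : ℝ)) * (1 + (db : ℝ))) * (2 * (1 + Real.log n)) := by
      have h4 : 1 + (A : ℝ) ≤ 2 * (1 + Real.log n) := ansum_log n hn
      have h5 : (((max a b : ℕ) : ℝ) + 1) ≤ ((1 + (da : ℝ)) * (1 + (db : ℝ))) * (1 + A) := by
        have h7 : 0 ≤ (da : ℝ) * db := mul_nonneg hda0 hdb0
        have h8 : 0 ≤ (da : ℝ) * A := mul_nonneg hda0 hA0
        have h9 : 0 ≤ (db : ℝ) * A := mul_nonneg hdb0 hA0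
        have h10 : 0 ≤ (da : ℝ) * db * A := mul_nonneg h7 hA0
        rcases le_total a b with h | h
        · rw [max_eq_right h]; nlinarith
        · rw [max_eq_left h]; nlinarith
      refine h5.trans (mul_le_mul_of_nonneg_left h4 (by positivity))
    have h6 : min K (((max a b : ℕ) : ℝ) + 1)
        ≤ ((1 + (da : ℝ)) * (1 + (db : ℝ))) * 2 * min K (1 + Real.log n) := by
      refine (min_le_min_left K h3).trans ?_
      rw [← mul_assoc]
      apply ansum_min (by linarith)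
      nlinarith [mul_nonneg hda0 hdb0]
    have hS0 : 0 ≤ min K (1 + Real.log n) := le_min (by linarith) (by linarith)
    have hM0 : 0 ≤ min K (((max a b : ℕ) : ℝ) + 1) := le_min (by linarith) (by positivity)
    calc min ma mb * min ma mb * min K (((max a b : ℕ) : ℝ) + 1)
        ≤ ((2 * (1 / 2 : ℝ) ^ da) * (2 * (1 / 2 : ℝ) ^ db)) *
          (((1 + (da : ℝ)) * (1 + (db : ℝ))) * 2 * min K (1 + Real.log n)) :=
          mul_le_mul (h1.trans h2) h6 hM0 (by positivity)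
      _ = 8 * (((1 + (da : ℝ)) * (1 / 2) ^ da) * ((1 + (db : ℝ)) * (1 / 2) ^ db)) * min K (1 + Real.log n) := by
          ring
      _ ≤ 8 * ((4 * ((5 : ℝ) / 6) ^ da * ((5 : ℝ) / 6) ^ da) * (4 * ((5 : ℝ) / 6) ^ db * ((5 : ℝ) / 6) ^ db))
            * min K (1 + Real.log n) := by
          apply mul_le_mul_of_nonneg_right _ hS0
          apply mul_le_mul_of_nonneg_left _ (by norm_num)
          exact mul_le_mul hta htb (by positivity) (by positivity)
      _ ≤ _ := by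
          have h11 : 0 ≤ (((5 : ℝ) / 6) ^ da * ((5 : ℝ) / 6) ^ da) * (((5 : ℝ) / 6) ^ db * ((5 : ℝ) / 6) ^ db)
            * min K (1 + Real.log n) := by positivity
          nlinarith
  calc _ ≤ ∑ a ∈ Finset.range N, ∑ b ∈ Finset.range N,
        12 * (((5 : ℝ) / 6) ^ ((a - A) + (A - a)) * ((5 : ℝ) / 6) ^ ((b - A) + (A - b)))
          * √(min K (1 + Real.log n)) :=
        Finset.sum_le_sum fun a _ => Finset.sum_le_sum fun b _ => hterm a b
    _ = 12 * ((∑ a ∈ Finset.range N, ((5 : ℝ) / 6) ^ ((a - A) + (A - a))) *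
          (∑ b ∈ Finset.range N, ((5 : ℝ) / 6) ^ ((b - A) + (A - b)))) * √(min K (1 + Real.log n)) := by
        rw [Finset.sum_mul_sum, Finset.mul_sum, Finset.sum_mul]
        refine Finset.sum_congr rfl fun a _ => ?_
        rw [Finset.mul_sum, Finset.sum_mul]
    _ ≤ 12 * (11 * 11) * √(min K (1 + Real.log n)) := by
        have h1 := ansum_geo A N
        have h2 : (0 : ℝ) ≤ ((5 : ℝ) / 6) ^ A := by positivity
        have h3 : ∑ a ∈ Finset.range N, ((5 : ℝ) / 6) ^ ((a - A) + (A - a)) ≤ 11 := by linarith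
        have h4 : (0 : ℝ) ≤ ∑ a ∈ Finset.range N, ((5 : ℝ) / 6) ^ ((a - A) + (A - a)) :=
          Finset.sum_nonneg fun a _ => by positivity
        apply mul_le_mul_of_nonneg_right _ (Real.sqrt_nonneg _)
        apply mul_le_mul_of_nonneg_left _ (by norm_num)
        exact mul_le_mul h3 h3 h4 (by norm_num)
    _ = 1452 * √(min K (1 + Real.log n)) := by norm_num

theorem nSum : ∃ C : ℝ, 0 < C ∧ ∀ (w : ℂ → ℝ), (∀ z, 0 < w z) → LocallyIntegrable w volume →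
    LocallyIntegrable (fun z => (w z)⁻¹) volume → ∀ K : ℝ,
    (∀ P : ℂ × ℤ, mn w P * mn (fun z => (w z)⁻¹) P ≤ K) → 1 ≤ K →
    ∀ (f g : ℂ → ℝ), Continuous f → HasCompactSupport f → Continuous g → HasCompactSupport g →
    ∀ (n : ℕ), 1 ≤ n → ∀ (k₁ : ℤ) (m : ℕ),
    ‖∑ i ∈ Finset.range m, II (An n (k₁ + i)) f g‖
      ≤ C * n * K * √(min K (1 + Real.log n)) * √((∫ z, f z ^ 2 * w z) * ∫ z, g z ^ 2 * (w z)⁻¹) := by
  obtain ⟨C₀, hC₀, hsum⟩ := sum_WW_le
  obtain ⟨C₁, hC₁, hker⟩ := kerSum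
  obtain ⟨κ, hκ, hkA⟩ := ker_An
  obtain ⟨C₂, hC₂, hcell⟩ := cell_An
  refine ⟨1452 * C₀ * C₂ + C₁ * κ, by positivity, ?_⟩
  intro w hw hw1 hw2 K hKb hK f g hf hfs hg hgs n hn k₁ m
  have hn1 : (1 : ℝ) ≤ n := by exact_mod_cast hn
  have hlog : 0 ≤ Real.log n := Real.log_natCast_nonneg n
  have hS1 : 1 ≤ √(min K (1 + Real.log n)) := by
    rw [Real.one_le_sqrt]
    exact le_min hK (by linarith)
  have hθ : ∀ N : ℕ, ∑ a ∈ Finset.range N, ∑ b ∈ Finset.range N,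
        min (C₂ * n * min ((n : ℝ) / 2 ^ a) (2 ^ a / (n : ℝ))) (C₂ * n * min ((n : ℝ) / 2 ^ b) (2 ^ b / (n : ℝ)))
          * √(min K ((max a b : ℕ) + 1)) ≤ C₂ * n * (1452 * √(min K (1 + Real.log n))) := by
    intro N
    refine le_trans (le_of_eq ?_)
      (mul_le_mul_of_nonneg_left (ansum_theta K hK n hn N) (by positivity : (0 : ℝ) ≤ C₂ * n))
    rw [Finset.mul_sum]
    refine Finset.sum_congr rfl fun a _ => ?_
    rw [Finset.mul_sum]
    refine Finset.sum_congr rfl fun b _ => ?_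
    rw [← mul_min_of_nonneg _ _ (by positivity : (0 : ℝ) ≤ C₂ * n)]
    ring
  have h1 := hsum w hw hw1 hw2 K hKb f g hf hfs hg hgs k₁ m
    (fun i => tl (An n (k₁ + i)) ((2 : ℝ) ^ (k₁ + (i : ℤ))))
    (fun a => C₂ * n * min ((n : ℝ) / 2 ^ a) (2 ^ a / (n : ℝ)))
    (C₂ * n * (1452 * √(min K (1 + Real.log n))))
    (fun a => mul_nonneg (by positivity) (le_min (by positivity) (by positivity)))
    (fun i _ => continuous_tl _ (continuous_An n hn _) (by positivity))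
    (fun i _ => ⟨2 * (100 * n / ((2 : ℝ) ^ (k₁ + (i : ℤ))) ^ 2), fun z =>
      (norm_tl_le _ _ z).trans (mul_le_mul_of_nonneg_left (norm_An_le n _ z) (by norm_num))⟩)
    (fun i _ z => by
      unfold tl tent
      rw [An_even, Complex.neg_re, Complex.neg_im, abs_neg, abs_neg])
    (fun i _ => by
      have h2 := hcell n hn (k₁ + (i : ℤ))
      have h3 : (fun a : ℕ => C₂ * n / ((2 : ℝ) ^ (k₁ + (i : ℤ))) ^ 2 * min ((n : ℝ) / 2 ^ a) (2 ^ a / (n : ℝ)))
          = (fun a : ℕ => C₂ * n * min ((n : ℝ) / 2 ^ a) (2 ^ a / (n : ℝ)) / ((2 : ℝ) ^ (k₁ + (i : ℤ))) ^ 2) := by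
        funext a
        ring
      rw [h3] at h2
      exact h2)
    hθ
  have h2 := hker w hw hw1 hw2 K hKb f g hf hfs hg hgs κ hκ.le k₁ m
    (fun i => rr (An n (k₁ + i)) ((2 : ℝ) ^ (k₁ + (i : ℤ))))
    (fun i _ => hkA n hn (k₁ + (i : ℤ)))
  have h3 : ∀ i ∈ Finset.range m, II (An n (k₁ + i)) f g
      = (((2 : ℝ) ^ (k₁ + (i : ℤ)) * (2 : ℝ) ^ (k₁ + (i : ℤ)) : ℝ) : ℂ)⁻¹ *
        (∫ c : ℂ, WW (tl (An n (k₁ + i)) ((2 : ℝ) ^ (k₁ + (i : ℤ)))) f g (c, k₁ + i))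
        + II (rr (An n (k₁ + i)) ((2 : ℝ) ^ (k₁ + (i : ℤ)))) f g := by
    intro i _
    exact step (An n (k₁ + i)) (continuous_An n hn _) ((2 : ℝ) ^ (k₁ + (i : ℤ)) / 4) (by positivity)
      (An_supp n _) (An_even n _) (An_mean n hn _) (k₁ + i) (by linarith) f g hf hfs hg hgs
  rw [Finset.sum_congr rfl h3, Finset.sum_add_distrib]
  refine (norm_add_le _ _).trans ?_
  refine (add_le_add h1 h2).trans ?_
  have hK0 : 0 ≤ K := by linarith
  have hNf : 0 ≤ √((∫ z, f z ^ 2 * w z) * ∫ z, g z ^ 2 * (w z)⁻¹) := Real.sqrt_nonneg _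
  generalize √((∫ z, f z ^ 2 * w z) * ∫ z, g z ^ 2 * (w z)⁻¹) = Nf at *
  generalize √(min K (1 + Real.log n)) = S at *
  have h5 : C₁ * κ * K * Nf ≤ C₁ * κ * (n * S) * K * Nf := by
    have h6 : 1 ≤ (n : ℝ) * S := by nlinarith
    have h7 : 0 ≤ C₁ * κ * K * Nf := by positivity
    nlinarith
  calc C₀ * K * (C₂ * n * (1452 * S)) * Nf + C₁ * κ * K * Nf
      ≤ C₀ * K * (C₂ * n * (1452 * S)) * Nf + C₁ * κ * (n * S) * K * Nf := by linarith
    _ = (1452 * C₀ * C₂ + C₁ * κ) * n * K * S * Nf := by ring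

end Pool.MP_75bf3e_an.BT
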