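import Pool.Agent.Lib_MP_75bf3e.Tree

/-!
# Piece ASQ: half open squares in `ℂ`

`sq c l` is the half open square with lower left corner `c` and side `l`.  The tree of this library is
`ℂ × ℤ`: the node `(c, k)` stands for the square `sq c (2^k)`, its children are the four half squares.

* `sq c l = {z | z.re ∈ [c.re, c.re+l), z.im ∈ [c.im, c.im+l)}`; use
  `Complex.volume_preserving_equiv_real_prod` and `Real.volume_Ico` for the volume.
* `setIntegral_sq`: the square is the disjoint union of its four children.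
* `volume_corner`: `{c | z ∈ sq c l}` is (up to the position of the boundary) the square
  `(z.re - l, z.re] × (z.im - l, z.im]`, of volume `l^2`.
-/

set_option autoImplicit false

open MeasureTheory

namespace Pool.MP_75bf3e_an.BT

/-- the half open square with lower left corner `c` and side `l` -/
def sq (c : ℂ) (l : ℝ) : Set ℂ :=
  {z | c.re ≤ z.re ∧ z.re < c.re + l ∧ c.im ≤ z.im ∧ z.im < c.im + l}

/-- the four shifts -/
def shf : Fin 4 → ℂ
  | 0 => 0
  | 1 => 1
  | 2 => Complex.I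
  | 3 => 1 + Complex.I

/-- the children of the node `(c, k)` -/
noncomputable def chC (i : Fin 4) (P : ℂ × ℤ) : ℂ × ℤ :=
  (P.1 + shf i * (2 : ℂ) ^ (P.2 - 1), P.2 - 1)

/-- the square of a node -/
noncomputable def sqn (P : ℂ × ℤ) : Set ℂ := sq P.1 ((2 : ℝ) ^ P.2)

/-- the mean of a real function over the square of a node -/
noncomputable def mn (F : ℂ → ℝ) (P : ℂ × ℤ) : ℝ := ((2 : ℝ) ^ P.2 * (2 : ℝ) ^ P.2)⁻¹ * ∫ z in sqn P, F z

theorem sq_eq_preimage (c : ℂ) (l : ℝ) : sq c l = Complex.measurableEquivRealProd ⁻¹'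
    (Set.Ico c.re (c.re + l) ×ˢ Set.Ico c.im (c.im + l)) := by
  ext z
  simp only [sq, Set.mem_ofPred_eq, Set.mem_preimage, Complex.measurableEquivRealProd_apply,
    Set.mem_prod, Set.mem_Ico, and_assoc]

theorem measurableSet_sq (c : ℂ) (l : ℝ) : MeasurableSet (sq c l) := by
  rw [sq_eq_preimage]
  exact Complex.measurableEquivRealProd.measurable (measurableSet_Ico.prod measurableSet_Ico)

theorem volume_sq (c : ℂ) {l : ℝ} (hl : 0 ≤ l) : volume (sq c l) = ENNReal.ofReal (l * l) := by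
  rw [sq_eq_preimage, Complex.volume_preserving_equiv_real_prod.measure_preimage
    (measurableSet_Ico.prod measurableSet_Ico).nullMeasurableSet, Measure.volume_eq_prod,
    Measure.prod_prod, Real.volume_Ico, Real.volume_Ico, add_sub_cancel_left, add_sub_cancel_left,
    ENNReal.ofReal_mul hl]

theorem volume_real_sq (c : ℂ) {l : ℝ} (hl : 0 ≤ l) : (volume (sq c l)).toReal = l * l := by
  rw [volume_sq c hl, ENNReal.toReal_ofReal (mul_nonneg hl hl)]

/-- the square lies in a ball around any of its points -/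
theorem sq_subset_ball (c : ℂ) {l : ℝ} (hl : 0 < l) (z : ℂ) (hz : z ∈ sq c l) :
    sq c l ⊆ Metric.ball z (2 * l) := by
  intro w hw
  obtain ⟨h1, h2, h3, h4⟩ := hz
  obtain ⟨g1, g2, g3, g4⟩ := hw
  rw [Metric.mem_ball, dist_eq_norm]
  have h5 := Complex.norm_le_abs_re_add_abs_im (w - z)
  rw [Complex.sub_re, Complex.sub_im] at h5
  have h6 : |w.re - z.re| < l := abs_lt.2 ⟨by linarith, by linarith⟩
  have h7 : |w.im - z.im| < l := abs_lt.2 ⟨by linarith, by linarith⟩
  linarith

/-- the square is bounded -/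
theorem sq_subset_closedBall (c : ℂ) {l : ℝ} (hl : 0 ≤ l) : sq c l ⊆ Metric.closedBall c (2 * l) := by
  intro w hw
  obtain ⟨g1, g2, g3, g4⟩ := hw
  rw [Metric.mem_closedBall, dist_eq_norm]
  have h5 := Complex.norm_le_abs_re_add_abs_im (w - c)
  rw [Complex.sub_re, Complex.sub_im] at h5
  have h6 : |w.re - c.re| ≤ l := abs_le.2 ⟨by linarith, by linarith⟩
  have h7 : |w.im - c.im| ≤ l := abs_le.2 ⟨by linarith, by linarith⟩
  linarith

private theorem two_zpow (k : ℤ) : (2 : ℝ) ^ k = 2 * (2 : ℝ) ^ (k - 1) := by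
  rw [zpow_sub_one₀ (two_ne_zero)]
  ring

private theorem shf_re (i : Fin 4) (k : ℤ) :
    (shf i * (2 : ℂ) ^ k).re = (shf i).re * (2 : ℝ) ^ k := by
  have h : (2 : ℂ) ^ k = (((2 : ℝ) ^ k : ℝ) : ℂ) := by push_cast; rfl
  rw [h, Complex.re_mul_ofReal]

private theorem shf_im (i : Fin 4) (k : ℤ) :
    (shf i * (2 : ℂ) ^ k).im = (shf i).im * (2 : ℝ) ^ k := by
  have h : (2 : ℂ) ^ k = (((2 : ℝ) ^ k : ℝ) : ℂ) := by push_cast; rfl
  rw [h, Complex.im_mul_ofReal]

private theorem mem_child (i : Fin 4) (P : ℂ × ℤ) (z : ℂ) : z ∈ sqn (chC i P) ↔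
    P.1.re + (shf i).re * (2 : ℝ) ^ (P.2 - 1) ≤ z.re ∧
    z.re < P.1.re + (shf i).re * (2 : ℝ) ^ (P.2 - 1) + (2 : ℝ) ^ (P.2 - 1) ∧
    P.1.im + (shf i).im * (2 : ℝ) ^ (P.2 - 1) ≤ z.im ∧
    z.im < P.1.im + (shf i).im * (2 : ℝ) ^ (P.2 - 1) + (2 : ℝ) ^ (P.2 - 1) := by
  simp only [sqn, sq, chC, Set.mem_ofPred_eq, Complex.add_re, Complex.add_im, shf_re, shf_im]

private theorem mem_parent (P : ℂ × ℤ) (z : ℂ) : z ∈ sqn P ↔
    P.1.re ≤ z.re ∧ z.re < P.1.re + 2 * (2 : ℝ) ^ (P.2 - 1) ∧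
    P.1.im ≤ z.im ∧ z.im < P.1.im + 2 * (2 : ℝ) ^ (P.2 - 1) := by
  simp only [sqn, sq, Set.mem_ofPred_eq, ← two_zpow]

private theorem shf_val : (shf 0).re = 0 ∧ (shf 0).im = 0 ∧ (shf 1).re = 1 ∧ (shf 1).im = 0 ∧
    (shf 2).re = 0 ∧ (shf 2).im = 1 ∧ (shf 3).re = 1 ∧ (shf 3).im = 1 := by
  simp [shf]

theorem sqn_chC_subset (i : Fin 4) (P : ℂ × ℤ) : sqn (chC i P) ⊆ sqn P := by
  intro z hz
  rw [mem_child] at hz
  rw [mem_parent]
  have hp : (0 : ℝ) < (2 : ℝ) ^ (P.2 - 1) := by positivity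
  obtain ⟨e1, e2, e3, e4, e5, e6, e7, e8⟩ := shf_val
  obtain ⟨h1, h2, h3, h4⟩ := hz
  fin_cases i
  · simp only [Fin.zero_eta, e1, e2] at h1 h2 h3 h4
    exact ⟨by linarith, by linarith, by linarith, by linarith⟩
  · simp only [Fin.mk_one, e3, e4] at h1 h2 h3 h4
    exact ⟨by linarith, by linarith, by linarith, by linarith⟩
  · simp only [Fin.reduceFinMk, e5, e6] at h1 h2 h3 h4
    exact ⟨by linarith, by linarith, by linarith, by linarith⟩
  · simp only [Fin.reduceFinMk, e7, e8] at h1 h2 h3 h4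
    exact ⟨by linarith, by linarith, by linarith, by linarith⟩

private theorem exists_child (P : ℂ × ℤ) (z : ℂ) (hz : z ∈ sqn P) :
    ∃ i, z ∈ sqn (chC i P) ∧ ∀ j, z ∈ sqn (chC j P) → j = i := by
  have hp : (0 : ℝ) < (2 : ℝ) ^ (P.2 - 1) := by positivity
  obtain ⟨e1, e2, e3, e4, e5, e6, e7, e8⟩ := shf_val
  rw [mem_parent] at hz
  obtain ⟨h1, h2, h3, h4⟩ := hz
  have key : ∀ j : Fin 4, z ∈ sqn (chC j P) ↔
      ((shf j).re * (2 : ℝ) ^ (P.2 - 1) ≤ z.re - P.1.re ∧
      z.re - P.1.re < (shf j).re * (2 : ℝ) ^ (P.2 - 1) + (2 : ℝ) ^ (P.2 - 1)) ∧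
      ((shf j).im * (2 : ℝ) ^ (P.2 - 1) ≤ z.im - P.1.im ∧
      z.im - P.1.im < (shf j).im * (2 : ℝ) ^ (P.2 - 1) + (2 : ℝ) ^ (P.2 - 1)) := by
    intro j
    rw [mem_child]
    constructor
    · rintro ⟨a, b, c, d⟩
      exact ⟨⟨by linarith, by linarith⟩, ⟨by linarith, by linarith⟩⟩
    · rintro ⟨⟨a, b⟩, ⟨c, d⟩⟩
      exact ⟨by linarith, by linarith, by linarith, by linarith⟩
  rcases lt_or_ge (z.re - P.1.re) ((2 : ℝ) ^ (P.2 - 1)) with hr | hr <;>
    rcases lt_or_ge (z.im - P.1.im) ((2 : ℝ) ^ (P.2 - 1)) with hi | hi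
  · refine ⟨0, (key 0).2 ?_, fun j hj => ?_⟩
    · rw [e1, e2]; exact ⟨⟨by linarith, by linarith⟩, ⟨by linarith, by linarith⟩⟩
    · rw [key] at hj
      fin_cases j
      · rfl
      · simp only [Fin.mk_one, e3, e4] at hj; exfalso; linarith [hj.1.1]
      · simp only [Fin.reduceFinMk, e5, e6] at hj; exfalso; linarith [hj.2.1]
      · simp only [Fin.reduceFinMk, e7, e8] at hj; exfalso; linarith [hj.1.1]
  · refine ⟨2, (key 2).2 ?_, fun j hj => ?_⟩
    · rw [e5, e6]; exact ⟨⟨by linarith, by linarith⟩, ⟨by linarith, by linarith⟩⟩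
    · rw [key] at hj
      fin_cases j
      · simp only [Fin.zero_eta, e1, e2] at hj; exfalso; linarith [hj.2.2]
      · simp only [Fin.mk_one, e3, e4] at hj; exfalso; linarith [hj.1.1]
      · rfl
      · simp only [Fin.reduceFinMk, e7, e8] at hj; exfalso; linarith [hj.1.1]
  · refine ⟨1, (key 1).2 ?_, fun j hj => ?_⟩
    · rw [e3, e4]; exact ⟨⟨by linarith, by linarith⟩, ⟨by linarith, by linarith⟩⟩
    · rw [key] at hj
      fin_cases j
      · simp only [Fin.zero_eta, e1, e2] at hj; exfalso; linarith [hj.1.2]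
      · rfl
      · simp only [Fin.reduceFinMk, e5, e6] at hj; exfalso; linarith [hj.2.1]
      · simp only [Fin.reduceFinMk, e7, e8] at hj; exfalso; linarith [hj.2.1]
  · refine ⟨3, (key 3).2 ?_, fun j hj => ?_⟩
    · rw [e7, e8]; exact ⟨⟨by linarith, by linarith⟩, ⟨by linarith, by linarith⟩⟩
    · rw [key] at hj
      fin_cases j
      · simp only [Fin.zero_eta, e1, e2] at hj; exfalso; linarith [hj.1.2]
      · simp only [Fin.mk_one, e3, e4] at hj; exfalso; linarith [hj.2.2]
      · simp only [Fin.reduceFinMk, e5, e6] at hj; exfalso; linarith [hj.1.2]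
      · rfl

/-- the indicator of a square is the sum of the indicators of its children -/
theorem indicator_sqn (P : ℂ × ℤ) (z : ℂ) :
    ∑ i, (sqn (chC i P)).indicator (fun _ => (1 : ℝ)) z = (sqn P).indicator (fun _ => (1 : ℝ)) z := by
  by_cases hz : z ∈ sqn P
  · obtain ⟨i, hi, hj⟩ := exists_child P z hz
    rw [Set.indicator_of_mem hz, Finset.sum_eq_single i, Set.indicator_of_mem hi]
    · intro j _ hne
      exact Set.indicator_of_notMem (fun h => hne (hj j h)) _
    · intro h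
      exact absurd (Finset.mem_univ i) h
  · rw [Set.indicator_of_notMem hz]
    refine Finset.sum_eq_zero fun i _ => ?_
    exact Set.indicator_of_notMem (fun h => hz (sqn_chC_subset i P h)) _

theorem setIntegral_sqn {E : Type*} [NormedAddCommGroup E] [NormedSpace ℝ E] (P : ℂ × ℤ) (F : ℂ → E)
    (hF : IntegrableOn F (sqn P)) :
    ∫ z in sqn P, F z = ∑ i, ∫ z in sqn (chC i P), F z := by
  have h1 : sqn P = ⋃ i, sqn (chC i P) := by
    ext z
    rw [Set.mem_iUnion]
    constructor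
    · intro hz
      obtain ⟨i, hi, -⟩ := exists_child P z hz
      exact ⟨i, hi⟩
    · rintro ⟨i, hi⟩
      exact sqn_chC_subset i P hi
  have h2 : ∫ z in sqn P, F z = ∫ z in ⋃ i, sqn (chC i P), F z := by rw [← h1]
  rw [h2]
  refine integral_iUnion_fintype (fun i => measurableSet_sq _ _) ?_ fun i =>
    hF.mono_set (sqn_chC_subset i P)
  intro i j hij
  rw [Function.onFun, Set.disjoint_left]
  intro z hi hj
  obtain ⟨k, -, hk⟩ := exists_child P z (sqn_chC_subset i P hi)
  exact hij ((hk i hi).trans (hk j hj).symm)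

private theorem integrableOn_sq {F : ℂ → ℝ} (hF : LocallyIntegrable F volume) (c : ℂ) {l : ℝ}
    (hl : 0 ≤ l) : IntegrableOn F (sq c l) :=
  (hF.integrableOn_isCompact (isCompact_closedBall c (2 * l))).mono_set
    (sq_subset_closedBall c hl)

/-- `mn F` is a martingale -/
theorem av_mn (F : ℂ → ℝ) (hF : LocallyIntegrable F volume) (P : ℂ × ℤ) :
    av chC (mn F) P = mn F P := by
  have h1 := setIntegral_sqn P F (integrableOn_sq hF P.1 (by positivity))
  unfold av mn
  rw [h1]
  have h2 : ∀ i, (chC i P).2 = P.2 - 1 := fun i => rfl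
  simp only [h2]
  rw [← Finset.mul_sum, two_zpow P.2]
  have hp : (0 : ℝ) < (2 : ℝ) ^ (P.2 - 1) := by positivity
  field_simp
  ring

/-- the corners of the squares containing a given point fill a square -/
theorem volume_corner (z : ℂ) {l : ℝ} (hl : 0 ≤ l) :
    volume {c : ℂ | z ∈ sq c l} = ENNReal.ofReal (l * l) := by
  have h1 : {c : ℂ | z ∈ sq c l} = Complex.measurableEquivRealProd ⁻¹'
      (Set.Ioc (z.re - l) z.re ×ˢ Set.Ioc (z.im - l) z.im) := by
    ext c
    simp only [sq, Set.mem_ofPred_eq, Set.mem_preimage, Complex.measurableEquivRealProd_apply,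
      Set.mem_prod, Set.mem_Ioc]
    constructor
    · rintro ⟨a, b, c, d⟩
      exact ⟨⟨by linarith, a⟩, ⟨by linarith, c⟩⟩
    · rintro ⟨⟨a, b⟩, ⟨c, d⟩⟩
      exact ⟨b, by linarith, d, by linarith⟩
  rw [h1, Complex.volume_preserving_equiv_real_prod.measure_preimage
    (measurableSet_Ioc.prod measurableSet_Ioc).nullMeasurableSet, Measure.volume_eq_prod,
    Measure.prod_prod, Real.volume_Ioc, Real.volume_Ioc, sub_sub_cancel, sub_sub_cancel,
    ENNReal.ofReal_mul hl]

private theorem mn_translate (F : ℂ → ℝ) (c : ℂ) (k : ℤ) : mn F (c, k) =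
    ((2 : ℝ) ^ k * (2 : ℝ) ^ k)⁻¹ * ∫ z in sq 0 ((2 : ℝ) ^ k), F (z + c) := by
  unfold mn
  congr 1
  have h1 : MeasurePreserving (fun z : ℂ => z + c) volume volume := measurePreserving_add_right _ c
  have h2 := h1.setIntegral_preimage_emb (measurableEmbedding_addRight c) F (sqn (c, k))
  rw [← h2]
  congr 2
  ext z
  simp only [sqn, sq, Set.mem_preimage, Set.mem_ofPred_eq, Complex.add_re, Complex.add_im,
    Complex.zero_re, Complex.zero_im]
  constructor
  · rintro ⟨a, b, c, d⟩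
    exact ⟨by linarith, by linarith, by linarith, by linarith⟩
  · rintro ⟨a, b, c, d⟩
    exact ⟨by linarith, by linarith, by linarith, by linarith⟩

private theorem finite_sq (c : ℂ) {l : ℝ} (hl : 0 ≤ l) :
    IsFiniteMeasure (volume.restrict (sq c l)) := by
  refine ⟨?_⟩
  rw [Measure.restrict_apply_univ, volume_sq c hl]
  exact ENNReal.ofReal_lt_top

/-- for continuous `F` the mean is a continuous function of the corner -/
theorem continuous_mn (F : ℂ → ℝ) (hF : Continuous F) (k : ℤ) : Continuous (fun c : ℂ => mn F (c, k)) := by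
  have h0 : (0 : ℝ) ≤ (2 : ℝ) ^ k := by positivity
  have h1 : (fun c : ℂ => mn F (c, k)) = fun c => ((2 : ℝ) ^ k * (2 : ℝ) ^ k)⁻¹ *
      ∫ z in sq 0 ((2 : ℝ) ^ k), F (z + c) := funext fun c => mn_translate F c k
  rw [h1]
  refine Continuous.mul continuous_const ?_
  rw [continuous_iff_continuousAt]
  intro c₀
  obtain ⟨C, hC⟩ := (isCompact_closedBall c₀ (2 * (2 : ℝ) ^ k + 1)).exists_bound_of_continuousOn
    hF.continuousOn
  have := finite_sq 0 h0
  refine continuousAt_of_dominated (bound := fun _ => C) ?_ ?_ (integrable_const C) ?_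
  · exact Filter.Eventually.of_forall fun c =>
      (hF.comp (continuous_id.add continuous_const)).aestronglyMeasurable
  · filter_upwards [Metric.ball_mem_nhds c₀ one_pos] with c hc
    refine (ae_restrict_iff' (measurableSet_sq _ _)).2 (Filter.Eventually.of_forall fun z hz => ?_)
    apply hC
    have h2 := sq_subset_closedBall 0 h0 hz
    rw [Metric.mem_closedBall, dist_eq_norm, sub_zero] at h2
    rw [Metric.mem_ball, dist_eq_norm] at hc
    rw [Metric.mem_closedBall, dist_eq_norm]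
    have h3 : z + c - c₀ = z + (c - c₀) := by ring
    rw [h3]
    exact (norm_add_le _ _).trans (add_le_add h2 hc.le)
  · exact Filter.Eventually.of_forall fun z =>
      (hF.comp (continuous_const.add continuous_id)).continuousAt

/-- for `F` with compact support the mean has compact support as a function of the corner -/
theorem hasCompactSupport_mn (F : ℂ → ℝ) (hF : HasCompactSupport F) (k : ℤ) :
    HasCompactSupport (fun c : ℂ => mn F (c, k)) := by
  have h0 : (0 : ℝ) ≤ (2 : ℝ) ^ k := by positivity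
  obtain ⟨R, hR⟩ := hF.isCompact.isBounded.subset_closedBall (0 : ℂ)
  refine HasCompactSupport.intro (isCompact_closedBall (0 : ℂ) (R + 2 * (2 : ℝ) ^ k)) ?_
  intro c hc
  have h1 : ∫ z in sqn (c, k), F z = 0 := by
    refine setIntegral_eq_zero_of_forall_eq_zero fun z hz => ?_
    by_contra hne
    apply hc
    have h2 : z ∈ Metric.closedBall (0 : ℂ) R := hR (subset_closure hne)
    have h3 : z ∈ Metric.closedBall c (2 * (2 : ℝ) ^ k) := sq_subset_closedBall c h0 hz
    rw [Metric.mem_closedBall, dist_eq_norm] at h2 h3 ⊢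
    have h4 : c - 0 = (z - 0) - (z - c) := by ring
    rw [h4]
    exact (norm_sub_le _ _).trans (add_le_add h2 h3)
  show ((2 : ℝ) ^ k * (2 : ℝ) ^ k)⁻¹ * ∫ z in sqn (c, k), F z = 0
  rw [h1, mul_zero]

private theorem integrable_prod (F : ℂ → ℝ) (hF : Integrable F volume) (l : ℝ) (hl : 0 ≤ l) :
    Integrable (fun p : ℂ × ℂ => F (p.1 + p.2)) ((volume.restrict (sq 0 l)).prod volume) := by
  have := finite_sq 0 hl
  have h1 := measurePreserving_prod_add (volume.restrict (sq 0 l)) (volume : Measure ℂ)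
  have h2 : Integrable (fun p : ℂ × ℂ => F p.2) ((volume.restrict (sq 0 l)).prod volume) :=
    hF.comp_snd _
  exact (h1.integrable_comp h2.aestronglyMeasurable).2 h2

/-- integrating over all the corners: `∫_c mn F (c,k) = ∫ F` -/
theorem integral_mn (F : ℂ → ℝ) (hF : Integrable F volume) (k : ℤ) :
    ∫ c : ℂ, mn F (c, k) = ∫ z, F z := by
  have h0 : (0 : ℝ) < (2 : ℝ) ^ k := by positivity
  have h1 : (fun c : ℂ => mn F (c, k)) = fun c => ((2 : ℝ) ^ k * (2 : ℝ) ^ k)⁻¹ *
      ∫ z in sq 0 ((2 : ℝ) ^ k), F (z + c) := funext fun c => mn_translate F c k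
  have := finite_sq 0 h0.le
  have h2 := integral_integral_swap (f := fun z c : ℂ => F (z + c))
    (integrable_prod F hF _ h0.le)
  rw [h1, integral_const_mul, ← h2]
  have h3 : ∀ z : ℂ, ∫ c : ℂ, F (z + c) = ∫ c, F c := fun z => integral_add_left_eq_self F z
  simp only [h3]
  rw [integral_const, smul_eq_mul, Measure.real, Measure.restrict_apply_univ,
    volume_real_sq 0 h0.le, ← mul_assoc, inv_mul_cancel₀ (by positivity), one_mul]

theorem integrable_mn (F : ℂ → ℝ) (hF : Integrable F volume) (k : ℤ) :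
    Integrable (fun c : ℂ => mn F (c, k)) volume := by
  have h0 : (0 : ℝ) < (2 : ℝ) ^ k := by positivity
  have h1 : (fun c : ℂ => mn F (c, k)) = fun c => ((2 : ℝ) ^ k * (2 : ℝ) ^ k)⁻¹ *
      ∫ z in sq 0 ((2 : ℝ) ^ k), F (z + c) := funext fun c => mn_translate F c k
  have := finite_sq 0 h0.le
  rw [h1]
  exact (integrable_prod F hF _ h0.le).integral_prod_right.const_mul _

end Pool.MP_75bf3e_an.BT
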