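import Pool.Agent.Lib_MP_75bf3e.Sq
import Pool.Agent.Lib_MP_75bf3e.DForm

/-!
# Piece ASTAR: the averaged discrete theorem

`Df a f P = avg chC a (delta chC (mn f)) P`.

Proof of `star`.  Apply `discrete` to the tree `ℂ × ℤ` with `x = mn w⁻¹`, `y = mn w`, `f ↦ mn f`, `g ↦ mn g`,
`F = mn |f|`, `G = mn |g|`, `Φ = mn (f^2 w)`, `Ψ = mn (g^2 w⁻¹)`:
* martingales: `av_mn` (everything is locally integrable: `f` is continuous, `f^2 w` is a bounded
  measurable function times `w`);
* `x, y > 0`; `1 ≤ x y` and `F^2 ≤ x Φ`, `G^2 ≤ y Ψ` by Cauchy-Schwarz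
  (`(∫ |f|)^2 ≤ ∫ w⁻¹ * ∫ f^2 w` on the square; `1 ≤ xy`: the same with `f = 1`.  One elementary way:
  `0 ≤ ∫ (s |f| √w - √(w⁻¹))^2`, i.e. `2 s |f| ≤ s^2 f^2 w + w⁻¹` pointwise for all real `s`, integrate and
  take `s = (∫ w⁻¹)/(∫|f|)` or use the discriminant).
It gives for every corner `c`: `S chC d h (c,k) ≤ C K √(min K M) √(Φ(c,k) Ψ(c,k))` with
`h P = Df a f P * Df b g P`.
Integrate over `c ∈ ℂ`:
* left side: for continuous compactly supported `c ↦ h (c, j)` (all `j`), translation invariance of the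
  Lebesgue measure gives `∫_c (av chC H) (c, j) = ∫_c H (c, j-1)`, hence by induction
  `∫_c S chC d h (c,k) = Σ_{i<d} ∫_c h (c, k - i)`.  (`c ↦ mn f (c,j)` is continuous with compact support:
  `continuous_mn`, `hasCompactSupport_mn`; so are finite sums of absolute values of such functions and of
  their translates, hence `c ↦ Df a f (c,j)`.)
* right side: `∫ √(Φ Ψ) ≤ √(∫ Φ) √(∫ Ψ)` (Hoelder or AM-GM with a parameter) and
  `∫_c Φ(c,k) = ∫ f^2 w` (`integral_mn`).
-/

set_option autoImplicit false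

open MeasureTheory

namespace Pool.MP_75bf3e_an.BT

/-- the mean over the descendants of depth `a` of the normalised `L^1` norm of the martingale differences -/
noncomputable def Df (a : ℕ) (f : ℂ → ℝ) (P : ℂ × ℤ) : ℝ := avg chC a (delta chC (mn f)) P

theorem Df_nonneg (a : ℕ) (f : ℂ → ℝ) (P : ℂ × ℤ) : 0 ≤ Df a f P := by
  refine avg_nonneg chC (fun Q => ?_) a P
  unfold delta
  positivity

/-! ### continuity and compact support in the corner -/

private def CoC (G : ℂ × ℤ → ℝ) : Prop := ∀ k : ℤ, Continuous (fun c : ℂ => G (c, k))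

private def CsC (G : ℂ × ℤ → ℝ) : Prop := ∀ k : ℤ, HasCompactSupport (fun c : ℂ => G (c, k))

private theorem child_eq (i : Fin 4) (c : ℂ) (k : ℤ) :
    chC i (c, k) = (c + shf i * (2 : ℂ) ^ (k - 1), k - 1) := rfl

private theorem CoC.child {G : ℂ × ℤ → ℝ} (h : CoC G) (i : Fin 4) :
    CoC (fun P => G (chC i P)) := by
  intro k
  have h1 : Continuous (fun c : ℂ => c + shf i * (2 : ℂ) ^ (k - 1)) :=
    continuous_id.add continuous_const
  exact (h (k - 1)).comp h1

private theorem CsC.child {G : ℂ × ℤ → ℝ} (h : CsC G) (i : Fin 4) :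
    CsC (fun P => G (chC i P)) := by
  intro k
  exact (h (k - 1)).comp_homeomorph (Homeomorph.addRight (shf i * (2 : ℂ) ^ (k - 1)))

private theorem CsC.add {G H : ℂ × ℤ → ℝ} (hG : CsC G) (hH : CsC H) :
    CsC (fun P => G P + H P) := fun k => (hG k).add (hH k)

private theorem CsC.mul_const {G : ℂ × ℤ → ℝ} (hG : CsC G) (t : ℝ) :
    CsC (fun P => G P * t) := fun k => (hG k).mul_right (f' := fun _ => t)

private theorem CoC.av {G : ℂ × ℤ → ℝ} (h : CoC G) : CoC (av chC G) := by
  intro k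
  have h1 : (fun c : ℂ => BT.av chC G (c, k)) = fun c => (∑ i, G (chC i (c, k))) / 4 := rfl
  rw [h1]
  exact (continuous_finsetSum _ fun i _ => h.child i k).div_const _

private theorem CsC.av {G : ℂ × ℤ → ℝ} (h : CsC G) : CsC (av chC G) := by
  have h1 : BT.av chC G = fun P => (((G (chC 0 P) + G (chC 1 P)) + G (chC 2 P)) +
      G (chC 3 P)) * (1 / 4) := by
    funext P
    unfold BT.av
    rw [Fin.sum_univ_four]
    ring
  rw [h1]
  exact ((((h.child 0).add (h.child 1)).add (h.child 2)).add (h.child 3)).mul_const _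

private theorem CoC.avg {G : ℂ × ℤ → ℝ} (h : CoC G) (a : ℕ) : CoC (avg chC a G) := by
  induction a with
  | zero => exact h
  | succ a ih => exact ih.av

private theorem CsC.avg {G : ℂ × ℤ → ℝ} (h : CsC G) (a : ℕ) : CsC (avg chC a G) := by
  induction a with
  | zero => exact h
  | succ a ih => exact ih.av

private theorem CoC.delta {G : ℂ × ℤ → ℝ} (h : CoC G) : CoC (delta chC G) := by
  intro k
  have h1 : (fun c : ℂ => BT.delta chC G (c, k)) =
      fun c => (∑ i, |G (chC i (c, k)) - G (c, k)|) / 4 := rfl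
  rw [h1]
  exact (continuous_finsetSum _ fun i _ => ((h.child i k).sub (h k)).abs).div_const _

private theorem CsC.delta {G : ℂ × ℤ → ℝ} (h : CsC G) : CsC (delta chC G) := by
  have h0 : ∀ i : Fin 4, CsC (fun P => |G (chC i P) - G P|) := by
    intro i k
    have h2 : HasCompactSupport (fun c : ℂ => G (chC i (c, k)) + G (c, k) * (-1)) :=
      ((h.child i).add (h.mul_const (-1))) k
    have h3 := h2.comp_left (g := fun t : ℝ => |t|) abs_zero
    have h4 : ((fun t : ℝ => |t|) ∘ fun c : ℂ => G (chC i (c, k)) + G (c, k) * (-1)) =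
        fun c : ℂ => |G (chC i (c, k)) - G (c, k)| := by
      funext c
      show |G (chC i (c, k)) + G (c, k) * (-1)| = _
      congr 1
      ring
    rw [h4] at h3
    exact h3
  have h1 : BT.delta chC G = fun P => (((|G (chC 0 P) - G P| + |G (chC 1 P) - G P|) +
      |G (chC 2 P) - G P|) + |G (chC 3 P) - G P|) * (1 / 4) := by
    funext P
    unfold BT.delta
    rw [Fin.sum_univ_four]
    ring
  rw [h1]
  exact ((((h0 0).add (h0 1)).add (h0 2)).add (h0 3)).mul_const _

private theorem CoC.S {G : ℂ × ℤ → ℝ} (h : CoC G) (d : ℕ) : CoC (S chC d G) := by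
  induction d with
  | zero => exact fun k => continuous_const
  | succ d ih => exact fun k => (h k).add (ih.av k)

private theorem CsC.S {G : ℂ × ℤ → ℝ} (h : CsC G) (d : ℕ) : CsC (S chC d G) := by
  induction d with
  | zero =>
    intro k
    exact HasCompactSupport.intro (isCompact_empty (X := ℂ)) fun _ _ => rfl
  | succ d ih => exact fun k => (h k).add (ih.av k)

theorem continuous_Df (a : ℕ) (f : ℂ → ℝ) (hf : Continuous f) (k : ℤ) :
    Continuous (fun c : ℂ => Df a f (c, k)) :=
  (CoC.delta (fun k => continuous_mn f hf k)).avg a k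

theorem hasCompactSupport_Df (a : ℕ) (f : ℂ → ℝ) (hf : HasCompactSupport f) (k : ℤ) :
    HasCompactSupport (fun c : ℂ => Df a f (c, k)) :=
  (CsC.delta (fun k => hasCompactSupport_mn f hf k)).avg a k

/-! ### integration over the corners -/

private theorem integral_av {G : ℂ × ℤ → ℝ} (h1 : CoC G) (h2 : CsC G) (k : ℤ) :
    ∫ c : ℂ, av chC G (c, k) = ∫ c : ℂ, G (c, k - 1) := by
  have hi : ∀ i : Fin 4, Integrable (fun c : ℂ => G (chC i (c, k))) volume := fun i =>
    (h1.child i k).integrable_of_hasCompactSupport (h2.child i k)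
  have he : ∀ i : Fin 4, ∫ c : ℂ, G (chC i (c, k)) = ∫ c : ℂ, G (c, k - 1) := by
    intro i
    exact integral_add_right_eq_self (fun c : ℂ => G (c, k - 1)) (shf i * (2 : ℂ) ^ (k - 1))
  have h3 : (fun c : ℂ => av chC G (c, k)) = fun c => (∑ i, G (chC i (c, k))) / 4 := rfl
  rw [h3, integral_div, integral_finsetSum _ fun i _ => hi i]
  simp only [he]
  rw [Finset.sum_const, Finset.card_univ, Fintype.card_fin, nsmul_eq_mul]
  push_cast
  ring

private theorem integral_S {G : ℂ × ℤ → ℝ} (h1 : CoC G) (h2 : CsC G) (d : ℕ) (k : ℤ) :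
    ∫ c : ℂ, S chC d G (c, k) = ∑ i ∈ Finset.range d, ∫ c : ℂ, G (c, k - i) := by
  induction d generalizing k with
  | zero => simp
  | succ d ih =>
    have h3 : (fun c : ℂ => S chC (d + 1) G (c, k)) =
        fun c => G (c, k) + av chC (S chC d G) (c, k) := rfl
    rw [h3, integral_add ((h1 k).integrable_of_hasCompactSupport (h2 k))
      (((h1.S d).av k).integrable_of_hasCompactSupport ((h2.S d).av k)),
      integral_av (h1.S d) (h2.S d), ih, Finset.sum_range_succ', add_comm]
    congr 1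
    · refine Finset.sum_congr rfl fun i _ => ?_
      have : k - 1 - (i : ℤ) = k - ((i + 1 : ℕ) : ℤ) := by push_cast; ring
      rw [this]
    · simp

/-! ### Cauchy-Schwarz on a square -/

private theorem loc_mul {f w : ℂ → ℝ} (hf : Continuous f) (hw : LocallyIntegrable w volume) :
    LocallyIntegrable (fun z => f z * w z) volume := by
  rw [locallyIntegrable_iff] at hw ⊢
  intro k hk
  exact (hw k hk).continuousOn_mul hf.continuousOn hk

private theorem intOn {F : ℂ → ℝ} (hF : LocallyIntegrable F volume) (P : ℂ × ℤ) :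
    IntegrableOn F (sqn P) :=
  (hF.integrableOn_isCompact (isCompact_closedBall P.1 (2 * (2 : ℝ) ^ P.2))).mono_set
    (sq_subset_closedBall P.1 (by positivity))

private theorem mn_mono {F G : ℂ → ℝ} (hF : LocallyIntegrable F volume)
    (hG : LocallyIntegrable G volume) (h : ∀ z, F z ≤ G z) (P : ℂ × ℤ) : mn F P ≤ mn G P := by
  unfold mn
  exact mul_le_mul_of_nonneg_left (setIntegral_mono (intOn hF P) (intOn hG P) h) (by positivity)

private theorem mn_add {F G : ℂ → ℝ} (hF : LocallyIntegrable F volume)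
    (hG : LocallyIntegrable G volume) (P : ℂ × ℤ) :
    mn (fun z => F z + G z) P = mn F P + mn G P := by
  unfold mn
  rw [integral_add (intOn hF P) (intOn hG P), mul_add]

private theorem mn_smul (t : ℝ) (F : ℂ → ℝ) (P : ℂ × ℤ) :
    mn (fun z => t * F z) P = t * mn F P := by
  unfold mn
  rw [integral_const_mul]
  ring

private theorem mn_one (P : ℂ × ℤ) : mn (fun _ => 1) P = 1 := by
  unfold mn
  have h0 : (0 : ℝ) < (2 : ℝ) ^ P.2 := by positivity
  rw [setIntegral_const, smul_eq_mul, mul_one, Measure.real]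
  unfold sqn
  rw [volume_real_sq P.1 h0.le, inv_mul_cancel₀ (by positivity)]

private theorem mn_pos {w : ℂ → ℝ} (hw : ∀ z, 0 < w z) (hi : LocallyIntegrable w volume)
    (P : ℂ × ℤ) : 0 < mn w P := by
  have h0 : (0 : ℝ) < (2 : ℝ) ^ P.2 := by positivity
  unfold mn
  refine mul_pos (by positivity) ?_
  rw [setIntegral_pos_iff_support_of_nonneg_ae
    (Filter.Eventually.of_forall fun z => (hw z).le) (intOn hi P)]
  have h1 : Function.support w ∩ sqn P = sqn P := by
    apply Set.inter_eq_right.2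
    intro z _
    exact (hw z).ne'
  rw [h1]
  unfold sqn
  rw [volume_sq P.1 h0.le]
  exact ENNReal.ofReal_pos.2 (by positivity)

private theorem cs {w f : ℂ → ℝ} (hw : ∀ z, 0 < w z) (hi : LocallyIntegrable w volume)
    (hi' : LocallyIntegrable (fun z => (w z)⁻¹) volume) (hf : Continuous f) (P : ℂ × ℤ) :
    mn (fun z => |f z|) P ^ 2 ≤ mn (fun z => (w z)⁻¹) P * mn (fun z => f z ^ 2 * w z) P := by
  have hl1 : LocallyIntegrable (fun z => |f z|) volume := hf.abs.locallyIntegrable
  have hl2 : LocallyIntegrable (fun z => f z ^ 2 * w z) volume := loc_mul (hf.pow 2) hi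
  have key : ∀ s : ℝ, 0 ≤ mn (fun z => f z ^ 2 * w z) P * (s * s) +
      (-(2 * mn (fun z => |f z|) P)) * s + mn (fun z => (w z)⁻¹) P := by
    intro s
    have h1 : mn (fun z => (2 * s) * |f z|) P ≤
        mn (fun z => (s ^ 2) * (f z ^ 2 * w z) + (w z)⁻¹) P := by
      refine mn_mono ?_ ?_ ?_ P
      · exact (continuous_const.mul hf.abs).locallyIntegrable
      · exact (loc_mul continuous_const hl2).add hi'
      · intro z
        have h2 := hw z
        have h3 : 0 ≤ (s * |f z| * w z - 1) ^ 2 * (w z)⁻¹ := by positivity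
        have h4 : (s * |f z| * w z - 1) ^ 2 * (w z)⁻¹ =
            (s ^ 2) * (f z ^ 2 * w z) + (w z)⁻¹ - (2 * s) * |f z| := by
          rw [← sq_abs (f z)]
          field_simp
          ring
        linarith
    rw [mn_smul, mn_add (loc_mul continuous_const hl2) hi', mn_smul] at h1
    nlinarith
  have h5 := discrim_le_zero key
  unfold discrim at h5
  nlinarith

/-! ### optimisation -/

private theorem sqrt_amgm {a b t : ℝ} (ha : 0 ≤ a) (hb : 0 ≤ b) (ht : 0 < t) :
    √(a * b) ≤ (t * a + t⁻¹ * b) / 2 := by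
  have h1 : 0 ≤ (t * a + t⁻¹ * b) / 2 := by positivity
  rw [Real.sqrt_le_left h1]
  have h2 : ((t * a + t⁻¹ * b) / 2) ^ 2 - a * b = ((t * a - t⁻¹ * b) / 2) ^ 2 := by
    field_simp
    ring
  nlinarith [sq_nonneg ((t * a - t⁻¹ * b) / 2)]

private theorem opt {A B L c : ℝ} (hA : 0 ≤ A) (hB : 0 ≤ B) (hc : 0 ≤ c)
    (h : ∀ t > 0, L ≤ c * ((t * A + t⁻¹ * B) / 2)) : L ≤ c * √(A * B) := by
  have h1 : ∀ ε > 0, L ≤ c * √((A + ε) * (B + ε)) := by
    intro ε hε
    have hA' : 0 < A + ε := by linarith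
    have hB' : 0 < B + ε := by linarith
    have hs : 0 < √((A + ε) * (B + ε)) := Real.sqrt_pos.2 (by positivity)
    have hss : √((A + ε) * (B + ε)) * √((A + ε) * (B + ε)) = (A + ε) * (B + ε) :=
      Real.mul_self_sqrt (by positivity)
    obtain ⟨s, hsd⟩ : ∃ s, s = √((A + ε) * (B + ε)) := ⟨_, rfl⟩
    rw [← hsd] at hs hss ⊢
    have h2 := h (s / (A + ε)) (by positivity)
    refine h2.trans (mul_le_mul_of_nonneg_left ?_ hc)
    have h3 : s / (A + ε) * A + (s / (A + ε))⁻¹ * B ≤
        s / (A + ε) * (A + ε) + (s / (A + ε))⁻¹ * (B + ε) := by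
      have h4 : 0 < s / (A + ε) := by positivity
      have h5 : 0 < (s / (A + ε))⁻¹ := by positivity
      nlinarith
    have h6 : s / (A + ε) * (A + ε) = s := by field_simp
    have h7 : (s / (A + ε))⁻¹ * (B + ε) = s := by
      rw [inv_div, div_mul_eq_mul_div, ← hss]
      field_simp
    rw [h6, h7] at h3
    linarith
  have h2 : Filter.Tendsto (fun ε : ℝ => c * √((A + ε) * (B + ε))) (nhdsWithin 0 (Set.Ioi 0))
      (nhds (c * √((A + 0) * (B + 0)))) := by
    have h3 : Continuous fun ε : ℝ => c * √((A + ε) * (B + ε)) := by fun_prop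
    exact (h3.tendsto 0).mono_left nhdsWithin_le_nhds
  rw [add_zero, add_zero] at h2
  refine ge_of_tendsto h2 ?_
  filter_upwards [self_mem_nhdsWithin] with ε hε
  exact h1 ε hε

private theorem abs_mn_le {f : ℂ → ℝ} (P : ℂ × ℤ) : |mn f P| ≤ mn (fun z => |f z|) P := by
  unfold mn
  rw [abs_mul, abs_of_nonneg (by positivity : (0 : ℝ) ≤ ((2 : ℝ) ^ P.2 * (2 : ℝ) ^ P.2)⁻¹)]
  have h1 := norm_integral_le_integral_norm (μ := volume.restrict (sqn P)) f
  simp only [Real.norm_eq_abs] at h1
  exact mul_le_mul_of_nonneg_left h1 (by positivity)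

private theorem mn_nonneg {F : ℂ → ℝ} (h : ∀ z, 0 ≤ F z) (P : ℂ × ℤ) : 0 ≤ mn F P :=
  mul_nonneg (by positivity) (integral_nonneg h)

theorem star : ∃ C : ℝ, 0 < C ∧ ∀ (w : ℂ → ℝ), (∀ z, 0 < w z) → LocallyIntegrable w volume →
    LocallyIntegrable (fun z => (w z)⁻¹) volume → ∀ K : ℝ,
    (∀ P : ℂ × ℤ, mn w P * mn (fun z => (w z)⁻¹) P ≤ K) →
    ∀ (a b M : ℕ), a < M → b < M → ∀ (f g : ℂ → ℝ), Continuous f → HasCompactSupport f →
    Continuous g → HasCompactSupport g → ∀ (d : ℕ) (k : ℤ),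
    ∑ i ∈ Finset.range d, ∫ c : ℂ, Df a f (c, k - i) * Df b g (c, k - i)
      ≤ C * K * √(min K M) * √((∫ z, f z ^ 2 * w z) * ∫ z, g z ^ 2 * (w z)⁻¹) := by
  obtain ⟨C, hC, hd⟩ := discrete
  refine ⟨C, hC, ?_⟩
  intro w hw hi hi' K hK a b M ha hb f g hf hfs hg hgs d k
  have hw' : ∀ z, 0 < (w z)⁻¹ := fun z => inv_pos.2 (hw z)
  have hi'' : LocallyIntegrable (fun z => ((w z)⁻¹)⁻¹) volume := by
    simp only [inv_inv]
    exact hi
  have hWt : Wt chC K (mn (fun z => (w z)⁻¹)) (mn w) := by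
    refine ⟨fun P => mn_pos hw' hi' P, fun P => mn_pos hw hi P, fun P => av_mn _ hi' P,
      fun P => av_mn _ hi P, fun P => ?_, fun P => ?_⟩
    · have h1 := cs hw hi hi' (continuous_const (y := (1 : ℝ))) P
      simp only [abs_one, one_pow, one_mul] at h1
      rw [mn_one, one_pow] at h1
      exact h1
    · rw [mul_comm]
      exact hK P
  have hK1 : 1 ≤ K := hWt.one_le (0, 0)
  have hΦl : LocallyIntegrable (fun z => f z ^ 2 * w z) volume := loc_mul (hf.pow 2) hi
  have hΨl : LocallyIntegrable (fun z => g z ^ 2 * (w z)⁻¹) volume := loc_mul (hg.pow 2) hi'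
  have hΦ : Integrable (fun z => f z ^ 2 * w z) volume := by
    have h1 : HasCompactSupport (fun z => f z ^ 2) :=
      hfs.comp_left (g := fun t : ℝ => t ^ 2) (by simp)
    exact hi.integrable_smul_left_of_hasCompactSupport (hf.pow 2) h1
  have hΨ : Integrable (fun z => g z ^ 2 * (w z)⁻¹) volume := by
    have h1 : HasCompactSupport (fun z => g z ^ 2) :=
      hgs.comp_left (g := fun t : ℝ => t ^ 2) (by simp)
    exact hi'.integrable_smul_left_of_hasCompactSupport (hg.pow 2) h1
  have hΦ0 : ∀ z, 0 ≤ f z ^ 2 * w z := fun z => mul_nonneg (sq_nonneg _) (hw z).le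
  have hΨ0 : ∀ z, 0 ≤ g z ^ 2 * (w z)⁻¹ := fun z => mul_nonneg (sq_nonneg _) (hw' z).le
  have hpt : ∀ c : ℂ, S chC d (fun P => Df a f P * Df b g P) (c, k) ≤ C * K * √(min K M) *
      √(mn (fun z => f z ^ 2 * w z) (c, k) * mn (fun z => g z ^ 2 * (w z)⁻¹) (c, k)) := by
    intro c
    refine hd (ℂ × ℤ) chC K _ _ hWt a b M ha hb (mn f) (mn g) (mn fun z => |f z|)
      (mn fun z => |g z|) (mn fun z => f z ^ 2 * w z) (mn fun z => g z ^ 2 * (w z)⁻¹)
      (fun P => av_mn _ hf.locallyIntegrable P) (fun P => av_mn _ hg.locallyIntegrable P)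
      (fun P => av_mn _ hf.abs.locallyIntegrable P) (fun P => av_mn _ hg.abs.locallyIntegrable P)
      (fun P => av_mn _ hΦl P) (fun P => av_mn _ hΨl P) (fun P => abs_mn_le P)
      (fun P => abs_mn_le P) (fun P => cs hw hi hi' hf P) (fun P => ?_) d (c, k)
    have h1 := cs hw' hi' hi'' hg P
    simp only [inv_inv] at h1
    exact h1
  have hCo : CoC (fun P => Df a f P * Df b g P) := fun k =>
    (continuous_Df a f hf k).mul (continuous_Df b g hg k)
  have hCs : CsC (fun P => Df a f P * Df b g P) := fun k =>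
    (hasCompactSupport_Df a f hfs k).mul_right
  have hS := integral_S hCo hCs d k
  have hSi : Integrable (fun c : ℂ => S chC d (fun P => Df a f P * Df b g P) (c, k)) volume :=
    (hCo.S d k).integrable_of_hasCompactSupport (hCs.S d k)
  rw [← hS]
  have hc0 : 0 ≤ C * K * √(min K M) := by positivity
  refine opt (integral_nonneg hΦ0) (integral_nonneg hΨ0) hc0 ?_
  intro t ht
  have h1 : ∀ c : ℂ, S chC d (fun P => Df a f P * Df b g P) (c, k) ≤ C * K * √(min K M) *
      ((t * mn (fun z => f z ^ 2 * w z) (c, k) +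
        t⁻¹ * mn (fun z => g z ^ 2 * (w z)⁻¹) (c, k)) / 2) := fun c =>
    (hpt c).trans (mul_le_mul_of_nonneg_left (sqrt_amgm (mn_nonneg hΦ0 _) (mn_nonneg hΨ0 _) ht) hc0)
  have h2 : Integrable (fun c : ℂ => C * K * √(min K M) *
      ((t * mn (fun z => f z ^ 2 * w z) (c, k) +
        t⁻¹ * mn (fun z => g z ^ 2 * (w z)⁻¹) (c, k)) / 2)) volume :=
    ((((integrable_mn _ hΦ k).const_mul t).add
      ((integrable_mn _ hΨ k).const_mul t⁻¹)).div_const 2).const_mul _
  have h3 := integral_mono hSi h2 h1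
  rw [integral_const_mul, integral_div, integral_add ((integrable_mn _ hΦ k).const_mul t)
    ((integrable_mn _ hΨ k).const_mul t⁻¹), integral_const_mul, integral_const_mul,
    integral_mn _ hΦ k, integral_mn _ hΨ k] at h3
  exact h3

end Pool.MP_75bf3e_an.BT
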