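import Pool.Agent.Lib_MP_75bf3e.ADefs

/-!
# Piece ASTEP: the averaging identity

`A` continuous, supported in the box of half width `D`, even, `∫ A = 0`, `l = 2^k ≥ 4 D`, `Q_c = sq c l`.

`tent_eq`: `∫_c 1_{Q_c}(x) 1_{Q_c}(y) dc = l^2 tent l (x - y)`: the set of corners `c` with `x, y ∈ Q_c` is a product of
two half open intervals of lengths `(l - |x.re - y.re|)₊`, `(l - |x.im - y.im|)₊`.

`step`:
1. On the box of half width `D` we have `tent ≥ (3/4)^2 ≥ 1/2`, so `A z = tl A l z * tent l z` for all `z`.  `tl A l` is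
   continuous, bounded, even, supported in the box.
2. By `tent_eq` and Fubini (all integrands are bounded with bounded support, `f, g` have compact support):
   `II A f g = l^{-2} ∫_c ∫_{x ∈ Q_c} ∫_{y ∈ Q_c} tl(x-y) f(y) g(x) dy dx dc`.
3. `f(y) g(x) = (f(y)-f_Q)(g(x)-g_Q) + f_Q g(x) + f(y) g_Q - f_Q g_Q`.
   * `∫_{y∈Q_c} tl(x-y) dy = F1(x - c)`; by evenness `∫_{x∈Q_c} tl(x-y) dx = F1(y - c)`;
   * `∫_{Q}∫_{Q} tl(x-y) = ∫_z tl(z) |{v : v, v+z ∈ [0,l)²}| dz = l^2 ∫ tl * tent = l^2 ∫ A = 0` (same computation as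
     `tent_eq`), so the last term gives `0`.
4. `l^{-2} ∫_c f_Q ∫_{x∈Q_c} g(x) F1(x-c) dx dc = l^{-4} ∫_c ∫_x ∫_y 1_{Q_c}(x) 1_{Q_c}(y) f(y) g(x) F1(x-c)`; substitute
   `u = x - c` (for fixed `x, y`): `x ∈ Q_c` iff `u ∈ [0,l)²`, `y ∈ Q_c` iff `u - (x-y) ∈ [0,l)²`.  The other term:
   `u = y - c`, `x ∈ Q_c` iff `u + (x-y) ∈ [0,l)²`.  Together: `II (rr A l) f g`.
-/

set_option autoImplicit false

open MeasureTheory

namespace Pool.MP_75bf3e_an.BT

private theorem st_len (a b l : ℝ) (hl : 0 < l) :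
    (volume (Set.Ioc (max a b - l) (min a b))).toReal = l * max 0 (1 - |a - b| / l) := by
  rw [Real.volume_Ioc]
  have h1 : min a b - (max a b - l) = l * (1 - |a - b| / l) := by
    have h2 : max a b - min a b = |a - b| := max_sub_min_eq_abs' a b
    have h3 : l * (1 - |a - b| / l) = l - |a - b| := by
      field_simp
    rw [h3, ← h2]
    ring
  rw [h1]
  rcases le_total 0 (1 - |a - b| / l) with h | h
  · rw [ENNReal.toReal_ofReal (by positivity), max_eq_right h]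
  · rw [ENNReal.ofReal_of_nonpos (mul_nonpos_of_nonneg_of_nonpos hl.le h), max_eq_left h, mul_zero]
    rfl

private theorem st_mem (c x : ℂ) (l : ℝ) : x ∈ sq c l ↔
    c.re ≤ x.re ∧ x.re < c.re + l ∧ c.im ≤ x.im ∧ x.im < c.im + l := Iff.rfl

private theorem st_set {l : ℝ} (x y : ℂ) : {c : ℂ | x ∈ sq c l ∧ y ∈ sq c l} =
    Complex.measurableEquivRealProd ⁻¹' (Set.Ioc (max x.re y.re - l) (min x.re y.re) ×ˢ
      Set.Ioc (max x.im y.im - l) (min x.im y.im)) := by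
  ext c
  simp only [Set.mem_ofPred_eq, st_mem, Set.mem_preimage, Complex.measurableEquivRealProd_apply,
    Set.mem_prod, Set.mem_Ioc, sub_lt_iff_lt_add, max_lt_iff, le_min_iff]
  tauto

private theorem st_meas {l : ℝ} (x y : ℂ) : MeasurableSet {c : ℂ | x ∈ sq c l ∧ y ∈ sq c l} := by
  rw [st_set]
  exact Complex.measurableEquivRealProd.measurable (measurableSet_Ioc.prod measurableSet_Ioc)

open Classical in
theorem tent_eq {l : ℝ} (hl : 0 < l) (x y : ℂ) :
    ∫ c : ℂ, ((if x ∈ sq c l then 1 else 0) * (if y ∈ sq c l then 1 else 0) : ℝ)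
      = l ^ 2 * tent l (x - y) := by
  have h1 : (fun c : ℂ => ((if x ∈ sq c l then 1 else 0) * (if y ∈ sq c l then 1 else 0) : ℝ))
      = {c : ℂ | x ∈ sq c l ∧ y ∈ sq c l}.indicator (fun _ => (1:ℝ)) := by
    funext c
    by_cases h1 : x ∈ sq c l
    · by_cases h2 : y ∈ sq c l
      · rw [Set.indicator_of_mem (show c ∈ {c : ℂ | x ∈ sq c l ∧ y ∈ sq c l} from ⟨h1, h2⟩)]
        simp [h1, h2]
      · rw [Set.indicator_of_notMem (show c ∉ {c : ℂ | x ∈ sq c l ∧ y ∈ sq c l} from fun h => h2 h.2)]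
        simp [h2]
    · rw [Set.indicator_of_notMem (show c ∉ {c : ℂ | x ∈ sq c l ∧ y ∈ sq c l} from fun h => h1 h.1)]
      simp [h1]
  rw [h1, integral_indicator (st_meas x y), setIntegral_const, smul_eq_mul, mul_one, Measure.real,
    st_set, Complex.volume_preserving_equiv_real_prod.measure_preimage
      (measurableSet_Ioc.prod measurableSet_Ioc).nullMeasurableSet, Measure.volume_eq_prod,
    Measure.prod_prod, ENNReal.toReal_mul, st_len _ _ _ hl, st_len _ _ _ hl]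
  unfold tent
  rw [Complex.sub_re, Complex.sub_im]
  ring

theorem half_le_tent {l D : ℝ} (hD : 0 < D) (hl : 4 * D ≤ l) (z : ℂ) (h1 : |z.re| ≤ D)
    (h2 : |z.im| ≤ D) : 1 / 2 ≤ tent l z := by
  have hl0 : 0 < l := by linarith
  have h3 : ∀ t : ℝ, t ≤ D → 3 / 4 ≤ max 0 (1 - t / l) := by
    intro t ht
    refine le_trans ?_ (le_max_right _ _)
    have : t / l ≤ 1 / 4 := by
      rw [div_le_iff₀ hl0]
      linarith
    linarith
  unfold tent
  have h4 := h3 _ h1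
  have h5 := h3 _ h2
  nlinarith

private theorem st_tent_cont {l : ℝ} : Continuous (tent l) := by
  unfold tent
  have h1 : Continuous (fun z : ℂ => |z.re| / l) := (Complex.continuous_re.abs).div_const l
  have h2 : Continuous (fun z : ℂ => |z.im| / l) := (Complex.continuous_im.abs).div_const l
  exact (continuous_const.max (continuous_const.sub h1)).mul
    (continuous_const.max (continuous_const.sub h2))

private theorem st_max_pos (l : ℝ) (z : ℂ) : 0 < max (tent l z) (1 / 2) :=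
  lt_of_lt_of_le (by norm_num) (le_max_right _ _)

theorem continuous_tl (A : ℂ → ℂ) (hA : Continuous A) {l : ℝ} (hl : 0 < l) :
    Continuous (tl A l) := by
  unfold tl
  refine hA.div (Complex.continuous_ofReal.comp (st_tent_cont.max continuous_const)) ?_
  intro z
  exact_mod_cast (st_max_pos l z).ne'

theorem norm_tl_le (A : ℂ → ℂ) (l : ℝ) (z : ℂ) : ‖tl A l z‖ ≤ 2 * ‖A z‖ := by
  unfold tl
  rw [norm_div, Complex.norm_real, Real.norm_eq_abs, abs_of_pos (st_max_pos l z),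
    div_le_iff₀ (st_max_pos l z)]
  have h1 : (1:ℝ) / 2 ≤ max (tent l z) (1 / 2) := le_max_right _ _
  nlinarith [norm_nonneg (A z)]


private def stS (l : ℝ) : Set (ℂ × (ℂ × ℂ)) := {q | q.2.1 ∈ sq q.1 l ∧ q.2.2 ∈ sq q.1 l}

private theorem st_mem_S {l : ℝ} {c : ℂ} {p : ℂ × ℂ} : (c, p) ∈ stS l ↔ p.1 ∈ sq c l ∧ p.2 ∈ sq c l :=
  Iff.rfl

private theorem st_measS (l : ℝ) : MeasurableSet (stS l) := by
  have h1 : ∀ F : ℂ × (ℂ × ℂ) → ℂ, Measurable F → MeasurableSet {q : ℂ × (ℂ × ℂ) | F q ∈ sq q.1 l} := by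
    intro F hF
    have h2 : Measurable (fun q : ℂ × (ℂ × ℂ) => q.1.re) := Complex.measurable_re.comp measurable_fst
    have h3 : Measurable (fun q : ℂ × (ℂ × ℂ) => q.1.im) := Complex.measurable_im.comp measurable_fst
    have h4 : Measurable (fun q : ℂ × (ℂ × ℂ) => (F q).re) := Complex.measurable_re.comp hF
    have h5 : Measurable (fun q : ℂ × (ℂ × ℂ) => (F q).im) := Complex.measurable_im.comp hF
    have e : {q : ℂ × (ℂ × ℂ) | F q ∈ sq q.1 l} = {q | q.1.re ≤ (F q).re} ∩ ({q | (F q).re < q.1.re + l} ∩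
        ({q | q.1.im ≤ (F q).im} ∩ {q | (F q).im < q.1.im + l})) := rfl
    rw [e]
    exact (measurableSet_le h2 h4).inter ((measurableSet_lt h4 (h2.add_const l)).inter
      ((measurableSet_le h3 h5).inter (measurableSet_lt h5 (h3.add_const l))))
  exact (h1 _ (measurable_fst.comp measurable_snd)).inter (h1 _ (measurable_snd.comp measurable_snd))

private theorem st_int {l : ℝ} (hl : 0 < l) (Ψ : ℂ × (ℂ × ℂ) → ℂ) (hΨ : Continuous Ψ) (R : ℝ)
    (hR : ∀ q, R < ‖q.2.1‖ → Ψ q = 0) : Integrable ((stS l).indicator Ψ)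
      ((volume : Measure ℂ).prod (volume : Measure (ℂ × ℂ))) := by
  have h1 : (stS l).indicator Ψ = (stS l ∩ (Metric.closedBall (0:ℂ) (R + 2 * l) ×ˢ
      (Metric.closedBall (0:ℂ) R ×ˢ Metric.closedBall (0:ℂ) (R + 4 * l)))).indicator Ψ := by
    funext q
    by_cases hq : q ∈ stS l
    · rw [Set.indicator_of_mem hq]
      by_cases hx : ‖q.2.1‖ ≤ R
      · rw [Set.indicator_of_mem]
        have h2 : ‖q.2.1 - q.1‖ ≤ 2 * l := by
          have := sq_subset_closedBall q.1 hl.le hq.1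
          rwa [Metric.mem_closedBall, dist_eq_norm] at this
        have h3 : ‖q.2.2 - q.1‖ ≤ 2 * l := by
          have := sq_subset_closedBall q.1 hl.le hq.2
          rwa [Metric.mem_closedBall, dist_eq_norm] at this
        have h4 : ‖q.1‖ ≤ R + 2 * l := by
          have : q.1 = q.2.1 - (q.2.1 - q.1) := by ring
          rw [this]
          exact (norm_sub_le _ _).trans (by linarith)
        have h5 : ‖q.2.2‖ ≤ R + 4 * l := by
          have : q.2.2 = q.1 + (q.2.2 - q.1) := by ring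
          rw [this]
          exact (norm_add_le _ _).trans (by linarith)
        refine ⟨hq, ?_, ?_, ?_⟩
        · rwa [mem_closedBall_zero_iff]
        · rwa [mem_closedBall_zero_iff]
        · rwa [mem_closedBall_zero_iff]
      · rw [hR q (not_le.1 hx)]
        symm
        rw [Set.indicator_apply_eq_zero]
        intro _
        exact hR q (not_le.1 hx)
    · rw [Set.indicator_of_notMem hq, Set.indicator_of_notMem (fun h => hq h.1)]
  rw [h1]
  have h6 : IntegrableOn Ψ (Metric.closedBall (0:ℂ) (R + 2 * l) ×ˢ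
      (Metric.closedBall (0:ℂ) R ×ˢ Metric.closedBall (0:ℂ) (R + 4 * l)))
        ((volume : Measure ℂ).prod (volume : Measure (ℂ × ℂ))) := by
    apply ContinuousOn.integrableOn_compact
    · exact (isCompact_closedBall _ _).prod ((isCompact_closedBall _ _).prod (isCompact_closedBall _ _))
    · exact hΨ.continuousOn
  rw [integrable_indicator_iff ((st_measS l).inter ((measurableSet_closedBall).prod
    (measurableSet_closedBall.prod measurableSet_closedBall)))]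
  exact h6.mono_set Set.inter_subset_right

private theorem st_slice_ind {l : ℝ} (Ψ : ℂ × (ℂ × ℂ) → ℂ) (c : ℂ) (p : ℂ × ℂ) :
    (stS l).indicator Ψ (c, p) = (sq c l ×ˢ sq c l).indicator (fun p => Ψ (c, p)) p := by
  by_cases h : p.1 ∈ sq c l ∧ p.2 ∈ sq c l
  · rw [Set.indicator_of_mem (show (c, p) ∈ stS l from h),
      Set.indicator_of_mem (show p ∈ sq c l ×ˢ sq c l from h)]
  · rw [Set.indicator_of_notMem (show (c, p) ∉ stS l from h),
      Set.indicator_of_notMem (show p ∉ sq c l ×ˢ sq c l from h)]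

private theorem st_intOn {l : ℝ} (hl : 0 < l) (c : ℂ) (φ : ℂ × ℂ → ℂ) (hφ : Continuous φ) :
    IntegrableOn φ (sq c l ×ˢ sq c l) ((volume : Measure ℂ).prod (volume : Measure ℂ)) := by
  have h1 : IntegrableOn φ (Metric.closedBall c (2 * l) ×ˢ Metric.closedBall c (2 * l))
      ((volume : Measure ℂ).prod (volume : Measure ℂ)) := by
    apply ContinuousOn.integrableOn_compact
    · exact (isCompact_closedBall _ _).prod (isCompact_closedBall _ _)
    · exact hφ.continuousOn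
  exact h1.mono_set (Set.prod_mono (sq_subset_closedBall c hl.le) (sq_subset_closedBall c hl.le))

private theorem st_intOn1 {l : ℝ} (hl : 0 < l) (c : ℂ) (φ : ℂ → ℂ) (hφ : Continuous φ) :
    IntegrableOn φ (sq c l) volume := by
  have h1 : IntegrableOn φ (Metric.closedBall c (2 * l)) volume :=
    ContinuousOn.integrableOn_compact (isCompact_closedBall _ _) hφ.continuousOn
  exact h1.mono_set (sq_subset_closedBall c hl.le)

private theorem st_slice {l : ℝ} (Ψ : ℂ × (ℂ × ℂ) → ℂ) (c : ℂ) :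
    ∫ p : ℂ × ℂ, (stS l).indicator Ψ (c, p) = ∫ p in sq c l ×ˢ sq c l, Ψ (c, p) := by
  rw [← integral_indicator ((measurableSet_sq c l).prod (measurableSet_sq c l))]
  exact integral_congr_ae (Filter.Eventually.of_forall fun p => st_slice_ind Ψ c p)

/-- translation of a square -/
private theorem st_shift {l : ℝ} (c : ℂ) (φ : ℂ → ℂ) :
    ∫ y in sq c l, φ y = ∫ v in sq 0 l, φ (c + v) := by
  rw [← integral_indicator (measurableSet_sq c l), ← integral_indicator (measurableSet_sq 0 l),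
    ← integral_add_left_eq_self _ c]
  refine integral_congr_ae (Filter.Eventually.of_forall fun v => ?_)
  have h1 : c + v ∈ sq c l ↔ v ∈ sq 0 l := by
    simp only [st_mem, Complex.add_re, Complex.add_im, Complex.zero_re, Complex.zero_im]
    constructor
    · rintro ⟨h1, h2, h3, h4⟩
      exact ⟨by linarith, by linarith, by linarith, by linarith⟩
    · rintro ⟨h1, h2, h3, h4⟩
      exact ⟨by linarith, by linarith, by linarith, by linarith⟩
  by_cases h2 : v ∈ sq 0 l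
  · rw [Set.indicator_of_mem h2]
    exact Set.indicator_of_mem (h1.2 h2) _
  · rw [Set.indicator_of_notMem h2]
    exact Set.indicator_of_notMem (fun h => h2 (h1.1 h)) _

section main

variable {l : ℝ} {H : ℂ → ℂ}

private theorem st_F1_cont (hH : Continuous H) (hHs : HasCompactSupport H) (hl : 0 < l) :
    Continuous (fun u : ℂ => ∫ v in sq 0 l, H (u - v)) := by
  obtain ⟨C, hC⟩ := hH.bounded_above_of_compact_support hHs
  have : IsFiniteMeasure (volume.restrict (sq (0:ℂ) l)) := by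
    refine ⟨?_⟩
    rw [Measure.restrict_apply_univ, volume_sq 0 hl.le]
    exact ENNReal.ofReal_lt_top
  apply continuous_of_dominated (bound := fun _ => C)
  · intro u
    exact (hH.comp (continuous_const.sub continuous_id)).aestronglyMeasurable
  · intro u
    exact Filter.Eventually.of_forall fun v => hC _
  · exact integrable_const C
  · exact Filter.Eventually.of_forall fun v => hH.comp (continuous_id.sub continuous_const)

private theorem st_F1_shift (x c : ℂ) :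
    ∫ y in sq c l, H (x - y) = ∫ v in sq 0 l, H (x - c - v) := by
  rw [st_shift]
  refine integral_congr_ae (Filter.Eventually.of_forall fun v => ?_)
  simp only [sub_sub]

private theorem st_mem0 (c x : ℂ) : x ∈ sq (x - c) l ↔ c ∈ sq 0 l := by
  simp only [st_mem, Complex.sub_re, Complex.sub_im, Complex.zero_re, Complex.zero_im]
  constructor
  · rintro ⟨h1, h2, h3, h4⟩
    exact ⟨by linarith, by linarith, by linarith, by linarith⟩
  · rintro ⟨h1, h2, h3, h4⟩
    exact ⟨by linarith, by linarith, by linarith, by linarith⟩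

private theorem st_mem1 (u x y : ℂ) : y ∈ sq (x - u) l ↔ u - (x - y) ∈ sq 0 l := by
  simp only [st_mem, Complex.sub_re, Complex.sub_im, Complex.zero_re, Complex.zero_im]
  constructor
  · rintro ⟨h1, h2, h3, h4⟩
    exact ⟨by linarith, by linarith, by linarith, by linarith⟩
  · rintro ⟨h1, h2, h3, h4⟩
    exact ⟨by linarith, by linarith, by linarith, by linarith⟩

private theorem st_mem2 (u x y : ℂ) : x ∈ sq (y - u) l ↔ u + (x - y) ∈ sq 0 l := by
  rw [st_mem1]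
  have : u - (y - x) = u + (x - y) := by ring
  rw [this]

/-- the second mean vanishes -/
private theorem st_J (hH : Continuous H) (hl : 0 < l) (h0 : ∫ z, H z * ((tent l z : ℝ) : ℂ) = 0) :
    ∫ u in sq 0 l, ∫ v in sq 0 l, H (u - v) = 0 := by
  have hcont : Continuous (fun p : ℂ × ℂ => H (p.1 - p.2)) := hH.comp (continuous_fst.sub continuous_snd)
  have h1 := setIntegral_prod (μ := (volume : Measure ℂ)) (ν := (volume : Measure ℂ)) _
    (st_intOn hl 0 _ hcont)
  rw [← h1]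
  have h2 : ∫ p in sq 0 l ×ˢ sq 0 l, H (p.1 - p.2) ∂((volume : Measure ℂ).prod (volume : Measure ℂ)) =
      ∫ v in sq 0 l, ∫ u in sq 0 l, H (u - v) := by
    rw [← setIntegral_prod_swap, setIntegral_prod]
    · rfl
    · exact st_intOn hl 0 (fun p : ℂ × ℂ => H (p.swap.1 - p.swap.2)) (hcont.comp continuous_swap)
  rw [h2]
  have hT : MeasurableSet {q : ℂ × ℂ | q.1 ∈ sq 0 l ∧ q.2 + q.1 ∈ sq 0 l} :=
    (measurable_fst (measurableSet_sq 0 l)).inter
      ((measurable_snd.add measurable_fst) (measurableSet_sq 0 l))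
  have h3 : ∀ v : ℂ, (sq 0 l).indicator (fun v => ∫ u in sq 0 l, H (u - v)) v =
      ∫ z, {q : ℂ × ℂ | q.1 ∈ sq 0 l ∧ q.2 + q.1 ∈ sq 0 l}.indicator (fun q => H q.2) (v, z) := by
    intro v
    by_cases hv : v ∈ sq 0 l
    · rw [Set.indicator_of_mem hv, ← integral_indicator (measurableSet_sq 0 l),
        ← integral_add_right_eq_self _ v]
      refine integral_congr_ae (Filter.Eventually.of_forall fun z => ?_)
      show (sq 0 l).indicator (fun u => H (u - v)) (z + v) =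
        {q : ℂ × ℂ | q.1 ∈ sq 0 l ∧ q.2 + q.1 ∈ sq 0 l}.indicator (fun q => H q.2) (v, z)
      by_cases hz : z + v ∈ sq 0 l
      · rw [Set.indicator_of_mem hz, Set.indicator_of_mem
          (show (v, z) ∈ {q : ℂ × ℂ | q.1 ∈ sq 0 l ∧ q.2 + q.1 ∈ sq 0 l} from ⟨hv, hz⟩), add_sub_cancel_right]
      · rw [Set.indicator_of_notMem hz, Set.indicator_of_notMem
          (show (v, z) ∉ {q : ℂ × ℂ | q.1 ∈ sq 0 l ∧ q.2 + q.1 ∈ sq 0 l} from fun h => hz h.2)]
    · rw [Set.indicator_of_notMem hv]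
      symm
      apply integral_eq_zero_of_ae
      exact Filter.Eventually.of_forall fun z => Set.indicator_of_notMem
        (show (v, z) ∉ {q : ℂ × ℂ | q.1 ∈ sq 0 l ∧ q.2 + q.1 ∈ sq 0 l} from fun h => hv h.1) _
  have hint : Integrable ({q : ℂ × ℂ | q.1 ∈ sq 0 l ∧ q.2 + q.1 ∈ sq 0 l}.indicator
      (fun q : ℂ × ℂ => H q.2)) ((volume : Measure ℂ).prod (volume : Measure ℂ)) := by
    rw [integrable_indicator_iff hT]
    have h4 : IntegrableOn (fun q : ℂ × ℂ => H q.2) (Metric.closedBall (0:ℂ) (2 * l) ×ˢ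
        Metric.closedBall (0:ℂ) (4 * l)) ((volume : Measure ℂ).prod (volume : Measure ℂ)) := by
      apply ContinuousOn.integrableOn_compact
      · exact (isCompact_closedBall _ _).prod (isCompact_closedBall _ _)
      · exact (hH.comp continuous_snd).continuousOn
    refine h4.mono_set ?_
    rintro ⟨v, z⟩ ⟨hv, hz⟩
    have h5 := sq_subset_closedBall 0 hl.le hv
    have h6 := sq_subset_closedBall 0 hl.le hz
    rw [mem_closedBall_zero_iff] at h5 h6
    refine ⟨by rwa [mem_closedBall_zero_iff], ?_⟩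
    rw [mem_closedBall_zero_iff]
    have h7 : z = (z + v) - v := by ring
    show ‖z‖ ≤ 4 * l
    rw [h7]
    exact (norm_sub_le _ _).trans (by linarith)
  rw [← integral_indicator (measurableSet_sq 0 l)]
  rw [integral_congr_ae (Filter.Eventually.of_forall h3)]
  rw [integral_integral_swap (f := fun v z => {q : ℂ × ℂ | q.1 ∈ sq 0 l ∧ q.2 + q.1 ∈ sq 0 l}.indicator
      (fun q : ℂ × ℂ => H q.2) (v, z)) hint]
  have h8 : ∀ z : ℂ, ∫ v, {q : ℂ × ℂ | q.1 ∈ sq 0 l ∧ q.2 + q.1 ∈ sq 0 l}.indicator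
      (fun q : ℂ × ℂ => H q.2) (v, z) = ((l ^ 2 : ℝ) : ℂ) * (H z * ((tent l z : ℝ) : ℂ)) := by
    intro z
    classical
    have h9 := tent_eq hl z 0
    rw [sub_zero, ← integral_neg_eq_self] at h9
    have h10 : ∀ v : ℂ, {q : ℂ × ℂ | q.1 ∈ sq 0 l ∧ q.2 + q.1 ∈ sq 0 l}.indicator
        (fun q : ℂ × ℂ => H q.2) (v, z) =
        ((((if z ∈ sq (-v) l then 1 else 0) * (if (0:ℂ) ∈ sq (-v) l then 1 else 0) : ℝ)) : ℂ) * H z := by
      intro v
      have e1 : (z ∈ sq (-v) l) ↔ z + v ∈ sq 0 l := by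
        have := st_mem2 (l := l) v z 0
        rw [zero_sub, sub_zero, add_comm v z] at this
        exact this
      have e2 : ((0:ℂ) ∈ sq (-v) l) ↔ v ∈ sq 0 l := by
        have := st_mem0 (l := l) v 0
        rw [zero_sub] at this
        exact this
      by_cases hv : v ∈ sq 0 l
      · by_cases hz : z + v ∈ sq 0 l
        · rw [Set.indicator_of_mem (show (v, z) ∈ {q : ℂ × ℂ | q.1 ∈ sq 0 l ∧ q.2 + q.1 ∈ sq 0 l} from ⟨hv, hz⟩),
            if_pos (e1.2 hz), if_pos (e2.2 hv)]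
          simp
        · rw [Set.indicator_of_notMem (show (v, z) ∉ {q : ℂ × ℂ | q.1 ∈ sq 0 l ∧ q.2 + q.1 ∈ sq 0 l}
            from fun h => hz h.2), if_neg (fun h => hz (e1.1 h))]
          simp
      · rw [Set.indicator_of_notMem (show (v, z) ∉ {q : ℂ × ℂ | q.1 ∈ sq 0 l ∧ q.2 + q.1 ∈ sq 0 l}
            from fun h => hv h.1), if_neg (fun h => hv (e2.1 h))]
        simp
    have h11 : ∫ v : ℂ, ((((if z ∈ sq (-v) l then 1 else 0) * (if (0:ℂ) ∈ sq (-v) l then 1 else 0) : ℝ)) : ℂ) =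
        ((l ^ 2 * tent l z : ℝ) : ℂ) := by
      rw [← h9]
      exact integral_ofReal
    rw [integral_congr_ae (Filter.Eventually.of_forall h10), integral_mul_const, h11]
    push_cast
    ring
  rw [integral_congr_ae (Filter.Eventually.of_forall h8), integral_const_mul, h0, mul_zero]

private theorem st_lin4 {μ : Measure (ℂ × ℂ)} {F0 F1 F2 F3 F4 : ℂ × ℂ → ℂ} (i1 : Integrable F1 μ)
    (i2 : Integrable F2 μ) (i3 : Integrable F3 μ) (i4 : Integrable F4 μ)
    (h : ∀ p, F0 p = F1 p - F2 p - F3 p + F4 p) :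
    ∫ p, F0 p ∂μ = (∫ p, F1 p ∂μ) - (∫ p, F2 p ∂μ) - (∫ p, F3 p ∂μ) + (∫ p, F4 p ∂μ) := by
  have e1 : F0 = F1 - F2 - F3 + F4 := by
    funext p
    exact h p
  rw [e1, integral_add' ((i1.sub i2).sub i3) i4, integral_sub' (i1.sub i2) i3, integral_sub' i1 i2]

private theorem st_W (hH : Continuous H) (hHs : HasCompactSupport H) (hev : ∀ z, H (-z) = H z) (hl : 0 < l)
    (h0 : ∫ z, H z * ((tent l z : ℝ) : ℂ) = 0) (f g : ℂ → ℝ) (hf : Continuous f) (hg : Continuous g)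
    (c : ℂ) (a b : ℝ) (ha : a = (l * l)⁻¹ * ∫ z in sq c l, f z) (hb : b = (l * l)⁻¹ * ∫ z in sq c l, g z) :
    ∫ x in sq c l, ∫ y in sq c l, H (x - y) * (((f y - a) * (g x - b) : ℝ) : ℂ) =
      (∫ p in sq c l ×ˢ sq c l, H (p.1 - p.2) * ((f p.2 * g p.1 : ℝ) : ℂ))
      - ((l * l : ℝ) : ℂ)⁻¹ * (∫ p in sq c l ×ˢ sq c l,
          (∫ v in sq 0 l, H (p.1 - c - v)) * ((f p.2 * g p.1 : ℝ) : ℂ))
      - ((l * l : ℝ) : ℂ)⁻¹ * (∫ p in sq c l ×ˢ sq c l,
          (∫ v in sq 0 l, H (p.2 - c - v)) * ((f p.2 * g p.1 : ℝ) : ℂ)) := by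
  have hF := st_F1_cont hH hHs hl
  have hcH : Continuous (fun p : ℂ × ℂ => H (p.1 - p.2)) := hH.comp (continuous_fst.sub continuous_snd)
  have hcf : Continuous (fun x : ℂ => ((f x : ℝ) : ℂ)) := Complex.continuous_ofReal.comp hf
  have hcg : Continuous (fun x : ℂ => ((g x : ℝ) : ℂ)) := Complex.continuous_ofReal.comp hg
  have hcf2 : Continuous (fun p : ℂ × ℂ => ((f p.2 : ℝ) : ℂ)) := hcf.comp continuous_snd
  have hcg1 : Continuous (fun p : ℂ × ℂ => ((g p.1 : ℝ) : ℂ)) := hcg.comp continuous_fst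
  have c1 : Continuous (fun p : ℂ × ℂ => H (p.1 - p.2) * ((f p.2 * g p.1 : ℝ) : ℂ)) := by
    simp only [Complex.ofReal_mul]
    exact hcH.mul (hcf2.mul hcg1)
  have c2 : Continuous (fun p : ℂ × ℂ => (a : ℂ) * (((g p.1 : ℝ) : ℂ) * H (p.1 - p.2))) :=
    continuous_const.mul (hcg1.mul hcH)
  have c3 : Continuous (fun p : ℂ × ℂ => (b : ℂ) * (((f p.2 : ℝ) : ℂ) * H (p.1 - p.2))) :=
    continuous_const.mul (hcf2.mul hcH)
  have c4 : Continuous (fun p : ℂ × ℂ => ((a : ℂ) * (b : ℂ)) * H (p.1 - p.2)) :=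
    continuous_const.mul hcH
  have c0 : Continuous (fun p : ℂ × ℂ => H (p.1 - p.2) * (((f p.2 - a) * (g p.1 - b) : ℝ) : ℂ)) := by
    refine hcH.mul (Complex.continuous_ofReal.comp ?_)
    exact ((hf.comp continuous_snd).sub continuous_const).mul ((hg.comp continuous_fst).sub continuous_const)
  have e0 := setIntegral_prod (μ := (volume : Measure ℂ)) (ν := (volume : Measure ℂ)) _ (st_intOn hl c _ c0)
  have e1 : ∫ p in sq c l ×ˢ sq c l, H (p.1 - p.2) * (((f p.2 - a) * (g p.1 - b) : ℝ) : ℂ)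
        ∂((volume : Measure ℂ).prod (volume : Measure ℂ)) =
      (∫ p in sq c l ×ˢ sq c l, H (p.1 - p.2) * ((f p.2 * g p.1 : ℝ) : ℂ)
        ∂((volume : Measure ℂ).prod (volume : Measure ℂ)))
      - (∫ p in sq c l ×ˢ sq c l, (a : ℂ) * (((g p.1 : ℝ) : ℂ) * H (p.1 - p.2))
        ∂((volume : Measure ℂ).prod (volume : Measure ℂ)))
      - (∫ p in sq c l ×ˢ sq c l, (b : ℂ) * (((f p.2 : ℝ) : ℂ) * H (p.1 - p.2))
        ∂((volume : Measure ℂ).prod (volume : Measure ℂ)))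
      + (∫ p in sq c l ×ˢ sq c l, ((a : ℂ) * (b : ℂ)) * H (p.1 - p.2)
        ∂((volume : Measure ℂ).prod (volume : Measure ℂ))) := by
    refine st_lin4 (st_intOn hl c _ c1) (st_intOn hl c _ c2) (st_intOn hl c _ c3) (st_intOn hl c _ c4) fun p => ?_
    push_cast
    ring
  -- the second term
  have e2 : ∫ p in sq c l ×ˢ sq c l, (a : ℂ) * (((g p.1 : ℝ) : ℂ) * H (p.1 - p.2))
        ∂((volume : Measure ℂ).prod (volume : Measure ℂ)) =
      ((l * l : ℝ) : ℂ)⁻¹ * (∫ p in sq c l ×ˢ sq c l,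
          (∫ v in sq 0 l, H (p.1 - c - v)) * ((f p.2 * g p.1 : ℝ) : ℂ)
            ∂((volume : Measure ℂ).prod (volume : Measure ℂ))) := by
    have j1 : ∫ p in sq c l ×ˢ sq c l, (a : ℂ) * (((g p.1 : ℝ) : ℂ) * H (p.1 - p.2))
        ∂((volume : Measure ℂ).prod (volume : Measure ℂ)) =
        (a : ℂ) * ∫ x in sq c l, ((g x : ℝ) : ℂ) * (∫ v in sq 0 l, H (x - c - v)) := by
      rw [integral_const_mul, setIntegral_prod (fun p : ℂ × ℂ => ((g p.1 : ℝ) : ℂ) * H (p.1 - p.2))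
        (st_intOn hl c _ (hcg1.mul hcH))]
      congr 1
      refine integral_congr_ae (Filter.Eventually.of_forall fun x => ?_)
      show ∫ y in sq c l, ((g x : ℝ) : ℂ) * H (x - y) = _
      rw [integral_const_mul, st_F1_shift]
    have j2 : ∫ p in sq c l ×ˢ sq c l,
          (∫ v in sq 0 l, H (p.1 - c - v)) * ((f p.2 * g p.1 : ℝ) : ℂ)
            ∂((volume : Measure ℂ).prod (volume : Measure ℂ)) =
        (∫ x in sq c l, ((g x : ℝ) : ℂ) * (∫ v in sq 0 l, H (x - c - v))) *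
          ∫ y in sq c l, ((f y : ℝ) : ℂ) := by
      rw [← setIntegral_prod_mul]
      refine integral_congr_ae (Filter.Eventually.of_forall fun p => ?_)
      simp only []
      push_cast
      ring
    have j3 : ∫ y in sq c l, ((f y : ℝ) : ℂ) = ((∫ y in sq c l, f y : ℝ) : ℂ) := integral_ofReal
    rw [j1, j2, j3, ha]
    push_cast
    ring
  -- the third term
  have e3 : ∫ p in sq c l ×ˢ sq c l, (b : ℂ) * (((f p.2 : ℝ) : ℂ) * H (p.1 - p.2))
        ∂((volume : Measure ℂ).prod (volume : Measure ℂ)) =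
      ((l * l : ℝ) : ℂ)⁻¹ * (∫ p in sq c l ×ˢ sq c l,
          (∫ v in sq 0 l, H (p.2 - c - v)) * ((f p.2 * g p.1 : ℝ) : ℂ)
            ∂((volume : Measure ℂ).prod (volume : Measure ℂ))) := by
    have j1 : ∫ p in sq c l ×ˢ sq c l, (b : ℂ) * (((f p.2 : ℝ) : ℂ) * H (p.1 - p.2))
        ∂((volume : Measure ℂ).prod (volume : Measure ℂ)) =
        (b : ℂ) * ∫ y in sq c l, ((f y : ℝ) : ℂ) * (∫ v in sq 0 l, H (y - c - v)) := by
      rw [integral_const_mul, ← setIntegral_prod_swap, setIntegral_prod _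
        (st_intOn hl c (fun p : ℂ × ℂ => ((f p.swap.2 : ℝ) : ℂ) * H (p.swap.1 - p.swap.2))
          ((hcf2.mul hcH).comp continuous_swap))]
      congr 1
      refine integral_congr_ae (Filter.Eventually.of_forall fun y => ?_)
      show ∫ x in sq c l, ((f y : ℝ) : ℂ) * H (x - y) = ((f y : ℝ) : ℂ) * (∫ v in sq 0 l, H (y - c - v))
      rw [integral_const_mul, ← st_F1_shift]
      congr 1
      refine integral_congr_ae (Filter.Eventually.of_forall fun x => ?_)
      show H (x - y) = H (y - x)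
      rw [← hev, neg_sub]
    have j2 : ∫ p in sq c l ×ˢ sq c l,
          (∫ v in sq 0 l, H (p.2 - c - v)) * ((f p.2 * g p.1 : ℝ) : ℂ)
            ∂((volume : Measure ℂ).prod (volume : Measure ℂ)) =
        (∫ x in sq c l, ((g x : ℝ) : ℂ)) *
          ∫ y in sq c l, ((f y : ℝ) : ℂ) * (∫ v in sq 0 l, H (y - c - v)) := by
      rw [← setIntegral_prod_mul]
      refine integral_congr_ae (Filter.Eventually.of_forall fun p => ?_)
      simp only []
      push_cast
      ring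
    have j3 : ∫ y in sq c l, ((g y : ℝ) : ℂ) = ((∫ y in sq c l, g y : ℝ) : ℂ) := integral_ofReal
    rw [j1, j2, j3, hb]
    push_cast
    ring
  -- the fourth term
  have e4 : ∫ p in sq c l ×ˢ sq c l, ((a : ℂ) * (b : ℂ)) * H (p.1 - p.2)
        ∂((volume : Measure ℂ).prod (volume : Measure ℂ)) = 0 := by
    rw [integral_const_mul, setIntegral_prod _ (st_intOn hl c _ hcH)]
    have j1 : ∫ x in sq c l, ∫ y in sq c l, H (x - y) = 0 := by
      rw [st_shift c (fun x => ∫ y in sq c l, H (x - y))]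
      refine Eq.trans (integral_congr_ae (Filter.Eventually.of_forall fun u => ?_)) (st_J hH hl h0)
      show ∫ y in sq c l, H (c + u - y) = ∫ v in sq 0 l, H (u - v)
      rw [st_F1_shift, add_sub_cancel_left]
    rw [j1, mul_zero]
  have e5 : ∫ x in sq c l, ∫ y in sq c l, H (x - y) * (((f y - a) * (g x - b) : ℝ) : ℂ) =
      ∫ p in sq c l ×ˢ sq c l, H (p.1 - p.2) * (((f p.2 - a) * (g p.1 - b) : ℝ) : ℂ)
        ∂((volume : Measure ℂ).prod (volume : Measure ℂ)) := e0.symm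
  rw [e5, e1, e2, e3, e4, add_zero, Measure.volume_eq_prod]

private theorem st_fub (hl : 0 < l) (Ψ : ℂ × (ℂ × ℂ) → ℂ) (hΨ : Continuous Ψ) (R : ℝ)
    (hR : ∀ q, R < ‖q.2.1‖ → Ψ q = 0) :
    Integrable (fun c : ℂ => ∫ p in sq c l ×ˢ sq c l, Ψ (c, p)) ∧
    Integrable (fun p : ℂ × ℂ => ∫ c : ℂ, (stS l).indicator Ψ (c, p)) ∧
    ∫ c : ℂ, ∫ p in sq c l ×ˢ sq c l, Ψ (c, p) = ∫ p : ℂ × ℂ, ∫ c : ℂ, (stS l).indicator Ψ (c, p) := by
  have h1 := st_int hl Ψ hΨ R hR
  have h2 : (fun c : ℂ => ∫ p in sq c l ×ˢ sq c l, Ψ (c, p)) =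
      fun c : ℂ => ∫ p : ℂ × ℂ, (stS l).indicator Ψ (c, p) := by
    funext c
    rw [st_slice]
  refine ⟨?_, h1.integral_prod_right, ?_⟩
  · rw [h2]
    exact h1.integral_prod_left
  · rw [h2]
    exact integral_integral_swap (f := fun c p => (stS l).indicator Ψ (c, p)) h1

private theorem st_M2 (F : ℂ → ℂ) (w : ℂ × ℂ → ℂ) (p : ℂ × ℂ) :
    ∫ c : ℂ, (stS l).indicator (fun q : ℂ × (ℂ × ℂ) => F (q.2.1 - q.1) * w q.2) (c, p) =
      ∫ u in sq 0 l, {u : ℂ | u - (p.1 - p.2) ∈ sq 0 l}.indicator F u * w p := by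
  rw [← integral_indicator (measurableSet_sq 0 l), ← integral_sub_left_eq_self _ _ p.1]
  refine integral_congr_ae (Filter.Eventually.of_forall fun u => ?_)
  show (stS l).indicator (fun q : ℂ × (ℂ × ℂ) => F (q.2.1 - q.1) * w q.2) (p.1 - u, p) =
    (sq 0 l).indicator (fun u => {u : ℂ | u - (p.1 - p.2) ∈ sq 0 l}.indicator F u * w p) u
  by_cases h1 : u ∈ sq 0 l
  · rw [Set.indicator_of_mem h1]
    by_cases h2 : u - (p.1 - p.2) ∈ sq 0 l
    · rw [Set.indicator_of_mem (show u ∈ {u : ℂ | u - (p.1 - p.2) ∈ sq 0 l} from h2),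
        Set.indicator_of_mem (show (p.1 - u, p) ∈ stS l from ⟨(st_mem0 u p.1).2 h1, (st_mem1 u p.1 p.2).2 h2⟩)]
      show F (p.1 - (p.1 - u)) * w p = F u * w p
      rw [sub_sub_cancel]
    · rw [Set.indicator_of_notMem (show u ∉ {u : ℂ | u - (p.1 - p.2) ∈ sq 0 l} from h2), zero_mul,
        Set.indicator_of_notMem (show (p.1 - u, p) ∉ stS l from fun h => h2 ((st_mem1 u p.1 p.2).1 h.2))]
  · rw [Set.indicator_of_notMem h1,
      Set.indicator_of_notMem (show (p.1 - u, p) ∉ stS l from fun h => h1 ((st_mem0 u p.1).1 h.1))]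

private theorem st_M3 (F : ℂ → ℂ) (w : ℂ × ℂ → ℂ) (p : ℂ × ℂ) :
    ∫ c : ℂ, (stS l).indicator (fun q : ℂ × (ℂ × ℂ) => F (q.2.2 - q.1) * w q.2) (c, p) =
      ∫ u in sq 0 l, {u : ℂ | u + (p.1 - p.2) ∈ sq 0 l}.indicator F u * w p := by
  rw [← integral_indicator (measurableSet_sq 0 l), ← integral_sub_left_eq_self _ _ p.2]
  refine integral_congr_ae (Filter.Eventually.of_forall fun u => ?_)
  show (stS l).indicator (fun q : ℂ × (ℂ × ℂ) => F (q.2.2 - q.1) * w q.2) (p.2 - u, p) =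
    (sq 0 l).indicator (fun u => {u : ℂ | u + (p.1 - p.2) ∈ sq 0 l}.indicator F u * w p) u
  by_cases h1 : u ∈ sq 0 l
  · rw [Set.indicator_of_mem h1]
    by_cases h2 : u + (p.1 - p.2) ∈ sq 0 l
    · rw [Set.indicator_of_mem (show u ∈ {u : ℂ | u + (p.1 - p.2) ∈ sq 0 l} from h2),
        Set.indicator_of_mem (show (p.2 - u, p) ∈ stS l from ⟨(st_mem2 u p.1 p.2).2 h2, (st_mem0 u p.2).2 h1⟩)]
      show F (p.2 - (p.2 - u)) * w p = F u * w p
      rw [sub_sub_cancel]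
    · rw [Set.indicator_of_notMem (show u ∉ {u : ℂ | u + (p.1 - p.2) ∈ sq 0 l} from h2), zero_mul,
        Set.indicator_of_notMem (show (p.2 - u, p) ∉ stS l from fun h => h2 ((st_mem2 u p.1 p.2).1 h.1))]
  · rw [Set.indicator_of_notMem h1,
      Set.indicator_of_notMem (show (p.2 - u, p) ∉ stS l from fun h => h1 ((st_mem0 u p.2).1 h.2))]

private theorem st_M1 (hl : 0 < l) (w : ℂ × ℂ → ℂ) (p : ℂ × ℂ) :
    ∫ c : ℂ, (stS l).indicator (fun q : ℂ × (ℂ × ℂ) => w q.2) (c, p) =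
      ((l ^ 2 * tent l (p.1 - p.2) : ℝ) : ℂ) * w p := by
  classical
  have h1 : ∀ c : ℂ, (stS l).indicator (fun q : ℂ × (ℂ × ℂ) => w q.2) (c, p) =
      (((if p.1 ∈ sq c l then 1 else 0) * (if p.2 ∈ sq c l then 1 else 0) : ℝ) : ℂ) * w p := by
    intro c
    by_cases h1 : p.1 ∈ sq c l
    · by_cases h2 : p.2 ∈ sq c l
      · rw [Set.indicator_of_mem (show (c, p) ∈ stS l from ⟨h1, h2⟩), if_pos h1, if_pos h2]
        simp
      · rw [Set.indicator_of_notMem (show (c, p) ∉ stS l from fun h => h2 h.2), if_neg h2]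
        simp
    · rw [Set.indicator_of_notMem (show (c, p) ∉ stS l from fun h => h1 h.1), if_neg h1]
      simp
  have h2 : ∫ c : ℂ, (((if p.1 ∈ sq c l then 1 else 0) * (if p.2 ∈ sq c l then 1 else 0) : ℝ) : ℂ) =
      ((l ^ 2 * tent l (p.1 - p.2) : ℝ) : ℂ) := by
    rw [← tent_eq hl p.1 p.2]
    exact integral_ofReal
  rw [integral_congr_ae (Filter.Eventually.of_forall h1), integral_mul_const, h2]

end main

private theorem st_rr (A : ℂ → ℂ) {l : ℝ} (hl : 0 < l) (hF : Continuous (F1 A l)) (z w : ℂ) :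
    (∫ u in sq 0 l, {u : ℂ | u - z ∈ sq 0 l}.indicator (F1 A l) u * w) +
      (∫ u in sq 0 l, {u : ℂ | u + z ∈ sq 0 l}.indicator (F1 A l) u * w) =
      ((l ^ 4 : ℝ) : ℂ) * (rr A l z * w) := by
  have hm1 : MeasurableSet {u : ℂ | u - z ∈ sq 0 l} := (measurable_id.sub_const z) (measurableSet_sq 0 l)
  have hm2 : MeasurableSet {u : ℂ | u + z ∈ sq 0 l} := (measurable_id.add_const z) (measurableSet_sq 0 l)
  have h1 := st_intOn1 hl 0 _ hF
  rw [integral_mul_const, integral_mul_const, ← add_mul, ← integral_add (h1.indicator hm1) (h1.indicator hm2)]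
  unfold rr
  have hl4 : ((l ^ 4 : ℝ) : ℂ) ≠ 0 := by
    exact_mod_cast (pow_pos hl 4).ne'
  rw [← mul_assoc, ← mul_assoc, mul_inv_cancel₀ hl4, one_mul]
  congr 1
  refine integral_congr_ae (Filter.Eventually.of_forall fun u => ?_)
  by_cases h2 : u - z ∈ sq 0 l
  · by_cases h3 : u + z ∈ sq 0 l
    · simp [Set.indicator, h2, h3]
      ring
    · simp [Set.indicator, h2, h3]
  · by_cases h3 : u + z ∈ sq 0 l
    · simp [Set.indicator, h2, h3]
    · simp [Set.indicator, h2, h3]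

private theorem st_lin3 {μ : Measure ℂ} {F0 F1 F2 F3 : ℂ → ℂ} (i1 : Integrable F1 μ)
    (i2 : Integrable F2 μ) (i3 : Integrable F3 μ)
    (h : ∀ p, F0 p = F1 p - F2 p - F3 p) :
    ∫ p, F0 p ∂μ = (∫ p, F1 p ∂μ) - (∫ p, F2 p ∂μ) - (∫ p, F3 p ∂μ) := by
  have e1 : F0 = F1 - F2 - F3 := by
    funext p
    exact h p
  rw [e1, integral_sub' (i1.sub i2) i3, integral_sub' i1 i2]

theorem step (A : ℂ → ℂ) (hA : Continuous A) (D : ℝ) (hD : 0 < D)
    (hsupp : ∀ z : ℂ, (D ≤ |z.re| ∨ D ≤ |z.im|) → A z = 0) (heven : ∀ z, A (-z) = A z)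
    (hmean : ∫ z, A z = 0) (k : ℤ) (hk : 4 * D ≤ (2 : ℝ) ^ k) (f g : ℂ → ℝ)
    (hf : Continuous f) (hfs : HasCompactSupport f) (hg : Continuous g) (hgs : HasCompactSupport g) :
    II A f g = (((2 : ℝ) ^ k * (2 : ℝ) ^ k : ℝ) : ℂ)⁻¹ * (∫ c : ℂ, WW (tl A ((2 : ℝ) ^ k)) f g (c, k))
      + II (rr A ((2 : ℝ) ^ k)) f g := by
  have hl : (0:ℝ) < (2 : ℝ) ^ k := by positivity
  obtain ⟨l, hl'⟩ : ∃ l : ℝ, l = (2:ℝ) ^ k := ⟨_, rfl⟩
  obtain ⟨H, hH'⟩ : ∃ H : ℂ → ℂ, H = tl A l := ⟨_, rfl⟩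
  have hWW : ∀ c : ℂ, WW (tl A ((2 : ℝ) ^ k)) f g (c, k) =
      ∫ x in sq c l, ∫ y in sq c l, H (x - y) * (((f y - (l * l)⁻¹ * ∫ z in sq c l, f z) *
        (g x - (l * l)⁻¹ * ∫ z in sq c l, g z) : ℝ) : ℂ) := by
    intro c
    rw [hH', hl']
    rfl
  rw [← hl'] at hl hk ⊢
  rw [← hl'] at hWW
  have hAH : ∀ z, A z = H z * ((tent l z : ℝ) : ℂ) := by
    intro z
    by_cases h1 : D ≤ |z.re| ∨ D ≤ |z.im|
    · rw [hH']
      unfold tl
      rw [hsupp z h1, zero_div, zero_mul]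
    · push Not at h1
      have h2 := half_le_tent hD hk z h1.1.le h1.2.le
      have h3 : ((tent l z : ℝ) : ℂ) ≠ 0 := by
        have : 0 < tent l z := by linarith
        exact_mod_cast this.ne'
      rw [hH']
      unfold tl
      rw [max_eq_left h2, div_mul_cancel₀ _ h3]
  have h0 : ∫ z, H z * ((tent l z : ℝ) : ℂ) = 0 := by
    rw [← hmean]
    exact integral_congr_ae (Filter.Eventually.of_forall fun z => (hAH z).symm)
  have hH : Continuous H := by
    rw [hH']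
    exact continuous_tl A hA hl
  have hHs : HasCompactSupport H := by
    refine HasCompactSupport.intro (isCompact_closedBall (0:ℂ) (2 * D)) fun z hz => ?_
    have h1 : D ≤ |z.re| ∨ D ≤ |z.im| := by
      by_contra hcon
      push Not at hcon
      apply hz
      rw [mem_closedBall_zero_iff]
      have := Complex.norm_le_abs_re_add_abs_im z
      linarith [hcon.1, hcon.2]
    rw [hH']
    unfold tl
    rw [hsupp z h1, zero_div]
  have hev : ∀ z, H (-z) = H z := by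
    intro z
    rw [hH']
    unfold tl tent
    rw [heven, Complex.neg_re, Complex.neg_im, abs_neg, abs_neg]
  have hFdef : ∀ u, F1 A l u = ∫ v in sq 0 l, H (u - v) := by
    intro u
    rw [hH']
    rfl
  have hF : Continuous (F1 A l) := by
    have := st_F1_cont hH hHs hl
    have e : F1 A l = fun u => ∫ v in sq 0 l, H (u - v) := funext hFdef
    rw [e]
    exact this
  obtain ⟨R, hR⟩ := hgs.isCompact.isBounded.subset_closedBall 0
  have hR' : ∀ x : ℂ, R < ‖x‖ → g x = 0 := by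
    intro x hx
    apply image_eq_zero_of_notMem_tsupport
    intro h
    have := hR h
    rw [mem_closedBall_zero_iff] at this
    linarith
  have hcw : Continuous (fun p : ℂ × ℂ => ((f p.2 * g p.1 : ℝ) : ℂ)) :=
    Complex.continuous_ofReal.comp ((hf.comp continuous_snd).mul (hg.comp continuous_fst))
  have hc2 : Continuous (fun q : ℂ × (ℂ × ℂ) => q.2) := continuous_snd
  -- the three functions
  have f1 := st_fub hl (fun q : ℂ × (ℂ × ℂ) => H (q.2.1 - q.2.2) * ((f q.2.2 * g q.2.1 : ℝ) : ℂ))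
    ((hH.comp ((continuous_fst.comp hc2).sub (continuous_snd.comp hc2))).mul (hcw.comp hc2)) R
    (fun q hq => by simp only [hR' _ hq, mul_zero, Complex.ofReal_zero])
  have f2 := st_fub hl (fun q : ℂ × (ℂ × ℂ) => F1 A l (q.2.1 - q.1) * ((f q.2.2 * g q.2.1 : ℝ) : ℂ))
    ((hF.comp ((continuous_fst.comp hc2).sub continuous_fst)).mul (hcw.comp hc2)) R
    (fun q hq => by simp only [hR' _ hq, mul_zero, Complex.ofReal_zero])
  have f3 := st_fub hl (fun q : ℂ × (ℂ × ℂ) => F1 A l (q.2.2 - q.1) * ((f q.2.2 * g q.2.1 : ℝ) : ℂ))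
    ((hF.comp ((continuous_snd.comp hc2).sub continuous_fst)).mul (hcw.comp hc2)) R
    (fun q hq => by simp only [hR' _ hq, mul_zero, Complex.ofReal_zero])
  -- the integral of `WW`
  have e1 : ∫ c : ℂ, WW (tl A l) f g (c, k) =
      (∫ c : ℂ, ∫ p in sq c l ×ˢ sq c l, H (p.1 - p.2) * ((f p.2 * g p.1 : ℝ) : ℂ))
      - ((l * l : ℝ) : ℂ)⁻¹ * (∫ c : ℂ, ∫ p in sq c l ×ˢ sq c l, F1 A l (p.1 - c) * ((f p.2 * g p.1 : ℝ) : ℂ))
      - ((l * l : ℝ) : ℂ)⁻¹ * (∫ c : ℂ, ∫ p in sq c l ×ˢ sq c l, F1 A l (p.2 - c) * ((f p.2 * g p.1 : ℝ) : ℂ)) := by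
    rw [← integral_const_mul, ← integral_const_mul]
    have i1 := f1.1
    have i2 := f2.1.const_mul (((l * l : ℝ) : ℂ)⁻¹)
    have i3 := f3.1.const_mul (((l * l : ℝ) : ℂ)⁻¹)
    refine st_lin3 i1 i2 i3 fun c => ?_
    rw [hWW c, st_W hH hHs hev hl h0 f g hf hg c _ _ rfl rfl]
    simp only [hFdef]
  obtain ⟨w, hw⟩ : ∃ w : ℂ × ℂ → ℂ, w = fun p => ((f p.2 * g p.1 : ℝ) : ℂ) := ⟨_, rfl⟩
  have k1 : ∀ p : ℂ × ℂ, ∫ c : ℂ, (stS l).indicator
      (fun q : ℂ × (ℂ × ℂ) => H (q.2.1 - q.2.2) * ((f q.2.2 * g q.2.1 : ℝ) : ℂ)) (c, p) =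
      ((l ^ 2 : ℝ) : ℂ) * (A (p.1 - p.2) * ((f p.2 * g p.1 : ℝ) : ℂ)) := by
    intro p
    have := st_M1 hl (fun p : ℂ × ℂ => H (p.1 - p.2) * ((f p.2 * g p.1 : ℝ) : ℂ)) p
    rw [this, hAH]
    push_cast
    ring
  have k2 : ∀ p : ℂ × ℂ, (∫ c : ℂ, (stS l).indicator
      (fun q : ℂ × (ℂ × ℂ) => F1 A l (q.2.1 - q.1) * ((f q.2.2 * g q.2.1 : ℝ) : ℂ)) (c, p)) +
      (∫ c : ℂ, (stS l).indicator
      (fun q : ℂ × (ℂ × ℂ) => F1 A l (q.2.2 - q.1) * ((f q.2.2 * g q.2.1 : ℝ) : ℂ)) (c, p)) =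
      ((l ^ 4 : ℝ) : ℂ) * (rr A l (p.1 - p.2) * ((f p.2 * g p.1 : ℝ) : ℂ)) := by
    intro p
    have e2 := st_M2 (l := l) (F1 A l) (fun p : ℂ × ℂ => ((f p.2 * g p.1 : ℝ) : ℂ)) p
    have e3 := st_M3 (l := l) (F1 A l) (fun p : ℂ × ℂ => ((f p.2 * g p.1 : ℝ) : ℂ)) p
    rw [e2, e3]
    exact st_rr A hl hF _ _
  have hl2 : ((l ^ 2 : ℝ) : ℂ) ≠ 0 := by
    exact_mod_cast (pow_pos hl 2).ne'
  have hl4 : ((l ^ 4 : ℝ) : ℂ) ≠ 0 := by
    exact_mod_cast (pow_pos hl 4).ne'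
  -- integrability of the two kernels
  have g1 : Integrable (fun p : ℂ × ℂ => A (p.1 - p.2) * ((f p.2 * g p.1 : ℝ) : ℂ))
      ((volume : Measure ℂ).prod (volume : Measure ℂ)) := by
    have h1 := f1.2.1
    simp only [k1] at h1
    have h2 := h1.const_mul (((l ^ 2 : ℝ) : ℂ)⁻¹)
    refine h2.congr (Filter.Eventually.of_forall fun p => ?_)
    show ((l ^ 2 : ℝ) : ℂ)⁻¹ * (((l ^ 2 : ℝ) : ℂ) * (A (p.1 - p.2) * ((f p.2 * g p.1 : ℝ) : ℂ))) = _
    rw [← mul_assoc, inv_mul_cancel₀ hl2, one_mul]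
  have g2' : Integrable (fun p : ℂ × ℂ => ((l ^ 4 : ℝ) : ℂ) * (rr A l (p.1 - p.2) * ((f p.2 * g p.1 : ℝ) : ℂ)))
      ((volume : Measure ℂ).prod (volume : Measure ℂ)) := by
    refine (f2.2.1.add f3.2.1).congr (Filter.Eventually.of_forall fun p => ?_)
    exact k2 p
  have g2 : Integrable (fun p : ℂ × ℂ => rr A l (p.1 - p.2) * ((f p.2 * g p.1 : ℝ) : ℂ))
      ((volume : Measure ℂ).prod (volume : Measure ℂ)) := by
    have h2 := g2'.const_mul (((l ^ 4 : ℝ) : ℂ)⁻¹)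
    refine h2.congr (Filter.Eventually.of_forall fun p => ?_)
    show ((l ^ 4 : ℝ) : ℂ)⁻¹ * (((l ^ 4 : ℝ) : ℂ) * (rr A l (p.1 - p.2) * ((f p.2 * g p.1 : ℝ) : ℂ))) = _
    rw [← mul_assoc, inv_mul_cancel₀ hl4, one_mul]
  have h1 : II A f g = ∫ p : ℂ × ℂ, A (p.1 - p.2) * ((f p.2 * g p.1 : ℝ) : ℂ) := (integral_prod _ g1).symm
  have h2 : II (rr A l) f g = ∫ p : ℂ × ℂ, rr A l (p.1 - p.2) * ((f p.2 * g p.1 : ℝ) : ℂ) :=
    (integral_prod _ g2).symm
  have h3 : ∫ c : ℂ, ∫ p in sq c l ×ˢ sq c l, H (p.1 - p.2) * ((f p.2 * g p.1 : ℝ) : ℂ) =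
      ((l ^ 2 : ℝ) : ℂ) * II A f g := by
    rw [h1, f1.2.2, ← integral_const_mul]
    exact integral_congr_ae (Filter.Eventually.of_forall k1)
  have h4 : (∫ c : ℂ, ∫ p in sq c l ×ˢ sq c l, F1 A l (p.1 - c) * ((f p.2 * g p.1 : ℝ) : ℂ)) +
      (∫ c : ℂ, ∫ p in sq c l ×ˢ sq c l, F1 A l (p.2 - c) * ((f p.2 * g p.1 : ℝ) : ℂ)) =
      ((l ^ 4 : ℝ) : ℂ) * II (rr A l) f g := by
    rw [h2, f2.2.2, f3.2.2, ← integral_const_mul, ← integral_add f2.2.1 f3.2.1]
    exact integral_congr_ae (Filter.Eventually.of_forall k2)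
  have hll : ((l : ℝ) : ℂ) ≠ 0 := by
    exact_mod_cast hl.ne'
  have h5 : ∫ c : ℂ, WW (tl A l) f g (c, k) =
      ((l ^ 2 : ℝ) : ℂ) * II A f g - ((l * l : ℝ) : ℂ)⁻¹ * (((l ^ 4 : ℝ) : ℂ) * II (rr A l) f g) := by
    rw [e1, ← h3, ← h4]
    ring
  rw [h5]
  push_cast
  field_simp
  ring

end Pool.MP_75bf3e_an.BT
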