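import Mathlib

/-!
# Abstract 4-ary trees: averages and sums

`T` is any type with four children maps `ch : Fin 4 → T → T`.  All sums are defined by
recursion on the depth, so that everything in this library is a simple induction.
-/

set_option autoImplicit false

namespace Pool.MP_75bf3e_an.BT

variable {T : Type}

/-- The average of `F` over the four children of `P`. -/
noncomputable def av (ch : Fin 4 → T → T) (F : T → ℝ) (P : T) : ℝ := (∑ i, F (ch i P)) / 4

/-- The average of `F` over the `4^a` descendants of depth `a`. -/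
noncomputable def avg (ch : Fin 4 → T → T) : ℕ → (T → ℝ) → T → ℝ
  | 0, F => F
  | a + 1, F => av ch (avg ch a F)

/-- The sum of `F` over the descendants of depth `0, …, d-1`, weighted by relative area `4^(-depth)`. -/
noncomputable def S (ch : Fin 4 → T → T) : ℕ → (T → ℝ) → T → ℝ
  | 0, _ => fun _ => 0
  | d + 1, F => fun P => F P + av ch (S ch d F) P

/-- The normalised `L^1` norm of the martingale difference of `f` at `P`. -/
noncomputable def delta (ch : Fin 4 → T → T) (f : T → ℝ) (P : T) : ℝ :=
  (∑ i, |f (ch i P) - f P|) / 4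

/-- The square of the relative quadratic jump of `x` at `P`. -/
noncomputable def U2 (ch : Fin 4 → T → T) (x : T → ℝ) (P : T) : ℝ :=
  (∑ i, (x (ch i P) - x P) ^ 2) / 4 / (x P) ^ 2

/-- `ub a x P` is the `x`-weighted average of `U2 x` over the descendants of depth `a`
(the quantity written `ū²` in the blueprint). -/
noncomputable def ub (ch : Fin 4 → T → T) (a : ℕ) (x : T → ℝ) (P : T) : ℝ :=
  avg ch a (fun J => x J * U2 ch x J) P / x P

/-- A pair of dyadic martingales `x, y > 0` with `1 ≤ x y ≤ K` (averages of `1/w` and of `w` for a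
dyadic `A_2` weight `w`). -/
structure Wt (ch : Fin 4 → T → T) (K : ℝ) (x y : T → ℝ) : Prop where
  xpos : ∀ P, 0 < x P
  ypos : ∀ P, 0 < y P
  xm : ∀ P, av ch x P = x P
  ym : ∀ P, av ch y P = y P
  lo : ∀ P, 1 ≤ x P * y P
  hi : ∀ P, x P * y P ≤ K

theorem Wt.symm {ch : Fin 4 → T → T} {K : ℝ} {x y : T → ℝ} (h : Wt ch K x y) : Wt ch K y x :=
  ⟨h.ypos, h.xpos, h.ym, h.xm, fun P => by rw [mul_comm]; exact h.lo P,
    fun P => by rw [mul_comm]; exact h.hi P⟩

theorem Wt.one_le {ch : Fin 4 → T → T} {K : ℝ} {x y : T → ℝ} (h : Wt ch K x y) (P : T) : 1 ≤ K :=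
  (h.lo P).trans (h.hi P)

section basic

variable (ch : Fin 4 → T → T)

theorem av_mono {F G : T → ℝ} (P : T) (h : ∀ i, F (ch i P) ≤ G (ch i P)) :
    av ch F P ≤ av ch G P := by
  unfold av
  have := Finset.sum_le_sum (fun i (_ : i ∈ Finset.univ) => h i)
  linarith

theorem av_add (F G : T → ℝ) (P : T) : av ch (fun Q => F Q + G Q) P = av ch F P + av ch G P := by
  unfold av; rw [Finset.sum_add_distrib]; ring

theorem av_sub (F G : T → ℝ) (P : T) : av ch (fun Q => F Q - G Q) P = av ch F P - av ch G P := by
  unfold av; rw [Finset.sum_sub_distrib]; ring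

theorem av_mul (c : ℝ) (F : T → ℝ) (P : T) : av ch (fun Q => c * F Q) P = c * av ch F P := by
  unfold av; rw [← Finset.mul_sum]; ring

theorem av_const (c : ℝ) (P : T) : av ch (fun _ => c) P = c := by
  unfold av; rw [Finset.sum_const]; simp

theorem av_nonneg {F : T → ℝ} (P : T) (h : ∀ i, 0 ≤ F (ch i P)) : 0 ≤ av ch F P := by
  unfold av
  have := Finset.sum_nonneg (fun i (_ : i ∈ Finset.univ) => h i)
  linarith

theorem av_congr {F G : T → ℝ} (P : T) (h : ∀ i, F (ch i P) = G (ch i P)) :
    av ch F P = av ch G P := by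
  unfold av; rw [Finset.sum_congr rfl (fun i _ => h i)]

/-- each child value of a nonnegative function is at most four times the average -/
theorem le_four_av {F : T → ℝ} (P : T) (h : ∀ i, 0 ≤ F (ch i P)) (i : Fin 4) :
    F (ch i P) ≤ 4 * av ch F P := by
  unfold av
  have := Finset.single_le_sum (f := fun i => F (ch i P)) (fun i _ => h i) (Finset.mem_univ i)
  linarith

@[simp] theorem avg_zero (F : T → ℝ) : avg ch 0 F = F := rfl

theorem avg_succ (a : ℕ) (F : T → ℝ) (P : T) : avg ch (a + 1) F P = av ch (avg ch a F) P := rfl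

@[simp] theorem S_zero (F : T → ℝ) (P : T) : S ch 0 F P = 0 := rfl

theorem S_succ (d : ℕ) (F : T → ℝ) (P : T) : S ch (d + 1) F P = F P + av ch (S ch d F) P := rfl

theorem avg_mono {F G : T → ℝ} (h : ∀ Q, F Q ≤ G Q) (a : ℕ) (P : T) :
    avg ch a F P ≤ avg ch a G P := by
  induction a generalizing P with
  | zero => exact h P
  | succ a ih => exact av_mono ch P (fun i => ih _)

theorem avg_nonneg {F : T → ℝ} (h : ∀ Q, 0 ≤ F Q) (a : ℕ) (P : T) : 0 ≤ avg ch a F P := by
  induction a generalizing P with
  | zero => exact h P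
  | succ a ih => exact av_nonneg ch P (fun i => ih _)

theorem avg_add (F G : T → ℝ) (a : ℕ) (P : T) :
    avg ch a (fun Q => F Q + G Q) P = avg ch a F P + avg ch a G P := by
  induction a generalizing P with
  | zero => rfl
  | succ a ih =>
    rw [avg_succ, avg_succ, avg_succ, ← av_add]
    exact av_congr ch P (fun i => ih _)

theorem avg_mul (c : ℝ) (F : T → ℝ) (a : ℕ) (P : T) :
    avg ch a (fun Q => c * F Q) P = c * avg ch a F P := by
  induction a generalizing P with
  | zero => rfl
  | succ a ih =>
    rw [avg_succ, avg_succ, ← av_mul]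
    exact av_congr ch P (fun i => ih _)

/-- the depth `a` average of a martingale is the martingale -/
theorem avg_mart {F : T → ℝ} (h : ∀ Q, av ch F Q = F Q) (a : ℕ) (P : T) : avg ch a F P = F P := by
  induction a generalizing P with
  | zero => rfl
  | succ a ih => rw [avg_succ, av_congr ch P (fun i => ih _)]; exact h P

theorem avg_av (F : T → ℝ) (a : ℕ) (P : T) : avg ch a (av ch F) P = avg ch (a + 1) F P := by
  induction a generalizing P with
  | zero => rfl
  | succ a ih =>
    rw [avg_succ, avg_succ]
    exact av_congr ch P (fun i => ih _)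

theorem S_mono {F G : T → ℝ} (h : ∀ Q, F Q ≤ G Q) (d : ℕ) (P : T) : S ch d F P ≤ S ch d G P := by
  induction d generalizing P with
  | zero => exact le_refl _
  | succ d ih => exact add_le_add (h P) (av_mono ch P (fun i => ih _))

theorem S_nonneg {F : T → ℝ} (h : ∀ Q, 0 ≤ F Q) (d : ℕ) (P : T) : 0 ≤ S ch d F P := by
  induction d generalizing P with
  | zero => exact le_refl _
  | succ d ih => exact add_nonneg (h P) (av_nonneg ch P (fun i => ih _))

theorem S_add (F G : T → ℝ) (d : ℕ) (P : T) :
    S ch d (fun Q => F Q + G Q) P = S ch d F P + S ch d G P := by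
  induction d generalizing P with
  | zero => simp
  | succ d ih =>
    have h1 : av ch (S ch d (fun Q => F Q + G Q)) P
        = av ch (fun Q => S ch d F Q + S ch d G Q) P := av_congr ch P (fun i => ih _)
    rw [S_succ, S_succ, S_succ, h1, av_add]; ring

theorem S_mul (c : ℝ) (F : T → ℝ) (d : ℕ) (P : T) :
    S ch d (fun Q => c * F Q) P = c * S ch d F P := by
  induction d generalizing P with
  | zero => simp
  | succ d ih =>
    have h1 : av ch (S ch d (fun Q => c * F Q)) P
        = av ch (fun Q => c * S ch d F Q) P := av_congr ch P (fun i => ih _)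
    rw [S_succ, S_succ, h1, av_mul]; ring

/-- `S` is monotone in the depth for nonnegative `F` -/
theorem S_mono_depth {F : T → ℝ} (h : ∀ Q, 0 ≤ F Q) (d e : ℕ) (P : T) :
    S ch d F P ≤ S ch (d + e) F P := by
  induction d generalizing P with
  | zero => rw [S_zero]; exact S_nonneg ch h _ P
  | succ d ih =>
    rw [show d + 1 + e = (d + e) + 1 by ring, S_succ, S_succ]
    exact add_le_add le_rfl (av_mono ch P (fun i => ih _))

/-- the sum of the depth `a` averages is at most the full sum -/
theorem S_avg_le {F : T → ℝ} (h : ∀ Q, 0 ≤ F Q) (a d : ℕ) (P : T) :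
    S ch d (avg ch a F) P ≤ S ch (d + a) F P := by
  have key : ∀ (a d : ℕ) (P : T), S ch d (avg ch a F) P + S ch a F P = S ch (d + a) F P := by
    intro a d
    induction d with
    | zero => intro P; simp
    | succ d ih =>
      intro P
      rw [show d + 1 + a = (d + a) + 1 by ring, S_succ, S_succ]
      have h1 : av ch (S ch (d + a) F) P = av ch (S ch d (avg ch a F)) P + av ch (S ch a F) P := by
        rw [← av_add]; exact av_congr ch P (fun i => (ih _).symm)
      rw [h1]
      have h2 : avg ch a F P + S ch a F P = F P + av ch (S ch a F) P := by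
        clear ih h1
        induction a generalizing P with
        | zero => simp [av, S]
        | succ a ih =>
          rw [avg_succ, S_succ]
          have h3 : av ch (fun Q => F Q + av ch (S ch a F) Q) P
              = av ch (avg ch a F) P + av ch (S ch a F) P := by
            rw [← av_add]; exact av_congr ch P (fun i => (ih _).symm)
          rw [show (S ch (a + 1) F) = fun Q => F Q + av ch (S ch a F) Q from rfl, h3]
          ring
      linarith
  have := key a d P
  have h3 := S_nonneg ch h a P
  linarith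

end basic

section U

variable {ch : Fin 4 → T → T} {x : T → ℝ}

theorem U2_nonneg (P : T) : 0 ≤ U2 ch x P := by
  unfold U2; positivity

/-- for a positive martingale the quadratic jump is at most `3` -/
theorem U2_le_three (hpos : ∀ P, 0 < x P) (hm : ∀ P, av ch x P = x P) (P : T) :
    U2 ch x P ≤ 3 := by
  have hx := hpos P
  unfold U2
  rw [div_le_iff₀ (by positivity)]
  have hs : ∑ i, x (ch i P) = 4 * x P := by
    have := hm P; unfold av at this; linarith
  have h1 : ∑ i, (x (ch i P) - x P) ^ 2 = ∑ i, (x (ch i P)) ^ 2 - 4 * x P ^ 2 := by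
    simp only [Fin.sum_univ_four] at hs ⊢
    linear_combination (-2 * x P) * hs
  have h2 : ∑ i, (x (ch i P)) ^ 2 ≤ (4 * x P) ^ 2 := by
    rw [← hs]
    simp only [Fin.sum_univ_four]
    have a0 := hpos (ch 0 P)
    have a1 := hpos (ch 1 P)
    have a2 := hpos (ch 2 P)
    have a3 := hpos (ch 3 P)
    nlinarith [mul_pos a0 a1, mul_pos a0 a2, mul_pos a0 a3, mul_pos a1 a2, mul_pos a1 a3,
      mul_pos a2 a3]
  rw [h1]
  nlinarith [h2]

theorem child_le (hpos : ∀ P, 0 < x P) (hm : ∀ P, av ch x P = x P) (P : T) (i : Fin 4) :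
    x (ch i P) ≤ 4 * x P := by
  have := le_four_av ch (F := x) P (fun i => (hpos _).le) i
  rwa [hm P] at this

theorem ub_nonneg (hpos : ∀ P, 0 < x P) (a : ℕ) (P : T) : 0 ≤ ub ch a x P := by
  unfold ub
  exact div_nonneg (avg_nonneg ch (fun Q => mul_nonneg (hpos Q).le (U2_nonneg Q)) a P) (hpos P).le

theorem ub_mul (hpos : ∀ P, 0 < x P) (a : ℕ) (P : T) :
    x P * ub ch a x P = avg ch a (fun J => x J * U2 ch x J) P := by
  unfold ub
  have := (hpos P).ne'
  field_simp

theorem ub_le_three (hpos : ∀ P, 0 < x P) (hm : ∀ P, av ch x P = x P) (a : ℕ) (P : T) :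
    ub ch a x P ≤ 3 := by
  unfold ub
  rw [div_le_iff₀ (hpos P)]
  calc avg ch a (fun J => x J * U2 ch x J) P ≤ avg ch a (fun J => 3 * x J) P := by
        apply avg_mono
        intro Q
        have := U2_le_three hpos hm Q
        nlinarith [hpos Q]
    _ = 3 * x P := by rw [avg_mul, avg_mart ch hm]

end U

end Pool.MP_75bf3e_an.BT
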