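import Pool.Agent.Lib_MP_75bf3e.Cell

/-!
# Piece AWLE: the bilinear estimate on one square, and its average over the corners

`WW_le`.  On `sqn P`, `P = (c,k)`: `f - mn f P = Σ_{a<N} Dn a f P + (f - En N f P)` (`sum_Dn`), with
`|f - En N f P| ≤ ε` (`abs_sub_En_le`), `|g - mn g P| ≤ 2B`, `|En N f P - mn f P| ≤ 2B`.  So
`WW = Σ_{a,b<N} ∬ G(x-y) Dn a f(y) Dn b g(x) + ∬ G (f - En f)(y) (g - mn g)(x) + ∬ G (Σ_a Dn a f)(y) (g - En g)(x)`,
the last two are at most `Γ |Q|^2 * 2 B ε` each, `|Q|^2 = (2^k)^4`.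
For each `a, b`: `int_Dn` for `y ↦ G(x - y)` gives `|∫_y| ≤ ω a (2^k)^2 Df a f P` for every `x`, and
`∫_{sqn P} |Dn b g| = (2^k)^2 Df b g P` (`integral_abs_Dn`), so the term is `≤ ω a (2^k)^4 Df a f P Df b g P`.
By Fubini and `G(x - y) = G(y - x)` the same with `ω b`.

`int_WW_le`.  `f, g` are bounded by some `B` and uniformly continuous: for `N` large the oscillation hypothesis
holds with a small `ε`.  If the square of `(c,k)` does not meet the support of `f` then `WW = 0` (and the right side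
of `WW_le` without the error is `≥ 0`), so the error term is only needed for `c` in a fixed bounded set
(`{c : sqn (c,k) ∩ tsupport f ≠ ∅}`), of finite measure.  Integrate `WW_le` over `c` and divide by `(2^k)^2`
(`c ↦ Df a f (c,k) * Df b g (c,k)` is continuous with compact support; use
`norm_integral_le_of_norm_le` with the integrable majorant, no measurability of `WW` is needed).
-/

set_option autoImplicit false

open MeasureTheory

namespace Pool.MP_75bf3e_an.BT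

/-- the double integral over a square with product weights -/
private noncomputable def JJ (G : ℂ → ℂ) (P : ℂ × ℤ) (u v : ℂ → ℝ) : ℂ :=
  ∫ p : ℂ × ℂ, G (p.1 - p.2) * ((u p.2 * v p.1 : ℝ) : ℂ)
    ∂((volume.restrict (sqn P)).prod (volume.restrict (sqn P)))

private theorem finite_sqn (P : ℂ × ℤ) : IsFiniteMeasure (volume.restrict (sqn P)) :=
  ⟨by
    rw [Measure.restrict_apply_univ]
    exact lt_top_iff_ne_top.2 (cell_volume_ne_top P)⟩

private theorem integrable_JJ (G : ℂ → ℂ) (hG : Continuous G) (Γ : ℝ) (hΓ : ∀ z, ‖G z‖ ≤ Γ)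
    (P : ℂ × ℤ) (u v : ℂ → ℝ) (hu : Measurable u) (hv : Measurable v) (U V : ℝ)
    (hU : ∀ y, |u y| ≤ U) (hV : ∀ y, |v y| ≤ V) :
    Integrable (fun p : ℂ × ℂ => G (p.1 - p.2) * ((u p.2 * v p.1 : ℝ) : ℂ))
      ((volume.restrict (sqn P)).prod (volume.restrict (sqn P))) := by
  haveI := finite_sqn P
  have hΓ0 : 0 ≤ Γ := (norm_nonneg _).trans (hΓ 0)
  have hU0 : 0 ≤ U := (abs_nonneg _).trans (hU 0)
  have hm : Measurable (fun p : ℂ × ℂ => G (p.1 - p.2) * ((u p.2 * v p.1 : ℝ) : ℂ)) := by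
    have h1 : Measurable (fun p : ℂ × ℂ => G (p.1 - p.2)) :=
      hG.measurable.comp (measurable_fst.sub measurable_snd)
    have h2 : Measurable (fun p : ℂ × ℂ => ((u p.2 * v p.1 : ℝ) : ℂ)) :=
      Complex.measurable_ofReal.comp ((hu.comp measurable_snd).mul (hv.comp measurable_fst))
    exact h1.mul h2
  refine Integrable.of_bound hm.aestronglyMeasurable (Γ * (U * V)) (ae_of_all _ fun p => ?_)
  rw [norm_mul, Complex.norm_real, Real.norm_eq_abs, abs_mul]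
  exact mul_le_mul (hΓ _) (mul_le_mul (hU _) (hV _) (abs_nonneg _) hU0)
    (mul_nonneg (abs_nonneg _) (abs_nonneg _)) hΓ0

private theorem ae_mem_sqn (P : ℂ × ℤ) :
    ∀ᵐ p ∂((volume.restrict (sqn P)).prod (volume.restrict (sqn P))), p.1 ∈ sqn P ∧ p.2 ∈ sqn P := by
  rw [Measure.prod_restrict]
  have hm : MeasurableSet (sqn P ×ˢ sqn P) := (measurableSet_sq _ _).prod (measurableSet_sq _ _)
  filter_upwards [ae_restrict_mem hm] with p hp
  exact ⟨hp.1, hp.2⟩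

private theorem real_prod_univ (P : ℂ × ℤ) :
    ((volume.restrict (sqn P)).prod (volume.restrict (sqn P))).real Set.univ = ((2 : ℝ) ^ P.2) ^ 4 := by
  haveI := finite_sqn P
  rw [← Set.univ_prod_univ, measureReal_def, Measure.prod_prod, ENNReal.toReal_mul,
    Measure.restrict_apply_univ, cell_volume_real]
  ring

/-- crude bound -/
private theorem norm_JJ_le (G : ℂ → ℂ) (Γ : ℝ) (hΓ : ∀ z, ‖G z‖ ≤ Γ)
    (P : ℂ × ℤ) (u v : ℂ → ℝ) (U V : ℝ) (hU0 : 0 ≤ U)
    (hU : ∀ y ∈ sqn P, |u y| ≤ U) (hV : ∀ y ∈ sqn P, |v y| ≤ V) :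
    ‖JJ G P u v‖ ≤ Γ * (U * V) * ((2 : ℝ) ^ P.2) ^ 4 := by
  haveI := finite_sqn P
  have hΓ0 : 0 ≤ Γ := (norm_nonneg _).trans (hΓ 0)
  rw [← real_prod_univ P]
  apply norm_integral_le_of_norm_le_const
  filter_upwards [ae_mem_sqn P] with p hp
  rw [norm_mul, Complex.norm_real, Real.norm_eq_abs, abs_mul]
  exact mul_le_mul (hΓ _) (mul_le_mul (hU _ hp.2) (hV _ hp.1) (abs_nonneg _) hU0)
    (mul_nonneg (abs_nonneg _) (abs_nonneg _)) hΓ0

private theorem JJ_eq (G : ℂ → ℂ) (hG : Continuous G) (Γ : ℝ) (hΓ : ∀ z, ‖G z‖ ≤ Γ)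
    (P : ℂ × ℤ) (u v : ℂ → ℝ) (hu : Measurable u) (hv : Measurable v) (U V : ℝ)
    (hU : ∀ y, |u y| ≤ U) (hV : ∀ y, |v y| ≤ V) :
    JJ G P u v = ∫ x in sqn P, ∫ y in sqn P, G (x - y) * ((u y * v x : ℝ) : ℂ) := by
  haveI := finite_sqn P
  unfold JJ
  rw [integral_prod _ (integrable_JJ G hG Γ hΓ P u v hu hv U V hU hV)]

private theorem JJ_eq_symm (G : ℂ → ℂ) (hG : Continuous G) (Γ : ℝ) (hΓ : ∀ z, ‖G z‖ ≤ Γ)
    (P : ℂ × ℤ) (u v : ℂ → ℝ) (hu : Measurable u) (hv : Measurable v) (U V : ℝ)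
    (hU : ∀ y, |u y| ≤ U) (hV : ∀ y, |v y| ≤ V) :
    JJ G P u v = ∫ y in sqn P, ∫ x in sqn P, G (x - y) * ((u y * v x : ℝ) : ℂ) := by
  haveI := finite_sqn P
  unfold JJ
  rw [integral_prod_symm _ (integrable_JJ G hG Γ hΓ P u v hu hv U V hU hV)]

private theorem abs_Dn_le (a : ℕ) (f : ℂ → ℝ) (hf : Continuous f) (B : ℝ) (hB : ∀ z, |f z| ≤ B)
    (P : ℂ × ℤ) (y : ℂ) : |Dn a f P y| ≤ 2 * B := by
  unfold Dn
  have h1 := abs_En_le (a + 1) f hf B hB P y
  have h2 := abs_En_le a f hf B hB P y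
  have h3 := abs_sub (En (a + 1) f P y) (En a f P y)
  linarith

/-- the inner integral against a martingale difference, and the outer integral -/
private theorem outer_le (G : ℂ → ℂ) (hG : Continuous G) (k : ℤ) (ω : ℕ → ℝ)
    (hcell : CellBd G k ω) (f g : ℂ → ℝ) (hf : Continuous f) (a b : ℕ) (c : ℂ) :
    ‖∫ x in sqn (c, k), ∫ y in sqn (c, k),
        G (x - y) * ((Dn a f (c, k) y * Dn b g (c, k) x : ℝ) : ℂ)‖
      ≤ ((2 : ℝ) ^ k) ^ 4 * (ω a * (Df a f (c, k) * Df b g (c, k))) := by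
  have h1 : ∀ x, ‖∫ y in sqn (c, k), G (x - y) * ((Dn a f (c, k) y * Dn b g (c, k) x : ℝ) : ℂ)‖ ≤
      (ω a * (((2 : ℝ) ^ k) ^ 2 * Df a f (c, k))) * |Dn b g (c, k) x| := by
    intro x
    have h2 : ∫ y in sqn (c, k), G (x - y) * ((Dn a f (c, k) y * Dn b g (c, k) x : ℝ) : ℂ) =
        (∫ y in sqn (c, k), G (x - y) * ((Dn a f (c, k) y : ℝ) : ℂ)) *
          ((Dn b g (c, k) x : ℝ) : ℂ) := by
      rw [← integral_mul_const]
      congr 1
      funext y
      push_cast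
      ring
    rw [h2, norm_mul, Complex.norm_real, Real.norm_eq_abs]
    apply mul_le_mul_of_nonneg_right _ (abs_nonneg _)
    exact int_Dn a f hf (fun y => G (x - y)) (hG.comp (continuous_const.sub continuous_id)) (ω a) c k
      (fun c' h hh => hcell a c' x h hh)
  have hi : Integrable (fun x => (ω a * (((2 : ℝ) ^ k) ^ 2 * Df a f (c, k))) * |Dn b g (c, k) x|)
      (volume.restrict (sqn (c, k))) := by
    have := ((cell_integrable_Dn b g (c, k)).abs.integrableOn (s := sqn (c, k)))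
    exact this.const_mul _
  refine (norm_integral_le_of_norm_le hi (ae_of_all _ h1)).trans (le_of_eq ?_)
  rw [integral_const_mul, integral_abs_Dn]
  show ω a * (((2 : ℝ) ^ k) ^ 2 * Df a f (c, k)) * (((2 : ℝ) ^ k) ^ 2 * Df b g (c, k)) = _
  ring

private theorem term_le (G : ℂ → ℂ) (hG : Continuous G) (Γ : ℝ) (hΓ : ∀ z, ‖G z‖ ≤ Γ)
    (heven : ∀ z, G (-z) = G z) (k : ℤ) (ω : ℕ → ℝ) (hcell : CellBd G k ω)
    (f g : ℂ → ℝ) (hf : Continuous f) (hg : Continuous g) (B : ℝ) (hfB : ∀ z, |f z| ≤ B)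
    (hgB : ∀ z, |g z| ≤ B) (a b : ℕ) (c : ℂ) :
    ‖JJ G (c, k) (Dn a f (c, k)) (Dn b g (c, k))‖ ≤
      ((2 : ℝ) ^ k) ^ 4 * (min (ω a) (ω b) * (Df a f (c, k) * Df b g (c, k))) := by
  have h1 : ‖JJ G (c, k) (Dn a f (c, k)) (Dn b g (c, k))‖ ≤
      ((2 : ℝ) ^ k) ^ 4 * (ω a * (Df a f (c, k) * Df b g (c, k))) := by
    rw [JJ_eq G hG Γ hΓ (c, k) _ _ (measurable_Dn a f _) (measurable_Dn b g _) (2 * B) (2 * B)
      (abs_Dn_le a f hf B hfB _) (abs_Dn_le b g hg B hgB _)]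
    exact outer_le G hG k ω hcell f g hf a b c
  have h2 : ‖JJ G (c, k) (Dn a f (c, k)) (Dn b g (c, k))‖ ≤
      ((2 : ℝ) ^ k) ^ 4 * (ω b * (Df a f (c, k) * Df b g (c, k))) := by
    rw [JJ_eq_symm G hG Γ hΓ (c, k) _ _ (measurable_Dn a f _) (measurable_Dn b g _) (2 * B) (2 * B)
      (abs_Dn_le a f hf B hfB _) (abs_Dn_le b g hg B hgB _)]
    have h3 := outer_le G hG k ω hcell g f hg b a c
    have h4 : ∀ y x : ℂ, G (x - y) * ((Dn a f (c, k) y * Dn b g (c, k) x : ℝ) : ℂ) =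
        G (y - x) * ((Dn b g (c, k) x * Dn a f (c, k) y : ℝ) : ℂ) := by
      intro y x
      rw [← heven (y - x), neg_sub, mul_comm (Dn a f (c, k) y)]
    simp only [h4]
    rw [mul_comm (Df a f (c, k))]
    exact h3
  rcases le_total (ω a) (ω b) with h | h
  · rw [min_eq_left h]
    exact h1
  · rw [min_eq_right h]
    exact h2

private theorem WW_decomp (G : ℂ → ℂ) (hG : Continuous G) (Γ : ℝ) (hΓ : ∀ z, ‖G z‖ ≤ Γ)
    (P : ℂ × ℤ) (f g : ℂ → ℝ) (hf : Continuous f) (hg : Continuous g) (B : ℝ)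
    (hfB : ∀ z, |f z| ≤ B) (hgB : ∀ z, |g z| ≤ B) (N : ℕ) :
    WW G f g P = (∑ a ∈ Finset.range N, ∑ b ∈ Finset.range N, JJ G P (Dn a f P) (Dn b g P)) +
      JJ G P (fun y => f y - En N f P y) (fun x => g x - mn g P) +
      JJ G P (fun y => ∑ a ∈ Finset.range N, Dn a f P y) (fun x => g x - En N g P x) := by
  have hB0 : 0 ≤ B := (abs_nonneg _).trans (hfB 0)
  have hfm : Measurable f := hf.measurable
  have hgm : Measurable g := hg.measurable
  have bf1 : ∀ y, |f y - mn f P| ≤ 2 * B := fun y => by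
    have h1 := hfB y
    have h2 := abs_mn_le f hf B hfB P
    have h3 := abs_sub (f y) (mn f P)
    linarith
  have bg1 : ∀ y, |g y - mn g P| ≤ 2 * B := fun y => by
    have h1 := hgB y
    have h2 := abs_mn_le g hg B hgB P
    have h3 := abs_sub (g y) (mn g P)
    linarith
  have bf2 : ∀ y, |f y - En N f P y| ≤ 2 * B := fun y => by
    have h1 := hfB y
    have h2 := abs_En_le N f hf B hfB P y
    have h3 := abs_sub (f y) (En N f P y)
    linarith
  have bg2 : ∀ y, |g y - En N g P y| ≤ 2 * B := fun y => by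
    have h1 := hgB y
    have h2 := abs_En_le N g hg B hgB P y
    have h3 := abs_sub (g y) (En N g P y)
    linarith
  have bS : ∀ (f : ℂ → ℝ), Continuous f → (∀ z, |f z| ≤ B) → ∀ y,
      |∑ a ∈ Finset.range N, Dn a f P y| ≤ N * (2 * B) := by
    intro f hf hfB y
    refine (Finset.abs_sum_le_sum_abs _ _).trans ?_
    refine (Finset.sum_le_sum fun a _ => abs_Dn_le a f hf B hfB P y).trans (le_of_eq ?_)
    rw [Finset.sum_const, Finset.card_range, nsmul_eq_mul]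
  have mS : ∀ (f : ℂ → ℝ), Measurable (fun y => ∑ a ∈ Finset.range N, Dn a f P y) := fun f =>
    Finset.measurable_fun_sum _ fun a _ => measurable_Dn a f P
  have iD : ∀ a b, Integrable (fun p : ℂ × ℂ => G (p.1 - p.2) *
      ((Dn a f P p.2 * Dn b g P p.1 : ℝ) : ℂ))
      ((volume.restrict (sqn P)).prod (volume.restrict (sqn P))) := fun a b =>
    integrable_JJ G hG Γ hΓ P _ _ (measurable_Dn a f _) (measurable_Dn b g _) (2 * B) (2 * B)
      (abs_Dn_le a f hf B hfB _) (abs_Dn_le b g hg B hgB _)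
  have i1 : Integrable (fun p : ℂ × ℂ => G (p.1 - p.2) *
      (((f p.2 - En N f P p.2) * (g p.1 - mn g P) : ℝ) : ℂ))
      ((volume.restrict (sqn P)).prod (volume.restrict (sqn P))) :=
    integrable_JJ G hG Γ hΓ P (fun y => f y - En N f P y) (fun x => g x - mn g P)
      (hfm.sub (measurable_En N f P)) (hgm.sub measurable_const) (2 * B) (2 * B) bf2 bg1
  have i2 : Integrable (fun p : ℂ × ℂ => G (p.1 - p.2) *
      (((∑ a ∈ Finset.range N, Dn a f P p.2) * (g p.1 - En N g P p.1) : ℝ) : ℂ))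
      ((volume.restrict (sqn P)).prod (volume.restrict (sqn P))) :=
    integrable_JJ G hG Γ hΓ P (fun y => ∑ a ∈ Finset.range N, Dn a f P y)
      (fun x => g x - En N g P x) (mS f) (hgm.sub (measurable_En N g P)) (N * (2 * B)) (2 * B)
      (bS f hf hfB) bg2
  have e0 : WW G f g P = JJ G P (fun y => f y - mn f P) (fun x => g x - mn g P) := by
    rw [JJ_eq G hG Γ hΓ P (fun y => f y - mn f P) (fun x => g x - mn g P)
      (hfm.sub measurable_const) (hgm.sub measurable_const) (2 * B) (2 * B) bf1 bg1]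
    rfl
  rw [e0]
  unfold JJ
  have e1 : ∑ a ∈ Finset.range N, ∑ b ∈ Finset.range N,
      ∫ p : ℂ × ℂ, G (p.1 - p.2) * ((Dn a f P p.2 * Dn b g P p.1 : ℝ) : ℂ)
        ∂((volume.restrict (sqn P)).prod (volume.restrict (sqn P))) =
      ∫ p : ℂ × ℂ, ∑ a ∈ Finset.range N, ∑ b ∈ Finset.range N,
        G (p.1 - p.2) * ((Dn a f P p.2 * Dn b g P p.1 : ℝ) : ℂ)
        ∂((volume.restrict (sqn P)).prod (volume.restrict (sqn P))) := by
    rw [integral_finsetSum _ fun a _ => integrable_finsetSum _ fun b _ => iD a b]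
    exact Finset.sum_congr rfl fun a _ => (integral_finsetSum _ fun b _ => iD a b).symm
  have iS : Integrable (fun p : ℂ × ℂ => ∑ a ∈ Finset.range N, ∑ b ∈ Finset.range N,
        G (p.1 - p.2) * ((Dn a f P p.2 * Dn b g P p.1 : ℝ) : ℂ))
        ((volume.restrict (sqn P)).prod (volume.restrict (sqn P))) :=
    integrable_finsetSum _ fun a _ => integrable_finsetSum _ fun b _ => iD a b
  have i3 : Integrable (fun p : ℂ × ℂ => (∑ a ∈ Finset.range N, ∑ b ∈ Finset.range N,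
        G (p.1 - p.2) * ((Dn a f P p.2 * Dn b g P p.1 : ℝ) : ℂ)) +
        G (p.1 - p.2) * (((f p.2 - En N f P p.2) * (g p.1 - mn g P) : ℝ) : ℂ))
        ((volume.restrict (sqn P)).prod (volume.restrict (sqn P))) := iS.add i1
  rw [e1, ← integral_add iS i1, ← integral_add i3 i2]
  apply integral_congr_ae
  filter_upwards [ae_mem_sqn P] with p hp
  have hs1 := sum_Dn N f P p.2 hp.2
  have hs2 := sum_Dn N g P p.1 hp.1
  have hs3 : ∑ a ∈ Finset.range N, ∑ b ∈ Finset.range N,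
        G (p.1 - p.2) * ((Dn a f P p.2 * Dn b g P p.1 : ℝ) : ℂ) =
      G (p.1 - p.2) * (((En N f P p.2 - mn f P) * (En N g P p.1 - mn g P) : ℝ) : ℂ) := by
    rw [← hs1, ← hs2, Finset.sum_mul_sum, Complex.ofReal_sum, Finset.mul_sum]
    refine Finset.sum_congr rfl fun a _ => ?_
    rw [Complex.ofReal_sum, Finset.mul_sum]
  show G (p.1 - p.2) * (((f p.2 - mn f P) * (g p.1 - mn g P) : ℝ) : ℂ) =
    (∑ a ∈ Finset.range N, ∑ b ∈ Finset.range N,
        G (p.1 - p.2) * ((Dn a f P p.2 * Dn b g P p.1 : ℝ) : ℂ)) +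
      G (p.1 - p.2) * (((f p.2 - En N f P p.2) * (g p.1 - mn g P) : ℝ) : ℂ) +
      G (p.1 - p.2) * (((∑ a ∈ Finset.range N, Dn a f P p.2) * (g p.1 - En N g P p.1) : ℝ) : ℂ)
  rw [hs3, hs1]
  push_cast
  ring

theorem WW_le (G : ℂ → ℂ) (hG : Continuous G) (Γ : ℝ) (hΓ : ∀ z, ‖G z‖ ≤ Γ)
    (heven : ∀ z, G (-z) = G z) (k : ℤ) (ω : ℕ → ℝ) (hω : ∀ a, 0 ≤ ω a) (hcell : CellBd G k ω)
    (f g : ℂ → ℝ) (hf : Continuous f) (hg : Continuous g) (B : ℝ) (hfB : ∀ z, |f z| ≤ B)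
    (hgB : ∀ z, |g z| ≤ B) (N : ℕ) (ε : ℝ) (hε0 : 0 ≤ ε)
    (hεf : ∀ z z' : ℂ, ‖z - z'‖ ≤ 2 * (2 : ℝ) ^ (k - (N : ℤ)) → |f z - f z'| ≤ ε)
    (hεg : ∀ z z' : ℂ, ‖z - z'‖ ≤ 2 * (2 : ℝ) ^ (k - (N : ℤ)) → |g z - g z'| ≤ ε) (c : ℂ) :
    ‖WW G f g (c, k)‖ ≤ ((2 : ℝ) ^ k) ^ 4 *
      ((∑ a ∈ Finset.range N, ∑ b ∈ Finset.range N, min (ω a) (ω b) * (Df a f (c, k) * Df b g (c, k)))
        + 4 * Γ * B * ε) := by
  have hB0 : 0 ≤ B := (abs_nonneg _).trans (hfB 0)
  have hΓ0 : 0 ≤ Γ := (norm_nonneg _).trans (hΓ 0)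
  rw [WW_decomp G hG Γ hΓ (c, k) f g hf hg B hfB hgB N]
  have h1 : ‖∑ a ∈ Finset.range N, ∑ b ∈ Finset.range N,
      JJ G (c, k) (Dn a f (c, k)) (Dn b g (c, k))‖ ≤
      ∑ a ∈ Finset.range N, ∑ b ∈ Finset.range N,
        ((2 : ℝ) ^ k) ^ 4 * (min (ω a) (ω b) * (Df a f (c, k) * Df b g (c, k))) := by
    refine (norm_sum_le _ _).trans (Finset.sum_le_sum fun a _ => ?_)
    refine (norm_sum_le _ _).trans (Finset.sum_le_sum fun b _ => ?_)
    exact term_le G hG Γ hΓ heven k ω hcell f g hf hg B hfB hgB a b c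
  have h2 : ‖JJ G (c, k) (fun y => f y - En N f (c, k) y) (fun x => g x - mn g (c, k))‖ ≤
      Γ * (ε * (2 * B)) * ((2 : ℝ) ^ k) ^ 4 := by
    refine norm_JJ_le G Γ hΓ (c, k) _ _ ε (2 * B) hε0
      (fun y hy => abs_sub_En_le N f hf ε c k hεf y hy) (fun y _ => ?_)
    have h1 := hgB y
    have h2 := abs_mn_le g hg B hgB (c, k)
    have h3 := abs_sub (g y) (mn g (c, k))
    linarith
  have h3 : ‖JJ G (c, k) (fun y => ∑ a ∈ Finset.range N, Dn a f (c, k) y)
      (fun x => g x - En N g (c, k) x)‖ ≤ Γ * ((2 * B) * ε) * ((2 : ℝ) ^ k) ^ 4 := by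
    refine norm_JJ_le G Γ hΓ (c, k) _ _ (2 * B) ε (by linarith) (fun y hy => ?_)
      (fun y hy => abs_sub_En_le N g hg ε c k hεg y hy)
    rw [sum_Dn N f (c, k) y hy]
    have h1 := abs_En_le N f hf B hfB (c, k) y
    have h2 := abs_mn_le f hf B hfB (c, k)
    have h3 := abs_sub (En N f (c, k) y) (mn f (c, k))
    linarith
  have h4 : ∑ a ∈ Finset.range N, ∑ b ∈ Finset.range N,
        ((2 : ℝ) ^ k) ^ 4 * (min (ω a) (ω b) * (Df a f (c, k) * Df b g (c, k))) =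
      ((2 : ℝ) ^ k) ^ 4 * ∑ a ∈ Finset.range N, ∑ b ∈ Finset.range N,
        min (ω a) (ω b) * (Df a f (c, k) * Df b g (c, k)) := by
    rw [Finset.mul_sum]
    exact Finset.sum_congr rfl fun a _ => (Finset.mul_sum _ _ _).symm
  rw [h4] at h1
  refine (norm_add_le _ _).trans ((add_le_add ((norm_add_le _ _).trans (add_le_add h1 h2)) h3).trans
    (le_of_eq ?_))
  ring

theorem int_WW_le (G : ℂ → ℂ) (hG : Continuous G) (Γ : ℝ) (hΓ : ∀ z, ‖G z‖ ≤ Γ)
    (heven : ∀ z, G (-z) = G z) (k : ℤ) (ω : ℕ → ℝ) (hω : ∀ a, 0 ≤ ω a) (hcell : CellBd G k ω)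
    (f g : ℂ → ℝ) (hf : Continuous f) (hfs : HasCompactSupport f) (hg : Continuous g)
    (hgs : HasCompactSupport g) (δ : ℝ) (hδ : 0 < δ) :
    ∃ N₀ : ℕ, ∀ N : ℕ, N₀ ≤ N →
      ‖(((2 : ℝ) ^ k * (2 : ℝ) ^ k : ℝ) : ℂ)⁻¹ * (∫ c : ℂ, WW G f g (c, k))‖
        ≤ (∑ a ∈ Finset.range N, ∑ b ∈ Finset.range N,
            min (ω a) (ω b) * ((2 : ℝ) ^ k) ^ 2 * ∫ c : ℂ, Df a f (c, k) * Df b g (c, k)) + δ := by
  obtain ⟨B₁, hB₁⟩ := hfs.exists_bound_of_continuous hf
  obtain ⟨B₂, hB₂⟩ := hgs.exists_bound_of_continuous hg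
  set B : ℝ := max B₁ B₂ with hBdef
  have hfB : ∀ z, |f z| ≤ B := fun z => (hB₁ z).trans (le_max_left _ _)
  have hgB : ∀ z, |g z| ≤ B := fun z => (hB₂ z).trans (le_max_right _ _)
  have hB0 : 0 ≤ B := (abs_nonneg _).trans (hfB 0)
  have hΓ0 : 0 ≤ Γ := (norm_nonneg _).trans (hΓ 0)
  have hk0 : (0 : ℝ) < (2 : ℝ) ^ k := by positivity
  -- the fixed ball of corners
  obtain ⟨R, hR⟩ := hfs.isCompact.isBounded.subset_closedBall (0 : ℂ)
  set S : Set ℂ := Metric.closedBall (0 : ℂ) (R + 2 * (2 : ℝ) ^ k) with hS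
  have hSm : MeasurableSet S := Metric.isClosed_closedBall.measurableSet
  have hSf : volume S ≠ ⊤ := (isCompact_closedBall _ _).measure_lt_top.ne
  set m : ℝ := volume.real S with hm
  have hm0 : 0 ≤ m := measureReal_nonneg
  have hout : ∀ c, c ∉ S → WW G f g (c, k) = 0 := by
    intro c hc
    have hz : ∀ z ∈ sqn (c, k), f z = 0 := by
      intro z hz
      by_contra hne
      apply hc
      have h1 : z ∈ Metric.closedBall (0 : ℂ) R := hR (subset_tsupport f hne)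
      have h2 : z ∈ Metric.closedBall c (2 * (2 : ℝ) ^ k) := sq_subset_closedBall c hk0.le hz
      rw [Metric.mem_closedBall] at h1 h2
      rw [hS, Metric.mem_closedBall]
      have h3 := dist_triangle c z 0
      rw [dist_comm c z] at h3
      linarith
    have hmn : mn f (c, k) = 0 := by
      unfold mn
      rw [setIntegral_eq_zero_of_forall_eq_zero hz, mul_zero]
    unfold WW
    apply integral_eq_zero_of_ae
    apply ae_of_all
    intro x
    show ∫ y in sqn (c, k), G (x - y) * (((f y - mn f (c, k)) * (g x - mn g (c, k)) : ℝ) : ℂ) = 0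
    apply setIntegral_eq_zero_of_forall_eq_zero
    intro y hy
    rw [hz y hy, hmn, sub_zero, zero_mul, Complex.ofReal_zero, mul_zero]
  -- the choice of the oscillation
  set E : ℝ := ((2 : ℝ) ^ k) ^ 2 * (4 * Γ * B) * m with hE
  have hE0 : 0 ≤ E := by positivity
  set ε : ℝ := δ / (E + 1) with hεdef
  have hε0 : 0 < ε := by positivity
  have hEε : E * ε ≤ δ := by
    rw [hεdef, mul_div_assoc', div_le_iff₀ (by linarith)]
    nlinarith
  obtain ⟨η₁, hη₁, hu₁⟩ := Metric.uniformContinuous_iff.1 (hfs.uniformContinuous_of_continuous hf) ε hε0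
  obtain ⟨η₂, hη₂, hu₂⟩ := Metric.uniformContinuous_iff.1 (hgs.uniformContinuous_of_continuous hg) ε hε0
  have hη : 0 < min η₁ η₂ / (2 * (2 : ℝ) ^ k) := div_pos (lt_min hη₁ hη₂) (by linarith)
  obtain ⟨N₀, hN₀⟩ := exists_pow_lt_of_lt_one hη (show (1 / 2 : ℝ) < 1 by norm_num)
  refine ⟨N₀, fun N hN => ?_⟩
  have hNb : 2 * (2 : ℝ) ^ (k - (N : ℤ)) < min η₁ η₂ := by
    have h1 : (1 / 2 : ℝ) ^ N ≤ (1 / 2 : ℝ) ^ N₀ :=
      pow_le_pow_of_le_one (by norm_num) (by norm_num) hN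
    have h2 := h1.trans_lt hN₀
    rw [lt_div_iff₀ (by linarith)] at h2
    have h3 : (2 : ℝ) ^ (k - (N : ℤ)) = (1 / 2 : ℝ) ^ N * (2 : ℝ) ^ k := by
      rw [zpow_sub₀ two_ne_zero, zpow_natCast, one_div, inv_pow]
      field_simp
    rw [h3]
    linarith
  have hεf : ∀ z z' : ℂ, ‖z - z'‖ ≤ 2 * (2 : ℝ) ^ (k - (N : ℤ)) → |f z - f z'| ≤ ε := by
    intro z z' hz
    have := hu₁ (a := z) (b := z') (by
      rw [dist_eq_norm]
      exact hz.trans_lt (hNb.trans_le (min_le_left _ _)))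
    rw [Real.dist_eq] at this
    exact this.le
  have hεg : ∀ z z' : ℂ, ‖z - z'‖ ≤ 2 * (2 : ℝ) ^ (k - (N : ℤ)) → |g z - g z'| ≤ ε := by
    intro z z' hz
    have := hu₂ (a := z) (b := z') (by
      rw [dist_eq_norm]
      exact hz.trans_lt (hNb.trans_le (min_le_right _ _)))
    rw [Real.dist_eq] at this
    exact this.le
  -- the majorant
  have hT : ∀ a b, Integrable (fun c : ℂ => Df a f (c, k) * Df b g (c, k)) := fun a b =>
    ((continuous_Df a f hf k).mul (continuous_Df b g hg k)).integrable_of_hasCompactSupport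
      ((hasCompactSupport_Df a f hfs k).mul_right)
  have hsum : Integrable (fun c : ℂ => ∑ a ∈ Finset.range N, ∑ b ∈ Finset.range N,
      min (ω a) (ω b) * (Df a f (c, k) * Df b g (c, k))) :=
    integrable_finsetSum _ fun a _ => integrable_finsetSum _ fun b _ => (hT a b).const_mul _
  have hind : Integrable (S.indicator (fun _ : ℂ => 4 * Γ * B * ε)) :=
    (integrable_indicator_iff hSm).2 (integrableOn_const hSf)
  have hmaj : Integrable (fun c : ℂ => ((2 : ℝ) ^ k) ^ 4 *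
      ((∑ a ∈ Finset.range N, ∑ b ∈ Finset.range N,
        min (ω a) (ω b) * (Df a f (c, k) * Df b g (c, k))) +
        S.indicator (fun _ : ℂ => 4 * Γ * B * ε) c)) := (hsum.add hind).const_mul _
  have hle : ∀ c : ℂ, ‖WW G f g (c, k)‖ ≤ ((2 : ℝ) ^ k) ^ 4 *
      ((∑ a ∈ Finset.range N, ∑ b ∈ Finset.range N,
        min (ω a) (ω b) * (Df a f (c, k) * Df b g (c, k))) +
        S.indicator (fun _ : ℂ => 4 * Γ * B * ε) c) := by
    intro c
    by_cases hc : c ∈ S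
    · rw [Set.indicator_of_mem hc]
      exact WW_le G hG Γ hΓ heven k ω hω hcell f g hf hg B hfB hgB N ε hε0.le hεf hεg c
    · rw [hout c hc, norm_zero, Set.indicator_of_notMem hc, add_zero]
      apply mul_nonneg (by positivity)
      refine Finset.sum_nonneg fun a _ => Finset.sum_nonneg fun b _ => ?_
      exact mul_nonneg (le_min (hω a) (hω b)) (mul_nonneg (Df_nonneg a f _) (Df_nonneg b g _))
  have hI := norm_integral_le_of_norm_le hmaj (ae_of_all _ hle)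
  have hval : ∫ c : ℂ, ((2 : ℝ) ^ k) ^ 4 *
      ((∑ a ∈ Finset.range N, ∑ b ∈ Finset.range N,
        min (ω a) (ω b) * (Df a f (c, k) * Df b g (c, k))) +
        S.indicator (fun _ : ℂ => 4 * Γ * B * ε) c) = ((2 : ℝ) ^ k) ^ 4 *
      ((∑ a ∈ Finset.range N, ∑ b ∈ Finset.range N,
        min (ω a) (ω b) * ∫ c : ℂ, Df a f (c, k) * Df b g (c, k)) + m * (4 * Γ * B * ε)) := by
    rw [integral_const_mul, integral_add hsum hind, integral_indicator hSm, setIntegral_const,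
      smul_eq_mul, integral_finsetSum _ fun a _ => integrable_finsetSum _ fun b _ =>
        (hT a b).const_mul _]
    have e2 : ∀ a ∈ Finset.range N, ∫ c : ℂ, ∑ b ∈ Finset.range N,
        min (ω a) (ω b) * (Df a f (c, k) * Df b g (c, k)) = ∑ b ∈ Finset.range N,
        min (ω a) (ω b) * ∫ c : ℂ, Df a f (c, k) * Df b g (c, k) := by
      intro a _
      rw [integral_finsetSum _ fun b _ => (hT a b).const_mul _]
      exact Finset.sum_congr rfl fun b _ => integral_const_mul _ _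
    rw [Finset.sum_congr rfl e2]
  rw [hval] at hI
  rw [norm_mul, norm_inv, Complex.norm_real, Real.norm_eq_abs, abs_of_pos (mul_pos hk0 hk0)]
  have hfin : ((2 : ℝ) ^ k * (2 : ℝ) ^ k)⁻¹ * (((2 : ℝ) ^ k) ^ 4 *
      ((∑ a ∈ Finset.range N, ∑ b ∈ Finset.range N,
        min (ω a) (ω b) * ∫ c : ℂ, Df a f (c, k) * Df b g (c, k)) + m * (4 * Γ * B * ε))) =
      (∑ a ∈ Finset.range N, ∑ b ∈ Finset.range N,
            min (ω a) (ω b) * ((2 : ℝ) ^ k) ^ 2 * ∫ c : ℂ, Df a f (c, k) * Df b g (c, k)) + E * ε := by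
    have e1 : ∑ a ∈ Finset.range N, ∑ b ∈ Finset.range N,
            min (ω a) (ω b) * ((2 : ℝ) ^ k) ^ 2 * ∫ c : ℂ, Df a f (c, k) * Df b g (c, k) =
        ((2 : ℝ) ^ k) ^ 2 * ∑ a ∈ Finset.range N, ∑ b ∈ Finset.range N,
            min (ω a) (ω b) * ∫ c : ℂ, Df a f (c, k) * Df b g (c, k) := by
      rw [Finset.mul_sum]
      refine Finset.sum_congr rfl fun a _ => ?_
      rw [Finset.mul_sum]
      exact Finset.sum_congr rfl fun b _ => by ring
    rw [e1, hE]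
    field_simp
  have hstep := mul_le_mul_of_nonneg_left hI (inv_nonneg.2 (mul_pos hk0 hk0).le)
  rw [hfin] at hstep
  linarith

end Pool.MP_75bf3e_an.BT
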